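import Pool.Agent.H77.LT.Base

/-!
# [H77 LT GEO] Basic geometry of cells and lines

Definitions in `Base.lean`. Proofs: residues modulo the odd number `N = 2m+1`.
* `lnOf_eq_iff`: the class number `min a.val (N - a.val)` determines `{a,-a}`
  (`(-a).val = N - a.val` for `a ≠ 0`).
* `mkc_eq_iff`: both sides in normal form; if `(x 0).val ≤ m` and `x 0 ≠ 0` then
  `((-x) 0).val > m`.
* `card_pair`: fix `κ ≠ κ'` and lines `x = {a,-a}`, `y = {b,-b}`. Every cell with these lines has
  exactly one sign normalisation with coordinate `κ` equal to `a`; then coordinate `κ'` is `b` or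
  `-b` and the third coordinate is `-(a ± b)`, which must be nonzero. If `x ≠ y` both signs are
  allowed and give different cells (`b ≠ -b` as `N` is odd); if `x = y` exactly one sign is allowed.
* `card_line`: sum `card_pair` over `y`: `1 + 2 (m - 1)`.
* `card_cell`: sum `card_line` over the lines of direction `0`.
-/

open Finset

namespace H77.LT

variable {m n : ℕ}

theorem geo_val_neg {a : ZN m} (h : a ≠ 0) : (-a).val = 2 * m + 1 - a.val := by
  have : NeZero a := ⟨h⟩
  exact ZMod.val_neg_of_ne_zero a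

theorem geo_val_pos {a : ZN m} (h : a ≠ 0) : 1 ≤ a.val := by
  have h1 : a.val ≠ 0 := fun h2 => h ((ZMod.val_eq_zero a).1 h2)
  omega

theorem two_ne_zero' {a : ZN m} (h : a ≠ 0) : a ≠ -a := by
  intro h1
  have h2 := congrArg ZMod.val h1
  rw [geo_val_neg h] at h2
  have h3 : a.val < 2 * m + 1 := ZMod.val_lt a
  omega

theorem lnOf_eq_iff (a b : ZN m) (ha : a ≠ 0) (hb : b ≠ 0) :
    lnOf a ha = lnOf b hb ↔ (a = b ∨ a = -b) := by
  have h1 : a = b ↔ a.val = b.val := ⟨fun h => by rw [h], fun h => ZMod.val_injective _ h⟩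
  have h2 : a = -b ↔ a.val = 2 * m + 1 - b.val := by
    rw [← geo_val_neg hb]
    exact ⟨fun h => by rw [h], fun h => ZMod.val_injective _ h⟩
  have h3 : a.val < 2 * m + 1 := ZMod.val_lt a
  have h4 : b.val < 2 * m + 1 := ZMod.val_lt b
  have h5 := geo_val_pos ha
  have h6 := geo_val_pos hb
  rw [h1, h2, lnOf, lnOf, Fin.mk.injEq, cls, cls]
  omega

theorem lnOf_surj (l : Fin m) : ∃ (a : ZN m) (ha : a ≠ 0), lnOf a ha = l := by
  have hl := l.isLt
  have hv : (((l.val + 1 : ℕ) : ZN m)).val = l.val + 1 := ZMod.val_cast_of_lt (by omega)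
  have ha : ((l.val + 1 : ℕ) : ZN m) ≠ 0 := by
    intro h
    rw [h, ZMod.val_zero] at hv
    omega
  refine ⟨((l.val + 1 : ℕ) : ZN m), ha, ?_⟩
  apply Fin.ext
  change cls ((l.val + 1 : ℕ) : ZN m) - 1 = l.val
  rw [cls, hv]
  omega

theorem geo_neg_gt {x y : Fin 3 → ZN m} (hy : Valid y) (h : x = -y) :
    (x 0).val = 2 * m + 1 - (y 0).val := by
  rw [h, Pi.neg_apply, geo_val_neg (hy.1 0)]

theorem mkc_eq_iff (x y : Fin 3 → ZN m) (hx : Valid x) (hy : Valid y) :
    mkc x hx = mkc y hy ↔ (x = y ∨ x = -y) := by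
  have h1 : (x 0).val < 2 * m + 1 := ZMod.val_lt _
  have h2 : (y 0).val < 2 * m + 1 := ZMod.val_lt _
  unfold mkc
  by_cases hx' : (x 0).val ≤ m
  · by_cases hy' : (y 0).val ≤ m
    · rw [dif_pos hx', dif_pos hy', Subtype.mk.injEq]
      constructor
      · exact Or.inl
      · rintro (h | h)
        · exact h
        · have := geo_neg_gt hy h
          omega
    · rw [dif_pos hx', dif_neg hy', Subtype.mk.injEq]
      constructor
      · exact Or.inr
      · rintro (h | h)
        · rw [h] at hx'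
          exact absurd hx' hy'
        · exact h
  · by_cases hy' : (y 0).val ≤ m
    · rw [dif_neg hx', dif_pos hy', Subtype.mk.injEq, neg_eq_iff_eq_neg]
      constructor
      · exact Or.inr
      · rintro (h | h)
        · rw [h] at hx'
          exact absurd hy' hx'
        · exact h
    · rw [dif_neg hx', dif_neg hy', Subtype.mk.injEq, neg_inj]
      constructor
      · exact Or.inl
      · rintro (h | h)
        · exact h
        · have := geo_neg_gt hy h
          omega

theorem mkc_self (q : Cell m) : mkc q.1 q.2.1 = q := by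
  unfold mkc
  rw [dif_pos q.2.2]

theorem ln_mkc (κ : Fin 3) (x : Fin 3 → ZN m) (hx : Valid x) :
    ln κ (mkc x hx) = lnOf (x κ) (hx.1 κ) := by
  unfold ln
  rw [lnOf_eq_iff]
  unfold mkc
  split_ifs with h
  · exact Or.inl rfl
  · exact Or.inr rfl

/-- the zero sum triple with given coordinates `κ`, `κ'` -/
def geo_tr (κ κ' : Fin 3) (a b : ZN m) : Fin 3 → ZN m :=
  fun i => if i = κ then a else if i = κ' then b else -a - b

theorem geo_tr_valid {κ κ' : Fin 3} (h : κ ≠ κ') {a b : ZN m} (ha : a ≠ 0) (hb : b ≠ 0)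
    (hab : a ≠ -b) : Valid (geo_tr κ κ' a b) := by
  constructor
  · intro i
    unfold geo_tr
    split_ifs
    · exact ha
    · exact hb
    · intro h1
      apply hab
      linear_combination -h1
  · unfold geo_tr
    fin_cases κ <;> fin_cases κ' <;> simp at h ⊢ <;> ring

theorem geo_tr_eq {κ κ' : Fin 3} (h : κ ≠ κ') {z : Fin 3 → ZN m} (hz : Valid z) {a b : ZN m}
    (ha : z κ = a) (hb : z κ' = b) : z = geo_tr κ κ' a b := by
  subst ha hb
  have h2 := hz.2
  funext i
  unfold geo_tr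
  by_cases h3 : i = κ
  · rw [if_pos h3, h3]
  · rw [if_neg h3]
    by_cases h4 : i = κ'
    · rw [if_pos h4, h4]
    · rw [if_neg h4]
      have h5 : z i + z κ + z κ' = 0 := by
        rw [← h2]
        fin_cases κ <;> fin_cases κ' <;> fin_cases i <;> simp at h h3 h4 ⊢ <;> ring
      linear_combination h5

theorem geo_tr_neg {κ κ' : Fin 3} (a b : ZN m) :
    geo_tr κ κ' (-a) (-b) = -geo_tr κ κ' a b := by
  funext i
  rw [Pi.neg_apply]
  unfold geo_tr
  split_ifs
  · rfl
  · rfl
  · ring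

theorem geo_tr_fst (κ κ' : Fin 3) (a b : ZN m) : geo_tr κ κ' a b κ = a := by
  unfold geo_tr
  rw [if_pos rfl]

theorem geo_tr_snd {κ κ' : Fin 3} (h : κ ≠ κ') (a b : ZN m) : geo_tr κ κ' a b κ' = b := by
  unfold geo_tr
  rw [if_neg h.symm, if_pos rfl]

/-- the cell is determined by two coordinates, up to sign -/
theorem geo_mkc {κ κ' : Fin 3} (h : κ ≠ κ') (q : Cell m) {a b : ZN m}
    (hv : Valid (geo_tr κ κ' a b))
    (hab : (q.1 κ = a ∧ q.1 κ' = b) ∨ (q.1 κ = -a ∧ q.1 κ' = -b)) :
    q = mkc (geo_tr κ κ' a b) hv := by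
  have h1 : mkc q.1 q.2.1 = mkc (geo_tr κ κ' a b) hv := by
    rw [mkc_eq_iff]
    rcases hab with ⟨h2, h3⟩ | ⟨h2, h3⟩
    · exact Or.inl (geo_tr_eq h q.2.1 h2 h3)
    · right
      rw [← geo_tr_neg]
      exact geo_tr_eq h q.2.1 h2 h3
  rw [mkc_self] at h1
  exact h1

theorem geo_ln_mkc {κ κ' : Fin 3} (h : κ ≠ κ') {a b : ZN m} (ha : a ≠ 0) (hb : b ≠ 0)
    (hv : Valid (geo_tr κ κ' a b)) :
    ln κ (mkc (geo_tr κ κ' a b) hv) = lnOf a ha ∧
      ln κ' (mkc (geo_tr κ κ' a b) hv) = lnOf b hb := by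
  rw [ln_mkc, ln_mkc, lnOf_eq_iff, lnOf_eq_iff, geo_tr_fst, geo_tr_snd h]
  exact ⟨Or.inl rfl, Or.inl rfl⟩

theorem card_pair (κ κ' : Fin 3) (h : κ ≠ κ') (x y : Fin m) :
    (univ.filter (fun q : Cell m => ln κ q = x ∧ ln κ' q = y)).card = if x = y then 1 else 2 := by
  obtain ⟨a, ha, rfl⟩ := lnOf_surj x
  by_cases hxy : lnOf a ha = y
  · subst hxy
    rw [if_pos rfl]
    have hv : Valid (geo_tr κ κ' a a) := geo_tr_valid h ha ha (two_ne_zero' ha)
    rw [Finset.card_eq_one]
    refine ⟨mkc (geo_tr κ κ' a a) hv, ?_⟩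
    ext q
    rw [mem_filter, mem_singleton]
    constructor
    · rintro ⟨_, h1, h2⟩
      unfold ln at h1 h2
      rw [lnOf_eq_iff] at h1 h2
      apply geo_mkc h
      have h3 : q.1 κ ≠ -q.1 κ' := by
        intro h4
        have h5 := geo_tr_eq h q.2.1 rfl rfl
        have h6 : ∃ i : Fin 3, i ≠ κ ∧ i ≠ κ' := by
          fin_cases κ <;> fin_cases κ' <;> simp at h ⊢ <;> decide
        obtain ⟨i, hi1, hi2⟩ := h6
        have h7 := congrFun h5 i
        unfold geo_tr at h7
        rw [if_neg hi1, if_neg hi2, h4] at h7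
        apply q.2.1.1 i
        rw [h7]
        ring
      rcases h1 with h1 | h1 <;> rcases h2 with h2 | h2
      · exact Or.inl ⟨h1, h2⟩
      · exfalso
        apply h3
        rw [h1, h2, neg_neg]
      · exfalso
        apply h3
        rw [h1, h2]
      · exact Or.inr ⟨h1, h2⟩
    · rintro rfl
      exact ⟨mem_univ _, geo_ln_mkc h ha ha hv⟩
  · rw [if_neg hxy]
    obtain ⟨b, hb, rfl⟩ := lnOf_surj y
    rw [lnOf_eq_iff] at hxy
    push Not at hxy
    obtain ⟨hab1, hab2⟩ := hxy
    have hb' : -b ≠ 0 := neg_ne_zero.mpr hb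
    have hv1 : Valid (geo_tr κ κ' a b) := geo_tr_valid h ha hb hab2
    have hv2 : Valid (geo_tr κ κ' a (-b)) := geo_tr_valid h ha hb' (by rw [neg_neg]; exact hab1)
    have hne : mkc (geo_tr κ κ' a b) hv1 ≠ mkc (geo_tr κ κ' a (-b)) hv2 := by
      rw [Ne, mkc_eq_iff]
      rintro (h1 | h1)
      · have h2 := congrFun h1 κ'
        rw [geo_tr_snd h, geo_tr_snd h] at h2
        exact two_ne_zero' hb h2
      · have h2 := congrFun h1 κ
        rw [Pi.neg_apply, geo_tr_fst, geo_tr_fst] at h2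
        exact two_ne_zero' ha h2
    rw [Finset.card_eq_two]
    refine ⟨_, _, hne, ?_⟩
    ext q
    rw [mem_filter, mem_insert, mem_singleton]
    constructor
    · rintro ⟨_, h1, h2⟩
      unfold ln at h1 h2
      rw [lnOf_eq_iff] at h1 h2
      rcases h1 with h1 | h1 <;> rcases h2 with h2 | h2
      · exact Or.inl (geo_mkc h q hv1 (Or.inl ⟨h1, h2⟩))
      · exact Or.inr (geo_mkc h q hv2 (Or.inl ⟨h1, h2⟩))
      · exact Or.inr (geo_mkc h q hv2 (Or.inr ⟨h1, by rw [neg_neg]; exact h2⟩))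
      · exact Or.inl (geo_mkc h q hv1 (Or.inr ⟨h1, h2⟩))
    · rintro (rfl | rfl)
      · exact ⟨mem_univ _, geo_ln_mkc h ha hb hv1⟩
      · refine ⟨mem_univ _, (geo_ln_mkc h ha hb' hv2).1, ?_⟩
        rw [(geo_ln_mkc h ha hb' hv2).2, lnOf_eq_iff]
        exact Or.inr rfl

theorem card_line (κ : Fin 3) (l : Fin m) :
    (univ.filter (fun q : Cell m => ln κ q = l)).card = 2 * m - 1 := by
  have hκ : κ ≠ κ + 1 := by
    fin_cases κ <;> decide
  have h1 : (univ.filter (fun q : Cell m => ln κ q = l)).card =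
      ∑ y : Fin m, if l = y then 1 else 2 := by
    rw [Finset.card_eq_sum_card_fiberwise (f := ln (κ + 1)) (t := univ) (fun _ _ => mem_univ _)]
    apply sum_congr rfl
    intro y _
    rw [filter_filter, card_pair κ (κ + 1) hκ l y]
  have h2 : (∑ y : Fin m, if l = y then 1 else 2) + (∑ y : Fin m, if l = y then 1 else 0) =
      2 * m := by
    rw [← sum_add_distrib]
    have h3 : ∀ y ∈ (univ : Finset (Fin m)),
        ((if l = y then 1 else 2) + (if l = y then 1 else 0) : ℕ) = 2 := by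
      intro y _
      split_ifs <;> rfl
    rw [sum_congr rfl h3, sum_const, card_univ, Fintype.card_fin, smul_eq_mul, mul_comm]
  have h4 : (∑ y : Fin m, if l = y then 1 else 0) = 1 := by
    rw [sum_ite_eq, if_pos (mem_univ _)]
  rw [h1]
  omega

theorem card_cell : Fintype.card (Cell m) = m * (2 * m - 1) := by
  rw [← Finset.card_univ,
    Finset.card_eq_sum_card_fiberwise (f := ln (m := m) 0) (t := univ) (fun _ _ => mem_univ _)]
  rw [sum_congr rfl (fun l _ => card_line 0 l), sum_const, card_univ, Fintype.card_fin,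
    smul_eq_mul]

end H77.LT
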