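import Pool.Agent.H77.LT.Base

/-!
# [H77 LT PML] Matchings, edges and stars: basic facts

All facts are immediate from the definitions in `Base.lean`. `Fin 3` has three elements; the edge
`ed q s` has four elements, one cell and one entry `(κ, ln κ q, s)` for each `κ`.
* `PM_union`, `PM_biUnion`: unite the matchings.
* `cov_deg_*`: a matching covers as many cells on the line `(κ,l)` as entries `(κ,l,*)`: both are
  the number of its edges `(q,s)` with `ln κ q = l`. It covers as many entries `(κ,*,s)` as
  `(κ',*,s)`: both are the number of its edges with symbol `s`.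
* `ed_inter`: two different edges with a common cell have no other common vertex (they have
  different symbols); an entry `(κ,l,s)` lies in `ed q s'` iff `s' = s` and `ln κ q = l`.
-/

open Finset

namespace H77.LT

variable {m n : ℕ}

theorem mem_ed_inl (q q' : Cell m) (s : Fin n) :
    (Sum.inl q' : Vt m n) ∈ ed q s ↔ q' = q := by
  unfold ed
  simp

theorem mem_ed_inr (q : Cell m) (s s' : Fin n) (κ : Fin 3) (l : Fin m) :
    (Sum.inr (κ, l, s') : Vt m n) ∈ ed q s ↔ (s' = s ∧ l = ln κ q) := by
  unfold ed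
  rw [Finset.mem_insert, Finset.mem_image]
  constructor
  · rintro (h | ⟨κ', _, h⟩)
    · exact absurd h (by simp)
    · have h1 := Sum.inr.inj h
      simp only [Prod.mk.injEq] at h1
      obtain ⟨h2, h3, h4⟩ := h1
      subst h2
      exact ⟨h4.symm, h3.symm⟩
  · rintro ⟨h1, h2⟩
    right
    exact ⟨κ, Finset.mem_univ κ, by rw [h1, h2]⟩

theorem card_ed (q : Cell m) (s : Fin n) : (ed q s : Finset (Vt m n)).card = 4 := by
  unfold ed
  rw [Finset.card_insert_of_notMem, Finset.card_image_of_injective]
  · simp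
  · intro κ κ' h
    have h1 := Sum.inr.inj h
    simp only [Prod.mk.injEq] at h1
    exact h1.1
  · rw [Finset.mem_image]
    rintro ⟨κ, _, h⟩
    exact absurd h (by simp)

theorem mem_star_inl (q : Cell m) (σ : Star m n) :
    σ ∈ star (Sum.inl q : Vt m n) ↔ ∃ κ, σ = Sum.inl (κ, ln κ q) := by
  unfold star
  simp only [Finset.mem_image, Finset.mem_univ, true_and]
  constructor
  · rintro ⟨κ, h⟩
    exact ⟨κ, h.symm⟩
  · rintro ⟨κ, h⟩
    exact ⟨κ, h.symm⟩

theorem mem_star_inr (κ : Fin 3) (l : Fin m) (s : Fin n) (σ : Star m n) :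
    σ ∈ star (Sum.inr (κ, l, s) : Vt m n) ↔
      (σ = Sum.inr (Sum.inl (κ, l)) ∨ σ = Sum.inr (Sum.inr (κ, s))) := by
  unfold star
  simp only [Finset.mem_insert, Finset.mem_singleton]

theorem card_star (v : Vt m n) : (star v).card ≤ 3 := by
  rcases v with q | e
  · unfold star
    refine Finset.card_image_le.trans ?_
    simp
  · unfold star
    exact Finset.card_le_two.trans (by norm_num)

theorem deg_mono (U W : Finset (Vt m n)) (h : U ⊆ W) (σ : Star m n) : deg U σ ≤ deg W σ := by
  unfold deg
  exact Finset.card_le_card (Finset.filter_subset_filter _ h)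

theorem deg_union_le (U W : Finset (Vt m n)) (σ : Star m n) :
    deg (U ∪ W) σ ≤ deg U σ + deg W σ := by
  unfold deg
  rw [Finset.filter_union]
  exact Finset.card_union_le _ _

/-- a set with few vertices in every star has few vertices -/
theorem card_le_of_deg (U : Finset (Vt m n)) (L : ℕ) (h : ∀ σ, deg U σ ≤ L) :
    U.card ≤ 4 * m * L := by
  classical
  let g : (Fin m ⊕ (Fin 3 × Fin m)) → Star m n := fun j =>
    match j with
    | Sum.inl l => Sum.inl (0, l)
    | Sum.inr e => Sum.inr (Sum.inl e)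
  have h1 : U ⊆ (univ : Finset (Fin m ⊕ (Fin 3 × Fin m))).biUnion
      (fun j => U.filter (fun v => g j ∈ star v)) := by
    intro v hv
    rw [Finset.mem_biUnion]
    rcases v with q | ⟨κ, l, s⟩
    · refine ⟨Sum.inl (ln 0 q), Finset.mem_univ _, ?_⟩
      rw [Finset.mem_filter]
      refine ⟨hv, ?_⟩
      rw [mem_star_inl]
      exact ⟨0, rfl⟩
    · refine ⟨Sum.inr (κ, l), Finset.mem_univ _, ?_⟩
      rw [Finset.mem_filter]
      refine ⟨hv, ?_⟩
      rw [mem_star_inr]
      exact Or.inl rfl
  calc U.card ≤ ((univ : Finset (Fin m ⊕ (Fin 3 × Fin m))).biUnion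
      (fun j => U.filter (fun v => g j ∈ star v))).card := Finset.card_le_card h1
    _ ≤ ∑ j ∈ (univ : Finset (Fin m ⊕ (Fin 3 × Fin m))),
        (U.filter (fun v => g j ∈ star v)).card := Finset.card_biUnion_le
    _ ≤ ∑ _j ∈ (univ : Finset (Fin m ⊕ (Fin 3 × Fin m))), L :=
        Finset.sum_le_sum fun j _ => h (g j)
    _ = 4 * m * L := by
        rw [Finset.sum_const, Finset.card_univ, Fintype.card_sum, Fintype.card_prod,
          Fintype.card_fin, Fintype.card_fin, smul_eq_mul]
        ring

private theorem PMl_cov_union (M N : Finset (Cell m × Fin n)) :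
    cov (M ∪ N) = cov M ∪ cov N := by
  unfold cov
  rw [Finset.union_biUnion]

private theorem PMl_ed_sub (M : Finset (Cell m × Fin n)) (e : Cell m × Fin n) (he : e ∈ M) :
    ed e.1 e.2 ⊆ cov M := by
  unfold cov
  exact Finset.subset_biUnion_of_mem (fun e : Cell m × Fin n => ed e.1 e.2) he

theorem PM_empty : PM (∅ : Finset (Vt m n)) := by
  refine ⟨∅, ?_, ?_⟩
  · intro e he
    exact absurd he (Finset.notMem_empty e)
  · unfold cov
    exact Finset.biUnion_empty

theorem PM_ed (q : Cell m) (s : Fin n) : PM (ed q s : Finset (Vt m n)) := by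
  refine ⟨{(q, s)}, ?_, ?_⟩
  · intro e he f hf hne
    rw [Finset.mem_singleton] at he hf
    exact absurd (he.trans hf.symm) hne
  · unfold cov
    rw [Finset.singleton_biUnion]

theorem PM_union (U W : Finset (Vt m n)) (hU : PM U) (hW : PM W) (h : Disjoint U W) :
    PM (U ∪ W) := by
  obtain ⟨M, hM, rfl⟩ := hU
  obtain ⟨N, hN, rfl⟩ := hW
  refine ⟨M ∪ N, ?_, PMl_cov_union M N⟩
  intro e he f hf hne
  rcases Finset.mem_union.1 he with he | he <;> rcases Finset.mem_union.1 hf with hf | hf
  · exact hM e he f hf hne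
  · exact Finset.disjoint_of_subset_left (PMl_ed_sub M e he)
      (Finset.disjoint_of_subset_right (PMl_ed_sub N f hf) h)
  · exact Finset.disjoint_of_subset_left (PMl_ed_sub N e he)
      (Finset.disjoint_of_subset_right (PMl_ed_sub M f hf) h.symm)
  · exact hN e he f hf hne

theorem PM_biUnion {J : Type} [DecidableEq J] (s : Finset J) (U : J → Finset (Vt m n))
    (hU : ∀ j ∈ s, PM (U j)) (h : ∀ i ∈ s, ∀ j ∈ s, i ≠ j → Disjoint (U i) (U j)) :
    PM (s.biUnion U) := by
  induction s using Finset.induction_on with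
  | empty =>
    rw [Finset.biUnion_empty]
    exact PM_empty
  | insert a s ha ih =>
    rw [Finset.biUnion_insert]
    apply PM_union
    · exact hU a (Finset.mem_insert_self a s)
    · apply ih
      · intro j hj
        exact hU j (Finset.mem_insert_of_mem hj)
      · intro i hi j hj hij
        exact h i (Finset.mem_insert_of_mem hi) j (Finset.mem_insert_of_mem hj) hij
    · rw [Finset.disjoint_biUnion_right]
      intro j hj
      apply h a (Finset.mem_insert_self a s) j (Finset.mem_insert_of_mem hj)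
      rintro rfl
      exact ha hj

private theorem PMl_deg_cov (M : Finset (Cell m × Fin n)) (hM : Mat M) (σ : Star m n) :
    deg (cov M) σ = ∑ e ∈ M, deg (ed e.1 e.2) σ := by
  unfold deg cov
  rw [Finset.filter_biUnion, Finset.card_biUnion]
  intro e he f hf hne
  exact Finset.disjoint_filter_filter (hM e he f hf hne)

private theorem PMl_deg_ed_cell (q : Cell m) (s : Fin n) (κ : Fin 3) (l : Fin m) :
    deg (ed q s : Finset (Vt m n)) (Sum.inl (κ, l)) = if ln κ q = l then 1 else 0 := by
  unfold deg
  split_ifs with h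
  · rw [Finset.card_eq_one]
    refine ⟨Sum.inl q, ?_⟩
    ext v
    rw [Finset.mem_filter, Finset.mem_singleton]
    constructor
    · rintro ⟨h1, h2⟩
      rcases v with q' | ⟨κ', l', s'⟩
      · rw [(mem_ed_inl q q' s).1 h1]
      · rw [mem_star_inr] at h2
        rcases h2 with h2 | h2 <;> exact absurd h2 (by simp)
    · rintro rfl
      refine ⟨(mem_ed_inl q q s).2 rfl, ?_⟩
      rw [mem_star_inl]
      exact ⟨κ, by rw [h]⟩
  · rw [Finset.card_eq_zero, Finset.filter_eq_empty_iff]
    intro v h1 h2
    rcases v with q' | ⟨κ', l', s'⟩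
    · rw [mem_ed_inl] at h1
      subst h1
      rw [mem_star_inl] at h2
      obtain ⟨κ', h3⟩ := h2
      have h4 := Sum.inl.inj h3
      simp only [Prod.mk.injEq] at h4
      obtain ⟨h5, h6⟩ := h4
      subst h5
      exact h h6.symm
    · rw [mem_star_inr] at h2
      rcases h2 with h2 | h2 <;> exact absurd h2 (by simp)

private theorem PMl_deg_ed_line (q : Cell m) (s : Fin n) (κ : Fin 3) (l : Fin m) :
    deg (ed q s : Finset (Vt m n)) (Sum.inr (Sum.inl (κ, l))) = if ln κ q = l then 1 else 0 := by
  unfold deg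
  split_ifs with h
  · rw [Finset.card_eq_one]
    refine ⟨Sum.inr (κ, l, s), ?_⟩
    ext v
    rw [Finset.mem_filter, Finset.mem_singleton]
    constructor
    · rintro ⟨h1, h2⟩
      rcases v with q' | ⟨κ', l', s'⟩
      · rw [mem_star_inl] at h2
        obtain ⟨κ', h3⟩ := h2
        exact absurd h3 (by simp)
      · rw [mem_ed_inr] at h1
        rw [mem_star_inr] at h2
        rcases h2 with h2 | h2
        · have h3 := Sum.inl.inj (Sum.inr.inj h2)
          simp only [Prod.mk.injEq] at h3
          rw [h1.1, ← h3.1, ← h3.2]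
        · exact absurd (Sum.inr.inj h2) (by simp)
    · rintro rfl
      refine ⟨(mem_ed_inr q s s κ l).2 ⟨rfl, h.symm⟩, ?_⟩
      rw [mem_star_inr]
      exact Or.inl rfl
  · rw [Finset.card_eq_zero, Finset.filter_eq_empty_iff]
    intro v h1 h2
    rcases v with q' | ⟨κ', l', s'⟩
    · rw [mem_star_inl] at h2
      obtain ⟨κ', h3⟩ := h2
      exact absurd h3 (by simp)
    · rw [mem_ed_inr] at h1
      rw [mem_star_inr] at h2
      rcases h2 with h2 | h2
      · have h3 := Sum.inl.inj (Sum.inr.inj h2)
        simp only [Prod.mk.injEq] at h3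
        obtain ⟨h4, h5⟩ := h3
        subst h4
        exact h (h1.2.symm.trans h5.symm)
      · exact absurd (Sum.inr.inj h2) (by simp)

private theorem PMl_deg_ed_symb (q : Cell m) (s s' : Fin n) (κ : Fin 3) :
    deg (ed q s : Finset (Vt m n)) (Sum.inr (Sum.inr (κ, s'))) = if s' = s then 1 else 0 := by
  unfold deg
  split_ifs with h
  · rw [Finset.card_eq_one]
    refine ⟨Sum.inr (κ, ln κ q, s), ?_⟩
    ext v
    rw [Finset.mem_filter, Finset.mem_singleton]
    constructor
    · rintro ⟨h1, h2⟩
      rcases v with q' | ⟨κ', l', t⟩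
      · rw [mem_star_inl] at h2
        obtain ⟨κ', h3⟩ := h2
        exact absurd h3 (by simp)
      · rw [mem_ed_inr] at h1
        rw [mem_star_inr] at h2
        rcases h2 with h2 | h2
        · exact absurd (Sum.inr.inj h2) (by simp)
        · have h3 := Sum.inr.inj (Sum.inr.inj h2)
          simp only [Prod.mk.injEq] at h3
          obtain ⟨h4, _⟩ := h3
          subst h4
          rw [h1.1, h1.2]
    · rintro rfl
      refine ⟨(mem_ed_inr q s s κ _).2 ⟨rfl, rfl⟩, ?_⟩
      rw [mem_star_inr, h]
      exact Or.inr rfl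
  · rw [Finset.card_eq_zero, Finset.filter_eq_empty_iff]
    intro v h1 h2
    rcases v with q' | ⟨κ', l', t⟩
    · rw [mem_star_inl] at h2
      obtain ⟨κ', h3⟩ := h2
      exact absurd h3 (by simp)
    · rw [mem_ed_inr] at h1
      rw [mem_star_inr] at h2
      rcases h2 with h2 | h2
      · exact absurd (Sum.inr.inj h2) (by simp)
      · have h3 := Sum.inr.inj (Sum.inr.inj h2)
        simp only [Prod.mk.injEq] at h3
        exact h (h3.2.trans h1.1)

theorem cov_deg_line (W : Finset (Vt m n)) (h : PM W) (κ : Fin 3) (l : Fin m) :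
    deg W (Sum.inl (κ, l)) = deg W (Sum.inr (Sum.inl (κ, l))) := by
  obtain ⟨M, hM, rfl⟩ := h
  rw [PMl_deg_cov M hM, PMl_deg_cov M hM]
  refine Finset.sum_congr rfl fun e _ => ?_
  rw [PMl_deg_ed_cell, PMl_deg_ed_line]

theorem cov_deg_symb (W : Finset (Vt m n)) (h : PM W) (κ κ' : Fin 3) (s : Fin n) :
    deg W (Sum.inr (Sum.inr (κ, s))) = deg W (Sum.inr (Sum.inr (κ', s))) := by
  obtain ⟨M, hM, rfl⟩ := h
  rw [PMl_deg_cov M hM, PMl_deg_cov M hM]
  refine Finset.sum_congr rfl fun e _ => ?_
  rw [PMl_deg_ed_symb, PMl_deg_ed_symb]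

end H77.LT
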