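import Pool.Agent.H77.LT.EXa

/-!
# [H77 LT EXC] Bernstein inequality for Lipschitz functions of independent Bernoulli variables

`EX_exp`: if `|f (insert e T) - f T| ≤ c e` for `e ∈ E`, `T ⊆ E`, `e ∉ T`, `|lam| c e ≤ 1`, then
`EX exp(lam (f - EX f)) ≤ exp(lam^2 sum_{e in E} p e (c e)^2)`.

Proof. Induction on `E` (statement for all `f`). `E = insert e E1`: put
`g T = (1 - p e) f T + p e f (insert e T)` for `T ⊆ E1`. By `EX_insert`, `EX E f = EX E1 g`, and
`g` is `c`-Lipschitz on `E1` (convex combination; `insert e' (insert e T) = insert e (insert e' T)`).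
For fixed `T ⊆ E1` put `d = f (insert e T) - f T`, `|d| ≤ c e`; then
`f T - g T = - p d`, `f (insert e T) - g T = (1-p) d` and
`(1-p) exp(- lam p d) + p exp(lam (1-p) d) ≤ 1 + lam^2 d^2 p (1-p) ≤ exp(lam^2 p (c e)^2)`
(use `exp x ≤ 1 + x + x^2` for `|x| ≤ 1`; the linear terms cancel; the quadratic terms are
`lam^2 d^2 ((1-p) p^2 + p (1-p)^2) = lam^2 d^2 p (1-p)`). Multiply by `exp(lam (g T - EX g))`, take
`EX E1` and use the induction hypothesis for `g`.

`Pr_dev`: Markov for `exp(lam(f - EX f))` and for `-f`: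
`P(|f - EX f| ≥ t) ≤ 2 exp(-lam t + lam^2 s)` whenever `sum p c^2 ≤ s`, `0 < lam`, `lam c e ≤ 1`.
-/

open Finset

namespace H77.LT

variable {ι : Type} [DecidableEq ι]

theorem EXc_two_point (q x a : ℝ) (hq0 : 0 ≤ q) (hq1 : q ≤ 1) (hx : |x| ≤ a) (ha : a ≤ 1) :
    (1 - q) * Real.exp (-(q * x)) + q * Real.exp ((1 - q) * x) ≤ Real.exp (q * a ^ 2) := by
  have ha0 : 0 ≤ a := le_trans (abs_nonneg x) hx
  have hx1 : |x| ≤ 1 := le_trans hx ha
  have h1 : Real.exp (-(q * x)) ≤ 1 + (-(q * x)) + (-(q * x)) ^ 2 := by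
    have habs : |(-(q * x))| ≤ 1 := by
      rw [abs_neg, abs_mul, abs_of_nonneg hq0]
      nlinarith [abs_nonneg x]
    have := (abs_le.mp (Real.abs_exp_sub_one_sub_id_le habs)).2
    linarith
  have h2 : Real.exp ((1 - q) * x) ≤ 1 + ((1 - q) * x) + ((1 - q) * x) ^ 2 := by
    have habs : |((1 - q) * x)| ≤ 1 := by
      rw [abs_mul, abs_of_nonneg (by linarith : (0 : ℝ) ≤ 1 - q)]
      nlinarith [abs_nonneg x]
    have := (abs_le.mp (Real.abs_exp_sub_one_sub_id_le habs)).2
    linarith
  have h3 : x ^ 2 ≤ a ^ 2 := by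
    rw [← sq_abs x]
    exact pow_le_pow_left₀ (abs_nonneg x) hx 2
  have h4 : (1 - q) * Real.exp (-(q * x)) ≤ (1 - q) * (1 + (-(q * x)) + (-(q * x)) ^ 2) :=
    mul_le_mul_of_nonneg_left h1 (by linarith)
  have h5 : q * Real.exp ((1 - q) * x) ≤ q * (1 + ((1 - q) * x) + ((1 - q) * x) ^ 2) :=
    mul_le_mul_of_nonneg_left h2 hq0
  have h6 : (1 - q) * (1 + (-(q * x)) + (-(q * x)) ^ 2)
      + q * (1 + ((1 - q) * x) + ((1 - q) * x) ^ 2) = 1 + q * (1 - q) * x ^ 2 := by ring
  have h7 : q * (1 - q) * x ^ 2 ≤ q * a ^ 2 := by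
    have h8 : q * (1 - q) * x ^ 2 ≤ q * (1 - q) * a ^ 2 :=
      mul_le_mul_of_nonneg_left h3 (mul_nonneg hq0 (by linarith))
    have h9 : q * (1 - q) * a ^ 2 ≤ q * a ^ 2 := by
      have : q * a ^ 2 - q * (1 - q) * a ^ 2 = q ^ 2 * a ^ 2 := by ring
      have h10 : 0 ≤ q ^ 2 * a ^ 2 := by positivity
      linarith
    linarith
  have h11 : q * a ^ 2 + 1 ≤ Real.exp (q * a ^ 2) := Real.add_one_le_exp _
  linarith

theorem EX_exp (E : Finset ι) (p : ι → ℝ) (hp : ∀ e ∈ E, 0 ≤ p e ∧ p e ≤ 1)
    (c : ι → ℝ) (f : Finset ι → ℝ)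
    (hf : ∀ e ∈ E, ∀ T, T ⊆ E → e ∉ T → |f (insert e T) - f T| ≤ c e)
    (lam : ℝ) (hlam : ∀ e ∈ E, |lam| * c e ≤ 1) :
    EX E p (fun T => Real.exp (lam * (f T - EX E p f)))
      ≤ Real.exp (lam ^ 2 * ∑ e ∈ E, p e * c e ^ 2) := by
  induction E using Finset.induction_on generalizing f with
  | empty => simp [EX]
  | insert e E he ih =>
    have hq := hp e (Finset.mem_insert_self e E)
    set g : Finset ι → ℝ := fun T => (1 - p e) * f T + p e * f (insert e T) with hg
    have hM : EX (insert e E) p f = EX E p g := by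
      rw [EX_insert E p f e he, hg, EX_add, EX_mul_left, EX_mul_left]
    have hc0 : 0 ≤ c e := by
      have := hf e (Finset.mem_insert_self e E) ∅ (Finset.empty_subset _) (Finset.notMem_empty e)
      exact le_trans (abs_nonneg _) this
    have hgl : ∀ e' ∈ E, ∀ T, T ⊆ E → e' ∉ T → |g (insert e' T) - g T| ≤ c e' := by
      intro e' he' T hT heT
      have hne : e' ≠ e := fun h => he (h ▸ he')
      have hE' : e' ∈ insert e E := Finset.mem_insert_of_mem he'
      have h1 := hf e' hE' T (hT.trans (Finset.subset_insert e E)) heT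
      have h2 := hf e' hE' (insert e T) (Finset.insert_subset_insert e hT)
        (by
          rw [Finset.mem_insert, not_or]
          exact ⟨hne, heT⟩)
      have h3 : g (insert e' T) - g T = (1 - p e) * (f (insert e' T) - f T)
          + p e * (f (insert e' (insert e T)) - f (insert e T)) := by
        simp only [hg]
        rw [Finset.insert_comm e e' T]
        ring
      rw [h3]
      calc |(1 - p e) * (f (insert e' T) - f T)
          + p e * (f (insert e' (insert e T)) - f (insert e T))|
          ≤ |(1 - p e) * (f (insert e' T) - f T)|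
            + |p e * (f (insert e' (insert e T)) - f (insert e T))| := abs_add_le _ _
        _ = (1 - p e) * |f (insert e' T) - f T|
            + p e * |f (insert e' (insert e T)) - f (insert e T)| := by
              rw [abs_mul, abs_mul, abs_of_nonneg hq.1,
                abs_of_nonneg (by linarith [hq.2] : (0 : ℝ) ≤ 1 - p e)]
        _ ≤ (1 - p e) * c e' + p e * c e' := by
              apply add_le_add
              · exact mul_le_mul_of_nonneg_left h1 (by linarith [hq.2])
              · exact mul_le_mul_of_nonneg_left h2 hq.1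
        _ = c e' := by ring
    have hIH := ih (fun e' he' => hp e' (Finset.mem_insert_of_mem he')) g hgl
      (fun e' he' => hlam e' (Finset.mem_insert_of_mem he'))
    rw [hM]
    set M : ℝ := EX E p g with hMdef
    rw [EX_insert E p _ e he, ← EX_mul_left, ← EX_mul_left, ← EX_add]
    have hstep : EX E p (fun T => (1 - p e) * Real.exp (lam * (f T - M))
        + p e * Real.exp (lam * (f (insert e T) - M)))
        ≤ EX E p (fun T => Real.exp (p e * (|lam| * c e) ^ 2)
          * Real.exp (lam * (g T - M))) := by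
      apply EX_mono E p (fun e' he' => hp e' (Finset.mem_insert_of_mem he'))
      intro T hT
      have heT : e ∉ T := fun h => he (hT h)
      have hd := hf e (Finset.mem_insert_self e E) T (hT.trans (Finset.subset_insert e E)) heT
      set d : ℝ := f (insert e T) - f T with hdd
      have hx : |lam * d| ≤ |lam| * c e := by
        rw [abs_mul]
        exact mul_le_mul_of_nonneg_left hd (abs_nonneg _)
      have hkey := EXc_two_point (p e) (lam * d) (|lam| * c e) hq.1 hq.2 hx
        (hlam e (Finset.mem_insert_self e E))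
      have e1 : Real.exp (lam * (f T - M))
          = Real.exp (-(p e * (lam * d))) * Real.exp (lam * (g T - M)) := by
        rw [← Real.exp_add]
        congr 1
        simp only [hg, hdd]
        ring
      have e2 : Real.exp (lam * (f (insert e T) - M))
          = Real.exp ((1 - p e) * (lam * d)) * Real.exp (lam * (g T - M)) := by
        rw [← Real.exp_add]
        congr 1
        simp only [hg, hdd]
        ring
      rw [e1, e2]
      have e3 : (1 - p e) * (Real.exp (-(p e * (lam * d))) * Real.exp (lam * (g T - M)))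
          + p e * (Real.exp ((1 - p e) * (lam * d)) * Real.exp (lam * (g T - M)))
          = ((1 - p e) * Real.exp (-(p e * (lam * d)))
            + p e * Real.exp ((1 - p e) * (lam * d))) * Real.exp (lam * (g T - M)) := by ring
      rw [e3]
      exact mul_le_mul_of_nonneg_right hkey (Real.exp_pos _).le
    refine le_trans hstep ?_
    rw [EX_mul_left]
    refine le_trans (mul_le_mul_of_nonneg_left hIH (Real.exp_pos _).le) ?_
    rw [← Real.exp_add, Finset.sum_insert he]
    apply Real.exp_le_exp.mpr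
    rw [mul_pow, sq_abs]
    apply le_of_eq
    ring

theorem Pr_dev (E : Finset ι) (p : ι → ℝ) (hp : ∀ e ∈ E, 0 ≤ p e ∧ p e ≤ 1)
    (c : ι → ℝ) (f : Finset ι → ℝ)
    (hf : ∀ e ∈ E, ∀ T, T ⊆ E → e ∉ T → |f (insert e T) - f T| ≤ c e)
    (s : ℝ) (hs : ∑ e ∈ E, p e * c e ^ 2 ≤ s)
    (lam : ℝ) (hlam0 : 0 < lam) (hlam : ∀ e ∈ E, lam * c e ≤ 1) (t : ℝ) :
    Pr E p (fun T => t ≤ |f T - EX E p f|) ≤ 2 * Real.exp (-lam * t + lam ^ 2 * s) := by
  set M : ℝ := EX E p f with hM
  have h1 := EX_exp E p hp c f hf lam (fun e he => by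
    rw [abs_of_pos hlam0]
    exact hlam e he)
  have h2 := EX_exp E p hp c f hf (-lam) (fun e he => by
    rw [abs_neg, abs_of_pos hlam0]
    exact hlam e he)
  rw [← hM] at h1 h2
  have hexp : Real.exp (lam ^ 2 * ∑ e ∈ E, p e * c e ^ 2) ≤ Real.exp (lam ^ 2 * s) :=
    Real.exp_le_exp.mpr (mul_le_mul_of_nonneg_left hs (sq_nonneg _))
  have hmono : Pr E p (fun T => t ≤ |f T - M|)
      ≤ EX E p (fun T => Real.exp (-lam * t)
        * (Real.exp (lam * (f T - M)) + Real.exp (-lam * (f T - M)))) := by
    unfold Pr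
    apply EX_mono E p hp
    intro T _
    have hpos1 := Real.exp_pos (lam * (f T - M))
    have hpos2 := Real.exp_pos (-lam * (f T - M))
    have hpos3 := Real.exp_pos (-lam * t)
    by_cases ht : t ≤ |f T - M|
    · simp only [ht, if_true]
      have hcase : 1 ≤ Real.exp (-lam * t) * Real.exp (lam * (f T - M))
          ∨ 1 ≤ Real.exp (-lam * t) * Real.exp (-lam * (f T - M)) := by
        rcases le_total 0 (f T - M) with h0 | h0
        · left
          rw [abs_of_nonneg h0] at ht
          rw [← Real.exp_add]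
          apply Real.one_le_exp
          nlinarith
        · right
          rw [abs_of_nonpos h0] at ht
          rw [← Real.exp_add]
          apply Real.one_le_exp
          nlinarith
      rw [mul_add]
      rcases hcase with h | h
      · have := mul_pos hpos3 hpos2
        linarith
      · have := mul_pos hpos3 hpos1
        linarith
    · simp only [ht, if_false]
      positivity
  refine le_trans hmono ?_
  rw [EX_mul_left, EX_add]
  have h3 : EX E p (fun T => Real.exp (lam * (f T - M)))
      + EX E p (fun T => Real.exp (-lam * (f T - M))) ≤ 2 * Real.exp (lam ^ 2 * s) := by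
    have h4 : Real.exp ((-lam) ^ 2 * ∑ e ∈ E, p e * c e ^ 2) ≤ Real.exp (lam ^ 2 * s) := by
      rw [neg_sq]
      exact hexp
    linarith
  refine le_trans (mul_le_mul_of_nonneg_left h3 (Real.exp_pos _).le) ?_
  rw [Real.exp_add]
  apply le_of_eq
  ring

end H77.LT
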