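import Pool.Agent.H77.LT.Par

/-!
# Latin triangles: good choices of the released sets, absorber data. Definitions (no proofs to fill)
-/

open Finset

namespace H77.LT

variable {m n h tL tS : ℕ}

structure GoodCho (B : Brd m n h tL tS) (YN : Finset (Nd h tL tS)) (c : Cho m n h tL tS) :
    Prop where
  t : ∀ a, VT YN a → ln (ndK (ndT a)) (c.cT a) = ndL B (ndT a)
  t12 : ∀ (r : Rc h tL tS) κ', ln κ' (c.cT (Sum.inl r)) ≠ ln κ' (c.cT (Sum.inr (Sum.inl r)))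
  pl : ∀ b, ln (ndK (ndP b)) (c.cP b) ≠ ndL B (ndP b)
  pt : ∀ a b, VT YN a → ndT a = ndP b → ∀ κ', ln κ' (c.cP b) ≠ ln κ' (c.cT a)
  p1 : ∀ (r : Rc h tL tS) κ', ln κ' (c.cP (Sum.inl r)) ≠ ln κ' (c.cT (Sum.inl r)) ∧
    ln κ' (c.cP (Sum.inl r)) ≠ ln κ' (c.cT (Sum.inr (Sum.inl r)))
  p2 : ∀ (r : Rc h tL tS) κ', ln κ' (c.cP (Sum.inr r)) ≠ ln κ' (c.cT (Sum.inl r)) ∧
    ln κ' (c.cP (Sum.inr r)) ≠ ln κ' (c.cT (Sum.inr (Sum.inl r)))
  p34 : ∀ (r : Rc h tL tS) κ', ln κ' (c.cP (Sum.inl r)) ≠ ln κ' (c.cP (Sum.inr r))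
  dT : ∀ a a', VT YN a → VT YN a' → a ≠ a' → Disjoint (tS' B c a) (tS' B c a')
  dP : ∀ b b', b ≠ b' → Disjoint (pS' B c b) (pS' B c b')
  dTP : ∀ a b, VT YN a → Disjoint (tS' B c a) (pS' B c b)

/-- the four released sets of a rectangle -/
def Wr (B : Brd m n h tL tS) (c : Cho m n h tL tS) (r : Rc h tL tS) : Finset (Vt m n) :=
  tS' B c (Sum.inl r) ∪ tS' B c (Sum.inr (Sum.inl r)) ∪ pS' B c (Sum.inl r) ∪ pS' B c (Sum.inr r)

/-- valid pairs of uses at the same node -/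
def VP (YN : Finset (Nd h tL tS)) (x : TU h tL tS × PU h tL tS) : Prop :=
  VT YN x.1 ∧ ndT x.1 = ndP x.2

/-- the complete absorber data: all parts are pairwise disjoint and avoid `U0` -/
structure AbsD (B : Brd m n h tL tS) (YN : Finset (Nd h tL tS)) (U0 : Finset (Vt m n)) where
  c : Cho m n h tL tS
  good : GoodCho B YN c
  U4 : Rc h tL tS → Finset (Vt m n)
  U2 : TU h tL tS × PU h tL tS → Finset (Vt m n)
  dT0 : ∀ a, VT YN a → Disjoint (tS' B c a) U0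
  dP0 : ∀ b, Disjoint (pS' B c b) U0
  pm4 : ∀ r, PM (U4 r)
  pm4' : ∀ r, PM (U4 r ∪ Wr B c r)
  d40 : ∀ r, Disjoint (U4 r) U0
  d4T : ∀ r a, VT YN a → Disjoint (U4 r) (tS' B c a)
  d4P : ∀ r b, Disjoint (U4 r) (pS' B c b)
  d44 : ∀ r r', r ≠ r' → Disjoint (U4 r) (U4 r')
  pm2 : ∀ x, VP YN x → PM (U2 x)
  pm2' : ∀ x, VP YN x → PM (U2 x ∪ (tS' B c x.1 ∪ pS' B c x.2))
  d20 : ∀ x, VP YN x → Disjoint (U2 x) U0
  d2T : ∀ x a, VP YN x → VT YN a → Disjoint (U2 x) (tS' B c a)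
  d2P : ∀ x b, VP YN x → Disjoint (U2 x) (pS' B c b)
  d24 : ∀ x r, VP YN x → Disjoint (U2 x) (U4 r)
  d22 : ∀ x x', VP YN x → VP YN x' → x ≠ x' → Disjoint (U2 x) (U2 x')

open Classical in
/-- all vertices of the absorber data except the entries of `YN` -/
noncomputable def allV {B : Brd m n h tL tS} {YN : Finset (Nd h tL tS)} {U0 : Finset (Vt m n)}
    (A : AbsD B YN U0) : Finset (Vt m n) :=
  ((univ.filter (fun a => VT YN a)).biUnion (tS' B A.c)) ∪ (univ.biUnion (pS' B A.c)) ∪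
    (univ.biUnion A.U4) ∪ ((univ.filter (fun x => VP YN x)).biUnion A.U2)

end H77.LT
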