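import Pool.Agent.H77.LT.PMl

/-!
# [H77 LT PAIRING] Released sets at the nodes are paired

Abstract lemma. `TA`: active tau-uses, `PA`: active pi-uses, all with a node. `P`: the set of all
valid pairs (use, use) at the same node; each has an absorber `U2`. At each node the number of active
tau-uses is the number of active pi-uses, plus one if the node is in `Z`; for nodes in `Z` the vertex
`z ν` together with any `tS a` at this node is a perfect matching (an edge).

Proof. At each node `ν` choose an injection `g` of the active pi-uses at `ν` into the active tau-uses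
at `ν`; it is a bijection if `ν ∉ Z`, and it misses exactly one tau-use `e ν` if `ν ∈ Z`. (Globally:
a map `g : PU → TU`, injective on `PA`, `ndT (g b) = ndP b`, `g b ∈ TA`.) The set in question is the
disjoint union of: `U2 (g b, b) ∪ (tS (g b) ∪ pS b)` for `b ∈ PA`; `U2 x` for the other `x ∈ P`;
`insert (z ν) (tS (e ν))` for `ν ∈ Z`. All are perfectly matchable (`PM_biUnion`, `PM_union`).
-/

open Finset

namespace H77.LT

variable {m n : ℕ}

/-- a map between the active uses -/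
private theorem Pairing_map {TU PU ND : Type} [DecidableEq TU] [DecidableEq PU] [DecidableEq ND]
    [Nonempty TU] (ndT : TU → ND) (ndP : PU → ND) (TA : Finset TU) (PA : Finset PU)
    (Z : Finset ND)
    (hcnt : ∀ ν, (TA.filter (fun a => ndT a = ν)).card
      = (PA.filter (fun b => ndP b = ν)).card + (if ν ∈ Z then 1 else 0)) :
    ∃ (g : PU → TU) (e : ND → TU), (∀ b ∈ PA, g b ∈ TA ∧ ndT (g b) = ndP b) ∧
      (∀ b ∈ PA, ∀ b' ∈ PA, g b = g b' → b = b') ∧
      (∀ ν ∈ Z, e ν ∈ TA ∧ ndT (e ν) = ν ∧ ∀ b ∈ PA, g b ≠ e ν) ∧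
      (∀ a ∈ TA, (∃ b ∈ PA, g b = a) ∨ (∃ ν ∈ Z, e ν = a)) := by
  classical
  have h1 : ∀ ν, ∃ f : PU → TU, (∀ b ∈ PA.filter (fun b => ndP b = ν),
      f b ∈ TA.filter (fun a => ndT a = ν)) ∧
      (∀ b ∈ PA.filter (fun b => ndP b = ν), ∀ b' ∈ PA.filter (fun b => ndP b = ν),
        f b = f b' → b = b') := by
    intro ν
    have h2 : ((PA.filter (fun b => ndP b = ν) : Finset PU) : Set PU).encard ≤
        ((TA.filter (fun a => ndT a = ν) : Finset TU) : Set TU).encard := by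
      rw [Set.encard_coe_eq_coe_finsetCard, Set.encard_coe_eq_coe_finsetCard, hcnt ν]
      exact_mod_cast Nat.le_add_right _ _
    obtain ⟨f, hf1, hf2⟩ := Set.Finite.exists_injOn_of_encard_le (Finset.finite_toSet _) h2
    refine ⟨f, ?_, ?_⟩
    · intro b hb
      have h3 := hf1 (Finset.mem_coe.2 hb)
      exact Finset.mem_coe.1 h3
    · intro b hb b' hb' h
      exact hf2 (Finset.mem_coe.2 hb) (Finset.mem_coe.2 hb') h
  choose f hf1 hf2 using h1
  obtain ⟨g, hg⟩ : ∃ g : PU → TU, ∀ b, g b = f (ndP b) b := ⟨_, fun _ => rfl⟩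
  have hgm : ∀ b ∈ PA, g b ∈ TA ∧ ndT (g b) = ndP b := by
    intro b hb
    have h3 := hf1 (ndP b) b (Finset.mem_filter.2 ⟨hb, rfl⟩)
    rw [← hg, Finset.mem_filter] at h3
    exact h3
  have hgi : ∀ b ∈ PA, ∀ b' ∈ PA, g b = g b' → b = b' := by
    intro b hb b' hb' h
    have h4 : ndP b = ndP b' := by
      rw [← (hgm b hb).2, ← (hgm b' hb').2, h]
    refine hf2 (ndP b) b (Finset.mem_filter.2 ⟨hb, rfl⟩) b'
      (Finset.mem_filter.2 ⟨hb', h4.symm⟩) ?_
    rw [← hg, h, hg, h4]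
  -- the image at a node
  have himg : ∀ ν, ((PA.filter (fun b => ndP b = ν)).image g) ⊆
      TA.filter (fun a => ndT a = ν) := by
    intro ν a ha
    rw [Finset.mem_image] at ha
    obtain ⟨b, hb, rfl⟩ := ha
    rw [Finset.mem_filter] at hb
    rw [Finset.mem_filter]
    exact ⟨(hgm b hb.1).1, (hgm b hb.1).2.trans hb.2⟩
  have hicard : ∀ ν, ((PA.filter (fun b => ndP b = ν)).image g).card =
      (PA.filter (fun b => ndP b = ν)).card := by
    intro ν
    apply Finset.card_image_of_injOn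
    intro b hb b' hb' h
    have hb1 := Finset.mem_filter.1 (Finset.mem_coe.1 hb)
    have hb2 := Finset.mem_filter.1 (Finset.mem_coe.1 hb')
    exact hgi b hb1.1 b' hb2.1 h
  have hex : ∀ ν, ∃ a : TU, ν ∈ Z → (a ∈ TA.filter (fun a => ndT a = ν) ∧
      a ∉ (PA.filter (fun b => ndP b = ν)).image g) := by
    intro ν
    by_cases hν : ν ∈ Z
    · have h5 : ((PA.filter (fun b => ndP b = ν)).image g).card <
          (TA.filter (fun a => ndT a = ν)).card := by
        rw [hicard, hcnt ν, if_pos hν]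
        exact Nat.lt_succ_self _
      obtain ⟨a, ha1, ha2⟩ := Finset.exists_mem_notMem_of_card_lt_card h5
      exact ⟨a, fun _ => ⟨ha1, ha2⟩⟩
    · exact ⟨Classical.arbitrary TU, fun h => absurd h hν⟩
  choose e he using hex
  refine ⟨g, e, hgm, hgi, ?_, ?_⟩
  · intro ν hν
    obtain ⟨h6, h7⟩ := he ν hν
    rw [Finset.mem_filter] at h6
    refine ⟨h6.1, h6.2, ?_⟩
    intro b hb h8
    apply h7
    rw [Finset.mem_image]
    refine ⟨b, ?_, h8⟩
    rw [Finset.mem_filter]
    refine ⟨hb, ?_⟩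
    rw [← (hgm b hb).2, h8, h6.2]
  · intro a ha
    by_cases hν : ndT a ∈ Z
    · by_cases h9 : a ∈ (PA.filter (fun b => ndP b = ndT a)).image g
      · left
        rw [Finset.mem_image] at h9
        obtain ⟨b, hb, h10⟩ := h9
        exact ⟨b, (Finset.mem_filter.1 hb).1, h10⟩
      · right
        refine ⟨ndT a, hν, ?_⟩
        obtain ⟨h6, h7⟩ := he (ndT a) hν
        by_contra hne
        have h11 : insert (e (ndT a)) (insert a ((PA.filter (fun b => ndP b = ndT a)).image g)) ⊆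
            TA.filter (fun a' => ndT a' = ndT a) := by
          intro x hx
          rw [Finset.mem_insert, Finset.mem_insert] at hx
          rcases hx with rfl | rfl | hx
          · exact h6
          · exact Finset.mem_filter.2 ⟨ha, rfl⟩
          · exact himg _ hx
        have h12 := Finset.card_le_card h11
        rw [Finset.card_insert_of_notMem, Finset.card_insert_of_notMem h9, hicard, hcnt,
          if_pos hν] at h12
        · omega
        · rw [Finset.mem_insert]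
          rintro (h | h)
          · exact hne h
          · exact h7 h
    · left
      have h13 : (PA.filter (fun b => ndP b = ndT a)).image g =
          TA.filter (fun a' => ndT a' = ndT a) := by
        apply Finset.eq_of_subset_of_card_le (himg _)
        rw [hicard, hcnt, if_neg hν]
        exact le_rfl
      have h14 : a ∈ (PA.filter (fun b => ndP b = ndT a)).image g := by
        rw [h13]
        exact Finset.mem_filter.2 ⟨ha, rfl⟩
      rw [Finset.mem_image] at h14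
      obtain ⟨b, hb, h10⟩ := h14
      exact ⟨b, (Finset.mem_filter.1 hb).1, h10⟩

theorem pairing {TU PU ND : Type} [DecidableEq TU] [DecidableEq PU] [DecidableEq ND]
    (tS : TU → Finset (Vt m n)) (pS : PU → Finset (Vt m n)) (U2 : TU × PU → Finset (Vt m n))
    (ndT : TU → ND) (ndP : PU → ND) (TA : Finset TU) (PA : Finset PU) (P : Finset (TU × PU))
    (Z : Finset ND) (z : ND → Vt m n)
    (hP : ∀ a ∈ TA, ∀ b ∈ PA, ndT a = ndP b → (a, b) ∈ P)
    (hPn : ∀ x ∈ P, ndT x.1 = ndP x.2)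
    (hcnt : ∀ ν, (TA.filter (fun a => ndT a = ν)).card
      = (PA.filter (fun b => ndP b = ν)).card + (if ν ∈ Z then 1 else 0))
    (pm2 : ∀ x ∈ P, PM (U2 x)) (pm2' : ∀ x ∈ P, PM (U2 x ∪ (tS x.1 ∪ pS x.2)))
    (pmz : ∀ ν ∈ Z, ∀ a ∈ TA, ndT a = ν → PM (insert (z ν) (tS a)))
    (dT : ∀ a ∈ TA, ∀ a' ∈ TA, a ≠ a' → Disjoint (tS a) (tS a'))
    (dP : ∀ b ∈ PA, ∀ b' ∈ PA, b ≠ b' → Disjoint (pS b) (pS b'))
    (dTP : ∀ a ∈ TA, ∀ b ∈ PA, Disjoint (tS a) (pS b))
    (d2T : ∀ x ∈ P, ∀ a ∈ TA, Disjoint (U2 x) (tS a))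
    (d2P : ∀ x ∈ P, ∀ b ∈ PA, Disjoint (U2 x) (pS b))
    (d22 : ∀ x ∈ P, ∀ x' ∈ P, x ≠ x' → Disjoint (U2 x) (U2 x'))
    (dz : ∀ ν ∈ Z, ∀ ν' ∈ Z, ν ≠ ν' → z ν ≠ z ν')
    (dzT : ∀ ν ∈ Z, ∀ a ∈ TA, z ν ∉ tS a) (dzP : ∀ ν ∈ Z, ∀ b ∈ PA, z ν ∉ pS b)
    (dz2 : ∀ ν ∈ Z, ∀ x ∈ P, z ν ∉ U2 x) :
    PM (TA.biUnion tS ∪ PA.biUnion pS ∪ P.biUnion U2 ∪ Z.image z) := by
  classical
  by_cases hne : Nonempty TU
  swap
  · have hT : ∀ X : Finset TU, X = ∅ := by
      intro X
      rw [Finset.eq_empty_iff_forall_notMem]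
      intro a
      exact absurd ⟨a⟩ hne
    have hPe : P = ∅ := by
      rw [Finset.eq_empty_iff_forall_notMem]
      intro x
      exact absurd ⟨x.1⟩ hne
    have hPA : PA = ∅ := by
      rw [Finset.eq_empty_iff_forall_notMem]
      intro b hb
      have h1 := hcnt (ndP b)
      rw [hT (TA.filter _), Finset.card_empty] at h1
      have h2 : 0 < (PA.filter (fun b' => ndP b' = ndP b)).card :=
        Finset.card_pos.2 ⟨b, Finset.mem_filter.2 ⟨hb, rfl⟩⟩
      omega
    have hZ : Z = ∅ := by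
      rw [Finset.eq_empty_iff_forall_notMem]
      intro ν hν
      have h1 := hcnt ν
      rw [hT (TA.filter _), Finset.card_empty, if_pos hν] at h1
      omega
    rw [hT TA, hPA, hPe, hZ]
    simp only [Finset.biUnion_empty, Finset.image_empty, Finset.union_empty]
    exact PM_empty
  obtain ⟨g, e, hg, hgi, he, hs⟩ := Pairing_map ndT ndP TA PA Z hcnt
  have hgP : ∀ b ∈ PA, (g b, b) ∈ P := fun b hb => hP _ (hg b hb).1 b hb (hg b hb).2
  have heq : TA.biUnion tS ∪ PA.biUnion pS ∪ P.biUnion U2 ∪ Z.image z =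
      (PA.biUnion (fun b => U2 (g b, b) ∪ (tS (g b) ∪ pS b)) ∪
        (P \ PA.image (fun b => (g b, b))).biUnion U2) ∪
        Z.biUnion (fun ν => insert (z ν) (tS (e ν))) := by
    ext v
    simp only [Finset.mem_union, Finset.mem_biUnion, Finset.mem_image, Finset.mem_sdiff,
      Finset.mem_insert]
    constructor
    · rintro (((⟨a, ha, hv⟩ | ⟨b, hb, hv⟩) | ⟨x, hx, hv⟩) | ⟨ν, hν, hv⟩)
      · rcases hs a ha with ⟨b, hb, rfl⟩ | ⟨ν, hν, rfl⟩
        · exact Or.inl (Or.inl ⟨b, hb, Or.inr (Or.inl hv)⟩)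
        · exact Or.inr ⟨ν, hν, Or.inr hv⟩
      · exact Or.inl (Or.inl ⟨b, hb, Or.inr (Or.inr hv)⟩)
      · by_cases hx' : ∃ b, b ∈ PA ∧ (g b, b) = x
        · obtain ⟨b, hb, rfl⟩ := hx'
          exact Or.inl (Or.inl ⟨b, hb, Or.inl hv⟩)
        · exact Or.inl (Or.inr ⟨x, ⟨hx, hx'⟩, hv⟩)
      · exact Or.inr ⟨ν, hν, Or.inl hv.symm⟩
    · rintro ((⟨b, hb, (hv | (hv | hv))⟩ | ⟨x, ⟨hx, _⟩, hv⟩) | ⟨ν, hν, (hv | hv)⟩)
      · exact Or.inl (Or.inr ⟨(g b, b), hgP b hb, hv⟩)
      · exact Or.inl (Or.inl (Or.inl ⟨g b, (hg b hb).1, hv⟩))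
      · exact Or.inl (Or.inl (Or.inr ⟨b, hb, hv⟩))
      · exact Or.inl (Or.inr ⟨x, hx, hv⟩)
      · exact Or.inr ⟨ν, hν, hv.symm⟩
      · exact Or.inl (Or.inl (Or.inl ⟨e ν, (he ν hν).1, hv⟩))
  rw [heq]
  refine PM_union _ _ (PM_union _ _ ?_ ?_ ?_) ?_ ?_
  · refine PM_biUnion _ _ (fun b hb => pm2' _ (hgP b hb)) ?_
    intro b hb b' hb' hbb
    have hgg : g b ≠ g b' := fun h => hbb (hgi b hb b' hb' h)
    rw [Finset.disjoint_union_left, Finset.disjoint_union_left, Finset.disjoint_union_right,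
      Finset.disjoint_union_right, Finset.disjoint_union_right, Finset.disjoint_union_right,
      Finset.disjoint_union_right, Finset.disjoint_union_right]
    refine ⟨⟨?_, ?_, ?_⟩, ⟨?_, ?_, ?_⟩, ?_, ?_, ?_⟩
    · apply d22 _ (hgP b hb) _ (hgP b' hb')
      intro h
      exact hbb (Prod.mk.inj h).2
    · exact d2T _ (hgP b hb) _ (hg b' hb').1
    · exact d2P _ (hgP b hb) _ hb'
    · exact (d2T _ (hgP b' hb') _ (hg b hb).1).symm
    · exact dT _ (hg b hb).1 _ (hg b' hb').1 hgg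
    · exact dTP _ (hg b hb).1 _ hb'
    · exact (d2P _ (hgP b' hb') _ hb).symm
    · exact (dTP _ (hg b' hb').1 _ hb).symm
    · exact dP _ hb _ hb' hbb
  · refine PM_biUnion _ _ (fun x hx => pm2 x (Finset.mem_sdiff.1 hx).1) ?_
    intro x hx x' hx' hxx
    exact d22 x (Finset.mem_sdiff.1 hx).1 x' (Finset.mem_sdiff.1 hx').1 hxx
  · rw [Finset.disjoint_biUnion_left]
    intro b hb
    rw [Finset.disjoint_biUnion_right]
    intro x hx
    rw [Finset.mem_sdiff, Finset.mem_image] at hx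
    rw [Finset.disjoint_union_left, Finset.disjoint_union_left]
    refine ⟨?_, ?_, ?_⟩
    · apply d22 _ (hgP b hb) _ hx.1
      intro h
      exact hx.2 ⟨b, hb, h⟩
    · exact (d2T _ hx.1 _ (hg b hb).1).symm
    · exact (d2P _ hx.1 _ hb).symm
  · refine PM_biUnion _ _ (fun ν hν => pmz ν hν _ (he ν hν).1 (he ν hν).2.1) ?_
    intro ν hν ν' hν' hne'
    rw [Finset.disjoint_insert_left, Finset.mem_insert, Finset.disjoint_insert_right]
    refine ⟨?_, ?_, ?_⟩
    · rintro (h | h)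
      · exact dz ν hν ν' hν' hne' h
      · exact dzT ν hν _ (he ν' hν').1 h
    · exact dzT ν' hν' _ (he ν hν).1
    · apply dT _ (he ν hν).1 _ (he ν' hν').1
      intro h
      apply hne'
      rw [← (he ν hν).2.1, ← (he ν' hν').2.1, h]
  · rw [Finset.disjoint_biUnion_right]
    intro ν hν
    rw [Finset.disjoint_insert_right, Finset.disjoint_union_left, Finset.disjoint_biUnion_left,
      Finset.disjoint_biUnion_left]
    refine ⟨?_, ?_, ?_⟩
    · rw [Finset.mem_union, Finset.mem_biUnion, Finset.mem_biUnion]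
      rintro (⟨b, hb, h⟩ | ⟨x, hx, h⟩)
      · rw [Finset.mem_union, Finset.mem_union] at h
        rcases h with h | h | h
        · exact dz2 ν hν _ (hgP b hb) h
        · exact dzT ν hν _ (hg b hb).1 h
        · exact dzP ν hν _ hb h
      · exact dz2 ν hν _ (Finset.mem_sdiff.1 hx).1 h
    · intro b hb
      rw [Finset.disjoint_union_left, Finset.disjoint_union_left]
      refine ⟨?_, ?_, ?_⟩
      · exact d2T _ (hgP b hb) _ (he ν hν).1
      · exact dT _ (hg b hb).1 _ (he ν hν).1 ((he ν hν).2.2 b hb)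
      · exact (dTP _ (he ν hν).1 _ hb).symm
    · intro x hx
      exact d2T _ (Finset.mem_sdiff.1 hx).1 _ (he ν hν).1

end H77.LT
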