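import Pool.Agent.H77.LT.Geo
import Pool.Agent.H77.LT.PMl

/-!
# Latin triangles: the universal absorber. Definitions (no proofs to fill)

`gc rt p r` (4 triples) and `hc rt p r` (3 triples): the connector with root triple `rt` and
parameters `p, r`. `sg rt` is half of the sum of the roots. The lines of the `gc` are, direction by
direction, the lines of the `hc` and the root `rt κ`:
direction 0: `gc 0` has `rt 0`, `gc 1`, `hc 0` share `-(rt 1) - p`, `gc 2`, `hc 1` share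
`-(rt 1) - rt 2 - p + r`, `gc 3`, `hc 2` share `sg + p - r`;
direction 1: `gc 1` has `rt 1`, `gc 0`, `hc 1` share `rt 1 + rt 2 + 2p - r`, `gc 2`, `hc 0` share
`rt 1 + p - r`, `gc 3` has `-sg - p` and `hc 2` has `sg + p`;
direction 2: `gc 2` has `rt 2`, `gc 0`, `hc 2` share `-(rt 0)-(rt 1)-(rt 2)-2p+r`, `gc 1` has `p`
and `hc 1` has `-p`, `gc 3`, `hc 0` share `r`.
-/

open Finset

namespace H77.LT

/-- vertices of the edge of a residue triple (empty if the triple is not valid) -/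
def edv {m n : ℕ} (x : Fin 3 → ZN m) (s : Fin n) : Finset (Vt m n) :=
  if h : Valid x then ed (mkc x h) s else ∅

def sg {m : ℕ} (rt : Fin 3 → ZN m) : ZN m := ((m + 1 : ℕ) : ZN m) * (rt 0 + rt 1 + rt 2)

def gc {m : ℕ} (rt : Fin 3 → ZN m) (p r : ZN m) : Fin 4 → Fin 3 → ZN m :=
  ![![rt 0, rt 1 + rt 2 + 2 * p - r, -rt 0 - rt 1 - rt 2 - 2 * p + r],
    ![-rt 1 - p, rt 1, p],
    ![-rt 1 - rt 2 - p + r, rt 1 + p - r, rt 2],
    ![sg rt + p - r, -sg rt - p, r]]

def hc {m : ℕ} (rt : Fin 3 → ZN m) (p r : ZN m) : Fin 3 → Fin 3 → ZN m :=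
  ![![-rt 1 - p, rt 1 + p - r, r],
    ![-rt 1 - rt 2 - p + r, rt 1 + rt 2 + 2 * p - r, -p],
    ![sg rt + p - r, sg rt + p, -rt 0 - rt 1 - rt 2 - 2 * p + r]]

/-- choices of a universal absorber with `k` connectors -/
abbrev UW (m n k : ℕ) : Type := (Fin k → ZN m × ZN m) × Fin n

/-- good choices: all triples valid, all lines of the `gc` distinct in each direction,
the free symbol is new -/
def UGood {m n k : ℕ} (rt : Fin k → Fin 3 → ZN m) (sy : Fin k → Fin n) (w : UW m n k) : Prop :=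
  (∀ j i, Valid (gc (rt j) (w.1 j).1 (w.1 j).2 i)) ∧
  (∀ (κ : Fin 3) (j : Fin k) (i : Fin 4) (j' : Fin k) (i' : Fin 4), (j, i) ≠ (j', i') →
    gc (rt j) (w.1 j).1 (w.1 j).2 i κ ≠ gc (rt j') (w.1 j').1 (w.1 j').2 i' κ ∧
    gc (rt j) (w.1 j).1 (w.1 j).2 i κ ≠ -gc (rt j') (w.1 j').1 (w.1 j').2 i' κ) ∧
  (∀ j, w.2 ≠ sy j)

/-- the vertex set of the universal absorber: the union of its default edges -/
def UA {m n k : ℕ} (rt : Fin k → Fin 3 → ZN m) (sy : Fin k → Fin n) (w : UW m n k) :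
    Finset (Vt m n) :=
  (univ.biUnion fun j : Fin k => univ.biUnion fun i : Fin 3 =>
      edv (hc (rt j) (w.1 j).1 (w.1 j).2 i) (sy j)) ∪
  (univ.biUnion fun j : Fin k => univ.biUnion fun i : Fin 4 =>
      edv (gc (rt j) (w.1 j).1 (w.1 j).2 i) w.2)

/-- the line of direction `κ'` of the root triple number `j` -/
def rln {m k : ℕ} (κ : Fin 3) (pi : Equiv.Perm (Fin k)) (q : Fin k → Cell m) (j : Fin k)
    (κ' : Fin 3) : Fin m :=
  if κ' = κ then ln κ' (q (pi j)) else ln κ' (q j)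

/-- the set to be absorbed: cells `q j` and entries `(κ', rln j κ', sy j)` -/
def WS {m n k : ℕ} (κ : Fin 3) (pi : Equiv.Perm (Fin k)) (q : Fin k → Cell m)
    (sy : Fin k → Fin n) : Finset (Vt m n) :=
  univ.image (fun j : Fin k => (Sum.inl (q j) : Vt m n)) ∪
  univ.image (fun e : Fin k × Fin 3 => (Sum.inr (e.2, rln κ pi q e.1 e.2, sy e.1) : Vt m n))

/-- root stars of the universal absorber -/
def rootW {m n k : ℕ} (κ : Fin 3) (pi : Equiv.Perm (Fin k)) (q : Fin k → Cell m)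
    (sy : Fin k → Fin n) : Finset (Star m n) :=
  univ.biUnion fun e : Fin k × Fin 3 =>
    {Sum.inl (e.2, rln κ pi q e.1 e.2), Sum.inr (Sum.inl (e.2, rln κ pi q e.1 e.2)),
      Sum.inr (Sum.inr (e.2, sy e.1))}

/-- `rt` are signed residues of the root lines -/
def RootOf {m k : ℕ} (rt : Fin k → Fin 3 → ZN m) (κ : Fin 3) (pi : Equiv.Perm (Fin k))
    (q : Fin k → Cell m) : Prop :=
  (∀ j κ', ∃ h : rt j κ' ≠ 0, lnOf (rt j κ') h = rln κ pi q j κ') ∧
  (∀ j, rt j 0 ≠ rt j 1 + rt j 2)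

end H77.LT
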