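import Pool.Agent.H77.LT.Nodes
import Pool.Agent.H77.LT.UA

/-!
# [H77 LT TPW] The released sets of a rectangle and of a pair as sets `WS`

Pure bookkeeping with the definitions in `Nodes.lean` and `UA.lean`.
`tau κ q s = {inl q} ∪ {inr (κ', ln κ' q, s) : κ' ≠ κ}`.
Rectangle: cells `q1,q2,q3,q4`, symbols `s1,s2,y3,y4`, lines `l1 = ln κ q1`, `l2 = ln κ q2`:
`tau κ q1 s1 ∪ tau κ q2 s2 ∪ pis κ l1 s2 q3 y3 ∪ pis κ l2 s1 q4 y4 = WS κ pi ![q1,q2,q3,q4]
![s1,s2,y3,y4]` with the permutation `pi` of `Fin 4`: `0 → 3, 1 → 2, 2 → 0, 3 → 1`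
(entry of direction `κ` and number `j` has the line of the cell number `pi j`).
Pair: `tau κ q s ∪ pis κ l s q' y = WS κ (swap 0 1) ![q,q'] ![s,y]` if `ln κ q = l`.
`card_tau`, `card_pis` bounds. `ed_tau`: the entry and `tau` form the edge.
-/

open Finset

namespace H77.LT

variable {m n : ℕ}

theorem tau_eq (κ : Fin 3) (q : Cell m) (s : Fin n) :
    tau κ q s = insert (Sum.inl q)
      ((univ.filter (fun κ' : Fin 3 => κ' ≠ κ)).image (fun κ' => (Sum.inr (κ', ln κ' q, s) : Vt m n))) := by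
  ext v
  rcases v with c | ⟨k, l, t⟩
  · simp [tau, ed]
  · simp only [tau, ed, mem_erase, mem_insert, mem_image, mem_univ, true_and, mem_filter]
    constructor
    · rintro ⟨h1, h2 | ⟨κ', h2⟩⟩
      · exact absurd h2 (by simp)
      · refine Or.inr ⟨κ', ?_, h2⟩
        rintro rfl
        exact h1 h2.symm
    · rintro (h | ⟨κ', h1, h2⟩)
      · exact absurd h (by simp)
      · refine ⟨?_, Or.inr ⟨κ', h2⟩⟩
        rw [← h2]
        intro h3
        simp only [Sum.inr.injEq, Prod.mk.injEq] at h3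
        exact h1 h3.1

theorem ed_tau (κ : Fin 3) (q : Cell m) (s : Fin n) :
    insert (Sum.inr (κ, ln κ q, s)) (tau κ q s) = ed q s := by
  unfold tau
  apply Finset.insert_erase
  simp [ed]

theorem TPW_card_ne (κ : Fin 3) : (univ.filter (fun κ' : Fin 3 => κ' ≠ κ)).card = 2 := by
  revert κ; decide

theorem card_tau (κ : Fin 3) (q : Cell m) (s : Fin n) : (tau κ q s : Finset (Vt m n)).card ≤ 3 := by
  rw [tau_eq]
  refine (card_insert_le _ _).trans ?_
  have := card_image_le (s := univ.filter (fun κ' : Fin 3 => κ' ≠ κ))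
    (f := fun κ' => (Sum.inr (κ', ln κ' q, s) : Vt m n))
  rw [TPW_card_ne] at this
  omega

theorem card_pis (κ : Fin 3) (l : Fin m) (s : Fin n) (q : Cell m) (s' : Fin n) :
    (pis κ l s q s').card ≤ 5 := by
  unfold pis
  refine (card_union_le _ _).trans ?_
  have := card_image_le (s := univ.filter (fun κ' : Fin 3 => κ' ≠ κ))
    (f := fun κ' => (Sum.inr (κ', ln κ' q, s') : Vt m n))
  rw [TPW_card_ne] at this
  have h3 : ({Sum.inl q, Sum.inr (κ, ln κ q, s), Sum.inr (κ, l, s')} : Finset (Vt m n)).card ≤ 3 :=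
    card_le_three
  omega

/-- the permutation of the four pieces of a rectangle -/
theorem exists_perm4 : ∃ pi : Equiv.Perm (Fin 4), pi 0 = 3 ∧ pi 1 = 2 ∧ pi 2 = 0 ∧ pi 3 = 1 := by
  refine ⟨⟨![3, 2, 0, 1], ![2, 3, 1, 0], ?_, ?_⟩, ?_⟩
  · intro x; revert x; decide
  · intro x; revert x; decide
  · decide

theorem TPW_mem_WS_inr {k : ℕ} (κ : Fin 3) (pi : Equiv.Perm (Fin k)) (q : Fin k → Cell m)
    (sy : Fin k → Fin n) (κ' : Fin 3) (l : Fin m) (t : Fin n) :
    (Sum.inr (κ', l, t) : Vt m n) ∈ WS κ pi q sy ↔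
      ∃ j : Fin k, (if κ' = κ then ln κ' (q (pi j)) else ln κ' (q j)) = l ∧ sy j = t := by
  simp only [WS, mem_union, mem_image, mem_univ, true_and, reduceCtorEq, exists_false, false_or,
    Sum.inr.injEq, Prod.mk.injEq, Prod.exists, rln]
  constructor
  · rintro ⟨j, k', h1, h2, h3⟩
    subst h1
    exact ⟨j, h2, h3⟩
  · rintro ⟨j, h2, h3⟩
    exact ⟨j, κ', rfl, h2, h3⟩

theorem TPW_mem_WS_inl {k : ℕ} (κ : Fin 3) (pi : Equiv.Perm (Fin k)) (q : Fin k → Cell m)
    (sy : Fin k → Fin n) (c : Cell m) :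
    (Sum.inl c : Vt m n) ∈ WS κ pi q sy ↔ ∃ j : Fin k, q j = c := by
  simp only [WS, mem_union, mem_image, mem_univ, true_and, reduceCtorEq, and_false, exists_false,
    or_false, Sum.inl.injEq]

theorem TPW_mem_tau_inr (κ : Fin 3) (q : Cell m) (s : Fin n) (κ' : Fin 3) (l : Fin m) (t : Fin n) :
    (Sum.inr (κ', l, t) : Vt m n) ∈ tau κ q s ↔ κ' ≠ κ ∧ ln κ' q = l ∧ s = t := by
  simp only [tau_eq, mem_insert, reduceCtorEq, false_or, mem_image, mem_filter, mem_univ, true_and,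
    Sum.inr.injEq, Prod.mk.injEq]
  constructor
  · rintro ⟨k', h0, h1, h2, h3⟩
    subst h1
    exact ⟨h0, h2, h3⟩
  · rintro ⟨h0, h2, h3⟩
    exact ⟨κ', h0, rfl, h2, h3⟩

theorem TPW_mem_tau_inl (κ : Fin 3) (q : Cell m) (s : Fin n) (c : Cell m) :
    (Sum.inl c : Vt m n) ∈ tau κ q s ↔ q = c := by
  simp only [tau_eq, mem_insert, Sum.inl.injEq, mem_image, reduceCtorEq, and_false, exists_false,
    or_false]
  exact eq_comm

theorem TPW_mem_pis_inr (κ : Fin 3) (l0 : Fin m) (s : Fin n) (q : Cell m) (s' : Fin n)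
    (κ' : Fin 3) (l : Fin m) (t : Fin n) :
    (Sum.inr (κ', l, t) : Vt m n) ∈ pis κ l0 s q s' ↔
      (κ' = κ ∧ ln κ q = l ∧ s = t) ∨ (κ' = κ ∧ l0 = l ∧ s' = t) ∨
        (κ' ≠ κ ∧ ln κ' q = l ∧ s' = t) := by
  simp only [pis, mem_union, mem_insert, mem_singleton, reduceCtorEq, false_or, mem_image,
    mem_filter, mem_univ, true_and, Sum.inr.injEq, Prod.mk.injEq, or_assoc]
  constructor
  · rintro (⟨h1, h2, h3⟩ | ⟨h1, h2, h3⟩ | ⟨k', h0, h1, h2, h3⟩)
    · exact Or.inl ⟨h1, h2.symm, h3.symm⟩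
    · exact Or.inr (Or.inl ⟨h1, h2.symm, h3.symm⟩)
    · subst h1
      exact Or.inr (Or.inr ⟨h0, h2, h3⟩)
  · rintro (⟨h1, h2, h3⟩ | ⟨h1, h2, h3⟩ | ⟨h0, h2, h3⟩)
    · exact Or.inl ⟨h1, h2.symm, h3.symm⟩
    · exact Or.inr (Or.inl ⟨h1, h2.symm, h3.symm⟩)
    · exact Or.inr (Or.inr ⟨κ', h0, rfl, h2, h3⟩)

theorem TPW_mem_pis_inl (κ : Fin 3) (l0 : Fin m) (s : Fin n) (q : Cell m) (s' : Fin n)
    (c : Cell m) :
    (Sum.inl c : Vt m n) ∈ pis κ l0 s q s' ↔ q = c := by
  simp only [pis, mem_union, mem_insert, mem_singleton, reduceCtorEq, or_false, mem_image,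
    and_false, exists_false, Sum.inl.injEq]
  exact eq_comm

theorem WS_rect (κ : Fin 3) (pi : Equiv.Perm (Fin 4))
    (hpi : pi 0 = 3 ∧ pi 1 = 2 ∧ pi 2 = 0 ∧ pi 3 = 1) (q1 q2 q3 q4 : Cell m) (s1 s2 y3 y4 : Fin n) :
    tau κ q1 s1 ∪ tau κ q2 s2 ∪ pis κ (ln κ q1) s2 q3 y3 ∪ pis κ (ln κ q2) s1 q4 y4
      = WS κ pi ![q1, q2, q3, q4] ![s1, s2, y3, y4] := by
  obtain ⟨h0, h1, h2, h3⟩ := hpi
  ext v
  rcases v with c | ⟨k, l, t⟩
  · rw [TPW_mem_WS_inl]
    simp only [mem_union, TPW_mem_tau_inl, TPW_mem_pis_inl, Fin.exists_fin_succ,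
      IsEmpty.exists_iff, or_false, or_assoc]
    rfl
  · rw [TPW_mem_WS_inr]
    simp only [mem_union, TPW_mem_tau_inr, TPW_mem_pis_inr]
    have key : (∃ j : Fin 4, (if k = κ then ln k ((![q1, q2, q3, q4] : Fin 4 → Cell m) (pi j))
          else ln k ((![q1, q2, q3, q4] : Fin 4 → Cell m) j)) = l ∧
          (![s1, s2, y3, y4] : Fin 4 → Fin n) j = t) ↔
        ((if k = κ then ln k q4 else ln k q1) = l ∧ s1 = t) ∨
        ((if k = κ then ln k q3 else ln k q2) = l ∧ s2 = t) ∨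
        ((if k = κ then ln k q1 else ln k q3) = l ∧ y3 = t) ∨
        ((if k = κ then ln k q2 else ln k q4) = l ∧ y4 = t) := by
      constructor
      · rintro ⟨j, hj⟩
        fin_cases j
        · left; simpa [h0] using hj
        · right; left; simpa [h1] using hj
        · right; right; left; simpa [h2] using hj
        · right; right; right; simpa [h3] using hj
      · rintro (h | h | h | h)
        · exact ⟨0, by simpa [h0] using h⟩
        · exact ⟨1, by simpa [h1] using h⟩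
        · exact ⟨2, by simpa [h2] using h⟩
        · exact ⟨3, by simpa [h3] using h⟩
    rw [key]
    by_cases hk : k = κ
    · subst hk
      simp only [if_true, ne_eq, not_true, false_and, or_false, true_and, false_or]
      tauto
    · simp only [hk, if_false, ne_eq, not_false_eq_true, true_and, false_and, false_or]
      tauto

theorem WS_pair (κ : Fin 3) (q q' : Cell m) (s y : Fin n) :
    tau κ q s ∪ pis κ (ln κ q) s q' y = WS κ (Equiv.swap 0 1) ![q, q'] ![s, y] := by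
  ext v
  rcases v with c | ⟨k, l, t⟩
  · rw [TPW_mem_WS_inl]
    simp only [mem_union, TPW_mem_tau_inl, TPW_mem_pis_inl, Fin.exists_fin_succ,
      IsEmpty.exists_iff, or_false]
    rfl
  · rw [TPW_mem_WS_inr]
    simp only [mem_union, TPW_mem_tau_inr, TPW_mem_pis_inr]
    have key : (∃ j : Fin 2, (if k = κ then
          ln k ((![q, q'] : Fin 2 → Cell m) ((Equiv.swap (0 : Fin 2) 1) j))
          else ln k ((![q, q'] : Fin 2 → Cell m) j)) = l ∧
          (![s, y] : Fin 2 → Fin n) j = t) ↔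
        ((if k = κ then ln k q' else ln k q) = l ∧ s = t) ∨
        ((if k = κ then ln k q else ln k q') = l ∧ y = t) := by
      constructor
      · rintro ⟨j, hj⟩
        fin_cases j
        · left; simpa using hj
        · right; simpa using hj
      · rintro (h | h)
        · exact ⟨0, by simpa using h⟩
        · exact ⟨1, by simpa using h⟩
    rw [key]
    by_cases hk : k = κ
    · subst hk
      simp only [if_true, ne_eq, not_true, false_and, or_false, true_and, false_or]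
    · simp only [hk, if_false, ne_eq, not_false_eq_true, true_and, false_and, false_or]

end H77.LT
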