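import Pool.Agent.H77.LT.Act
import Pool.Agent.H77.LT.Pairing
import Pool.Agent.H77.LT.ChoD
import Pool.Agent.H77.LT.TPW

/-!
# [H77 LT FLEX] The absorber absorbs every balanced set

`YN` = home nodes with entry in `Y`. Take `R` from `exists_active`. Let
`TA = {inl r, inr (inl r) : r ∈ R} ∪ {inr (inr ν) : ν ∈ YN, UsedN ν}`,
`PA = {inl r, inr r : r ∈ R}`, `P` = all valid pairs (`VP YN`), `Z` = home nodes with entry in `LE`,
`z ν = inr (ndE ν)`. (A home node which is used has its entry in `Y` by `h5`, so it is in `YN`.)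
`pairing` applies: the counting hypothesis is the statement of `exists_active`
(`ndT (inl r) = co1 r`, ..), `insert (z ν) (tS' a)` is the edge of the cell `cT a` and the symbol of
the node (`ed_tau`, `GoodCho.t`). `Z.image z = ents LE` because every entry on the boards has exactly
one home node (`covL`, `covS`, injectivity).
The set `allV A ∪ ents Y ∪ cels LQ ∪ ents LE` is the disjoint union of
(1) the set of `pairing` (released sets of active uses, all `U2`, `ents LE`);
(2) `U4 r ∪ Wr r` for `r ∉ R` and `U4 r` for `r ∈ R`;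
(3) `insert (inr (ndE ν)) (tS' (inr (inr ν)))` for `ν ∈ YN` not used (an edge);
(4) the edges `ed q (a q)`, `q ∈ LQ`, which are pairwise disjoint (`h6`) and cover `LQ` and exactly
the entries of `Y` at the used nodes.
All parts are disjoint: the parts of `A` avoid `U0` which contains `Y`, `LQ`, `LE`.
It may be convenient to prove the union identity and the disjointness separately. If the module is
long, split it into auxiliary files `FlexA.lean`, `FlexB.lean`.
-/

open Finset

namespace H77.LT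

variable {m n h tL tS : ℕ}

/-- labels of the parts -/
inductive FlexLb (m n h tL tS : ℕ) : Type
  | T (t : TU h tL tS)
  | P (b : PU h tL tS)
  | F (r : Rc h tL tS)
  | G (x : TU h tL tS × PU h tL tS)
  | V (v : Vt m n)

/-- the part with a given label -/
def flexAt {B : Brd m n h tL tS} {YN : Finset (Nd h tL tS)} {U0 : Finset (Vt m n)}
    (A : AbsD B YN U0) : FlexLb m n h tL tS → Finset (Vt m n)
  | .T t => tS' B A.c t
  | .P b => pS' B A.c b
  | .F r => A.U4 r
  | .G x => A.U2 x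
  | .V v => {v}

/-- valid labels -/
def flexOk (YN : Finset (Nd h tL tS)) (U0 : Finset (Vt m n)) : FlexLb m n h tL tS → Prop
  | .T t => VT YN t
  | .P _ => True
  | .F _ => True
  | .G x => VP YN x
  | .V v => v ∈ U0

theorem flex_sgl {S U0 : Finset (Vt m n)} (h : Disjoint S U0) {v : Vt m n} (hv : v ∈ U0) :
    Disjoint S {v} :=
  disjoint_singleton_right.2 fun h' => disjoint_left.1 h h' hv

theorem flex_dj {B : Brd m n h tL tS} {YN : Finset (Nd h tL tS)} {U0 : Finset (Vt m n)}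
    (A : AbsD B YN U0) : ∀ (l l' : FlexLb m n h tL tS), flexOk YN U0 l → flexOk YN U0 l' →
      l ≠ l' → Disjoint (flexAt A l) (flexAt A l')
  | .T t, .T t', h, h', hne => A.good.dT t t' h h' fun e => hne (congrArg _ e)
  | .T t, .P b, h, _, _ => A.good.dTP t b h
  | .T t, .F r, h, _, _ => (A.d4T r t h).symm
  | .T t, .G x, h, h', _ => (A.d2T x t h' h).symm
  | .T t, .V _, h, h', _ => flex_sgl (A.dT0 t h) h'
  | .P b, .T t, _, h', _ => (A.good.dTP t b h').symm
  | .P b, .P b', _, _, hne => A.good.dP b b' fun e => hne (congrArg _ e)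
  | .P b, .F r, _, _, _ => (A.d4P r b).symm
  | .P b, .G x, _, h', _ => (A.d2P x b h').symm
  | .P b, .V _, _, h', _ => flex_sgl (A.dP0 b) h'
  | .F r, .T t, _, h', _ => A.d4T r t h'
  | .F r, .P b, _, _, _ => A.d4P r b
  | .F r, .F r', _, _, hne => A.d44 r r' fun e => hne (congrArg _ e)
  | .F r, .G x, _, h', _ => (A.d24 x r h').symm
  | .F r, .V _, _, h', _ => flex_sgl (A.d40 r) h'
  | .G x, .T t, h, h', _ => A.d2T x t h h'
  | .G x, .P b, h, _, _ => A.d2P x b h
  | .G x, .F r, h, _, _ => A.d24 x r h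
  | .G x, .G x', h, h', hne => A.d22 x x' h h' fun e => hne (congrArg _ e)
  | .G x, .V _, h, h', _ => flex_sgl (A.d20 x h) h'
  | .V _, .T t, h, h', _ => (flex_sgl (A.dT0 t h') h).symm
  | .V _, .P b, h, _, _ => (flex_sgl (A.dP0 b) h).symm
  | .V _, .F r, h, _, _ => (flex_sgl (A.d40 r) h).symm
  | .V _, .G x, h, h', _ => (flex_sgl (A.d20 x h') h).symm
  | .V _, .V _, _, _, hne => disjoint_singleton.2 fun e => hne (congrArg _ e)

theorem flex_uniq {B : Brd m n h tL tS} {YN : Finset (Nd h tL tS)} {U0 : Finset (Vt m n)}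
    (A : AbsD B YN U0) {l l' : FlexLb m n h tL tS} (hl : flexOk YN U0 l) (hl' : flexOk YN U0 l')
    {v : Vt m n} (hv : v ∈ flexAt A l) (hv' : v ∈ flexAt A l') : l = l' := by
  by_contra hne
  exact disjoint_left.1 (flex_dj A l l' hl hl' hne) hv hv'

/-- labels of the paired part -/
def flexQ1 (R : Finset (Rc h tL tS)) (YN : Finset (Nd h tL tS)) (U : Nd h tL tS → Prop)
    (LE : Finset (Fin 3 × Fin m × Fin n)) : FlexLb m n h tL tS → Prop
  | .T (Sum.inl r) => r ∈ R
  | .T (Sum.inr (Sum.inl r)) => r ∈ R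
  | .T (Sum.inr (Sum.inr ν)) => ν ∈ YN ∧ U ν
  | .P (Sum.inl r) => r ∈ R
  | .P (Sum.inr r) => r ∈ R
  | .F _ => False
  | .G x => VP YN x
  | .V v => v ∈ ents LE

/-- labels of the rectangles -/
def flexQ2 (R : Finset (Rc h tL tS)) : FlexLb m n h tL tS → Prop
  | .T (Sum.inl r) => r ∉ R
  | .T (Sum.inr (Sum.inl r)) => r ∉ R
  | .T (Sum.inr (Sum.inr _)) => False
  | .P (Sum.inl r) => r ∉ R
  | .P (Sum.inr r) => r ∉ R
  | .F _ => True
  | .G _ => False
  | .V _ => False

/-- labels of the nodes which are not used -/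
def flexQ3 (B : Brd m n h tL tS) (YN : Finset (Nd h tL tS)) (U : Nd h tL tS → Prop) :
    FlexLb m n h tL tS → Prop
  | .T (Sum.inl _) => False
  | .T (Sum.inr (Sum.inl _)) => False
  | .T (Sum.inr (Sum.inr ν)) => ν ∈ YN ∧ ¬ U ν
  | .P _ => False
  | .F _ => False
  | .G _ => False
  | .V v => ∃ ν ∈ YN, ¬ U ν ∧ v = Sum.inr (ndE B ν)

/-- labels of the edges at the cells -/
def flexQ4 (LQ : Finset (Cell m)) (a : Cell m → Fin n) : FlexLb m n h tL tS → Prop
  | .T _ => False
  | .P _ => False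
  | .F _ => False
  | .G _ => False
  | .V v => ∃ q ∈ LQ, v ∈ ed q (a q)

/-- all labels -/
def flexQ (YN : Finset (Nd h tL tS)) (Wv : Finset (Vt m n)) : FlexLb m n h tL tS → Prop
  | .T t => VT YN t
  | .P _ => True
  | .F _ => True
  | .G x => VP YN x
  | .V v => v ∈ Wv

/-- every entry on the boards has a home node -/
theorem flex_node (B : Brd m n h tL tS) (e : Fin 3 × Fin m × Fin n) (he : OnB h e) :
    ∃ ν : Nd h tL tS, Home B ν ∧ ndE B ν = e := by
  obtain ⟨κ, l, s⟩ := e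
  unfold OnB at he
  simp only at he
  obtain ⟨i, u, hi, hu⟩ := B.covL κ l
  obtain ⟨i', w, hi', hw⟩ := B.covS κ s
  have hii : i' = i := Fin.ext (by rw [hi, hi', he])
  subst hii
  refine ⟨(⟨κ, i'⟩, (u, w)), ?_, ?_⟩
  · unfold Home ndL ndS ndK
    simp only
    rw [hu, hw]
    exact ⟨hi.symm, hi'.symm⟩
  · unfold ndE ndL ndS ndK
    simp only
    rw [hu, hw]

/-- a home node is determined by its entry -/
theorem flex_inj (B : Brd m n h tL tS) {ν ν' : Nd h tL tS} (hν : Home B ν) (hν' : Home B ν')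
    (he : ndE B ν = ndE B ν') : ν = ν' := by
  obtain ⟨⟨κ, i⟩, u, w⟩ := ν
  obtain ⟨⟨κ', i'⟩, u', w'⟩ := ν'
  unfold ndE ndL ndS ndK at he
  simp only [Prod.mk.injEq] at he
  obtain ⟨h1, h2, h3⟩ := he
  subst h1
  unfold Home ndL ndS ndK at hν hν'
  simp only at hν hν'
  have hii : i = i' := Fin.ext (by rw [← hν.1, ← hν'.1, h2])
  subst hii
  have hu := B.injL _ h2
  have hw := B.injS _ h3
  rw [hu, hw]

/-- entry and released set at a node form an edge -/
theorem flex_edge {B : Brd m n h tL tS} {YN : Finset (Nd h tL tS)} {c : Cho m n h tL tS}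
    (hg : GoodCho B YN c) (t : TU h tL tS) (ht : VT YN t) :
    PM (insert (Sum.inr (ndE B (ndT t))) (tS' B c t) : Finset (Vt m n)) := by
  have h1 := ed_tau (ndK (ndT t)) (c.cT t) (ndS B (ndT t))
  rw [hg.t t ht] at h1
  have h2 : (insert (Sum.inr (ndE B (ndT t))) (tS' B c t) : Finset (Vt m n)) =
      ed (c.cT t) (ndS B (ndT t)) := h1
  rw [h2]
  exact PM_ed _ _

theorem flex (B : Brd m n h tL tS) (Y : Finset (Fin 3 × Fin m × Fin n))
    (YN : Finset (Nd h tL tS)) (hYN : ∀ ν, ν ∈ YN ↔ (Home B ν ∧ ndE B ν ∈ Y))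
    (U0 : Finset (Vt m n)) (hY0 : ents Y ⊆ U0) (A : AbsD B YN U0)
    (LQ : Finset (Cell m)) (LE : Finset (Fin 3 × Fin m × Fin n)) (a : Cell m → Fin n)
    (h1 : cels LQ ⊆ U0) (h2 : ents LE ⊆ U0)
    (hYb : ∀ e ∈ Y, OnB h e) (h3 : Disjoint LE Y) (h4 : ∀ e ∈ LE, OnB h e)
    (h5 : ∀ q ∈ LQ, ∀ κ, (κ, ln κ q, a q) ∈ Y)
    (h6 : ∀ q ∈ LQ, ∀ q' ∈ LQ, q ≠ q' → ∀ κ, ln κ q = ln κ q' → a q ≠ a q')
    (h7 : ∀ κ l, (LE.filter (fun e => e.1 = κ ∧ e.2.1 = l)).card
      = (LQ.filter (fun q => ln κ q = l)).card)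
    (h8 : ∀ κ s, (LE.filter (fun e => e.1 = κ ∧ e.2.2 = s)).card
      = (LQ.filter (fun q => a q = s)).card) :
    PM (allV A ∪ ents Y ∪ cels LQ ∪ ents LE) := by
  classical
  obtain ⟨R, hR⟩ := exists_active B Y LQ LE a hYb h3 h4 h5 h6 h7 h8
  obtain ⟨U, hU⟩ : ∃ U : Nd h tL tS → Prop, U = UsedN B LQ a := ⟨_, rfl⟩
  -- used home nodes are in `YN`
  have hUY : ∀ ν, Home B ν → U ν → ν ∈ YN := by
    intro ν hν hu
    rw [hU] at hu
    obtain ⟨q, hq, h9, h10⟩ := hu
    refine (hYN ν).2 ⟨hν, ?_⟩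
    have h11 := h5 q hq (ndK ν)
    rw [h9, h10] at h11
    exact h11
  have hYN1 : ∀ ν ∈ YN, Home B ν := fun ν hν => ((hYN ν).1 hν).1
  have hYN2 : ∀ ν ∈ YN, ndE B ν ∈ Y := fun ν hν => ((hYN ν).1 hν).2
  have hYU : ∀ ν ∈ YN, (Sum.inr (ndE B ν) : Vt m n) ∈ U0 := fun ν hν =>
    hY0 (mem_image_of_mem _ (hYN2 ν hν))
  -- the four families
  obtain ⟨TA, hTA⟩ : ∃ TA : Finset (TU h tL tS), TA = R.disjSum (R.disjSum (YN.filter U)) :=
    ⟨_, rfl⟩
  obtain ⟨PA, hPA⟩ : ∃ PA : Finset (PU h tL tS), PA = R.disjSum R := ⟨_, rfl⟩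
  obtain ⟨P, hP⟩ : ∃ P : Finset (TU h tL tS × PU h tL tS), P = univ.filter (fun x => VP YN x) :=
    ⟨_, rfl⟩
  obtain ⟨Z, hZ⟩ : ∃ Z : Finset (Nd h tL tS),
      Z = univ.filter (fun ν => Home B ν ∧ ndE B ν ∈ LE) := ⟨_, rfl⟩
  have hPm : ∀ x, x ∈ P ↔ VP YN x := by
    intro x
    rw [hP, mem_filter]
    exact ⟨fun h => h.2, fun h => ⟨mem_univ _, h⟩⟩
  have hZm : ∀ ν, ν ∈ Z ↔ (Home B ν ∧ ndE B ν ∈ LE) := by
    intro x
    rw [hZ, mem_filter]
    exact ⟨fun h => h.2, fun h => ⟨mem_univ _, h⟩⟩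
  have hTV : ∀ t ∈ TA, VT YN t := by
    intro t ht
    rw [hTA] at ht
    rcases t with r | r | ν
    · trivial
    · trivial
    · rw [inr_mem_disjSum, inr_mem_disjSum, mem_filter] at ht
      exact ht.1
  have hzU : ∀ ν ∈ Z, (Sum.inr (ndE B ν) : Vt m n) ∈ U0 := fun ν hν =>
    h2 (mem_image_of_mem _ ((hZm ν).1 hν).2)
  have hcnt : ∀ ν, (TA.filter (fun t => ndT t = ν)).card
      = (PA.filter (fun b => ndP b = ν)).card + (if ν ∈ Z then 1 else 0) := by
    intro ν
    have h9 := hR ν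
    rw [card_filter, card_filter, card_filter, card_filter] at h9
    rw [card_filter, card_filter, hTA, hPA, sum_disjSum, sum_disjSum, sum_disjSum]
    have h10 : ∑ x ∈ YN.filter U, (if ndT (Sum.inr (Sum.inr x) : TU h tL tS) = ν then 1 else 0) =
        (if Home B ν ∧ UsedN B LQ a ν then 1 else 0) := by
      have h11 : ∀ x ∈ YN.filter U,
          (if ndT (Sum.inr (Sum.inr x) : TU h tL tS) = ν then 1 else 0) =
          (if x = ν then 1 else 0) := fun x _ => rfl
      rw [sum_congr rfl h11, sum_ite_eq']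
      have h12 : ν ∈ YN.filter U ↔ (Home B ν ∧ UsedN B LQ a ν) := by
        rw [mem_filter]
        constructor
        · rintro ⟨h13, h14⟩
          rw [hU] at h14
          exact ⟨hYN1 ν h13, h14⟩
        · rintro ⟨h13, h14⟩
          rw [← hU] at h14
          exact ⟨hUY ν h13 h14, h14⟩
      simp only [h12]
    have h15 : (if ν ∈ Z then 1 else 0) = (if Home B ν ∧ ndE B ν ∈ LE then 1 else 0) := by
      simp only [hZm]
    rw [h10, h15, ← add_assoc]
    exact h9
  -- part 1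
  have hpm1 : PM (TA.biUnion (tS' B A.c) ∪ PA.biUnion (pS' B A.c) ∪ P.biUnion A.U2 ∪
      Z.image (fun ν => (Sum.inr (ndE B ν) : Vt m n))) := by
    refine pairing (tS' B A.c) (pS' B A.c) A.U2 ndT ndP TA PA P Z _ ?_ ?_ hcnt ?_ ?_ ?_ ?_ ?_ ?_
      ?_ ?_ ?_ ?_ ?_ ?_ ?_
    · intro t ht b _ hn
      exact (hPm _).2 ⟨hTV t ht, hn⟩
    · intro x hx
      exact ((hPm x).1 hx).2
    · intro x hx
      exact A.pm2 x ((hPm x).1 hx)
    · intro x hx
      exact A.pm2' x ((hPm x).1 hx)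
    · intro ν _ t ht hn
      rw [← hn]
      exact flex_edge A.good t (hTV t ht)
    · intro t ht t' ht' hne
      exact A.good.dT t t' (hTV t ht) (hTV t' ht') hne
    · intro b _ b' _ hne
      exact A.good.dP b b' hne
    · intro t ht b _
      exact A.good.dTP t b (hTV t ht)
    · intro x hx t ht
      exact A.d2T x t ((hPm x).1 hx) (hTV t ht)
    · intro x hx b _
      exact A.d2P x b ((hPm x).1 hx)
    · intro x hx x' hx' hne
      exact A.d22 x x' ((hPm x).1 hx) ((hPm x').1 hx') hne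
    · intro ν hν ν' hν' hne he
      exact hne (flex_inj B ((hZm ν).1 hν).1 ((hZm ν').1 hν').1 (Sum.inr_injective he))
    · intro ν hν t ht hm
      exact disjoint_left.1 (A.dT0 t (hTV t ht)) hm (hzU ν hν)
    · intro ν hν b _ hm
      exact disjoint_left.1 (A.dP0 b) hm (hzU ν hν)
    · intro ν hν x hx hm
      exact disjoint_left.1 (A.d20 x ((hPm x).1 hx)) hm (hzU ν hν)
  obtain ⟨S1, hS1⟩ : ∃ S1, S1 = TA.biUnion (tS' B A.c) ∪ PA.biUnion (pS' B A.c) ∪ P.biUnion A.U2 ∪
      Z.image (fun ν => (Sum.inr (ndE B ν) : Vt m n)) := ⟨_, rfl⟩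
  rw [← hS1] at hpm1
  have hZi : ∀ v : Vt m n, v ∈ Z.image (fun ν => (Sum.inr (ndE B ν) : Vt m n)) ↔ v ∈ ents LE := by
    intro v
    unfold ents
    rw [mem_image, mem_image]
    constructor
    · rintro ⟨ν, hν, rfl⟩
      exact ⟨ndE B ν, ((hZm ν).1 hν).2, rfl⟩
    · rintro ⟨e, he, rfl⟩
      obtain ⟨ν, hν, hνe⟩ := flex_node B e (h4 e he)
      refine ⟨ν, (hZm ν).2 ⟨hν, ?_⟩, ?_⟩
      · rw [hνe]
        exact he
      · rw [hνe]
  have hm1 : ∀ v, v ∈ S1 ↔ ∃ l, flexQ1 R YN U LE l ∧ v ∈ flexAt A l := by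
    intro v
    rw [hS1, mem_union, mem_union, mem_union, mem_biUnion, mem_biUnion, mem_biUnion, hZi]
    constructor
    · rintro (((⟨t, ht, hv⟩ | ⟨b, hb, hv⟩) | ⟨x, hx, hv⟩) | hv)
      · refine ⟨.T t, ?_, hv⟩
        rw [hTA] at ht
        rcases t with r | r | ν
        · exact inl_mem_disjSum.1 ht
        · rw [inr_mem_disjSum, inl_mem_disjSum] at ht
          exact ht
        · rw [inr_mem_disjSum, inr_mem_disjSum, mem_filter] at ht
          exact ht
      · refine ⟨.P b, ?_, hv⟩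
        rw [hPA] at hb
        rcases b with r | r
        · exact inl_mem_disjSum.1 hb
        · exact inr_mem_disjSum.1 hb
      · exact ⟨.G x, (hPm x).1 hx, hv⟩
      · exact ⟨.V v, hv, mem_singleton_self v⟩
    · rintro ⟨l, hl, hv⟩
      rcases l with t | b | r | x | w
      · refine Or.inl (Or.inl (Or.inl ⟨t, ?_, hv⟩))
        rw [hTA]
        rcases t with r | r | ν
        · exact inl_mem_disjSum.2 hl
        · rw [inr_mem_disjSum, inl_mem_disjSum]
          exact hl
        · rw [inr_mem_disjSum, inr_mem_disjSum, mem_filter]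
          exact hl
      · refine Or.inl (Or.inl (Or.inr ⟨b, ?_, hv⟩))
        rw [hPA]
        rcases b with r | r
        · exact inl_mem_disjSum.2 hl
        · exact inr_mem_disjSum.2 hl
      · exact absurd hl id
      · exact Or.inl (Or.inr ⟨x, (hPm x).2 hl, hv⟩)
      · refine Or.inr ?_
        have h9 : v = w := mem_singleton.1 hv
        rw [h9]
        exact hl
  -- part 2
  obtain ⟨W2, hW2⟩ : ∃ W2 : Rc h tL tS → Finset (Vt m n),
      W2 = fun r => A.U4 r ∪ (if r ∈ R then ∅ else Wr B A.c r) := ⟨_, rfl⟩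
  obtain ⟨S2, hS2⟩ : ∃ S2, S2 = univ.biUnion W2 := ⟨_, rfl⟩
  have hw2 : ∀ r v, v ∈ W2 r ↔ (v ∈ A.U4 r ∨ (r ∉ R ∧ (v ∈ tS' B A.c (Sum.inl r) ∨
      v ∈ tS' B A.c (Sum.inr (Sum.inl r)) ∨ v ∈ pS' B A.c (Sum.inl r) ∨
      v ∈ pS' B A.c (Sum.inr r)))) := by
    intro r v
    rw [hW2]
    simp only [mem_union]
    by_cases hr : r ∈ R
    · rw [if_pos hr]
      simp only [notMem_empty, or_false]
      constructor
      · exact fun h => Or.inl h
      · rintro (h | h)
        · exact h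
        · exact absurd hr h.1
    · rw [if_neg hr]
      unfold Wr
      simp only [mem_union]
      tauto
  have hm2 : ∀ v, v ∈ S2 ↔ ∃ l, flexQ2 R l ∧ v ∈ flexAt A l := by
    intro v
    rw [hS2, mem_biUnion]
    constructor
    · rintro ⟨r, -, hv⟩
      rcases (hw2 r v).1 hv with hv | ⟨hr, hv | hv | hv | hv⟩
      · exact ⟨.F r, trivial, hv⟩
      · exact ⟨.T (Sum.inl r), hr, hv⟩
      · exact ⟨.T (Sum.inr (Sum.inl r)), hr, hv⟩
      · exact ⟨.P (Sum.inl r), hr, hv⟩
      · exact ⟨.P (Sum.inr r), hr, hv⟩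
    · rintro ⟨l, hl, hv⟩
      rcases l with (r | r | ν) | (r | r) | r | x | w
      · exact ⟨r, mem_univ r, (hw2 r v).2 (Or.inr ⟨hl, Or.inl hv⟩)⟩
      · exact ⟨r, mem_univ r, (hw2 r v).2 (Or.inr ⟨hl, Or.inr (Or.inl hv)⟩)⟩
      · exact absurd hl id
      · exact ⟨r, mem_univ r, (hw2 r v).2 (Or.inr ⟨hl, Or.inr (Or.inr (Or.inl hv))⟩)⟩
      · exact ⟨r, mem_univ r, (hw2 r v).2 (Or.inr ⟨hl, Or.inr (Or.inr (Or.inr hv))⟩)⟩
      · exact ⟨r, mem_univ r, (hw2 r v).2 (Or.inl hv)⟩
      · exact absurd hl id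
      · exact absurd hl id
  have hl2 : ∀ r v, v ∈ W2 r → ∃ l : FlexLb m n h tL tS, flexOk YN U0 l ∧ v ∈ flexAt A l ∧
      (l = .F r ∨ l = .T (Sum.inl r) ∨ l = .T (Sum.inr (Sum.inl r)) ∨ l = .P (Sum.inl r) ∨
        l = .P (Sum.inr r)) := by
    intro r v hv
    rcases (hw2 r v).1 hv with hv | ⟨hr, hv | hv | hv | hv⟩
    · exact ⟨.F r, trivial, hv, Or.inl rfl⟩
    · exact ⟨.T (Sum.inl r), trivial, hv, Or.inr (Or.inl rfl)⟩
    · exact ⟨.T (Sum.inr (Sum.inl r)), trivial, hv, Or.inr (Or.inr (Or.inl rfl))⟩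
    · exact ⟨.P (Sum.inl r), trivial, hv, Or.inr (Or.inr (Or.inr (Or.inl rfl)))⟩
    · exact ⟨.P (Sum.inr r), trivial, hv, Or.inr (Or.inr (Or.inr (Or.inr rfl)))⟩
  have hpm2 : PM S2 := by
    rw [hS2]
    refine PM_biUnion _ _ ?_ ?_
    · intro r _
      rw [hW2]
      by_cases hr : r ∈ R
      · simp only [if_pos hr, union_empty]
        exact A.pm4 r
      · simp only [if_neg hr]
        exact A.pm4' r
    · intro r _ r' _ hne
      rw [disjoint_left]
      intro v hv hv'
      obtain ⟨l, h9, h10, h11⟩ := hl2 r v hv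
      obtain ⟨l', h9', h10', h11'⟩ := hl2 r' v hv'
      have h12 := flex_uniq A h9 h9' h10 h10'
      subst h12
      apply hne
      rcases h11 with h11 | h11 | h11 | h11 | h11 <;>
        rcases h11' with h11' | h11' | h11' | h11' | h11' <;>
        rw [h11] at h11' <;> simp only [FlexLb.F.injEq, FlexLb.T.injEq, FlexLb.P.injEq,
          Sum.inl.injEq, Sum.inr.injEq, reduceCtorEq] at h11' <;> exact h11'
  -- part 3
  obtain ⟨S3, hS3⟩ : ∃ S3, S3 = (YN.filter (fun ν => ¬ U ν)).biUnion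
      (fun ν => (insert (Sum.inr (ndE B ν)) (tS' B A.c (Sum.inr (Sum.inr ν))) :
        Finset (Vt m n))) := ⟨_, rfl⟩
  have hm3 : ∀ v, v ∈ S3 ↔ ∃ l, flexQ3 B YN U l ∧ v ∈ flexAt A l := by
    intro v
    rw [hS3, mem_biUnion]
    constructor
    · rintro ⟨ν, hν, hv⟩
      rw [mem_filter] at hν
      rcases mem_insert.1 hv with hv | hv
      · exact ⟨.V v, ⟨ν, hν.1, hν.2, hv⟩, mem_singleton_self v⟩
      · exact ⟨.T (Sum.inr (Sum.inr ν)), hν, hv⟩
    · rintro ⟨l, hl, hv⟩
      rcases l with (r | r | ν) | b | r | x | w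
      · exact absurd hl id
      · exact absurd hl id
      · exact ⟨ν, mem_filter.2 hl, mem_insert_of_mem hv⟩
      · exact absurd hl id
      · exact absurd hl id
      · exact absurd hl id
      · obtain ⟨ν, hν, hνU, hw⟩ := hl
        refine ⟨ν, mem_filter.2 ⟨hν, hνU⟩, mem_insert.2 (Or.inl ?_)⟩
        have h9 : v = w := mem_singleton.1 hv
        rw [h9]
        exact hw
  have hpm3 : PM S3 := by
    rw [hS3]
    refine PM_biUnion _ _ ?_ ?_
    · intro ν hν
      rw [mem_filter] at hν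
      exact flex_edge A.good (Sum.inr (Sum.inr ν)) hν.1
    · intro ν hν ν' hν' hne
      rw [mem_filter] at hν hν'
      have hlab : ∀ ν ∈ YN, ∀ v ∈ (insert (Sum.inr (ndE B ν)) (tS' B A.c (Sum.inr (Sum.inr ν))) :
          Finset (Vt m n)), ∃ l : FlexLb m n h tL tS, flexOk YN U0 l ∧ v ∈ flexAt A l ∧
          (l = .V (Sum.inr (ndE B ν)) ∨ l = .T (Sum.inr (Sum.inr ν))) := by
        intro ν hν v hv
        rcases mem_insert.1 hv with hv | hv
        · exact ⟨.V (Sum.inr (ndE B ν)), hYU ν hν, mem_singleton.2 hv, Or.inl rfl⟩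
        · exact ⟨.T (Sum.inr (Sum.inr ν)), hν, hv, Or.inr rfl⟩
      rw [disjoint_left]
      intro v hv hv'
      obtain ⟨l, h9, h10, h11⟩ := hlab ν hν.1 v hv
      obtain ⟨l', h9', h10', h11'⟩ := hlab ν' hν'.1 v hv'
      have h12 := flex_uniq A h9 h9' h10 h10'
      subst h12
      apply hne
      rcases h11 with h11 | h11 <;> rcases h11' with h11' | h11' <;> rw [h11] at h11'
      · exact flex_inj B (hYN1 ν hν.1) (hYN1 ν' hν'.1) (Sum.inr_injective (FlexLb.V.inj h11'))
      · exact absurd h11' (by simp)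
      · exact absurd h11' (by simp)
      · exact Sum.inr_injective (Sum.inr_injective (FlexLb.T.inj h11'))
  -- part 4
  obtain ⟨S4, hS4⟩ : ∃ S4 : Finset (Vt m n), S4 = LQ.biUnion (fun q => ed q (a q)) := ⟨_, rfl⟩
  have hm4 : ∀ v, v ∈ S4 ↔ ∃ l : FlexLb m n h tL tS, flexQ4 LQ a l ∧ v ∈ flexAt A l := by
    intro v
    rw [hS4, mem_biUnion]
    constructor
    · rintro ⟨q, hq, hv⟩
      exact ⟨.V v, ⟨q, hq, hv⟩, mem_singleton_self v⟩
    · rintro ⟨l, hl, hv⟩
      rcases l with t | b | r | x | w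
      · exact absurd hl id
      · exact absurd hl id
      · exact absurd hl id
      · exact absurd hl id
      · obtain ⟨q, hq, hw⟩ := hl
        have h9 : v = w := mem_singleton.1 hv
        rw [h9]
        exact ⟨q, hq, hw⟩
  have hpm4 : PM S4 := by
    rw [hS4]
    refine PM_biUnion _ _ (fun q _ => PM_ed _ _) ?_
    intro q hq q' hq' hne
    rw [disjoint_left]
    intro v hv hv'
    rcases v with c | ⟨κ, l, s⟩
    · rw [mem_ed_inl] at hv hv'
      exact hne (hv.symm.trans hv')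
    · rw [mem_ed_inr] at hv hv'
      exact h6 q hq q' hq' hne κ (hv.2.symm.trans hv'.2) (hv.1.symm.trans hv'.1)
  -- validity of the labels
  have hok1 : ∀ l, flexQ1 R YN U LE l → flexOk YN U0 l := by
    intro l hl
    rcases l with (r | r | ν) | b | r | x | w
    · trivial
    · trivial
    · exact hl.1
    · trivial
    · trivial
    · exact hl
    · exact h2 hl
  have hok2 : ∀ l : FlexLb m n h tL tS, flexQ2 R l → flexOk YN U0 l := by
    intro l hl
    rcases l with (r | r | ν) | b | r | x | w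
    · trivial
    · trivial
    · exact absurd hl id
    · trivial
    · trivial
    · exact absurd hl id
    · exact absurd hl id
  have hok3 : ∀ l, flexQ3 B YN U l → flexOk YN U0 l := by
    intro l hl
    rcases l with (r | r | ν) | b | r | x | w
    · exact absurd hl id
    · exact absurd hl id
    · exact hl.1
    · exact absurd hl id
    · exact absurd hl id
    · exact absurd hl id
    · obtain ⟨ν, hν, -, hw⟩ := hl
      rw [hw]
      exact hYU ν hν
  have hedU : ∀ q ∈ LQ, ∀ v ∈ ed q (a q), v ∈ ents Y ∪ cels LQ := by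
    intro q hq v hv
    rw [mem_union]
    rcases v with c | ⟨κ, l, s⟩
    · right
      rw [mem_ed_inl] at hv
      rw [hv]
      exact mem_image_of_mem _ hq
    · left
      rw [mem_ed_inr] at hv
      rw [hv.1, hv.2]
      exact mem_image_of_mem _ (h5 q hq κ)
  have hok4 : ∀ l : FlexLb m n h tL tS, flexQ4 LQ a l → flexOk YN U0 l := by
    intro l hl
    rcases l with t | b | r | x | w
    · exact absurd hl id
    · exact absurd hl id
    · exact absurd hl id
    · exact absurd hl id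
    · obtain ⟨q, hq, hw⟩ := hl
      rcases mem_union.1 (hedU q hq w hw) with h9 | h9
      · exact hY0 h9
      · exact h1 h9
  -- disjointness of the label sets
  have hYLE : ∀ e, e ∈ Y → (Sum.inr e : Vt m n) ∈ ents LE → False := by
    intro e he hm
    obtain ⟨e', he', hee⟩ := mem_image.1 hm
    have h9 : e' = e := Sum.inr_injective hee
    rw [h9] at he'
    exact disjoint_left.1 h3 he' he
  have hq12 : ∀ l : FlexLb m n h tL tS, flexQ1 R YN U LE l → flexQ2 R l → False := by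
    intro l hl hl'
    rcases l with (r | r | ν) | (r | r) | r | x | w
    · exact hl' hl
    · exact hl' hl
    · exact hl'
    · exact hl' hl
    · exact hl' hl
    · exact hl
    · exact hl'
    · exact hl'
  have hq13 : ∀ l : FlexLb m n h tL tS, flexQ1 R YN U LE l → flexQ3 B YN U l → False := by
    intro l hl hl'
    rcases l with (r | r | ν) | (r | r) | r | x | w
    · exact hl'
    · exact hl'
    · exact hl'.2 hl.2
    · exact hl'
    · exact hl'
    · exact hl'
    · exact hl'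
    · obtain ⟨ν, hν, -, hw⟩ := hl'
      rw [hw] at hl
      exact hYLE _ (hYN2 ν hν) hl
  have hq14 : ∀ l : FlexLb m n h tL tS, flexQ1 R YN U LE l → flexQ4 LQ a l → False := by
    intro l hl hl'
    rcases l with t | b | r | x | w
    · exact hl'
    · exact hl'
    · exact hl'
    · exact hl'
    · obtain ⟨q, hq, hw⟩ := hl'
      obtain ⟨e, he, rfl⟩ := mem_image.1 (show w ∈ ents LE from hl)
      obtain ⟨κ, l, s⟩ := e
      rw [mem_ed_inr] at hw
      have h9 := h5 q hq κ
      rw [← hw.1, ← hw.2] at h9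
      exact disjoint_left.1 h3 he h9
  have hq23 : ∀ l : FlexLb m n h tL tS, flexQ2 R l → flexQ3 B YN U l → False := by
    intro l hl hl'
    rcases l with (r | r | ν) | b | r | x | w
    · exact hl'
    · exact hl'
    · exact hl
    · exact hl'
    · exact hl'
    · exact hl'
    · exact hl
  have hq24 : ∀ l : FlexLb m n h tL tS, flexQ2 R l → flexQ4 LQ a l → False := by
    intro l hl hl'
    rcases l with t | b | r | x | w
    · exact hl'
    · exact hl'
    · exact hl'
    · exact hl'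
    · exact hl
  have hq34 : ∀ l : FlexLb m n h tL tS, flexQ3 B YN U l → flexQ4 LQ a l → False := by
    intro l hl hl'
    rcases l with t | b | r | x | w
    · exact hl'
    · exact hl'
    · exact hl'
    · exact hl'
    · obtain ⟨ν, hν, hνU, hw⟩ := hl
      obtain ⟨q, hq, hw'⟩ := hl'
      rw [hw] at hw'
      have h9 := (mem_ed_inr q (a q) (ndS B ν) (ndK ν) (ndL B ν)).1 hw'
      apply hνU
      rw [hU]
      exact ⟨q, hq, h9.2.symm, h9.1.symm⟩
  have hdis : ∀ (p p' : FlexLb m n h tL tS → Prop) (S S' : Finset (Vt m n)),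
      (∀ v, v ∈ S ↔ ∃ l, p l ∧ v ∈ flexAt A l) → (∀ v, v ∈ S' ↔ ∃ l, p' l ∧ v ∈ flexAt A l) →
      (∀ l, p l → flexOk YN U0 l) → (∀ l, p' l → flexOk YN U0 l) →
      (∀ l, p l → p' l → False) → Disjoint S S' := by
    intro p p' S S' hS hS' hp hp' hpp
    rw [disjoint_left]
    intro v hv hv'
    obtain ⟨l, h9, h10⟩ := (hS v).1 hv
    obtain ⟨l', h9', h10'⟩ := (hS' v).1 hv'
    have h12 := flex_uniq A (hp l h9) (hp' l' h9') h10 h10'
    subst h12
    exact hpp l h9 h9'
  have d12 := hdis _ _ S1 S2 hm1 hm2 hok1 hok2 hq12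
  have d13 := hdis _ _ S1 S3 hm1 hm3 hok1 hok3 hq13
  have d14 := hdis _ _ S1 S4 hm1 hm4 hok1 hok4 hq14
  have d23 := hdis _ _ S2 S3 hm2 hm3 hok2 hok3 hq23
  have d24 := hdis _ _ S2 S4 hm2 hm4 hok2 hok4 hq24
  have d34 := hdis _ _ S3 S4 hm3 hm4 hok3 hok4 hq34
  have hPM : PM (S1 ∪ (S2 ∪ (S3 ∪ S4))) := by
    refine PM_union _ _ hpm1 (PM_union _ _ hpm2 (PM_union _ _ hpm3 hpm4 d34) ?_) ?_
    · exact disjoint_union_right.2 ⟨d23, d24⟩
    · exact disjoint_union_right.2 ⟨d12, disjoint_union_right.2 ⟨d13, d14⟩⟩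
  -- the whole set
  have hmW : ∀ v, v ∈ allV A ∪ ents Y ∪ cels LQ ∪ ents LE ↔
      ∃ l, flexQ YN (ents Y ∪ cels LQ ∪ ents LE) l ∧ v ∈ flexAt A l := by
    intro v
    unfold allV
    simp only [mem_union, mem_biUnion, mem_filter, mem_univ, true_and]
    constructor
    · rintro (((((((⟨t, ht, hv⟩ | ⟨b, hv⟩) | ⟨r, hv⟩) | ⟨x, hx, hv⟩)) | hv) | hv) | hv)
      · exact ⟨.T t, ht, hv⟩
      · exact ⟨.P b, trivial, hv⟩
      · exact ⟨.F r, trivial, hv⟩
      · exact ⟨.G x, hx, hv⟩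
      · exact ⟨.V v, mem_union_left _ (mem_union_left _ hv), mem_singleton_self v⟩
      · exact ⟨.V v, mem_union_left _ (mem_union_right _ hv), mem_singleton_self v⟩
      · exact ⟨.V v, mem_union_right _ hv, mem_singleton_self v⟩
    · rintro ⟨l, hl, hv⟩
      rcases l with t | b | r | x | w
      · exact Or.inl (Or.inl (Or.inl (Or.inl (Or.inl (Or.inl ⟨t, hl, hv⟩)))))
      · exact Or.inl (Or.inl (Or.inl (Or.inl (Or.inl (Or.inr ⟨b, hv⟩)))))
      · exact Or.inl (Or.inl (Or.inl (Or.inl (Or.inr ⟨r, hv⟩))))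
      · exact Or.inl (Or.inl (Or.inl (Or.inr ⟨x, hl, hv⟩)))
      · have h9 : v = w := mem_singleton.1 hv
        rw [h9]
        rcases mem_union.1 (show w ∈ ents Y ∪ cels LQ ∪ ents LE from hl) with h10 | h10
        · rcases mem_union.1 h10 with h11 | h11
          · exact Or.inl (Or.inl (Or.inr h11))
          · exact Or.inl (Or.inr h11)
        · exact Or.inr h10
  have hqq : ∀ l : FlexLb m n h tL tS, flexQ YN (ents Y ∪ cels LQ ∪ ents LE) l ↔
      (flexQ1 R YN U LE l ∨ flexQ2 R l ∨ flexQ3 B YN U l ∨ flexQ4 LQ a l) := by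
    intro l
    rcases l with (r | r | ν) | (r | r) | r | x | w
    · simp only [flexQ, flexQ1, flexQ2, flexQ3, flexQ4, VT, or_false, true_iff]
      exact em _
    · simp only [flexQ, flexQ1, flexQ2, flexQ3, flexQ4, VT, or_false, true_iff]
      exact em _
    · simp only [flexQ, flexQ1, flexQ2, flexQ3, flexQ4, VT, or_false, false_or]
      constructor
      · intro h9
        rcases em (U ν) with h10 | h10
        · exact Or.inl ⟨h9, h10⟩
        · exact Or.inr ⟨h9, h10⟩
      · rintro (h9 | h9)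
        · exact h9.1
        · exact h9.1
    · simp only [flexQ, flexQ1, flexQ2, flexQ3, flexQ4, or_false, true_iff]
      exact em _
    · simp only [flexQ, flexQ1, flexQ2, flexQ3, flexQ4, or_false, true_iff]
      exact em _
    · simp only [flexQ, flexQ1, flexQ2, flexQ3, flexQ4, or_false, true_iff, false_or]
    · simp only [flexQ, flexQ1, flexQ2, flexQ3, flexQ4, or_false]
    · simp only [flexQ, flexQ1, flexQ2, flexQ3, flexQ4, false_or]
      constructor
      · intro h9
        rcases mem_union.1 h9 with h10 | h10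
        · rcases mem_union.1 h10 with h11 | h11
          · obtain ⟨e, he, rfl⟩ := mem_image.1 h11
            obtain ⟨ν, hν, hνe⟩ := flex_node B e (hYb e he)
            have hνY : ν ∈ YN := (hYN ν).2 ⟨hν, by rw [hνe]; exact he⟩
            rcases em (U ν) with h12 | h12
            · right
              right
              have h13 := h12
              rw [hU] at h13
              obtain ⟨q, hq, h14, h15⟩ := h13
              refine ⟨q, hq, ?_⟩
              rw [← hνe]
              exact (mem_ed_inr q (a q) (ndS B ν) (ndK ν) (ndL B ν)).2 ⟨h15.symm, h14.symm⟩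
            · right
              left
              exact ⟨ν, hνY, h12, by rw [hνe]⟩
          · obtain ⟨q, hq, rfl⟩ := mem_image.1 h11
            right
            right
            exact ⟨q, hq, (mem_ed_inl q q (a q)).2 rfl⟩
        · exact Or.inl h10
      · rintro (h9 | ⟨ν, hν, -, hw⟩ | ⟨q, hq, hw⟩)
        · exact mem_union_right _ h9
        · rw [hw]
          exact mem_union_left _ (mem_union_left _ (mem_image_of_mem _ (hYN2 ν hν)))
        · exact mem_union_left _ (hedU q hq w hw)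
  have hset : allV A ∪ ents Y ∪ cels LQ ∪ ents LE = S1 ∪ (S2 ∪ (S3 ∪ S4)) := by
    ext v
    rw [hmW, mem_union, mem_union, mem_union, hm1, hm2, hm3, hm4]
    constructor
    · rintro ⟨l, hl, hv⟩
      rcases (hqq l).1 hl with h9 | h9 | h9 | h9
      · exact Or.inl ⟨l, h9, hv⟩
      · exact Or.inr (Or.inl ⟨l, h9, hv⟩)
      · exact Or.inr (Or.inr (Or.inl ⟨l, h9, hv⟩))
      · exact Or.inr (Or.inr (Or.inr ⟨l, h9, hv⟩))
    · rintro (⟨l, hl, hv⟩ | ⟨l, hl, hv⟩ | ⟨l, hl, hv⟩ | ⟨l, hl, hv⟩)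
      · exact ⟨l, (hqq l).2 (Or.inl hl), hv⟩
      · exact ⟨l, (hqq l).2 (Or.inr (Or.inl hl)), hv⟩
      · exact ⟨l, (hqq l).2 (Or.inr (Or.inr (Or.inl hl))), hv⟩
      · exact ⟨l, (hqq l).2 (Or.inr (Or.inr (Or.inr hl))), hv⟩
  rw [hset]
  exact hPM

end H77.LT
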