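import Mathlib

/-!
# [H77 LT GREEDY] The greedy embedding lemma with saturated stars

Items `i : I` (finite), each has a finite nonempty set `Om i` of choices; the choice `ω` uses the
finite set `vx i ω` of vertices (at most `a`). Every vertex lies in the stars `star v` (at most 3).
`root i` is the set of root stars of the item; every star is a root star of at most `rho` items.
`U0` is a set of forbidden vertices with at most `d0` vertices in each star.
Hypothesis `hU`: for every set `U` of vertices with at most `L` vertices in each star, fewer than one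
half of the choices of an item use a vertex of `U`. Hypothesis `hS`: for every set `T` of stars with
`B * |T| ≤ 3 a n` (`n` = number of items), at most one half of the choices of an item use a vertex
in a star of `T` which is not a root star of the item. If `d0 + rho a + B + a ≤ L`, then one can
choose `f i ∈ Om i` such that the sets `vx i (f i)` are pairwise disjoint, disjoint from `U0`, and
`U0` together with them has at most `L` vertices in each star.

Proof. Order the items (`I ≃ Fin n`) and choose one after the other. After some items have been
chosen let `U` be `U0` and all used vertices, and for a star `σ` let `b σ` be the number of pairs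
(chosen item `i`, vertex `v ∈ vx i (f i)` with `σ ∈ star v`) with `σ ∉ root i`. INVARIANT:
`b σ ≤ B + a`, the sets are disjoint. Then `U` has at most `d0 + rho a + B + a ≤ L` vertices in
each star. Call `σ` saturated if `B < b σ`, i.e. `B + 1 ≤ b σ`; the sum of all `b σ` is at most
`3 a n`, so the set `T` of saturated stars satisfies `B |T| ≤ 3 a n`. By `hU` and `hS` there is a
choice `ω ∈ Om i` which uses no vertex of `U` and no vertex in a saturated non-root star. With it
every non-root star which gets new vertices had `b σ ≤ B`, and it gets at most `a` of them: the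
invariant is preserved.
-/

open Finset

namespace H77.LT

/-- the load of a star by vertices of items for which it is not a root star -/
private def greedyB {V St I Om : Type} [DecidableEq St]
    (star : V → Finset St) (vx : I → Om → Finset V) (root : I → Finset St)
    (A : Finset I) (f : I → Om) (σ : St) : ℕ :=
  ∑ j ∈ A, if σ ∈ root j then 0 else ((vx j (f j)).filter (fun v => σ ∈ star v)).card

private theorem greedy_load {V St I Om : Type} [DecidableEq V] [DecidableEq St] [Fintype I]
    (star : V → Finset St) (vx : I → Om → Finset V) (root : I → Finset St)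
    (a B rho d0 : ℕ) (U0 : Finset V)
    (hroot : ∀ σ, (univ.filter (fun i => σ ∈ root i)).card ≤ rho)
    (hU0 : ∀ σ, (U0.filter (fun v => σ ∈ star v)).card ≤ d0)
    (A : Finset I) (f : I → Om) (hA : ∀ i ∈ A, (vx i (f i)).card ≤ a)
    (hb : ∀ σ, greedyB star vx root A f σ ≤ B + a) (σ : St) :
    ((U0 ∪ A.biUnion (fun i => vx i (f i))).filter (fun v => σ ∈ star v)).card ≤
      d0 + rho * a + B + a := by
  rw [Finset.filter_union, Finset.filter_biUnion]
  have h1 := Finset.card_union_le (U0.filter (fun v => σ ∈ star v))
    (A.biUnion (fun i => (vx i (f i)).filter (fun v => σ ∈ star v)))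
  have h2 : (A.biUnion (fun i => (vx i (f i)).filter (fun v => σ ∈ star v))).card ≤
      ∑ i ∈ A, ((vx i (f i)).filter (fun v => σ ∈ star v)).card := Finset.card_biUnion_le
  have h3 : ∑ i ∈ A, ((vx i (f i)).filter (fun v => σ ∈ star v)).card ≤
      greedyB star vx root A f σ + ∑ i ∈ A, (if σ ∈ root i then a else 0) := by
    unfold greedyB
    rw [← Finset.sum_add_distrib]
    refine Finset.sum_le_sum fun i hi => ?_
    by_cases h : σ ∈ root i
    · rw [if_pos h, if_pos h, zero_add]
      exact (Finset.card_filter_le _ _).trans (hA i hi)
    · rw [if_neg h, if_neg h, add_zero]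
  have h4 : ∑ i ∈ A, (if σ ∈ root i then a else 0) ≤ rho * a := by
    rw [← Finset.sum_filter, Finset.sum_const, smul_eq_mul]
    apply Nat.mul_le_mul_right
    refine (Finset.card_le_card ?_).trans (hroot σ)
    intro i hi
    rw [Finset.mem_filter] at hi ⊢
    exact ⟨Finset.mem_univ _, hi.2⟩
  have h5 := hU0 σ
  have h6 := hb σ
  omega

private theorem greedy_sum {V St I Om : Type} [DecidableEq V] [DecidableEq St] [Fintype St]
    [Fintype I]
    (star : V → Finset St) (hstar : ∀ v, (star v).card ≤ 3) (vx : I → Om → Finset V)
    (root : I → Finset St) (a : ℕ) (A : Finset I) (f : I → Om)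
    (hA : ∀ i ∈ A, (vx i (f i)).card ≤ a) :
    ∑ σ, greedyB star vx root A f σ ≤ 3 * a * Fintype.card I := by
  unfold greedyB
  rw [Finset.sum_comm]
  have h1 : ∀ i ∈ A, ∑ σ, (if σ ∈ root i then 0 else
      ((vx i (f i)).filter (fun v => σ ∈ star v)).card) ≤ 3 * a := by
    intro i hi
    calc ∑ σ, (if σ ∈ root i then 0 else ((vx i (f i)).filter (fun v => σ ∈ star v)).card)
        ≤ ∑ σ, ((vx i (f i)).filter (fun v => σ ∈ star v)).card := by
          refine Finset.sum_le_sum fun σ _ => ?_
          split_ifs
          · exact Nat.zero_le _
          · exact le_refl _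
      _ = ∑ σ, ∑ v ∈ vx i (f i), (if σ ∈ star v then 1 else 0) := by
          refine Finset.sum_congr rfl fun σ _ => ?_
          rw [Finset.card_filter]
      _ = ∑ v ∈ vx i (f i), ∑ σ, (if σ ∈ star v then 1 else 0) := Finset.sum_comm
      _ ≤ ∑ _v ∈ vx i (f i), 3 := by
          refine Finset.sum_le_sum fun v _ => ?_
          rw [← Finset.card_filter]
          refine le_trans (le_of_eq ?_) (hstar v)
          congr 1
          ext σ
          simp
      _ = (vx i (f i)).card * 3 := by rw [Finset.sum_const, smul_eq_mul]
      _ ≤ 3 * a := by
          rw [Nat.mul_comm]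
          exact Nat.mul_le_mul_left 3 (hA i hi)
  refine (Finset.sum_le_sum h1).trans ?_
  rw [Finset.sum_const, smul_eq_mul, Nat.mul_comm]
  exact Nat.mul_le_mul_left _ (Finset.card_le_univ A)

theorem greedy {V St I Om : Type} [DecidableEq V] [DecidableEq St] [Fintype St] [Fintype I]
    [DecidableEq I] [DecidableEq Om]
    (star : V → Finset St) (hstar : ∀ v, (star v).card ≤ 3)
    (om : I → Finset Om) (vx : I → Om → Finset V) (root : I → Finset St)
    (a L B rho d0 : ℕ) (U0 : Finset V)
    (ha : ∀ i, ∀ w ∈ om i, (vx i w).card ≤ a)
    (hroot : ∀ σ, (univ.filter (fun i => σ ∈ root i)).card ≤ rho)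
    (hU0 : ∀ σ, (U0.filter (fun v => σ ∈ star v)).card ≤ d0)
    (hU : ∀ i, ∀ U : Finset V, (∀ σ, (U.filter (fun v => σ ∈ star v)).card ≤ L) →
      2 * ((om i).filter (fun w => ¬ Disjoint (vx i w) U)).card < (om i).card)
    (hS : ∀ i, ∀ T : Finset St, B * T.card ≤ 3 * a * Fintype.card I →
      2 * ((om i).filter (fun w => ∃ v ∈ vx i w, ∃ σ ∈ star v, σ ∈ T ∧ σ ∉ root i)).card
        ≤ (om i).card)
    (hL : d0 + rho * a + B + a ≤ L) :
    ∃ f : I → Om, (∀ i, f i ∈ om i) ∧ (∀ i, Disjoint (vx i (f i)) U0) ∧
      (∀ i j, i ≠ j → Disjoint (vx i (f i)) (vx j (f j))) ∧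
      ∀ σ, ((U0 ∪ univ.biUnion (fun i => vx i (f i))).filter (fun v => σ ∈ star v)).card ≤ L := by
  have hne : ∀ i, ∃ w, w ∈ om i := by
    intro i
    have h1 : ∀ σ, ((∅ : Finset V).filter (fun v => σ ∈ star v)).card ≤ L := by
      intro σ
      rw [Finset.filter_empty, Finset.card_empty]
      exact Nat.zero_le _
    have h2 := hU i ∅ h1
    exact Finset.card_pos.1 (lt_of_le_of_lt (Nat.zero_le _) h2)
  choose f0 hf0 using hne
  have key : ∀ A : Finset I, ∃ f : I → Om, (∀ i, f i ∈ om i) ∧
      (∀ i ∈ A, Disjoint (vx i (f i)) U0) ∧
      (∀ i ∈ A, ∀ j ∈ A, i ≠ j → Disjoint (vx i (f i)) (vx j (f j))) ∧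
      ∀ σ, greedyB star vx root A f σ ≤ B + a := by
    intro A
    induction A using Finset.induction_on with
    | empty =>
      refine ⟨f0, hf0, fun i hi => absurd hi (Finset.notMem_empty i),
        fun i hi => absurd hi (Finset.notMem_empty i), fun σ => ?_⟩
      unfold greedyB
      rw [Finset.sum_empty]
      exact Nat.zero_le _
    | insert i A hiA ih =>
      obtain ⟨f, hf, hf0', hfd, hfb⟩ := ih
      have hAa : ∀ j ∈ A, (vx j (f j)).card ≤ a := fun j _ => ha j _ (hf j)
      have hload := greedy_load star vx root a B rho d0 U0 hroot hU0 A f hAa hfb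
      have hsum := greedy_sum star hstar vx root a A f hAa
      have h1 := hU i (U0 ∪ A.biUnion (fun j => vx j (f j))) fun σ => (hload σ).trans hL
      have hT : B * (univ.filter (fun σ => B < greedyB star vx root A f σ)).card ≤
          3 * a * Fintype.card I := by
        refine le_trans ?_ hsum
        calc B * (univ.filter (fun σ => B < greedyB star vx root A f σ)).card
            = ∑ _σ ∈ univ.filter (fun σ => B < greedyB star vx root A f σ), B := by
              rw [Finset.sum_const, smul_eq_mul, Nat.mul_comm]
          _ ≤ ∑ σ ∈ univ.filter (fun σ => B < greedyB star vx root A f σ),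
                greedyB star vx root A f σ := by
              refine Finset.sum_le_sum fun σ hσ => ?_
              rw [Finset.mem_filter] at hσ
              exact hσ.2.le
          _ ≤ ∑ σ, greedyB star vx root A f σ :=
              Finset.sum_le_sum_of_subset (Finset.filter_subset _ _)
      have h2 := hS i (univ.filter (fun σ => B < greedyB star vx root A f σ)) hT
      have h3 : ∃ w ∈ om i, Disjoint (vx i w) (U0 ∪ A.biUnion (fun j => vx j (f j))) ∧
          ¬ ∃ v ∈ vx i w, ∃ σ ∈ star v,
            σ ∈ univ.filter (fun σ => B < greedyB star vx root A f σ) ∧ σ ∉ root i := by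
        by_contra hcon
        push Not at hcon
        have h4 : om i ⊆ (om i).filter (fun w => ¬ Disjoint (vx i w)
            (U0 ∪ A.biUnion (fun j => vx j (f j)))) ∪
            (om i).filter (fun w => ∃ v ∈ vx i w, ∃ σ ∈ star v,
              σ ∈ univ.filter (fun σ => B < greedyB star vx root A f σ) ∧ σ ∉ root i) := by
          intro w hw
          by_cases h5 : Disjoint (vx i w) (U0 ∪ A.biUnion (fun j => vx j (f j)))
          · apply Finset.mem_union_right
            rw [Finset.mem_filter]
            exact ⟨hw, hcon w hw h5⟩
          · apply Finset.mem_union_left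
            rw [Finset.mem_filter]
            exact ⟨hw, h5⟩
        have h6 := (Finset.card_le_card h4).trans (Finset.card_union_le _ _)
        omega
      obtain ⟨w, hw, hwd, hws⟩ := h3
      have hup : ∀ j ∈ A, Function.update f i w j = f j := by
        intro j hj
        apply Function.update_of_ne
        rintro rfl
        exact hiA hj
      have hupi : Function.update f i w i = w := Function.update_self i w f
      rw [Finset.disjoint_union_right] at hwd
      obtain ⟨hwd1, hwd2⟩ := hwd
      rw [Finset.disjoint_biUnion_right] at hwd2
      refine ⟨Function.update f i w, ?_, ?_, ?_, ?_⟩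
      · intro j
        by_cases hj : j = i
        · subst hj
          rw [hupi]
          exact hw
        · rw [Function.update_of_ne hj]
          exact hf j
      · intro j hj
        rcases Finset.mem_insert.1 hj with rfl | hj
        · rw [hupi]
          exact hwd1
        · rw [hup j hj]
          exact hf0' j hj
      · intro j hj k hk hjk
        rcases Finset.mem_insert.1 hj with hj' | hj'
        · rcases Finset.mem_insert.1 hk with hk' | hk'
          · exact absurd (hj'.trans hk'.symm) hjk
          · rw [hj', hupi, hup k hk']
            exact hwd2 k hk'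
        · rcases Finset.mem_insert.1 hk with hk' | hk'
          · rw [hk', hupi, hup j hj']
            exact (hwd2 j hj').symm
          · rw [hup j hj', hup k hk']
            exact hfd j hj' k hk' hjk
      · intro σ
        unfold greedyB
        rw [Finset.sum_insert hiA, hupi]
        have h4 : ∑ j ∈ A, (if σ ∈ root j then 0 else
            ((vx j (Function.update f i w j)).filter (fun v => σ ∈ star v)).card) =
            greedyB star vx root A f σ := by
          unfold greedyB
          refine Finset.sum_congr rfl fun j hj => ?_
          rw [hup j hj]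
        rw [h4]
        have h5 := hfb σ
        by_cases h6 : σ ∈ root i
        · rw [if_pos h6, zero_add]
          exact h5
        · rw [if_neg h6]
          by_cases h7 : B < greedyB star vx root A f σ
          · have h8 : (vx i w).filter (fun v => σ ∈ star v) = ∅ := by
              rw [Finset.filter_eq_empty_iff]
              intro v hv hσ
              exact hws ⟨v, hv, σ, hσ, Finset.mem_filter.2 ⟨Finset.mem_univ _, h7⟩, h6⟩
            rw [h8, Finset.card_empty, zero_add]
            exact h5
          · have h8 : ((vx i w).filter (fun v => σ ∈ star v)).card ≤ a :=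
              (Finset.card_filter_le _ _).trans (ha i w hw)
            omega
  obtain ⟨f, hf, h1, h2, h3⟩ := key univ
  refine ⟨f, hf, fun i => h1 i (Finset.mem_univ _),
    fun i j hij => h2 i (Finset.mem_univ _) j (Finset.mem_univ _) hij, fun σ => ?_⟩
  exact (greedy_load star vx root a B rho d0 U0 hroot hU0 univ f
    (fun i _ => ha i _ (hf i)) h3 σ).trans hL

end H77.LT
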