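import Pool.Agent.H77.LT.Par
import Pool.Agent.H77.LT.TPW
import Pool.Agent.H77.LT.Greedy
import Pool.Agent.H77.LT.Geo

/-!
# [H77 LT ST0] Stage 0: the permanent tau of the nodes in `YN`

Write `N = 2m+1`, `q3 = N / h^3` (huge: `N ≥ h^20`, `h ≥ 10^9`), `D = 2m-1`.
Apply `greedy` with items `ν : {ν // ν ∈ YN}`, choices `Cell m`, `om = {q : ln κ q = l}`
(`κ = ndK ν`, `l = ndL ν`, `s = ndS ν`; `D` elements by `card_line`), `vx ν q = tau κ q s`, root
stars `Sum.inl (κ,l)` and `Sum.inr (Sum.inr (κ',s))`, `κ' ≠ κ`; `a = 3`, `rho = B = q3`,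
`d0 = q3`, `L = 6 q3`.
* `hroot`: the number of nodes of direction `κ` on the line `l` is at most `3 * 2^tS ≤ 12 N/h^4`, of
  direction `κ` with symbol `s` at most `3 * 2^tL ≤ 12 N/h^4` (`mulL`, `mulS`, `szL`, `szS`): so
  `rho ≤ 24 N/h^4 + .. ≤ q3`.
* `hU`: `tau κ q s` meets `U`: `q ∈ U` on the line: at most `L`; or the entry `(κ', ln κ' q, s) ∈ U`,
  `κ' ≠ κ`: it is in the symbol star of `(κ',s)`, at most `L` such entries, each for at most 2 cells
  of the line `l` (`card_pair`): altogether `≤ 5 L = 30 q3 < D/2`.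
* `hS`: a non-root star of `T` is the cell star or the line star of `(κ', ln κ' q)`, `κ' ≠ κ`: each
  star of `T` for at most 2 cells: `2 |T| ≤ D/2`; the hypothesis `B |T| ≤ 9 |YN|` and
  `|YN| ≤ 3 (h^4+1) 2^tL 2^tS ≤ 100 N^2/h^4` give `|T| ≤ 10^4 N/h ` roughly, fine.
-/

open Finset

namespace H77.LT

variable {m n h tL tS : ℕ}

theorem st0_h (hp : Par m n h) : 10 ^ 9 ≤ h := by
  have h1 : 1 ≤ (Nat.log 2 (2 * m + 1) + 2) ^ 4 := Nat.one_le_pow _ _ (by omega)
  calc 10 ^ 9 = 10 ^ 9 * 1 := (Nat.mul_one _).symm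
    _ ≤ 10 ^ 9 * (Nat.log 2 (2 * m + 1) + 2) ^ 4 := Nat.mul_le_mul_left _ h1
    _ ≤ h := hp.hlog

theorem st0_q1 (m h : ℕ) : q3 m h * h ^ 3 ≤ 2 * m + 1 := by
  unfold q3
  exact Nat.div_mul_le_self _ _

theorem st0_q2 (hp : Par m n h) : 2 * m + 1 < (q3 m h + 1) * h ^ 3 := by
  have hh := st0_h hp
  have h3 : 0 < h ^ 3 := Nat.pow_pos (by omega)
  unfold q3
  have h1 := Nat.div_add_mod (2 * m + 1) (h ^ 3)
  have h2 := Nat.mod_lt (2 * m + 1) h3
  calc 2 * m + 1 = h ^ 3 * ((2 * m + 1) / h ^ 3) + (2 * m + 1) % h ^ 3 := h1.symm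
    _ < h ^ 3 * ((2 * m + 1) / h ^ 3) + h ^ 3 := Nat.add_lt_add_left h2 _
    _ = ((2 * m + 1) / h ^ 3 + 1) * h ^ 3 := by ring

theorem st0_q3 (hp : Par m n h) : 3 ≤ q3 m h := by
  have hh := st0_h hp
  have h3 : 0 < h ^ 3 := Nat.pow_pos (by omega)
  unfold q3
  rw [Nat.le_div_iff_mul_le h3]
  refine le_trans ?_ hp.hN
  calc 3 * h ^ 3 ≤ h * h ^ 3 := Nat.mul_le_mul_right _ (by omega)
    _ = h ^ 4 := by ring
    _ ≤ h ^ 20 := Nat.pow_le_pow_right (by omega) (by norm_num)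

theorem st0_A (hp : Par m n h) (x : ℕ) (hx : x * h ^ 4 ≤ 4 * (2 * m + 1)) :
    9 * x ≤ q3 m h := by
  by_contra hc
  push Not at hc
  have hh := st0_h hp
  have h2 := st0_q2 hp
  have h3 : (q3 m h + 1) * h ^ 3 ≤ 9 * x * h ^ 3 := Nat.mul_le_mul_right _ hc
  have h4 : x * h ^ 3 * h < x * h ^ 3 * 36 := by nlinarith
  have h5 := Nat.lt_of_mul_lt_mul_left h4
  omega

theorem st0_B (hp : Par m n h) : 60 * q3 m h < 2 * m - 1 := by
  have hh := st0_h hp
  have h1 := st0_q1 m h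
  have h2 := st0_q3 hp
  have h3 : 1000 ≤ h ^ 3 := by
    calc 1000 ≤ h := by omega
      _ = h ^ 1 := (pow_one h).symm
      _ ≤ h ^ 3 := Nat.pow_le_pow_right (by omega) (by norm_num)
  have h4 : q3 m h * 1000 ≤ q3 m h * h ^ 3 := Nat.mul_le_mul_left _ h3
  omega

theorem st0_C (hp : Par m n h) (t y : ℕ) (h1 : q3 m h * t ≤ 9 * y)
    (h2 : y * h ^ 4 ≤ 48 * (2 * m + 1) ^ 2) : 4 * t ≤ 2 * m - 1 := by
  have hh := st0_h hp
  have h3 := st0_q2 hp
  have h4 := st0_q3 hp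
  have h5 : 2 * m + 1 ≤ 2 * q3 m h * h ^ 3 :=
    h3.le.trans (Nat.mul_le_mul_right _ (by omega))
  have h6 : t * (2 * m + 1) ≤ 18 * y * h ^ 3 := by
    calc t * (2 * m + 1) ≤ t * (2 * q3 m h * h ^ 3) := Nat.mul_le_mul_left _ h5
      _ = 2 * (q3 m h * t) * h ^ 3 := by ring
      _ ≤ 2 * (9 * y) * h ^ 3 := Nat.mul_le_mul_right _ (Nat.mul_le_mul_left _ h1)
      _ = 18 * y * h ^ 3 := by ring
  have h7 : (2 * m + 1) * (t * h) ≤ (2 * m + 1) * (864 * (2 * m + 1)) := by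
    calc (2 * m + 1) * (t * h) = t * (2 * m + 1) * h := by ring
      _ ≤ 18 * y * h ^ 3 * h := Nat.mul_le_mul_right _ h6
      _ = 18 * (y * h ^ 4) := by ring
      _ ≤ 18 * (48 * (2 * m + 1) ^ 2) := Nat.mul_le_mul_left _ h2
      _ = (2 * m + 1) * (864 * (2 * m + 1)) := by ring
  have h8 : t * h ≤ 864 * (2 * m + 1) := Nat.le_of_mul_le_mul_left h7 (by omega)
  have h9 : t * 10 ^ 9 ≤ t * h := Nat.mul_le_mul_left _ hh
  have h10 := st0_B hp
  omega

/-- number of nodes -/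
theorem st0_card (hp : Par m n h) (B : Brd m n h tL tS) :
    Fintype.card (Nd h tL tS) * h ^ 4 ≤ 48 * (2 * m + 1) ^ 2 := by
  have hh := st0_h hp
  have h4 : 1 ≤ h ^ 4 := Nat.one_le_pow _ _ (by omega)
  have h1 : Fintype.card (Nd h tL tS) = 3 * h ^ 4 * (2 ^ tL * 2 ^ tS) := by
    unfold Nd
    rw [Fintype.card_prod, Fintype.card_prod]
    have h2 : Fintype.card (BI h) = 3 * h ^ 4 := by
      unfold BI
      rw [Fintype.card_sigma]
      simp only [Fintype.card_fin]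
      rw [Fin.sum_univ_three]
      have e0 : KK h 0 = h ^ 4 - 1 := rfl
      have e1 : KK h 1 = h ^ 4 := rfl
      have e2 : KK h 2 = h ^ 4 + 1 := rfl
      rw [e0, e1, e2]
      omega
    rw [h2]
    simp
  rw [h1]
  calc 3 * h ^ 4 * (2 ^ tL * 2 ^ tS) * h ^ 4
      = 3 * ((2 ^ tL * h ^ 4) * (2 ^ tS * h ^ 4)) := by ring
    _ ≤ 3 * ((4 * (2 * m + 1)) * (4 * (2 * m + 1))) :=
        Nat.mul_le_mul_left _ (Nat.mul_le_mul B.szL B.szS)
    _ = 48 * (2 * m + 1) ^ 2 := by ring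

/-- nodes of direction `κ` on a line -/
theorem st0_line (B : Brd m n h tL tS) (κ : Fin 3) (l : Fin m) :
    (univ.filter (fun ν : Nd h tL tS => ndK ν = κ ∧ ndL B ν = l)).card ≤ 3 * 2 ^ tS := by
  have h1 := B.mulL κ l
  have h2 : (univ.filter (fun ν : Nd h tL tS => ndK ν = κ ∧ ndL B ν = l)) ⊆
      ((univ.filter (fun x : Fin (KK h κ) × (Fin tL → Bool) => B.eL ⟨κ, x.1⟩ x.2 = l)) ×ˢ
        (univ : Finset (Fin tS → Bool))).image
        (fun p => ((⟨κ, p.1.1⟩, (p.1.2, p.2)) : Nd h tL tS)) := by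
    rintro ⟨⟨κ', i⟩, ⟨u, w⟩⟩ hν
    rw [mem_filter] at hν
    obtain ⟨_, h3, h4⟩ := hν
    change κ' = κ at h3
    subst h3
    rw [mem_image]
    refine ⟨((i, u), w), ?_, rfl⟩
    rw [mem_product, mem_filter]
    exact ⟨⟨mem_univ _, h4⟩, mem_univ _⟩
  refine (card_le_card h2).trans (card_image_le.trans ?_)
  rw [card_product]
  refine (Nat.mul_le_mul_right _ h1).trans (le_of_eq ?_)
  simp

/-- nodes of direction `κ` with a given symbol -/
theorem st0_symb (B : Brd m n h tL tS) (κ : Fin 3) (s : Fin n) :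
    (univ.filter (fun ν : Nd h tL tS => ndK ν = κ ∧ ndS B ν = s)).card ≤ 3 * 2 ^ tL := by
  have h1 := B.mulS κ s
  have h2 : (univ.filter (fun ν : Nd h tL tS => ndK ν = κ ∧ ndS B ν = s)) ⊆
      ((univ.filter (fun x : Fin (KK h κ) × (Fin tS → Bool) => B.eS ⟨κ, x.1⟩ x.2 = s)) ×ˢ
        (univ : Finset (Fin tL → Bool))).image
        (fun p => ((⟨κ, p.1.1⟩, (p.2, p.1.2)) : Nd h tL tS)) := by
    rintro ⟨⟨κ', i⟩, ⟨u, w⟩⟩ hν
    rw [mem_filter] at hν
    obtain ⟨_, h3, h4⟩ := hν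
    change κ' = κ at h3
    subst h3
    rw [mem_image]
    refine ⟨((i, w), u), ?_, rfl⟩
    rw [mem_product, mem_filter]
    exact ⟨⟨mem_univ _, h4⟩, mem_univ _⟩
  refine (card_le_card h2).trans (card_image_le.trans ?_)
  rw [card_product]
  refine (Nat.mul_le_mul_right _ h1).trans (le_of_eq ?_)
  simp

/-- at most two cells in a set of a pair of lines -/
theorem st0_pair (κ κ' : Fin 3) (hk : κ ≠ κ') (x y : Fin m) :
    (univ.filter (fun q : Cell m => ln κ q = x ∧ ln κ' q = y)).card ≤ 2 := by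
  rw [card_pair κ κ' hk]
  split_ifs <;> omega

/-- cells of a line meeting a set of lines of another direction -/
theorem st0_meet (κ κ' : Fin 3) (hk : κ ≠ κ') (x : Fin m) (Y : Finset (Fin m)) :
    (univ.filter (fun q : Cell m => ln κ q = x ∧ ln κ' q ∈ Y)).card ≤ 2 * Y.card := by
  have h1 : (univ.filter (fun q : Cell m => ln κ q = x ∧ ln κ' q ∈ Y)) ⊆
      Y.biUnion (fun y => univ.filter (fun q : Cell m => ln κ q = x ∧ ln κ' q = y)) := by
    intro q hq
    rw [mem_filter] at hq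
    rw [mem_biUnion]
    exact ⟨ln κ' q, hq.2.2, by rw [mem_filter]; exact ⟨mem_univ _, hq.2.1, rfl⟩⟩
  refine (card_le_card h1).trans (card_biUnion_le.trans ?_)
  refine (sum_le_sum (fun y _ => st0_pair κ κ' hk x y)).trans ?_
  rw [sum_const, smul_eq_mul, Nat.mul_comm]

/-- the root stars -/
def st0_root (B : Brd m n h tL tS) (ν : Nd h tL tS) : Finset (Star m n) :=
  insert (Sum.inl (ndK ν, ndL B ν))
    ((univ.filter (fun κ' : Fin 3 => κ' ≠ ndK ν)).image
      (fun κ' => (Sum.inr (Sum.inr (κ', ndS B ν)) : Star m n)))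

theorem st0_mem_root (B : Brd m n h tL tS) (ν : Nd h tL tS) (σ : Star m n) :
    σ ∈ st0_root B ν ↔ (σ = Sum.inl (ndK ν, ndL B ν) ∨
      ∃ κ', κ' ≠ ndK ν ∧ σ = Sum.inr (Sum.inr (κ', ndS B ν))) := by
  unfold st0_root
  rw [mem_insert, mem_image]
  constructor
  · rintro (h1 | ⟨κ', h1, h2⟩)
    · exact Or.inl h1
    · rw [mem_filter] at h1
      exact Or.inr ⟨κ', h1.2, h2.symm⟩
  · rintro (h1 | ⟨κ', h1, h2⟩)
    · exact Or.inl h1
    · exact Or.inr ⟨κ', by rw [mem_filter]; exact ⟨mem_univ _, h1⟩, h2.symm⟩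

theorem st0_hroot (hp : Par m n h) (B : Brd m n h tL tS) (σ : Star m n) :
    (univ.filter (fun ν : Nd h tL tS => σ ∈ st0_root B ν)).card ≤ q3 m h := by
  have hL := st0_A hp _ B.szL
  have hS := st0_A hp _ B.szS
  rcases σ with ⟨κ, l⟩ | ⟨κ, l⟩ | ⟨κ, s⟩
  · have h1 : (univ.filter (fun ν : Nd h tL tS => (Sum.inl (κ, l) : Star m n) ∈ st0_root B ν)) ⊆
        univ.filter (fun ν : Nd h tL tS => ndK ν = κ ∧ ndL B ν = l) := by
      intro ν hν
      rw [mem_filter, st0_mem_root] at hν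
      rw [mem_filter]
      refine ⟨mem_univ _, ?_⟩
      rcases hν.2 with h2 | ⟨κ', _, h2⟩
      · rw [Sum.inl.injEq, Prod.mk.injEq] at h2
        exact ⟨h2.1.symm, h2.2.symm⟩
      · exact absurd h2 (by simp)
    refine (card_le_card h1).trans ((st0_line B κ l).trans ?_)
    omega
  · have h1 : (univ.filter (fun ν : Nd h tL tS =>
        (Sum.inr (Sum.inl (κ, l)) : Star m n) ∈ st0_root B ν)) = ∅ := by
      rw [filter_eq_empty_iff]
      intro ν _ h2
      rw [st0_mem_root] at h2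
      rcases h2 with h2 | ⟨κ', _, h2⟩
      · exact absurd h2 (by simp)
      · exact absurd h2 (by simp)
    rw [h1, card_empty]
    exact Nat.zero_le _
  · have h1 : (univ.filter (fun ν : Nd h tL tS =>
        (Sum.inr (Sum.inr (κ, s)) : Star m n) ∈ st0_root B ν)) ⊆
        (univ : Finset (Fin 3)).biUnion
          (fun κ' => univ.filter (fun ν : Nd h tL tS => ndK ν = κ' ∧ ndS B ν = s)) := by
      intro ν hν
      rw [mem_filter, st0_mem_root] at hν
      rw [mem_biUnion]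
      refine ⟨ndK ν, mem_univ _, ?_⟩
      rw [mem_filter]
      refine ⟨mem_univ _, rfl, ?_⟩
      rcases hν.2 with h2 | ⟨κ', _, h2⟩
      · exact absurd h2 (by simp)
      · rw [Sum.inr.injEq, Sum.inr.injEq, Prod.mk.injEq] at h2
        exact h2.2.symm
    refine (card_le_card h1).trans (card_biUnion_le.trans ?_)
    refine (sum_le_sum (fun κ' _ => st0_symb B κ' s)).trans ?_
    rw [sum_const, card_univ, Fintype.card_fin, smul_eq_mul]
    omega

theorem st0_mem_tau (κ : Fin 3) (q : Cell m) (s : Fin n) (v : Vt m n) :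
    v ∈ tau κ q s ↔ (v = Sum.inl q ∨ ∃ κ', κ' ≠ κ ∧ v = Sum.inr (κ', ln κ' q, s)) := by
  rw [tau_eq, mem_insert, mem_image]
  constructor
  · rintro (h1 | ⟨κ', h1, h2⟩)
    · exact Or.inl h1
    · rw [mem_filter] at h1
      exact Or.inr ⟨κ', h1.2, h2.symm⟩
  · rintro (h1 | ⟨κ', h1, h2⟩)
    · exact Or.inl h1
    · exact Or.inr ⟨κ', by rw [mem_filter]; exact ⟨mem_univ _, h1⟩, h2.symm⟩

theorem st0_star_card (v : Vt m n) : (star v).card ≤ 3 := by
  rcases v with q | e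
  · unfold star
    refine card_image_le.trans ?_
    rw [card_univ, Fintype.card_fin]
  · unfold star
    exact (card_le_two).trans (by norm_num)

/-- the cells of a line whose tau meets `U` -/
theorem st0_U (κ : Fin 3) (l : Fin m) (s : Fin n) (U : Finset (Vt m n)) (L : ℕ)
    (hU : ∀ σ, deg U σ ≤ L) :
    ((univ.filter (fun q : Cell m => ln κ q = l)).filter
      (fun q => ¬ Disjoint (tau κ q s) U)).card ≤ 7 * L := by
  let X : Finset (Cell m) := univ.filter (fun q : Cell m => ln κ q = l ∧ (Sum.inl q : Vt m n) ∈ U)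
  let Y : Fin 3 → Finset (Fin m) := fun κ' =>
    univ.filter (fun l' : Fin m => (Sum.inr (κ', l', s) : Vt m n) ∈ U)
  have hX : X.card ≤ L := by
    refine le_trans ?_ (hU (Sum.inl (κ, l)))
    unfold deg
    refine card_le_card_of_injOn (fun q => (Sum.inl q : Vt m n)) ?_ ?_
    · intro q hq
      have hq' := (mem_filter.1 hq).2
      rw [mem_coe, mem_filter]
      refine ⟨hq'.2, ?_⟩
      change _ ∈ univ.image _
      rw [mem_image]
      exact ⟨κ, mem_univ _, by rw [hq'.1]⟩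
    · intro q _ q' _ h1
      exact Sum.inl_injective h1
  have hY : ∀ κ', (Y κ').card ≤ L := by
    intro κ'
    refine le_trans ?_ (hU (Sum.inr (Sum.inr (κ', s))))
    unfold deg
    refine card_le_card_of_injOn (fun l' => (Sum.inr (κ', l', s) : Vt m n)) ?_ ?_
    · intro l' hl'
      have hl2 := (mem_filter.1 hl').2
      rw [mem_coe, mem_filter]
      refine ⟨hl2, ?_⟩
      change _ ∈ ({_, _} : Finset _)
      rw [mem_insert, mem_singleton]
      exact Or.inr rfl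
    · intro q _ q' _ h1
      have h2 := Sum.inr_injective h1
      rw [Prod.mk.injEq, Prod.mk.injEq] at h2
      exact h2.2.1
  have h1 : ((univ.filter (fun q : Cell m => ln κ q = l)).filter
      (fun q => ¬ Disjoint (tau κ q s) U)) ⊆
      X ∪ (univ.filter (fun κ' : Fin 3 => κ' ≠ κ)).biUnion
        (fun κ' => univ.filter (fun q : Cell m => ln κ q = l ∧ ln κ' q ∈ Y κ')) := by
    intro q hq
    rw [mem_filter, mem_filter, not_disjoint_iff] at hq
    obtain ⟨⟨_, hq1⟩, v, hv1, hv2⟩ := hq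
    rw [st0_mem_tau] at hv1
    rw [mem_union]
    rcases hv1 with rfl | ⟨κ', hk, rfl⟩
    · left
      exact mem_filter.2 ⟨mem_univ _, hq1, hv2⟩
    · right
      rw [mem_biUnion]
      refine ⟨κ', mem_filter.2 ⟨mem_univ _, hk⟩, mem_filter.2 ⟨mem_univ _, hq1, ?_⟩⟩
      exact mem_filter.2 ⟨mem_univ _, hv2⟩
  refine (card_le_card h1).trans ((card_union_le _ _).trans ?_)
  have h2 : ((univ.filter (fun κ' : Fin 3 => κ' ≠ κ)).biUnion
        (fun κ' => univ.filter (fun q : Cell m => ln κ q = l ∧ ln κ' q ∈ Y κ'))).card ≤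
      3 * (2 * L) := by
    refine card_biUnion_le.trans ?_
    refine (sum_le_sum (g := fun _ => 2 * L) (fun κ' hk => ?_)).trans ?_
    · refine (st0_meet κ κ' (mem_filter.1 hk).2.symm l (Y κ')).trans ?_
      exact Nat.mul_le_mul_left _ (hY κ')
    · rw [sum_const, smul_eq_mul]
      refine Nat.mul_le_mul_right _ ?_
      refine (card_filter_le _ _).trans ?_
      rw [card_univ, Fintype.card_fin]
  omega

theorem st0_filter {α : Type} {P : α → Prop} {inst : DecidablePred P} {S : Finset α} {x : α}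
    (hx : x ∈ @Finset.filter α P inst S) : x ∈ S ∧ P x := mem_filter.1 hx

/-- the cells of a line with a star of `T` which is not a root star -/
theorem st0_S (B : Brd m n h tL tS) (ν : Nd h tL tS) (T : Finset (Star m n))
    (W : Finset (Cell m)) (hW : ∀ q ∈ W, ln (ndK ν) q = ndL B ν ∧
      ∃ v ∈ tau (ndK ν) q (ndS B ν), ∃ σ ∈ star v, σ ∈ T ∧ σ ∉ st0_root B ν) :
    W.card ≤ 2 * T.card := by
  let g : Star m n → Finset (Cell m) := fun σ => match σ with
    | Sum.inl (κ', l') => univ.filter (fun q : Cell m => ndK ν ≠ κ' ∧ ln (ndK ν) q = ndL B ν ∧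
        ln κ' q = l')
    | Sum.inr (Sum.inl (κ', l')) => univ.filter (fun q : Cell m => ndK ν ≠ κ' ∧
        ln (ndK ν) q = ndL B ν ∧ ln κ' q = l')
    | _ => ∅
  have hg0 : ∀ (κ' : Fin 3) (l' : Fin m), (univ.filter (fun q : Cell m => ndK ν ≠ κ' ∧
      ln (ndK ν) q = ndL B ν ∧ ln κ' q = l')).card ≤ 2 := by
    intro κ' l'
    by_cases hk : ndK ν = κ'
    · have : (univ.filter (fun q : Cell m => ndK ν ≠ κ' ∧
        ln (ndK ν) q = ndL B ν ∧ ln κ' q = l')) = ∅ := by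
        rw [filter_eq_empty_iff]
        intro q _ h1
        exact h1.1 hk
      rw [this, card_empty]
      omega
    · refine le_trans (card_le_card ?_) (st0_pair (ndK ν) κ' hk (ndL B ν) l')
      intro q hq
      rw [mem_filter] at hq ⊢
      exact ⟨mem_univ _, hq.2.2⟩
  have hg : ∀ σ, (g σ).card ≤ 2 := by
    rintro (⟨κ', l'⟩ | ⟨κ', l'⟩ | ⟨κ', s⟩)
    · exact hg0 κ' l'
    · exact hg0 κ' l'
    · change (∅ : Finset (Cell m)).card ≤ 2
      rw [card_empty]
      omega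
  have h1 : W ⊆ T.biUnion g := by
    intro q hq
    obtain ⟨hq1, v, hv1, σ, hσ1, hσ2, hσ3⟩ := hW q hq
    rw [st0_mem_tau] at hv1
    rw [mem_biUnion]
    refine ⟨σ, hσ2, ?_⟩
    rw [st0_mem_root] at hσ3
    push Not at hσ3
    rcases hv1 with rfl | ⟨κ', hk, rfl⟩
    · change σ ∈ univ.image _ at hσ1
      rw [mem_image] at hσ1
      obtain ⟨κ', _, rfl⟩ := hσ1
      refine mem_filter.2 ⟨mem_univ _, ?_, hq1, rfl⟩
      rintro rfl
      apply hσ3.1
      rw [hq1]
    · change σ ∈ ({_, _} : Finset _) at hσ1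
      rw [mem_insert, mem_singleton] at hσ1
      rcases hσ1 with rfl | rfl
      · exact mem_filter.2 ⟨mem_univ _, hk.symm, hq1, rfl⟩
      · exact absurd rfl (hσ3.2 κ' hk)
  refine (card_le_card h1).trans (card_biUnion_le.trans ?_)
  refine (sum_le_sum (fun σ _ => hg σ)).trans ?_
  rw [sum_const, smul_eq_mul, Nat.mul_comm]

theorem stage0 (hp : Par m n h) (B : Brd m n h tL tS) (YN : Finset (Nd h tL tS))
    (U : Finset (Vt m n)) (hU : ∀ σ, deg U σ ≤ q3 m h) :
    ∃ c : Nd h tL tS → Cell m,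
      (∀ ν ∈ YN, ln (ndK ν) (c ν) = ndL B ν) ∧
      (∀ ν ∈ YN, Disjoint (tau (ndK ν) (c ν) (ndS B ν)) U) ∧
      (∀ ν ∈ YN, ∀ ν' ∈ YN, ν ≠ ν' →
        Disjoint (tau (ndK ν) (c ν) (ndS B ν)) (tau (ndK ν') (c ν') (ndS B ν'))) ∧
      (∀ σ, deg (U ∪ YN.biUnion (fun ν => tau (ndK ν) (c ν) (ndS B ν))) σ ≤ 6 * q3 m h) := by
  have hq3 := st0_q3 hp
  have hqB := st0_B hp
  have hq1 := st0_q1 m h
  have hh := st0_h hp
  have hqB2 : 84 * q3 m h < 2 * m - 1 := by
    have h3 : 1000 ≤ h ^ 3 := by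
      calc 1000 ≤ h := by omega
        _ = h ^ 1 := (pow_one h).symm
        _ ≤ h ^ 3 := Nat.pow_le_pow_right (by omega) (by norm_num)
    have h4 : q3 m h * 1000 ≤ q3 m h * h ^ 3 := Nat.mul_le_mul_left _ h3
    omega
  obtain ⟨f, hf1, hf2, hf3, hf4⟩ := greedy (V := Vt m n) (St := Star m n)
    (I := {ν : Nd h tL tS // ν ∈ YN}) (Om := Cell m) star st0_star_card
    (fun ν => univ.filter (fun q : Cell m => ln (ndK ν.1) q = ndL B ν.1))
    (fun ν q => tau (ndK ν.1) q (ndS B ν.1)) (fun ν => st0_root B ν.1)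
    3 (6 * q3 m h) (q3 m h) (q3 m h) (q3 m h) U
    (fun ν q _ => card_tau _ _ _)
    (fun σ => by
      refine le_trans ?_ (st0_hroot hp B σ)
      refine card_le_card_of_injOn (fun ν => ν.1) ?_ ?_
      · intro ν hν
        rw [mem_coe, mem_filter] at hν ⊢
        exact ⟨mem_univ _, hν.2⟩
      · intro ν _ ν' _ h1
        exact Subtype.ext h1)
    (fun σ => hU σ)
    (fun ν V hV => by
      have h1 := st0_U (ndK ν.1) (ndL B ν.1) (ndS B ν.1) V (6 * q3 m h) hV
      have h2 := card_line (ndK ν.1) (ndL B ν.1)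
      rw [h2]
      omega)
    (fun ν T hT => by
      have h1 := fun W hW => st0_S B ν.1 T W hW
      have h2 := card_line (ndK ν.1) (ndL B ν.1)
      rw [h2]
      have h3 := st0_card hp B
      have h4 : Fintype.card {ν : Nd h tL tS // ν ∈ YN} ≤ Fintype.card (Nd h tL tS) :=
        Fintype.card_subtype_le _
      have h5 := st0_C hp T.card (Fintype.card {ν : Nd h tL tS // ν ∈ YN}) (by omega)
        ((Nat.mul_le_mul_right _ h4).trans h3)
      refine (Nat.mul_le_mul_left 2 (h1 _ ?_)).trans ?_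
      · intro q hq
        have h6 := st0_filter hq
        exact ⟨(mem_filter.1 h6.1).2, h6.2⟩
      · omega)
    (by omega)
  have hm : 0 < m := by omega
  have hne : Nonempty (Cell m) := by
    rw [← Fintype.card_pos_iff, card_cell]
    exact Nat.mul_pos hm (by omega)
  classical
  refine ⟨fun ν => if hν : ν ∈ YN then f ⟨ν, hν⟩ else hne.some, ?_, ?_, ?_, ?_⟩
  · intro ν hν
    simp only [dif_pos hν]
    exact (mem_filter.1 (hf1 ⟨ν, hν⟩)).2
  · intro ν hν
    simp only [dif_pos hν]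
    exact hf2 ⟨ν, hν⟩
  · intro ν hν ν' hν' hne'
    simp only [dif_pos hν, dif_pos hν']
    exact hf3 ⟨ν, hν⟩ ⟨ν', hν'⟩ (fun h1 => hne' (congrArg Subtype.val h1))
  · intro σ
    refine le_trans (card_le_card ?_) (hf4 σ)
    intro v hv
    rw [mem_filter, mem_union, mem_biUnion] at hv ⊢
    refine ⟨?_, hv.2⟩
    rcases hv.1 with h1 | ⟨ν, hν, h1⟩
    · exact Or.inl h1
    · right
      refine ⟨⟨ν, hν⟩, mem_univ _, ?_⟩
      simp only [dif_pos hν] at h1
      exact h1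

end H77.LT
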