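import Pool.Agent.H77.LT.Par
import Pool.Agent.H77.LT.TPW
import Pool.Agent.H77.LT.Greedy
import Pool.Agent.H77.LT.Geo

/-!
# [H77 LT ST1] Stage 1: the two tau of every rectangle

`N = 2m+1`, `q3 = N/h^3`, `D = 2m-1`, `T = Nat.log 2 N + 2`, `10^9 T^4 ≤ h`.
Apply `greedy` with items `r : Rc`, choices `Cell m × Cell m`, `κ` the direction,
`l1 = ndL (co1 r)`, `l2 = ndL (co2 r)`, `s1, s2` the symbols,
`om = {(q1,q2) : ln κ q1 = l1, ln κ q2 = l2, ln κ' q1 ≠ ln κ' q2 for κ' ≠ κ}`, at least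
`D^2 - 4 D` elements; `vx = tau κ q1 s1 ∪ tau κ q2 s2`; root stars `inl (κ,l1)`, `inl (κ,l2)` and
`inr (inr (κ',s1))`, `inr (inr (κ',s2))` for `κ' ≠ κ`; `a = 6`, `rho = B = q3`, `d0 = 6 q3`,
`L = 14 q3` (`6 + 6 + 1 = 13`, plus `6 ≤ q3`).
* `hroot`: rectangles with `co1` (or `co2`) on the line `l`: at most `3 * 2^tS * tL * tS
  ≤ 12 N T^2/h^4` each (`r ↦ co2 r` is injective for fixed `(i,j)`); with the symbol `s` the same:
  altogether `≤ 100 N T^2/h^4 ≤ q3`.
* `hU`: for fixed `q2` at most `5 L` bad `q1` as in ST0 and vice versa: `≤ 10 L D`,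
  `2 * 10 * 14 q3 * D < D^2 - 4 D`.
* `hS`: at most `2 |T'| D` choices for each of `q1`, `q2`: `4 |T'| D`, where `B |T'| ≤ 18 |Rc|`,
  `|Rc| ≤ 3 (h^4+1) 2^tL 2^tS T^2 ≤ 100 N^2 T^2/h^4`.
The tau of the two corners of the same rectangle are disjoint because the symbols differ
(`eS` injective, `fl w j ≠ w`) and the cells differ (their lines of direction `κ` differ).
-/

open Finset

namespace H77.LT

variable {m n h tL tS : ℕ}

theorem st1_mem_tau (κ : Fin 3) (q : Cell m) (s : Fin n) (v : Vt m n) :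
    v ∈ tau κ q s ↔ v = Sum.inl q ∨ ∃ κ', κ' ≠ κ ∧ v = Sum.inr (κ', ln κ' q, s) := by
  rw [tau_eq, mem_insert, mem_image]
  constructor
  · rintro (h | ⟨κ', h1, h2⟩)
    · exact Or.inl h
    · exact Or.inr ⟨κ', (mem_filter.1 h1).2, h2.symm⟩
  · rintro (h | ⟨κ', h1, h2⟩)
    · exact Or.inl h
    · exact Or.inr ⟨κ', mem_filter.2 ⟨mem_univ _, h1⟩, h2.symm⟩

theorem st1_pair_le (κ κ' : Fin 3) (h : κ ≠ κ') (x y : Fin m) :
    (univ.filter (fun q : Cell m => ln κ q = x ∧ ln κ' q = y)).card ≤ 2 := by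
  rw [card_pair κ κ' h x y]
  split_ifs
  · exact Nat.le_succ 1
  · exact le_refl _

theorem st1_two (κ : Fin 3) : (univ.filter (fun κ' : Fin 3 => κ' ≠ κ)).card = 2 := by
  fin_cases κ <;> decide

theorem st1_star (v : Vt m n) : (star v).card ≤ 3 := by
  rcases v with q | e
  · show (univ.image (fun κ : Fin 3 => (Sum.inl (κ, ln κ q) : Star m n))).card ≤ 3
    exact card_image_le.trans (by simp)
  · show ({Sum.inr (Sum.inl (e.1, e.2.1)), Sum.inr (Sum.inr (e.1, e.2.2))} :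
      Finset (Star m n)).card ≤ 3
    exact (card_le_two).trans (by norm_num)

theorem st1_badU (κ : Fin 3) (l : Fin m) (s : Fin n) (U : Finset (Vt m n)) (L : ℕ)
    (hU : ∀ σ, (U.filter (fun v => σ ∈ star v)).card ≤ L) :
    (univ.filter (fun q : Cell m => ln κ q = l ∧ ¬ Disjoint (tau κ q s) U)).card ≤ 5 * L := by
  have h1 : (univ.filter (fun q : Cell m => ln κ q = l ∧ (Sum.inl q : Vt m n) ∈ U)).card ≤ L := by
    refine le_trans ?_ (hU (Sum.inl (κ, l)))
    refine card_le_card_of_injOn (fun q => (Sum.inl q : Vt m n)) ?_ ?_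
    · intro q hq
      have hq' := (mem_filter.1 (mem_coe.1 hq)).2
      rw [mem_coe, mem_filter]
      refine ⟨hq'.2, ?_⟩
      show _ ∈ univ.image (fun κ : Fin 3 => (Sum.inl (κ, ln κ q) : Star m n))
      rw [mem_image]
      exact ⟨κ, mem_univ _, by rw [hq'.1]⟩
    · intro q _ q' _ h
      exact Sum.inl_injective h
  have h2 : ∀ κ' ∈ univ.filter (fun κ' : Fin 3 => κ' ≠ κ),
      (univ.filter (fun q : Cell m => ln κ q = l ∧
        (Sum.inr (κ', ln κ' q, s) : Vt m n) ∈ U)).card ≤ 2 * L := by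
    intro κ' hκ'
    have hκ : κ ≠ κ' := fun h => (mem_filter.1 hκ').2 h.symm
    have h3 := hU (Sum.inr (Sum.inr (κ', s)))
    refine (card_le_mul_card_image_of_maps_to (f := fun q : Cell m =>
      (Sum.inr (κ', ln κ' q, s) : Vt m n)) (t := U.filter (fun v =>
        (Sum.inr (Sum.inr (κ', s)) : Star m n) ∈ star v)) ?_ 2 ?_).trans
      (Nat.mul_le_mul_left 2 h3)
    · intro q hq
      rw [mem_filter]
      refine ⟨(mem_filter.1 hq).2.2, ?_⟩
      show _ ∈ ({Sum.inr (Sum.inl (κ', ln κ' q)), Sum.inr (Sum.inr (κ', s))} :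
        Finset (Star m n))
      rw [mem_insert, mem_singleton]
      exact Or.inr rfl
    · intro v hv
      rcases (univ.filter (fun q : Cell m => ln κ q = l ∧
        (Sum.inr (κ', ln κ' q, s) : Vt m n) ∈ U)).filter
          (fun q => (Sum.inr (κ', ln κ' q, s) : Vt m n) = v) |>.eq_empty_or_nonempty with h4 | h4
      · rw [h4, card_empty]
        exact Nat.zero_le _
      · obtain ⟨q0, hq0⟩ := h4
        have hq0' := (mem_filter.1 hq0).2
        refine le_trans (card_le_card ?_) (st1_pair_le κ κ' hκ l (ln κ' q0))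
        intro q hq
        rw [mem_filter, mem_filter] at hq
        rw [mem_filter]
        refine ⟨mem_univ _, hq.1.2.1, ?_⟩
        have h5 := hq.2.trans hq0'.symm
        have h6 := Sum.inr_injective h5
        exact congrArg (fun e : Fin 3 × Fin m × Fin n => e.2.1) h6
  have h3 : univ.filter (fun q : Cell m => ln κ q = l ∧ ¬ Disjoint (tau κ q s) U) ⊆
      univ.filter (fun q : Cell m => ln κ q = l ∧ (Sum.inl q : Vt m n) ∈ U) ∪
      (univ.filter (fun κ' : Fin 3 => κ' ≠ κ)).biUnion (fun κ' =>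
        univ.filter (fun q : Cell m => ln κ q = l ∧
          (Sum.inr (κ', ln κ' q, s) : Vt m n) ∈ U)) := by
    intro q hq
    obtain ⟨h4, h5⟩ := (mem_filter.1 hq).2
    rw [not_disjoint_iff] at h5
    obtain ⟨v, hv, hvU⟩ := h5
    rw [st1_mem_tau] at hv
    rw [mem_union, mem_biUnion]
    rcases hv with rfl | ⟨κ', hκ', rfl⟩
    · left
      exact mem_filter.2 ⟨mem_univ _, h4, hvU⟩
    · right
      exact ⟨κ', mem_filter.2 ⟨mem_univ _, hκ'⟩, mem_filter.2 ⟨mem_univ _, h4, hvU⟩⟩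
  have h4 := card_biUnion_le_card_mul _ _ _ h2
  rw [st1_two] at h4
  have h5 := (card_le_card h3).trans (card_union_le _ _)
  omega

theorem st1_badT (κ : Fin 3) (l : Fin m) (T : Finset (Star m n)) :
    (univ.filter (fun q : Cell m => ln κ q = l ∧ ∃ κ', κ' ≠ κ ∧
      ((Sum.inl (κ', ln κ' q) : Star m n) ∈ T ∨
        (Sum.inr (Sum.inl (κ', ln κ' q)) : Star m n) ∈ T))).card ≤ 2 * T.card := by
  have h1 : ∀ σ ∈ T, (univ.filter (fun q : Cell m => ln κ q = l ∧ ∃ κ', κ' ≠ κ ∧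
      ((Sum.inl (κ', ln κ' q) : Star m n) = σ ∨
        (Sum.inr (Sum.inl (κ', ln κ' q)) : Star m n) = σ))).card ≤ 2 := by
    intro σ _
    have h2 : ∀ (κ₀ : Fin 3) (l₀ : Fin m), (∀ q : Cell m, ∀ κ', κ' ≠ κ →
        ((Sum.inl (κ', ln κ' q) : Star m n) = σ ∨
          (Sum.inr (Sum.inl (κ', ln κ' q)) : Star m n) = σ) → κ' = κ₀ ∧ ln κ' q = l₀) →
        (univ.filter (fun q : Cell m => ln κ q = l ∧ ∃ κ', κ' ≠ κ ∧
          ((Sum.inl (κ', ln κ' q) : Star m n) = σ ∨
            (Sum.inr (Sum.inl (κ', ln κ' q)) : Star m n) = σ))).card ≤ 2 := by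
      intro κ₀ l₀ h3
      by_cases h4 : κ₀ = κ
      · have h5 : univ.filter (fun q : Cell m => ln κ q = l ∧ ∃ κ', κ' ≠ κ ∧
          ((Sum.inl (κ', ln κ' q) : Star m n) = σ ∨
            (Sum.inr (Sum.inl (κ', ln κ' q)) : Star m n) = σ)) = ∅ := by
          rw [filter_eq_empty_iff]
          rintro q _ ⟨_, κ', h6, h7⟩
          exact h6 ((h3 q κ' h6 h7).1.trans h4)
        rw [h5, card_empty]
        exact Nat.zero_le _
      · refine (card_le_card ?_).trans (st1_pair_le κ κ₀ (fun h => h4 h.symm) l l₀)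
        intro q hq
        obtain ⟨h5, κ', h6, h7⟩ := (mem_filter.1 hq).2
        obtain ⟨h8, h9⟩ := h3 q κ' h6 h7
        rw [mem_filter]
        refine ⟨mem_univ _, h5, ?_⟩
        rw [← h8]
        exact h9
    rcases σ with ⟨κ₀, l₀⟩ | (⟨κ₀, l₀⟩ | ⟨κ₀, s₀⟩)
    · refine h2 κ₀ l₀ ?_
      rintro q κ' _ (h | h)
      · have := Sum.inl_injective h
        rw [Prod.mk.injEq] at this
        exact this
      · exact absurd h (by simp)
    · refine h2 κ₀ l₀ ?_
      rintro q κ' _ (h | h)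
      · exact absurd h (by simp)
      · have := Sum.inl_injective (Sum.inr_injective h)
        rw [Prod.mk.injEq] at this
        exact this
    · refine h2 κ l ?_
      rintro q κ' _ (h | h)
      · exact absurd h (by simp)
      · exact absurd h (by simp)
  have h2 : univ.filter (fun q : Cell m => ln κ q = l ∧ ∃ κ', κ' ≠ κ ∧
      ((Sum.inl (κ', ln κ' q) : Star m n) ∈ T ∨
        (Sum.inr (Sum.inl (κ', ln κ' q)) : Star m n) ∈ T)) ⊆
      T.biUnion (fun σ => univ.filter (fun q : Cell m => ln κ q = l ∧ ∃ κ', κ' ≠ κ ∧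
      ((Sum.inl (κ', ln κ' q) : Star m n) = σ ∨
        (Sum.inr (Sum.inl (κ', ln κ' q)) : Star m n) = σ))) := by
    intro q hq
    obtain ⟨h3, κ', h4, h5⟩ := (mem_filter.1 hq).2
    rw [mem_biUnion]
    rcases h5 with h5 | h5
    · exact ⟨_, h5, mem_filter.2 ⟨mem_univ _, h3, κ', h4, Or.inl rfl⟩⟩
    · exact ⟨_, h5, mem_filter.2 ⟨mem_univ _, h3, κ', h4, Or.inr rfl⟩⟩
  have h3 := card_biUnion_le_card_mul _ _ _ h1
  have h4 := card_le_card h2
  omega

/-- the choices of a rectangle -/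
def st1om (κ : Fin 3) (l1 l2 : Fin m) : Finset (Cell m × Cell m) :=
  univ.filter (fun q => ln κ q.1 = l1 ∧ ln κ q.2 = l2 ∧ ∀ κ', κ' ≠ κ → ln κ' q.1 ≠ ln κ' q.2)

theorem st1_om (κ : Fin 3) (l1 l2 : Fin m) :
    (2 * m - 1) * (2 * m - 1) ≤ (st1om κ l1 l2).card + 4 * (2 * m - 1) := by
  have h1 : ((univ.filter (fun q : Cell m => ln κ q = l1)) ×ˢ
      (univ.filter (fun q : Cell m => ln κ q = l2))).card = (2 * m - 1) * (2 * m - 1) := by
    rw [card_product, card_line, card_line]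
  have h2 : (univ.filter (fun q : Cell m => ln κ q = l1)) ×ˢ
      (univ.filter (fun q : Cell m => ln κ q = l2)) ⊆ st1om κ l1 l2 ∪
      univ.filter (fun q : Cell m × Cell m => ln κ q.1 = l1 ∧ ln κ q.2 = l2 ∧
        ∃ κ', κ' ≠ κ ∧ ln κ' q.1 = ln κ' q.2) := by
    intro q hq
    rw [mem_product, mem_filter, mem_filter] at hq
    rw [mem_union, st1om, mem_filter, mem_filter]
    by_cases h3 : ∃ κ', κ' ≠ κ ∧ ln κ' q.1 = ln κ' q.2
    · exact Or.inr ⟨mem_univ _, hq.1.2, hq.2.2, h3⟩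
    · push Not at h3
      exact Or.inl ⟨mem_univ _, hq.1.2, hq.2.2, h3⟩
  have h3 : (univ.filter (fun q : Cell m × Cell m => ln κ q.1 = l1 ∧ ln κ q.2 = l2 ∧
        ∃ κ', κ' ≠ κ ∧ ln κ' q.1 = ln κ' q.2)).card ≤ 4 * (2 * m - 1) := by
    rw [← card_line κ l1]
    refine card_le_mul_card_image_of_maps_to (f := fun q : Cell m × Cell m => q.1) ?_ 4 ?_
    · intro q hq
      exact mem_filter.2 ⟨mem_univ _, (mem_filter.1 hq).2.1⟩
    · intro q1 hq1
      have h4 : ∀ κ' ∈ univ.filter (fun κ' : Fin 3 => κ' ≠ κ),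
          ((univ.filter (fun q2 : Cell m => ln κ q2 = l2 ∧ ln κ' q2 = ln κ' q1)).image
            (fun q2 => (q1, q2))).card ≤ 2 := by
        intro κ' hκ'
        exact card_image_le.trans (st1_pair_le κ κ' (fun h => (mem_filter.1 hκ').2 h.symm) _ _)
      have h5 := card_biUnion_le_card_mul _ _ _ h4
      rw [st1_two] at h5
      refine (card_le_card ?_).trans h5
      intro q hq
      obtain ⟨h6, h7⟩ := mem_filter.1 hq
      obtain ⟨_, h8, κ', h9, h10⟩ := (mem_filter.1 h6).2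
      rw [mem_biUnion]
      refine ⟨κ', mem_filter.2 ⟨mem_univ _, h9⟩, ?_⟩
      rw [mem_image]
      refine ⟨q.2, mem_filter.2 ⟨mem_univ _, h8, ?_⟩, ?_⟩
      · rw [← h10, ← h7]
      · rw [← h7]
  rw [← h1]
  refine (card_le_card h2).trans ((card_union_le _ _).trans ?_)
  omega

theorem st1_prod (κ : Fin 3) (l1 l2 : Fin m) (P Q : Cell m → Prop) [DecidablePred P]
    [DecidablePred Q] (R : Cell m × Cell m → Prop) [DecidablePred R]
    (hR : ∀ q, ln κ q.1 = l1 → ln κ q.2 = l2 → R q → P q.1 ∨ Q q.2) (a b : ℕ)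
    (ha : (univ.filter (fun q : Cell m => ln κ q = l1 ∧ P q)).card ≤ a)
    (hb : (univ.filter (fun q : Cell m => ln κ q = l2 ∧ Q q)).card ≤ b) :
    ((st1om κ l1 l2).filter R).card ≤ a * (2 * m - 1) + (2 * m - 1) * b := by
  have h1 : (st1om κ l1 l2).filter R ⊆
      (univ.filter (fun q : Cell m => ln κ q = l1 ∧ P q)) ×ˢ
        (univ.filter (fun q : Cell m => ln κ q = l2)) ∪
      (univ.filter (fun q : Cell m => ln κ q = l1)) ×ˢ
        (univ.filter (fun q : Cell m => ln κ q = l2 ∧ Q q)) := by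
    intro q hq
    obtain ⟨h2, h3⟩ := mem_filter.1 hq
    rw [st1om, mem_filter] at h2
    rw [mem_union, mem_product, mem_product, mem_filter, mem_filter, mem_filter, mem_filter]
    rcases hR q h2.2.1 h2.2.2.1 h3 with h4 | h4
    · exact Or.inl ⟨⟨mem_univ _, h2.2.1, h4⟩, ⟨mem_univ _, h2.2.2.1⟩⟩
    · exact Or.inr ⟨⟨mem_univ _, h2.2.1⟩, ⟨mem_univ _, h2.2.2.1, h4⟩⟩
  refine (card_le_card h1).trans ((card_union_le _ _).trans ?_)
  rw [card_product, card_product, card_line, card_line]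
  exact Nat.add_le_add (Nat.mul_le_mul_right _ ha) (Nat.mul_le_mul_left _ hb)

theorem st1_cntL (B : Brd m n h tL tS) (κ : Fin 3) (l : Fin m) :
    (univ.filter (fun ν : Nd h tL tS => ndK ν = κ ∧ ndL B ν = l)).card ≤ 3 * 2 ^ tS := by
  have h1 : univ.filter (fun ν : Nd h tL tS => ndK ν = κ ∧ ndL B ν = l) ⊆
      ((univ.filter (fun x : Fin (KK h κ) × (Fin tL → Bool) => B.eL ⟨κ, x.1⟩ x.2 = l)) ×ˢ
        (univ : Finset (Fin tS → Bool))).image
        (fun y => ((⟨κ, y.1.1⟩, (y.1.2, y.2)) : Nd h tL tS)) := by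
    rintro ⟨⟨κ₁, i⟩, u, w⟩ hν
    obtain ⟨h2, h3⟩ := (mem_filter.1 hν).2
    have h4 : κ₁ = κ := h2
    subst h4
    rw [mem_image]
    exact ⟨((i, u), w), mem_product.2 ⟨mem_filter.2 ⟨mem_univ _, h3⟩, mem_univ _⟩, rfl⟩
  refine (card_le_card h1).trans (card_image_le.trans ?_)
  rw [card_product, card_univ, Fintype.card_fun, Fintype.card_bool, Fintype.card_fin]
  exact Nat.mul_le_mul_right _ (B.mulL κ l)

theorem st1_cntS (B : Brd m n h tL tS) (s : Fin n) :
    (univ.filter (fun ν : Nd h tL tS => ndS B ν = s)).card ≤ 9 * 2 ^ tL := by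
  have h1 : univ.filter (fun ν : Nd h tL tS => ndS B ν = s) ⊆
      (univ : Finset (Fin 3)).biUnion (fun κ =>
      ((univ.filter (fun x : Fin (KK h κ) × (Fin tS → Bool) => B.eS ⟨κ, x.1⟩ x.2 = s)) ×ˢ
        (univ : Finset (Fin tL → Bool))).image
        (fun y => ((⟨κ, y.1.1⟩, (y.2, y.1.2)) : Nd h tL tS))) := by
    rintro ⟨⟨κ₁, i⟩, u, w⟩ hν
    have h3 := (mem_filter.1 hν).2
    rw [mem_biUnion]
    refine ⟨κ₁, mem_univ _, ?_⟩
    rw [mem_image]
    exact ⟨((i, w), u), mem_product.2 ⟨mem_filter.2 ⟨mem_univ _, h3⟩, mem_univ _⟩, rfl⟩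
  have h2 : ∀ κ ∈ (univ : Finset (Fin 3)),
      (((univ.filter (fun x : Fin (KK h κ) × (Fin tS → Bool) => B.eS ⟨κ, x.1⟩ x.2 = s)) ×ˢ
        (univ : Finset (Fin tL → Bool))).image
        (fun y => ((⟨κ, y.1.1⟩, (y.2, y.1.2)) : Nd h tL tS))).card ≤ 3 * 2 ^ tL := by
    intro κ _
    refine card_image_le.trans ?_
    rw [card_product, card_univ, Fintype.card_fun, Fintype.card_bool, Fintype.card_fin]
    exact Nat.mul_le_mul_right _ (B.mulS κ s)
  have h3 := (card_le_card h1).trans (card_biUnion_le_card_mul _ _ _ h2)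
  rw [card_univ, Fintype.card_fin] at h3
  omega

theorem st1_co1 (P : Nd h tL tS → Prop) [DecidablePred P] :
    (univ.filter (fun r : Rc h tL tS => P (co1 r))).card ≤
      (univ.filter (fun ν : Nd h tL tS => P ν)).card * (tL * tS) := by
  have h1 : univ.filter (fun r : Rc h tL tS => P (co1 r)) ⊆
      (univ.filter (fun ν : Nd h tL tS => P ν)) ×ˢ (univ : Finset (Fin tL × Fin tS)) := by
    intro r hr
    exact mem_product.2 ⟨mem_filter.2 ⟨mem_univ _, (mem_filter.1 hr).2⟩, mem_univ _⟩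
  refine (card_le_card h1).trans ?_
  rw [card_product, card_univ, Fintype.card_prod, Fintype.card_fin, Fintype.card_fin]

theorem st1_co2 (P : Nd h tL tS → Prop) [DecidablePred P] :
    (univ.filter (fun r : Rc h tL tS => P (co2 r))).card ≤
      (univ.filter (fun ν : Nd h tL tS => P ν)).card * (tL * tS) := by
  have h1 : (univ.filter (fun r : Rc h tL tS => P (co2 r))).card ≤
      ((univ.filter (fun ν : Nd h tL tS => P ν)) ×ˢ
        (univ : Finset (Fin tL × Fin tS))).card := by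
    refine card_le_card_of_injOn (fun r => (co2 r, r.2)) ?_ ?_
    · intro r hr
      exact mem_coe.2 (mem_product.2 ⟨mem_filter.2 ⟨mem_univ _,
        (mem_filter.1 (mem_coe.1 hr)).2⟩, mem_univ _⟩)
    · rintro ⟨⟨b, u, w⟩, i, j⟩ _ ⟨⟨b', u', w'⟩, i', j'⟩ _ hr
      have h2 : ((b, (fl u i, fl w j)), (i, j)) = ((b', (fl u' i', fl w' j')), (i', j')) := hr
      rw [Prod.mk.injEq, Prod.mk.injEq, Prod.mk.injEq, Prod.mk.injEq] at h2
      obtain ⟨⟨h3, h4, h5⟩, h6, h7⟩ := h2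
      subst h3 h6 h7
      have h8 := congrArg (fun x => fl x i) h4
      have h9 := congrArg (fun x => fl x j) h5
      simp only [fl_fl] at h8 h9
      rw [h8, h9]
  refine h1.trans ?_
  rw [card_product, card_univ, Fintype.card_prod, Fintype.card_fin, Fintype.card_fin]

theorem st1_T (_hp : Par m n h) : 2 ≤ Nat.log 2 (2 * m + 1) + 2 := Nat.le_add_left _ _

theorem st1_h (hp : Par m n h) : 10 ^ 9 ≤ h := by
  have h1 := hp.hlog
  have h2 := st1_T hp
  have h3 : 1 ≤ (Nat.log 2 (2 * m + 1) + 2) ^ 4 := Nat.one_le_pow _ _ (by omega)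
  calc 10 ^ 9 = 10 ^ 9 * 1 := (Nat.mul_one _).symm
    _ ≤ 10 ^ 9 * (Nat.log 2 (2 * m + 1) + 2) ^ 4 := Nat.mul_le_mul_left _ h3
    _ ≤ h := h1

theorem st1_hT (hp : Par m n h) :
    10 ^ 9 * ((Nat.log 2 (2 * m + 1) + 2) * (Nat.log 2 (2 * m + 1) + 2)) ≤ h := by
  have h1 := hp.hlog
  have h2 := st1_T hp
  refine le_trans (Nat.mul_le_mul_left _ ?_) h1
  rw [← pow_two]
  exact Nat.pow_le_pow_right (by omega) (by norm_num)

theorem st1_root (hp : Par m n h) (t : ℕ) (ht : 2 ^ t * h ^ 4 ≤ 4 * (2 * m + 1)) :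
    18 * 2 ^ t * ((Nat.log 2 (2 * m + 1) + 2) * (Nat.log 2 (2 * m + 1) + 2)) ≤ q3 m h := by
  have hh := st1_h hp
  have hT := st1_hT hp
  generalize (Nat.log 2 (2 * m + 1) + 2) * (Nat.log 2 (2 * m + 1) + 2) = T at hT ⊢
  have h0 : 0 < h := by omega
  rw [q3, Nat.le_div_iff_mul_le (by positivity)]
  have h1 : 18 * 2 ^ t * T * h ^ 3 * h ≤ (2 * m + 1) * h := by
    calc 18 * 2 ^ t * T * h ^ 3 * h = 18 * T * (2 ^ t * h ^ 4) := by ring
      _ ≤ 18 * T * (4 * (2 * m + 1)) := Nat.mul_le_mul_left _ ht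
      _ = (2 * m + 1) * (72 * T) := by ring
      _ ≤ (2 * m + 1) * h := by
          refine Nat.mul_le_mul_left _ (le_trans ?_ hT)
          exact Nat.mul_le_mul_right _ (by norm_num)
  exact Nat.le_of_mul_le_mul_right h1 h0

theorem st1_N (hp : Par m n h) : 10 ^ 9 * h ^ 3 ≤ 2 * m + 1 := by
  have hh := st1_h hp
  refine le_trans ?_ hp.hN
  calc 10 ^ 9 * h ^ 3 ≤ h * h ^ 3 := Nat.mul_le_mul_right _ hh
    _ = h ^ 4 := by ring
    _ ≤ h ^ 20 := Nat.pow_le_pow_right (by omega) (by norm_num)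

theorem st1_q3 (hp : Par m n h) : 10 ^ 9 ≤ q3 m h ∧ 1000 * q3 m h ≤ 2 * m + 1 ∧
    2 * m + 1 ≤ 2 * (q3 m h * h ^ 3) := by
  have hh := st1_h hp
  have h0 : 0 < h := by omega
  have h1 : 10 ^ 9 ≤ q3 m h := by
    rw [q3, Nat.le_div_iff_mul_le (by positivity)]
    exact st1_N hp
  have h2 : q3 m h * h ^ 3 ≤ 2 * m + 1 := Nat.div_mul_le_self _ _
  have h3 : 1000 ≤ h ^ 3 := le_trans (by omega) (Nat.le_self_pow (by norm_num) h)
  refine ⟨h1, ?_, ?_⟩
  · calc 1000 * q3 m h = q3 m h * 1000 := Nat.mul_comm _ _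
      _ ≤ q3 m h * h ^ 3 := Nat.mul_le_mul_left _ h3
      _ ≤ _ := h2
  · have h4 : 2 * m + 1 < (q3 m h + 1) * h ^ 3 := by
      rw [q3]
      exact (Nat.div_lt_iff_lt_mul (by positivity)).1 (Nat.lt_succ_self _)
    have h5 : (q3 m h + 1) * h ^ 3 ≤ (2 * q3 m h) * h ^ 3 :=
      Nat.mul_le_mul_right _ (by omega)
    calc 2 * m + 1 ≤ (q3 m h + 1) * h ^ 3 := h4.le
      _ ≤ (2 * q3 m h) * h ^ 3 := h5
      _ = _ := by ring

theorem st1_card (hp : Par m n h) (B : Brd m n h tL tS) :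
    Fintype.card (Rc h tL tS) * h ^ 4 ≤ 48 * (2 * m + 1) ^ 2 *
      ((Nat.log 2 (2 * m + 1) + 2) * (Nat.log 2 (2 * m + 1) + 2)) := by
  have hh := st1_h hp
  have h0 : 1 ≤ h ^ 4 := Nat.one_le_pow _ _ (by omega)
  have h1 : Fintype.card (BI h) = 3 * h ^ 4 := by
    rw [Fintype.card_sigma, Fin.sum_univ_three, Fintype.card_fin, Fintype.card_fin,
      Fintype.card_fin]
    show (h ^ 4 - 1) + h ^ 4 + (h ^ 4 + 1) = 3 * h ^ 4
    omega
  have h2 : Fintype.card (Rc h tL tS) = 3 * h ^ 4 * (2 ^ tL * 2 ^ tS) * (tL * tS) := by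
    rw [Fintype.card_prod, Fintype.card_prod, Fintype.card_prod, Fintype.card_prod, h1,
      Fintype.card_fun, Fintype.card_fun, Fintype.card_bool, Fintype.card_fin, Fintype.card_fin]
  rw [h2]
  calc 3 * h ^ 4 * (2 ^ tL * 2 ^ tS) * (tL * tS) * h ^ 4 =
        3 * ((2 ^ tL * h ^ 4) * (2 ^ tS * h ^ 4)) * (tL * tS) := by ring
    _ ≤ 3 * ((4 * (2 * m + 1)) * (4 * (2 * m + 1))) *
        ((Nat.log 2 (2 * m + 1) + 2) * (Nat.log 2 (2 * m + 1) + 2)) :=
        Nat.mul_le_mul (Nat.mul_le_mul_left _ (Nat.mul_le_mul B.szL B.szS))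
          (Nat.mul_le_mul B.tLle B.tSle)
    _ = _ := by ring

theorem st1_sat (hp : Par m n h) (B : Brd m n h tL tS) (t : ℕ)
    (ht : q3 m h * t ≤ 3 * 6 * Fintype.card (Rc h tL tS)) : 8 * t + 4 ≤ 2 * m - 1 := by
  have hh := st1_h hp
  have h0 : 0 < h := by omega
  have hT := st1_hT hp
  have hT2 := st1_T hp
  have hc := st1_card hp B
  obtain ⟨hq1, hq2, hq3⟩ := st1_q3 hp
  have hTT : 0 < (Nat.log 2 (2 * m + 1) + 2) * (Nat.log 2 (2 * m + 1) + 2) := by positivity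
  generalize (Nat.log 2 (2 * m + 1) + 2) * (Nat.log 2 (2 * m + 1) + 2) = T at hT hTT hc
  generalize Fintype.card (Rc h tL tS) = R at hc ht
  generalize q3 m h = Q at hq1 hq2 hq3 ht
  obtain ⟨N, hN⟩ : ∃ N, N = 2 * m + 1 := ⟨_, rfl⟩
  rw [← hN] at hc hq2 hq3
  have hN0 : 0 < N := by omega
  have h1 : N * (t * h) ≤ N * (1728 * N * T) := by
    calc N * (t * h) ≤ (2 * (Q * h ^ 3)) * (t * h) := Nat.mul_le_mul_right _ hq3
      _ = 2 * (Q * t) * h ^ 4 := by ring
      _ ≤ 2 * (3 * 6 * R) * h ^ 4 := Nat.mul_le_mul_right _ (Nat.mul_le_mul_left _ ht)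
      _ = 36 * (R * h ^ 4) := by ring
      _ ≤ 36 * (48 * N ^ 2 * T) := Nat.mul_le_mul_left _ hc
      _ = _ := by ring
  have h2 : t * h ≤ 1728 * N * T := Nat.le_of_mul_le_mul_left h1 hN0
  have h3 : (10 ^ 9 * t) * T ≤ (1728 * N) * T := by
    calc (10 ^ 9 * t) * T = t * (10 ^ 9 * T) := by ring
      _ ≤ t * h := Nat.mul_le_mul_left _ hT
      _ ≤ _ := h2
  have h4 : 10 ^ 9 * t ≤ 1728 * N := Nat.le_of_mul_le_mul_right h3 hTT
  omega

theorem stage1 (hp : Par m n h) (B : Brd m n h tL tS)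
    (U : Finset (Vt m n)) (hU : ∀ σ, deg U σ ≤ 6 * q3 m h) :
    ∃ c1 c2 : Rc h tL tS → Cell m,
      (∀ r, ln (ndK (co1 r)) (c1 r) = ndL B (co1 r)) ∧
      (∀ r, ln (ndK (co2 r)) (c2 r) = ndL B (co2 r)) ∧
      (∀ r κ', ln κ' (c1 r) ≠ ln κ' (c2 r)) ∧
      (∀ r, Disjoint (tau (ndK (co1 r)) (c1 r) (ndS B (co1 r)))
        (tau (ndK (co2 r)) (c2 r) (ndS B (co2 r)))) ∧
      (∀ r, Disjoint (tau (ndK (co1 r)) (c1 r) (ndS B (co1 r)) ∪
        tau (ndK (co2 r)) (c2 r) (ndS B (co2 r))) U) ∧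
      (∀ r r', r ≠ r' → Disjoint
        (tau (ndK (co1 r)) (c1 r) (ndS B (co1 r)) ∪ tau (ndK (co2 r)) (c2 r) (ndS B (co2 r)))
        (tau (ndK (co1 r')) (c1 r') (ndS B (co1 r')) ∪
          tau (ndK (co2 r')) (c2 r') (ndS B (co2 r')))) ∧
      (∀ σ, deg (U ∪ univ.biUnion (fun r => tau (ndK (co1 r)) (c1 r) (ndS B (co1 r)) ∪
        tau (ndK (co2 r)) (c2 r) (ndS B (co2 r)))) σ ≤ 14 * q3 m h) := by
  have hh := st1_h hp
  obtain ⟨hq1, hq2, _⟩ := st1_q3 hp
  have hκ2 : ∀ r : Rc h tL tS, ndK (co2 r) = ndK (co1 r) := fun r => rfl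
  have key := greedy (V := Vt m n) (St := Star m n) (I := Rc h tL tS)
    (Om := Cell m × Cell m) star st1_star
    (fun r => st1om (ndK (co1 r)) (ndL B (co1 r)) (ndL B (co2 r)))
    (fun r q => tau (ndK (co1 r)) q.1 (ndS B (co1 r)) ∪ tau (ndK (co2 r)) q.2 (ndS B (co2 r)))
    (fun r => {Sum.inl (ndK (co1 r), ndL B (co1 r)), Sum.inl (ndK (co1 r), ndL B (co2 r))} ∪
      (univ.filter (fun κ' : Fin 3 => κ' ≠ ndK (co1 r))).biUnion (fun κ' =>
        {Sum.inr (Sum.inr (κ', ndS B (co1 r))), Sum.inr (Sum.inr (κ', ndS B (co2 r)))}))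
    6 (14 * q3 m h) (q3 m h) (q3 m h) (6 * q3 m h) U
    (fun r q _ => (card_union_le _ _).trans (Nat.add_le_add (card_tau _ _ _) (card_tau _ _ _)))
  refine Exists.elim (key ?_ hU ?_ ?_ (by omega)) ?_
  · intro σ
    have hbd : ∀ (t : ℕ), 2 ^ t * h ^ 4 ≤ 4 * (2 * m + 1) →
        2 * ((9 * 2 ^ t) * (tL * tS)) ≤ q3 m h := by
      intro t ht
      refine le_trans ?_ (st1_root hp t ht)
      calc 2 * ((9 * 2 ^ t) * (tL * tS)) = 18 * 2 ^ t * (tL * tS) := by ring
        _ ≤ _ := Nat.mul_le_mul_left _ (Nat.mul_le_mul B.tLle B.tSle)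
    rcases σ with ⟨κ, l⟩ | (⟨κ, l⟩ | ⟨κ, s⟩)
    · have h1 : univ.filter (fun r : Rc h tL tS => (Sum.inl (κ, l) : Star m n) ∈
          ({Sum.inl (ndK (co1 r), ndL B (co1 r)), Sum.inl (ndK (co1 r), ndL B (co2 r))} ∪
      (univ.filter (fun κ' : Fin 3 => κ' ≠ ndK (co1 r))).biUnion (fun κ' =>
        {Sum.inr (Sum.inr (κ', ndS B (co1 r))), Sum.inr (Sum.inr (κ', ndS B (co2 r)))}) :
          Finset (Star m n))) ⊆
          univ.filter (fun r : Rc h tL tS => ndK (co1 r) = κ ∧ ndL B (co1 r) = l) ∪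
          univ.filter (fun r : Rc h tL tS => ndK (co2 r) = κ ∧ ndL B (co2 r) = l) := by
        intro r hr
        have h2 := (mem_filter.1 hr).2
        rw [mem_union, mem_insert, mem_singleton, mem_biUnion] at h2
        rw [mem_union, mem_filter, mem_filter]
        rcases h2 with (h2 | h2) | ⟨κ', _, h2⟩
        · have h3 := Sum.inl_injective h2
          rw [Prod.mk.injEq] at h3
          exact Or.inl ⟨mem_univ _, h3.1.symm, h3.2.symm⟩
        · have h3 := Sum.inl_injective h2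
          rw [Prod.mk.injEq] at h3
          exact Or.inr ⟨mem_univ _, h3.1.symm, h3.2.symm⟩
        · exact absurd h2 (by simp)
      have h2 := st1_co1 (fun ν : Nd h tL tS => ndK ν = κ ∧ ndL B ν = l)
      have h3 := st1_co2 (fun ν : Nd h tL tS => ndK ν = κ ∧ ndL B ν = l)
      have h4 : (univ.filter (fun ν : Nd h tL tS => ndK ν = κ ∧ ndL B ν = l)).card * (tL * tS) ≤
          (9 * 2 ^ tS) * (tL * tS) :=
        Nat.mul_le_mul_right _ ((st1_cntL B κ l).trans (Nat.mul_le_mul_right _ (by norm_num)))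
      have h5 := hbd tS B.szS
      have h6 := (card_le_card h1).trans (card_union_le _ _)
      refine h6.trans ?_
      omega
    · rw [filter_eq_empty_iff.2, card_empty]
      · exact Nat.zero_le _
      · intro r _ h2
        rw [mem_union, mem_insert, mem_singleton, mem_biUnion] at h2
        rcases h2 with (h2 | h2) | ⟨κ', _, h2⟩ <;> exact absurd h2 (by simp)
    · have h1 : univ.filter (fun r : Rc h tL tS => (Sum.inr (Sum.inr (κ, s)) : Star m n) ∈
          ({Sum.inl (ndK (co1 r), ndL B (co1 r)), Sum.inl (ndK (co1 r), ndL B (co2 r))} ∪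
      (univ.filter (fun κ' : Fin 3 => κ' ≠ ndK (co1 r))).biUnion (fun κ' =>
        {Sum.inr (Sum.inr (κ', ndS B (co1 r))), Sum.inr (Sum.inr (κ', ndS B (co2 r)))}) :
          Finset (Star m n))) ⊆
          univ.filter (fun r : Rc h tL tS => ndS B (co1 r) = s) ∪
          univ.filter (fun r : Rc h tL tS => ndS B (co2 r) = s) := by
        intro r hr
        have h2 := (mem_filter.1 hr).2
        rw [mem_union, mem_insert, mem_singleton, mem_biUnion] at h2
        rw [mem_union, mem_filter, mem_filter]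
        rcases h2 with (h2 | h2) | ⟨κ', _, h2⟩
        · exact absurd h2 (by simp)
        · exact absurd h2 (by simp)
        · rw [mem_insert, mem_singleton] at h2
          rcases h2 with h2 | h2
          · have h3 := Sum.inr_injective (Sum.inr_injective h2)
            rw [Prod.mk.injEq] at h3
            exact Or.inl ⟨mem_univ _, h3.2.symm⟩
          · have h3 := Sum.inr_injective (Sum.inr_injective h2)
            rw [Prod.mk.injEq] at h3
            exact Or.inr ⟨mem_univ _, h3.2.symm⟩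
      have h2 := st1_co1 (fun ν : Nd h tL tS => ndS B ν = s)
      have h3 := st1_co2 (fun ν : Nd h tL tS => ndS B ν = s)
      have h4 : (univ.filter (fun ν : Nd h tL tS => ndS B ν = s)).card * (tL * tS) ≤
          (9 * 2 ^ tL) * (tL * tS) :=
        Nat.mul_le_mul_right _ (st1_cntS B s)
      have h5 := hbd tL B.szL
      have h6 := (card_le_card h1).trans (card_union_le _ _)
      refine h6.trans ?_
      omega
  · intro r W hW
    have h1 := st1_prod (ndK (co1 r)) (ndL B (co1 r)) (ndL B (co2 r))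
      (fun q => ¬ Disjoint (tau (ndK (co1 r)) q (ndS B (co1 r))) W)
      (fun q => ¬ Disjoint (tau (ndK (co1 r)) q (ndS B (co2 r))) W)
      (fun q => ¬ Disjoint (tau (ndK (co1 r)) q.1 (ndS B (co1 r)) ∪
        tau (ndK (co2 r)) q.2 (ndS B (co2 r))) W)
      (by
        intro q _ _ hq
        rw [disjoint_union_left, not_and_or] at hq
        exact hq)
      _ _ (st1_badU _ _ _ W _ hW) (st1_badU _ _ _ W _ hW)
    have h2 := st1_om (ndK (co1 r)) (ndL B (co1 r)) (ndL B (co2 r))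
    have h3 : 280 * q3 m h + 4 < 2 * m - 1 := by omega
    generalize 2 * m - 1 = D at h1 h2 h3
    have h4 : (280 * q3 m h + 4) * D < D * D := Nat.mul_lt_mul_of_pos_right h3 (by omega)
    nlinarith
  · intro r T hT
    have h1 := st1_prod (ndK (co1 r)) (ndL B (co1 r)) (ndL B (co2 r))
      (fun q => ∃ κ', κ' ≠ ndK (co1 r) ∧ ((Sum.inl (κ', ln κ' q) : Star m n) ∈ T ∨
        (Sum.inr (Sum.inl (κ', ln κ' q)) : Star m n) ∈ T))
      (fun q => ∃ κ', κ' ≠ ndK (co1 r) ∧ ((Sum.inl (κ', ln κ' q) : Star m n) ∈ T ∨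
        (Sum.inr (Sum.inl (κ', ln κ' q)) : Star m n) ∈ T))
      (fun q => ∃ v ∈ tau (ndK (co1 r)) q.1 (ndS B (co1 r)) ∪
        tau (ndK (co2 r)) q.2 (ndS B (co2 r)), ∃ σ ∈ star v, σ ∈ T ∧ σ ∉
        ({Sum.inl (ndK (co1 r), ndL B (co1 r)), Sum.inl (ndK (co1 r), ndL B (co2 r))} ∪
        (univ.filter (fun κ' : Fin 3 => κ' ≠ ndK (co1 r))).biUnion (fun κ' =>
        {Sum.inr (Sum.inr (κ', ndS B (co1 r))), Sum.inr (Sum.inr (κ', ndS B (co2 r)))}) :
          Finset (Star m n)))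
      (by
        rintro q hl1 hl2 ⟨v, hv, σ, hσ, hσT, hσr⟩
        rw [mem_union, mem_insert, mem_singleton, mem_biUnion] at hσr
        push Not at hσr
        obtain ⟨⟨hr1, hr2⟩, hr3⟩ := hσr
        rw [mem_union] at hv
        rcases hv with hv | hv
        · left
          rw [st1_mem_tau] at hv
          rcases hv with rfl | ⟨κ', hκ', rfl⟩
          · have h2 : σ ∈ univ.image (fun κ : Fin 3 => (Sum.inl (κ, ln κ q.1) : Star m n)) := hσ
            rw [mem_image] at h2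
            obtain ⟨κ', _, rfl⟩ := h2
            refine ⟨κ', ?_, Or.inl hσT⟩
            rintro rfl
            exact hr1 (by rw [hl1])
          · have h2 : σ ∈ ({Sum.inr (Sum.inl (κ', ln κ' q.1)),
              Sum.inr (Sum.inr (κ', ndS B (co1 r)))} : Finset (Star m n)) := hσ
            rw [mem_insert, mem_singleton] at h2
            rcases h2 with rfl | rfl
            · exact ⟨κ', hκ', Or.inr hσT⟩
            · exact absurd (mem_insert_self _ _) (hr3 κ' (mem_filter.2 ⟨mem_univ _, hκ'⟩))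
        · right
          rw [st1_mem_tau] at hv
          rcases hv with rfl | ⟨κ', hκ', rfl⟩
          · have h2 : σ ∈ univ.image (fun κ : Fin 3 => (Sum.inl (κ, ln κ q.2) : Star m n)) := hσ
            rw [mem_image] at h2
            obtain ⟨κ', _, rfl⟩ := h2
            refine ⟨κ', ?_, Or.inl hσT⟩
            rintro rfl
            exact hr2 (by rw [hl2])
          · have h2 : σ ∈ ({Sum.inr (Sum.inl (κ', ln κ' q.2)),
              Sum.inr (Sum.inr (κ', ndS B (co2 r)))} : Finset (Star m n)) := hσ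
            rw [mem_insert, mem_singleton] at h2
            rcases h2 with rfl | rfl
            · exact ⟨κ', hκ', Or.inr hσT⟩
            · exact absurd (mem_insert_of_mem (mem_singleton_self _))
                (hr3 κ' (mem_filter.2 ⟨mem_univ _, hκ'⟩)))
      _ _ (st1_badT _ _ T) (st1_badT _ _ T)
    have h2 := st1_om (ndK (co1 r)) (ndL B (co1 r)) (ndL B (co2 r))
    have h3 := st1_sat hp B T.card hT
    generalize 2 * m - 1 = D at h1 h2 h3
    have h4 : (8 * T.card + 4) * D ≤ D * D := Nat.mul_le_mul_right _ h3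
    nlinarith
  · rintro f ⟨hf1, hf2, hf3, hf4⟩
    have hmem : ∀ r, ln (ndK (co1 r)) (f r).1 = ndL B (co1 r) ∧
        ln (ndK (co1 r)) (f r).2 = ndL B (co2 r) ∧
        ∀ κ', κ' ≠ ndK (co1 r) → ln κ' (f r).1 ≠ ln κ' (f r).2 := fun r =>
      (mem_filter.1 (hf1 r)).2
    have hall : ∀ r κ', ln κ' (f r).1 ≠ ln κ' (f r).2 := by
      intro r κ'
      by_cases h1 : κ' = ndK (co1 r)
      · subst h1
        rw [(hmem r).1, (hmem r).2.1]
        intro h2
        exact fl_ne r.1.2.1 r.2.1 (B.injL r.1.1 h2).symm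
      · exact (hmem r).2.2 κ' h1
    refine ⟨fun r => (f r).1, fun r => (f r).2, fun r => (hmem r).1, fun r => (hmem r).2.1,
      hall, fun r => ?_, hf2, fun r r' hr => hf3 r r' hr, hf4⟩
    rw [disjoint_left]
    intro v hv1 hv2
    rw [st1_mem_tau] at hv1 hv2
    have hs : ndS B (co1 r) ≠ ndS B (co2 r) := by
      intro h2
      exact fl_ne r.1.2.2 r.2.2 (B.injS r.1.1 h2).symm
    rcases hv1 with rfl | ⟨κ1, _, rfl⟩
    · rcases hv2 with h2 | ⟨κ2, _, h2⟩
      · have h3 := Sum.inl_injective h2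
        exact hall r 0 (congrArg (ln 0) h3)
      · exact absurd h2 (by simp)
    · rcases hv2 with h2 | ⟨κ2, _, h2⟩
      · exact absurd h2 (by simp)
      · have h3 := Sum.inr_injective h2
        exact hs (congrArg (fun e : Fin 3 × Fin m × Fin n => e.2.2) h3)

end H77.LT
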