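import Pool.Agent.H77.LT.Par
import Pool.Agent.H77.LT.TPW
import Pool.Agent.H77.LT.Greedy
import Pool.Agent.H77.LT.Geo

/-!
# [H77 LT ST2] Stage 2: the two pi of every rectangle

`N = 2m+1`, `q3 = N/h^3`, `D = 2m-1`, `T = Nat.log 2 N + 2`, `10^9 T^4 ≤ h`.
Apply `greedy` with items `r : Rc`, choices `(Cell m × Fin n) × (Cell m × Fin n)`,
`((q3,y3),(q4,y4))`, `κ` the direction, `l1 = ndL (co3 r)` (the line of `co1 r`), `s2 = ndS (co3 r)`,
`l2 = ndL (co4 r)`, `s1 = ndS (co4 r)`. `om`: `ln κ q3 ≠ l1`, `ln κ q4 ≠ l2`, the lines of `q3`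
(`q4`) differ in every direction from those of the cells in `Av (inl r)` (`Av (inr r)`), the
lines of `q3` and `q4` differ in every direction, and `ln κ q3 ≠ l2`, `ln κ q4 ≠ l1`.
With `u = D n` every line (symbol) belongs to at most `u` of the `m u` pairs (cell, symbol).
-/

open Finset

namespace H77.LT

variable {m n h tL tS : ℕ}

/-- pairs (cell, free symbol) -/
abbrev St2P (m n : ℕ) : Type := Cell m × Fin n

theorem st2_cardP : Fintype.card (St2P m n) = m * ((2 * m - 1) * n) := by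
  rw [Fintype.card_prod, card_cell, Fintype.card_fin, Nat.mul_assoc]

theorem st2_line (κ : Fin 3) (l : Fin m) :
    (univ.filter (fun p : St2P m n => ln κ p.1 = l)).card = (2 * m - 1) * n := by
  have h1 : univ.filter (fun p : St2P m n => ln κ p.1 = l) =
      (univ.filter (fun q : Cell m => ln κ q = l)) ×ˢ (univ : Finset (Fin n)) := by
    ext p
    simp
  rw [h1, card_product, card_line, card_univ, Fintype.card_fin]

theorem st2_sym (s : Fin n) :
    (univ.filter (fun p : St2P m n => p.2 = s)).card = m * (2 * m - 1) := by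
  have h1 : univ.filter (fun p : St2P m n => p.2 = s) =
      (univ : Finset (Cell m)) ×ˢ ({s} : Finset (Fin n)) := by
    ext p
    simp only [mem_filter, mem_univ, true_and, mem_product, mem_singleton]
  rw [h1, card_product, card_singleton, card_univ, card_cell, Nat.mul_one]

theorem st2_linesym (κ : Fin 3) (l : Fin m) (s : Fin n) :
    (univ.filter (fun p : St2P m n => ln κ p.1 = l ∧ p.2 = s)).card = 2 * m - 1 := by
  have h1 : univ.filter (fun p : St2P m n => ln κ p.1 = l ∧ p.2 = s) =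
      (univ.filter (fun q : Cell m => ln κ q = l)) ×ˢ ({s} : Finset (Fin n)) := by
    ext p
    simp only [mem_filter, mem_univ, true_and, mem_product, mem_singleton]
  rw [h1, card_product, card_line, card_singleton, Nat.mul_one]

/-- the stars which are not root stars -/
def St2New (σ : Star m n) (p : St2P m n) : Prop :=
  match σ with
  | Sum.inl x => ln x.1 p.1 = x.2
  | Sum.inr (Sum.inl x) => ln x.1 p.1 = x.2
  | Sum.inr (Sum.inr x) => p.2 = x.2

instance (σ : Star m n) (p : St2P m n) : Decidable (St2New σ p) := by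
  unfold St2New
  rcases σ with x | x | x <;> infer_instance

theorem st2_new_card (hmn : m ≤ n) (σ : Star m n) :
    (univ.filter (fun p : St2P m n => St2New σ p)).card ≤ (2 * m - 1) * n := by
  rcases σ with x | x | x
  · exact (st2_line x.1 x.2).le
  · exact (st2_line x.1 x.2).le
  · refine (st2_sym (m := m) x.2).le.trans ?_
    rw [Nat.mul_comm]
    exact Nat.mul_le_mul_left _ hmn

theorem st2_new_cardT (hmn : m ≤ n) (T : Finset (Star m n)) :
    (univ.filter (fun p : St2P m n => ∃ σ ∈ T, St2New σ p)).card ≤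
      T.card * ((2 * m - 1) * n) := by
  have h1 : univ.filter (fun p : St2P m n => ∃ σ ∈ T, St2New σ p) ⊆
      T.biUnion (fun σ => univ.filter (fun p : St2P m n => St2New σ p)) := by
    intro p hp
    rw [mem_filter] at hp
    obtain ⟨_, σ, hσ, h2⟩ := hp
    exact mem_biUnion.2 ⟨σ, hσ, mem_filter.2 ⟨mem_univ _, h2⟩⟩
  refine (card_le_card h1).trans (card_biUnion_le.trans ?_)
  refine (sum_le_sum (fun σ _ => st2_new_card hmn σ)).trans ?_
  rw [sum_const, smul_eq_mul]

/-- the stars of a vertex of `pis` -/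
theorem st2_star (κ : Fin 3) (l : Fin m) (s : Fin n) (p : St2P m n) (v : Vt m n)
    (hv : v ∈ pis κ l s p.1 p.2) (σ : Star m n) (hσ : σ ∈ star v) :
    St2New σ p ∨ σ = Sum.inr (Sum.inl (κ, l)) ∨ σ = Sum.inr (Sum.inr (κ, s)) := by
  unfold pis at hv
  simp only [mem_union, mem_insert, mem_singleton, mem_image, mem_filter, mem_univ,
    true_and] at hv
  rcases hv with (rfl | rfl | rfl) | ⟨κ', _, rfl⟩
  · simp only [star, mem_image, mem_univ, true_and] at hσ
    obtain ⟨κ'', rfl⟩ := hσ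
    exact Or.inl rfl
  · simp only [star, mem_insert, mem_singleton] at hσ
    rcases hσ with rfl | rfl
    · exact Or.inl rfl
    · exact Or.inr (Or.inr rfl)
  · simp only [star, mem_insert, mem_singleton] at hσ
    rcases hσ with rfl | rfl
    · exact Or.inr (Or.inl rfl)
    · exact Or.inl rfl
  · simp only [star, mem_insert, mem_singleton] at hσ
    rcases hσ with rfl | rfl
    · exact Or.inl rfl
    · exact Or.inl rfl

/-! ### Vertices of `U` -/

theorem st2_cells (U : Finset (Vt m n)) (L : ℕ) (hU : ∀ σ, deg U σ ≤ L) :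
    (univ.filter (fun q : Cell m => Sum.inl q ∈ U)).card ≤ m * L := by
  rw [Finset.card_eq_sum_card_fiberwise (f := ln (m := m) 0) (t := univ) (fun _ _ => mem_univ _)]
  have h1 : ∀ l ∈ (univ : Finset (Fin m)),
      ((univ.filter (fun q : Cell m => (Sum.inl q : Vt m n) ∈ U)).filter
        (fun q => ln 0 q = l)).card ≤ L := by
    intro l _
    refine le_trans ?_ (hU (Sum.inl (0, l)))
    unfold deg
    refine card_le_card_of_injOn (fun q => Sum.inl q) ?_ (fun _ _ _ _ h => Sum.inl_injective h)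
    intro q hq
    have hq' := mem_filter.1 (mem_coe.1 hq)
    obtain ⟨h2, h3⟩ := hq'
    rw [mem_coe, mem_filter]
    refine ⟨(mem_filter.1 h2).2, ?_⟩
    simp only [star, mem_image, mem_univ, true_and]
    exact ⟨0, by rw [h3]⟩
  refine (sum_le_sum h1).trans ?_
  rw [sum_const, smul_eq_mul, card_univ, Fintype.card_fin]

theorem st2_lines (U : Finset (Vt m n)) (L : ℕ) (hU : ∀ σ, deg U σ ≤ L) (κ : Fin 3) (s : Fin n) :
    (univ.filter (fun l : Fin m => (Sum.inr (κ, l, s) : Vt m n) ∈ U)).card ≤ L := by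
  refine le_trans ?_ (hU (Sum.inr (Sum.inr (κ, s))))
  unfold deg
  refine card_le_card_of_injOn (fun l => Sum.inr (κ, l, s)) ?_ ?_
  · intro l hl
    have hl' := mem_filter.1 (mem_coe.1 hl)
    rw [mem_coe, mem_filter]
    refine ⟨hl'.2, ?_⟩
    simp [star]
  · intro a _ b _ hab
    simpa using hab

theorem st2_syms (U : Finset (Vt m n)) (L : ℕ) (hU : ∀ σ, deg U σ ≤ L) (κ : Fin 3) (l : Fin m) :
    (univ.filter (fun s : Fin n => (Sum.inr (κ, l, s) : Vt m n) ∈ U)).card ≤ L := by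
  refine le_trans ?_ (hU (Sum.inr (Sum.inl (κ, l))))
  unfold deg
  refine card_le_card_of_injOn (fun s => Sum.inr (κ, l, s)) ?_ ?_
  · intro s hs
    have hs' := mem_filter.1 (mem_coe.1 hs)
    rw [mem_coe, mem_filter]
    refine ⟨hs'.2, ?_⟩
    simp [star]
  · intro a _ b _ hab
    simpa using hab

theorem st2_ents (U : Finset (Vt m n)) (L : ℕ) (hU : ∀ σ, deg U σ ≤ L) (κ : Fin 3) :
    (univ.filter (fun e : Fin m × Fin n => (Sum.inr (κ, e.1, e.2) : Vt m n) ∈ U)).card
      ≤ m * L := by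
  rw [Finset.card_eq_sum_card_fiberwise (f := fun e : Fin m × Fin n => e.1) (t := univ)
    (fun _ _ => mem_univ _)]
  have h1 : ∀ l ∈ (univ : Finset (Fin m)),
      ((univ.filter (fun e : Fin m × Fin n => (Sum.inr (κ, e.1, e.2) : Vt m n) ∈ U)).filter
        (fun e => e.1 = l)).card ≤ L := by
    intro l _
    refine le_trans ?_ (st2_syms U L hU κ l)
    refine card_le_card_of_injOn (fun e => e.2) ?_ ?_
    · intro e he
      have he' := mem_filter.1 (mem_coe.1 he)
      obtain ⟨h2, h3⟩ := he'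
      have h4 := (mem_filter.1 h2).2
      rw [mem_coe, mem_filter]
      refine ⟨mem_univ _, ?_⟩
      rw [← h3]
      exact h4
    · intro a ha b hb hab
      have ha' := (mem_filter.1 (mem_coe.1 ha)).2
      have hb' := (mem_filter.1 (mem_coe.1 hb)).2
      exact Prod.ext (ha'.trans hb'.symm) hab
  refine (sum_le_sum h1).trans ?_
  rw [sum_const, smul_eq_mul, card_univ, Fintype.card_fin]

theorem st2_U (hmn : m ≤ n) (hm : 1 ≤ m) (U : Finset (Vt m n)) (L : ℕ) (hU : ∀ σ, deg U σ ≤ L)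
    (κ : Fin 3) (l : Fin m) (s : Fin n) :
    (univ.filter (fun p : St2P m n => ¬ Disjoint (pis κ l s p.1 p.2) U)).card ≤
      6 * L * ((2 * m - 1) * n) := by
  let A1 : Finset (St2P m n) := (univ.filter (fun q : Cell m => (Sum.inl q : Vt m n) ∈ U)) ×ˢ univ
  let A2 : Finset (St2P m n) :=
    (univ.filter (fun x : Fin m => (Sum.inr (κ, x, s) : Vt m n) ∈ U)).biUnion
      (fun x => univ.filter (fun p : St2P m n => ln κ p.1 = x))
  let A3 : Finset (St2P m n) :=
    (univ : Finset (Cell m)) ×ˢ (univ.filter (fun y : Fin n => (Sum.inr (κ, l, y) : Vt m n) ∈ U))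
  let A4 : Finset (St2P m n) := (univ : Finset (Fin 3)).biUnion (fun κ' =>
    (univ.filter (fun e : Fin m × Fin n => (Sum.inr (κ', e.1, e.2) : Vt m n) ∈ U)).biUnion
      (fun e => univ.filter (fun p : St2P m n => ln κ' p.1 = e.1 ∧ p.2 = e.2)))
  have hsub : univ.filter (fun p : St2P m n => ¬ Disjoint (pis κ l s p.1 p.2) U) ⊆
      ((A1 ∪ A2) ∪ A3) ∪ A4 := by
    intro p hp
    rw [mem_filter, not_disjoint_iff] at hp
    obtain ⟨_, v, hv, hvU⟩ := hp
    unfold pis at hv
    simp only [mem_union, mem_insert, mem_singleton, mem_image, mem_filter, mem_univ,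
      true_and] at hv
    rcases hv with (rfl | rfl | rfl) | ⟨κ', _, rfl⟩
    · apply mem_union_left
      apply mem_union_left
      apply mem_union_left
      exact mem_product.2 ⟨mem_filter.2 ⟨mem_univ _, hvU⟩, mem_univ _⟩
    · apply mem_union_left
      apply mem_union_left
      apply mem_union_right
      exact mem_biUnion.2 ⟨ln κ p.1, mem_filter.2 ⟨mem_univ _, hvU⟩,
        mem_filter.2 ⟨mem_univ _, rfl⟩⟩
    · apply mem_union_left
      apply mem_union_right
      exact mem_product.2 ⟨mem_univ _, mem_filter.2 ⟨mem_univ _, hvU⟩⟩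
    · apply mem_union_right
      exact mem_biUnion.2 ⟨κ', mem_univ _, mem_biUnion.2 ⟨(ln κ' p.1, p.2),
        mem_filter.2 ⟨mem_univ _, hvU⟩, mem_filter.2 ⟨mem_univ _, rfl, rfl⟩⟩⟩
  have h1 : A1.card ≤ m * L * n := by
    rw [card_product, card_univ, Fintype.card_fin]
    exact Nat.mul_le_mul_right _ (st2_cells U L hU)
  have h2 : A2.card ≤ L * ((2 * m - 1) * n) := by
    refine card_biUnion_le.trans ?_
    refine (sum_le_sum (fun x _ => (st2_line κ x).le)).trans ?_
    rw [sum_const, smul_eq_mul]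
    exact Nat.mul_le_mul_right _ (st2_lines U L hU κ s)
  have h3 : A3.card ≤ (m * (2 * m - 1)) * L := by
    rw [card_product, card_univ, card_cell]
    exact Nat.mul_le_mul_left _ (st2_syms U L hU κ l)
  have h4 : A4.card ≤ 3 * (m * L * (2 * m - 1)) := by
    refine card_biUnion_le.trans ?_
    have h5 : ∀ κ' ∈ (univ : Finset (Fin 3)),
        ((univ.filter (fun e : Fin m × Fin n => (Sum.inr (κ', e.1, e.2) : Vt m n) ∈ U)).biUnion
          (fun e => univ.filter (fun p : St2P m n => ln κ' p.1 = e.1 ∧ p.2 = e.2))).card ≤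
        m * L * (2 * m - 1) := by
      intro κ' _
      refine card_biUnion_le.trans ?_
      refine (sum_le_sum (fun e _ => (st2_linesym κ' e.1 e.2).le)).trans ?_
      rw [sum_const, smul_eq_mul]
      exact Nat.mul_le_mul_right _ (st2_ents U L hU κ')
    refine (sum_le_sum h5).trans ?_
    rw [sum_const, smul_eq_mul, card_univ, Fintype.card_fin]
  have h6 := card_le_card hsub
  have h7 := card_union_le ((A1 ∪ A2) ∪ A3) A4
  have h8 := card_union_le (A1 ∪ A2) A3
  have h9 := card_union_le A1 A2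
  have e1 : m * L * n ≤ L * ((2 * m - 1) * n) := by
    rw [Nat.mul_comm m L, Nat.mul_assoc]
    apply Nat.mul_le_mul_left
    apply Nat.mul_le_mul_right
    omega
  have e3 : (m * (2 * m - 1)) * L ≤ L * ((2 * m - 1) * n) := by
    rw [Nat.mul_comm _ L, Nat.mul_comm m]
    apply Nat.mul_le_mul_left
    exact Nat.mul_le_mul_left _ hmn
  have e4 : m * L * (2 * m - 1) ≤ L * ((2 * m - 1) * n) := by
    have : m * L * (2 * m - 1) = L * ((2 * m - 1) * m) := by ring
    rw [this]
    apply Nat.mul_le_mul_left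
    exact Nat.mul_le_mul_left _ hmn
  have e5 : 6 * L * ((2 * m - 1) * n) = 6 * (L * ((2 * m - 1) * n)) := by ring
  omega

/-! ### The admissible choices -/

/-- excluded pairs of one component -/
def st2Ex (κ : Fin 3) (l l' : Fin m) (A : Finset (Cell m)) (p : St2P m n) : Prop :=
  ln κ p.1 = l ∨ ln κ p.1 = l' ∨ ∃ a ∈ A, ∃ κ', ln κ' p.1 = ln κ' a

instance (κ : Fin 3) (l l' : Fin m) (A : Finset (Cell m)) (p : St2P m n) :
    Decidable (st2Ex κ l l' A p) := by
  unfold st2Ex; infer_instance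

theorem st2_ex_card (κ : Fin 3) (l l' : Fin m) (A : Finset (Cell m)) (hA : A.card ≤ h) :
    (univ.filter (fun p : St2P m n => st2Ex κ l l' A p)).card ≤
      (3 * h + 2) * ((2 * m - 1) * n) := by
  have hsub : univ.filter (fun p : St2P m n => st2Ex κ l l' A p) ⊆
      (univ.filter (fun p : St2P m n => ln κ p.1 = l) ∪
        univ.filter (fun p : St2P m n => ln κ p.1 = l')) ∪
      A.biUnion (fun a => (univ : Finset (Fin 3)).biUnion (fun κ' =>
        univ.filter (fun p : St2P m n => ln κ' p.1 = ln κ' a))) := by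
    intro p hp
    rcases (mem_filter.1 hp).2 with h1 | h1 | ⟨a, ha, κ', h1⟩
    · exact mem_union_left _ (mem_union_left _ (mem_filter.2 ⟨mem_univ _, h1⟩))
    · exact mem_union_left _ (mem_union_right _ (mem_filter.2 ⟨mem_univ _, h1⟩))
    · exact mem_union_right _ (mem_biUnion.2 ⟨a, ha, mem_biUnion.2 ⟨κ', mem_univ _,
        mem_filter.2 ⟨mem_univ _, h1⟩⟩⟩)
  have h1 := card_le_card hsub
  have h2 := card_union_le (univ.filter (fun p : St2P m n => ln κ p.1 = l) ∪
        univ.filter (fun p : St2P m n => ln κ p.1 = l'))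
      (A.biUnion (fun a => (univ : Finset (Fin 3)).biUnion (fun κ' =>
        univ.filter (fun p : St2P m n => ln κ' p.1 = ln κ' a))))
  have h3 := card_union_le (univ.filter (fun p : St2P m n => ln κ p.1 = l))
        (univ.filter (fun p : St2P m n => ln κ p.1 = l'))
  have h4 : (A.biUnion (fun a => (univ : Finset (Fin 3)).biUnion (fun κ' =>
        univ.filter (fun p : St2P m n => ln κ' p.1 = ln κ' a)))).card ≤
      h * (3 * ((2 * m - 1) * n)) := by
    refine card_biUnion_le.trans ?_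
    have h5 : ∀ a ∈ A, ((univ : Finset (Fin 3)).biUnion (fun κ' =>
        univ.filter (fun p : St2P m n => ln κ' p.1 = ln κ' a))).card ≤
        3 * ((2 * m - 1) * n) := by
      intro a _
      refine card_biUnion_le.trans ?_
      refine (sum_le_sum (fun κ' _ => (st2_line κ' (ln κ' a)).le)).trans ?_
      rw [sum_const, smul_eq_mul, card_univ, Fintype.card_fin]
    refine (sum_le_sum h5).trans ?_
    rw [sum_const, smul_eq_mul]
    exact Nat.mul_le_mul_right _ hA
  rw [st2_line, st2_line] at h3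
  have h5 : (3 * h + 2) * ((2 * m - 1) * n) =
      h * (3 * ((2 * m - 1) * n)) + ((2 * m - 1) * n + (2 * m - 1) * n) := by ring
  omega

theorem st2_fst (S : Finset (St2P m n)) :
    (univ.filter (fun w : St2P m n × St2P m n => w.1 ∈ S)).card =
      S.card * (m * ((2 * m - 1) * n)) := by
  have h1 : univ.filter (fun w : St2P m n × St2P m n => w.1 ∈ S) =
      S ×ˢ (univ : Finset (St2P m n)) := by
    ext w
    simp
  rw [h1, card_product, card_univ, st2_cardP]

theorem st2_snd (S : Finset (St2P m n)) :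
    (univ.filter (fun w : St2P m n × St2P m n => w.2 ∈ S)).card =
      S.card * (m * ((2 * m - 1) * n)) := by
  have h1 : univ.filter (fun w : St2P m n × St2P m n => w.2 ∈ S) =
      (univ : Finset (St2P m n)) ×ˢ S := by
    ext w
    simp
  rw [h1, card_product, card_univ, st2_cardP, Nat.mul_comm]

theorem st2_diag :
    (univ.filter (fun w : St2P m n × St2P m n => ∃ κ', ln κ' w.1.1 = ln κ' w.2.1)).card ≤
      3 * ((2 * m - 1) * n) * (m * ((2 * m - 1) * n)) := by
  have hsub : univ.filter (fun w : St2P m n × St2P m n => ∃ κ', ln κ' w.1.1 = ln κ' w.2.1) ⊆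
      (univ : Finset (Fin 3)).biUnion (fun κ' => (univ : Finset (St2P m n)).biUnion (fun p =>
        ({p} : Finset (St2P m n)) ×ˢ
          (univ.filter (fun p' : St2P m n => ln κ' p'.1 = ln κ' p.1)))) := by
    intro w hw
    obtain ⟨_, κ', h1⟩ := mem_filter.1 hw
    exact mem_biUnion.2 ⟨κ', mem_univ _, mem_biUnion.2 ⟨w.1, mem_univ _,
      mem_product.2 ⟨mem_singleton_self _, mem_filter.2 ⟨mem_univ _, h1.symm⟩⟩⟩⟩
  refine (card_le_card hsub).trans (card_biUnion_le.trans ?_)
  have h1 : ∀ κ' ∈ (univ : Finset (Fin 3)), ((univ : Finset (St2P m n)).biUnion (fun p =>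
        ({p} : Finset (St2P m n)) ×ˢ
          (univ.filter (fun p' : St2P m n => ln κ' p'.1 = ln κ' p.1)))).card ≤
      (m * ((2 * m - 1) * n)) * ((2 * m - 1) * n) := by
    intro κ' _
    refine card_biUnion_le.trans ?_
    have h2 : ∀ p ∈ (univ : Finset (St2P m n)), (({p} : Finset (St2P m n)) ×ˢ
          (univ.filter (fun p' : St2P m n => ln κ' p'.1 = ln κ' p.1))).card ≤
        (2 * m - 1) * n := by
      intro p _
      rw [card_product, card_singleton, Nat.one_mul, st2_line]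
    refine (sum_le_sum h2).trans ?_
    rw [sum_const, smul_eq_mul, card_univ, st2_cardP]
  refine (sum_le_sum h1).trans ?_
  rw [sum_const, smul_eq_mul, card_univ, Fintype.card_fin]
  exact le_of_eq (by ring)

/-- the admissible choices of a rectangle -/
def st2Om (κ : Fin 3) (l1 l2 : Fin m) (A1 A2 : Finset (Cell m)) :
    Finset (St2P m n × St2P m n) :=
  univ.filter (fun w => ¬ st2Ex κ l1 l2 A1 w.1 ∧ ¬ st2Ex κ l2 l1 A2 w.2 ∧
    ∀ κ', ln κ' w.1.1 ≠ ln κ' w.2.1)

theorem st2_om_card (κ : Fin 3) (l1 l2 : Fin m) (A1 A2 : Finset (Cell m)) (hA1 : A1.card ≤ h)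
    (hA2 : A2.card ≤ h) :
    (m * ((2 * m - 1) * n)) * (m * ((2 * m - 1) * n)) ≤
      (st2Om (n := n) κ l1 l2 A1 A2).card +
        (6 * h + 7) * ((2 * m - 1) * n) * (m * ((2 * m - 1) * n)) := by
  have hsub : (univ : Finset (St2P m n × St2P m n)) ⊆
      ((st2Om κ l1 l2 A1 A2 ∪ univ.filter (fun w : St2P m n × St2P m n =>
          w.1 ∈ univ.filter (fun p : St2P m n => st2Ex κ l1 l2 A1 p))) ∪
        univ.filter (fun w : St2P m n × St2P m n =>
          w.2 ∈ univ.filter (fun p : St2P m n => st2Ex κ l2 l1 A2 p))) ∪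
        univ.filter (fun w : St2P m n × St2P m n => ∃ κ', ln κ' w.1.1 = ln κ' w.2.1) := by
    intro w _
    by_cases h1 : st2Ex κ l1 l2 A1 w.1
    · exact mem_union_left _ (mem_union_left _ (mem_union_right _ (mem_filter.2
        ⟨mem_univ _, mem_filter.2 ⟨mem_univ _, h1⟩⟩)))
    by_cases h2 : st2Ex κ l2 l1 A2 w.2
    · exact mem_union_left _ (mem_union_right _ (mem_filter.2
        ⟨mem_univ _, mem_filter.2 ⟨mem_univ _, h2⟩⟩))
    by_cases h3 : ∃ κ', ln κ' w.1.1 = ln κ' w.2.1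
    · exact mem_union_right _ (mem_filter.2 ⟨mem_univ _, h3⟩)
    · push Not at h3
      exact mem_union_left _ (mem_union_left _ (mem_union_left _ (mem_filter.2
        ⟨mem_univ _, h1, h2, h3⟩)))
  have h1 := card_le_card hsub
  rw [card_univ, Fintype.card_prod, st2_cardP] at h1
  have h2 := card_union_le ((st2Om κ l1 l2 A1 A2 ∪ univ.filter (fun w : St2P m n × St2P m n =>
          w.1 ∈ univ.filter (fun p : St2P m n => st2Ex κ l1 l2 A1 p))) ∪
        univ.filter (fun w : St2P m n × St2P m n =>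
          w.2 ∈ univ.filter (fun p : St2P m n => st2Ex κ l2 l1 A2 p)))
        (univ.filter (fun w : St2P m n × St2P m n => ∃ κ', ln κ' w.1.1 = ln κ' w.2.1))
  have h3 := card_union_le (st2Om κ l1 l2 A1 A2 ∪ univ.filter (fun w : St2P m n × St2P m n =>
          w.1 ∈ univ.filter (fun p : St2P m n => st2Ex κ l1 l2 A1 p)))
        (univ.filter (fun w : St2P m n × St2P m n =>
          w.2 ∈ univ.filter (fun p : St2P m n => st2Ex κ l2 l1 A2 p)))
  have h4 := card_union_le (st2Om κ l1 l2 A1 A2) (univ.filter (fun w : St2P m n × St2P m n =>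
          w.1 ∈ univ.filter (fun p : St2P m n => st2Ex κ l1 l2 A1 p)))
  rw [st2_fst] at h4
  rw [st2_snd] at h3
  have h5 := Nat.mul_le_mul_right (m * ((2 * m - 1) * n)) (st2_ex_card (n := n) κ l1 l2 A1 hA1)
  have h6 := Nat.mul_le_mul_right (m * ((2 * m - 1) * n)) (st2_ex_card (n := n) κ l2 l1 A2 hA2)
  have h7 := st2_diag (m := m) (n := n)
  have h8 : (6 * h + 7) * ((2 * m - 1) * n) * (m * ((2 * m - 1) * n)) =
      (3 * h + 2) * ((2 * m - 1) * n) * (m * ((2 * m - 1) * n)) +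
      (3 * h + 2) * ((2 * m - 1) * n) * (m * ((2 * m - 1) * n)) +
      3 * ((2 * m - 1) * n) * (m * ((2 * m - 1) * n)) := by ring
  omega

/-! ### Root stars -/

/-- root stars of a rectangle -/
def st2Root (B : Brd m n h tL tS) (r : Rc h tL tS) : Finset (Star m n) :=
  {Sum.inr (Sum.inl (ndK (co3 r), ndL B (co3 r))), Sum.inr (Sum.inl (ndK (co4 r), ndL B (co4 r))),
    Sum.inr (Sum.inr (ndK (co3 r), ndS B (co3 r))), Sum.inr (Sum.inr (ndK (co4 r), ndS B (co4 r)))}

theorem st2_cntL (B : Brd m n h tL tS) (κ : Fin 3) (l : Fin m) :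
    (univ.filter (fun r : Rc h tL tS => ndK r.1 = κ ∧ ndL B r.1 = l)).card ≤
      3 * (2 ^ tS * (tL * tS)) := by
  have h1 : univ.filter (fun r : Rc h tL tS => ndK r.1 = κ ∧ ndL B r.1 = l) ⊆
      (((univ.filter (fun x : Fin (KK h κ) × (Fin tL → Bool) => B.eL ⟨κ, x.1⟩ x.2 = l)) ×ˢ
        ((univ : Finset (Fin tS → Bool)) ×ˢ (univ : Finset (Fin tL × Fin tS)))).image
        (fun y => (((⟨κ, y.1.1⟩, (y.1.2, y.2.1)), y.2.2) : Rc h tL tS))) := by
    rintro ⟨⟨⟨κ0, i⟩, u, w⟩, ij⟩ hr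
    rw [mem_filter] at hr
    obtain ⟨_, h2, h3⟩ := hr
    change κ0 = κ at h2
    subst h2
    rw [mem_image]
    refine ⟨((i, u), (w, ij)), ?_, rfl⟩
    exact mem_product.2 ⟨mem_filter.2 ⟨mem_univ _, h3⟩, mem_product.2 ⟨mem_univ _, mem_univ _⟩⟩
  refine (card_le_card h1).trans (card_image_le.trans ?_)
  rw [card_product, card_product, card_univ, card_univ, Fintype.card_fun, Fintype.card_bool,
    Fintype.card_fin, Fintype.card_prod, Fintype.card_fin, Fintype.card_fin]
  exact Nat.mul_le_mul_right _ (B.mulL κ l)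

theorem st2_cntS (B : Brd m n h tL tS) (κ : Fin 3) (s : Fin n) :
    (univ.filter (fun r : Rc h tL tS => ndK r.1 = κ ∧ ndS B r.1 = s)).card ≤
      3 * (2 ^ tL * (tL * tS)) := by
  have h1 : univ.filter (fun r : Rc h tL tS => ndK r.1 = κ ∧ ndS B r.1 = s) ⊆
      (((univ.filter (fun x : Fin (KK h κ) × (Fin tS → Bool) => B.eS ⟨κ, x.1⟩ x.2 = s)) ×ˢ
        ((univ : Finset (Fin tL → Bool)) ×ˢ (univ : Finset (Fin tL × Fin tS)))).image
        (fun y => (((⟨κ, y.1.1⟩, (y.2.1, y.1.2)), y.2.2) : Rc h tL tS))) := by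
    rintro ⟨⟨⟨κ0, i⟩, u, w⟩, ij⟩ hr
    rw [mem_filter] at hr
    obtain ⟨_, h2, h3⟩ := hr
    change κ0 = κ at h2
    subst h2
    rw [mem_image]
    refine ⟨((i, w), (u, ij)), ?_, rfl⟩
    exact mem_product.2 ⟨mem_filter.2 ⟨mem_univ _, h3⟩, mem_product.2 ⟨mem_univ _, mem_univ _⟩⟩
  refine (card_le_card h1).trans (card_image_le.trans ?_)
  rw [card_product, card_product, card_univ, card_univ, Fintype.card_fun, Fintype.card_bool,
    Fintype.card_fin, Fintype.card_prod, Fintype.card_fin, Fintype.card_fin]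
  exact Nat.mul_le_mul_right _ (B.mulS κ s)

theorem st2_fl_fl {t : ℕ} (u : Fin t → Bool) (i : Fin t) : fl (fl u i) i = u := by
  unfold fl
  rw [Function.update_self, Bool.not_not, Function.update_idem, Function.update_eq_self]

theorem st2_fl_inj {t : ℕ} {u v : Fin t → Bool} {i : Fin t} (h : fl u i = fl v i) : u = v := by
  rw [← st2_fl_fl u i, h, st2_fl_fl]

theorem st2_fl_ne {t : ℕ} (u : Fin t → Bool) (i : Fin t) : fl u i ≠ u := by
  intro h
  have h1 := congrFun h i
  unfold fl at h1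
  rw [Function.update_self] at h1
  cases h2 : u i <;> rw [h2] at h1 <;> cases h1

theorem st2_cnt4 (B : Brd m n h tL tS) (κ : Fin 3) (l : Fin m) :
    (univ.filter (fun r : Rc h tL tS => ndK (co4 r) = κ ∧ ndL B (co4 r) = l)).card ≤
      3 * (2 ^ tS * (tL * tS)) := by
  refine le_trans ?_ (st2_cntL B κ l)
  refine card_le_card_of_injOn (fun r => (co4 r, r.2)) ?_ ?_
  · intro r hr
    have hr' := mem_filter.1 (mem_coe.1 hr)
    exact mem_coe.2 (mem_filter.2 ⟨mem_univ _, hr'.2⟩)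
  · rintro ⟨⟨b, u, w⟩, i, j⟩ _ ⟨⟨b', u', w'⟩, i', j'⟩ _ hab
    simp only [co4, Prod.mk.injEq] at hab
    obtain ⟨⟨h1, h2, h3⟩, h4, h5⟩ := hab
    subst h1 h3 h4 h5
    rw [st2_fl_inj h2]

theorem st2_cnt3 (B : Brd m n h tL tS) (κ : Fin 3) (s : Fin n) :
    (univ.filter (fun r : Rc h tL tS => ndK (co3 r) = κ ∧ ndS B (co3 r) = s)).card ≤
      3 * (2 ^ tL * (tL * tS)) := by
  refine le_trans ?_ (st2_cntS B κ s)
  refine card_le_card_of_injOn (fun r => (co3 r, r.2)) ?_ ?_
  · intro r hr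
    have hr' := mem_filter.1 (mem_coe.1 hr)
    exact mem_coe.2 (mem_filter.2 ⟨mem_univ _, hr'.2⟩)
  · rintro ⟨⟨b, u, w⟩, i, j⟩ _ ⟨⟨b', u', w'⟩, i', j'⟩ _ hab
    simp only [co3, Prod.mk.injEq] at hab
    obtain ⟨⟨h1, h2, h3⟩, h4, h5⟩ := hab
    subst h1 h2 h4 h5
    rw [st2_fl_inj h3]

theorem st2_root (B : Brd m n h tL tS) (R : ℕ) (hS : 6 * (2 ^ tS * (tL * tS)) ≤ R)
    (hL : 6 * (2 ^ tL * (tL * tS)) ≤ R) (σ : Star m n) :
    (univ.filter (fun r : Rc h tL tS => σ ∈ st2Root B r)).card ≤ R := by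
  rcases σ with x | ⟨κ, l⟩ | ⟨κ, s⟩
  · have h1 : univ.filter (fun r : Rc h tL tS => (Sum.inl x : Star m n) ∈ st2Root B r) = ∅ := by
      rw [filter_eq_empty_iff]
      intro r _ h2
      unfold st2Root at h2
      simp at h2
    rw [h1, card_empty]
    exact Nat.zero_le _
  · have h1 : univ.filter (fun r : Rc h tL tS =>
        (Sum.inr (Sum.inl (κ, l)) : Star m n) ∈ st2Root B r) ⊆
        univ.filter (fun r : Rc h tL tS => ndK r.1 = κ ∧ ndL B r.1 = l) ∪
        univ.filter (fun r : Rc h tL tS => ndK (co4 r) = κ ∧ ndL B (co4 r) = l) := by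
      intro r hr
      have h2 := (mem_filter.1 hr).2
      unfold st2Root at h2
      simp only [mem_insert, mem_singleton, Sum.inr.injEq, Sum.inl.injEq, Prod.mk.injEq,
        reduceCtorEq, or_false] at h2
      rcases h2 with ⟨h3, h4⟩ | ⟨h3, h4⟩
      · exact mem_union_left _ (mem_filter.2 ⟨mem_univ _, h3.symm, h4.symm⟩)
      · exact mem_union_right _ (mem_filter.2 ⟨mem_univ _, h3.symm, h4.symm⟩)
    have h2 := card_le_card h1
    have h3 := card_union_le (univ.filter (fun r : Rc h tL tS => ndK r.1 = κ ∧ ndL B r.1 = l))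
        (univ.filter (fun r : Rc h tL tS => ndK (co4 r) = κ ∧ ndL B (co4 r) = l))
    have h4 := st2_cntL B κ l
    have h5 := st2_cnt4 B κ l
    omega
  · have h1 : univ.filter (fun r : Rc h tL tS =>
        (Sum.inr (Sum.inr (κ, s)) : Star m n) ∈ st2Root B r) ⊆
        univ.filter (fun r : Rc h tL tS => ndK r.1 = κ ∧ ndS B r.1 = s) ∪
        univ.filter (fun r : Rc h tL tS => ndK (co3 r) = κ ∧ ndS B (co3 r) = s) := by
      intro r hr
      have h2 := (mem_filter.1 hr).2
      unfold st2Root at h2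
      simp only [mem_insert, mem_singleton, Sum.inr.injEq, Prod.mk.injEq,
        reduceCtorEq, false_or] at h2
      rcases h2 with ⟨h3, h4⟩ | ⟨h3, h4⟩
      · exact mem_union_right _ (mem_filter.2 ⟨mem_univ _, h3.symm, h4.symm⟩)
      · exact mem_union_left _ (mem_filter.2 ⟨mem_univ _, h3.symm, h4.symm⟩)
    have h2 := card_le_card h1
    have h3 := card_union_le (univ.filter (fun r : Rc h tL tS => ndK r.1 = κ ∧ ndS B r.1 = s))
        (univ.filter (fun r : Rc h tL tS => ndK (co3 r) = κ ∧ ndS B (co3 r) = s))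
    have h4 := st2_cntS B κ s
    have h5 := st2_cnt3 B κ s
    omega

/-! ### Numbers -/

theorem st2_card_rc (hh : 1 ≤ h) :
    Fintype.card (Rc h tL tS) = 3 * h ^ 4 * (2 ^ tL * 2 ^ tS) * (tL * tS) := by
  have h1 : 1 ≤ h ^ 4 := Nat.one_le_pow _ _ hh
  have h2 : Fintype.card (BI h) = 3 * h ^ 4 := by
    rw [Fintype.card_sigma]
    simp only [Fintype.card_fin, Fin.sum_univ_three]
    change (h ^ 4 - 1) + h ^ 4 + (h ^ 4 + 1) = 3 * h ^ 4
    omega
  rw [Fintype.card_prod, Fintype.card_prod, Fintype.card_prod, Fintype.card_prod, h2,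
    Fintype.card_fun, Fintype.card_fun, Fintype.card_bool, Fintype.card_fin, Fintype.card_fin]

theorem st2_num (hp : Par m n h) :
    10 ^ 9 ≤ h ∧ 10 ≤ q3 m h ∧ 2 * m + 1 ≤ 2 * q3 m h * h ^ 3 ∧ q3 m h * h ^ 3 ≤ 2 * m + 1 ∧
      10 ^ 9 * h ≤ 2 * m + 1 ∧ 10 ^ 9 * q3 m h ≤ 2 * m + 1 := by
  have hT : 2 ≤ Nat.log 2 (2 * m + 1) + 2 := by omega
  have h1 : 10 ^ 9 ≤ h := by
    have h2 : 1 ≤ (Nat.log 2 (2 * m + 1) + 2) ^ 4 := Nat.one_le_pow _ _ (by omega)
    have h3 := hp.hlog
    nlinarith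
  have hh : 0 < h := by omega
  have h3pos : 0 < h ^ 3 := pow_pos hh 3
  have h2 : q3 m h * h ^ 3 ≤ 2 * m + 1 := Nat.div_mul_le_self _ _
  have h3 : 2 * m + 1 < (q3 m h + 1) * h ^ 3 := by
    have := Nat.lt_div_mul_add (a := 2 * m + 1) h3pos
    unfold q3
    rw [Nat.add_mul, Nat.one_mul]
    exact this
  have h4 : h ^ 17 ≤ q3 m h := by
    have h5 : h ^ 17 * h ^ 3 < (q3 m h + 1) * h ^ 3 := by
      rw [← pow_add]
      exact lt_of_le_of_lt hp.hN h3
    have h6 := lt_of_mul_lt_mul_right h5 (Nat.zero_le _)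
    omega
  have h17 : h ≤ h ^ 17 := Nat.le_self_pow (by norm_num) h
  have hq : 10 ^ 9 ≤ q3 m h := h1.trans (h17.trans h4)
  refine ⟨h1, by omega, ?_, h2, ?_, ?_⟩
  · nlinarith
  · have h5 : h ^ 2 ≤ h ^ 20 := Nat.pow_le_pow_right hh (by norm_num)
    have h6 : 10 ^ 9 * h ≤ h * h := Nat.mul_le_mul_right _ h1
    have h7 := hp.hN
    rw [pow_two] at h5
    omega
  · have h5 : h ≤ h ^ 3 := Nat.le_self_pow (by norm_num) h
    have h6 : q3 m h * 10 ^ 9 ≤ q3 m h * h ^ 3 := Nat.mul_le_mul_left _ (h1.trans h5)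
    omega

theorem st2_pow (hp : Par m n h) {t : ℕ} (ht : 2 ^ t * h ^ 4 ≤ 4 * (2 * m + 1)) :
    2 ^ t * h ≤ 8 * q3 m h := by
  obtain ⟨h1, h2, h3, -⟩ := st2_num hp
  have hh : 0 < h ^ 3 := pow_pos (by omega) 3
  have h4 : (2 ^ t * h) * h ^ 3 ≤ (8 * q3 m h) * h ^ 3 := by
    calc (2 ^ t * h) * h ^ 3 = 2 ^ t * h ^ 4 := by ring
      _ ≤ 4 * (2 * m + 1) := ht
      _ ≤ 4 * (2 * q3 m h * h ^ 3) := Nat.mul_le_mul_left _ h3
      _ = (8 * q3 m h) * h ^ 3 := by ring
  exact Nat.le_of_mul_le_mul_right h4 hh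

theorem st2_log (hp : Par m n h) {a b : ℕ} (ha : a ≤ Nat.log 2 (2 * m + 1) + 2)
    (hb : b ≤ Nat.log 2 (2 * m + 1) + 2) : 10 ^ 9 * (a * b) ≤ h := by
  have h1 := hp.hlog
  set T := Nat.log 2 (2 * m + 1) + 2 with hT
  have h2 : a * b ≤ T * T := Nat.mul_le_mul ha hb
  have h3 : T * T ≤ T ^ 4 := by
    have : T ^ 2 ≤ T ^ 4 := Nat.pow_le_pow_right (by omega) (by norm_num)
    rwa [pow_two] at this
  have h4 : 10 ^ 9 * (a * b) ≤ 10 ^ 9 * T ^ 4 := Nat.mul_le_mul_left _ (h2.trans h3)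
  exact h4.trans h1

theorem st2_rho (hp : Par m n h) (B : Brd m n h tL tS) :
    6 * (2 ^ tS * (tL * tS)) ≤ q3 m h ∧ 6 * (2 ^ tL * (tL * tS)) ≤ q3 m h := by
  have h1 := st2_log hp B.tLle B.tSle
  have h2 := st2_pow hp B.szS
  have h3 := st2_pow hp B.szL
  constructor
  · have h4 : 2 ^ tS * (10 ^ 9 * (tL * tS)) ≤ 2 ^ tS * h := Nat.mul_le_mul_left _ h1
    have h5 : 2 ^ tS * (10 ^ 9 * (tL * tS)) = 10 ^ 9 * (2 ^ tS * (tL * tS)) := by ring
    omega
  · have h4 : 2 ^ tL * (10 ^ 9 * (tL * tS)) ≤ 2 ^ tL * h := Nat.mul_le_mul_left _ h1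
    have h5 : 2 ^ tL * (10 ^ 9 * (tL * tS)) = 10 ^ 9 * (2 ^ tL * (tL * tS)) := by ring
    omega

theorem st2_T (hp : Par m n h) (B : Brd m n h tL tS) (t : ℕ)
    (ht : q3 m h * t ≤ 3 * 10 * Fintype.card (Rc h tL tS)) :
    4 * t + (6 * h + 7) ≤ m := by
  obtain ⟨h1, h2, h3, h4, h5, h6⟩ := st2_num hp
  have hh : 0 < h := by omega
  rw [st2_card_rc (by omega)] at ht
  have h7 := st2_pow hp B.szS
  have h8 := st2_pow hp B.szL
  have hlog := hp.hlog
  set T := Nat.log 2 (2 * m + 1) + 2 with hT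
  have h9 : tL * tS ≤ T ^ 2 := by
    rw [pow_two]
    exact Nat.mul_le_mul B.tLle B.tSle
  have hTpos : 0 < T := by omega
  have h10 : (2 ^ tL * h) * (2 ^ tS * h) ≤ (8 * q3 m h) * (8 * q3 m h) := Nat.mul_le_mul h8 h7
  have hq : 0 < q3 m h := by omega
  -- `t ≤ 5760 h^2 q3 T^2`
  have h11 : q3 m h * t ≤ q3 m h * (5760 * h ^ 2 * q3 m h * T ^ 2) := by
    calc q3 m h * t ≤ 3 * 10 * (3 * h ^ 4 * (2 ^ tL * 2 ^ tS) * (tL * tS)) := ht
      _ = 90 * h ^ 2 * ((2 ^ tL * h) * (2 ^ tS * h)) * (tL * tS) := by ring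
      _ ≤ 90 * h ^ 2 * ((8 * q3 m h) * (8 * q3 m h)) * T ^ 2 :=
          Nat.mul_le_mul (Nat.mul_le_mul_left _ h10) h9
      _ = q3 m h * (5760 * h ^ 2 * q3 m h * T ^ 2) := by ring
  have h12 : t ≤ 5760 * h ^ 2 * q3 m h * T ^ 2 := Nat.le_of_mul_le_mul_left h11 hq
  have h13 : (10 ^ 9 * t) * T ^ 4 ≤ (5760 * (2 * m + 1)) * T ^ 4 := by
    calc (10 ^ 9 * t) * T ^ 4 = t * (10 ^ 9 * T ^ 4) := by ring
      _ ≤ (5760 * h ^ 2 * q3 m h * T ^ 2) * h := Nat.mul_le_mul h12 hlog
      _ = 5760 * (q3 m h * h ^ 3) * T ^ 2 := by ring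
      _ ≤ 5760 * (2 * m + 1) * T ^ 4 :=
          Nat.mul_le_mul (Nat.mul_le_mul_left _ h4) (Nat.pow_le_pow_right hTpos (by norm_num))
  have h14 := Nat.le_of_mul_le_mul_right h13 (pow_pos hTpos 4)
  omega

/-! ### The stage -/

theorem st2_disj {κ : Fin 3} {l1 l2 : Fin m} {s1 s2 : Fin n} {A1 A2 : Finset (Cell m)}
    {w : St2P m n × St2P m n} (hw : w ∈ st2Om κ l1 l2 A1 A2) (hl : l1 ≠ l2) :
    Disjoint (pis κ l1 s2 w.1.1 w.1.2) (pis κ l2 s1 w.2.1 w.2.2) := by
  obtain ⟨_, h1, h2, h3⟩ := mem_filter.1 hw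
  unfold st2Ex at h1 h2
  push Not at h1 h2
  obtain ⟨h11, h12, h13⟩ := h1
  obtain ⟨h21, h22, h23⟩ := h2
  rw [disjoint_left]
  intro v hv hv'
  unfold pis at hv hv'
  simp only [mem_union, mem_insert, mem_singleton, mem_image, mem_filter, mem_univ,
    true_and] at hv hv'
  rcases hv with (rfl | rfl | rfl) | ⟨κ', hκ', rfl⟩
  · rcases hv' with (h | h | h) | ⟨κ'', hκ'', h⟩
    · rw [Sum.inl.injEq] at h
      exact h3 0 (by rw [h])
    · cases h
    · cases h
    · cases h
  · rcases hv' with (h | h | h) | ⟨κ'', hκ'', h⟩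
    · cases h
    · simp only [Sum.inr.injEq, Prod.mk.injEq, true_and] at h
      exact h3 κ h.1
    · simp only [Sum.inr.injEq, Prod.mk.injEq, true_and] at h
      exact h12 h.1
    · simp only [Sum.inr.injEq, Prod.mk.injEq] at h
      exact hκ'' h.1
  · rcases hv' with (h | h | h) | ⟨κ'', hκ'', h⟩
    · cases h
    · simp only [Sum.inr.injEq, Prod.mk.injEq, true_and] at h
      exact h22 h.1.symm
    · simp only [Sum.inr.injEq, Prod.mk.injEq, true_and] at h
      exact hl h.1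
    · simp only [Sum.inr.injEq, Prod.mk.injEq] at h
      exact hκ'' h.1
  · rcases hv' with (h | h | h) | ⟨κ'', hκ'', h⟩
    · cases h
    · simp only [Sum.inr.injEq, Prod.mk.injEq] at h
      exact hκ' h.1
    · simp only [Sum.inr.injEq, Prod.mk.injEq] at h
      exact hκ' h.1
    · simp only [Sum.inr.injEq, Prod.mk.injEq] at h
      obtain ⟨h4, h5, -⟩ := h
      subst h4
      exact h3 _ h5.symm

set_option synthInstance.maxSize 100000 in
theorem stage2 (hp : Par m n h) (B : Brd m n h tL tS)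
    (U : Finset (Vt m n)) (hU : ∀ σ, deg U σ ≤ 14 * q3 m h)
    (Av : PU h tL tS → Finset (Cell m)) (hAv : ∀ b, (Av b).card ≤ h) :
    ∃ (cP : PU h tL tS → Cell m) (yP : PU h tL tS → Fin n),
      (∀ b, ln (ndK (ndP b)) (cP b) ≠ ndL B (ndP b)) ∧
      (∀ b, ∀ q ∈ Av b, ∀ κ', ln κ' (cP b) ≠ ln κ' q) ∧
      (∀ r κ', ln κ' (cP (Sum.inl r)) ≠ ln κ' (cP (Sum.inr r))) ∧
      (∀ b, Disjoint (pis (ndK (ndP b)) (ndL B (ndP b)) (ndS B (ndP b)) (cP b) (yP b)) U) ∧
      (∀ b b', b ≠ b' → Disjoint (pis (ndK (ndP b)) (ndL B (ndP b)) (ndS B (ndP b)) (cP b) (yP b))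
        (pis (ndK (ndP b')) (ndL B (ndP b')) (ndS B (ndP b')) (cP b') (yP b'))) ∧
      (∀ σ, deg (U ∪ univ.biUnion (fun b =>
        pis (ndK (ndP b)) (ndL B (ndP b)) (ndS B (ndP b)) (cP b) (yP b))) σ ≤ 26 * q3 m h) := by
  obtain ⟨k1, k2, k3, k4, k5, k6⟩ := st2_num hp
  have hm : 1 ≤ m := by omega
  have hmn : m ≤ n := by
    have := hp.n1
    omega
  have hupos : 0 < (2 * m - 1) * n := Nat.mul_pos (by omega) (by omega)
  have hrho := st2_rho hp B
  set u : ℕ := (2 * m - 1) * n with hu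
  have hmu : 0 < m * u := Nat.mul_pos (by omega) hupos
  have hne : ∀ r : Rc h tL tS, ndL B (co3 r) ≠ ndL B (co4 r) := by
    intro r h1
    exact st2_fl_ne _ _ (B.injL _ h1).symm
  obtain ⟨f, hf1, hf2, hf3, hf4⟩ := greedy (V := Vt m n) (St := Star m n) (I := Rc h tL tS)
    (Om := St2P m n × St2P m n) star
    (by
      intro v
      rcases v with q | e
      · exact card_image_le.trans (by simp)
      · exact (card_le_two).trans (by norm_num))
    (fun r => st2Om (ndK (co3 r)) (ndL B (co3 r)) (ndL B (co4 r)) (Av (Sum.inl r))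
      (Av (Sum.inr r)))
    (fun r w => pis (ndK (co3 r)) (ndL B (co3 r)) (ndS B (co3 r)) w.1.1 w.1.2 ∪
      pis (ndK (co4 r)) (ndL B (co4 r)) (ndS B (co4 r)) w.2.1 w.2.2)
    (st2Root B) 10 (26 * q3 m h) (q3 m h) (q3 m h) (14 * q3 m h) U
    (by
      intro r w _
      refine (card_union_le _ _).trans ?_
      have h1 := card_pis (ndK (co3 r)) (ndL B (co3 r)) (ndS B (co3 r)) w.1.1 w.1.2
      have h2 := card_pis (ndK (co4 r)) (ndL B (co4 r)) (ndS B (co4 r)) w.2.1 w.2.2
      omega)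
    (st2_root B _ hrho.1 hrho.2)
    hU
    (by
      intro r V hV
      have h1 := st2_om_card (n := n) (ndK (co3 r)) (ndL B (co3 r)) (ndL B (co4 r))
        (Av (Sum.inl r)) (Av (Sum.inr r)) (hAv _) (hAv _)
      have h2 := st2_U hmn hm V (26 * q3 m h) hV (ndK (co3 r)) (ndL B (co3 r)) (ndS B (co3 r))
      have h3 := st2_U hmn hm V (26 * q3 m h) hV (ndK (co4 r)) (ndL B (co4 r)) (ndS B (co4 r))
      have h4 := Nat.mul_le_mul_right (m * ((2 * m - 1) * n)) h2
      have h5 := Nat.mul_le_mul_right (m * ((2 * m - 1) * n)) h3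
      rw [← st2_fst] at h4
      rw [← st2_snd] at h5
      rw [← hu] at h1 h4 h5
      have hsub : (st2Om (ndK (co3 r)) (ndL B (co3 r)) (ndL B (co4 r)) (Av (Sum.inl r))
          (Av (Sum.inr r))).filter (fun w : St2P m n × St2P m n => ¬ Disjoint
            (pis (ndK (co3 r)) (ndL B (co3 r)) (ndS B (co3 r)) w.1.1 w.1.2 ∪
              pis (ndK (co4 r)) (ndL B (co4 r)) (ndS B (co4 r)) w.2.1 w.2.2) V) ⊆
          (univ.filter (fun w : St2P m n × St2P m n => w.1 ∈ univ.filter (fun p : St2P m n =>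
            ¬ Disjoint (pis (ndK (co3 r)) (ndL B (co3 r)) (ndS B (co3 r)) p.1 p.2) V))) ∪
          (univ.filter (fun w : St2P m n × St2P m n => w.2 ∈ univ.filter (fun p : St2P m n =>
            ¬ Disjoint (pis (ndK (co4 r)) (ndL B (co4 r)) (ndS B (co4 r)) p.1 p.2) V))) := by
        intro w hw
        have h6 := (mem_filter.1 hw).2
        rw [disjoint_union_left, not_and_or] at h6
        rcases h6 with h6 | h6
        · exact mem_union_left _ (mem_filter.2 ⟨mem_univ _, mem_filter.2 ⟨mem_univ _, h6⟩⟩)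
        · exact mem_union_right _ (mem_filter.2 ⟨mem_univ _, mem_filter.2 ⟨mem_univ _, h6⟩⟩)
      have h6 := (card_le_card hsub).trans (card_union_le _ _)
      have h7 : (24 * (26 * q3 m h) + (6 * h + 7)) * (u * (m * u)) < m * (u * (m * u)) :=
        Nat.mul_lt_mul_of_pos_right (by omega) (Nat.mul_pos hupos hmu)
      have h8 : (m * u) * (m * u) = m * (u * (m * u)) := by ring
      have h9 : (24 * (26 * q3 m h) + (6 * h + 7)) * (u * (m * u)) =
        2 * (2 * (6 * (26 * q3 m h) * u * (m * u))) + (6 * h + 7) * u * (m * u) := by ring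
      omega)
    (by
      intro r T hT
      have h1 := st2_om_card (n := n) (ndK (co3 r)) (ndL B (co3 r)) (ndL B (co4 r))
        (Av (Sum.inl r)) (Av (Sum.inr r)) (hAv _) (hAv _)
      have h2 := st2_new_cardT hmn T
      have h4 := Nat.mul_le_mul_right (m * ((2 * m - 1) * n)) h2
      have h5 := h4
      rw [← st2_fst] at h4
      rw [← st2_snd] at h5
      rw [← hu] at h1 h4 h5
      refine le_trans (Nat.mul_le_mul_left 2 ((card_le_card
        (t := (univ.filter (fun w : St2P m n × St2P m n => w.1 ∈ univ.filter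
            (fun p : St2P m n => ∃ σ ∈ T, St2New σ p))) ∪
          (univ.filter (fun w : St2P m n × St2P m n => w.2 ∈ univ.filter
            (fun p : St2P m n => ∃ σ ∈ T, St2New σ p)))) ?_).trans (card_union_le _ _))) ?_
      · intro w hw
        obtain ⟨v, hv, σ, hσ, hσT, hσr⟩ := (mem_filter.1 hw).2
        have hr1 : Sum.inr (Sum.inl (ndK (co3 r), ndL B (co3 r))) ∈ st2Root B r := by
          unfold st2Root
          simp
        have hr2 : Sum.inr (Sum.inr (ndK (co3 r), ndS B (co3 r))) ∈ st2Root B r := by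
          unfold st2Root
          simp
        have hr3 : Sum.inr (Sum.inl (ndK (co4 r), ndL B (co4 r))) ∈ st2Root B r := by
          unfold st2Root
          simp
        have hr4 : Sum.inr (Sum.inr (ndK (co4 r), ndS B (co4 r))) ∈ st2Root B r := by
          unfold st2Root
          simp
        rcases mem_union.1 hv with hv | hv
        · rcases st2_star _ _ _ w.1 v hv σ hσ with h6 | h6 | h6
          · exact mem_union_left _ (mem_filter.2 ⟨mem_univ _, mem_filter.2 ⟨mem_univ _,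
              σ, hσT, h6⟩⟩)
          · rw [h6] at hσr
            exact absurd hr1 hσr
          · rw [h6] at hσr
            exact absurd hr2 hσr
        · rcases st2_star _ _ _ w.2 v hv σ hσ with h6 | h6 | h6
          · exact mem_union_right _ (mem_filter.2 ⟨mem_univ _, mem_filter.2 ⟨mem_univ _,
              σ, hσT, h6⟩⟩)
          · rw [h6] at hσr
            exact absurd hr3 hσr
          · rw [h6] at hσr
            exact absurd hr4 hσr
      · have h7 := Nat.mul_le_mul_right (u * (m * u)) (st2_T hp B T.card hT)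
        have h8 : (m * u) * (m * u) = m * (u * (m * u)) := by ring
        have h9 : (4 * T.card + (6 * h + 7)) * (u * (m * u)) =
          2 * (2 * (T.card * u * (m * u))) + (6 * h + 7) * u * (m * u) := by ring
        omega)
    (by omega)
  refine ⟨fun b => match b with
    | Sum.inl r => (f r).1.1
    | Sum.inr r => (f r).2.1, fun b => match b with
    | Sum.inl r => (f r).1.2
    | Sum.inr r => (f r).2.2, ?_, ?_, ?_, ?_, ?_, ?_⟩
  · intro b
    rcases b with r | r
    · obtain ⟨_, h1, h2, h3⟩ := mem_filter.1 (hf1 r)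
      intro h4
      exact h1 (Or.inl h4)
    · obtain ⟨_, h1, h2, h3⟩ := mem_filter.1 (hf1 r)
      intro h4
      exact h2 (Or.inl h4)
  · intro b q hq κ' h4
    rcases b with r | r
    · obtain ⟨_, h1, h2, h3⟩ := mem_filter.1 (hf1 r)
      exact h1 (Or.inr (Or.inr ⟨q, hq, κ', h4⟩))
    · obtain ⟨_, h1, h2, h3⟩ := mem_filter.1 (hf1 r)
      exact h2 (Or.inr (Or.inr ⟨q, hq, κ', h4⟩))
  · intro r κ'
    obtain ⟨_, h1, h2, h3⟩ := mem_filter.1 (hf1 r)
    exact h3 κ'
  · intro b
    rcases b with r | r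
    · exact (disjoint_union_left.1 (hf2 r)).1
    · exact (disjoint_union_left.1 (hf2 r)).2
  · intro b b' hbb
    rcases b with r | r <;> rcases b' with r' | r'
    · have h1 := hf3 r r' (fun h => hbb (by rw [h]))
      exact h1.mono subset_union_left subset_union_left
    · by_cases h : r = r'
      · subst h
        exact st2_disj (hf1 r) (hne r)
      · exact (hf3 r r' h).mono subset_union_left subset_union_right
    · by_cases h : r = r'
      · subst h
        exact (st2_disj (hf1 r) (hne r)).symm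
      · exact (hf3 r r' h).mono subset_union_right subset_union_left
    · have h1 := hf3 r r' (fun h => hbb (by rw [h]))
      exact h1.mono subset_union_right subset_union_right
  · intro σ
    refine le_trans ?_ (hf4 σ)
    unfold deg
    apply card_le_card
    apply filter_subset_filter
    apply union_subset_union_right
    intro v hv
    obtain ⟨b, _, hb⟩ := mem_biUnion.1 hv
    rcases b with r | r
    · exact mem_biUnion.2 ⟨r, mem_univ _, mem_union_left _ hb⟩
    · exact mem_biUnion.2 ⟨r, mem_univ _, mem_union_right _ hb⟩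

end H77.LT
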