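import Pool.Agent.H77.LT.UACom

/-!
# [H77 LT UACNT] At least half of the choices of a universal absorber are good

`N = 2m+1`, `T = N^(2k) n` choices. A choice is bad if one of the following equations holds:
* a coordinate of some `gc` is zero: the coordinates are the roots (nonzero) or affine forms in
  `p, r` with a coefficient `±1` at `p` or at `r`: at most `N` of the `N^2` pairs `(p j, r j)`
  satisfy such an equation, i.e. `T/N` choices each; `12 k` coordinates;
* `gc j i κ = ± gc j' i' κ` for `j ≠ j'`: if both are roots it never holds (`hne`); otherwise fix all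
  parameters but the one with coefficient `±1`: at most `T/N` choices each;
* the same for `j = j'`, `i ≠ i'`: the difference and the sum of two forms of the same direction
  have a coefficient `±1` or `±2` at `p` or at `r` (a unit as `N` is odd), so at most `T/N` choices,
  with ONE exception: direction 0, `gc 2 + gc 3 = sg - rt 1 - rt 2`, which is nonzero because twice
  it is `rt 0 - rt 1 - rt 2 ≠ 0`. (Direction 0 forms: `rt 0`, `-y-p`, `-y-w-p+r`, `sg+p-r`;
  direction 1: `y+w+2p-r`, `y`, `y+p-r`, `-sg-p`; direction 2: `-x-y-w-2p+r`, `p`, `w`, `r`.)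
  Together at most `3 * 2 * (4 k)^2 / 2 = 48 k^2` equations;
* `w.2 = sy j`: `k N^(2k)` choices, `k T / n ≤ 2 k T/N`.
For `k ≤ 4` the bad choices are at most `(48 + 768 + 8) T / N ≤ 900 T/N ≤ T/2` for `N ≥ 2000`
(all counts are crude). Convenient form: for each equation the map
The step of changing one coordinate `p j` or `r j` shows that each class of choices, all other coordinates fixed,
contains at most one solution.
-/

open Finset

namespace H77.LT

variable {m n k : ℕ}

theorem uacnt_zero [NeZero n] (rt : Fin k → Fin 3 → ZN m) (h0 : ∀ j κ, rt j κ ≠ 0)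
    (j : Fin k) (i : Fin 4) (κ : Fin 3) :
    (2 * m + 1) * (univ.filter (fun w : UW m n k =>
      gc (rt j) (w.1 j).1 (w.1 j).2 i κ = 0)).card ≤ Fintype.card (UW m n k) := by
  have hcase : i = κ.castSucc ∨ uacU (uacGp i κ) ∨ uacU (uacGr i κ) := by
    revert i κ; decide
  rcases hcase with h | h
  · subst h
    have h1 : (univ.filter (fun w : UW m n k =>
        gc (rt j) (w.1 j).1 (w.1 j).2 κ.castSucc κ = 0)) = ∅ := by
      rw [Finset.filter_eq_empty_iff]
      intro w _
      rw [uac_gc_root]
      exact h0 j κ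
    rw [h1, Finset.card_empty, mul_zero]
    exact Nat.zero_le _
  · apply uac_lin _ j (fun w => gc (rt j) (w.1 j).1 (w.1 j).2 i κ) (fun w hw => hw)
      (uacGp i κ) (uacGr i κ) _ h
    intro w c d
    simp only [uac_add_fst, Prod.fst_add, Prod.snd_add]
    exact uac_gc_shift _ _ _ _ _ _ _

/-- two coordinates of different connectors -/
theorem uacnt_ne [NeZero n] (rt : Fin k → Fin 3 → ZN m) (u : ZN m) (hu : u = 1 ∨ u = -1)
    (j j' : Fin k) (hj : j ≠ j') (κ : Fin 3) (i i' : Fin 4)
    (hne : rt j κ ≠ u * rt j' κ) :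
    (2 * m + 1) * (univ.filter (fun w : UW m n k =>
      gc (rt j) (w.1 j).1 (w.1 j).2 i κ = u * gc (rt j') (w.1 j').1 (w.1 j').2 i' κ)).card
      ≤ Fintype.card (UW m n k) := by
  have hcase : ∀ i κ, i = κ.castSucc ∨ uacU (uacGp i κ) ∨ uacU (uacGr i κ) := by
    decide
  rcases hcase i κ with h | h
  · rcases hcase i' κ with h' | h'
    · subst h
      subst h'
      have h1 : (univ.filter (fun w : UW m n k =>
          gc (rt j) (w.1 j).1 (w.1 j).2 κ.castSucc κ
            = u * gc (rt j') (w.1 j').1 (w.1 j').2 κ.castSucc κ)) = ∅ := by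
        rw [Finset.filter_eq_empty_iff]
        intro w _
        rw [uac_gc_root, uac_gc_root]
        exact hne
      rw [h1, Finset.card_empty, mul_zero]
      exact Nat.zero_le _
    · apply uac_lin _ j' (fun w => gc (rt j') (w.1 j').1 (w.1 j').2 i' κ
        - u * gc (rt j) (w.1 j).1 (w.1 j).2 i κ) _ (uacGp i' κ) (uacGr i' κ) _ h'
      · intro w hw
        show gc (rt j') (w.1 j').1 (w.1 j').2 i' κ
          - u * gc (rt j) (w.1 j).1 (w.1 j).2 i κ = 0
        rw [hw]
        rcases hu with rfl | rfl <;> ring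
      · intro w c d
        simp only [uac_add_fst, Prod.fst_add, Prod.snd_add, uac_add_ne w j' j hj]
        rw [uac_gc_shift]
        ring
  · apply uac_lin _ j (fun w => gc (rt j) (w.1 j).1 (w.1 j).2 i κ
      - u * gc (rt j') (w.1 j').1 (w.1 j').2 i' κ) _ (uacGp i κ) (uacGr i κ) _ h
    · intro w hw
      show gc (rt j) (w.1 j).1 (w.1 j).2 i κ
        - u * gc (rt j') (w.1 j').1 (w.1 j').2 i' κ = 0
      rw [hw]
      ring
    · intro w c d
      simp only [uac_add_fst, Prod.fst_add, Prod.snd_add, uac_add_ne w j j' hj.symm]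
      rw [uac_gc_shift]
      ring

/-- two coordinates of the same connector -/
theorem uacnt_eq [NeZero n] (rt : Fin k → Fin 3 → ZN m) (u : ℤ) (hu : u = 1 ∨ u = -1)
    (h1 : ∀ j, rt j 0 ≠ rt j 1 + rt j 2)
    (j : Fin k) (κ : Fin 3) (i i' : Fin 4) (hi : i ≠ i') :
    (2 * m + 1) * (univ.filter (fun w : UW m n k =>
      gc (rt j) (w.1 j).1 (w.1 j).2 i κ = (u : ZN m) * gc (rt j) (w.1 j).1 (w.1 j).2 i' κ)).card
      ≤ Fintype.card (UW m n k) := by
  have hcase : ∀ i i' κ, ∀ u ∈ ({1, -1} : Finset ℤ), i ≠ i' →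
      (u = -1 ∧ κ = 0 ∧ i = 2 ∧ i' = 3) ∨ (u = -1 ∧ κ = 0 ∧ i = 3 ∧ i' = 2) ∨
      (uacU (uacGp i κ - u * uacGp i' κ) ∨ uacU (uacGr i κ - u * uacGr i' κ)) := by
    decide
  have hsg : ∀ p r : ZN m, gc (rt j) p r 2 0 + gc (rt j) p r 3 0 ≠ 0 := by
    intro p r h
    have h2 : gc (rt j) p r 2 0 + gc (rt j) p r 3 0 = sg (rt j) - rt j 1 - rt j 2 := by
      simp only [gc]
      simp
      ring
    rw [h2] at h
    have h3 : (2 : ZN m) * sg (rt j) = rt j 0 + rt j 1 + rt j 2 := by
      unfold sg
      have h4 : (2 : ZN m) * ((m + 1 : ℕ) : ZN m) = 1 := by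
        have h5 : ((2 * m + 1 : ℕ) : ZN m) = 0 := ZMod.natCast_self _
        push_cast at h5 ⊢
        linear_combination h5
      rw [← mul_assoc, h4, one_mul]
    apply h1 j
    linear_combination 2 * h - h3
  rcases hcase i i' κ u (by rcases hu with rfl | rfl <;> simp) hi with h | h | h
  · obtain ⟨rfl, rfl, rfl, rfl⟩ := h
    rw [Finset.filter_false_of_mem, Finset.card_empty, mul_zero]
    · exact Nat.zero_le _
    · intro w _ hw
      apply hsg (w.1 j).1 (w.1 j).2
      rw [hw]
      push_cast
      ring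
  · obtain ⟨rfl, rfl, rfl, rfl⟩ := h
    rw [Finset.filter_false_of_mem, Finset.card_empty, mul_zero]
    · exact Nat.zero_le _
    · intro w _ hw
      apply hsg (w.1 j).1 (w.1 j).2
      rw [hw]
      push_cast
      ring
  · apply uac_lin _ j (fun w => gc (rt j) (w.1 j).1 (w.1 j).2 i κ
      - (u : ZN m) * gc (rt j) (w.1 j).1 (w.1 j).2 i' κ) _ _ _ _ h
    · intro w hw
      show gc (rt j) (w.1 j).1 (w.1 j).2 i κ
        - (u : ZN m) * gc (rt j) (w.1 j).1 (w.1 j).2 i' κ = 0
      rw [hw]
      ring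
    · intro w c d
      simp only [uac_add_fst, Prod.fst_add, Prod.snd_add]
      rw [uac_gc_shift, uac_gc_shift]
      push_cast
      ring

theorem uacnt_sum (rt : Fin 3 → ZN m) (p r : ZN m) (i : Fin 4) :
    gc rt p r i 0 + gc rt p r i 1 + gc rt p r i 2 = 0 := by
  fin_cases i <;> simp [gc] <;> ring

/-- pairs of indices -/
def uacntS (k : ℕ) : Finset ((Fin k × Fin 4) × (Fin k × Fin 4)) :=
  univ.filter (fun e => 4 * e.1.1.val + e.1.2.val < 4 * e.2.1.val + e.2.2.val)

theorem uacntS_card (k : ℕ) : (uacntS k).card ≤ 8 * k ^ 2 := by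
  have h1 : ((uacntS k).image Prod.swap).card = (uacntS k).card :=
    Finset.card_image_of_injective _ Prod.swap_injective
  have h2 : Disjoint (uacntS k) ((uacntS k).image Prod.swap) := by
    rw [Finset.disjoint_left]
    intro e he he'
    rw [Finset.mem_image] at he'
    obtain ⟨f, hf, rfl⟩ := he'
    unfold uacntS at he hf
    rw [Finset.mem_filter] at he hf
    have h3 := he.2
    have h4 := hf.2
    simp only [Prod.fst_swap, Prod.snd_swap] at h3
    omega
  have h3 := Finset.card_union_of_disjoint h2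
  have h4 : (uacntS k ∪ (uacntS k).image Prod.swap).card
      ≤ Fintype.card ((Fin k × Fin 4) × (Fin k × Fin 4)) := Finset.card_le_univ _
  simp only [Fintype.card_prod, Fintype.card_fin] at h4
  nlinarith

/-- bad choices of the second kind -/
def uacntF (rt : Fin k → Fin 3 → ZN m) (e : ((Fin k × Fin 4) × (Fin k × Fin 4)) × Fin 3 × Bool) :
    Finset (UW m n k) :=
  univ.filter (fun w : UW m n k =>
      gc (rt e.1.1.1) (w.1 e.1.1.1).1 (w.1 e.1.1.1).2 e.1.1.2 e.2.1
        = (if e.2.2 then 1 else -1) *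
          gc (rt e.1.2.1) (w.1 e.1.2.1).1 (w.1 e.1.2.1).2 e.1.2.2 e.2.1)

theorem uacntF_card [NeZero n] (rt : Fin k → Fin 3 → ZN m)
    (h1 : ∀ j, rt j 0 ≠ rt j 1 + rt j 2)
    (hne : ∀ κ j j', j ≠ j' → rt j κ ≠ rt j' κ ∧ rt j κ ≠ -rt j' κ)
    (e : ((Fin k × Fin 4) × (Fin k × Fin 4)) × Fin 3 × Bool) (he : e.1 ∈ uacntS k) :
    (2 * m + 1) * (uacntF (n := n) rt e).card ≤ Fintype.card (UW m n k) := by
  obtain ⟨⟨⟨j, i⟩, ⟨j', i'⟩⟩, κ, b⟩ := e
  unfold uacntS at he
  rw [Finset.mem_filter] at he
  have he2 := he.2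
  simp only at he2
  unfold uacntF
  simp only
  by_cases hj : j = j'
  · subst hj
    have hi : i ≠ i' := by
      rintro rfl
      omega
    cases b
    · have h2 := uacnt_eq (n := n) rt (-1) (Or.inr rfl) h1 j κ i i' hi
      simpa using h2
    · have h2 := uacnt_eq (n := n) rt 1 (Or.inl rfl) h1 j κ i i' hi
      simpa using h2
  · cases b
    · have h2 := uacnt_ne (n := n) rt (-1) (Or.inr rfl) j j' hj κ i i'
        (by rw [neg_one_mul]; exact (hne κ j j' hj).2)
      simpa using h2
    · have h2 := uacnt_ne (n := n) rt 1 (Or.inl rfl) j j' hj κ i i'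
        (by rw [one_mul]; exact (hne κ j j' hj).1)
      simpa using h2

theorem uacnt_sym [NeZero n] (s : Fin n) :
    n * (univ.filter (fun w : UW m n k => w.2 = s)).card ≤ Fintype.card (UW m n k) := by
  have h := uac_sym (fun w : UW m n k => w.2 = s) 1 (by
    intro w
    rw [Finset.card_le_one]
    intro a ha b hb
    rw [Finset.mem_filter] at ha hb
    have h1 := ha.2
    have h2 := hb.2
    simp only [Prod.snd_add] at h1 h2
    exact add_left_cancel (h1.trans h2.symm))
  rwa [one_mul] at h

open Classical in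
theorem uacnt_bad (rt : Fin k → Fin 3 → ZN m) (sy : Fin k → Fin n) :
    (univ.filter (fun w : UW m n k => ¬ UGood rt sy w)) ⊆
      ((univ : Finset (Fin k × Fin 4 × Fin 3)).biUnion fun e =>
        univ.filter (fun w : UW m n k => gc (rt e.1) (w.1 e.1).1 (w.1 e.1).2 e.2.1 e.2.2 = 0)) ∪
      (((uacntS k) ×ˢ (univ : Finset (Fin 3 × Bool))).biUnion fun e => uacntF rt e) ∪
      ((univ : Finset (Fin k)).biUnion fun j => univ.filter (fun w : UW m n k => w.2 = sy j)) := by
  intro w hw
  rw [Finset.mem_filter] at hw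
  by_contra hcon
  apply hw.2
  simp only [Finset.mem_union, Finset.mem_biUnion, Finset.mem_univ, Finset.mem_filter, true_and,
    not_or, not_exists] at hcon
  obtain ⟨⟨c1, c2⟩, c3⟩ := hcon
  have c2' : ∀ (κ : Fin 3) (j : Fin k) (i : Fin 4) (j' : Fin k) (i' : Fin 4),
      4 * j.val + i.val < 4 * j'.val + i'.val →
      gc (rt j) (w.1 j).1 (w.1 j).2 i κ ≠ gc (rt j') (w.1 j').1 (w.1 j').2 i' κ ∧
      gc (rt j) (w.1 j).1 (w.1 j).2 i κ ≠ -gc (rt j') (w.1 j').1 (w.1 j').2 i' κ := by
    intro κ j i j' i' hlt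
    constructor
    · intro h
      apply c2 (((j, i), (j', i')), κ, true)
      refine ⟨?_, ?_⟩
      · rw [Finset.mem_product]
        refine ⟨?_, Finset.mem_univ _⟩
        unfold uacntS
        rw [Finset.mem_filter]
        exact ⟨Finset.mem_univ _, hlt⟩
      · unfold uacntF
        rw [Finset.mem_filter]
        refine ⟨Finset.mem_univ _, ?_⟩
        simpa using h
    · intro h
      apply c2 (((j, i), (j', i')), κ, false)
      refine ⟨?_, ?_⟩
      · rw [Finset.mem_product]
        refine ⟨?_, Finset.mem_univ _⟩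
        unfold uacntS
        rw [Finset.mem_filter]
        exact ⟨Finset.mem_univ _, hlt⟩
      · unfold uacntF
        rw [Finset.mem_filter]
        refine ⟨Finset.mem_univ _, ?_⟩
        simpa using h
  refine ⟨?_, ?_, ?_⟩
  · intro j i
    exact ⟨fun κ => c1 (j, i, κ), uacnt_sum _ _ _ _⟩
  · intro κ j i j' i' hne
    rcases lt_trichotomy (4 * j.val + i.val) (4 * j'.val + i'.val) with h | h | h
    · exact c2' κ j i j' i' h
    · exfalso
      apply hne
      have h3 := i.isLt
      have h4 := i'.isLt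
      have h5 : j = j' := Fin.ext (by omega)
      have h6 : i = i' := Fin.ext (by omega)
      rw [h5, h6]
    · have h2 := c2' κ j' i' j i h
      refine ⟨h2.1.symm, ?_⟩
      intro h3
      apply h2.2
      rw [h3, neg_neg]
  · intro j
    exact c3 j

open Classical in
theorem UA_good_count (hk : k ≤ 4) (hm : 1000 ≤ m) (hn : 2 * m - 1 ≤ n)
    (rt : Fin k → Fin 3 → ZN m) (sy : Fin k → Fin n)
    (h0 : ∀ j κ, rt j κ ≠ 0) (h1 : ∀ j, rt j 0 ≠ rt j 1 + rt j 2)
    (hne : ∀ κ j j', j ≠ j' → rt j κ ≠ rt j' κ ∧ rt j κ ≠ -rt j' κ) :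
    Fintype.card (UW m n k) ≤ 2 * (univ.filter (fun w : UW m n k => UGood rt sy w)).card := by
  have hn0 : NeZero n := ⟨by omega⟩
  set T := Fintype.card (UW m n k) with hT
  have hbad : 2 * (univ.filter (fun w : UW m n k => ¬ UGood rt sy w)).card ≤ T := by
    have h2 := Finset.card_le_card (uacnt_bad rt sy)
    have e1 : ((univ : Finset (Fin k × Fin 4 × Fin 3)).biUnion fun e =>
        univ.filter (fun w : UW m n k =>
          gc (rt e.1) (w.1 e.1).1 (w.1 e.1).2 e.2.1 e.2.2 = 0)).card
        ≤ 12 * k * (T / (2 * m + 1)) := by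
      refine (Finset.card_biUnion_le_card_mul _ _ (T / (2 * m + 1)) ?_).trans ?_
      · intro e _
        rw [Nat.le_div_iff_mul_le (by omega), mul_comm]
        exact uacnt_zero rt h0 e.1 e.2.1 e.2.2
      · apply Nat.mul_le_mul_right
        simp only [Finset.card_univ, Fintype.card_prod, Fintype.card_fin]
        omega
    have e2 : (((uacntS k) ×ˢ (univ : Finset (Fin 3 × Bool))).biUnion fun e =>
        uacntF (n := n) rt e).card ≤ 48 * k ^ 2 * (T / (2 * m + 1)) := by
      refine (Finset.card_biUnion_le_card_mul _ _ (T / (2 * m + 1)) ?_).trans ?_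
      · intro e he
        rw [Nat.le_div_iff_mul_le (by omega), mul_comm]
        exact uacntF_card rt h1 hne e (Finset.mem_product.1 he).1
      · apply Nat.mul_le_mul_right
        rw [Finset.card_product]
        have h3 := uacntS_card k
        simp only [Finset.card_univ, Fintype.card_prod, Fintype.card_fin, Fintype.card_bool]
        omega
    have e3 : ((univ : Finset (Fin k)).biUnion fun j =>
        univ.filter (fun w : UW m n k => w.2 = sy j)).card ≤ k * (2 * T / (2 * m + 1)) := by
      refine (Finset.card_biUnion_le_card_mul _ _ (2 * T / (2 * m + 1)) ?_).trans ?_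
      · intro j _
        rw [Nat.le_div_iff_mul_le (by omega), mul_comm]
        have h3 := uacnt_sym (m := m) (k := k) (sy j)
        have h4 : (2 * m + 1) * (univ.filter (fun w : UW m n k => w.2 = sy j)).card
            ≤ (2 * n) * (univ.filter (fun w : UW m n k => w.2 = sy j)).card :=
          Nat.mul_le_mul_right _ (by omega)
        refine h4.trans ?_
        rw [mul_assoc]
        exact Nat.mul_le_mul_left _ h3
      · simp
    have h3 := (h2.trans (Finset.card_union_le _ _)).trans
      (Nat.add_le_add ((Finset.card_union_le _ _).trans (Nat.add_le_add e1 e2)) e3)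
    have h4 : (2 * m + 1) * (T / (2 * m + 1)) ≤ T := Nat.mul_div_le _ _
    have h5 : (2 * m + 1) * (2 * T / (2 * m + 1)) ≤ 2 * T := Nat.mul_div_le _ _
    set D := T / (2 * m + 1) with hD
    set D' := 2 * T / (2 * m + 1) with hD'
    have hk2 : k ^ 2 ≤ 16 := by nlinarith
    have h6 : (univ.filter (fun w : UW m n k => ¬ UGood rt sy w)).card
        ≤ 816 * D + 4 * D' := by
      refine h3.trans ?_
      have h7 : 12 * k * D ≤ 48 * D := Nat.mul_le_mul_right _ (by omega)
      have h8 : 48 * k ^ 2 * D ≤ 768 * D := Nat.mul_le_mul_right _ (by omega)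
      have h9 : k * D' ≤ 4 * D' := Nat.mul_le_mul_right _ hk
      omega
    have h7 : (2 * m + 1) * (univ.filter (fun w : UW m n k => ¬ UGood rt sy w)).card
        ≤ 824 * T := by
      refine (Nat.mul_le_mul_left _ h6).trans ?_
      nlinarith
    by_contra hc
    push Not at hc
    have h8 : (2 * m + 1) * T < (2 * m + 1) *
        (2 * (univ.filter (fun w : UW m n k => ¬ UGood rt sy w)).card) :=
      Nat.mul_lt_mul_of_pos_left hc (by omega)
    have h9 : 2001 * T ≤ (2 * m + 1) * T := Nat.mul_le_mul_right _ (by omega)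
    nlinarith
  have h2 := Finset.card_filter_add_card_filter_not (s := (univ : Finset (UW m n k)))
    (fun w => UGood rt sy w)
  rw [Finset.card_univ, ← hT] at h2
  omega

end H77.LT
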