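import Pool.Agent.H77.LT.UACom

/-!
# [H77 LT UAHIT] Few choices of a universal absorber hit a sparse set of vertices

`N = 2m+1`, `T = N^(2k) n` choices. `U` has at most `L` vertices in each star, so at most
`4 m L ≤ 2 N L` vertices (`card_le_of_deg`). A vertex of `UA` lies in `U` in one of the following
ways; the number of choices is counted with all parameters but one (two) fixed:
* a cell `gc j 0` (resp. `gc j 1`, `gc j 2`), which lies on the root line of direction 0 (1, 2):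
  for each of the at most `L` cells of `U` on this line at most `2 T/N` choices (the coordinate
  of direction 1 (0, 1), an affine form with a coefficient `±1`, is determined up to sign by the
  cell): `2 L T/N`, for each of `3 k` cells;
* a cell `gc j 3`, `hc j 0`, `hc j 1`, `hc j 2`: for each cell of `U` at most `2 T/N^2` choices (two
  coordinates are affine forms in `p,r` with determinant `±1`, the cell determines them up to a
  common sign): `4 L T/N` for each of `4 k` cells;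
* an entry of `(gc j i, t)`, `t = w.2`, on a root line: at most `L T/n` (the symbol `t` is
  determined), `3 k` entries; not on a root line: for each entry of `U` at most `2 T/(N n)`, so
  `4 L T/n`, `9 k` entries;
* an entry of `(hc j i, sy j)`: it is in the symbol star of `sy j`, at most `L` entries of `U` in each
  direction, each for at most `2 T/N` choices: `2 L T/N`, `9 k` entries.
Altogether at most `k L T (6/N + 16/N + 3/n + 36/n + 18/N) ≤ 118 k L T/N` (`n ≥ N/2`). For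
`k ≤ 4` and `4000 L ≤ N` this is at most `T/8`. (Only the valid triples contribute vertices.)
-/

open Finset

namespace H77.LT

variable {m n k : ℕ}

theorem uahit_mkc (x : Fin 3 → ZN m) (h : Valid x) : (mkc x h).1 = x ∨ (mkc x h).1 = -x := by
  unfold mkc
  split_ifs
  · exact Or.inl rfl
  · exact Or.inr rfl

theorem uahit_dir [NeZero n] (j : Fin k) (F : UW m n k → ZN m) (a b : ℤ)
    (hF : ∀ w c d s, F (w + ((Pi.single j (c, d), s) : UW m n k))
      = F w + (a : ZN m) * c + (b : ZN m) * d)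
    (hab : uacU a ∨ uacU b) :
    ∃ (e : ZN m → ZN m × ZN m) (a' : ℤ), uacU a' ∧
      ∀ w c s, F (w + ((Pi.single j (e c), s) : UW m n k)) = F w + (a' : ZN m) * c := by
  rcases hab with h | h
  · refine ⟨fun c => (c, 0), a, h, ?_⟩
    intro w c s
    rw [hF]
    ring
  · refine ⟨fun c => (0, c), b, h, ?_⟩
    intro w c s
    rw [hF]
    ring

theorem uahit_U1 (U : Finset (Vt m n)) (L : ℕ) (hU : ∀ σ, deg U σ ≤ L) (κ : Fin 3) (l : Fin m) :
    (univ.filter (fun q : Cell m => (Sum.inl q : Vt m n) ∈ U ∧ ln κ q = l)).card ≤ L := by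
  refine le_trans ?_ (hU (Sum.inl (κ, l)))
  unfold deg
  apply Finset.card_le_card_of_injOn (fun q : Cell m => (Sum.inl q : Vt m n))
  · intro q hq
    rw [Finset.mem_coe, Finset.mem_filter] at hq
    rw [Finset.mem_coe, Finset.mem_filter, mem_star_inl]
    exact ⟨hq.2.1, κ, by rw [hq.2.2]⟩
  · intro a _ b _ hab
    exact Sum.inl.inj hab

theorem uahit_U2 (U : Finset (Vt m n)) (L : ℕ) (hU : ∀ σ, deg U σ ≤ L) :
    (univ.filter (fun q : Cell m => (Sum.inl q : Vt m n) ∈ U)).card ≤ m * L := by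
  rw [Finset.card_eq_sum_card_fiberwise (f := ln (m := m) 0) (t := univ)
    (fun _ _ => Finset.mem_univ _)]
  refine (Finset.sum_le_sum (g := fun _ => L) (fun l _ => ?_)).trans ?_
  · rw [Finset.filter_filter]
    exact uahit_U1 U L hU 0 l
  · simp

theorem uahit_U3 (U : Finset (Vt m n)) (L : ℕ) (hU : ∀ σ, deg U σ ≤ L) (κ : Fin 3) (l : Fin m) :
    (univ.filter (fun s : Fin n => (Sum.inr (κ, l, s) : Vt m n) ∈ U)).card ≤ L := by
  refine le_trans ?_ (hU (Sum.inr (Sum.inl (κ, l))))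
  unfold deg
  apply Finset.card_le_card_of_injOn (fun s : Fin n => (Sum.inr (κ, l, s) : Vt m n))
  · intro q hq
    rw [Finset.mem_coe, Finset.mem_filter] at hq
    rw [Finset.mem_coe, Finset.mem_filter, mem_star_inr]
    exact ⟨hq.2, Or.inl rfl⟩
  · intro a _ b _ hab
    have h := Sum.inr.inj hab
    simpa using h

theorem uahit_U4 (U : Finset (Vt m n)) (L : ℕ) (hU : ∀ σ, deg U σ ≤ L) (κ : Fin 3) (s : Fin n) :
    (univ.filter (fun l : Fin m => (Sum.inr (κ, l, s) : Vt m n) ∈ U)).card ≤ L := by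
  refine le_trans ?_ (hU (Sum.inr (Sum.inr (κ, s))))
  unfold deg
  apply Finset.card_le_card_of_injOn (fun l : Fin m => (Sum.inr (κ, l, s) : Vt m n))
  · intro q hq
    rw [Finset.mem_coe, Finset.mem_filter] at hq
    rw [Finset.mem_coe, Finset.mem_filter, mem_star_inr]
    exact ⟨hq.2, Or.inr rfl⟩
  · intro a _ b _ hab
    have h := Sum.inr.inj hab
    simpa using h

theorem uahit_U5 (U : Finset (Vt m n)) (L : ℕ) (hU : ∀ σ, deg U σ ≤ L) (κ : Fin 3) :
    (univ.filter (fun e : Fin m × Fin n => (Sum.inr (κ, e.1, e.2) : Vt m n) ∈ U)).card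
      ≤ m * L := by
  rw [Finset.card_eq_sum_card_fiberwise (f := Prod.fst) (t := univ)
    (fun _ _ => Finset.mem_univ _)]
  refine (Finset.sum_le_sum (g := fun _ => L) (fun l _ => ?_)).trans ?_
  · refine le_trans ?_ (uahit_U3 U L hU κ l)
    apply Finset.card_le_card_of_injOn Prod.snd
    · intro e he
      rw [Finset.mem_coe, Finset.mem_filter, Finset.mem_filter] at he
      rw [Finset.mem_coe, Finset.mem_filter]
      refine ⟨Finset.mem_univ _, ?_⟩
      rw [← he.2]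
      exact he.1.2
    · intro a ha b hb hab
      rw [Finset.mem_coe, Finset.mem_filter] at ha hb
      exact Prod.ext (ha.2.trans hb.2.symm) hab
  · simp

open Classical in
/-- cells on a fixed line -/
theorem uahit_cell1 [NeZero n] (U : Finset (Vt m n)) (L : ℕ) (hU : ∀ σ, deg U σ ≤ L)
    (j : Fin k) (x : UW m n k → Fin 3 → ZN m) (A B : Fin 3 → ℤ)
    (hx : ∀ w c d s κ, x (w + ((Pi.single j (c, d), s) : UW m n k)) κ
      = x w κ + ((A κ : ℤ) : ZN m) * c + ((B κ : ℤ) : ZN m) * d)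
    (κ0 : Fin 3) (a0 : ZN m) (ha0 : a0 ≠ 0) (hr : ∀ w, x w κ0 = a0) (κ1 : Fin 3)
    (hun : uacU (A κ1) ∨ uacU (B κ1)) :
    (2 * m + 1) * (univ.filter (fun w : UW m n k =>
      ∃ h : Valid (x w), (Sum.inl (mkc (x w) h) : Vt m n) ∈ U)).card
      ≤ 2 * L * Fintype.card (UW m n k) := by
  obtain ⟨e, a', ha', he⟩ := uahit_dir j (fun w => x w κ1) (A κ1) (B κ1)
    (fun w c d s => hx w c d s κ1) hun
  have hN : Fintype.card (ZN m) = 2 * m + 1 := ZMod.card _
  refine le_trans (le_of_eq (congrArg (fun t => t * _) hN.symm)) ?_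
  apply uac_shift (fun c : ZN m => ((Pi.single j (e c), 0) : UW m n k))
  intro v
  refine le_trans (uac_two _ (fun c => x (v + ((Pi.single j (e c), 0) : UW m n k)) κ1) ?_
    (univ.filter (fun q : Cell m => (Sum.inl q : Vt m n) ∈ U ∧ ln κ0 q = lnOf a0 ha0))
    (fun q => q.1 κ1) (fun q => -q.1 κ1) ?_) (Nat.mul_le_mul_left _ (uahit_U1 U L hU κ0 _))
  · intro c _ c' _ hcc
    have h1 := he v c 0
    have h2 := he v c' 0
    rw [h1, h2] at hcc
    exact uac_unit_inj ha' (add_left_cancel hcc)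
  · intro c hc
    rw [Finset.mem_filter] at hc
    obtain ⟨_, h, hmem⟩ := hc
    refine ⟨mkc _ h, ?_, ?_⟩
    · rw [Finset.mem_filter]
      refine ⟨Finset.mem_univ _, hmem, ?_⟩
      rw [ln_mkc, lnOf_eq_iff]
      exact Or.inl (hr _)
    · rcases uahit_mkc _ h with h1 | h1
      · left
        show _ = (mkc _ h).1 κ1
        rw [h1]
      · right
        show _ = -(mkc _ h).1 κ1
        rw [h1, Pi.neg_apply, neg_neg]

open Classical in
/-- cells with two free coordinates -/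
theorem uahit_cell2 [NeZero n] (U : Finset (Vt m n)) (L : ℕ) (hU : ∀ σ, deg U σ ≤ L)
    (j : Fin k) (x : UW m n k → Fin 3 → ZN m) (A B : Fin 3 → ℤ)
    (hx : ∀ w c d s κ, x (w + ((Pi.single j (c, d), s) : UW m n k)) κ
      = x w κ + ((A κ : ℤ) : ZN m) * c + ((B κ : ℤ) : ZN m) * d)
    (hdet : uacU (A 0 * B 1 - A 1 * B 0)) :
    (2 * m + 1) * (univ.filter (fun w : UW m n k =>
      ∃ h : Valid (x w), (Sum.inl (mkc (x w) h) : Vt m n) ∈ U)).card
      ≤ 2 * L * Fintype.card (UW m n k) := by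
  have hN : Fintype.card (ZN m × ZN m) = (2 * m + 1) * (2 * m + 1) := by
    rw [Fintype.card_prod, ZMod.card]
  have key : Fintype.card (ZN m × ZN m) * (univ.filter (fun w : UW m n k =>
      ∃ h : Valid (x w), (Sum.inl (mkc (x w) h) : Vt m n) ∈ U)).card
      ≤ (2 * (m * L)) * Fintype.card (UW m n k) := by
    apply uac_shift (fun c : ZN m × ZN m => ((Pi.single j (c.1, c.2), 0) : UW m n k))
    intro v
    refine le_trans (uac_two _
      (fun c : ZN m × ZN m => x (v + ((Pi.single j (c.1, c.2), 0) : UW m n k))) ?_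
      (univ.filter (fun q : Cell m => (Sum.inl q : Vt m n) ∈ U))
      (fun q => q.1) (fun q => -q.1) ?_) (Nat.mul_le_mul_left _ (uahit_U2 U L hU))
    · intro c _ c' _ hcc
      have h0 := congrFun hcc 0
      have h1 := congrFun hcc 1
      rw [hx, hx] at h0 h1
      have h2 : ((A 0 * B 1 - A 1 * B 0 : ℤ) : ZN m) * c.1
          = ((A 0 * B 1 - A 1 * B 0 : ℤ) : ZN m) * c'.1 := by
        push_cast
        linear_combination (B 1 : ZN m) * h0 - (B 0 : ZN m) * h1
      have h3 : ((A 0 * B 1 - A 1 * B 0 : ℤ) : ZN m) * c.2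
          = ((A 0 * B 1 - A 1 * B 0 : ℤ) : ZN m) * c'.2 := by
        push_cast
        linear_combination (A 0 : ZN m) * h1 - (A 1 : ZN m) * h0
      exact Prod.ext (uac_unit_inj hdet h2) (uac_unit_inj hdet h3)
    · intro c hc
      rw [Finset.mem_filter] at hc
      obtain ⟨_, h, hmem⟩ := hc
      refine ⟨mkc _ h, ?_, ?_⟩
      · rw [Finset.mem_filter]
        exact ⟨Finset.mem_univ _, hmem⟩
      · rcases uahit_mkc _ h with h1 | h1
        · left
          exact h1.symm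
        · right
          show _ = -(mkc _ h).1
          rw [h1, neg_neg]
  rw [hN] at key
  have h1 : (2 * m + 1) * ((2 * m + 1) * (univ.filter (fun w : UW m n k =>
      ∃ h : Valid (x w), (Sum.inl (mkc (x w) h) : Vt m n) ∈ U)).card)
      ≤ (2 * m + 1) * (2 * L * Fintype.card (UW m n k)) := by
    rw [← mul_assoc]
    refine key.trans ?_
    have h2 : 2 * (m * L) ≤ (2 * m + 1) * (2 * L) := by nlinarith
    calc 2 * (m * L) * Fintype.card (UW m n k)
        ≤ (2 * m + 1) * (2 * L) * Fintype.card (UW m n k) := Nat.mul_le_mul_right _ h2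
      _ = (2 * m + 1) * (2 * L * Fintype.card (UW m n k)) := by ring
  exact Nat.le_of_mul_le_mul_left h1 (by omega)

theorem uahit_rep (l : Fin m) : ∃ a : ZN m, ∀ (b : ZN m) (hb : b ≠ 0), lnOf b hb = l →
    b = a ∨ b = -a := by
  obtain ⟨a, ha, h⟩ := lnOf_surj l
  refine ⟨a, fun b hb hbl => ?_⟩
  rw [← h, lnOf_eq_iff] at hbl
  exact hbl

open Classical in
/-- entries with a fixed symbol -/
theorem uahit_ent1 [NeZero n] (U : Finset (Vt m n)) (L : ℕ) (hU : ∀ σ, deg U σ ≤ L)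
    (j : Fin k) (F : UW m n k → ZN m) (a b : ℤ)
    (hF : ∀ w c d s, F (w + ((Pi.single j (c, d), s) : UW m n k))
      = F w + (a : ZN m) * c + (b : ZN m) * d)
    (κ : Fin 3) (s0 : Fin n) (hun : uacU a ∨ uacU b) :
    (2 * m + 1) * (univ.filter (fun w : UW m n k =>
      ∃ h : F w ≠ 0, (Sum.inr (κ, lnOf (F w) h, s0) : Vt m n) ∈ U)).card
      ≤ 2 * L * Fintype.card (UW m n k) := by
  obtain ⟨e, a', ha', he⟩ := uahit_dir j F a b hF hun
  choose rep hrep using fun l : Fin m => uahit_rep l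
  have hN : Fintype.card (ZN m) = 2 * m + 1 := ZMod.card _
  refine le_trans (le_of_eq (congrArg (fun t => t * _) hN.symm)) ?_
  apply uac_shift (fun c : ZN m => ((Pi.single j (e c), 0) : UW m n k))
  intro v
  refine le_trans (uac_two _ (fun c => F (v + ((Pi.single j (e c), 0) : UW m n k))) ?_
    (univ.filter (fun l : Fin m => (Sum.inr (κ, l, s0) : Vt m n) ∈ U))
    rep (fun l => -rep l) ?_) (Nat.mul_le_mul_left _ (uahit_U4 U L hU κ s0))
  · intro c _ c' _ hcc
    rw [he, he] at hcc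
    exact uac_unit_inj ha' (add_left_cancel hcc)
  · intro c hc
    rw [Finset.mem_filter] at hc
    obtain ⟨_, h, hmem⟩ := hc
    refine ⟨lnOf _ h, ?_, hrep _ _ h rfl⟩
    rw [Finset.mem_filter]
    exact ⟨Finset.mem_univ _, hmem⟩

open Classical in
/-- entries with the free symbol, not on a root line -/
theorem uahit_ent2 [NeZero n] (hn : 2 * m + 1 ≤ 2 * n) (U : Finset (Vt m n)) (L : ℕ)
    (hU : ∀ σ, deg U σ ≤ L) (j : Fin k) (F : UW m n k → ZN m) (a b : ℤ)
    (hF : ∀ w c d s, F (w + ((Pi.single j (c, d), s) : UW m n k))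
      = F w + (a : ZN m) * c + (b : ZN m) * d)
    (κ : Fin 3) (hun : uacU a ∨ uacU b) :
    (2 * m + 1) * (univ.filter (fun w : UW m n k =>
      ∃ h : F w ≠ 0, (Sum.inr (κ, lnOf (F w) h, w.2) : Vt m n) ∈ U)).card
      ≤ 2 * L * Fintype.card (UW m n k) := by
  obtain ⟨e, a', ha', he⟩ := uahit_dir j F a b hF hun
  choose rep hrep using fun l : Fin m => uahit_rep l
  have hN : Fintype.card (ZN m × Fin n) = (2 * m + 1) * n := by
    rw [Fintype.card_prod, ZMod.card, Fintype.card_fin]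
  have key : Fintype.card (ZN m × Fin n) * (univ.filter (fun w : UW m n k =>
      ∃ h : F w ≠ 0, (Sum.inr (κ, lnOf (F w) h, w.2) : Vt m n) ∈ U)).card
      ≤ (2 * (m * L)) * Fintype.card (UW m n k) := by
    apply uac_shift (fun c : ZN m × Fin n => ((Pi.single j (e c.1), c.2) : UW m n k))
    intro v
    refine le_trans (uac_two _
      (fun c : ZN m × Fin n =>
        (F (v + ((Pi.single j (e c.1), c.2) : UW m n k)), v.2 + c.2)) ?_
      (univ.filter (fun f : Fin m × Fin n => (Sum.inr (κ, f.1, f.2) : Vt m n) ∈ U))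
      (fun f => (rep f.1, f.2)) (fun f => (-rep f.1, f.2)) ?_)
      (Nat.mul_le_mul_left _ (uahit_U5 U L hU κ))
    · intro c _ c' _ hcc
      have h1 := congrArg Prod.fst hcc
      have h2 := congrArg Prod.snd hcc
      simp only at h1 h2
      rw [he, he] at h1
      exact Prod.ext (uac_unit_inj ha' (add_left_cancel h1)) (add_left_cancel h2)
    · intro c hc
      rw [Finset.mem_filter] at hc
      obtain ⟨_, h, hmem⟩ := hc
      refine ⟨(lnOf _ h, (v + ((Pi.single j (e c.1), c.2) : UW m n k)).2), ?_, ?_⟩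
      · rw [Finset.mem_filter]
        exact ⟨Finset.mem_univ _, hmem⟩
      · have h3 : (v + ((Pi.single j (e c.1), c.2) : UW m n k)).2 = v.2 + c.2 :=
          uac_add_snd _ _ _ _
        rcases hrep _ _ h rfl with h4 | h4
        · left
          exact Prod.ext h4 h3.symm
        · right
          exact Prod.ext h4 h3.symm
  rw [hN] at key
  have h1 : n * ((2 * m + 1) * (univ.filter (fun w : UW m n k =>
      ∃ h : F w ≠ 0, (Sum.inr (κ, lnOf (F w) h, w.2) : Vt m n) ∈ U)).card)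
      ≤ n * (2 * L * Fintype.card (UW m n k)) := by
    have h3 : 2 * (m * L) ≤ n * (2 * L) := by
      have : m * L ≤ n * L := Nat.mul_le_mul_right _ (by omega)
      nlinarith
    calc n * ((2 * m + 1) * (univ.filter (fun w : UW m n k =>
      ∃ h : F w ≠ 0, (Sum.inr (κ, lnOf (F w) h, w.2) : Vt m n) ∈ U)).card)
        = (2 * m + 1) * n * (univ.filter (fun w : UW m n k =>
      ∃ h : F w ≠ 0, (Sum.inr (κ, lnOf (F w) h, w.2) : Vt m n) ∈ U)).card := by ring
      _ ≤ 2 * (m * L) * Fintype.card (UW m n k) := key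
      _ ≤ n * (2 * L) * Fintype.card (UW m n k) := Nat.mul_le_mul_right _ h3
      _ = n * (2 * L * Fintype.card (UW m n k)) := by ring
  exact Nat.le_of_mul_le_mul_left h1 (Nat.pos_of_ne_zero (NeZero.ne n))

open Classical in
/-- entries with the free symbol on a root line -/
theorem uahit_ent3 [NeZero n] (hn : 2 * m + 1 ≤ 2 * n) (U : Finset (Vt m n)) (L : ℕ)
    (hU : ∀ σ, deg U σ ≤ L) (κ : Fin 3) (F : UW m n k → ZN m) (a0 : ZN m) (ha0 : a0 ≠ 0)
    (hF : ∀ w, F w = a0) :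
    (2 * m + 1) * (univ.filter (fun w : UW m n k =>
      ∃ h : F w ≠ 0, (Sum.inr (κ, lnOf (F w) h, w.2) : Vt m n) ∈ U)).card
      ≤ 2 * L * Fintype.card (UW m n k) := by
  have key := uac_sym (fun w : UW m n k =>
      ∃ h : F w ≠ 0, (Sum.inr (κ, lnOf (F w) h, w.2) : Vt m n) ∈ U) L (by
    intro w
    refine le_trans ?_ (uahit_U3 U L hU κ (lnOf a0 ha0))
    apply Finset.card_le_card_of_injOn (fun s : Fin n => w.2 + s)
    · intro s hs
      rw [Finset.mem_coe, Finset.mem_filter] at hs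
      rw [Finset.mem_coe, Finset.mem_filter]
      obtain ⟨_, h, hmem⟩ := hs
      refine ⟨Finset.mem_univ _, ?_⟩
      have h1 : lnOf (F (w + ((0, s) : UW m n k))) h = lnOf a0 ha0 := by
        rw [lnOf_eq_iff]
        exact Or.inl (hF _)
      rw [h1] at hmem
      exact hmem
    · intro s _ s' _ hss
      exact add_left_cancel hss)
  have h1 : (2 * m + 1) * (univ.filter (fun w : UW m n k =>
      ∃ h : F w ≠ 0, (Sum.inr (κ, lnOf (F w) h, w.2) : Vt m n) ∈ U)).card
      ≤ (2 * n) * (univ.filter (fun w : UW m n k =>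
      ∃ h : F w ≠ 0, (Sum.inr (κ, lnOf (F w) h, w.2) : Vt m n) ∈ U)).card :=
    Nat.mul_le_mul_right _ hn
  refine h1.trans ?_
  rw [mul_assoc, mul_assoc 2 L]
  exact Nat.mul_le_mul_left _ key

theorem uahit_edv (x : Fin 3 → ZN m) (s : Fin n) (v : Vt m n) (hv : v ∈ edv x s)
    (U : Finset (Vt m n)) (hU : v ∈ U) :
    (∃ h : Valid x, (Sum.inl (mkc x h) : Vt m n) ∈ U) ∨
      ∃ κ, ∃ h : x κ ≠ 0, (Sum.inr (κ, lnOf (x κ) h, s) : Vt m n) ∈ U := by
  unfold edv at hv
  split_ifs at hv with h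
  · rcases v with q | ⟨κ, l, s'⟩
    · left
      rw [mem_ed_inl] at hv
      subst hv
      exact ⟨h, hU⟩
    · right
      rw [mem_ed_inr] at hv
      obtain ⟨rfl, rfl⟩ := hv
      refine ⟨κ, h.1 κ, ?_⟩
      rw [← ln_mkc κ x h]
      exact hU
  · exact absurd hv (Finset.notMem_empty v)

theorem uahit_gcx [NeZero n] (rt : Fin k → Fin 3 → ZN m) (j : Fin k) (i : Fin 4)
    (w : UW m n k) (c d : ZN m) (s : Fin n) (κ : Fin 3) :
    gc (rt j) ((w + ((Pi.single j (c, d), s) : UW m n k)).1 j).1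
      ((w + ((Pi.single j (c, d), s) : UW m n k)).1 j).2 i κ
      = gc (rt j) (w.1 j).1 (w.1 j).2 i κ + ((uacGp i κ : ℤ) : ZN m) * c
        + ((uacGr i κ : ℤ) : ZN m) * d := by
  rw [uac_add_fst]
  exact uac_gc_shift _ _ _ _ _ _ _

theorem uahit_hcx [NeZero n] (rt : Fin k → Fin 3 → ZN m) (j : Fin k) (i : Fin 3)
    (w : UW m n k) (c d : ZN m) (s : Fin n) (κ : Fin 3) :
    hc (rt j) ((w + ((Pi.single j (c, d), s) : UW m n k)).1 j).1
      ((w + ((Pi.single j (c, d), s) : UW m n k)).1 j).2 i κ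
      = hc (rt j) (w.1 j).1 (w.1 j).2 i κ + ((uacHp i κ : ℤ) : ZN m) * c
        + ((uacHr i κ : ℤ) : ZN m) * d := by
  rw [uac_add_fst]
  exact uac_hc_shift _ _ _ _ _ _ _

open Classical in
theorem uahit_G0 [NeZero n] (rt : Fin k → Fin 3 → ZN m) (h0 : ∀ j κ, rt j κ ≠ 0)
    (U : Finset (Vt m n)) (L : ℕ) (hU : ∀ σ, deg U σ ≤ L) (j : Fin k) (i : Fin 4) :
    (2 * m + 1) * (univ.filter (fun w : UW m n k =>
      ∃ h : Valid (gc (rt j) (w.1 j).1 (w.1 j).2 i),
        (Sum.inl (mkc (gc (rt j) (w.1 j).1 (w.1 j).2 i) h) : Vt m n) ∈ U)).card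
      ≤ 2 * L * Fintype.card (UW m n k) := by
  have hcase : ∀ i : Fin 4, (∃ κ : Fin 3, i = κ.castSucc ∧
      ∃ κ1 : Fin 3, uacU (uacGp i κ1) ∨ uacU (uacGr i κ1)) ∨
      uacU (uacGp i 0 * uacGr i 1 - uacGp i 1 * uacGr i 0) := by
    decide
  rcases hcase i with ⟨κ, hi, κ1, hκ1⟩ | h
  · apply uahit_cell1 U L hU j (fun w => gc (rt j) (w.1 j).1 (w.1 j).2 i) (uacGp i) (uacGr i)
      (fun w c d s κ => uahit_gcx rt j i w c d s κ) κ (rt j κ) (h0 j κ) _ κ1 hκ1
    intro w
    subst hi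
    exact uac_gc_root _ _ _ _
  · exact uahit_cell2 U L hU j (fun w => gc (rt j) (w.1 j).1 (w.1 j).2 i) (uacGp i) (uacGr i)
      (fun w c d s κ => uahit_gcx rt j i w c d s κ) h

open Classical in
theorem uahit_H0 [NeZero n] (rt : Fin k → Fin 3 → ZN m)
    (U : Finset (Vt m n)) (L : ℕ) (hU : ∀ σ, deg U σ ≤ L) (j : Fin k) (i : Fin 3) :
    (2 * m + 1) * (univ.filter (fun w : UW m n k =>
      ∃ h : Valid (hc (rt j) (w.1 j).1 (w.1 j).2 i),
        (Sum.inl (mkc (hc (rt j) (w.1 j).1 (w.1 j).2 i) h) : Vt m n) ∈ U)).card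
      ≤ 2 * L * Fintype.card (UW m n k) := by
  have hcase : ∀ i : Fin 3, uacU (uacHp i 0 * uacHr i 1 - uacHp i 1 * uacHr i 0) := by
    decide
  exact uahit_cell2 U L hU j (fun w => hc (rt j) (w.1 j).1 (w.1 j).2 i) (uacHp i) (uacHr i)
    (fun w c d s κ => uahit_hcx rt j i w c d s κ) (hcase i)

open Classical in
theorem uahit_G1 [NeZero n] (hn : 2 * m + 1 ≤ 2 * n) (rt : Fin k → Fin 3 → ZN m)
    (h0 : ∀ j κ, rt j κ ≠ 0)
    (U : Finset (Vt m n)) (L : ℕ) (hU : ∀ σ, deg U σ ≤ L) (j : Fin k) (i : Fin 4) (κ : Fin 3) :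
    (2 * m + 1) * (univ.filter (fun w : UW m n k =>
      ∃ h : gc (rt j) (w.1 j).1 (w.1 j).2 i κ ≠ 0,
        (Sum.inr (κ, lnOf (gc (rt j) (w.1 j).1 (w.1 j).2 i κ) h, w.2) : Vt m n) ∈ U)).card
      ≤ 2 * L * Fintype.card (UW m n k) := by
  have hcase : ∀ (i : Fin 4) (κ : Fin 3), i = κ.castSucc ∨ (uacU (uacGp i κ) ∨ uacU (uacGr i κ)) := by
    decide
  rcases hcase i κ with h | h
  · apply uahit_ent3 hn U L hU κ (fun w : UW m n k => gc (rt j) (w.1 j).1 (w.1 j).2 i κ)
      (rt j κ) (h0 j κ)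
    intro w
    subst h
    exact uac_gc_root _ _ _ _
  · exact uahit_ent2 hn U L hU j (fun w => gc (rt j) (w.1 j).1 (w.1 j).2 i κ) _ _
      (fun w c d s => uahit_gcx rt j i w c d s κ) κ h

open Classical in
theorem uahit_H1 [NeZero n] (rt : Fin k → Fin 3 → ZN m) (s0 : Fin n)
    (U : Finset (Vt m n)) (L : ℕ) (hU : ∀ σ, deg U σ ≤ L) (j : Fin k) (i : Fin 3) (κ : Fin 3) :
    (2 * m + 1) * (univ.filter (fun w : UW m n k =>
      ∃ h : hc (rt j) (w.1 j).1 (w.1 j).2 i κ ≠ 0,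
        (Sum.inr (κ, lnOf (hc (rt j) (w.1 j).1 (w.1 j).2 i κ) h, s0) : Vt m n) ∈ U)).card
      ≤ 2 * L * Fintype.card (UW m n k) := by
  have hcase : ∀ (i : Fin 3) (κ : Fin 3), (uacU (uacHp i κ) ∨ uacU (uacHr i κ)) := by
    decide
  exact uahit_ent1 U L hU j (fun w => hc (rt j) (w.1 j).1 (w.1 j).2 i κ) _ _
      (fun w c d s => uahit_hcx rt j i w c d s κ) κ s0 (hcase i κ)

open Classical in
theorem uahit_cover (rt : Fin k → Fin 3 → ZN m) (sy : Fin k → Fin n) (U : Finset (Vt m n)) :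
    (univ.filter (fun w : UW m n k => ¬ Disjoint (UA rt sy w) U)) ⊆
      (((univ : Finset (Fin k × Fin 4)).biUnion fun e => univ.filter (fun w : UW m n k =>
        ∃ h : Valid (gc (rt e.1) (w.1 e.1).1 (w.1 e.1).2 e.2),
        (Sum.inl (mkc (gc (rt e.1) (w.1 e.1).1 (w.1 e.1).2 e.2) h) : Vt m n) ∈ U)) ∪
      ((univ : Finset (Fin k × Fin 3)).biUnion fun e => univ.filter (fun w : UW m n k =>
        ∃ h : Valid (hc (rt e.1) (w.1 e.1).1 (w.1 e.1).2 e.2),
        (Sum.inl (mkc (hc (rt e.1) (w.1 e.1).1 (w.1 e.1).2 e.2) h) : Vt m n) ∈ U))) ∪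
      (((univ : Finset (Fin k × Fin 4 × Fin 3)).biUnion fun e => univ.filter (fun w : UW m n k =>
        ∃ h : gc (rt e.1) (w.1 e.1).1 (w.1 e.1).2 e.2.1 e.2.2 ≠ 0,
        (Sum.inr (e.2.2, lnOf (gc (rt e.1) (w.1 e.1).1 (w.1 e.1).2 e.2.1 e.2.2) h, w.2) : Vt m n)
          ∈ U)) ∪
      ((univ : Finset (Fin k × Fin 3 × Fin 3)).biUnion fun e => univ.filter (fun w : UW m n k =>
        ∃ h : hc (rt e.1) (w.1 e.1).1 (w.1 e.1).2 e.2.1 e.2.2 ≠ 0,
        (Sum.inr (e.2.2, lnOf (hc (rt e.1) (w.1 e.1).1 (w.1 e.1).2 e.2.1 e.2.2) h, sy e.1) :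
          Vt m n) ∈ U))) := by
  intro w hw
  rw [Finset.mem_filter, Finset.not_disjoint_iff] at hw
  obtain ⟨_, v, hv, hvU⟩ := hw
  unfold UA at hv
  simp only [Finset.mem_union, Finset.mem_biUnion, Finset.mem_univ, true_and] at hv
  simp only [Finset.mem_union, Finset.mem_biUnion, Finset.mem_univ, Finset.mem_filter, true_and]
  rcases hv with ⟨j, i, hv⟩ | ⟨j, i, hv⟩
  · rcases uahit_edv _ _ v hv U hvU with h | ⟨κ, h⟩
    · exact Or.inl (Or.inr ⟨(j, i), h⟩)
    · exact Or.inr (Or.inr ⟨(j, i, κ), h⟩)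
  · rcases uahit_edv _ _ v hv U hvU with h | ⟨κ, h⟩
    · exact Or.inl (Or.inl ⟨(j, i), h⟩)
    · exact Or.inr (Or.inl ⟨(j, i, κ), h⟩)

theorem uahit_union {ι Ω : Type*} [Fintype ι] [DecidableEq Ω] (f : ι → Finset Ω) (c N T : ℕ)
    (hN : 0 < N) (hc : Fintype.card ι ≤ c) (h : ∀ i, N * (f i).card ≤ T) :
    ((univ : Finset ι).biUnion f).card ≤ c * (T / N) := by
  refine (Finset.card_biUnion_le_card_mul _ _ (T / N) ?_).trans ?_
  · intro i _
    rw [Nat.le_div_iff_mul_le hN, mul_comm]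
    exact h i
  · rw [Finset.card_univ]
    exact Nat.mul_le_mul_right _ hc

theorem UA_hit (hk : k ≤ 4) (hm : 1000 ≤ m) (hn : 2 * m - 1 ≤ n)
    (rt : Fin k → Fin 3 → ZN m) (sy : Fin k → Fin n) (h0 : ∀ j κ, rt j κ ≠ 0)
    (L : ℕ) (hL : 4000 * L ≤ 2 * m + 1) (U : Finset (Vt m n)) (hU : ∀ σ, deg U σ ≤ L) :
    8 * (univ.filter (fun w : UW m n k => ¬ Disjoint (UA rt sy w) U)).card
      ≤ Fintype.card (UW m n k) := by
  classical
  have hn0 : NeZero n := ⟨by omega⟩
  have hn2 : 2 * m + 1 ≤ 2 * n := by omega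
  set T := Fintype.card (UW m n k) with hT
  have h1 := Finset.card_le_card (uahit_cover (m := m) (n := n) rt sy U)
  have e1 := uahit_union (fun e : Fin k × Fin 4 => univ.filter (fun w : UW m n k =>
        ∃ h : Valid (gc (rt e.1) (w.1 e.1).1 (w.1 e.1).2 e.2),
        (Sum.inl (mkc (gc (rt e.1) (w.1 e.1).1 (w.1 e.1).2 e.2) h) : Vt m n) ∈ U))
    16 (2 * m + 1) (2 * L * T) (by omega)
    (by simp only [Fintype.card_prod, Fintype.card_fin]; omega)
    (fun e => by
      have h := uahit_G0 rt h0 U L hU e.1 e.2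
      convert h using 4)
  have e2 := uahit_union (fun e : Fin k × Fin 3 => univ.filter (fun w : UW m n k =>
        ∃ h : Valid (hc (rt e.1) (w.1 e.1).1 (w.1 e.1).2 e.2),
        (Sum.inl (mkc (hc (rt e.1) (w.1 e.1).1 (w.1 e.1).2 e.2) h) : Vt m n) ∈ U))
    12 (2 * m + 1) (2 * L * T) (by omega)
    (by simp only [Fintype.card_prod, Fintype.card_fin]; omega)
    (fun e => by
      have h := uahit_H0 rt U L hU e.1 e.2
      convert h using 4)
  have e3 := uahit_union (fun e : Fin k × Fin 4 × Fin 3 => univ.filter (fun w : UW m n k =>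
        ∃ h : gc (rt e.1) (w.1 e.1).1 (w.1 e.1).2 e.2.1 e.2.2 ≠ 0,
        (Sum.inr (e.2.2, lnOf (gc (rt e.1) (w.1 e.1).1 (w.1 e.1).2 e.2.1 e.2.2) h, w.2) : Vt m n)
          ∈ U))
    48 (2 * m + 1) (2 * L * T) (by omega)
    (by simp only [Fintype.card_prod, Fintype.card_fin]; omega)
    (fun e => by
      have h := uahit_G1 hn2 rt h0 U L hU e.1 e.2.1 e.2.2
      convert h using 4)
  have e4 := uahit_union (fun e : Fin k × Fin 3 × Fin 3 => univ.filter (fun w : UW m n k =>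
        ∃ h : hc (rt e.1) (w.1 e.1).1 (w.1 e.1).2 e.2.1 e.2.2 ≠ 0,
        (Sum.inr (e.2.2, lnOf (hc (rt e.1) (w.1 e.1).1 (w.1 e.1).2 e.2.1 e.2.2) h, sy e.1) :
          Vt m n) ∈ U))
    36 (2 * m + 1) (2 * L * T) (by omega)
    (by simp only [Fintype.card_prod, Fintype.card_fin]; omega)
    (fun e => by
      have h := uahit_H1 rt (sy e.1) U L hU e.1 e.2.1 e.2.2
      convert h using 4)
  have h2 := (h1.trans (Finset.card_union_le _ _)).trans
    (Nat.add_le_add ((Finset.card_union_le _ _).trans (Nat.add_le_add e1 e2))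
      ((Finset.card_union_le _ _).trans (Nat.add_le_add e3 e4)))
  have h4 : (2 * m + 1) * (2 * L * T / (2 * m + 1)) ≤ 2 * L * T := Nat.mul_div_le _ _
  set D := 2 * L * T / (2 * m + 1) with hD
  have h3 : (univ.filter (fun w : UW m n k => ¬ Disjoint (UA rt sy w) U)).card ≤ 112 * D := by
    refine le_trans (le_of_eq ?_) (h2.trans (by omega))
    congr 1
  by_contra hc
  push Not at hc
  have h5 : (2 * m + 1) * T < (2 * m + 1) * (8 * (112 * D)) :=
    Nat.mul_lt_mul_of_pos_left (lt_of_lt_of_le hc (Nat.mul_le_mul_left _ h3)) (by omega)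
  have h6 : 4000 * L * T ≤ (2 * m + 1) * T := Nat.mul_le_mul_right _ hL
  have h7 : (2 * m + 1) * (8 * (112 * D)) = 896 * ((2 * m + 1) * D) := by ring
  have h8 : 896 * ((2 * m + 1) * D) ≤ 896 * (2 * L * T) := Nat.mul_le_mul_left _ h4
  have h9 : 896 * (2 * L * T) ≤ 4000 * L * T := by
    have : 896 * (2 * L * T) = 1792 * (L * T) := by ring
    rw [this, mul_assoc]
    exact Nat.mul_le_mul_right _ (by norm_num)
  omega

end H77.LT
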