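import Pool.Agent.H77.LT.UAPm

/-!
# [H77 LT UASTAR] Few choices of a universal absorber hit a small set of stars (away from roots)

`N = 2m+1`, `T = N^(2k) n` choices. `S` is a set of stars. A non-root star of a vertex of `UA` is
* a cell star `(κ', line of the cell)` of a cell `gc j i` or `hc j i` where the coordinate `κ'` is not
  the root: it is an affine form in `p j, r j` with a coefficient `±1`, and a given line determines it
  up to sign: at most `2 T/N` choices for each star of `S`, `21 k` pairs (cell, direction);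
* a line star of an entry of `(gc j i, t)` or of `(hc j i, sy j)`, not a root line: the same,
  `18 k` pairs;
* a symbol star `(κ', t)`: at most `T/n ≤ 2 T/N` choices for each star of `S`, `12 k` entries.
(The symbol stars of the entries `(hc j i, sy j)` are root stars. The root stars are the
`rootW κ pi q sy`; `RootOf` relates the root lines `rln` and the residues `rt`.)
Altogether at most `51 k * 2 |S| T/N ≤ 408 |S| T/N ≤ T/8` if `4000 |S| ≤ N`.
-/

open Finset

namespace H77.LT

variable {m n k : ℕ}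

/-- a form with a unit coefficient takes each value equally often -/
theorem UAStar_shift (F : UW m n k → ZN m) (sh : ZN m → UW m n k → UW m n k) (e : ZN m)
    (he : e = 1 ∨ e = -1) (hinj : ∀ c, Function.Injective (sh c))
    (hF : ∀ c w, F (sh c w) = F w + e * c) (a : ZN m) :
    (2 * m + 1) * (univ.filter (fun w : UW m n k => F w = a)).card ≤ Fintype.card (UW m n k) := by
  have h1 : Function.Injective
      (fun x : ZN m × {w : UW m n k // F w = a} => sh x.1 x.2.1) := by
    rintro ⟨c, w, hw⟩ ⟨c', w', hw'⟩ h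
    simp only at h
    have h2 := congrArg F h
    rw [hF, hF, hw, hw', add_right_inj] at h2
    have h3 : c = c' := by
      rcases he with he | he
      · rw [he, one_mul, one_mul] at h2
        exact h2
      · rw [he, neg_one_mul, neg_one_mul] at h2
        exact neg_inj.mp h2
    subst h3
    have h4 := hinj c h
    subst h4
    rfl
  have h2 := Fintype.card_le_of_injective _ h1
  rw [Fintype.card_prod, ZMod.card, Fintype.card_subtype] at h2
  exact h2

theorem UAStar_form (rt : Fin 3 → ZN m) (i : Fin 4) (κ : Fin 3) (h : i ≠ κ.castSucc) :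
    (∃ e : ZN m, (e = 1 ∨ e = -1) ∧ ∀ p r c, gc rt (p + c) r i κ = gc rt p r i κ + e * c) ∨
    (∃ e : ZN m, (e = 1 ∨ e = -1) ∧ ∀ p r c, gc rt p (r + c) i κ = gc rt p r i κ + e * c) := by
  fin_cases i <;> fin_cases κ
  · exact absurd rfl h
  · right
    refine ⟨-1, Or.inr rfl, fun p r c => ?_⟩
    simp [gc]
    ring
  · right
    refine ⟨1, Or.inl rfl, fun p r c => ?_⟩
    simp [gc]
    ring
  · left
    refine ⟨-1, Or.inr rfl, fun p r c => ?_⟩
    simp [gc]
    ring
  · exact absurd rfl h
  · left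
    refine ⟨1, Or.inl rfl, fun p r c => ?_⟩
    simp [gc]
  · right
    refine ⟨1, Or.inl rfl, fun p r c => ?_⟩
    simp [gc]
    ring
  · right
    refine ⟨-1, Or.inr rfl, fun p r c => ?_⟩
    simp [gc]
    ring
  · exact absurd rfl h
  · right
    refine ⟨-1, Or.inr rfl, fun p r c => ?_⟩
    simp [gc]
    ring
  · left
    refine ⟨-1, Or.inr rfl, fun p r c => ?_⟩
    simp [gc]
    ring
  · right
    refine ⟨1, Or.inl rfl, fun p r c => ?_⟩
    simp [gc]

/-- add `d` to the parameters number `j` -/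
def UAStar_sh (j : Fin k) (d : ZN m × ZN m) (w : UW m n k) : UW m n k :=
  (Function.update w.1 j (w.1 j + d), w.2)

theorem UAStar_sh_inj (j : Fin k) (d : ZN m × ZN m) :
    Function.Injective (UAStar_sh (m := m) (n := n) j d) := by
  rintro ⟨f, s⟩ ⟨g, t⟩ h
  unfold UAStar_sh at h
  simp only [Prod.mk.injEq] at h
  obtain ⟨h1, h2⟩ := h
  subst h2
  congr 1
  funext i
  by_cases hi : i = j
  · subst hi
    have h3 := congrFun h1 i
    rw [Function.update_self, Function.update_self] at h3
    exact add_right_cancel h3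
  · have h3 := congrFun h1 i
    rw [Function.update_of_ne hi, Function.update_of_ne hi] at h3
    exact h3

theorem UAStar_val (rt : Fin k → Fin 3 → ZN m) (j : Fin k) (i : Fin 4) (κ : Fin 3)
    (h : i ≠ κ.castSucc) (a : ZN m) :
    (2 * m + 1) * (univ.filter (fun w : UW m n k =>
      gc (rt j) (w.1 j).1 (w.1 j).2 i κ = a)).card ≤ Fintype.card (UW m n k) := by
  rcases UAStar_form (rt j) i κ h with ⟨e, he, h1⟩ | ⟨e, he, h1⟩
  · apply UAStar_shift (fun w : UW m n k => gc (rt j) (w.1 j).1 (w.1 j).2 i κ)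
      (fun c => UAStar_sh j (c, 0)) e he (fun c => UAStar_sh_inj j _)
    intro c w
    simp only [UAStar_sh, Function.update_self, Prod.fst_add, Prod.snd_add, add_zero]
    exact h1 _ _ _
  · apply UAStar_shift (fun w : UW m n k => gc (rt j) (w.1 j).1 (w.1 j).2 i κ)
      (fun c => UAStar_sh j (0, c)) e he (fun c => UAStar_sh_inj j _)
    intro c w
    simp only [UAStar_sh, Function.update_self, Prod.fst_add, Prod.snd_add, add_zero]
    exact h1 _ _ _

/-- the star `σ` is a line star of the line of a `gc` (away from the root) -/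
def UAStar_C (rt : Fin k → Fin 3 → ZN m) (σ : Star m n) (j : Fin k) (i : Fin 4)
    (w : UW m n k) : Prop :=
  ∃ (κ : Fin 3) (l : Fin m), (σ = Sum.inl (κ, l) ∨ σ = Sum.inr (Sum.inl (κ, l))) ∧
    i ≠ κ.castSucc ∧ ∃ h : gc (rt j) (w.1 j).1 (w.1 j).2 i κ ≠ 0,
      lnOf (gc (rt j) (w.1 j).1 (w.1 j).2 i κ) h = l

open Classical in
theorem UAStar_C_line (rt : Fin k → Fin 3 → ZN m) (σ : Star m n) (j : Fin k) (i : Fin 4)
    (κ : Fin 3) (l : Fin m)
    (hσ : ∀ (κ' : Fin 3) (l' : Fin m), (σ = Sum.inl (κ', l') ∨ σ = Sum.inr (Sum.inl (κ', l'))) →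
      κ' = κ ∧ l' = l) :
    (2 * m + 1) * (univ.filter (fun w : UW m n k => UAStar_C rt σ j i w)).card
      ≤ 2 * Fintype.card (UW m n k) := by
  by_cases hi : i = κ.castSucc
  · have h1 : (univ.filter (fun w : UW m n k => UAStar_C rt σ j i w)) = ∅ := by
      rw [Finset.filter_eq_empty_iff]
      rintro w - ⟨κ', l', h2, h3, _⟩
      obtain ⟨rfl, rfl⟩ := hσ κ' l' h2
      exact h3 hi
    rw [h1]
    simp
  · obtain ⟨a, ha, rfl⟩ := lnOf_surj l
    have h1 : (univ.filter (fun w : UW m n k => UAStar_C rt σ j i w)) ⊆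
        (univ.filter (fun w : UW m n k => gc (rt j) (w.1 j).1 (w.1 j).2 i κ = a)) ∪
        (univ.filter (fun w : UW m n k => gc (rt j) (w.1 j).1 (w.1 j).2 i κ = -a)) := by
      intro w hw
      rw [mem_filter] at hw
      obtain ⟨-, κ', l', h2, h3, h4, h5⟩ := hw
      obtain ⟨rfl, rfl⟩ := hσ κ' l' h2
      rw [lnOf_eq_iff] at h5
      rw [mem_union, mem_filter, mem_filter]
      rcases h5 with h5 | h5
      · exact Or.inl ⟨mem_univ _, h5⟩
      · exact Or.inr ⟨mem_univ _, h5⟩
    have h2 := (card_le_card h1).trans (card_union_le _ _)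
    have h3 := UAStar_val (n := n) rt j i κ hi a
    have h4 := UAStar_val (n := n) rt j i κ hi (-a)
    calc (2 * m + 1) * (univ.filter (fun w : UW m n k => UAStar_C rt σ j i w)).card
        ≤ (2 * m + 1) * _ := Nat.mul_le_mul_left _ h2
      _ = _ := mul_add _ _ _
      _ ≤ Fintype.card (UW m n k) + Fintype.card (UW m n k) := Nat.add_le_add h3 h4
      _ = 2 * Fintype.card (UW m n k) := by ring

open Classical in
theorem UAStar_C_card (rt : Fin k → Fin 3 → ZN m) (σ : Star m n) (j : Fin k) (i : Fin 4) :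
    (2 * m + 1) * (univ.filter (fun w : UW m n k => UAStar_C rt σ j i w)).card
      ≤ 2 * Fintype.card (UW m n k) := by
  rcases σ with ⟨κ, l⟩ | ⟨κ, l⟩ | ⟨κ, s⟩
  · apply UAStar_C_line rt _ j i κ l
    rintro κ' l' (h | h)
    · have h1 := Sum.inl.inj h
      rw [Prod.mk.injEq] at h1
      exact ⟨h1.1.symm, h1.2.symm⟩
    · exact absurd h (by simp)
  · apply UAStar_C_line rt _ j i κ l
    rintro κ' l' (h | h)
    · exact absurd h (by simp)
    · have h1 := Sum.inl.inj (Sum.inr.inj h)
      rw [Prod.mk.injEq] at h1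
      exact ⟨h1.1.symm, h1.2.symm⟩
  · have h1 : (univ.filter (fun w : UW m n k =>
        UAStar_C rt (Sum.inr (Sum.inr (κ, s))) j i w)) = ∅ := by
      rw [Finset.filter_eq_empty_iff]
      rintro w - ⟨κ', l', h2 | h2, _⟩
      · exact absurd h2 (by simp)
      · exact absurd (Sum.inr.inj h2) (by simp)
    rw [h1]
    simp

/-- the star `σ` is a symbol star of the free symbol -/
def UAStar_B (σ : Star m n) (w : UW m n k) : Prop := ∃ κ : Fin 3, σ = Sum.inr (Sum.inr (κ, w.2))

open Classical in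
theorem UAStar_B_card (σ : Star m n) :
    n * (univ.filter (fun w : UW m n k => UAStar_B σ w)).card ≤ Fintype.card (UW m n k) := by
  by_cases h : ∃ (κ : Fin 3) (s : Fin n), σ = Sum.inr (Sum.inr (κ, s))
  · obtain ⟨κ, s, rfl⟩ := h
    have h1 : (univ.filter (fun w : UW m n k => UAStar_B (Sum.inr (Sum.inr (κ, s))) w)) ⊆
        (univ : Finset (Fin k → ZN m × ZN m)) ×ˢ ({s} : Finset (Fin n)) := by
      intro w hw
      rw [mem_filter] at hw
      obtain ⟨-, κ', h2⟩ := hw
      have h3 := Sum.inr.inj (Sum.inr.inj h2)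
      rw [Prod.mk.injEq] at h3
      rw [mem_product, mem_singleton]
      exact ⟨mem_univ _, h3.2.symm⟩
    have h2 := card_le_card h1
    rw [card_product, card_singleton, mul_one] at h2
    have h3 : Fintype.card (UW m n k) = n * (univ : Finset (Fin k → ZN m × ZN m)).card := by
      rw [Fintype.card_prod, Fintype.card_fin, mul_comm, card_univ]
    rw [h3]
    exact Nat.mul_le_mul_left _ h2
  · have h1 : (univ.filter (fun w : UW m n k => UAStar_B σ w)) = ∅ := by
      rw [Finset.filter_eq_empty_iff]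
      rintro w - ⟨κ, h2⟩
      exact h ⟨κ, _, h2⟩
    rw [h1]
    simp

theorem UAStar_ed (c : Cell m) (s : Fin n) (v : Vt m n) (hv : v ∈ ed c s) (σ : Star m n)
    (hσ : σ ∈ star v) : (∃ κ, σ = Sum.inl (κ, ln κ c) ∨ σ = Sum.inr (Sum.inl (κ, ln κ c))) ∨
      ∃ κ, σ = Sum.inr (Sum.inr (κ, s)) := by
  rcases v with c' | ⟨κ, l, t⟩
  · rw [mem_ed_inl] at hv
    subst hv
    rw [mem_star_inl] at hσ
    obtain ⟨κ, h⟩ := hσ
    exact Or.inl ⟨κ, Or.inl h⟩
  · rw [mem_ed_inr] at hv
    obtain ⟨rfl, rfl⟩ := hv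
    rw [mem_star_inr] at hσ
    rcases hσ with h | h
    · exact Or.inl ⟨κ, Or.inr h⟩
    · exact Or.inr ⟨κ, h⟩

theorem UAStar_edv (x : Fin 3 → ZN m) (s : Fin n) (v : Vt m n) (hv : v ∈ edv x s) :
    ∃ h : Valid x, v ∈ ed (mkc x h) s := by
  unfold edv at hv
  split_ifs at hv with h
  · exact ⟨h, hv⟩
  · exact absurd hv (notMem_empty _)

theorem UAStar_root {κ : Fin 3} {pi : Equiv.Perm (Fin k)} {q : Fin k → Cell m}
    {sy : Fin k → Fin n} (j : Fin k) (κ' : Fin 3) (σ : Star m n)
    (h : σ = Sum.inl (κ', rln κ pi q j κ') ∨ σ = Sum.inr (Sum.inl (κ', rln κ pi q j κ')) ∨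
      σ = Sum.inr (Sum.inr (κ', sy j))) : σ ∈ rootW κ pi q sy := by
  unfold rootW
  rw [mem_biUnion]
  refine ⟨(j, κ'), mem_univ _, ?_⟩
  simp only [mem_insert, mem_singleton]
  exact h

open Classical in
theorem UA_star (hk : k ≤ 4) (hm : 1000 ≤ m) (hn : 2 * m - 1 ≤ n)
    (rt : Fin k → Fin 3 → ZN m) (sy : Fin k → Fin n)
    (κ : Fin 3) (pi : Equiv.Perm (Fin k)) (q : Fin k → Cell m) (hr : RootOf rt κ pi q)
    (S : Finset (Star m n)) (hS : 4000 * S.card ≤ 2 * m + 1) :
    8 * (univ.filter (fun w : UW m n k =>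
        ∃ v ∈ UA rt sy w, ∃ σ ∈ star v, σ ∈ S ∧ σ ∉ rootW κ pi q sy)).card
      ≤ Fintype.card (UW m n k) := by
  set T := Fintype.card (UW m n k) with hT
  have hsub : (univ.filter (fun w : UW m n k =>
        ∃ v ∈ UA rt sy w, ∃ σ ∈ star v, σ ∈ S ∧ σ ∉ rootW κ pi q sy)) ⊆
      (S.biUnion fun σ => (univ : Finset (Fin k × Fin 4)).biUnion fun e =>
        univ.filter (fun w : UW m n k => UAStar_C rt σ e.1 e.2 w)) ∪
      (S.biUnion fun σ => univ.filter (fun w : UW m n k => UAStar_B σ w)) := by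
    intro w hw
    rw [mem_filter] at hw
    obtain ⟨-, v, hv, σ, hσ, hσS, hσr⟩ := hw
    rw [mem_union, mem_biUnion, mem_biUnion]
    unfold UA at hv
    rw [mem_union, mem_biUnion, mem_biUnion] at hv
    rcases hv with ⟨j, -, hv⟩ | ⟨j, -, hv⟩
    · rw [mem_biUnion] at hv
      obtain ⟨i, -, hv⟩ := hv
      obtain ⟨hx, hv⟩ := UAStar_edv _ _ _ hv
      rcases UAStar_ed _ _ _ hv σ hσ with ⟨κ', h⟩ | ⟨κ', h⟩
      · left
        refine ⟨σ, hσS, ?_⟩
        rw [mem_biUnion]
        refine ⟨(j, UAPm_a i κ'), mem_univ _, ?_⟩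
        rw [mem_filter]
        refine ⟨mem_univ _, κ', _, h, UAPm_a_ne κ' i, ?_⟩
        have h1 := UAPm_hc (rt j) (w.1 j).1 (w.1 j).2 i κ'
        have h2 := hx.1 κ'
        have h3 : gc (rt j) (w.1 j).1 (w.1 j).2 (UAPm_a i κ') κ' ≠ 0 := by
          intro h4
          apply h2
          rcases h1 with h1 | h1
          · rw [h1, h4]
          · rw [h1, h4, neg_zero]
        refine ⟨h3, ?_⟩
        rw [ln_mkc, eq_comm, lnOf_eq_iff]
        exact h1
      · exfalso
        exact hσr (UAStar_root j κ' σ (Or.inr (Or.inr h)))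
    · rw [mem_biUnion] at hv
      obtain ⟨i, -, hv⟩ := hv
      obtain ⟨hx, hv⟩ := UAStar_edv _ _ _ hv
      rcases UAStar_ed _ _ _ hv σ hσ with ⟨κ', h⟩ | ⟨κ', h⟩
      · left
        refine ⟨σ, hσS, ?_⟩
        rw [mem_biUnion]
        refine ⟨(j, i), mem_univ _, ?_⟩
        rw [mem_filter]
        by_cases hi : i = κ'.castSucc
        · exfalso
          apply hσr
          subst hi
          obtain ⟨h5, h6⟩ := hr.1 j κ'
          have h7 : ln κ' (mkc (gc (rt j) (w.1 j).1 (w.1 j).2 κ'.castSucc) hx) =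
              rln κ pi q j κ' := by
            rw [← h6, ln_mkc, lnOf_eq_iff]
            left
            exact UAPm_root _ _ _ _
          apply UAStar_root j κ' σ
          rw [h7] at h
          rcases h with h | h
          · exact Or.inl h
          · exact Or.inr (Or.inl h)
        · refine ⟨mem_univ _, κ', _, h, hi, hx.1 κ', ?_⟩
          rw [ln_mkc]
      · right
        refine ⟨σ, hσS, ?_⟩
        rw [mem_filter]
        exact ⟨mem_univ _, κ', h⟩
  have hA : (2 * m + 1) * (S.biUnion fun σ => (univ : Finset (Fin k × Fin 4)).biUnion fun e =>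
        univ.filter (fun w : UW m n k => UAStar_C rt σ e.1 e.2 w)).card ≤ S.card * (32 * T) := by
    calc (2 * m + 1) * (S.biUnion fun σ => (univ : Finset (Fin k × Fin 4)).biUnion fun e =>
          univ.filter (fun w : UW m n k => UAStar_C rt σ e.1 e.2 w)).card
        ≤ (2 * m + 1) * ∑ σ ∈ S, ∑ e ∈ (univ : Finset (Fin k × Fin 4)),
          (univ.filter (fun w : UW m n k => UAStar_C rt σ e.1 e.2 w)).card := by
          apply Nat.mul_le_mul_left
          refine card_biUnion_le.trans ?_
          apply sum_le_sum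
          intro σ _
          exact card_biUnion_le
      _ = ∑ σ ∈ S, ∑ e ∈ (univ : Finset (Fin k × Fin 4)),
          (2 * m + 1) * (univ.filter (fun w : UW m n k => UAStar_C rt σ e.1 e.2 w)).card := by
          rw [mul_sum]
          apply sum_congr rfl
          intro σ _
          rw [mul_sum]
      _ ≤ ∑ σ ∈ S, ∑ e ∈ (univ : Finset (Fin k × Fin 4)), 2 * T := by
          apply sum_le_sum
          intro σ _
          apply sum_le_sum
          intro e _
          exact UAStar_C_card rt σ e.1 e.2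
      _ = S.card * (k * 4 * (2 * T)) := by
          rw [sum_const, sum_const, card_univ, Fintype.card_prod, Fintype.card_fin,
            Fintype.card_fin, smul_eq_mul, smul_eq_mul]
      _ ≤ S.card * (32 * T) := by
          apply Nat.mul_le_mul_left
          have : k * 4 * (2 * T) = 8 * k * T := by ring
          rw [this]
          apply Nat.mul_le_mul_right
          omega
  have hB : (2 * m + 1) * (S.biUnion fun σ =>
      univ.filter (fun w : UW m n k => UAStar_B σ w)).card ≤ S.card * (2 * T) := by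
    calc (2 * m + 1) * (S.biUnion fun σ =>
          univ.filter (fun w : UW m n k => UAStar_B σ w)).card
        ≤ (2 * m + 1) * ∑ σ ∈ S, (univ.filter (fun w : UW m n k => UAStar_B σ w)).card := by
          apply Nat.mul_le_mul_left
          exact card_biUnion_le
      _ = ∑ σ ∈ S, (2 * m + 1) * (univ.filter (fun w : UW m n k => UAStar_B σ w)).card := by
          rw [mul_sum]
      _ ≤ ∑ σ ∈ S, 2 * T := by
          apply sum_le_sum
          intro σ _
          have h1 := UAStar_B_card (m := m) (n := n) (k := k) σ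
          calc (2 * m + 1) * (univ.filter (fun w : UW m n k => UAStar_B σ w)).card
              ≤ (2 * n) * (univ.filter (fun w : UW m n k => UAStar_B σ w)).card := by
                apply Nat.mul_le_mul_right
                omega
            _ = 2 * (n * (univ.filter (fun w : UW m n k => UAStar_B σ w)).card) := by ring
            _ ≤ 2 * T := Nat.mul_le_mul_left _ h1
      _ = S.card * (2 * T) := by
          rw [sum_const, smul_eq_mul]
  have h1 := (card_le_card hsub).trans (card_union_le _ _)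
  have h2 : (2 * m + 1) * (univ.filter (fun w : UW m n k =>
        ∃ v ∈ UA rt sy w, ∃ σ ∈ star v, σ ∈ S ∧ σ ∉ rootW κ pi q sy)).card
      ≤ S.card * (34 * T) := by
    calc (2 * m + 1) * (univ.filter (fun w : UW m n k =>
        ∃ v ∈ UA rt sy w, ∃ σ ∈ star v, σ ∈ S ∧ σ ∉ rootW κ pi q sy)).card
        ≤ (2 * m + 1) * _ := Nat.mul_le_mul_left _ h1
      _ = _ := mul_add _ _ _
      _ ≤ S.card * (32 * T) + S.card * (2 * T) := Nat.add_le_add hA hB
      _ = S.card * (34 * T) := by ring
  have h3 : (2 * m + 1) * (8 * (univ.filter (fun w : UW m n k =>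
        ∃ v ∈ UA rt sy w, ∃ σ ∈ star v, σ ∈ S ∧ σ ∉ rootW κ pi q sy)).card)
      ≤ (2 * m + 1) * T := by
    calc (2 * m + 1) * (8 * (univ.filter (fun w : UW m n k =>
        ∃ v ∈ UA rt sy w, ∃ σ ∈ star v, σ ∈ S ∧ σ ∉ rootW κ pi q sy)).card)
        = 8 * ((2 * m + 1) * (univ.filter (fun w : UW m n k =>
        ∃ v ∈ UA rt sy w, ∃ σ ∈ star v, σ ∈ S ∧ σ ∉ rootW κ pi q sy)).card) := by ring
      _ ≤ 8 * (S.card * (34 * T)) := Nat.mul_le_mul_left _ h2
      _ = (272 * S.card) * T := by ring
      _ ≤ (2 * m + 1) * T := Nat.mul_le_mul_right _ (by omega)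
  exact Nat.le_of_mul_le_mul_left h3 (by omega)

end H77.LT
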