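import Pool.Agent.H77.LT.UAPm
import Pool.Agent.H77.LT.UACnt
import Pool.Agent.H77.LT.UAHit
import Pool.Agent.H77.LT.UAStar

/-!
# [H77 LT UAITEM] The universal absorber as an item of the greedy lemma

Combination of `UA_pm`, `UA_pm2`, `UA_card`, `UA_good_count`, `UA_hit`, `UA_star`.
`exists_roots`: for each `j` choose nonzero residues of the three root lines
(`lnOf_surj`); if `rt j 0 = rt j 1 + rt j 2` replace `rt j 0` by `-rt j 0` (the same line); then
`- rt j 0 ≠ rt j 1 + rt j 2`, otherwise `rt j 0 = - rt j 0`, impossible (`two_ne_zero'`).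
The roots of the same direction are distinct up to sign for different `j` because the lines
`ln κ' (q j)` are distinct (`hinj`), hence the lines `rln j κ'` too.
`exists_item`: `om` = the good choices, `vx = UA rt sy`. Since at least one half of all choices are
good and at most one eighth of all choices hit `U`, `2 * (hits) ≤ T/4 < T/2 ≤ |om|`.
-/

open Finset

namespace H77.LT

variable {m n k : ℕ}

theorem exists_roots (κ : Fin 3) (pi : Equiv.Perm (Fin k)) (q : Fin k → Cell m) :
    ∃ rt : Fin k → Fin 3 → ZN m, RootOf rt κ pi q := by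
  have h := fun (j : Fin k) (κ' : Fin 3) => lnOf_surj (rln κ pi q j κ')
  choose a ha0 ha using h
  have hneg : ∀ j, ∃ h : -a j 0 ≠ 0, lnOf (-a j 0) h = rln κ pi q j 0 := by
    intro j
    refine ⟨neg_ne_zero.2 (ha0 j 0), ?_⟩
    rw [← ha j 0, lnOf_eq_iff]
    exact Or.inr rfl
  have key : ∀ j, ∃ r : Fin 3 → ZN m, (∀ κ', ∃ h : r κ' ≠ 0, lnOf (r κ') h = rln κ pi q j κ') ∧
      r 0 ≠ r 1 + r 2 := by
    intro j
    by_cases hj : a j 0 = a j 1 + a j 2
    · refine ⟨fun κ' => if κ' = 0 then -a j 0 else a j κ', ?_, ?_⟩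
      · intro κ'
        by_cases hκ : κ' = 0
        · subst hκ
          simp only [if_true]
          exact hneg j
        · simp only [hκ, if_false]
          exact ⟨ha0 j κ', ha j κ'⟩
      · have e1 : (1 : Fin 3) ≠ 0 := by decide
        have e2 : (2 : Fin 3) ≠ 0 := by decide
        simp only [if_true, e1, e2, if_false]
        rw [← hj]
        exact fun h => two_ne_zero' (ha0 j 0) h.symm
    · exact ⟨a j, fun κ' => ⟨ha0 j κ', ha j κ'⟩, hj⟩
  choose rt h1 h2 using key
  exact ⟨rt, h1, h2⟩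

open Classical in
theorem exists_item (hk : k ≤ 4) (hm : 1000 ≤ m) (hn : 2 * m - 1 ≤ n)
    (κ : Fin 3) (pi : Equiv.Perm (Fin k)) (q : Fin k → Cell m) (sy : Fin k → Fin n)
    (hinj : ∀ κ' j j', j ≠ j' → ln κ' (q j) ≠ ln κ' (q j')) :
    ∃ (om : Finset (UW m n k)) (vx : UW m n k → Finset (Vt m n)),
      (∀ w ∈ om, (vx w).card ≤ 112) ∧ (∀ w ∈ om, PM (vx w)) ∧
      (∀ w ∈ om, Disjoint (vx w) (WS κ pi q sy) → PM (vx w ∪ WS κ pi q sy)) ∧
      (∀ L : ℕ, 4000 * L ≤ 2 * m + 1 → ∀ U : Finset (Vt m n), (∀ σ, deg U σ ≤ L) →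
        2 * (om.filter (fun w => ¬ Disjoint (vx w) U)).card < om.card) ∧
      (∀ S : Finset (Star m n), 4000 * S.card ≤ 2 * m + 1 →
        2 * (om.filter (fun w => ∃ v ∈ vx w, ∃ σ ∈ star v, σ ∈ S ∧ σ ∉ rootW κ pi q sy)).card
          ≤ om.card) := by
  obtain ⟨rt, hr⟩ := exists_roots κ pi q
  have h0 : ∀ j κ', rt j κ' ≠ 0 := fun j κ' => (hr.1 j κ').1
  have hrl : ∀ κ' j j', j ≠ j' → rln κ pi q j κ' ≠ rln κ pi q j' κ' := by
    intro κ' j j' hj
    unfold rln
    split_ifs with h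
    · exact hinj κ' _ _ (fun h3 => hj (pi.injective h3))
    · exact hinj κ' _ _ hj
  have hne : ∀ κ' j j', j ≠ j' → rt j κ' ≠ rt j' κ' ∧ rt j κ' ≠ -rt j' κ' := by
    intro κ' j j' hj
    obtain ⟨a1, b1⟩ := hr.1 j κ'
    obtain ⟨a2, b2⟩ := hr.1 j' κ'
    have h3 : ¬ (rt j κ' = rt j' κ' ∨ rt j κ' = -rt j' κ') := by
      rw [← lnOf_eq_iff _ _ a1 a2, b1, b2]
      exact hrl κ' j j' hj
    push Not at h3
    exact h3
  have hgood := UA_good_count hk hm hn rt sy h0 hr.2 hne
  have hTpos : 0 < Fintype.card (UW m n k) := by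
    have : NeZero n := ⟨by omega⟩
    exact Fintype.card_pos
  refine ⟨univ.filter (fun w : UW m n k => UGood rt sy w), UA rt sy, ?_, ?_, ?_, ?_, ?_⟩
  · intro w _
    exact (UA_card rt sy w).trans (by omega)
  · intro w hw
    exact UA_pm rt sy w (Finset.mem_filter.1 hw).2
  · intro w hw hd
    exact UA_pm2 rt sy w (Finset.mem_filter.1 hw).2 κ pi q hr hd
  · intro L hL U hU
    have h3 := UA_hit hk hm hn rt sy h0 L hL U hU
    have h4 : ((univ.filter (fun w : UW m n k => UGood rt sy w)).filter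
        (fun w => ¬ Disjoint (UA rt sy w) U)).card
        ≤ (univ.filter (fun w : UW m n k => ¬ Disjoint (UA rt sy w) U)).card := by
      apply Finset.card_le_card
      intro w hw
      rw [Finset.mem_filter] at hw ⊢
      exact ⟨Finset.mem_univ _, hw.2⟩
    have h5 : (univ.filter (fun w : UW m n k => ¬ Disjoint (UA rt sy w) U)).card * 8
        ≤ Fintype.card (UW m n k) := by
      rw [mul_comm]
      convert h3
    omega
  · intro S hS
    have h3 := UA_star hk hm hn rt sy κ pi q hr S hS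
    have h4 : ((univ.filter (fun w : UW m n k => UGood rt sy w)).filter
        (fun w => ∃ v ∈ UA rt sy w, ∃ σ ∈ star v, σ ∈ S ∧ σ ∉ rootW κ pi q sy)).card
        ≤ (univ.filter (fun w : UW m n k =>
          ∃ v ∈ UA rt sy w, ∃ σ ∈ star v, σ ∈ S ∧ σ ∉ rootW κ pi q sy)).card := by
      apply Finset.card_le_card
      intro w hw
      rw [Finset.mem_filter] at hw ⊢
      exact ⟨Finset.mem_univ _, hw.2⟩
    omega

end H77.LT
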