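import Pool.Agent.H77.LT.ChoD
import Pool.Agent.H77.LT.TPW
import Pool.Agent.H77.LT.Greedy
import Pool.Agent.H77.LT.UAItem

/-!
# [H77 LT ST3] Stage 3: the absorbers of the released sets of the rectangles

`N = 2m+1`, `q3 = N/h^3`. For each rectangle `r` the set `Wr B c r` is `WS κ pi q sy` with `k = 4`
(`WS_rect`: cells `cT (inl r), cT (inr (inl r)), cP (inl r), cP (inr r)`, symbols
`ndS (co1 r), ndS (co2 r), yP (inl r), yP (inr r)`; the line of node `co3 r` is that of `co1 r`, its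
symbol that of `co2 r`; `co4 r` the other way). The lines of the four cells are pairwise distinct in
each direction (`GoodCho`). `exists_item` gives `om r`, `vx r`. Apply `greedy` with items `Rc`,
choices `UW m n 4`, root stars `rootW κ pi q sy`, `a = 112`, `rho = 26 q3`, `B = q3`, `d0 = 26 q3`,
`L = 3000 q3` (`26 + 112 * 26 + 1 = 2939`).
* `hroot`: a root star is `inl (κ', l)` or `inr (inl (κ',l))` with `l` the line of one of the four
  cells `q j` (as a set the root lines of a direction are the lines of the `q j`), or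
  `inr (inr (κ', s))`, `s` one of the four symbols. The cells `q j` of all rectangles are distinct
  vertices of `U` (disjoint released sets contained in `U`), so at most `deg U (inl (κ',l)) ≤ 26 q3`
  rectangles have `inl (κ',l)` as a root star, and the same number for `inr (inl (κ',l))`. For
  symbols: `WS` contains for each `j` and each `κ'` an entry of direction `κ'` with the symbol
  `sy j`; so at most `deg U (inr (inr (κ',s))) ≤ 26 q3` rectangles.
* `hU`: `exists_item` with `4000 * L ≤ N` (`h ≥ 10^9`).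
* `hS`: `exists_item`, `4000 |T| ≤ N` from `q3 |T| ≤ 336 |Rc|`, `|Rc| ≤ 3 (h^4+1) 2^tL 2^tS tL tS`
  `≤ 100 N^2 T^2 / h^4`, `q3 ≥ N/(2 h^3)`, `10^9 T^4 ≤ h`.
-/

open Finset

namespace H77.LT

variable {m n h tL tS : ℕ}

theorem st3_card_BI (h : ℕ) (hh : 1 ≤ h) : Fintype.card (BI h) = 3 * h ^ 4 := by
  have h1 : Fintype.card (BI h) = ∑ κ : Fin 3, KK h κ := by
    rw [Fintype.card_sigma]
    refine Finset.sum_congr rfl fun κ _ => ?_
    rw [Fintype.card_fin]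
  rw [h1, Fin.sum_univ_three]
  have h2 : 1 ≤ h ^ 4 := Nat.one_le_pow _ _ hh
  show (h ^ 4 - 1) + h ^ 4 + (h ^ 4 + 1) = 3 * h ^ 4
  omega

theorem st3_card_Rc (h tL tS : ℕ) (hh : 1 ≤ h) :
    Fintype.card (Rc h tL tS) = 3 * h ^ 4 * (2 ^ tL * 2 ^ tS) * (tL * tS) := by
  rw [Fintype.card_prod, Fintype.card_prod, Fintype.card_prod, Fintype.card_prod, st3_card_BI h hh]
  simp

/-- the size of the set of rectangles -/
theorem st3_Rc_le (hp : Par m n h) (B : Brd m n h tL tS) :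
    Fintype.card (Rc h tL tS) * h ^ 4 ≤
      48 * (2 * m + 1) ^ 2 * (Nat.log 2 (2 * m + 1) + 2) ^ 2 := by
  have hh : 1 ≤ h := by
    have := hp.hlog
    have h2 : 1 ≤ (Nat.log 2 (2 * m + 1) + 2) ^ 4 := Nat.one_le_pow _ _ (by omega)
    omega
  rw [st3_card_Rc h tL tS hh]
  have e : 3 * h ^ 4 * (2 ^ tL * 2 ^ tS) * (tL * tS) * h ^ 4 =
      3 * ((2 ^ tL * h ^ 4) * (2 ^ tS * h ^ 4)) * (tL * tS) := by ring
  rw [e]
  have h1 : (2 ^ tL * h ^ 4) * (2 ^ tS * h ^ 4) ≤ (4 * (2 * m + 1)) * (4 * (2 * m + 1)) :=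
    Nat.mul_le_mul B.szL B.szS
  have h2 : tL * tS ≤ (Nat.log 2 (2 * m + 1) + 2) * (Nat.log 2 (2 * m + 1) + 2) :=
    Nat.mul_le_mul B.tLle B.tSle
  calc 3 * ((2 ^ tL * h ^ 4) * (2 ^ tS * h ^ 4)) * (tL * tS)
      ≤ 3 * ((4 * (2 * m + 1)) * (4 * (2 * m + 1))) *
        ((Nat.log 2 (2 * m + 1) + 2) * (Nat.log 2 (2 * m + 1) + 2)) :=
        Nat.mul_le_mul (Nat.mul_le_mul_left 3 h1) h2
    _ = 48 * (2 * m + 1) ^ 2 * (Nat.log 2 (2 * m + 1) + 2) ^ 2 := by ring

theorem st3_num (hp : Par m n h) : 10 ^ 9 ≤ h ∧ 1000 ≤ m ∧ 1000 ≤ q3 m h ∧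
    q3 m h * h ^ 3 ≤ 2 * m + 1 ∧ 2 * m + 1 ≤ 2 * (q3 m h * h ^ 3) := by
  have h2 : 1 ≤ (Nat.log 2 (2 * m + 1) + 2) ^ 4 := Nat.one_le_pow _ _ (by omega)
  have hh : 10 ^ 9 ≤ h := by
    have h1 := hp.hlog
    calc 10 ^ 9 = 10 ^ 9 * 1 := by norm_num
      _ ≤ 10 ^ 9 * (Nat.log 2 (2 * m + 1) + 2) ^ 4 := Nat.mul_le_mul_left _ h2
      _ ≤ h := h1
  have hh1 : 1 ≤ h := le_trans (by norm_num) hh
  have hN := hp.hN
  have h3 : h ^ 1 ≤ h ^ 20 := Nat.pow_le_pow_right hh1 (by norm_num)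
  have h4 : 1000 * h ^ 3 ≤ 2 * m + 1 := by
    calc 1000 * h ^ 3 ≤ h * h ^ 3 := Nat.mul_le_mul_right _ (le_trans (by norm_num) hh)
      _ = h ^ 4 := by ring
      _ ≤ h ^ 20 := Nat.pow_le_pow_right hh1 (by norm_num)
      _ ≤ 2 * m + 1 := hN
  have hpos : 0 < h ^ 3 := Nat.pos_of_ne_zero (by positivity)
  have hq : 1000 ≤ q3 m h := by
    unfold q3
    exact (Nat.le_div_iff_mul_le hpos).2 h4
  have hm1 : q3 m h * h ^ 3 ≤ 2 * m + 1 := by
    unfold q3
    exact Nat.div_mul_le_self _ _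
  refine ⟨hh, ?_, hq, hm1, ?_⟩
  · rw [pow_one] at h3
    have : 10 ^ 9 ≤ 2 * m + 1 := le_trans hh (le_trans h3 hN)
    omega
  · have h5 : 2 * m + 1 < (q3 m h + 1) * h ^ 3 := by
      unfold q3
      have := Nat.lt_succ_self ((2 * m + 1) / h ^ 3)
      exact (Nat.div_lt_iff_lt_mul hpos).1 this
    have h6 : (q3 m h + 1) * h ^ 3 ≤ (2 * q3 m h) * h ^ 3 :=
      Nat.mul_le_mul_right _ (by omega)
    calc 2 * m + 1 ≤ (q3 m h + 1) * h ^ 3 := le_of_lt h5
      _ ≤ (2 * q3 m h) * h ^ 3 := h6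
      _ = 2 * (q3 m h * h ^ 3) := by ring

theorem st3_numL (hp : Par m n h) : 4000 * (3000 * q3 m h) ≤ 2 * m + 1 := by
  obtain ⟨hh, _, _, h1, _⟩ := st3_num hp
  have hh1 : 1 ≤ h := le_trans (by norm_num) hh
  calc 4000 * (3000 * q3 m h) = q3 m h * 12000000 := by ring
    _ ≤ q3 m h * h ^ 3 := by
        apply Nat.mul_le_mul_left
        calc 12000000 ≤ h := le_trans (by norm_num) hh
          _ = h ^ 1 := (pow_one h).symm
          _ ≤ h ^ 3 := Nat.pow_le_pow_right hh1 (by norm_num)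
    _ ≤ 2 * m + 1 := h1

theorem st3_numS (hp : Par m n h) (B : Brd m n h tL tS) (t : ℕ)
    (ht : q3 m h * t ≤ 3 * 112 * Fintype.card (Rc h tL tS)) : 4000 * t ≤ 2 * m + 1 := by
  obtain ⟨hh, _, hq, h1, h2⟩ := st3_num hp
  have hR := st3_Rc_le hp B
  have hlog := hp.hlog
  set T := Nat.log 2 (2 * m + 1) + 2 with hT
  set N := 2 * m + 1 with hN
  have hNpos : 0 < N := by omega
  have hhpos : 0 < h := lt_of_lt_of_le (by norm_num) hh
  have hT1 : T ^ 2 ≤ T ^ 4 := Nat.pow_le_pow_right (by omega) (by norm_num)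
  have e1 : N * (t * h) ≤ N * (32256 * N * T ^ 2) := by
    calc N * (t * h) ≤ (2 * (q3 m h * h ^ 3)) * (t * h) := Nat.mul_le_mul_right _ h2
      _ = 2 * (q3 m h * t) * h ^ 4 := by ring
      _ ≤ 2 * (3 * 112 * Fintype.card (Rc h tL tS)) * h ^ 4 :=
          Nat.mul_le_mul_right _ (Nat.mul_le_mul_left _ ht)
      _ = 672 * (Fintype.card (Rc h tL tS) * h ^ 4) := by ring
      _ ≤ 672 * (48 * N ^ 2 * T ^ 2) := Nat.mul_le_mul_left _ hR
      _ = N * (32256 * N * T ^ 2) := by ring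
  have e2 : t * h ≤ 32256 * N * T ^ 2 := Nat.le_of_mul_le_mul_left e1 hNpos
  have e3 : (4000 * t) * h ≤ N * h := by
    calc (4000 * t) * h = 4000 * (t * h) := by ring
      _ ≤ 4000 * (32256 * N * T ^ 2) := Nat.mul_le_mul_left _ e2
      _ = N * (129024000 * T ^ 2) := by ring
      _ ≤ N * (10 ^ 9 * T ^ 4) := by
          apply Nat.mul_le_mul_left
          exact Nat.mul_le_mul (by norm_num) hT1
      _ ≤ N * h := Nat.mul_le_mul_left _ hlog
  exact Nat.le_of_mul_le_mul_right e3 hhpos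

theorem st3_Wr_sub (B : Brd m n h tL tS) (YN : Finset (Nd h tL tS))
    (c : Cho m n h tL tS) (U : Finset (Vt m n))
    (hT : ∀ a, VT YN a → tS' B c a ⊆ U) (hP : ∀ b, pS' B c b ⊆ U) (r : Rc h tL tS) :
    Wr B c r ⊆ U := by
  unfold Wr
  refine union_subset (union_subset (union_subset ?_ ?_) ?_) ?_
  · exact hT _ trivial
  · exact hT _ trivial
  · exact hP _
  · exact hP _

theorem st3_Wr_disj (B : Brd m n h tL tS) (YN : Finset (Nd h tL tS))
    (c : Cho m n h tL tS) (hc : GoodCho B YN c) (r r' : Rc h tL tS) (hr : r ≠ r') :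
    Disjoint (Wr B c r) (Wr B c r') := by
  have v1 : ∀ r : Rc h tL tS, VT YN (Sum.inl r) := fun _ => trivial
  have v2 : ∀ r : Rc h tL tS, VT YN (Sum.inr (Sum.inl r)) := fun _ => trivial
  have d11 := hc.dT (Sum.inl r) (Sum.inl r') (v1 r) (v1 r') (by simpa using hr)
  have d12 := hc.dT (Sum.inl r) (Sum.inr (Sum.inl r')) (v1 r) (v2 r') (by simp)
  have d21 := hc.dT (Sum.inr (Sum.inl r)) (Sum.inl r') (v2 r) (v1 r') (by simp)
  have d22 := hc.dT (Sum.inr (Sum.inl r)) (Sum.inr (Sum.inl r')) (v2 r) (v2 r') (by simpa using hr)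
  have p11 := hc.dP (Sum.inl r) (Sum.inl r') (by simpa using hr)
  have p12 := hc.dP (Sum.inl r) (Sum.inr r') (by simp)
  have p21 := hc.dP (Sum.inr r) (Sum.inl r') (by simp)
  have p22 := hc.dP (Sum.inr r) (Sum.inr r') (by simpa using hr)
  have a11 := hc.dTP (Sum.inl r) (Sum.inl r') (v1 r)
  have a12 := hc.dTP (Sum.inl r) (Sum.inr r') (v1 r)
  have a21 := hc.dTP (Sum.inr (Sum.inl r)) (Sum.inl r') (v2 r)
  have a22 := hc.dTP (Sum.inr (Sum.inl r)) (Sum.inr r') (v2 r)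
  have b11 := (hc.dTP (Sum.inl r') (Sum.inl r) (v1 r')).symm
  have b12 := (hc.dTP (Sum.inl r') (Sum.inr r) (v1 r')).symm
  have b21 := (hc.dTP (Sum.inr (Sum.inl r')) (Sum.inl r) (v2 r')).symm
  have b22 := (hc.dTP (Sum.inr (Sum.inl r')) (Sum.inr r) (v2 r')).symm
  unfold Wr
  simp only [disjoint_union_left, disjoint_union_right]
  tauto

theorem st3_WS (B : Brd m n h tL tS) (YN : Finset (Nd h tL tS))
    (c : Cho m n h tL tS) (hc : GoodCho B YN c) (pi : Equiv.Perm (Fin 4))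
    (hpi : pi 0 = 3 ∧ pi 1 = 2 ∧ pi 2 = 0 ∧ pi 3 = 1) (r : Rc h tL tS) :
    Wr B c r = WS (ndK (co1 r)) pi
      ![c.cT (Sum.inl r), c.cT (Sum.inr (Sum.inl r)), c.cP (Sum.inl r), c.cP (Sum.inr r)]
      ![ndS B (co1 r), ndS B (co2 r), c.yP (Sum.inl r), c.yP (Sum.inr r)] := by
  rw [← WS_rect (ndK (co1 r)) pi hpi]
  have e1 : ln (ndK (co1 r)) (c.cT (Sum.inl r)) = ndL B (co1 r) := hc.t (Sum.inl r) trivial
  have e2 : ln (ndK (co1 r)) (c.cT (Sum.inr (Sum.inl r))) = ndL B (co2 r) :=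
    hc.t (Sum.inr (Sum.inl r)) trivial
  rw [e1, e2]
  rfl

theorem st3_inj (B : Brd m n h tL tS) (YN : Finset (Nd h tL tS))
    (c : Cho m n h tL tS) (hc : GoodCho B YN c) (r : Rc h tL tS) (κ' : Fin 3) (j j' : Fin 4)
    (hj : j ≠ j') :
    ln κ' ((![c.cT (Sum.inl r), c.cT (Sum.inr (Sum.inl r)), c.cP (Sum.inl r),
      c.cP (Sum.inr r)] : Fin 4 → Cell m) j) ≠
    ln κ' ((![c.cT (Sum.inl r), c.cT (Sum.inr (Sum.inl r)), c.cP (Sum.inl r),
      c.cP (Sum.inr r)] : Fin 4 → Cell m) j') := by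
  have h1 := hc.t12 r κ'
  have h2 := hc.p1 r κ'
  have h3 := hc.p2 r κ'
  have h4 := hc.p34 r κ'
  fin_cases j <;> fin_cases j' <;> first
    | exact absurd rfl hj
    | exact h1
    | exact h1.symm
    | exact h2.1
    | exact h2.1.symm
    | exact h2.2
    | exact h2.2.symm
    | exact h3.1
    | exact h3.1.symm
    | exact h3.2
    | exact h3.2.symm
    | exact h4
    | exact h4.symm

/-- the star counted by `deg U` for a root star -/
def st3_star : Star m n → Star m n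
  | Sum.inl x => Sum.inl x
  | Sum.inr (Sum.inl x) => Sum.inl x
  | Sum.inr (Sum.inr x) => Sum.inr (Sum.inr x)

theorem st3_root_vertex {k : ℕ} (κ : Fin 3) (pi : Equiv.Perm (Fin k)) (q : Fin k → Cell m)
    (sy : Fin k → Fin n) (σ : Star m n) (hσ : σ ∈ rootW κ pi q sy) :
    ∃ v ∈ WS κ pi q sy, st3_star σ ∈ star v := by
  unfold rootW at hσ
  rw [mem_biUnion] at hσ
  obtain ⟨⟨j, κ'⟩, _, hσ⟩ := hσ
  have key : ∃ i : Fin k, rln κ pi q j κ' = ln κ' (q i) := by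
    unfold rln
    by_cases hk : κ' = κ
    · exact ⟨pi j, by rw [if_pos hk]⟩
    · exact ⟨j, by rw [if_neg hk]⟩
  obtain ⟨i, hi⟩ := key
  have hcell : ∃ v ∈ WS κ pi q sy, (Sum.inl (κ', rln κ pi q j κ') : Star m n) ∈ star v := by
    refine ⟨Sum.inl (q i), ?_, ?_⟩
    · unfold WS
      exact mem_union_left _ (mem_image_of_mem _ (mem_univ i))
    · unfold star
      rw [hi]
      exact mem_image.2 ⟨κ', mem_univ _, rfl⟩
  simp only [mem_insert, mem_singleton] at hσ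
  rcases hσ with h | h | h
  · rw [h]; exact hcell
  · rw [h]; exact hcell
  · rw [h]
    refine ⟨Sum.inr (κ', rln κ pi q j κ', sy j), ?_, ?_⟩
    · unfold WS
      exact mem_union_right _ (mem_image.2 ⟨(j, κ'), mem_univ _, rfl⟩)
    · unfold star st3_star
      simp

theorem st3_root_count (B : Brd m n h tL tS) (YN : Finset (Nd h tL tS))
    (c : Cho m n h tL tS) (hc : GoodCho B YN c) (U : Finset (Vt m n))
    (hT : ∀ a, VT YN a → tS' B c a ⊆ U) (hP : ∀ b, pS' B c b ⊆ U)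
    (S : Finset (Rc h tL tS)) (σ : Star m n)
    (hS : ∀ r ∈ S, ∃ v ∈ Wr B c r, σ ∈ star v) : S.card ≤ deg U σ := by
  classical
  choose v hv using hS
  unfold deg
  rw [← Finset.card_attach]
  refine Finset.card_le_card_of_injOn (fun r => v r.1 r.2) ?_ ?_
  · intro r _
    have h1 := hv r.1 r.2
    have h2 := st3_Wr_sub B YN c U hT hP r.1 h1.1
    exact mem_coe.2 (mem_filter.2 ⟨h2, h1.2⟩)
  · intro r _ r' _ hrr
    by_contra hne
    have hne' : r.1 ≠ r'.1 := fun hh => hne (Subtype.ext hh)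
    have hd := st3_Wr_disj B YN c hc r.1 r'.1 hne'
    have h1 := (hv r.1 r.2).1
    have h2 := (hv r'.1 r'.2).1
    have hrr' : v r.1 r.2 = v r'.1 r'.2 := hrr
    rw [← hrr'] at h2
    exact Finset.disjoint_left.1 hd h1 h2

theorem stage3 (hp : Par m n h) (B : Brd m n h tL tS) (YN : Finset (Nd h tL tS))
    (c : Cho m n h tL tS) (hc : GoodCho B YN c) (U : Finset (Vt m n))
    (hU : ∀ σ, deg U σ ≤ 26 * q3 m h) (hT : ∀ a, VT YN a → tS' B c a ⊆ U)
    (hP : ∀ b, pS' B c b ⊆ U) :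
    ∃ U4 : Rc h tL tS → Finset (Vt m n),
      (∀ r, PM (U4 r)) ∧ (∀ r, PM (U4 r ∪ Wr B c r)) ∧ (∀ r, Disjoint (U4 r) U) ∧
      (∀ r r', r ≠ r' → Disjoint (U4 r) (U4 r')) ∧
      (∀ σ, deg (U ∪ univ.biUnion U4) σ ≤ 3000 * q3 m h) := by
  classical
  obtain ⟨pi, hpi⟩ := exists_perm4
  obtain ⟨hh, hm, hq, h1, h2⟩ := st3_num hp
  let Q : Rc h tL tS → Fin 4 → Cell m := fun r =>
    ![c.cT (Sum.inl r), c.cT (Sum.inr (Sum.inl r)), c.cP (Sum.inl r), c.cP (Sum.inr r)]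
  let Y : Rc h tL tS → Fin 4 → Fin n := fun r =>
    ![ndS B (co1 r), ndS B (co2 r), c.yP (Sum.inl r), c.yP (Sum.inr r)]
  have hWS : ∀ r, Wr B c r = WS (ndK (co1 r)) pi (Q r) (Y r) := fun r => st3_WS B YN c hc pi hpi r
  have hitem := fun r : Rc h tL tS => exists_item (le_refl 4) hm hp.n1 (ndK (co1 r)) pi (Q r) (Y r)
    (fun κ' j j' hj => st3_inj B YN c hc r κ' j j' hj)
  choose om vx hi1 hi2 hi3 hi4 hi5 using hitem
  have hstar : ∀ v : Vt m n, (star v).card ≤ 3 := by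
    intro v
    rcases v with q | e
    · unfold star
      exact le_trans card_image_le (by simp)
    · unfold star
      exact le_trans (card_insert_le _ _) (by simp)
  have hroot : ∀ σ : Star m n, (univ.filter (fun r : Rc h tL tS =>
      σ ∈ rootW (ndK (co1 r)) pi (Q r) (Y r))).card ≤ 26 * q3 m h := by
    intro σ
    refine le_trans (st3_root_count B YN c hc U hT hP _ (st3_star σ) ?_) (hU _)
    intro r hr
    rw [mem_filter] at hr
    obtain ⟨v, hv, hs⟩ := st3_root_vertex _ _ _ _ _ hr.2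
    exact ⟨v, by rw [hWS r]; exact hv, hs⟩
  obtain ⟨f, hf1, hf2, hf3, hf4⟩ := greedy (V := Vt m n) (St := Star m n) (I := Rc h tL tS)
    (Om := UW m n 4) star hstar om vx (fun r => rootW (ndK (co1 r)) pi (Q r) (Y r)) 112
    (3000 * q3 m h) (q3 m h) (26 * q3 m h) (26 * q3 m h) U hi1 hroot (fun σ => hU σ)
    (by
      intro r U' hU'
      have h3 := hi4 r (3000 * q3 m h) (st3_numL hp) U' (fun σ => hU' σ)
      convert h3 using 3)
    (by
      intro r S hS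
      have h3 := hi5 r S (st3_numS hp B S.card hS)
      convert h3 using 3
      ext w
      simp only [mem_filter])
    (by omega)
  refine ⟨fun r => vx r (f r), fun r => hi2 r _ (hf1 r), ?_, hf2, hf3, ?_⟩
  · intro r
    rw [hWS r]
    apply hi3 r _ (hf1 r)
    rw [← hWS r]
    exact Finset.disjoint_of_subset_right (st3_Wr_sub B YN c U hT hP r) (hf2 r)
  · intro σ
    exact hf4 σ

end H77.LT
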