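import Pool.Agent.H77.LT.ChoD
import Pool.Agent.H77.LT.TPW
import Pool.Agent.H77.LT.Greedy
import Pool.Agent.H77.LT.UAItem

/-!
# [H77 LT ST4] Stage 4: the absorbers of the pairs (tau, pi) at the same node

`N = 2m+1`, `q3 = N/h^3`, `T = Nat.log 2 N + 2`, `10^9 T^4 ≤ h`, `tL, tS ≤ T`. Items: the valid
pairs `x` (`VP YN x`), `κ` the direction of the node; `tS' x.1 ∪ pS' x.2 = WS κ (swap 0 1) ![q,q']
![s,y]` (`WS_pair`; `ln κ q` is the line of the node by `GoodCho.t`), lines distinct by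
`GoodCho.pt`. `exists_item` with `k = 2`. Apply `greedy` with root stars `rootW ..`, `a = 112`,
`rho = 400 T^2 q3`, `B = q3`, `d0 = 3000 q3`, `L = h q3` (`3000 + 44800 T^2 + 2 ≤ h`).
* `hroot`: at each node there are at most `2 tL tS + 1 ≤ 2 T^2 + 1` tau-uses and `2 T^2` pi-uses
  (for given `(i,j)` one rectangle with the given corner, as `fl` is an involution). The cells of
  the uses are distinct vertices of `U`, where `U` has at most `3000 q3`; but only the sets
  `tS', pS'` matter: let `V1` be their union, with `deg V1 ≤ 26 q3` (hypothesis `hV`). A root star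
  `inl (κ',l)` or `inr (inl (κ',l))`: `l` is the line of `cT x.1` or of `cP x.2`: at most
  `26 q3` tau-uses and `26 q3` pi-uses have such a cell, each in at most `2 T^2 + 1` pairs: at most
  `52 q3 (2 T^2 + 1)`. A root star `inr (inr (κ',s))`: `s` is the symbol of the node, or `yP x.2`.
  `tS' a` contains entries `(κ'', _, s)` for the two `κ'' ≠ κ`, so the number of tau-uses whose node
  has symbol `s` is at most the sum over `κ''` of `deg V1 (inr (inr (κ'',s)))`, `≤ 78 q3`;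
  `pS' b` contains entries of all directions with symbol `yP b`: at most `26 q3` pi-uses.
  Altogether at most `(52 (2T^2+1) + 78 * 2 T^2 + 26 (2T^2+1)) q3 ≤ 400 T^2 q3`.
* `hU`: `4000 h q3 ≤ N` as `q3 ≤ N/h^3`.
* `hS`: `q3 |S| ≤ 336 * (number of pairs)`, number of pairs `≤ |Nd| (2T^2+1) 2T^2`,
  `|Nd| = 3 h^4 2^tL 2^tS`, `|Nd| h^4 ≤ 48 N^2`; `N ≤ 2 q3 h^3`.
-/

open Finset

namespace H77.LT

variable {m n h tL tS : ℕ}

/-- the number of tau-uses at a node -/
private theorem st4_cardT (ν : Nd h tL tS) :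
    (univ.filter (fun a : TU h tL tS => ndT a = ν)).card ≤ 2 * (tL * tS) + 1 := by
  classical
  have hsub : univ.filter (fun a : TU h tL tS => ndT a = ν) ⊆
      ((univ : Finset (Fin tL × Fin tS)).image
          (fun x => (Sum.inl (ν, x) : TU h tL tS))) ∪
        ((univ : Finset (Fin tL × Fin tS)).image
          (fun x => (Sum.inr (Sum.inl ((ν.1, (fl ν.2.1 x.1, fl ν.2.2 x.2)), x)) : TU h tL tS))) ∪
        {Sum.inr (Sum.inr ν)} := by
    intro a ha
    have ha' : ndT a = ν := (Finset.mem_filter.1 ha).2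
    rcases a with r | r | ν'
    · refine Finset.mem_union_left _ (Finset.mem_union_left _ ?_)
      refine Finset.mem_image.2 ⟨r.2, Finset.mem_univ _, ?_⟩
      have h1 : r.1 = ν := ha'
      rw [← h1]
    · refine Finset.mem_union_left _ (Finset.mem_union_right _ ?_)
      refine Finset.mem_image.2 ⟨r.2, Finset.mem_univ _, ?_⟩
      have h1 : (r.1.1, (fl r.1.2.1 r.2.1, fl r.1.2.2 r.2.2)) = ν := ha'
      rw [← h1]
      simp only [fl_fl]
    · refine Finset.mem_union_right _ (Finset.mem_singleton.2 ?_)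
      have h1 : ν' = ν := ha'
      rw [h1]
  refine (Finset.card_le_card hsub).trans ?_
  refine (Finset.card_union_le _ _).trans ?_
  refine Nat.add_le_add ((Finset.card_union_le _ _).trans ?_) (le_of_eq (Finset.card_singleton _))
  have h1 : ((univ : Finset (Fin tL × Fin tS)).image
      (fun x => (Sum.inl (ν, x) : TU h tL tS))).card ≤ tL * tS := by
    refine Finset.card_image_le.trans ?_
    rw [Finset.card_univ, Fintype.card_prod, Fintype.card_fin, Fintype.card_fin]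
  have h2 : ((univ : Finset (Fin tL × Fin tS)).image
      (fun x => (Sum.inr (Sum.inl ((ν.1, (fl ν.2.1 x.1, fl ν.2.2 x.2)), x)) :
        TU h tL tS))).card ≤ tL * tS := by
    refine Finset.card_image_le.trans ?_
    rw [Finset.card_univ, Fintype.card_prod, Fintype.card_fin, Fintype.card_fin]
  omega

/-- the number of pi-uses at a node -/
private theorem st4_cardP (ν : Nd h tL tS) :
    (univ.filter (fun b : PU h tL tS => ndP b = ν)).card ≤ 2 * (tL * tS) := by
  classical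
  have hsub : univ.filter (fun b : PU h tL tS => ndP b = ν) ⊆
      ((univ : Finset (Fin tL × Fin tS)).image
          (fun x => (Sum.inl ((ν.1, (ν.2.1, fl ν.2.2 x.2)), x) : PU h tL tS))) ∪
        ((univ : Finset (Fin tL × Fin tS)).image
          (fun x => (Sum.inr ((ν.1, (fl ν.2.1 x.1, ν.2.2)), x) : PU h tL tS))) := by
    intro b hb
    have hb' : ndP b = ν := (Finset.mem_filter.1 hb).2
    rcases b with r | r
    · refine Finset.mem_union_left _ (Finset.mem_image.2 ⟨r.2, Finset.mem_univ _, ?_⟩)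
      have h1 : (r.1.1, (r.1.2.1, fl r.1.2.2 r.2.2)) = ν := hb'
      rw [← h1]
      simp only [fl_fl]
    · refine Finset.mem_union_right _ (Finset.mem_image.2 ⟨r.2, Finset.mem_univ _, ?_⟩)
      have h1 : (r.1.1, (fl r.1.2.1 r.2.1, r.1.2.2)) = ν := hb'
      rw [← h1]
      simp only [fl_fl]
  refine (Finset.card_le_card hsub).trans ((Finset.card_union_le _ _).trans ?_)
  have h1 : ((univ : Finset (Fin tL × Fin tS)).image
      (fun x => (Sum.inl ((ν.1, (ν.2.1, fl ν.2.2 x.2)), x) : PU h tL tS))).card ≤ tL * tS := by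
    refine Finset.card_image_le.trans ?_
    rw [Finset.card_univ, Fintype.card_prod, Fintype.card_fin, Fintype.card_fin]
  have h2 : ((univ : Finset (Fin tL × Fin tS)).image
      (fun x => (Sum.inr ((ν.1, (fl ν.2.1 x.1, ν.2.2)), x) : PU h tL tS))).card ≤ tL * tS := by
    refine Finset.card_image_le.trans ?_
    rw [Finset.card_univ, Fintype.card_prod, Fintype.card_fin, Fintype.card_fin]
  omega

/-- pairs with first component in `A` -/
private theorem st4_fst [DecidableEq (TU h tL tS)] (A : Finset (TU h tL tS)) :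
    (univ.filter (fun x : TU h tL tS × PU h tL tS => x.1 ∈ A ∧ ndT x.1 = ndP x.2)).card ≤
      2 * (tL * tS) * A.card := by
  classical
  refine Finset.card_le_mul_card_image_of_maps_to (f := Prod.fst)
    (fun x hx => (Finset.mem_filter.1 hx).2.1) _ fun a _ => ?_
  refine le_trans ?_ (st4_cardP (ndT a))
  refine Finset.card_le_card_of_injOn Prod.snd ?_ ?_
  · intro x hx
    have hx1 := Finset.mem_filter.1 (Finset.mem_coe.1 hx)
    have hx2 := (Finset.mem_filter.1 hx1.1).2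
    refine Finset.mem_coe.2 (Finset.mem_filter.2 ⟨Finset.mem_univ _, ?_⟩)
    rw [← hx2.2, hx1.2]
  · intro x hx y hy hxy
    have hx1 := Finset.mem_filter.1 (Finset.mem_coe.1 hx)
    have hy1 := Finset.mem_filter.1 (Finset.mem_coe.1 hy)
    exact Prod.ext (hx1.2.trans hy1.2.symm) hxy

/-- pairs with second component in `A` -/
private theorem st4_snd [DecidableEq (PU h tL tS)] (A : Finset (PU h tL tS)) :
    (univ.filter (fun x : TU h tL tS × PU h tL tS => x.2 ∈ A ∧ ndT x.1 = ndP x.2)).card ≤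
      (2 * (tL * tS) + 1) * A.card := by
  classical
  refine Finset.card_le_mul_card_image_of_maps_to (f := Prod.snd)
    (fun x hx => (Finset.mem_filter.1 hx).2.1) _ fun b _ => ?_
  refine le_trans ?_ (st4_cardT (ndP b))
  refine Finset.card_le_card_of_injOn Prod.fst ?_ ?_
  · intro x hx
    have hx1 := Finset.mem_filter.1 (Finset.mem_coe.1 hx)
    have hx2 := (Finset.mem_filter.1 hx1.1).2
    refine Finset.mem_coe.2 (Finset.mem_filter.2 ⟨Finset.mem_univ _, ?_⟩)
    rw [hx2.2, hx1.2]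
  · intro x hx y hy hxy
    have hx1 := Finset.mem_filter.1 (Finset.mem_coe.1 hx)
    have hy1 := Finset.mem_filter.1 (Finset.mem_coe.1 hy)
    exact Prod.ext hxy (hx1.2.trans hy1.2.symm)

/-- choosing a vertex in each of pairwise disjoint sets -/
private theorem st4_inj {J V : Type} [DecidableEq V] (A : Finset J) (F : Finset V)
    (D : J → Finset V) (v : J → V) (hD : ∀ a ∈ A, ∀ b ∈ A, a ≠ b → Disjoint (D a) (D b))
    (hv : ∀ a ∈ A, v a ∈ D a) (hF : ∀ a ∈ A, v a ∈ F) : A.card ≤ F.card := by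
  classical
  refine Finset.card_le_card_of_injOn v (fun a ha => Finset.mem_coe.2 (hF a (Finset.mem_coe.1 ha))) ?_
  intro a ha b hb hab
  by_contra hne
  have h1 := hD a (Finset.mem_coe.1 ha) b (Finset.mem_coe.1 hb) hne
  refine Finset.disjoint_left.1 h1 (hv a (Finset.mem_coe.1 ha)) ?_
  rw [hab]
  exact hv b (Finset.mem_coe.1 hb)

private theorem st4_cardNd : Fintype.card (Nd h tL tS) ≤ (3 * (h ^ 4 + 1)) * (2 ^ tL * 2 ^ tS) := by
  have h1 : Fintype.card (Nd h tL tS) =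
      Fintype.card (BI h) * (Fintype.card (Fin tL → Bool) * Fintype.card (Fin tS → Bool)) := by
    rw [Fintype.card_prod, Fintype.card_prod]
  rw [h1]
  have h2 : ∀ t : ℕ, Fintype.card (Fin t → Bool) = 2 ^ t := fun t => by
    rw [Fintype.card_fun, Fintype.card_bool, Fintype.card_fin]
  rw [h2, h2]
  refine Nat.mul_le_mul_right _ ?_
  rw [Fintype.card_sigma]
  simp only [Fintype.card_fin]
  rw [Fin.sum_univ_three]
  have e0 : KK h 0 = h ^ 4 - 1 := rfl
  have e1 : KK h 1 = h ^ 4 := rfl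
  have e2 : KK h 2 = h ^ 4 + 1 := rfl
  rw [e0, e1, e2]
  omega

private theorem st4_T2 (B : Brd m n h tL tS) :
    tL * tS ≤ (Nat.log 2 (2 * m + 1) + 2) ^ 2 := by
  rw [pow_two]
  exact Nat.mul_le_mul B.tLle B.tSle

/-- the number of valid pairs -/
private theorem st4_items (B : Brd m n h tL tS) (T : ℕ)
    (hT : T = Nat.log 2 (2 * m + 1) + 2) (YN : Finset (Nd h tL tS))
    [Fintype {x : TU h tL tS × PU h tL tS // VP YN x}] :
    Fintype.card {x : TU h tL tS × PU h tL tS // VP YN x} ≤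
      (3 * (h ^ 4 + 1)) * (2 ^ tL * 2 ^ tS) * (6 * T ^ 4) := by
  classical
  have h1 : Fintype.card {x : TU h tL tS × PU h tL tS // VP YN x} ≤
      (univ.filter (fun x : TU h tL tS × PU h tL tS => x.2 ∈ (univ : Finset (PU h tL tS)) ∧
        ndT x.1 = ndP x.2)).card := by
    rw [← Finset.card_univ]
    refine Finset.card_le_card_of_injOn Subtype.val ?_ (Subtype.val_injective.injOn)
    intro x _
    exact Finset.mem_coe.2 (Finset.mem_filter.2 ⟨Finset.mem_univ _, Finset.mem_univ _, x.2.2⟩)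
  have h2 := st4_snd (univ : Finset (PU h tL tS))
  have h3 : (univ : Finset (PU h tL tS)).card ≤ 2 * (tL * tS) * Fintype.card (Nd h tL tS) := by
    rw [← Finset.card_univ (α := Nd h tL tS)]
    exact Finset.card_le_mul_card_image_of_maps_to (f := ndP) (fun b _ => Finset.mem_univ _) _
      fun ν _ => st4_cardP ν
  have h4 := st4_cardNd (h := h) (tL := tL) (tS := tS)
  have h5 : tL * tS ≤ T ^ 2 := by
    rw [hT]
    exact st4_T2 B
  have hT1 : 1 ≤ T := by omega
  have h6 : 1 ≤ T ^ 2 := Nat.one_le_pow _ _ hT1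
  calc Fintype.card {x : TU h tL tS × PU h tL tS // VP YN x}
      ≤ (2 * (tL * tS) + 1) * (univ : Finset (PU h tL tS)).card := h1.trans h2
    _ ≤ (3 * T ^ 2) * (2 * (tL * tS) * Fintype.card (Nd h tL tS)) :=
        Nat.mul_le_mul (by omega) h3
    _ ≤ (3 * T ^ 2) * (2 * T ^ 2 * ((3 * (h ^ 4 + 1)) * (2 ^ tL * 2 ^ tS))) :=
        Nat.mul_le_mul_left _ (Nat.mul_le_mul (Nat.mul_le_mul_left _ h5) h4)
    _ = (3 * (h ^ 4 + 1)) * (2 ^ tL * 2 ^ tS) * (6 * T ^ 4) := by ring

/-- all numerical facts -/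
private theorem st4_num (hp : Par m n h) (B : Brd m n h tL tS) (T : ℕ)
    (hT : T = Nat.log 2 (2 * m + 1) + 2) :
    1000 ≤ m ∧ 4000 * (h * q3 m h) ≤ 2 * m + 1 ∧
      3000 * q3 m h + 400 * T ^ 2 * q3 m h * 112 + q3 m h + 112 ≤ h * q3 m h ∧
      (∀ S : ℕ, q3 m h * S ≤ 3 * 112 * ((3 * (h ^ 4 + 1)) * (2 ^ tL * 2 ^ tS) * (6 * T ^ 4)) →
        4000 * S ≤ 2 * m + 1) := by
  have hl : 10 ^ 9 * T ^ 4 ≤ h := by
    rw [hT]
    exact hp.hlog
  have hT2 : 2 ≤ T := by omega
  have hT4 : 16 ≤ T ^ 4 := by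
    calc 16 = 2 ^ 4 := by norm_num
      _ ≤ T ^ 4 := Nat.pow_le_pow_left hT2 4
  have hh : 10 ^ 10 ≤ h := by
    calc 10 ^ 10 ≤ 10 ^ 9 * 16 := by norm_num
      _ ≤ 10 ^ 9 * T ^ 4 := Nat.mul_le_mul_left _ hT4
      _ ≤ h := hl
  have hh1 : 1 ≤ h := le_trans (by norm_num) hh
  have hN := hp.hN
  have hhp : 0 < h ^ 3 := Nat.pow_pos (by omega)
  have h17 : h ^ 20 = h ^ 17 * h ^ 3 := by ring
  have h17' : 10 ^ 10 ≤ h ^ 17 := hh.trans (Nat.le_self_pow (by norm_num) h)
  have hNm : 10 ^ 10 * h ^ 3 ≤ 2 * m + 1 := by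
    refine le_trans ?_ hN
    rw [h17]
    exact Nat.mul_le_mul_right _ h17'
  have hq1 : q3 m h * h ^ 3 ≤ 2 * m + 1 := Nat.div_mul_le_self _ _
  have hq2 : 10 ^ 10 ≤ q3 m h := (Nat.le_div_iff_mul_le hhp).2 hNm
  have hq3 : 2 * m + 1 < (q3 m h + 1) * h ^ 3 := by
    have e1 := Nat.div_add_mod (2 * m + 1) (h ^ 3)
    have e2 := Nat.mod_lt (2 * m + 1) hhp
    have e3 : (q3 m h + 1) * h ^ 3 = h ^ 3 * ((2 * m + 1) / h ^ 3) + h ^ 3 := by
      unfold q3
      ring
    omega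
  have hq4 : 2 * m + 1 ≤ 2 * (q3 m h * h ^ 3) := by
    have e1 : (q3 m h + 1) * h ^ 3 = q3 m h * h ^ 3 + h ^ 3 := by ring
    have e2 : h ^ 3 ≤ q3 m h * h ^ 3 := Nat.le_mul_of_pos_left _ (by omega)
    omega
  refine ⟨?_, ?_, ?_, ?_⟩
  · have e1 : 10 ^ 10 * 1 ≤ 10 ^ 10 * h ^ 3 := Nat.mul_le_mul_left _ hhp
    omega
  · refine le_trans ?_ hq1
    have e1 : 4000 * (h * q3 m h) = q3 m h * (h * 4000) := by ring
    rw [e1]
    refine Nat.mul_le_mul_left _ ?_
    have e2 : h ^ 3 = h * h ^ 2 := by ring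
    rw [e2]
    refine Nat.mul_le_mul_left _ ?_
    have e3 : h ≤ h ^ 2 := Nat.le_self_pow (by norm_num) h
    omega
  · have e1 : 3000 + 400 * T ^ 2 * 112 + 2 ≤ h := by
      refine le_trans ?_ hl
      have e2 : T ^ 2 ≤ T ^ 4 := Nat.pow_le_pow_right (by omega) (by norm_num)
      have e3 : 400 * T ^ 2 * 112 = 44800 * T ^ 2 := by ring
      rw [e3]
      omega
    calc 3000 * q3 m h + 400 * T ^ 2 * q3 m h * 112 + q3 m h + 112
        ≤ 3000 * q3 m h + 400 * T ^ 2 * q3 m h * 112 + q3 m h + q3 m h := by omega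
      _ = (3000 + 400 * T ^ 2 * 112 + 2) * q3 m h := by ring
      _ ≤ h * q3 m h := Nat.mul_le_mul_right _ e1
  · intro S hS
    have hszL := B.szL
    have hszS := B.szS
    set N := 2 * m + 1 with hNdef
    set Q := q3 m h with hQdef
    have hNpos : 0 < N := by omega
    have hTp : 0 < T ^ 4 := by omega
    -- h^4 + 1 ≤ 1.01 h^4
    have e1 : 100 * (h ^ 4 + 1) ≤ 101 * h ^ 4 := by
      have : h ≤ h ^ 4 := Nat.le_self_pow (by norm_num) h
      omega
    have e2 : (2 ^ tL * 2 ^ tS) * (h ^ 4 * h ^ 4) ≤ 16 * N ^ 2 := by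
      calc (2 ^ tL * 2 ^ tS) * (h ^ 4 * h ^ 4) = (2 ^ tL * h ^ 4) * (2 ^ tS * h ^ 4) := by ring
        _ ≤ (4 * N) * (4 * N) := Nat.mul_le_mul hszL hszS
        _ = 16 * N ^ 2 := by ring
    -- 100 * h^4 * Q S ≤ ...
    have e3 : (100 * h ^ 4) * (Q * S) ≤ 101 * 336 * 3 * 16 * 6 * (N ^ 2 * T ^ 4) := by
      calc (100 * h ^ 4) * (Q * S)
          ≤ (100 * h ^ 4) * (3 * 112 * ((3 * (h ^ 4 + 1)) * (2 ^ tL * 2 ^ tS) * (6 * T ^ 4))) :=
            Nat.mul_le_mul_left _ hS
        _ = (100 * (h ^ 4 + 1)) * ((2 ^ tL * 2 ^ tS) * h ^ 4 * (336 * 3 * 6 * T ^ 4)) := by ring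
        _ ≤ (101 * h ^ 4) * ((2 ^ tL * 2 ^ tS) * h ^ 4 * (336 * 3 * 6 * T ^ 4)) :=
            Nat.mul_le_mul_right _ e1
        _ = ((2 ^ tL * 2 ^ tS) * (h ^ 4 * h ^ 4)) * (101 * 336 * 3 * 6 * T ^ 4) := by ring
        _ ≤ (16 * N ^ 2) * (101 * 336 * 3 * 6 * T ^ 4) := Nat.mul_le_mul_right _ e2
        _ = 101 * 336 * 3 * 16 * 6 * (N ^ 2 * T ^ 4) := by ring
    -- N h S ≤ 2 Q h^4 S
    have e4 : (100 * (N * h)) * S ≤ 2 * (101 * 336 * 3 * 16 * 6 * (N ^ 2 * T ^ 4)) := by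
      calc (100 * (N * h)) * S = N * (100 * h * S) := by ring
        _ ≤ (2 * (Q * h ^ 3)) * (100 * h * S) := Nat.mul_le_mul_right _ hq4
        _ = 2 * ((100 * h ^ 4) * (Q * S)) := by ring
        _ ≤ 2 * (101 * 336 * 3 * 16 * 6 * (N ^ 2 * T ^ 4)) := Nat.mul_le_mul_left _ e3
    have e5 : (100 * (N * h)) * (4000 * S) ≤ (100 * (N * h)) * N := by
      calc (100 * (N * h)) * (4000 * S) = 4000 * ((100 * (N * h)) * S) := by ring
        _ ≤ 4000 * (2 * (101 * 336 * 3 * 16 * 6 * (N ^ 2 * T ^ 4))) := Nat.mul_le_mul_left _ e4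
        _ = (8000 * 101 * 336 * 3 * 16 * 6) * T ^ 4 * N ^ 2 := by ring
        _ ≤ (100 * (10 ^ 9 * T ^ 4)) * N ^ 2 := by
            refine Nat.mul_le_mul_right _ ?_
            have : 8000 * 101 * 336 * 3 * 16 * 6 ≤ 100 * 10 ^ 9 := by norm_num
            calc (8000 * 101 * 336 * 3 * 16 * 6) * T ^ 4 ≤ (100 * 10 ^ 9) * T ^ 4 :=
                  Nat.mul_le_mul_right _ this
              _ = 100 * (10 ^ 9 * T ^ 4) := by ring
        _ ≤ (100 * h) * N ^ 2 := Nat.mul_le_mul_right _ (Nat.mul_le_mul_left _ hl)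
        _ = (100 * (N * h)) * N := by ring
    have e6 : 0 < 100 * (N * h) := by positivity
    exact Nat.le_of_mul_le_mul_left e5 e6

/-- vertices of the released sets -/
private theorem st4_tcell (B : Brd m n h tL tS) (c : Cho m n h tL tS) (a : TU h tL tS) :
    (Sum.inl (c.cT a) : Vt m n) ∈ tS' B c a := by
  unfold tS'
  rw [tau_eq]
  exact Finset.mem_insert_self _ _

private theorem st4_tent (B : Brd m n h tL tS) (c : Cho m n h tL tS) (a : TU h tL tS) (κ : Fin 3)
    (hκ : κ ≠ ndK (ndT a)) :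
    (Sum.inr (κ, ln κ (c.cT a), ndS B (ndT a)) : Vt m n) ∈ tS' B c a := by
  unfold tS'
  rw [tau_eq]
  refine Finset.mem_insert_of_mem (Finset.mem_image.2 ⟨κ, ?_, rfl⟩)
  exact Finset.mem_filter.2 ⟨Finset.mem_univ _, hκ⟩

private theorem st4_pcell (B : Brd m n h tL tS) (c : Cho m n h tL tS) (b : PU h tL tS) :
    (Sum.inl (c.cP b) : Vt m n) ∈ pS' B c b := by
  unfold pS' pis
  exact Finset.mem_union_left _ (Finset.mem_insert_self _ _)

private theorem st4_pent (B : Brd m n h tL tS) (c : Cho m n h tL tS) (b : PU h tL tS) (κ : Fin 3) :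
    ∃ l : Fin m, (Sum.inr (κ, l, c.yP b) : Vt m n) ∈ pS' B c b := by
  by_cases hκ : κ = ndK (ndP b)
  · refine ⟨ndL B (ndP b), ?_⟩
    unfold pS' pis
    subst hκ
    refine Finset.mem_union_left _ (Finset.mem_insert_of_mem (Finset.mem_insert_of_mem ?_))
    exact Finset.mem_singleton_self _
  · refine ⟨ln κ (c.cP b), ?_⟩
    unfold pS' pis
    refine Finset.mem_union_right _ (Finset.mem_image.2 ⟨κ, ?_, rfl⟩)
    exact Finset.mem_filter.2 ⟨Finset.mem_univ _, hκ⟩

/-- the data of an item -/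
private def st4q (c : Cho m n h tL tS) (x : TU h tL tS × PU h tL tS) : Fin 2 → Cell m :=
  ![c.cT x.1, c.cP x.2]

private def st4s (B : Brd m n h tL tS) (c : Cho m n h tL tS) (x : TU h tL tS × PU h tL tS) :
    Fin 2 → Fin n :=
  ![ndS B (ndT x.1), c.yP x.2]

private theorem st4_ws (B : Brd m n h tL tS) (YN : Finset (Nd h tL tS))
    (c : Cho m n h tL tS) (hc : GoodCho B YN c) (x : TU h tL tS × PU h tL tS) (hx : VP YN x) :
    tS' B c x.1 ∪ pS' B c x.2 =
      WS (ndK (ndT x.1)) (Equiv.swap 0 1) (st4q c x) (st4s B c x) := by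
  have h1 := hc.t x.1 hx.1
  unfold st4q st4s
  rw [← WS_pair]
  unfold tS' pS'
  rw [← hx.2, ← h1]

/-- root stars of an item -/
private theorem st4_root (κ : Fin 3) (B : Brd m n h tL tS) (c : Cho m n h tL tS)
    (x : TU h tL tS × PU h tL tS) (σ : Star m n)
    (hσ : σ ∈ rootW κ (Equiv.swap 0 1) (st4q c x) (st4s B c x)) :
    (∃ κ' l, (σ = Sum.inl (κ', l) ∨ σ = Sum.inr (Sum.inl (κ', l))) ∧
      (ln κ' (c.cT x.1) = l ∨ ln κ' (c.cP x.2) = l)) ∨
    (∃ κ' s, σ = Sum.inr (Sum.inr (κ', s)) ∧ (ndS B (ndT x.1) = s ∨ c.yP x.2 = s)) := by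
  unfold rootW at hσ
  obtain ⟨e, _, he⟩ := Finset.mem_biUnion.1 hσ
  have hline : ∀ (j : Fin 2) (κ' : Fin 3), ln κ' (c.cT x.1) = rln κ (Equiv.swap 0 1) (st4q c x) j κ' ∨
      ln κ' (c.cP x.2) = rln κ (Equiv.swap 0 1) (st4q c x) j κ' := by
    intro j κ'
    have hj : ∀ j : Fin 2, ln κ' (c.cT x.1) = ln κ' (st4q c x j) ∨
        ln κ' (c.cP x.2) = ln κ' (st4q c x j) := by
      intro j
      fin_cases j
      · exact Or.inl rfl
      · exact Or.inr rfl
    unfold rln
    split_ifs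
    · exact hj _
    · exact hj _
  have hsym : ∀ j : Fin 2, ndS B (ndT x.1) = st4s B c x j ∨ c.yP x.2 = st4s B c x j := by
    intro j
    fin_cases j
    · exact Or.inl rfl
    · exact Or.inr rfl
  simp only [Finset.mem_insert, Finset.mem_singleton] at he
  rcases he with he | he | he
  · exact Or.inl ⟨e.2, _, Or.inl he, hline e.1 e.2⟩
  · exact Or.inl ⟨e.2, _, Or.inr he, hline e.1 e.2⟩
  · exact Or.inr ⟨e.2, _, he, hsym e.1⟩

/-- tau-uses with a cell on a line -/
private theorem st4_cntT (B : Brd m n h tL tS) (YN : Finset (Nd h tL tS))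
    (c : Cho m n h tL tS) (hc : GoodCho B YN c) (V1 : Finset (Vt m n))
    (hV : ∀ σ, deg V1 σ ≤ 26 * q3 m h) (hT : ∀ a, VT YN a → tS' B c a ⊆ V1)
    (A : Finset (TU h tL tS)) (hA : ∀ a ∈ A, VT YN a) (κ' : Fin 3) (l : Fin m)
    (hl : ∀ a ∈ A, ln κ' (c.cT a) = l) : A.card ≤ 26 * q3 m h := by
  classical
  refine le_trans ?_ (hV (Sum.inl (κ', l)))
  unfold deg
  refine st4_inj A _ (tS' B c) (fun a => Sum.inl (c.cT a)) ?_ ?_ ?_
  · exact fun a ha b hb hab => hc.dT a b (hA a ha) (hA b hb) hab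
  · exact fun a _ => st4_tcell B c a
  · intro a ha
    refine Finset.mem_filter.2 ⟨hT a (hA a ha) (st4_tcell B c a), ?_⟩
    rw [mem_star_inl]
    exact ⟨κ', by rw [hl a ha]⟩

/-- pi-uses with a cell on a line -/
private theorem st4_cntP (B : Brd m n h tL tS) (YN : Finset (Nd h tL tS))
    (c : Cho m n h tL tS) (hc : GoodCho B YN c) (V1 : Finset (Vt m n))
    (hV : ∀ σ, deg V1 σ ≤ 26 * q3 m h) (hP : ∀ b, pS' B c b ⊆ V1)
    (A : Finset (PU h tL tS)) (κ' : Fin 3) (l : Fin m)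
    (hl : ∀ b ∈ A, ln κ' (c.cP b) = l) : A.card ≤ 26 * q3 m h := by
  classical
  refine le_trans ?_ (hV (Sum.inl (κ', l)))
  unfold deg
  refine st4_inj A _ (pS' B c) (fun b => Sum.inl (c.cP b)) ?_ ?_ ?_
  · exact fun a _ b _ hab => hc.dP a b hab
  · exact fun b _ => st4_pcell B c b
  · intro b hb
    refine Finset.mem_filter.2 ⟨hP b (st4_pcell B c b), ?_⟩
    rw [mem_star_inl]
    exact ⟨κ', by rw [hl b hb]⟩

private theorem st4_dir (κ : Fin 3) : κ + 1 ≠ κ := by
  revert κ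
  decide

/-- tau-uses whose node has a given symbol -/
private theorem st4_symT (B : Brd m n h tL tS) (YN : Finset (Nd h tL tS))
    (c : Cho m n h tL tS) (hc : GoodCho B YN c) (V1 : Finset (Vt m n))
    (hV : ∀ σ, deg V1 σ ≤ 26 * q3 m h) (hT : ∀ a, VT YN a → tS' B c a ⊆ V1)
    (A : Finset (TU h tL tS)) (hA : ∀ a ∈ A, VT YN a) (s : Fin n)
    (hs : ∀ a ∈ A, ndS B (ndT a) = s) : A.card ≤ 78 * q3 m h := by
  classical
  have h1 : A.card ≤ ((univ : Finset (Fin 3)).biUnion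
      (fun κ => V1.filter (fun v => (Sum.inr (Sum.inr (κ, s)) : Star m n) ∈ star v))).card := by
    refine st4_inj A _ (tS' B c)
      (fun a => Sum.inr (ndK (ndT a) + 1, ln (ndK (ndT a) + 1) (c.cT a), ndS B (ndT a))) ?_ ?_ ?_
    · exact fun a ha b hb hab => hc.dT a b (hA a ha) (hA b hb) hab
    · exact fun a _ => st4_tent B c a _ (st4_dir _)
    · intro a ha
      refine Finset.mem_biUnion.2 ⟨ndK (ndT a) + 1, Finset.mem_univ _, Finset.mem_filter.2 ⟨?_, ?_⟩⟩
      · exact hT a (hA a ha) (st4_tent B c a _ (st4_dir _))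
      · rw [mem_star_inr]
        right
        rw [hs a ha]
  refine h1.trans (Finset.card_biUnion_le.trans ?_)
  rw [Fin.sum_univ_three]
  have e0 := hV (Sum.inr (Sum.inr (0, s)))
  have e1 := hV (Sum.inr (Sum.inr (1, s)))
  have e2 := hV (Sum.inr (Sum.inr (2, s)))
  unfold deg at e0 e1 e2
  omega

/-- pi-uses with a given free symbol -/
private theorem st4_symP (B : Brd m n h tL tS) (YN : Finset (Nd h tL tS))
    (c : Cho m n h tL tS) (hc : GoodCho B YN c) (V1 : Finset (Vt m n))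
    (hV : ∀ σ, deg V1 σ ≤ 26 * q3 m h) (hP : ∀ b, pS' B c b ⊆ V1)
    (A : Finset (PU h tL tS)) (κ' : Fin 3) (s : Fin n)
    (hs : ∀ b ∈ A, c.yP b = s) : A.card ≤ 26 * q3 m h := by
  classical
  choose lb hlb using fun b => st4_pent B c b κ'
  refine le_trans ?_ (hV (Sum.inr (Sum.inr (κ', s))))
  unfold deg
  refine st4_inj A _ (pS' B c) (fun b => Sum.inr (κ', lb b, c.yP b)) ?_ ?_ ?_
  · exact fun a _ b _ hab => hc.dP a b hab
  · exact fun b _ => hlb b
  · intro b hb
    refine Finset.mem_filter.2 ⟨hP b (hlb b), ?_⟩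
    rw [mem_star_inr]
    right
    rw [hs b hb]

/-- items with a root star satisfying a property of the first or of the second use -/
private theorem st4_cnt (YN : Finset (Nd h tL tS))
    [Fintype {x : TU h tL tS × PU h tL tS // VP YN x}]
    (I : Finset {x : TU h tL tS × PU h tL tS // VP YN x})
    (pT : TU h tL tS → Prop) (pP : PU h tL tS → Prop) (X Y : ℕ)
    (hX : ∀ A : Finset (TU h tL tS), (∀ a ∈ A, VT YN a) → (∀ a ∈ A, pT a) → A.card ≤ X)
    (hY : ∀ A : Finset (PU h tL tS), (∀ b ∈ A, pP b) → A.card ≤ Y)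
    (hI : ∀ i ∈ I, pT i.1.1 ∨ pP i.1.2) :
    I.card ≤ 2 * (tL * tS) * X + (2 * (tL * tS) + 1) * Y := by
  classical
  set A1 : Finset (TU h tL tS) := univ.filter (fun a => VT YN a ∧ pT a) with hA1
  set A2 : Finset (PU h tL tS) := univ.filter (fun b => pP b) with hA2
  have h1 : A1.card ≤ X := hX A1 (fun a ha => (Finset.mem_filter.1 ha).2.1)
    (fun a ha => (Finset.mem_filter.1 ha).2.2)
  have h2 : A2.card ≤ Y := hY A2 (fun b hb => (Finset.mem_filter.1 hb).2)
  have h3 : I.card ≤ ((univ.filter (fun x : TU h tL tS × PU h tL tS => x.1 ∈ A1 ∧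
      ndT x.1 = ndP x.2)) ∪ (univ.filter (fun x : TU h tL tS × PU h tL tS => x.2 ∈ A2 ∧
      ndT x.1 = ndP x.2))).card := by
    refine Finset.card_le_card_of_injOn Subtype.val ?_ (Subtype.val_injective.injOn)
    intro x hx
    refine Finset.mem_coe.2 ?_
    rcases hI x (Finset.mem_coe.1 hx) with h | h
    · refine Finset.mem_union_left _ (Finset.mem_filter.2 ⟨Finset.mem_univ _, ?_, x.2.2⟩)
      exact Finset.mem_filter.2 ⟨Finset.mem_univ _, x.2.1, h⟩
    · refine Finset.mem_union_right _ (Finset.mem_filter.2 ⟨Finset.mem_univ _, ?_, x.2.2⟩)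
      exact Finset.mem_filter.2 ⟨Finset.mem_univ _, h⟩
  refine h3.trans ((Finset.card_union_le _ _).trans (Nat.add_le_add ?_ ?_))
  · exact (st4_fst A1).trans (Nat.mul_le_mul_left _ h1)
  · exact (st4_snd A2).trans (Nat.mul_le_mul_left _ h2)

private theorem st4_mf {α : Type} (p : α → Prop) (inst : DecidablePred p) (s : Finset α) (a : α)
    (h : a ∈ @Finset.filter α p inst s) : a ∈ s ∧ p a := Finset.mem_filter.1 h

theorem stage4 (hp : Par m n h) (B : Brd m n h tL tS) (YN : Finset (Nd h tL tS))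
    (c : Cho m n h tL tS) (hc : GoodCho B YN c) (V1 U : Finset (Vt m n)) (hVU : V1 ⊆ U)
    (hV : ∀ σ, deg V1 σ ≤ 26 * q3 m h)
    (hU : ∀ σ, deg U σ ≤ 3000 * q3 m h) (hT : ∀ a, VT YN a → tS' B c a ⊆ V1)
    (hP : ∀ b, pS' B c b ⊆ V1) :
    ∃ U2 : TU h tL tS × PU h tL tS → Finset (Vt m n),
      (∀ x, VP YN x → PM (U2 x)) ∧
      (∀ x, VP YN x → PM (U2 x ∪ (tS' B c x.1 ∪ pS' B c x.2))) ∧
      (∀ x, VP YN x → Disjoint (U2 x) U) ∧
      (∀ x x', VP YN x → VP YN x' → x ≠ x' → Disjoint (U2 x) (U2 x')) ∧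
      (∀ x, ¬ VP YN x → U2 x = ∅) ∧
      (∀ σ, deg (U ∪ univ.biUnion U2) σ ≤ h * q3 m h) := by
  classical
  obtain ⟨T, hTd⟩ : ∃ T, T = Nat.log 2 (2 * m + 1) + 2 := ⟨_, rfl⟩
  obtain ⟨hm, hN1, hN2, hN3⟩ := st4_num hp B T hTd
  have hTT : tL * tS ≤ T ^ 2 := by
    rw [hTd]
    exact st4_T2 B
  have hT1 : 1 ≤ T ^ 2 := Nat.one_le_pow _ _ (by omega)
  -- the items
  have hitem : ∀ x : {x : TU h tL tS × PU h tL tS // VP YN x},
      ∃ (om : Finset (UW m n 2)) (vx : UW m n 2 → Finset (Vt m n)),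
      (∀ w ∈ om, (vx w).card ≤ 112) ∧ (∀ w ∈ om, PM (vx w)) ∧
      (∀ w ∈ om, Disjoint (vx w) (tS' B c x.1.1 ∪ pS' B c x.1.2) →
        PM (vx w ∪ (tS' B c x.1.1 ∪ pS' B c x.1.2))) ∧
      (∀ L : ℕ, 4000 * L ≤ 2 * m + 1 → ∀ U : Finset (Vt m n), (∀ σ, deg U σ ≤ L) →
        2 * (om.filter (fun w => ¬ Disjoint (vx w) U)).card < om.card) ∧
      (∀ S : Finset (Star m n), 4000 * S.card ≤ 2 * m + 1 → ∀ F : Finset (UW m n 2),
        (∀ w ∈ F, w ∈ om ∧ ∃ v ∈ vx w, ∃ σ ∈ star v, σ ∈ S ∧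
          σ ∉ rootW (ndK (ndT x.1.1)) (Equiv.swap 0 1) (st4q c x.1) (st4s B c x.1)) →
        2 * F.card ≤ om.card) := by
    intro x
    have hinj : ∀ κ' (j j' : Fin 2), j ≠ j' → ln κ' (st4q c x.1 j) ≠ ln κ' (st4q c x.1 j') := by
      intro κ' j j' hjj
      have h1 := hc.pt x.1.1 x.1.2 x.2.1 x.2.2 κ'
      have h0 : st4q c x.1 0 = c.cT x.1.1 := rfl
      have h2 : st4q c x.1 1 = c.cP x.1.2 := rfl
      fin_cases j <;> fin_cases j'
      · exact absurd rfl hjj
      · exact fun e => h1 (by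
          have e' : ln κ' (st4q c x.1 0) = ln κ' (st4q c x.1 1) := e
          rw [h0, h2] at e'
          exact e'.symm)
      · exact fun e => h1 (by
          have e' : ln κ' (st4q c x.1 1) = ln κ' (st4q c x.1 0) := e
          rw [h0, h2] at e'
          exact e')
      · exact absurd rfl hjj
    obtain ⟨om, vx, e1, e2, e3, e4, e5⟩ := exists_item (k := 2) (by norm_num) hm hp.n1
      (ndK (ndT x.1.1)) (Equiv.swap 0 1) (st4q c x.1) (st4s B c x.1) hinj
    refine ⟨om, vx, e1, e2, ?_, e4, ?_⟩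
    · intro w hw hd
      rw [st4_ws B YN c hc x.1 x.2] at hd ⊢
      exact e3 w hw hd
    · intro S hS F hF
      refine le_trans (Nat.mul_le_mul_left 2 (Finset.card_le_card ?_)) (e5 S hS)
      intro w hw
      rw [Finset.mem_filter]
      exact hF w hw
  choose om vx hi1 hi2 hi3 hi4 hi5 using hitem
  have hroot : ∀ σ : Star m n, (univ.filter (fun i : {x : TU h tL tS × PU h tL tS // VP YN x} =>
      σ ∈ rootW (ndK (ndT i.1.1)) (Equiv.swap 0 1) (st4q c i.1) (st4s B c i.1))).card ≤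
        400 * T ^ 2 * q3 m h := by
    intro σ
    have hmain : ∀ (X Y : ℕ), X ≤ 78 * q3 m h → Y ≤ 26 * q3 m h →
        2 * (tL * tS) * X + (2 * (tL * tS) + 1) * Y ≤ 400 * T ^ 2 * q3 m h := by
      intro X Y hX hY
      calc 2 * (tL * tS) * X + (2 * (tL * tS) + 1) * Y
          ≤ (2 * T ^ 2) * (78 * q3 m h) + (3 * T ^ 2) * (26 * q3 m h) := by
            refine Nat.add_le_add (Nat.mul_le_mul (by omega) hX) (Nat.mul_le_mul (by omega) hY)
        _ = 234 * T ^ 2 * q3 m h := by ring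
        _ ≤ 400 * T ^ 2 * q3 m h :=
            Nat.mul_le_mul_right _ (Nat.mul_le_mul_right _ (by norm_num))
    rcases σ with ⟨κ', l⟩ | ⟨κ', l⟩ | ⟨κ', s⟩
    · refine le_trans (st4_cnt YN _ (fun a => ln κ' (c.cT a) = l) (fun b => ln κ' (c.cP b) = l)
        (26 * q3 m h) (26 * q3 m h) ?_ ?_ ?_) (hmain _ _ (by omega) le_rfl)
      · exact fun A hA hl => st4_cntT B YN c hc V1 hV hT A hA κ' l hl
      · exact fun A hl => st4_cntP B YN c hc V1 hV hP A κ' l hl
      · intro i hi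
        rcases st4_root _ B c i.1 _ (Finset.mem_filter.1 hi).2 with
          ⟨κ2, l2, h2, h3⟩ | ⟨κ2, s2, h2, h3⟩
        · rcases h2 with h2 | h2
          · have h4 : (κ', l) = (κ2, l2) := Sum.inl.inj h2
            obtain ⟨rfl, rfl⟩ := Prod.mk.inj h4
            exact h3
          · cases h2
        · cases h2
    · refine le_trans (st4_cnt YN _ (fun a => ln κ' (c.cT a) = l) (fun b => ln κ' (c.cP b) = l)
        (26 * q3 m h) (26 * q3 m h) ?_ ?_ ?_) (hmain _ _ (by omega) le_rfl)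
      · exact fun A hA hl => st4_cntT B YN c hc V1 hV hT A hA κ' l hl
      · exact fun A hl => st4_cntP B YN c hc V1 hV hP A κ' l hl
      · intro i hi
        rcases st4_root _ B c i.1 _ (Finset.mem_filter.1 hi).2 with
          ⟨κ2, l2, h2, h3⟩ | ⟨κ2, s2, h2, h3⟩
        · rcases h2 with h2 | h2
          · cases h2
          · have h4 : (κ', l) = (κ2, l2) := Sum.inl.inj (Sum.inr.inj h2)
            obtain ⟨rfl, rfl⟩ := Prod.mk.inj h4
            exact h3
        · have h4 := Sum.inr.inj h2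
          cases h4
    · refine le_trans (st4_cnt YN _ (fun a => ndS B (ndT a) = s) (fun b => c.yP b = s)
        (78 * q3 m h) (26 * q3 m h) ?_ ?_ ?_) (hmain _ _ le_rfl le_rfl)
      · exact fun A hA hs => st4_symT B YN c hc V1 hV hT A hA s hs
      · exact fun A hs => st4_symP B YN c hc V1 hV hP A κ' s hs
      · intro i hi
        rcases st4_root _ B c i.1 _ (Finset.mem_filter.1 hi).2 with
          ⟨κ2, l2, h2, h3⟩ | ⟨κ2, s2, h2, h3⟩
        · rcases h2 with h2 | h2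
          · cases h2
          · have h4 := Sum.inr.inj h2
            cases h4
        · have h4 : (κ', s) = (κ2, s2) := Sum.inr.inj (Sum.inr.inj h2)
          obtain ⟨rfl, rfl⟩ := Prod.mk.inj h4
          exact h3
  have hcardI := st4_items B T hTd YN
  obtain ⟨f, hf1, hf2, hf3, hf4⟩ := greedy (V := Vt m n) (St := Star m n)
    (I := {x : TU h tL tS × PU h tL tS // VP YN x}) (Om := UW m n 2) star card_star om vx
    (fun i => rootW (ndK (ndT i.1.1)) (Equiv.swap 0 1) (st4q c i.1) (st4s B c i.1))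
    112 (h * q3 m h) (q3 m h) (400 * T ^ 2 * q3 m h) (3000 * q3 m h) U
    (fun i w hw => hi1 i w hw) hroot (fun σ => hU σ)
    (fun i W hW => hi4 i (h * q3 m h) hN1 W hW)
    (fun i S hS => hi5 i S (hN3 S.card (hS.trans (Nat.mul_le_mul_left _ hcardI))) _
      (fun w hw => st4_mf _ _ _ w hw))
    hN2
  refine ⟨fun x => if hx : VP YN x then vx ⟨x, hx⟩ (f ⟨x, hx⟩) else ∅, ?_, ?_, ?_, ?_, ?_, ?_⟩
  · intro x hx
    simp only [dif_pos hx]
    exact hi2 _ _ (hf1 _)
  · intro x hx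
    simp only [dif_pos hx]
    refine hi3 ⟨x, hx⟩ _ (hf1 _) ?_
    refine (hf2 ⟨x, hx⟩).mono_right ?_
    exact Finset.union_subset ((hT x.1 hx.1).trans hVU) ((hP x.2).trans hVU)
  · intro x hx
    simp only [dif_pos hx]
    exact hf2 _
  · intro x x' hx hx' hne
    simp only [dif_pos hx, dif_pos hx']
    exact hf3 _ _ (fun e => hne (congrArg Subtype.val e))
  · intro x hx
    simp only [dif_neg hx]
  · intro σ
    refine le_trans ?_ (hf4 σ)
    refine Finset.card_le_card (Finset.filter_subset_filter _ ?_)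
    refine Finset.union_subset_union_right ?_
    refine Finset.biUnion_subset.2 fun x _ => ?_
    by_cases hx : VP YN x
    · simp only [dif_pos hx]
      exact Finset.subset_biUnion_of_mem
        (fun i : {x : TU h tL tS × PU h tL tS // VP YN x} => vx i (f i))
        (Finset.mem_univ (⟨x, hx⟩ : {x : TU h tL tS × PU h tL tS // VP YN x}))
    · simp only [dif_neg hx]
      exact Finset.empty_subset _

end H77.LT
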