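import Pool.Agent.H77.LT.BrdEx
import Pool.Agent.H77.LT.St0
import Pool.Agent.H77.LT.St1
import Pool.Agent.H77.LT.St2
import Pool.Agent.H77.LT.St3
import Pool.Agent.H77.LT.St4

/-!
# [H77 LT STALL] All stages together: existence of the absorber data

Proof. Apply `stage0` with `U = U0`, `stage1` with `U = U0 ∪ (tau of stage 0)`, `stage2` with `U` =
everything so far and `Av b` = the cells of all valid tau-uses at the node `ndP b` (at most
`2 tL tS + 1` of them) together with the two cells `c1 r, c2 r` of the rectangle of `b` (at most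
`2 T^2 + 3 ≤ h` cells, `T = Nat.log 2 (2m+1) + 2`, `10^9 T^4 ≤ h`). Put together `Cho`:
`cT (inl r) = c1 r`, `cT (inr (inl r)) = c2 r`, `cT (inr (inr ν)) = c ν`. All fields of `GoodCho`
follow from the outputs (disjointness inside a stage; later stages avoid the earlier ones). Then
`stage3` with `U` = everything (`V1 = U` has degree at most `26 q3`), `stage4` with this `V1` and
`U ∪ U4`. The final bound on the degrees is that of stage 4 (all vertices of the data and `U0` are in
its union).
-/

open Finset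

namespace H77.LT

variable {m n h tL tS : ℕ}

/-- the rectangle of a pi-use -/
private def stAll_rc : PU h tL tS → Rc h tL tS
  | Sum.inl r => r
  | Sum.inr r => r

private def stAll_cT (c1 c2 : Rc h tL tS → Cell m) (c0 : Nd h tL tS → Cell m) :
    TU h tL tS → Cell m
  | Sum.inl r => c1 r
  | Sum.inr (Sum.inl r) => c2 r
  | Sum.inr (Sum.inr ν) => c0 ν

/-- the number of tau-uses at a node -/
theorem stAll_card (ν : Nd h tL tS) :
    (univ.filter (fun a : TU h tL tS => ndT a = ν)).card ≤ 2 * (tL * tS) + 1 := by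
  classical
  have hsub : univ.filter (fun a : TU h tL tS => ndT a = ν) ⊆
      ((univ : Finset (Fin tL × Fin tS)).image
          (fun x => (Sum.inl (ν, x) : TU h tL tS))) ∪
        ((univ : Finset (Fin tL × Fin tS)).image
          (fun x => (Sum.inr (Sum.inl ((ν.1, (fl ν.2.1 x.1, fl ν.2.2 x.2)), x)) : TU h tL tS))) ∪
        {Sum.inr (Sum.inr ν)} := by
    intro a ha
    have ha' : ndT a = ν := (Finset.mem_filter.1 ha).2
    rcases a with r | r | ν'
    · refine Finset.mem_union_left _ (Finset.mem_union_left _ ?_)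
      refine Finset.mem_image.2 ⟨r.2, Finset.mem_univ _, ?_⟩
      have h1 : r.1 = ν := ha'
      rw [← h1]
    · refine Finset.mem_union_left _ (Finset.mem_union_right _ ?_)
      refine Finset.mem_image.2 ⟨r.2, Finset.mem_univ _, ?_⟩
      have h1 : (r.1.1, (fl r.1.2.1 r.2.1, fl r.1.2.2 r.2.2)) = ν := ha'
      rw [← h1]
      simp only [fl_fl]
    · refine Finset.mem_union_right _ (Finset.mem_singleton.2 ?_)
      have h1 : ν' = ν := ha'
      rw [h1]
  refine (Finset.card_le_card hsub).trans ?_
  refine (Finset.card_union_le _ _).trans ?_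
  refine Nat.add_le_add ((Finset.card_union_le _ _).trans ?_) (le_of_eq (Finset.card_singleton _))
  have h1 : ((univ : Finset (Fin tL × Fin tS)).image
      (fun x => (Sum.inl (ν, x) : TU h tL tS))).card ≤ tL * tS := by
    refine Finset.card_image_le.trans ?_
    rw [Finset.card_univ, Fintype.card_prod, Fintype.card_fin, Fintype.card_fin]
  have h2 : ((univ : Finset (Fin tL × Fin tS)).image
      (fun x => (Sum.inr (Sum.inl ((ν.1, (fl ν.2.1 x.1, fl ν.2.2 x.2)), x)) :
        TU h tL tS))).card ≤ tL * tS := by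
    refine Finset.card_image_le.trans ?_
    rw [Finset.card_univ, Fintype.card_prod, Fintype.card_fin, Fintype.card_fin]
  omega

theorem stAll_num (hp : Par m n h) (B : Brd m n h tL tS) : 2 * (tL * tS) + 3 ≤ h := by
  have h1 := hp.hlog
  have h2 := B.tLle
  have h3 := B.tSle
  generalize Nat.log 2 (2 * m + 1) + 2 = T at h1 h2 h3
  have h4 : tL * tS ≤ T * T := Nat.mul_le_mul h2 h3
  rcases Nat.eq_zero_or_pos T with hT | hT
  · subst hT
    have : tL * tS = 0 := Nat.le_zero.1 h4
    have h5 : 1 ≤ h := by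
      rcases Nat.eq_zero_or_pos h with h0 | h0
      · exfalso
        have := hp.hN
        have h6 := hp.hlog
        have h7 : 0 < 10 ^ 9 * (Nat.log 2 (2 * m + 1) + 2) ^ 4 := by positivity
        omega
      · exact h0
    have h6 := hp.hlog
    have h7 : 10 ^ 9 * 1 ≤ 10 ^ 9 * (Nat.log 2 (2 * m + 1) + 2) ^ 4 :=
      Nat.mul_le_mul_left _ (Nat.one_le_pow _ _ (by omega))
    omega
  · have h5 : T * T ≤ T ^ 4 := by
      have : T ^ 4 = (T * T) * (T * T) := by ring
      rw [this]
      exact Nat.le_mul_of_pos_right _ (Nat.mul_pos hT hT)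
    have h6 : 1 ≤ T ^ 4 := Nat.one_le_pow _ _ hT
    have h7 : 10 ^ 9 * T ^ 4 ≤ h := h1
    omega

theorem exists_absD (hp : Par m n h) (B : Brd m n h tL tS) (YN : Finset (Nd h tL tS))
    (U0 : Finset (Vt m n)) (hU : ∀ σ, deg U0 σ ≤ q3 m h) :
    ∃ A : AbsD B YN U0, ∀ σ, deg (U0 ∪ allV A) σ ≤ h * q3 m h := by
  classical
  obtain ⟨c0, h0l, h0U, h0d, h0deg⟩ := stage0 hp B YN U0 hU
  set U1 : Finset (Vt m n) := U0 ∪ YN.biUnion (fun ν => tau (ndK ν) (c0 ν) (ndS B ν)) with hU1
  obtain ⟨c1, c2, h1a, h1b, h1c, h1d, h1U, h1p, h1deg⟩ := stage1 hp B U1 h0deg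
  set U2 : Finset (Vt m n) := U1 ∪ univ.biUnion (fun r =>
    tau (ndK (co1 r)) (c1 r) (ndS B (co1 r)) ∪ tau (ndK (co2 r)) (c2 r) (ndS B (co2 r))) with hU2
  set cT : TU h tL tS → Cell m := stAll_cT c1 c2 c0 with hcT
  set Av : PU h tL tS → Finset (Cell m) := fun b =>
    ((univ.filter (fun a : TU h tL tS => ndT a = ndP b)).image cT) ∪
      {c1 (stAll_rc b), c2 (stAll_rc b)} with hAvdef
  have hAv : ∀ b, (Av b).card ≤ h := by
    intro b
    refine (Finset.card_union_le _ _).trans ?_
    have e1 := (Finset.card_image_le (f := cT)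
      (s := univ.filter (fun a : TU h tL tS => ndT a = ndP b))).trans (stAll_card (ndP b))
    have e2 : ({c1 (stAll_rc b), c2 (stAll_rc b)} : Finset (Cell m)).card ≤ 2 :=
      Finset.card_le_two
    have e3 := stAll_num hp B
    omega
  obtain ⟨cP, yP, h2a, h2b, h2c, h2U, h2p, h2deg⟩ := stage2 hp B U2 h1deg Av hAv
  set U3 : Finset (Vt m n) := U2 ∪ univ.biUnion (fun b =>
    pis (ndK (ndP b)) (ndL B (ndP b)) (ndS B (ndP b)) (cP b) (yP b)) with hU3
  set c : Cho m n h tL tS := ⟨cT, cP, yP⟩ with hc
  -- inclusions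
  have s01 : U0 ⊆ U1 := Finset.subset_union_left
  have s12 : U1 ⊆ U2 := Finset.subset_union_left
  have s23 : U2 ⊆ U3 := Finset.subset_union_left
  have tYN : ∀ ν ∈ YN, tau (ndK ν) (c0 ν) (ndS B ν) ⊆ U1 := fun ν hν =>
    (Finset.subset_biUnion_of_mem (fun ν => tau (ndK ν) (c0 ν) (ndS B ν)) hν).trans
      Finset.subset_union_right
  have tR : ∀ r, tau (ndK (co1 r)) (c1 r) (ndS B (co1 r)) ∪
      tau (ndK (co2 r)) (c2 r) (ndS B (co2 r)) ⊆ U2 := fun r =>
    (Finset.subset_biUnion_of_mem (fun r => tau (ndK (co1 r)) (c1 r) (ndS B (co1 r)) ∪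
      tau (ndK (co2 r)) (c2 r) (ndS B (co2 r))) (Finset.mem_univ r)).trans
      Finset.subset_union_right
  have tT2 : ∀ a, VT YN a → tS' B c a ⊆ U2 := by
    intro a ha
    rcases a with r | r | ν
    · exact Finset.subset_union_left.trans (tR r)
    · exact Finset.subset_union_right.trans (tR r)
    · exact (tYN ν ha).trans s12
  have tT3 : ∀ a, VT YN a → tS' B c a ⊆ U3 := fun a ha => (tT2 a ha).trans s23
  have tP3 : ∀ b, pS' B c b ⊆ U3 := fun b =>
    (Finset.subset_biUnion_of_mem (fun b =>
      pis (ndK (ndP b)) (ndL B (ndP b)) (ndS B (ndP b)) (cP b) (yP b)) (Finset.mem_univ b)).trans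
      Finset.subset_union_right
  have hmemAv : ∀ (a : TU h tL tS) (b : PU h tL tS), ndT a = ndP b → cT a ∈ Av b := fun a b hab =>
    Finset.mem_union_left _ (Finset.mem_image.2 ⟨a, Finset.mem_filter.2 ⟨Finset.mem_univ _, hab⟩, rfl⟩)
  have hmem1 : ∀ b, c1 (stAll_rc b) ∈ Av b := fun b =>
    Finset.mem_union_right _ (Finset.mem_insert_self _ _)
  have hmem2 : ∀ b, c2 (stAll_rc b) ∈ Av b := fun b =>
    Finset.mem_union_right _ (Finset.mem_insert_of_mem (Finset.mem_singleton_self _))
  -- disjointness of the tau of stage 1 and U1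
  have d1 : ∀ r, Disjoint (tau (ndK (co1 r)) (c1 r) (ndS B (co1 r))) U1 := fun r =>
    (h1U r).mono_left Finset.subset_union_left
  have d2 : ∀ r, Disjoint (tau (ndK (co2 r)) (c2 r) (ndS B (co2 r))) U1 := fun r =>
    (h1U r).mono_left Finset.subset_union_right
  have hgood : GoodCho B YN c := by
    refine ⟨?_, ?_, ?_, ?_, ?_, ?_, ?_, ?_, ?_, ?_⟩
    · intro a ha
      rcases a with r | r | ν
      · exact h1a r
      · exact h1b r
      · exact h0l ν ha
    · exact fun r κ' => h1c r κ'
    · exact fun b => h2a b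
    · exact fun a b _ hab κ' => h2b b (cT a) (hmemAv a b hab) κ'
    · exact fun r κ' => ⟨h2b (Sum.inl r) (c1 r) (hmem1 (Sum.inl r)) κ',
        h2b (Sum.inl r) (c2 r) (hmem2 (Sum.inl r)) κ'⟩
    · exact fun r κ' => ⟨h2b (Sum.inr r) (c1 r) (hmem1 (Sum.inr r)) κ',
        h2b (Sum.inr r) (c2 r) (hmem2 (Sum.inr r)) κ'⟩
    · exact fun r κ' => h2c r κ'
    · intro a a' ha ha' hne
      rcases a with r | r | ν <;> rcases a' with r' | r' | ν'
      · have hrr : r ≠ r' := fun e => hne (by rw [e])
        exact ((h1p r r' hrr).mono_left Finset.subset_union_left).mono_right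
          Finset.subset_union_left
      · by_cases hrr : r = r'
        · subst hrr
          exact h1d r
        · exact ((h1p r r' hrr).mono_left Finset.subset_union_left).mono_right
            Finset.subset_union_right
      · exact (d1 r).mono_right (tYN ν' ha')
      · by_cases hrr : r = r'
        · subst hrr
          exact (h1d r).symm
        · exact ((h1p r r' hrr).mono_left Finset.subset_union_right).mono_right
            Finset.subset_union_left
      · have hrr : r ≠ r' := fun e => hne (by rw [e])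
        exact ((h1p r r' hrr).mono_left Finset.subset_union_right).mono_right
          Finset.subset_union_right
      · exact (d2 r).mono_right (tYN ν' ha')
      · exact ((d1 r').mono_right (tYN ν ha)).symm
      · exact ((d2 r').mono_right (tYN ν ha)).symm
      · have hνν : ν ≠ ν' := fun e => hne (by rw [e])
        exact h0d ν ha ν' ha' hνν
    · exact fun b b' hbb => h2p b b' hbb
    · exact fun a b ha => ((h2U b).mono_right (tT2 a ha)).symm
  obtain ⟨U4, h4a, h4b, h4U, h4p, h4deg⟩ := stage3 hp B YN c hgood U3 h2deg tT3 tP3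
  set U5 : Finset (Vt m n) := U3 ∪ univ.biUnion U4 with hU5
  have s35 : U3 ⊆ U5 := Finset.subset_union_left
  have s4 : ∀ r, U4 r ⊆ U5 := fun r =>
    (Finset.subset_biUnion_of_mem U4 (Finset.mem_univ r)).trans Finset.subset_union_right
  obtain ⟨W2, h5a, h5b, h5U, h5p, h5e, h5deg⟩ :=
    stage4 hp B YN c hgood U3 U5 s35 h2deg h4deg tT3 tP3
  have s05 : U0 ⊆ U5 := ((s01.trans s12).trans s23).trans s35
  have s03 : U0 ⊆ U3 := (s01.trans s12).trans s23
  refine ⟨⟨c, hgood, U4, W2, ?_, ?_, h4a, h4b, ?_, ?_, ?_, h4p, h5a, h5b, ?_, ?_, ?_, ?_, h5p⟩, ?_⟩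
  · intro a ha
    rcases a with r | r | ν
    · exact (d1 r).mono_right s01
    · exact (d2 r).mono_right s01
    · exact h0U ν ha
  · exact fun b => (h2U b).mono_right (s01.trans s12)
  · exact fun r => (h4U r).mono_right s03
  · exact fun r a ha => (h4U r).mono_right (tT3 a ha)
  · exact fun r b => (h4U r).mono_right (tP3 b)
  · exact fun x hx => (h5U x hx).mono_right s05
  · exact fun x a hx ha => (h5U x hx).mono_right ((tT3 a ha).trans s35)
  · exact fun x b hx => (h5U x hx).mono_right ((tP3 b).trans s35)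
  · exact fun x r hx => (h5U x hx).mono_right (s4 r)
  · intro σ
    refine (deg_mono _ _ ?_ σ).trans (h5deg σ)
    refine Finset.union_subset (s05.trans Finset.subset_union_left) ?_
    unfold allV
    refine Finset.union_subset (Finset.union_subset (Finset.union_subset ?_ ?_) ?_) ?_
    · refine Finset.biUnion_subset.2 fun a ha => ?_
      exact ((tT3 a (Finset.mem_filter.1 ha).2).trans s35).trans Finset.subset_union_left
    · refine Finset.biUnion_subset.2 fun b _ => ?_
      exact ((tP3 b).trans s35).trans Finset.subset_union_left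
    · refine Finset.biUnion_subset.2 fun r _ => ?_
      exact (s4 r).trans Finset.subset_union_left
    · refine Finset.biUnion_subset.2 fun x _ => ?_
      exact (Finset.subset_biUnion_of_mem W2 (Finset.mem_univ x)).trans Finset.subset_union_right

end H77.LT
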