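import Pool.Agent.H77.LT.BrdEx
import Pool.Agent.H77.LT.StAll
import Pool.Agent.H77.LT.Flex

/-!
# [H77 LT ABSW] The absorber, without boards in the statement

Proof. `exists_brd`, `YN` = the set of the nodes with `Home B ν ∧ ndE B ν ∈ Y`, `exists_absD` with
`U0 = U`, `A = allV` of it; disjointness by the fields `dT0`, `dP0`, `d40`, `d20` of `AbsD`; then `flex`.
-/

open Finset

namespace H77.LT

variable {m n h : ℕ}

theorem absorber (hp : Par m n h) (U : Finset (Vt m n)) (Y : Finset (Fin 3 × Fin m × Fin n))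
    (hYb : ∀ e ∈ Y, OnB h e) (hYU : ents Y ⊆ U) (hU : ∀ σ, deg U σ ≤ q3 m h) :
    ∃ A : Finset (Vt m n), Disjoint A U ∧ (∀ σ, deg (U ∪ A) σ ≤ h * q3 m h) ∧
      ∀ (LQ : Finset (Cell m)) (LE : Finset (Fin 3 × Fin m × Fin n)) (a : Cell m → Fin n),
        cels LQ ⊆ U → ents LE ⊆ U → Disjoint LE Y → (∀ e ∈ LE, OnB h e) →
        (∀ q ∈ LQ, ∀ κ, (κ, ln κ q, a q) ∈ Y) →
        (∀ q ∈ LQ, ∀ q' ∈ LQ, q ≠ q' → ∀ κ, ln κ q = ln κ q' → a q ≠ a q') →
        (∀ κ l, (LE.filter (fun e => e.1 = κ ∧ e.2.1 = l)).card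
          = (LQ.filter (fun q => ln κ q = l)).card) →
        (∀ κ s, (LE.filter (fun e => e.1 = κ ∧ e.2.2 = s)).card
          = (LQ.filter (fun q => a q = s)).card) →
        PM (A ∪ ents Y ∪ cels LQ ∪ ents LE) := by
  classical
  obtain ⟨tL, tS, ⟨B⟩⟩ := exists_brd m n h hp
  obtain ⟨YN, hYN⟩ : ∃ YN : Finset (Nd h tL tS), ∀ ν, ν ∈ YN ↔ (Home B ν ∧ ndE B ν ∈ Y) :=
    ⟨univ.filter (fun ν => Home B ν ∧ ndE B ν ∈ Y), fun ν => by
      rw [mem_filter]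
      exact ⟨fun h => h.2, fun h => ⟨mem_univ _, h⟩⟩⟩
  obtain ⟨A, hA⟩ := exists_absD hp B YN U hU
  refine ⟨allV A, ?_, hA, ?_⟩
  · unfold allV
    rw [disjoint_union_left, disjoint_union_left, disjoint_union_left, disjoint_biUnion_left,
      disjoint_biUnion_left, disjoint_biUnion_left, disjoint_biUnion_left]
    refine ⟨⟨⟨?_, ?_⟩, ?_⟩, ?_⟩
    · intro t ht
      exact A.dT0 t (mem_filter.1 ht).2
    · intro b _
      exact A.dP0 b
    · intro r _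
      exact A.d40 r
    · intro x hx
      exact A.d20 x (mem_filter.1 hx).2
  · intro LQ LE a h1 h2 h3 h4 h5 h6 h7 h8
    exact flex B Y YN hYN U hYU A LQ LE a h1 h2 hYb h3 h4 h5 h6 h7 h8

end H77.LT
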