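import Pool.Agent.H77.LT.Flow1

/-!
# [H77 LT BOARD] Zero margin matrices on a product of two hypercubes are sums of rectangles

An oriented rectangle is `r = ((u,w),(i,j))`; its plus corners are `(u,w)` and `(fl u i, fl w j)`,
its minus corners are `(fl u i, w)` and `(u, fl w j)`.

`board`: every integer matrix with entries in `[-1,1]` and zero row and column sums is the sum of
the rectangles of a finite set `act`.

Proof. Induction on `t` (rows `Fin t → Bool`). `t = 0`: there is one row and the column sums are its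
entries, so `x = 0`, `act = ∅`. Step: `x0 u = x (cons false u)`, `x1 u = x (cons true u)`; `halve`
gives `y`. By induction `x0 - y` and `x1 + y` are sums of rectangles; lift them by
`((u,w),(i,j)) ↦ ((cons b u,w),(i.succ,j))`. For every row `u` the vector `y u` is a sum of
differences by `flow1`; for `(w,j)` in its set take the rectangle `((cons false u,w),(0,j))`: its
plus corners are `(cons false u, w)`, `(cons true u, fl w j)`, its minus corners
`(cons true u, w)`, `(cons false u, fl w j)`; the sum of these rectangles is `y` on the rows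
`cons false u` and `-y` on the rows `cons true u`. The three sets are disjoint (the second
coordinate `i` is `succ` or `0`, the first coordinate of the row is `false` or `true`).
It may be convenient to rewrite the right side as
`∑ r ∈ act, (rectangle r : matrix) u w` and to use `Finset.sum_disjUnion`, `Finset.sum_map`.
-/

open Finset

namespace H77.LT

/-- the signed indicator of the corners of an oriented rectangle -/
def boardBd {t s : ℕ} (r : ((Fin t → Bool) × (Fin s → Bool)) × (Fin t × Fin s))
    (u : Fin t → Bool) (w : Fin s → Bool) : ℤ :=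
  (if r.1 = (u, w) then 1 else 0) + (if (fl r.1.1 r.2.1, fl r.1.2 r.2.2) = (u, w) then 1 else 0)
    - (if (fl r.1.1 r.2.1, r.1.2) = (u, w) then 1 else 0)
    - (if (r.1.1, fl r.1.2 r.2.2) = (u, w) then 1 else 0)

theorem board_cons_eq {t : ℕ} (b b' : Bool) (u u0 : Fin t → Bool) :
    ((Fin.cons b u : Fin (t + 1) → Bool) = (Fin.cons b' u0 : Fin (t + 1) → Bool)) ↔
      (b = b' ∧ u = u0) := by
  constructor
  · intro h
    refine ⟨?_, ?_⟩
    · have := congrFun h 0
      simpa using this
    · funext i
      have := congrFun h i.succ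
      simpa using this
  · rintro ⟨rfl, rfl⟩
    rfl

theorem board_bd_succ {t s : ℕ} (b b' : Bool) (u u0 : Fin t → Bool) (w w0 : Fin s → Bool)
    (i : Fin t) (j : Fin s) :
    boardBd (((Fin.cons b u : Fin (t + 1) → Bool), w), (i.succ, j)) (Fin.cons b' u0) w0 =
      if b = b' then boardBd ((u, w), (i, j)) u0 w0 else 0 := by
  unfold boardBd
  simp only [fl_cons_succ, Prod.mk.injEq, board_cons_eq]
  by_cases h : b = b'
  · simp only [h, true_and, if_true]
  · simp only [h, false_and, if_false]
    norm_num

theorem board_bd_zero {t s : ℕ} (b' : Bool) (u u0 : Fin t → Bool) (w w0 : Fin s → Bool)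
    (j : Fin s) :
    boardBd (((Fin.cons false u : Fin (t + 1) → Bool), w), (0, j)) (Fin.cons b' u0) w0 =
      if u = u0 then (if b' = false then 1 else -1) *
        ((if w = w0 then 1 else 0) - (if fl w j = w0 then 1 else 0)) else 0 := by
  unfold boardBd
  simp only [fl_cons_zero, Prod.mk.injEq, board_cons_eq]
  by_cases h : u = u0
  · cases b'
    · simp only [h, true_and, and_true, if_true, Bool.not_false, Bool.true_eq_false, false_and,
        if_false]
      ring
    · simp only [h, true_and, and_true, if_true, Bool.not_false, Bool.false_eq_true, false_and,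
        if_false, Bool.true_eq_false]
      ring
  · simp only [h, false_and, and_false, if_false]
    norm_num

theorem board_sum_cons {t : ℕ} (f : (Fin (t + 1) → Bool) → ℤ) :
    ∑ u, f u = ∑ u, f (Fin.cons false u) + ∑ u, f (Fin.cons true u) := by
  rw [← (Fin.consEquiv (fun _ : Fin (t + 1) => Bool)).sum_comp, Fintype.sum_prod_type,
    Fintype.sum_bool, add_comm]
  rfl

theorem board_aux (t s : ℕ) (x : (Fin t → Bool) → (Fin s → Bool) → ℤ)
    (hx : ∀ u w, |x u w| ≤ 1) (hr : ∀ u, ∑ w, x u w = 0) (hc : ∀ w, ∑ u, x u w = 0) :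
    ∃ act : Finset (((Fin t → Bool) × (Fin s → Bool)) × (Fin t × Fin s)),
      ∀ u w, x u w = ∑ r ∈ act, boardBd r u w := by
  induction t with
  | zero =>
    refine ⟨∅, ?_⟩
    intro u w
    rw [Finset.sum_empty]
    have h := hc w
    rw [Fintype.sum_unique] at h
    rw [← h]
    congr 1
    exact Subsingleton.elim _ _
  | succ t ih =>
    obtain ⟨y, hy1, hy2, hy3, hy4, hy5, hy6⟩ := halve (fun u w => x (Fin.cons false u) w)
      (fun u w => x (Fin.cons true u) w) (fun u w => hx _ _) (fun u w => hx _ _)
      (fun u => hr _) (fun u => hr _) (fun w => by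
        have := hc w
        rw [board_sum_cons] at this
        exact this)
    obtain ⟨act0, h0⟩ := ih (fun u w => x (Fin.cons false u) w - y u w) hy2
      (fun u => by
        rw [Finset.sum_sub_distrib, hr, hy4, sub_zero]) hy5
    obtain ⟨act1, h1⟩ := ih (fun u w => x (Fin.cons true u) w + y u w) hy3
      (fun u => by
        rw [Finset.sum_add_distrib, hr, hy4, add_zero]) hy6
    have hflow := fun u => flow1 s (y u) (hy1 u) (hy4 u)
    choose F hF using hflow
    let L : Bool → (((Fin t → Bool) × (Fin s → Bool)) × (Fin t × Fin s)) ↪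
        (((Fin (t + 1) → Bool) × (Fin s → Bool)) × (Fin (t + 1) × Fin s)) := fun b =>
      ⟨fun r => (((Fin.cons b r.1.1 : Fin (t + 1) → Bool), r.1.2), (r.2.1.succ, r.2.2)), by
        rintro ⟨⟨u, w⟩, ⟨i, j⟩⟩ ⟨⟨u', w'⟩, ⟨i', j'⟩⟩ h
        simp only [Prod.mk.injEq, board_cons_eq, Fin.succ_inj, true_and] at h
        obtain ⟨⟨h1, h2⟩, h3, h4⟩ := h
        rw [h1, h2, h3, h4]⟩
    let M : ((_ : Fin t → Bool) × ((Fin s → Bool) × Fin s)) ↪
        (((Fin (t + 1) → Bool) × (Fin s → Bool)) × (Fin (t + 1) × Fin s)) :=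
      ⟨fun p => (((Fin.cons false p.1 : Fin (t + 1) → Bool), p.2.1), (0, p.2.2)), by
        rintro ⟨u, ⟨w, j⟩⟩ ⟨u', ⟨w', j'⟩⟩ h
        simp only [Prod.mk.injEq, board_cons_eq, true_and] at h
        obtain ⟨⟨h1, h2⟩, h3⟩ := h
        rw [h1, h2, h3]⟩
    let A0 := act0.map (L false)
    let A1 := act1.map (L true)
    let A2 := ((univ : Finset (Fin t → Bool)).sigma F).map M
    have hd01 : Disjoint A0 A1 := by
      rw [Finset.disjoint_left]
      intro r hr0 hr1
      obtain ⟨p, _, rfl⟩ := mem_map.mp hr0
      obtain ⟨q, _, hq⟩ := mem_map.mp hr1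
      have h2 : true = false := congrArg (fun r => r.1.1 0) hq
      exact Bool.noConfusion h2
    have hd2 : Disjoint (A0 ∪ A1) A2 := by
      rw [Finset.disjoint_left]
      intro r hr0 hr1
      obtain ⟨q, _, hq⟩ := mem_map.mp hr1
      have h3 : r.2.1 = 0 := by
        rw [← hq]
        rfl
      rcases mem_union.mp hr0 with h | h
      · obtain ⟨p, _, rfl⟩ := mem_map.mp h
        exact Fin.succ_ne_zero _ h3
      · obtain ⟨p, _, rfl⟩ := mem_map.mp h
        exact Fin.succ_ne_zero _ h3
    refine ⟨(A0 ∪ A1) ∪ A2, ?_⟩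
    intro u' w0
    obtain ⟨b', u0, rfl⟩ : ∃ (b' : Bool) (u0 : Fin t → Bool), u' = Fin.cons b' u0 :=
      ⟨u' 0, Fin.tail u', (Fin.cons_self_tail u').symm⟩
    rw [Finset.sum_union hd2, Finset.sum_union hd01, Finset.sum_map, Finset.sum_map,
      Finset.sum_map, Finset.sum_sigma]
    have e0 : ∀ (b : Bool) (act : Finset (((Fin t → Bool) × (Fin s → Bool)) × (Fin t × Fin s))),
        ∑ r ∈ act, boardBd (L b r) (Fin.cons b' u0) w0 =
          if b = b' then ∑ r ∈ act, boardBd r u0 w0 else 0 := by
      intro b act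
      by_cases h : b = b'
      · rw [if_pos h]
        apply Finset.sum_congr rfl
        rintro ⟨⟨u, w⟩, ⟨i, j⟩⟩ _
        refine (board_bd_succ b b' u u0 w w0 i j).trans ?_
        rw [if_pos h]
      · rw [if_neg h]
        apply Finset.sum_eq_zero
        rintro ⟨⟨u, w⟩, ⟨i, j⟩⟩ _
        refine (board_bd_succ b b' u u0 w w0 i j).trans ?_
        rw [if_neg h]
    have e2 : ∑ u, ∑ p ∈ F u, boardBd (M ⟨u, p⟩) (Fin.cons b' u0) w0 =
        (if b' = false then 1 else -1) * y u0 w0 := by
      rw [Finset.sum_eq_single u0]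
      · have h3 : ∀ p ∈ F u0, boardBd (M ⟨u0, p⟩) (Fin.cons b' u0) w0 =
            (if b' = false then 1 else -1) *
              ((if p.1 = w0 then 1 else 0) - (if fl p.1 p.2 = w0 then 1 else 0)) := by
          rintro ⟨w, j⟩ _
          refine (board_bd_zero b' u0 u0 w w0 j).trans ?_
          rw [if_pos rfl]
        rw [Finset.sum_congr rfl h3, ← Finset.mul_sum, Finset.sum_sub_distrib, hF u0 w0,
          Finset.card_filter, Finset.card_filter]
        push_cast
        rfl
      · intro u _ hu
        apply Finset.sum_eq_zero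
        rintro ⟨w, j⟩ _
        refine (board_bd_zero b' u u0 w w0 j).trans ?_
        rw [if_neg hu]
      · intro h
        exact absurd (mem_univ _) h
    rw [e0, e0, e2, ← h0 u0 w0, ← h1 u0 w0]
    cases b'
    · simp
    · simp

theorem board (t s : ℕ) (x : (Fin t → Bool) → (Fin s → Bool) → ℤ)
    (hx : ∀ u w, |x u w| ≤ 1) (hr : ∀ u, ∑ w, x u w = 0) (hc : ∀ w, ∑ u, x u w = 0) :
    ∃ act : Finset (((Fin t → Bool) × (Fin s → Bool)) × (Fin t × Fin s)),
      ∀ u w, x u w
        = ((act.filter (fun r => r.1 = (u, w))).card : ℤ)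
          + ((act.filter (fun r => (fl r.1.1 r.2.1, fl r.1.2 r.2.2) = (u, w))).card : ℤ)
          - ((act.filter (fun r => (fl r.1.1 r.2.1, r.1.2) = (u, w))).card : ℤ)
          - ((act.filter (fun r => (r.1.1, fl r.1.2 r.2.2) = (u, w))).card : ℤ) := by
  obtain ⟨act, h⟩ := board_aux t s x hx hr hc
  refine ⟨act, ?_⟩
  intro u w
  rw [h u w]
  unfold boardBd
  rw [Finset.sum_sub_distrib, Finset.sum_sub_distrib, Finset.sum_add_distrib,
    Finset.card_filter, Finset.card_filter, Finset.card_filter, Finset.card_filter]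
  push_cast
  rfl

end H77.LT
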