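import Pool.Agent.H77.LT.Nodes
import Pool.Agent.H77.LT.Board

/-!
# [H77 LT ACT] The active rectangles

`LQ` cells with symbols `a q`, `LE` entries on the boards, balanced on every line and for every
symbol. For a board `b = ⟨κ,i⟩` let `x u w = 0` if the node `(b,(u,w))` is not at home, and
`x u w = [ndE ∈ LE] - [there is q ∈ LQ with ln κ q = line, a q = symbol]` otherwise. The two
indicators are not both one (`LE` and `Y` are disjoint), so `|x| ≤ 1`. Row sums: a row `u` with
line `l`, `l % K ≠ i`, is zero. If `l % K = i`: the home nodes of the row correspond bijectively to the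
symbols `s` with `s % K = i` (`covS`, injectivity of `eS b`); all entries `(κ,l,s) ∈ LE` and all
`(κ, l, a q) ∈ Y` have such `s` (they are on the board: `OnB`). So the row sum is
`#{e ∈ LE on the line} - #{q ∈ LQ on the line} = 0` (`h6`: different `q` of the line have different
`a q`, so the number of `s` with a `q` is the number of `q`). Columns: the same with `h8`
(for a symbol `s` the cells `q` with `a q = s` have different lines by `h6`).
`board` gives the set `act b` of rectangles; let `R` be the set of all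
`((b,(u,w)),(i,j))` with `((u,w),(i,j)) ∈ act b`.
-/

open Finset

namespace H77.LT

variable {m n h tL tS : ℕ}

/-- the entry of the node is used by a cell of `LQ` -/
def UsedN (B : Brd m n h tL tS) (LQ : Finset (Cell m)) (a : Cell m → Fin n)
    (ν : Nd h tL tS) : Prop := ∃ q ∈ LQ, ln (ndK ν) q = ndL B ν ∧ a q = ndS B ν

open Classical in
private noncomputable def ActF (LQ : Finset (Cell m)) (LE : Finset (Fin 3 × Fin m × Fin n))
    (a : Cell m → Fin n) (κ : Fin 3) (l : Fin m) (s : Fin n) : ℤ :=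
  (if (κ, l, s) ∈ LE then 1 else 0) - (if ∃ q ∈ LQ, ln κ q = l ∧ a q = s then 1 else 0)

private theorem Act_sum {W S : Type} [Fintype W] [Fintype S] (e : W → S)
    (he : Function.Injective e) (p : S → Prop) [DecidablePred p]
    (hcov : ∀ s, p s → ∃ w, e w = s) (f : S → ℤ) (hf : ∀ s, ¬ p s → f s = 0) :
    ∑ w, (if p (e w) then f (e w) else 0) = ∑ s, f s := by
  have h1 : ∑ s, f s = ∑ s ∈ univ.filter p, f s := by
    symm
    apply Finset.sum_subset (Finset.filter_subset _ _)
    intro s _ hs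
    apply hf
    intro hp
    exact hs (Finset.mem_filter.2 ⟨Finset.mem_univ _, hp⟩)
  rw [h1, ← Finset.sum_filter]
  refine Finset.sum_bij (fun w _ => e w) ?_ ?_ ?_ ?_
  · intro w hw
    rw [Finset.mem_filter] at hw ⊢
    exact ⟨Finset.mem_univ _, hw.2⟩
  · intro w _ w' _ h
    exact he h
  · intro s hs
    rw [Finset.mem_filter] at hs
    obtain ⟨w, rfl⟩ := hcov s hs.2
    exact ⟨w, Finset.mem_filter.2 ⟨Finset.mem_univ _, hs.2⟩, rfl⟩
  · intro w _
    rfl

open Classical in
private theorem ActF_row (LQ : Finset (Cell m)) (LE : Finset (Fin 3 × Fin m × Fin n))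
    (a : Cell m → Fin n)
    (h6 : ∀ q ∈ LQ, ∀ q' ∈ LQ, q ≠ q' → ∀ κ, ln κ q = ln κ q' → a q ≠ a q')
    (h7 : ∀ κ l, (LE.filter (fun e => e.1 = κ ∧ e.2.1 = l)).card
      = (LQ.filter (fun q => ln κ q = l)).card) (κ : Fin 3) (l : Fin m) :
    ∑ s, ActF LQ LE a κ l s = 0 := by
  unfold ActF
  rw [Finset.sum_sub_distrib, Finset.sum_boole, Finset.sum_boole]
  have e1 : (univ.filter (fun s : Fin n => (κ, l, s) ∈ LE)).card
      = (LE.filter (fun e => e.1 = κ ∧ e.2.1 = l)).card := by
    refine Finset.card_bij (fun s _ => (κ, l, s)) ?_ ?_ ?_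
    · intro s hs
      rw [Finset.mem_filter] at hs ⊢
      exact ⟨hs.2, rfl, rfl⟩
    · intro s _ s' _ h
      simpa using h
    · rintro ⟨κ', l', s⟩ he
      rw [Finset.mem_filter] at he
      obtain ⟨h1, h2, h3⟩ := he
      simp only at h2 h3
      subst h2
      subst h3
      exact ⟨s, Finset.mem_filter.2 ⟨Finset.mem_univ _, h1⟩, rfl⟩
  have e2 : (univ.filter (fun s : Fin n => ∃ q ∈ LQ, ln κ q = l ∧ a q = s)).card
      = (LQ.filter (fun q => ln κ q = l)).card := by
    symm
    refine Finset.card_bij (fun q _ => a q) ?_ ?_ ?_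
    · intro q hq
      rw [Finset.mem_filter] at hq ⊢
      exact ⟨Finset.mem_univ _, q, hq.1, hq.2, rfl⟩
    · intro q hq q' hq' h
      rw [Finset.mem_filter] at hq hq'
      by_contra hne
      exact h6 q hq.1 q' hq'.1 hne κ (hq.2.trans hq'.2.symm) h
    · intro s hs
      rw [Finset.mem_filter] at hs
      obtain ⟨_, q, hq, h1, h2⟩ := hs
      exact ⟨q, Finset.mem_filter.2 ⟨hq, h1⟩, h2⟩
  rw [e1, e2, h7, sub_self]

open Classical in
private theorem ActF_col (LQ : Finset (Cell m)) (LE : Finset (Fin 3 × Fin m × Fin n))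
    (a : Cell m → Fin n)
    (h6 : ∀ q ∈ LQ, ∀ q' ∈ LQ, q ≠ q' → ∀ κ, ln κ q = ln κ q' → a q ≠ a q')
    (h8 : ∀ κ s, (LE.filter (fun e => e.1 = κ ∧ e.2.2 = s)).card
      = (LQ.filter (fun q => a q = s)).card) (κ : Fin 3) (s : Fin n) :
    ∑ l, ActF LQ LE a κ l s = 0 := by
  unfold ActF
  rw [Finset.sum_sub_distrib, Finset.sum_boole, Finset.sum_boole]
  have e1 : (univ.filter (fun l : Fin m => (κ, l, s) ∈ LE)).card
      = (LE.filter (fun e => e.1 = κ ∧ e.2.2 = s)).card := by
    refine Finset.card_bij (fun l _ => (κ, l, s)) ?_ ?_ ?_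
    · intro l hl
      rw [Finset.mem_filter] at hl ⊢
      exact ⟨hl.2, rfl, rfl⟩
    · intro l _ l' _ h
      simpa using h
    · rintro ⟨κ', l', s'⟩ he
      rw [Finset.mem_filter] at he
      obtain ⟨h1, h2, h3⟩ := he
      simp only at h2 h3
      subst h2
      subst h3
      exact ⟨l', Finset.mem_filter.2 ⟨Finset.mem_univ _, h1⟩, rfl⟩
  have e2 : (univ.filter (fun l : Fin m => ∃ q ∈ LQ, ln κ q = l ∧ a q = s)).card
      = (LQ.filter (fun q => a q = s)).card := by
    symm
    refine Finset.card_bij (fun q _ => ln κ q) ?_ ?_ ?_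
    · intro q hq
      rw [Finset.mem_filter] at hq ⊢
      exact ⟨Finset.mem_univ _, q, hq.1, rfl, hq.2⟩
    · intro q hq q' hq' h
      rw [Finset.mem_filter] at hq hq'
      by_contra hne
      exact h6 q hq.1 q' hq'.1 hne κ h (hq.2.trans hq'.2.symm)
    · intro l hl
      rw [Finset.mem_filter] at hl
      obtain ⟨_, q, hq, h1, h2⟩ := hl
      exact ⟨q, Finset.mem_filter.2 ⟨hq, h2⟩, h1⟩
  rw [e1, e2, h8, sub_self]

open Classical in
theorem exists_active (B : Brd m n h tL tS) (Y : Finset (Fin 3 × Fin m × Fin n))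
    (LQ : Finset (Cell m)) (LE : Finset (Fin 3 × Fin m × Fin n)) (a : Cell m → Fin n)
    (hYb : ∀ e ∈ Y, OnB h e) (h3 : Disjoint LE Y) (h4 : ∀ e ∈ LE, OnB h e)
    (h5 : ∀ q ∈ LQ, ∀ κ, (κ, ln κ q, a q) ∈ Y)
    (h6 : ∀ q ∈ LQ, ∀ q' ∈ LQ, q ≠ q' → ∀ κ, ln κ q = ln κ q' → a q ≠ a q')
    (h7 : ∀ κ l, (LE.filter (fun e => e.1 = κ ∧ e.2.1 = l)).card
      = (LQ.filter (fun q => ln κ q = l)).card)
    (h8 : ∀ κ s, (LE.filter (fun e => e.1 = κ ∧ e.2.2 = s)).card
      = (LQ.filter (fun q => a q = s)).card) :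
    ∃ R : Finset (Rc h tL tS), ∀ ν : Nd h tL tS,
      (R.filter (fun r => co1 r = ν)).card + (R.filter (fun r => co2 r = ν)).card
          + (if Home B ν ∧ UsedN B LQ a ν then 1 else 0)
        = (R.filter (fun r => co3 r = ν)).card + (R.filter (fun r => co4 r = ν)).card
          + (if Home B ν ∧ ndE B ν ∈ LE then 1 else 0) := by
  have hoff : ∀ κ l s, l.val % KK h κ ≠ s.val % KK h κ → ActF LQ LE a κ l s = 0 := by
    intro κ l s hne
    unfold ActF
    rw [if_neg, if_neg, sub_zero]
    · rintro ⟨q, hq, rfl, rfl⟩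
      exact hne (hYb _ (h5 q hq κ))
    · intro hm
      exact hne (h4 _ hm)
  have hbd : ∀ b : BI h, ∃ act : Finset (((Fin tL → Bool) × (Fin tS → Bool)) ×
      (Fin tL × Fin tS)), ∀ u w,
      (if (B.eL b u).val % KK h b.1 = b.2.val ∧ (B.eS b w).val % KK h b.1 = b.2.val then
        ActF LQ LE a b.1 (B.eL b u) (B.eS b w) else 0)
        = ((act.filter (fun r => r.1 = (u, w))).card : ℤ)
          + ((act.filter (fun r => (fl r.1.1 r.2.1, fl r.1.2 r.2.2) = (u, w))).card : ℤ)
          - ((act.filter (fun r => (fl r.1.1 r.2.1, r.1.2) = (u, w))).card : ℤ)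
          - ((act.filter (fun r => (r.1.1, fl r.1.2 r.2.2) = (u, w))).card : ℤ) := by
    intro b
    obtain ⟨act, hact⟩ := board tL tS (fun u w =>
      if (B.eL b u).val % KK h b.1 = b.2.val ∧ (B.eS b w).val % KK h b.1 = b.2.val then
        ActF LQ LE a b.1 (B.eL b u) (B.eS b w) else 0) (by
        intro u w
        unfold ActF
        split_ifs <;> norm_num) (by
        intro u
        by_cases hu : (B.eL b u).val % KK h b.1 = b.2.val
        · simp only [hu, true_and]
          have h9 := Act_sum (B.eS b) (B.injS b)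
            (fun s : Fin n => s.val % KK h b.1 = b.2.val) (by
              intro s hs
              obtain ⟨i, w, hi, hw⟩ := B.covS b.1 s
              have h10 : i = b.2 := Fin.ext (hi.trans hs)
              subst h10
              exact ⟨w, hw⟩) (ActF LQ LE a b.1 (B.eL b u)) (by
              intro s hs
              apply hoff
              rw [hu]
              exact fun h11 => hs h11.symm)
          rw [ActF_row LQ LE a h6 h7] at h9
          exact h9
        · simp only [hu, false_and, if_false, Finset.sum_const_zero]) (by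
        intro w
        by_cases hw : (B.eS b w).val % KK h b.1 = b.2.val
        · simp only [hw, and_true]
          have h9 := Act_sum (B.eL b) (B.injL b)
            (fun l : Fin m => l.val % KK h b.1 = b.2.val) (by
              intro l hl
              obtain ⟨i, u, hi, hu⟩ := B.covL b.1 l
              have h10 : i = b.2 := Fin.ext (hi.trans hl)
              subst h10
              exact ⟨u, hu⟩) (fun l => ActF LQ LE a b.1 l (B.eS b w)) (by
              intro l hl
              apply hoff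
              rw [hw]
              exact hl)
          rw [ActF_col LQ LE a h6 h8] at h9
          exact h9
        · simp only [hw, and_false, if_false, Finset.sum_const_zero])
    exact ⟨act, hact⟩
  choose act hact using hbd
  obtain ⟨R, hR⟩ : ∃ R : Finset (Rc h tL tS), ∀ r, r ∈ R ↔ (r.1.2, r.2) ∈ act r.1.1 := by
    refine ⟨univ.filter (fun r => (r.1.2, r.2) ∈ act r.1.1), ?_⟩
    intro r
    rw [Finset.mem_filter]
    exact ⟨fun h1 => h1.2, fun h1 => ⟨Finset.mem_univ _, h1⟩⟩
  have hcount : ∀ (c : ((Fin tL → Bool) × (Fin tS → Bool)) × (Fin tL × Fin tS) →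
      (Fin tL → Bool) × (Fin tS → Bool)) (C : Rc h tL tS → Nd h tL tS)
      (_hC : ∀ r, C r = (r.1.1, c (r.1.2, r.2))) (ν : Nd h tL tS),
      (R.filter (fun r => C r = ν)).card = ((act ν.1).filter (fun r => c r = ν.2)).card := by
    intro c C hC ν
    symm
    refine Finset.card_bij (fun r _ => ((ν.1, r.1), r.2)) ?_ ?_ ?_
    · intro r hr
      rw [Finset.mem_filter] at hr ⊢
      refine ⟨?_, ?_⟩
      · rw [hR]
        exact hr.1
      · rw [hC]
        exact Prod.ext rfl hr.2
    · intro r _ r' _ h1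
      simp only [Prod.mk.injEq, true_and] at h1
      exact Prod.ext h1.1 h1.2
    · intro r hr
      rw [Finset.mem_filter, hR, hC] at hr
      obtain ⟨h1, h2⟩ := hr
      have h3 : r.1.1 = ν.1 := by rw [← h2]
      have h4 : c (r.1.2, r.2) = ν.2 := by rw [← h2]
      refine ⟨(r.1.2, r.2), ?_, ?_⟩
      · rw [Finset.mem_filter]
        rw [h3] at h1
        exact ⟨h1, h4⟩
      · rw [← h3]
  refine ⟨R, ?_⟩
  intro ν
  have c1 := hcount (fun r => r.1) co1 (fun r => rfl) ν
  have c2 := hcount (fun r => (fl r.1.1 r.2.1, fl r.1.2 r.2.2)) co2 (fun r => rfl) ν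
  have c3 := hcount (fun r => (r.1.1, fl r.1.2 r.2.2)) co3 (fun r => rfl) ν
  have c4 := hcount (fun r => (fl r.1.1 r.2.1, r.1.2)) co4 (fun r => rfl) ν
  have hx := hact ν.1 ν.2.1 ν.2.2
  have hx2 : (if (B.eL ν.1 ν.2.1).val % KK h ν.1.1 = ν.1.2.val ∧
      (B.eS ν.1 ν.2.2).val % KK h ν.1.1 = ν.1.2.val then
        ActF LQ LE a ν.1.1 (B.eL ν.1 ν.2.1) (B.eS ν.1 ν.2.2) else 0) =
      ((if Home B ν ∧ ndE B ν ∈ LE then 1 else 0 : ℕ) : ℤ)
        - ((if Home B ν ∧ UsedN B LQ a ν then 1 else 0 : ℕ) : ℤ) := by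
    by_cases hh : Home B ν
    · have hh' : (B.eL ν.1 ν.2.1).val % KK h ν.1.1 = ν.1.2.val ∧
          (B.eS ν.1 ν.2.2).val % KK h ν.1.1 = ν.1.2.val := hh
      rw [if_pos hh']
      simp only [hh, true_and]
      unfold ActF
      have e1 : (ndE B ν ∈ LE) ↔ ((ν.1.1, B.eL ν.1 ν.2.1, B.eS ν.1 ν.2.2) ∈ LE) := Iff.rfl
      have e2 : UsedN B LQ a ν ↔
          ∃ q ∈ LQ, ln ν.1.1 q = B.eL ν.1 ν.2.1 ∧ a q = B.eS ν.1 ν.2.2 := Iff.rfl
      by_cases k1 : ndE B ν ∈ LE
      · by_cases k2 : UsedN B LQ a ν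
        · rw [if_pos (e1.1 k1), if_pos (e2.1 k2), if_pos k1, if_pos k2]
          norm_num
        · rw [if_pos (e1.1 k1), if_neg (fun hc => k2 (e2.2 hc)), if_pos k1, if_neg k2]
          norm_num
      · by_cases k2 : UsedN B LQ a ν
        · rw [if_neg (fun hc => k1 (e1.2 hc)), if_pos (e2.1 k2), if_neg k1, if_pos k2]
          norm_num
        · rw [if_neg (fun hc => k1 (e1.2 hc)), if_neg (fun hc => k2 (e2.2 hc)), if_neg k1,
            if_neg k2]
          norm_num
    · have hh' : ¬ ((B.eL ν.1 ν.2.1).val % KK h ν.1.1 = ν.1.2.val ∧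
          (B.eS ν.1 ν.2.2).val % KK h ν.1.1 = ν.1.2.val) := hh
      rw [if_neg hh']
      simp only [hh, false_and, if_false]
      norm_num
  rw [hx2] at hx
  simp only [Prod.mk.eta] at hx
  have hfin : (((R.filter (fun r => co1 r = ν)).card : ℤ) + ((R.filter (fun r => co2 r = ν)).card : ℤ)
      + ((if Home B ν ∧ UsedN B LQ a ν then 1 else 0 : ℕ) : ℤ))
      = (((R.filter (fun r => co3 r = ν)).card : ℤ) + ((R.filter (fun r => co4 r = ν)).card : ℤ)
      + ((if Home B ν ∧ ndE B ν ∈ LE then 1 else 0 : ℕ) : ℤ)) := by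
    rw [c1, c2, c3, c4]
    linarith
  exact_mod_cast hfin

end H77.LT
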