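import Mathlib

/-!
# Latin triangles: the geometry. Definitions (no proofs to fill)

`N = 2m+1`. `ZN m = Z/N`. Lines (in each of the three directions `κ : Fin 3`) are the classes
`{x,-x}` of nonzero residues, numbered by `Fin m` (class of `x` has number
`min x (N-x) - 1`). Cells are the zero sum triples of nonzero residues up to a common sign
(normal form: first coordinate with representative at most `m`). Symbols: `Fin n`.
Vertices: cells and entries `(κ, line, symbol)`. The edge `ed q s` consists of the cell `q` and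
the three entries `(κ, ln κ q, s)`. Stars: the cells on a line, the entries `(κ, l, *)` and the
entries `(κ, *, s)`.
-/

open Finset

namespace H77.LT

abbrev ZN (m : ℕ) : Type := ZMod (2 * m + 1)

def Valid {m : ℕ} (x : Fin 3 → ZN m) : Prop := (∀ i, x i ≠ 0) ∧ x 0 + x 1 + x 2 = 0

instance {m : ℕ} (x : Fin 3 → ZN m) : Decidable (Valid x) := by
  unfold Valid; infer_instance

/-- number of the class `{a,-a}`, between `1` and `m` for `a ≠ 0` -/
def cls {m : ℕ} (a : ZN m) : ℕ := min a.val (2 * m + 1 - a.val)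

theorem cls_pos {m : ℕ} {a : ZN m} (ha : a ≠ 0) : 1 ≤ cls a := by
  have h1 : a.val ≠ 0 := by
    intro h
    exact ha ((ZMod.val_eq_zero a).1 h)
  have h2 : a.val < 2 * m + 1 := ZMod.val_lt a
  unfold cls
  omega

theorem cls_le {m : ℕ} {a : ZN m} (_ha : a ≠ 0) : cls a ≤ m := by
  have h2 : a.val < 2 * m + 1 := ZMod.val_lt a
  unfold cls
  omega

theorem cls_sub_lt {m : ℕ} {a : ZN m} (ha : a ≠ 0) : cls a - 1 < m := by
  have := cls_pos ha
  have := cls_le ha
  omega

/-- the line of a nonzero residue -/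
def lnOf {m : ℕ} (a : ZN m) (ha : a ≠ 0) : Fin m := ⟨cls a - 1, cls_sub_lt ha⟩

abbrev Cell (m : ℕ) : Type := {x : Fin 3 → ZN m // Valid x ∧ (x 0).val ≤ m}

/-- the line of direction `κ` through a cell -/
def ln {m : ℕ} (κ : Fin 3) (q : Cell m) : Fin m := lnOf (q.1 κ) (q.2.1.1 κ)

theorem Valid.neg {m : ℕ} {x : Fin 3 → ZN m} (h : Valid x) : Valid (-x) := by
  refine ⟨fun i => ?_, ?_⟩
  · simpa using h.1 i
  · have : (-x) 0 + (-x) 1 + (-x) 2 = -(x 0 + x 1 + x 2) := by
      simp only [Pi.neg_apply]; ring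
    rw [this, h.2, neg_zero]

theorem val_neg_le {m : ℕ} {a : ZN m} (h : ¬ a.val ≤ m) : (-a).val ≤ m := by
  have h2 : a.val < 2 * m + 1 := ZMod.val_lt a
  have h0 : a ≠ 0 := by
    rintro rfl
    simp at h
  have : NeZero a := ⟨h0⟩
  rw [ZMod.val_neg_of_ne_zero]
  omega

/-- the cell of a valid triple -/
def mkc {m : ℕ} (x : Fin 3 → ZN m) (h : Valid x) : Cell m :=
  if hx : (x 0).val ≤ m then ⟨x, h, hx⟩ else ⟨-x, h.neg, val_neg_le hx⟩

abbrev Vt (m n : ℕ) : Type := Cell m ⊕ (Fin 3 × Fin m × Fin n)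

/-- stars: cells on a line / entries of a line / entries of a symbol -/
abbrev Star (m n : ℕ) : Type := (Fin 3 × Fin m) ⊕ (Fin 3 × Fin m) ⊕ (Fin 3 × Fin n)

def ed {m n : ℕ} (q : Cell m) (s : Fin n) : Finset (Vt m n) :=
  insert (Sum.inl q) (univ.image (fun κ : Fin 3 => (Sum.inr (κ, ln κ q, s) : Vt m n)))

def star {m n : ℕ} : Vt m n → Finset (Star m n)
  | Sum.inl q => univ.image (fun κ : Fin 3 => (Sum.inl (κ, ln κ q) : Star m n))
  | Sum.inr e => {Sum.inr (Sum.inl (e.1, e.2.1)), Sum.inr (Sum.inr (e.1, e.2.2))}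

/-- number of vertices of `U` in the star `σ` -/
def deg {m n : ℕ} (U : Finset (Vt m n)) (σ : Star m n) : ℕ :=
  (U.filter (fun v => σ ∈ star v)).card

/-- a set of pairwise disjoint edges -/
def Mat {m n : ℕ} (M : Finset (Cell m × Fin n)) : Prop :=
  ∀ e ∈ M, ∀ f ∈ M, e ≠ f → Disjoint (ed e.1 e.2) (ed f.1 f.2)

/-- the vertices covered by a set of edges -/
def cov {m n : ℕ} (M : Finset (Cell m × Fin n)) : Finset (Vt m n) :=
  M.biUnion (fun e => ed e.1 e.2)

/-- `W` is the vertex set of a matching -/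
def PM {m n : ℕ} (W : Finset (Vt m n)) : Prop := ∃ M, Mat M ∧ cov M = W

/-- entries as vertices -/
def ents {m n : ℕ} (F : Finset (Fin 3 × Fin m × Fin n)) : Finset (Vt m n) :=
  F.image Sum.inr

/-- cells as vertices -/
def cels {m n : ℕ} (X : Finset (Cell m)) : Finset (Vt m n) := X.image Sum.inl

/-- forbidden entries: the data of the core theorem -/
structure Forb (m n : ℕ) (F : Finset (Fin 3 × Fin m × Fin n)) : Prop where
  hn : n ≤ 2 * m + 3
  line : ∀ κ l, (F.filter (fun e => e.1 = κ ∧ e.2.1 = l)).card + (2 * m - 1) = n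
  symb : ∀ κ κ' s, (F.filter (fun e => e.1 = κ ∧ e.2.2 = s)).card
    = (F.filter (fun e => e.1 = κ' ∧ e.2.2 = s)).card
  symb2 : ∀ κ s, (F.filter (fun e => e.1 = κ ∧ e.2.2 = s)).card ≤ 2

end H77.LT
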