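import Pool.Agent.H77.LT.Base

/-!
# Latin triangles: blocks and the reserve. Definitions (no proofs to fill)

`h` even; `KK h = (h^4-1, h^4, h^4+1)`, pairwise coprime. `N = 2m+1`, `D = 2m-1` cells on a line.
`x0 h = 1/(1000 h^4)`. `Res m n h E F XQ XE`: properties of the reserve (cells `XQ`, entries `XE`).
-/

open Finset

namespace H77.LT

def KK (h : ℕ) : Fin 3 → ℕ := ![h ^ 4 - 1, h ^ 4, h ^ 4 + 1]

/-- block of a cell -/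
def blc {m : ℕ} (h : ℕ) (q : Cell m) : Fin 3 → ℕ := fun κ => (ln κ q).val % KK h κ

/-- block of a symbol -/
def bls {n : ℕ} (h : ℕ) (s : Fin n) : Fin 3 → ℕ := fun κ => s.val % KK h κ

/-- blocks -/
def IsBlk (h : ℕ) (b : Fin 3 → ℕ) : Prop := ∀ κ, b κ < KK h κ

/-- board entries of direction `κ` -/
def OnB {m n : ℕ} (h : ℕ) (e : Fin 3 × Fin m × Fin n) : Prop :=
  e.2.1.val % KK h e.1 = e.2.2.val % KK h e.1

instance {m n : ℕ} (h : ℕ) (e : Fin 3 × Fin m × Fin n) : Decidable (OnB h e) := by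
  unfold OnB; infer_instance

noncomputable def x0 (h : ℕ) : ℝ := 1 / (1000 * (h : ℝ) ^ 4)

structure Res (m n h E : ℕ) (F : Finset (Fin 3 × Fin m × Fin n)) (XQ : Finset (Cell m))
    (XE : Finset (Fin 3 × Fin m × Fin n)) : Prop where
  board : ∀ e ∈ XE, OnB h e
  forb : Disjoint XE F
  qline : ∀ κ l, |((XQ.filter (fun q => ln κ q = l)).card : ℝ) - x0 h * (2 * m + 1)|
    ≤ (2 * m + 1) / (h : ℝ) ^ E
  eline : ∀ κ l, |((XE.filter (fun e => e.1 = κ ∧ e.2.1 = l)).card : ℝ) - x0 h * (2 * m + 1)|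
    ≤ (2 * m + 1) / (h : ℝ) ^ E
  esymb : ∀ κ s, |((XE.filter (fun e => e.1 = κ ∧ e.2.2 = s)).card : ℝ) - x0 h * (2 * m + 1) / 2|
    ≤ (2 * m + 1) / (h : ℝ) ^ E
  supq : ∀ q : Cell m, (2 * m + 1) / (h : ℝ) ^ 13
    ≤ ((univ.filter (fun s : Fin n => ∀ κ, (κ, ln κ q, s) ∈ XE)).card : ℝ)
  supe : ∀ (κ : Fin 3) (l : Fin m) (s : Fin n), (2 * m + 1) / (h : ℝ) ^ 13
    ≤ ((XQ.filter (fun q => ln κ q = l ∧ ∀ κ', κ' ≠ κ → (κ', ln κ' q, s) ∈ XE)).card : ℝ)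
  blk : ∀ b, IsBlk h b →
    |((XQ.filter (fun q => blc h q = b)).card : ℝ)
        - x0 h * (2 * m + 1) ^ 2 / (2 * ((KK h 0 * KK h 1 * KK h 2 : ℕ) : ℝ))|
      ≤ (2 * m + 1) ^ 2 / (h : ℝ) ^ E
  blkline : ∀ (κ : Fin 3) (l : Fin m) (b : Fin 3 → ℕ),
    ((XQ.filter (fun q => blc h q = b ∧ ln κ q = l)).card : ℝ)
      ≤ 3 * x0 h * (2 * m + 1) / (h : ℝ) ^ 8
  eblk : ∀ (κ : Fin 3) (l : Fin m) (b : Fin 3 → ℕ),
    ((univ.filter (fun s : Fin n => bls h s = b ∧ (κ, l, s) ∈ XE)).card : ℝ)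
      ≤ 3 * x0 h * (2 * m + 1) / (h : ℝ) ^ 8

end H77.LT
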