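import Pool.Agent.H77.LT.Par

/-!
# [H77 LT BRDEX] Existence of the boards

Proof. `K = KK h κ ∈ {h^4-1, h^4, h^4+1}`, `h ≥ 10^9`. The class of `i` modulo `K` in `Fin m` has
between `⌊m/K⌋` and `⌊m/K⌋ + 1` elements. Let `M = m / (h^4+1)`, and let `tL` be minimal with
`m / (h^4 - 1) + 1 ≤ 2 ^ tL` (`Nat.clog 2`). Then every class has at most `2^tL` elements, and
`2^tL ≤ 2 (m/(h^4-1)) + 1 ≤ 3 M` (as `M ≥ h` is large and `m/(h^4-1) ≤ M + M/ (h^3) + 1`), so the
three classes `i, i+1, i+2` modulo `K` (distinct, `K ≥ 3`) have together at least `2^tL` elements.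
Choose a set of lines of size `2^tL` between class `i` and the union of the three classes
(`Finset.exists_subsuperset_card_eq`) and a bijection with `Fin tL → Bool` (cardinality `2^tL`).
A line `l` is in the sets of the residues `l, l-1, l-2` only: `mulL` with 3.
`szL`: `2^tL h^4 ≤ 3 M h^4 ≤ 3 m`. The same for symbols, `tS` minimal with
`n / (h^4-1) + 1 ≤ 2^tS`, `2^tS h^4 ≤ 3 n ≤ 3 (2m+3) ≤ 4 (2m+1)`.
`tLle`: `2^tL ≤ 4 (2m+1)` gives `tL ≤ log2 (2m+1) + 2`.
-/

open Finset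

namespace H77.LT

theorem brdex_KK (h : ℕ) (κ : Fin 3) : h ^ 4 - 1 ≤ KK h κ ∧ KK h κ ≤ h ^ 4 + 1 := by
  fin_cases κ
  · change h ^ 4 - 1 ≤ h ^ 4 - 1 ∧ h ^ 4 - 1 ≤ h ^ 4 + 1
    omega
  · change h ^ 4 - 1 ≤ h ^ 4 ∧ h ^ 4 ≤ h ^ 4 + 1
    omega
  · change h ^ 4 - 1 ≤ h ^ 4 + 1 ∧ h ^ 4 + 1 ≤ h ^ 4 + 1
    omega

/-- size of a residue class -/
theorem brdex_class (N K r : ℕ) (hK : 0 < K) (hr : r < K) :
    N / K ≤ (univ.filter (fun l : Fin N => l.val % K = r)).card ∧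
      (univ.filter (fun l : Fin N => l.val % K = r)).card ≤ N / K + 1 := by
  have h1 : (univ.filter (fun l : Fin N => l.val % K = r)).card =
      N.count (· ≡ r [MOD K]) := by
    rw [Nat.count_eq_card_filter_range]
    apply Finset.card_bij (fun l _ => l.val)
    · intro l hl
      rw [mem_filter] at hl ⊢
      refine ⟨mem_range.mpr l.isLt, ?_⟩
      change l.val % K = r % K
      rw [Nat.mod_eq_of_lt hr]
      exact hl.2
    · intro l _ l' _ hll
      exact Fin.ext hll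
    · intro x hx
      rw [mem_filter, mem_range] at hx
      refine ⟨⟨x, hx.1⟩, ?_, rfl⟩
      rw [mem_filter]
      refine ⟨mem_univ _, ?_⟩
      have h2 : x % K = r % K := hx.2
      rw [Nat.mod_eq_of_lt hr] at h2
      exact h2
  rw [h1, Nat.count_modEq_card N hK]
  split_ifs <;> omega

theorem brdex_mod_inj {K i i' j : ℕ} (hi : i < K) (hi' : i' < K)
    (h : (i + j) % K = (i' + j) % K) : i = i' := by
  have h1 : i + j ≡ i' + j [MOD K] := h
  have h2 : i ≡ i' [MOD K] := Nat.ModEq.add_right_cancel' j h1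
  have h3 : i % K = i' % K := h2
  rwa [Nat.mod_eq_of_lt hi, Nat.mod_eq_of_lt hi'] at h3

theorem brdex_mod_ne {K i j j' : ℕ} (hK : 3 ≤ K) (hj : j < 3) (hj' : j' < 3) (hne : j ≠ j') :
    (i + j) % K ≠ (i + j') % K := by
  intro h
  have h1 : i + j ≡ i + j' [MOD K] := h
  have h2 : j ≡ j' [MOD K] := Nat.ModEq.add_left_cancel' i h1
  have h3 : j % K = j' % K := h2
  rw [Nat.mod_eq_of_lt (by omega), Nat.mod_eq_of_lt (by omega)] at h3
  exact hne h3

/-- three consecutive classes -/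
def brdex_C (N K i : ℕ) : Finset (Fin N) :=
  (range 3).biUnion (fun j => univ.filter (fun l : Fin N => l.val % K = (i + j) % K))

theorem brdex_three (N K i : ℕ) (hK : 3 ≤ K) : 3 * (N / K) ≤ (brdex_C N K i).card := by
  unfold brdex_C
  rw [card_biUnion]
  · have h2 : ∀ j ∈ range 3, N / K ≤
        (univ.filter (fun l : Fin N => l.val % K = (i + j) % K)).card := fun j _ =>
      (brdex_class N K ((i + j) % K) (by omega) (Nat.mod_lt _ (by omega))).1
    have h3 := sum_le_sum h2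
    rw [sum_const, card_range, smul_eq_mul] at h3
    exact h3
  · intro j hj j' hj' hne
    rw [mem_coe, mem_range] at hj hj'
    rw [Function.onFun, Finset.disjoint_left]
    intro l hl hl'
    rw [mem_filter] at hl hl'
    exact brdex_mod_ne hK hj hj' hne (hl.2.symm.trans hl'.2)

/-- the number of rows -/
theorem brdex_T (a N : ℕ) (ha : 17 ≤ a) (hN : 3 * (a + 1) ≤ N) :
    ∃ t : ℕ, N / (a - 1) + 1 ≤ 2 ^ t ∧ 2 ^ t ≤ 3 * (N / (a + 1)) := by
  have ha1 : 0 < a - 1 := by omega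
  have hM : 3 ≤ N / (a + 1) := (Nat.le_div_iff_mul_le (by omega)).mpr hN
  have hq3 : 3 ≤ N / (a - 1) := (Nat.le_div_iff_mul_le ha1).mpr (by
    have : 3 * (a - 1) ≤ 3 * (a + 1) := by omega
    omega)
  have h1 := Nat.le_pow_clog (b := 2) (by norm_num) (N / (a - 1) + 1)
  have h2 := Nat.pow_pred_clog_lt_self (b := 2) (by norm_num)
    (show 1 < N / (a - 1) + 1 by omega)
  have h3 := Nat.clog_pos (b := 2) (by norm_num) (show 1 < N / (a - 1) + 1 by omega)
  refine ⟨Nat.clog 2 (N / (a - 1) + 1), h1, ?_⟩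
  obtain ⟨t, ht⟩ := Nat.exists_eq_succ_of_ne_zero h3.ne'
  rw [ht, Nat.pred_succ] at h2
  rw [ht, Nat.succ_eq_add_one, pow_succ]
  have hq : N / (a - 1) * (a - 1) ≤ N := Nat.div_mul_le_self N (a - 1)
  have hMN : N < (N / (a + 1) + 1) * (a + 1) := by
    have e1 := Nat.div_add_mod N (a + 1)
    have e2 := Nat.mod_lt N (show 0 < a + 1 by omega)
    rw [add_mul, one_mul, mul_comm (N / (a + 1))]
    omega
  obtain ⟨b, rfl⟩ : ∃ b, a = b + 1 := ⟨a - 1, by omega⟩
  rw [Nat.add_sub_cancel] at *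
  generalize N / b = q at *
  generalize N / (b + 1 + 1) = M at *
  by_contra hcon
  push Not at hcon
  have h4 : 3 * M + 1 ≤ 2 * q := by omega
  have h5 : (3 * M + 1) * b ≤ 2 * q * b := Nat.mul_le_mul_right b h4
  nlinarith

/-- the rows of one board -/
theorem brdex_one (N K i t : ℕ) (hK : 3 ≤ K) (hi : i < K) (h1 : N / K + 1 ≤ 2 ^ t)
    (h2 : 2 ^ t ≤ 3 * (N / K)) :
    ∃ e : (Fin t → Bool) → Fin N, Function.Injective e ∧
      (∀ l : Fin N, l.val % K = i → ∃ u, e u = l) ∧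
      ∀ u, ∃ j < 3, (e u).val % K = (i + j) % K := by
  obtain ⟨U, hU1, hU2, hU3⟩ := Finset.exists_subsuperset_card_eq
    (s := univ.filter (fun l : Fin N => l.val % K = i))
    (t := brdex_C N K i) (n := 2 ^ t)
    (by
      intro l hl
      rw [mem_filter] at hl
      unfold brdex_C
      rw [mem_biUnion]
      refine ⟨0, by norm_num, ?_⟩
      rw [mem_filter, add_zero, Nat.mod_eq_of_lt hi]
      exact hl)
    (((brdex_class N K i (by omega) hi).2.trans h1))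
    (h2.trans (brdex_three N K i hK))
  have hcard : Fintype.card (Fin t → Bool) = Fintype.card U := by
    rw [Fintype.card_coe, hU3, Fintype.card_fun, Fintype.card_bool, Fintype.card_fin]
  let E := Fintype.equivOfCardEq hcard
  refine ⟨fun u => (E u : Fin N), ?_, ?_, ?_⟩
  · intro u u' h
    exact E.injective (Subtype.ext h)
  · intro l hl
    have hlU : l ∈ U := hU1 (mem_filter.mpr ⟨mem_univ _, hl⟩)
    refine ⟨E.symm ⟨l, hlU⟩, ?_⟩
    change (E (E.symm ⟨l, hlU⟩) : Fin N) = l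
    rw [Equiv.apply_symm_apply]
  · intro u
    have h3 := hU2 (E u).2
    unfold brdex_C at h3
    rw [mem_biUnion] at h3
    obtain ⟨j, hj, h4⟩ := h3
    exact ⟨j, mem_range.mp hj, (mem_filter.mp h4).2⟩

theorem brdex_side (N h : ℕ) (h17 : 17 ≤ h ^ 4) (hN : 3 * (h ^ 4 + 1) ≤ N) :
    ∃ (t : ℕ) (e : BI h → (Fin t → Bool) → Fin N),
      (∀ b, Function.Injective (e b)) ∧
      (∀ (κ : Fin 3) (l : Fin N), ∃ (i : Fin (KK h κ)) (u : Fin t → Bool),
        i.val = l.val % KK h κ ∧ e ⟨κ, i⟩ u = l) ∧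
      (∀ (κ : Fin 3) (l : Fin N),
        (univ.filter (fun x : Fin (KK h κ) × (Fin t → Bool) => e ⟨κ, x.1⟩ x.2 = l)).card ≤ 3) ∧
      2 ^ t * h ^ 4 ≤ 3 * N := by
  obtain ⟨t, ht1, ht2⟩ := brdex_T (h ^ 4) N h17 hN
  have hone : ∀ b : BI h, ∃ e : (Fin t → Bool) → Fin N, Function.Injective e ∧
      (∀ l : Fin N, l.val % KK h b.1 = b.2.val → ∃ u, e u = l) ∧
      ∀ u, ∃ j < 3, (e u).val % KK h b.1 = (b.2.val + j) % KK h b.1 := by
    rintro ⟨κ, i⟩
    have hK := brdex_KK h κ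
    apply brdex_one N (KK h κ) i.val t (by omega) i.isLt
    · refine le_trans ?_ ht1
      apply Nat.add_le_add_right
      exact Nat.div_le_div_left hK.1 (by omega)
    · refine ht2.trans ?_
      apply Nat.mul_le_mul_left
      exact Nat.div_le_div_left hK.2 (by omega)
  choose e he1 he2 he3 using hone
  refine ⟨t, e, he1, ?_, ?_, ?_⟩
  · intro κ l
    have hK := brdex_KK h κ
    obtain ⟨u, hu⟩ := he2 ⟨κ, ⟨l.val % KK h κ, Nat.mod_lt _ (by omega)⟩⟩ l rfl
    exact ⟨⟨l.val % KK h κ, Nat.mod_lt _ (by omega)⟩, u, rfl, hu⟩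
  · intro κ l
    choose j hj1 hj2 using fun (x : Fin (KK h κ) × (Fin t → Bool)) => he3 ⟨κ, x.1⟩ x.2
    refine (Finset.card_le_card_of_injOn (t := range 3) j ?_ ?_).trans (by rw [card_range])
    · intro x _
      rw [coe_range, Set.mem_Iio]
      exact hj1 x
    · intro x hx x' hx' hxx
      rw [mem_coe, mem_filter] at hx hx'
      have e1 := hj2 x
      have e2 := hj2 x'
      rw [hx.2] at e1
      rw [hx'.2, ← hxx] at e2
      have e3 : x.1.val = x'.1.val := brdex_mod_inj x.1.isLt x'.1.isLt (e1.symm.trans e2)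
      obtain ⟨i, u⟩ := x
      obtain ⟨i', u'⟩ := x'
      have e4 : i = i' := Fin.ext e3
      subst e4
      have e5 : e ⟨κ, i⟩ u = e ⟨κ, i⟩ u' := hx.2.trans hx'.2.symm
      rw [he1 _ e5]
  · have hq : N / (h ^ 4 + 1) * (h ^ 4 + 1) ≤ N := Nat.div_mul_le_self _ _
    calc 2 ^ t * h ^ 4 ≤ 3 * (N / (h ^ 4 + 1)) * h ^ 4 := Nat.mul_le_mul_right _ ht2
      _ ≤ 3 * (N / (h ^ 4 + 1)) * (h ^ 4 + 1) := Nat.mul_le_mul_left _ (by omega)
      _ = 3 * (N / (h ^ 4 + 1) * (h ^ 4 + 1)) := by ring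
      _ ≤ 3 * N := Nat.mul_le_mul_left _ hq

theorem brdex_log {t a x : ℕ} (ha : 1 ≤ a) (h : 2 ^ t * a ≤ 4 * x) :
    t ≤ Nat.log 2 x + 2 := by
  have h1 : x < 2 ^ (Nat.log 2 x).succ := Nat.lt_pow_succ_log_self (by norm_num) x
  have h2 : 2 ^ t < 2 ^ (Nat.log 2 x + 3) := by
    calc 2 ^ t = 2 ^ t * 1 := (mul_one _).symm
      _ ≤ 2 ^ t * a := Nat.mul_le_mul_left _ ha
      _ ≤ 4 * x := h
      _ < 4 * 2 ^ (Nat.log 2 x).succ := by omega
      _ = 2 ^ (Nat.log 2 x + 3) := by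
        rw [Nat.succ_eq_add_one, pow_succ, pow_add]
        ring
  have h3 := (Nat.pow_lt_pow_iff_right (by norm_num)).mp h2
  omega

theorem exists_brd (m n h : ℕ) (hp : Par m n h) : ∃ tL tS : ℕ, Nonempty (Brd m n h tL tS) := by
  have hh : 10 ^ 9 ≤ h := by
    refine le_trans ?_ hp.hlog
    have : 1 ≤ (Nat.log 2 (2 * m + 1) + 2) ^ 4 := Nat.one_le_pow _ _ (by omega)
    omega
  have hh2 : 2 ≤ h := by
    have : 2 ≤ 10 ^ 9 := by norm_num
    omega
  have ha : 256 ≤ h ^ 4 := by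
    have h4 : 4 ^ 4 ≤ h ^ 4 := Nat.pow_le_pow_left (by
      have : 4 ≤ 10 ^ 9 := by norm_num
      omega) 4
    have e : 4 ^ 4 = 256 := by norm_num
    omega
  have hN := hp.hN
  have h20 : h ^ 4 * 256 ≤ h ^ 20 := by
    have e : h ^ 20 = h ^ 4 * (h ^ 4 * (h ^ 12)) := by ring
    rw [e]
    apply Nat.mul_le_mul_left
    calc 256 ≤ h ^ 4 := ha
      _ = h ^ 4 * 1 := (mul_one _).symm
      _ ≤ h ^ 4 * h ^ 12 := Nat.mul_le_mul_left _ (Nat.one_le_pow _ _ (by omega))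
  have n1 := hp.n1
  have n2 := hp.n2
  obtain ⟨tL, eL, l1, l2, l3, l4⟩ := brdex_side m h (by omega) (by omega)
  obtain ⟨tS, eS, s1, s2, s3, s4⟩ := brdex_side n h (by omega) (by omega)
  have szL : 2 ^ tL * h ^ 4 ≤ 4 * (2 * m + 1) := by omega
  have szS : 2 ^ tS * h ^ 4 ≤ 4 * (2 * m + 1) := by omega
  exact ⟨tL, tS, ⟨{
    eL := eL
    eS := eS
    injL := l1
    injS := s1
    covL := l2
    covS := s2
    mulL := l3
    mulS := s3
    szL := szL
    szS := szS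
    tLle := brdex_log (by omega) szL
    tSle := brdex_log (by omega) szS }⟩⟩

end H77.LT
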