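import Pool.Agent.H77.LT.Blocks

/-!
# [H77 LT CNTA] Residue counts for lines and symbols

The three moduli `h^4-1, h^4, h^4+1` are pairwise coprime because `h` is even (the difference of the
outer two is 2 and they are odd). The number of elements of `{0..M-1}` in a residue class modulo `K` is
`⌊M/K⌋` or `⌊M/K⌋ + 1`; by the Chinese remainder theorem the conditions `s % KK h κ = b κ` for
the three `κ` are one residue class modulo the product. `|n - (2m+1)| ≤ 2`.
-/

open Finset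

namespace H77.LT

variable {m n h : ℕ}

theorem cnta_pow (hh : 2 ≤ h) : 16 ≤ h ^ 4 := by
  calc 16 = 2 ^ 4 := by norm_num
    _ ≤ h ^ 4 := Nat.pow_le_pow_left hh 4

theorem cnta_KK0 (h : ℕ) : KK h 0 = h ^ 4 - 1 := rfl
theorem cnta_KK1 (h : ℕ) : KK h 1 = h ^ 4 := rfl
theorem cnta_KK2 (h : ℕ) : KK h 2 = h ^ 4 + 1 := rfl

theorem KK_pos (hh : 2 ≤ h) (κ : Fin 3) : 3 ≤ KK h κ := by
  have h1 := cnta_pow hh
  fin_cases κ
  · change 3 ≤ h ^ 4 - 1
    omega
  · change 3 ≤ h ^ 4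
    omega
  · change 3 ≤ h ^ 4 + 1
    omega

theorem cnta_cop01 (hh : 2 ≤ h) : Nat.Coprime (KK h 0) (KK h 1) := by
  have h1 := cnta_pow hh
  have e : KK h 1 = KK h 0 + 1 := by
    rw [cnta_KK0, cnta_KK1]; omega
  rw [e]
  exact Nat.coprime_self_add_right.2 (Nat.coprime_one_right _)

theorem cnta_cop12 (h : ℕ) : Nat.Coprime (KK h 1) (KK h 2) := by
  have e : KK h 2 = KK h 1 + 1 := by
    rw [cnta_KK1, cnta_KK2]
  rw [e]
  exact Nat.coprime_self_add_right.2 (Nat.coprime_one_right _)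

theorem cnta_cop02 (he : Even h) (hh : 2 ≤ h) : Nat.Coprime (KK h 0) (KK h 2) := by
  have h1 := cnta_pow hh
  have e : KK h 2 = KK h 0 + 2 := by
    rw [cnta_KK0, cnta_KK2]; omega
  have h2 : Even (h ^ 4) := by
    exact he.pow_of_ne_zero (by norm_num)
  have h3 : Odd (KK h 0) := by
    rw [cnta_KK0]
    obtain ⟨r, hr⟩ := h2
    exact ⟨r - 1, by omega⟩
  rw [e]
  exact Nat.coprime_self_add_right.2 (Nat.coprime_two_right.2 h3)

theorem KK_coprime (he : Even h) (hh : 2 ≤ h) (κ κ' : Fin 3) (hne : κ ≠ κ') :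
    Nat.Coprime (KK h κ) (KK h κ') := by
  have a := cnta_cop01 hh
  have b := cnta_cop12 h
  have c := cnta_cop02 he hh
  fin_cases κ <;> fin_cases κ'
  · exact absurd rfl hne
  · exact a
  · exact c
  · exact a.symm
  · exact absurd rfl hne
  · exact b
  · exact c.symm
  · exact b.symm
  · exact absurd rfl hne

theorem KK_bounds (hh : 2 ≤ h) (κ : Fin 3) :
    h ^ 4 - 1 ≤ KK h κ ∧ KK h κ ≤ h ^ 4 + 1 := by
  have h1 := cnta_pow hh
  fin_cases κ
  · change h ^ 4 - 1 ≤ h ^ 4 - 1 ∧ h ^ 4 - 1 ≤ h ^ 4 + 1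
    omega
  · change h ^ 4 - 1 ≤ h ^ 4 ∧ h ^ 4 ≤ h ^ 4 + 1
    omega
  · change h ^ 4 - 1 ≤ h ^ 4 + 1 ∧ h ^ 4 + 1 ≤ h ^ 4 + 1
    omega

theorem cnta_fin (m K i : ℕ) (hi : i < K) :
    (univ.filter (fun l : Fin m => l.val % K = i)).card
      = m / K + if i < m % K then 1 else 0 := by
  have h1 : (univ.filter (fun l : Fin m => l.val % K = i)).card
      = ((range m).filter (fun l => l % K = i)).card := by
    rw [Finset.card_filter, Finset.card_filter]
    exact Fin.sum_univ_eq_sum_range (fun l => if l % K = i then 1 else 0) m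
  have h2 := Nat.count_modEq_card m (r := K) (by omega) i
  rw [Nat.count_eq_card_filter_range] at h2
  rw [h1, Nat.mod_eq_of_lt hi] at *
  rw [← h2]
  congr 1
  apply Finset.filter_congr
  intro x _
  constructor
  · intro hx
    change x % K = i % K
    rw [hx, Nat.mod_eq_of_lt hi]
  · intro hx
    have hx' : x % K = i % K := hx
    rw [hx', Nat.mod_eq_of_lt hi]

theorem cnta_abs (m K i : ℕ) (hi : i < K) :
    |((univ.filter (fun l : Fin m => l.val % K = i)).card : ℝ) - m / (K : ℝ)| ≤ 1 := by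
  rw [cnta_fin m K i hi]
  have hK : (0 : ℝ) < K := by
    have : 0 < K := by omega
    exact_mod_cast this
  have hm : (m : ℝ) = K * ((m / K : ℕ) : ℝ) + ((m % K : ℕ) : ℝ) := by
    exact_mod_cast (Nat.div_add_mod m K).symm
  have hq : (m : ℝ) / K = ((m / K : ℕ) : ℝ) + ((m % K : ℕ) : ℝ) / K := by
    rw [div_eq_iff hK.ne', add_mul, div_mul_cancel₀ _ hK.ne']
    linarith [hm]
  have h0 : (0 : ℝ) ≤ ((m % K : ℕ) : ℝ) / K := by positivity
  have h1 : ((m % K : ℕ) : ℝ) / K ≤ 1 := by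
    rw [div_le_one hK]
    exact_mod_cast (Nat.mod_lt m (by omega)).le
  rw [hq, abs_le]
  push_cast
  split_ifs
  · constructor <;> linarith
  · constructor <;> linarith

theorem cnt_lines (hh : 2 ≤ h) (κ : Fin 3) (i : ℕ) (hi : i < KK h κ) :
    |((univ.filter (fun l : Fin m => l.val % KK h κ = i)).card : ℝ) - m / (KK h κ : ℝ)| ≤ 1 :=
  cnta_abs m (KK h κ) i hi

theorem cnt_symbs (hh : 2 ≤ h) (κ : Fin 3) (i : ℕ) (hi : i < KK h κ) :
    |((univ.filter (fun s : Fin n => s.val % KK h κ = i)).card : ℝ) - n / (KK h κ : ℝ)| ≤ 1 :=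
  cnta_abs n (KK h κ) i hi

theorem cnta_crt (he : Even h) (hh : 2 ≤ h) (b : Fin 3 → ℕ) (hb : IsBlk h b) :
    ∃ r, r < KK h 0 * KK h 1 * KK h 2 ∧
      ∀ s : ℕ, (∀ κ, s % KK h κ = b κ) ↔ s % (KK h 0 * KK h 1 * KK h 2) = r := by
  have c01 := cnta_cop01 hh
  have c012 : Nat.Coprime (KK h 0 * KK h 1) (KK h 2) :=
    Nat.Coprime.mul_left (cnta_cop02 he hh) (cnta_cop12 h)
  obtain ⟨z1, hz1, hz1'⟩ := Nat.chineseRemainder c01 (b 0) (b 1)
  obtain ⟨z2, hz2, hz2'⟩ := Nat.chineseRemainder c012 z1 (b 2)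
  have hP : 0 < KK h 0 * KK h 1 * KK h 2 := by
    have a0 := KK_pos hh 0
    have a1 := KK_pos hh 1
    have a2 := KK_pos hh 2
    positivity
  refine ⟨z2 % (KK h 0 * KK h 1 * KK h 2), Nat.mod_lt _ hP, fun s => ?_⟩
  have hb0 : b 0 % KK h 0 = b 0 := Nat.mod_eq_of_lt (hb 0)
  have hb1 : b 1 % KK h 1 = b 1 := Nat.mod_eq_of_lt (hb 1)
  have hb2 : b 2 % KK h 2 = b 2 := Nat.mod_eq_of_lt (hb 2)
  have e0 : z2 ≡ b 0 [MOD KK h 0] := (Nat.ModEq.of_mul_right _ hz2).trans hz1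
  have e1 : z2 ≡ b 1 [MOD KK h 1] := (Nat.ModEq.of_mul_left _ hz2).trans hz1'
  have e2 : z2 ≡ b 2 [MOD KK h 2] := hz2'
  constructor
  · intro hs
    have s0 : s ≡ z2 [MOD KK h 0] := by
      have : s ≡ b 0 [MOD KK h 0] := by
        change s % KK h 0 = b 0 % KK h 0
        rw [hs 0, hb0]
      exact this.trans e0.symm
    have s1 : s ≡ z2 [MOD KK h 1] := by
      have : s ≡ b 1 [MOD KK h 1] := by
        change s % KK h 1 = b 1 % KK h 1
        rw [hs 1, hb1]
      exact this.trans e1.symm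
    have s2 : s ≡ z2 [MOD KK h 2] := by
      have : s ≡ b 2 [MOD KK h 2] := by
        change s % KK h 2 = b 2 % KK h 2
        rw [hs 2, hb2]
      exact this.trans e2.symm
    have s01 : s ≡ z2 [MOD KK h 0 * KK h 1] := (Nat.modEq_and_modEq_iff_modEq_mul c01).1 ⟨s0, s1⟩
    exact (Nat.modEq_and_modEq_iff_modEq_mul c012).1 ⟨s01, s2⟩
  · intro hs
    have hs' : s ≡ z2 [MOD KK h 0 * KK h 1 * KK h 2] := hs
    have t01 : s ≡ z2 [MOD KK h 0 * KK h 1] := Nat.ModEq.of_mul_right _ hs'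
    have t2 : s ≡ z2 [MOD KK h 2] := Nat.ModEq.of_mul_left _ hs'
    have t0 : s ≡ z2 [MOD KK h 0] := Nat.ModEq.of_mul_right _ t01
    have t1 : s ≡ z2 [MOD KK h 1] := Nat.ModEq.of_mul_left _ t01
    have u0 : s % KK h 0 = b 0 := by
      have := t0.trans e0
      change s % KK h 0 = b 0 % KK h 0 at this
      rw [this, hb0]
    have u1 : s % KK h 1 = b 1 := by
      have := t1.trans e1
      change s % KK h 1 = b 1 % KK h 1 at this
      rw [this, hb1]
    have u2 : s % KK h 2 = b 2 := by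
      have := t2.trans e2
      change s % KK h 2 = b 2 % KK h 2 at this
      rw [this, hb2]
    intro κ
    fin_cases κ
    · exact u0
    · exact u1
    · exact u2

theorem cnt_symblk (he : Even h) (hh : 2 ≤ h) (b : Fin 3 → ℕ) (hb : IsBlk h b) :
    |((univ.filter (fun s : Fin n => bls h s = b)).card : ℝ)
      - n / ((KK h 0 * KK h 1 * KK h 2 : ℕ) : ℝ)| ≤ 1 := by
  obtain ⟨r, hr, hiff⟩ := cnta_crt he hh b hb
  have e : univ.filter (fun s : Fin n => bls h s = b)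
      = univ.filter (fun s : Fin n => s.val % (KK h 0 * KK h 1 * KK h 2) = r) := by
    apply Finset.filter_congr
    intro s _
    rw [← hiff s.val]
    constructor
    · intro hs κ
      rw [← hs]
      rfl
    · intro hs
      funext κ
      exact hs κ
  rw [e]
  exact cnta_abs n (KK h 0 * KK h 1 * KK h 2) r hr

end H77.LT
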