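import Pool.Agent.H77.LT.CntA
import Pool.Agent.H77.LT.Geo

/-!
# [H77 LT CNTL] Cells on a line with given blocks

Let `κ, κ', κ''` be the three directions, `l` a line of direction `κ`, `a = l + 1 ∈ [1,m]`,
`N = 2m+1`. The cells on the line correspond to (normalise the sign so that the coordinate `κ` is the
residue of `a`; the coordinate `κ'` is `±y`, `y ∈ [1,m]`, the third one is `-(a ± y)`):
type 1: `y ∈ [1, m-a]`, third line number `z = a + y`;
type 2: `y ∈ [m-a+1, m]`, `z = N - a - y`;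
type 3: `y ∈ [1, a-1]`, `z = a - y`;
type 4: `y ∈ [a+1, m]`, `z = y - a`
(`z ∈ [1,m]` is the class number; the lines are `y - 1`, `z - 1` as elements of `Fin m`).
In each type the conditions `(y-1) % K' = b κ'`, `(z-1) % K'' = b κ''` are one residue class of `y`
modulo `K' K''` (coprime), so the number of `y` is `length/(K'K'')` up to one. The lengths add up to
`2m - 1`. Total error at most `4 + 2/(K'K'') ≤ 20`.
-/

open Finset

namespace H77.LT

variable {m h : ℕ}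

theorem CntL_idx (κ i : Fin 3) : i = κ ∨ i = κ + 1 ∨ i = κ + 2 := by
  fin_cases κ <;> fin_cases i <;> decide

theorem CntL_ne (κ : Fin 3) : κ ≠ κ + 1 ∧ κ + 2 ≠ κ ∧ κ + 2 ≠ κ + 1 := by
  fin_cases κ <;> decide

theorem CntL_prod (κ : Fin 3) : KK h 0 * KK h 1 * KK h 2 =
    KK h κ * (KK h (κ + 1) * KK h (κ + 2)) := by
  fin_cases κ
  · simp only [Fin.zero_eta, zero_add]
    ring
  · show KK h 0 * KK h 1 * KK h 2 = KK h 1 * (KK h 2 * KK h 0)
    ring
  · show KK h 0 * KK h 1 * KK h 2 = KK h 2 * (KK h 0 * KK h 1)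
    ring

/-- one residue class in an interval -/
theorem CntL_one (A B : ℤ) (hAB : A ≤ B) (M : ℤ) (hM : 0 < M) (v : ℤ) :
    |((((Finset.Ico A B).filter (fun y => y ≡ v [ZMOD M])).card : ℤ) : ℝ) - (B - A) / M| ≤ 1 := by
  have h1 := Int.Ico_filter_modEq_card A B hM v
  have hMq : (0 : ℚ) < (M : ℚ) := by exact_mod_cast hM
  have h2 : ⌈((A : ℚ) - v) / (M : ℚ)⌉ ≤ ⌈((B : ℚ) - v) / (M : ℚ)⌉ := by
    apply Int.ceil_le_ceil
    apply div_le_div_of_nonneg_right _ hMq.le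
    have : (A : ℚ) ≤ B := by exact_mod_cast hAB
    linarith
  rw [max_eq_left (by linarith)] at h1
  have h3 : (((((Finset.Ico A B).filter (fun y => y ≡ v [ZMOD M])).card : ℤ) : ℚ)) =
      ⌈((B : ℚ) - v) / (M : ℚ)⌉ - ⌈((A : ℚ) - v) / (M : ℚ)⌉ := by
    rw [h1]
    push_cast
    ring
  have h4 : |((((Finset.Ico A B).filter (fun y => y ≡ v [ZMOD M])).card : ℤ) : ℚ) -
      (B - A) / M| ≤ 1 := by
    rw [h3, abs_le]
    have e1 := Int.le_ceil (((B : ℚ) - v) / (M : ℚ))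
    have e2 := Int.ceil_lt_add_one (((B : ℚ) - v) / (M : ℚ))
    have e3 := Int.le_ceil (((A : ℚ) - v) / (M : ℚ))
    have e4 := Int.ceil_lt_add_one (((A : ℚ) - v) / (M : ℚ))
    have e5 : ((B : ℚ) - A) / M = ((B : ℚ) - v) / (M : ℚ) - ((A : ℚ) - v) / (M : ℚ) := by
      rw [← sub_div]
      congr 1
      ring
    rw [e5]
    constructor <;> linarith
  have h5 : ((|((((Finset.Ico A B).filter (fun y => y ≡ v [ZMOD M])).card : ℤ) : ℚ) -
      (B - A) / M| : ℚ) : ℝ) ≤ ((1 : ℚ) : ℝ) := by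
    exact_mod_cast h4
  push_cast at h5 ⊢
  exact h5

/-- two residue classes for coprime moduli -/
theorem CntL_two (A B : ℤ) (hAB : A ≤ B) (K L : ℕ) (hK : 0 < K) (hL : 0 < L)
    (hc : Nat.Coprime K L) (v w : ℤ) :
    |(((Finset.Ico A B).filter (fun y => y ≡ v [ZMOD K] ∧ y ≡ w [ZMOD L])).card : ℝ) -
      (B - A) / ((K : ℝ) * L)| ≤ 1 := by
  obtain ⟨z, hz1, hz2⟩ : ∃ z : ℤ, z ≡ v [ZMOD K] ∧ z ≡ w [ZMOD L] := by
    have hcop : IsCoprime (K : ℤ) (L : ℤ) := Nat.isCoprime_iff_coprime.2 hc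
    obtain ⟨a, b, hab⟩ := hcop
    refine ⟨v * (b * L) + w * (a * K), ?_, ?_⟩
    · rw [Int.modEq_iff_dvd]
      refine ⟨(v - w) * a, ?_⟩
      linear_combination (v : ℤ) * (-hab)
    · rw [Int.modEq_iff_dvd]
      refine ⟨(w - v) * b, ?_⟩
      linear_combination (w : ℤ) * (-hab)
  have h1 : ∀ y : ℤ, (y ≡ v [ZMOD K] ∧ y ≡ w [ZMOD L]) ↔ y ≡ z [ZMOD ((K * L : ℕ) : ℤ)] := by
    intro y
    push_cast
    rw [← Int.modEq_and_modEq_iff_modEq_mul (by simpa using hc)]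
    constructor
    · rintro ⟨h1, h2⟩
      exact ⟨h1.trans hz1.symm, h2.trans hz2.symm⟩
    · rintro ⟨h1, h2⟩
      exact ⟨h1.trans hz1, h2.trans hz2⟩
  have h2 := CntL_one A B hAB ((K * L : ℕ) : ℤ) (by positivity) z
  simp only [← h1] at h2
  push_cast at h2 ⊢
  exact h2

/-- the second coordinates of the cells on the line `a` -/
def CntL_Y (m a K L b' b'' : ℕ) : Finset ℕ :=
  (Finset.Ico 1 (2 * m + 1)).filter (fun y => y ≠ 2 * m + 1 - a ∧
    (min y (2 * m + 1 - y) - 1) % K = b' ∧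
    (min ((a + y) % (2 * m + 1)) (2 * m + 1 - (a + y) % (2 * m + 1)) - 1) % L = b'')

theorem CntL_cast_val {y : ℕ} (hy : y < 2 * m + 1) : ((y : ZN m)).val = y :=
  ZMod.val_cast_of_lt hy

theorem CntL_cast_ne {y : ℕ} (hy : y < 2 * m + 1) (h0 : 1 ≤ y) : (y : ZN m) ≠ 0 := by
  intro h
  have h1 := CntL_cast_val (m := m) hy
  rw [h, ZMod.val_zero] at h1
  omega

theorem CntL_add_ne {a y : ℕ} (hy : y < 2 * m + 1) (hy1 : 1 ≤ y) (ha : a < 2 * m + 1)
    (hne : y ≠ 2 * m + 1 - a) : (a : ZN m) ≠ -(y : ZN m) := by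
  intro h
  have h1 := congrArg ZMod.val h
  rw [geo_val_neg (CntL_cast_ne hy hy1), CntL_cast_val ha, CntL_cast_val hy] at h1
  omega

theorem CntL_cls_neg {x : ZN m} (hx : x ≠ 0) : cls (-x) = cls x := by
  unfold cls
  rw [geo_val_neg hx]
  have := ZMod.val_lt x
  omega

theorem CntL_cells (κ : Fin 3) (l : Fin m) (b : Fin 3 → ℕ) (hl : l.val % KK h κ = b κ) :
    (univ.filter (fun q : Cell m => blc h q = b ∧ ln κ q = l)).card =
      (CntL_Y m (l.val + 1) (KK h (κ + 1)) (KK h (κ + 2)) (b (κ + 1)) (b (κ + 2))).card := by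
  obtain ⟨hk1, hk2, hk3⟩ := CntL_ne κ
  have hlm := l.isLt
  have ha1 : l.val + 1 < 2 * m + 1 := by omega
  have ha : ((l.val + 1 : ℕ) : ZN m) ≠ 0 := CntL_cast_ne ha1 (by omega)
  have hla : lnOf ((l.val + 1 : ℕ) : ZN m) ha = l := by
    apply Fin.ext
    change cls ((l.val + 1 : ℕ) : ZN m) - 1 = l.val
    rw [cls, CntL_cast_val ha1]
    omega
  have hval : ∀ y ∈ CntL_Y m (l.val + 1) (KK h (κ + 1)) (KK h (κ + 2)) (b (κ + 1)) (b (κ + 2)),
      Valid (geo_tr κ (κ + 1) ((l.val + 1 : ℕ) : ZN m) (y : ZN m)) := by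
    intro y hy
    unfold CntL_Y at hy
    rw [mem_filter, mem_Ico] at hy
    exact geo_tr_valid hk1 ha (CntL_cast_ne hy.1.2 hy.1.1) (CntL_add_ne hy.1.2 hy.1.1 ha1 hy.2.1)
  -- the conditions for a cell
  have hcond : ∀ (y : ℕ) (hy1 : 1 ≤ y) (hy2 : y < 2 * m + 1) (hy3 : y ≠ 2 * m + 1 - (l.val + 1))
      (hv : Valid (geo_tr κ (κ + 1) ((l.val + 1 : ℕ) : ZN m) (y : ZN m))),
      (blc h (mkc _ hv) = b ↔ ((min y (2 * m + 1 - y) - 1) % KK h (κ + 1) = b (κ + 1) ∧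
        (min ((l.val + 1 + y) % (2 * m + 1)) (2 * m + 1 - (l.val + 1 + y) % (2 * m + 1)) - 1) %
          KK h (κ + 2) = b (κ + 2))) := by
    intro y hy1 hy2 hy3 hv
    have e1 := geo_ln_mkc hk1 ha (CntL_cast_ne hy2 hy1) hv
    have e2 : (ln (κ + 1) (mkc _ hv)).val = min y (2 * m + 1 - y) - 1 := by
      rw [e1.2]
      change cls (y : ZN m) - 1 = _
      rw [cls, CntL_cast_val hy2]
    have hne : ((l.val + 1 : ℕ) : ZN m) + (y : ZN m) ≠ 0 := by
      intro h0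
      exact CntL_add_ne hy2 hy1 ha1 hy3 (eq_neg_of_add_eq_zero_left h0)
    have e3 : (ln (κ + 2) (mkc _ hv)).val =
        min ((l.val + 1 + y) % (2 * m + 1)) (2 * m + 1 - (l.val + 1 + y) % (2 * m + 1)) - 1 := by
      rw [ln_mkc]
      change cls (geo_tr κ (κ + 1) ((l.val + 1 : ℕ) : ZN m) (y : ZN m) (κ + 2)) - 1 = _
      have e4 : geo_tr κ (κ + 1) ((l.val + 1 : ℕ) : ZN m) (y : ZN m) (κ + 2) =
          -(((l.val + 1 : ℕ) : ZN m) + (y : ZN m)) := by
        unfold geo_tr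
        rw [if_neg hk2, if_neg hk3]
        ring
      rw [e4, CntL_cls_neg hne, cls, ZMod.val_add, CntL_cast_val ha1, CntL_cast_val hy2]
    constructor
    · intro hb
      have f1 := congrFun hb (κ + 1)
      have f2 := congrFun hb (κ + 2)
      unfold blc at f1 f2
      rw [e2] at f1
      rw [e3] at f2
      exact ⟨f1, f2⟩
    · rintro ⟨f1, f2⟩
      funext i
      unfold blc
      rcases CntL_idx κ i with rfl | rfl | rfl
      · rw [e1.1, hla]
        exact hl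
      · rw [e2]
        exact f1
      · rw [e3]
        exact f2
  symm
  refine Finset.card_bij (fun y hy => mkc _ (hval y hy)) ?_ ?_ ?_
  · intro y hy
    have hy' := hy
    unfold CntL_Y at hy'
    rw [mem_filter, mem_Ico] at hy'
    rw [mem_filter]
    refine ⟨mem_univ _, ?_, ?_⟩
    · exact (hcond y hy'.1.1 hy'.1.2 hy'.2.1 (hval y hy)).2 hy'.2.2
    · rw [(geo_ln_mkc hk1 ha (CntL_cast_ne hy'.1.2 hy'.1.1) (hval y hy)).1, hla]
  · intro y hy y' hy' hyy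
    have g1 := hy
    have g2 := hy'
    unfold CntL_Y at g1 g2
    rw [mem_filter, mem_Ico] at g1 g2
    rw [mkc_eq_iff] at hyy
    rcases hyy with hyy | hyy
    · have e1 := congrFun hyy (κ + 1)
      rw [geo_tr_snd hk1, geo_tr_snd hk1] at e1
      have e2 := congrArg ZMod.val e1
      rw [CntL_cast_val g1.1.2, CntL_cast_val g2.1.2] at e2
      exact e2
    · have e1 := congrFun hyy κ
      rw [Pi.neg_apply, geo_tr_fst, geo_tr_fst] at e1
      exact absurd e1 (two_ne_zero' ha)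
  · intro q hq
    rw [mem_filter] at hq
    have h1 : ln κ q = lnOf ((l.val + 1 : ℕ) : ZN m) ha := by rw [hla]; exact hq.2.2
    unfold ln at h1
    rw [lnOf_eq_iff] at h1
    obtain ⟨z, hz0, hz⟩ : ∃ z : ZN m, z ≠ 0 ∧
        ((q.1 κ = ((l.val + 1 : ℕ) : ZN m) ∧ q.1 (κ + 1) = z) ∨
          (q.1 κ = -((l.val + 1 : ℕ) : ZN m) ∧ q.1 (κ + 1) = -z)) := by
      rcases h1 with h1 | h1
      · exact ⟨q.1 (κ + 1), q.2.1.1 _, Or.inl ⟨h1, rfl⟩⟩
      · exact ⟨-q.1 (κ + 1), neg_ne_zero.2 (q.2.1.1 _), Or.inr ⟨h1, (neg_neg _).symm⟩⟩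
    have hzv : ((z.val : ℕ) : ZN m) = z := ZMod.natCast_zmod_val z
    have hz1 : 1 ≤ z.val := geo_val_pos hz0
    have hz2 : z.val < 2 * m + 1 := ZMod.val_lt z
    have hza : ((l.val + 1 : ℕ) : ZN m) ≠ -z := by
      intro h0
      have h5 : ((l.val + 1 : ℕ) : ZN m) + z = 0 := by rw [h0]; ring
      apply q.2.1.1 (κ + 2)
      have h6 := q.2.1.2
      have h7 : q.1 κ + q.1 (κ + 1) + q.1 (κ + 2) = 0 := by
        rw [← h6]
        clear * -
        fin_cases κ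
        · rfl
        · show q.1 1 + q.1 2 + q.1 0 = _
          ring
        · show q.1 2 + q.1 0 + q.1 1 = _
          ring
      rcases hz with ⟨g1, g2⟩ | ⟨g1, g2⟩
      · rw [g1, g2, h5, zero_add] at h7
        exact h7
      · rw [g1, g2] at h7
        linear_combination h7 + h5
    have hz3 : z.val ≠ 2 * m + 1 - (l.val + 1) := by
      intro h0
      apply hza
      apply ZMod.val_injective
      rw [geo_val_neg hz0, CntL_cast_val ha1]
      omega
    have hv : Valid (geo_tr κ (κ + 1) ((l.val + 1 : ℕ) : ZN m) z) := geo_tr_valid hk1 ha hz0 hza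
    have hq1 := geo_mkc hk1 q hv hz
    have hv' : Valid (geo_tr κ (κ + 1) ((l.val + 1 : ℕ) : ZN m) ((z.val : ℕ) : ZN m)) := by
      rw [hzv]
      exact hv
    have hq2 : q = mkc _ hv' := by
      rw [hq1]
      congr 2
      exact hzv.symm
    have hmem : z.val ∈ CntL_Y m (l.val + 1) (KK h (κ + 1)) (KK h (κ + 2)) (b (κ + 1))
        (b (κ + 2)) := by
      unfold CntL_Y
      rw [mem_filter, mem_Ico]
      refine ⟨⟨hz1, hz2⟩, hz3, ?_⟩
      apply (hcond z.val hz1 hz2 hz3 hv').1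
      rw [← hq2]
      exact hq.2.1
    exact ⟨z.val, hmem, hq2.symm⟩

theorem CntL_mod (n K b : ℕ) (hb : b < K) : n % K = b ↔ (n : ℤ) ≡ (b : ℤ) [ZMOD (K : ℤ)] := by
  rw [Int.natCast_modEq_iff, Nat.ModEq, Nat.mod_eq_of_lt hb]

theorem CntL_modP (n K b : ℕ) (hb : b < K) (y c : ℤ) (h : (n : ℤ) = y + c) :
    n % K = b ↔ y ≡ (b : ℤ) - c [ZMOD (K : ℤ)] := by
  rw [CntL_mod n K b hb, h, Int.modEq_iff_dvd, Int.modEq_iff_dvd]
  have : (b : ℤ) - (y + c) = (b : ℤ) - c - y := by ring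
  rw [this]

theorem CntL_modM (n K b : ℕ) (hb : b < K) (y c : ℤ) (h : (n : ℤ) = c - y) :
    n % K = b ↔ y ≡ c - (b : ℤ) [ZMOD (K : ℤ)] := by
  rw [CntL_mod n K b hb, h, Int.modEq_iff_dvd, Int.modEq_iff_dvd]
  have : (b : ℤ) - (c - y) = -(c - (b : ℤ) - y) := by ring
  rw [this, dvd_neg]

theorem CntL_piece (A B : ℕ) (hAB : A ≤ B) (K L : ℕ) (hK : 0 < K) (hL : 0 < L)
    (hc : Nat.Coprime K L) (P : ℕ → Prop) [DecidablePred P] (v w : ℤ)
    (hP : ∀ y, A ≤ y → y < B → (P y ↔ ((y : ℤ) ≡ v [ZMOD K] ∧ (y : ℤ) ≡ w [ZMOD L]))) :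
    |(∑ y ∈ Finset.Ico A B, (if P y then (1 : ℝ) else 0)) - ((B : ℝ) - A) / ((K : ℝ) * L)| ≤ 1 := by
  have h1 := CntL_two (A : ℤ) (B : ℤ) (by exact_mod_cast hAB) K L hK hL hc v w
  have h2 : ((Finset.Ico (A : ℤ) (B : ℤ)).filter
      (fun y => y ≡ v [ZMOD K] ∧ y ≡ w [ZMOD L])).card = ((Finset.Ico A B).filter P).card := by
    symm
    refine Finset.card_bij (fun y _ => (y : ℤ)) ?_ ?_ ?_
    · intro y hy
      rw [mem_filter, mem_Ico] at hy ⊢
      exact ⟨⟨by exact_mod_cast hy.1.1, by exact_mod_cast hy.1.2⟩, (hP y hy.1.1 hy.1.2).1 hy.2⟩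
    · intro y _ y' _ h
      exact_mod_cast h
    · intro z hz
      rw [mem_filter, mem_Ico] at hz
      obtain ⟨y, rfl⟩ : ∃ y : ℕ, z = (y : ℤ) := Int.eq_ofNat_of_zero_le (by omega)
      have g1 : A ≤ y := by exact_mod_cast hz.1.1
      have g2 : y < B := by exact_mod_cast hz.1.2
      refine ⟨y, ?_, rfl⟩
      rw [mem_filter, mem_Ico]
      exact ⟨⟨g1, g2⟩, (hP y g1 g2).2 hz.2⟩
  rw [h2, Finset.card_filter] at h1
  push_cast at h1
  exact h1

theorem CntL_Y_card (a K L b' b'' : ℕ) (ha1 : 1 ≤ a) (ham : a ≤ m) (hK : 0 < K) (hL : 0 < L)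
    (hc : Nat.Coprime K L) (hb' : b' < K) (hb'' : b'' < L) :
    |((CntL_Y m a K L b' b'').card : ℝ) - (2 * (m : ℝ) - 1) / ((K : ℝ) * L)| ≤ 4 := by
  classical
  set P : ℕ → Prop := fun y => y ≠ 2 * m + 1 - a ∧
    (min y (2 * m + 1 - y) - 1) % K = b' ∧
    (min ((a + y) % (2 * m + 1)) (2 * m + 1 - (a + y) % (2 * m + 1)) - 1) % L = b'' with hPdef
  have h0 : ((CntL_Y m a K L b' b'').card : ℝ) =
      ∑ y ∈ Finset.Ico 1 (2 * m + 1), (if P y then (1 : ℝ) else 0) := by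
    unfold CntL_Y
    rw [Finset.card_filter]
    push_cast
    rfl
  have h1 : ∑ y ∈ Finset.Ico 1 (2 * m + 1), (if P y then (1 : ℝ) else 0) =
      (∑ y ∈ Finset.Ico 1 (m - a + 1), (if P y then (1 : ℝ) else 0)) +
      (∑ y ∈ Finset.Ico (m - a + 1) (m + 1), (if P y then (1 : ℝ) else 0)) +
      (∑ y ∈ Finset.Ico (m + 1) (2 * m + 1 - a), (if P y then (1 : ℝ) else 0)) +
      (∑ y ∈ Finset.Ico (2 * m + 1 - a) (2 * m + 1 - a + 1), (if P y then (1 : ℝ) else 0)) +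
      (∑ y ∈ Finset.Ico (2 * m + 1 - a + 1) (2 * m + 1), (if P y then (1 : ℝ) else 0)) := by
    rw [Finset.sum_Ico_consecutive _ (by omega) (by omega),
      Finset.sum_Ico_consecutive _ (by omega) (by omega),
      Finset.sum_Ico_consecutive _ (by omega) (by omega),
      Finset.sum_Ico_consecutive _ (by omega) (by omega)]
  have h2 : (∑ y ∈ Finset.Ico (2 * m + 1 - a) (2 * m + 1 - a + 1),
      (if P y then (1 : ℝ) else 0)) = 0 := by
    rw [Finset.sum_Ico_succ_top le_rfl, Finset.Ico_self, Finset.sum_empty, zero_add, if_neg]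
    rw [hPdef]
    exact fun h => h.1 rfl
  have p1 := CntL_piece 1 (m - a + 1) (by omega) K L hK hL hc P ((b' : ℤ) - (-1))
    ((b'' : ℤ) - ((a : ℤ) - 1)) (by
      intro y hy1 hy2
      have e1 : min y (2 * m + 1 - y) - 1 = y - 1 := by omega
      have e2 : (a + y) % (2 * m + 1) = a + y := Nat.mod_eq_of_lt (by omega)
      have e3 : min (a + y) (2 * m + 1 - (a + y)) - 1 = a + y - 1 := by omega
      rw [hPdef]
      simp only [e1, e2, e3]
      rw [CntL_modP (y - 1) K b' hb' y (-1) (by omega),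
        CntL_modP (a + y - 1) L b'' hb'' y ((a : ℤ) - 1) (by omega)]
      constructor
      · exact fun h => h.2
      · exact fun h => ⟨by omega, h⟩)
  have p2 := CntL_piece (m - a + 1) (m + 1) (by omega) K L hK hL hc P ((b' : ℤ) - (-1))
    ((2 * (m : ℤ) - a) - b'') (by
      intro y hy1 hy2
      have e1 : min y (2 * m + 1 - y) - 1 = y - 1 := by omega
      have e2 : (a + y) % (2 * m + 1) = a + y := Nat.mod_eq_of_lt (by omega)
      have e3 : min (a + y) (2 * m + 1 - (a + y)) - 1 = 2 * m - (a + y) := by omega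
      rw [hPdef]
      simp only [e1, e2, e3]
      rw [CntL_modP (y - 1) K b' hb' y (-1) (by omega),
        CntL_modM (2 * m - (a + y)) L b'' hb'' y (2 * (m : ℤ) - a) (by omega)]
      constructor
      · exact fun h => h.2
      · exact fun h => ⟨by omega, h⟩)
  have p3 := CntL_piece (m + 1) (2 * m + 1 - a) (by omega) K L hK hL hc P ((2 * (m : ℤ)) - b')
    ((2 * (m : ℤ) - a) - b'') (by
      intro y hy1 hy2
      have e1 : min y (2 * m + 1 - y) - 1 = 2 * m - y := by omega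
      have e2 : (a + y) % (2 * m + 1) = a + y := Nat.mod_eq_of_lt (by omega)
      have e3 : min (a + y) (2 * m + 1 - (a + y)) - 1 = 2 * m - (a + y) := by omega
      rw [hPdef]
      simp only [e1, e2, e3]
      rw [CntL_modM (2 * m - y) K b' hb' y (2 * (m : ℤ)) (by omega),
        CntL_modM (2 * m - (a + y)) L b'' hb'' y (2 * (m : ℤ) - a) (by omega)]
      constructor
      · exact fun h => h.2
      · exact fun h => ⟨by omega, h⟩)
  have p4 := CntL_piece (2 * m + 1 - a + 1) (2 * m + 1) (by omega) K L hK hL hc P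
    ((2 * (m : ℤ)) - b') ((b'' : ℤ) - ((a : ℤ) - 2 * m - 2)) (by
      intro y hy1 hy2
      have e1 : min y (2 * m + 1 - y) - 1 = 2 * m - y := by omega
      have e2 : (a + y) % (2 * m + 1) = a + y - (2 * m + 1) := by
        rw [Nat.mod_eq_sub_mod (by omega), Nat.mod_eq_of_lt (by omega)]
      have e3 : min (a + y - (2 * m + 1)) (2 * m + 1 - (a + y - (2 * m + 1))) - 1 =
          a + y - (2 * m + 2) := by omega
      rw [hPdef]
      simp only [e1, e2, e3]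
      rw [CntL_modM (2 * m - y) K b' hb' y (2 * (m : ℤ)) (by omega),
        CntL_modP (a + y - (2 * m + 2)) L b'' hb'' y ((a : ℤ) - 2 * m - 2) (by omega)]
      constructor
      · exact fun h => h.2
      · exact fun h => ⟨by omega, h⟩)
  rw [h0, h1, h2]
  have c1 : ((m - a + 1 : ℕ) : ℝ) = m - a + 1 := by
    rw [Nat.cast_add, Nat.cast_sub ham, Nat.cast_one]
  have c2 : ((2 * m + 1 - a : ℕ) : ℝ) = 2 * m + 1 - a := by
    rw [Nat.cast_sub (by omega)]
    push_cast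
    ring
  have c3 : ((2 * m + 1 - a + 1 : ℕ) : ℝ) = 2 * m + 1 - a + 1 := by
    rw [Nat.cast_add, c2, Nat.cast_one]
  have c4 : ((2 * m + 1 : ℕ) : ℝ) = 2 * m + 1 := by push_cast; ring
  have c5 : ((m + 1 : ℕ) : ℝ) = m + 1 := by push_cast; ring
  rw [c1] at p1 p2
  rw [c5] at p2 p3
  rw [c2] at p3
  rw [c3, c4] at p4
  have e : (2 * (m : ℝ) - 1) / ((K : ℝ) * L) = ((m : ℝ) - a + 1 - (1 : ℕ)) / ((K : ℝ) * L) +
      (((m : ℝ) + 1) - (m - a + 1)) / ((K : ℝ) * L) +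
      ((2 * (m : ℝ) + 1 - a) - (m + 1)) / ((K : ℝ) * L) +
      ((2 * (m : ℝ) + 1) - (2 * m + 1 - a + 1)) / ((K : ℝ) * L) := by
    rw [← add_div, ← add_div, ← add_div]
    congr 1
    push_cast
    ring
  rw [e]
  rw [abs_le] at p1 p2 p3 p4 ⊢
  constructor <;> linarith

theorem cnt_line (he : Even h) (hh : 2 ≤ h) (κ : Fin 3) (l : Fin m) (b : Fin 3 → ℕ)
    (hb : IsBlk h b) (hl : l.val % KK h κ = b κ) :
    |((univ.filter (fun q : Cell m => blc h q = b ∧ ln κ q = l)).card : ℝ)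
      - (2 * (m : ℝ) + 1) * (KK h κ : ℝ) / ((KK h 0 * KK h 1 * KK h 2 : ℕ) : ℝ)| ≤ (20 : ℝ) := by
  obtain ⟨hk1, hk2, hk3⟩ := CntL_ne κ
  have hm : 1 ≤ m := by have := l.isLt; omega
  have hK0 := KK_pos hh κ
  have hK1 := KK_pos hh (κ + 1)
  have hK2 := KK_pos hh (κ + 2)
  have h1 := CntL_Y_card (m := m) (l.val + 1) (KK h (κ + 1)) (KK h (κ + 2)) (b (κ + 1))
    (b (κ + 2)) (by omega) (by have := l.isLt; omega) (by omega) (by omega)
    (KK_coprime he hh (κ + 1) (κ + 2) hk3.symm) (hb _) (hb _)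
  rw [CntL_cells κ l b hl, CntL_prod κ]
  have hr0 : (0 : ℝ) < (KK h κ : ℝ) := by exact_mod_cast (by omega : 0 < KK h κ)
  have hr1 : (1 : ℝ) ≤ (KK h (κ + 1) : ℝ) := by exact_mod_cast (by omega : 1 ≤ KK h (κ + 1))
  have hr2 : (1 : ℝ) ≤ (KK h (κ + 2) : ℝ) := by exact_mod_cast (by omega : 1 ≤ KK h (κ + 2))
  have hr3 : (1 : ℝ) ≤ (KK h (κ + 1) : ℝ) * (KK h (κ + 2) : ℝ) := by nlinarith
  have h2 : (2 * (m : ℝ) + 1) * (KK h κ : ℝ) /
      ((KK h κ * (KK h (κ + 1) * KK h (κ + 2)) : ℕ) : ℝ) =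
      (2 * (m : ℝ) - 1) / ((KK h (κ + 1) : ℝ) * (KK h (κ + 2) : ℝ)) +
        2 / ((KK h (κ + 1) : ℝ) * (KK h (κ + 2) : ℝ)) := by
    push_cast
    field_simp
    ring
  have h3 : 2 / ((KK h (κ + 1) : ℝ) * (KK h (κ + 2) : ℝ)) ≤ 2 :=
    div_le_self (by norm_num) hr3
  have h4 : 0 ≤ 2 / ((KK h (κ + 1) : ℝ) * (KK h (κ + 2) : ℝ)) := by positivity
  rw [h2]
  rw [abs_le] at h1 ⊢
  constructor <;> linarith

/-- the same without a condition for the direction `κ`, for a set of blocks of the other two -/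
theorem cnt_blk (he : Even h) (hh : 2 ≤ h) (b : Fin 3 → ℕ) (hb : IsBlk h b) :
    |((univ.filter (fun q : Cell m => blc h q = b)).card : ℝ)
      - (2 * (m : ℝ) + 1) ^ 2 / (2 * ((KK h 0 * KK h 1 * KK h 2 : ℕ) : ℝ))|
      ≤ 100 * (2 * (m : ℝ) + 1) := by
  classical
  have hK0 := KK_pos hh 0
  have hK1 := KK_pos hh 1
  have hK2 := KK_pos hh 2
  have hr0 : (1 : ℝ) ≤ (KK h 0 : ℝ) := by exact_mod_cast (by omega : 1 ≤ KK h 0)
  have hr1 : (1 : ℝ) ≤ (KK h 1 : ℝ) := by exact_mod_cast (by omega : 1 ≤ KK h 1)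
  have hr2 : (1 : ℝ) ≤ (KK h 2 : ℝ) := by exact_mod_cast (by omega : 1 ≤ KK h 2)
  have hr12 : (1 : ℝ) ≤ (KK h 1 : ℝ) * (KK h 2 : ℝ) := by nlinarith
  have hr012 : (1 : ℝ) ≤ (KK h 0 : ℝ) * (KK h 1 : ℝ) * (KK h 2 : ℝ) := by
    rw [mul_assoc]
    nlinarith
  set S : Finset (Fin m) := univ.filter (fun l => l.val % KK h 0 = b 0) with hS
  have h1 : ((univ.filter (fun q : Cell m => blc h q = b)).card : ℝ) =
      ∑ l ∈ S, ((univ.filter (fun q : Cell m => blc h q = b ∧ ln 0 q = l)).card : ℝ) := by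
    rw [Finset.card_eq_sum_card_fiberwise (f := ln (m := m) 0) (t := S)]
    · push_cast
      refine Finset.sum_congr rfl fun l _ => ?_
      rw [filter_filter]
    · intro q hq
      have hq' : blc h q = b := by simpa using hq
      have h2 := congrFun hq' 0
      rw [hS]
      exact Finset.mem_coe.2 (Finset.mem_filter.2 ⟨mem_univ _, h2⟩)
  set X : ℝ := (2 * (m : ℝ) + 1) * (KK h 0 : ℝ) / ((KK h 0 * KK h 1 * KK h 2 : ℕ) : ℝ) with hX
  have hXe : X = (2 * (m : ℝ) + 1) / ((KK h 1 : ℝ) * (KK h 2 : ℝ)) := by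
    rw [hX]
    push_cast
    field_simp
  have hX0 : 0 ≤ X := by
    rw [hXe]
    positivity
  have hX1 : X ≤ 2 * (m : ℝ) + 1 := by
    rw [hXe]
    exact div_le_self (by positivity) hr12
  have h2 : |(∑ l ∈ S, ((univ.filter (fun q : Cell m => blc h q = b ∧ ln 0 q = l)).card : ℝ)) -
      S.card * X| ≤ S.card * 20 := by
    rw [← nsmul_eq_mul, ← Finset.sum_const, ← Finset.sum_sub_distrib]
    refine (Finset.abs_sum_le_sum_abs _ _).trans ?_
    rw [← nsmul_eq_mul, ← Finset.sum_const]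
    refine Finset.sum_le_sum fun l hl => ?_
    rw [hS, mem_filter] at hl
    exact cnt_line he hh 0 l b hb hl.2
  have h3 : |(S.card : ℝ) - m / (KK h 0 : ℝ)| ≤ 1 := cnt_lines hh 0 (b 0) (hb 0)
  have h4 : (S.card : ℝ) ≤ m := by
    have : S.card ≤ m := by
      have := Finset.card_le_univ S
      rwa [Fintype.card_fin] at this
    exact_mod_cast this
  have h5 : |(S.card : ℝ) * X - m / (KK h 0 : ℝ) * X| ≤ X := by
    rw [← sub_mul, abs_mul, abs_of_nonneg hX0]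
    nlinarith
  have h6 : (2 * (m : ℝ) + 1) ^ 2 / (2 * ((KK h 0 * KK h 1 * KK h 2 : ℕ) : ℝ)) =
      m / (KK h 0 : ℝ) * X +
        (2 * (m : ℝ) + 1) / (2 * ((KK h 0 : ℝ) * (KK h 1 : ℝ) * (KK h 2 : ℝ))) := by
    rw [hXe]
    push_cast
    field_simp
  have h7 : (2 * (m : ℝ) + 1) / (2 * ((KK h 0 : ℝ) * (KK h 1 : ℝ) * (KK h 2 : ℝ))) ≤
      2 * (m : ℝ) + 1 := div_le_self (by positivity) (by linarith)
  have h8 : 0 ≤ (2 * (m : ℝ) + 1) / (2 * ((KK h 0 : ℝ) * (KK h 1 : ℝ) * (KK h 2 : ℝ))) := by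
    positivity
  rw [h1, h6]
  rw [abs_le] at h2 h5 ⊢
  constructor <;> linarith

end H77.LT
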