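import Pool.Agent.H77.LT.TdA
import Pool.Agent.H77.LT.Geo
import Pool.Agent.H77.LT.Greedy

/-!
# [H77 LT COVER] Covering the leftover with edges into the reserve

Greedy lemma with `I` = the elements of `R` (subtype), `a = 3`, `vx v (q,s) = (ed q s).erase v`,
`N = 2m+1`. Choices:
`v = inl q`: all `(q,s)` with `(κ, ln κ q, s) ∈ XE` for all `κ` (at least `N/h^13`, `Res.supq`);
root stars `inr (inl (κ, ln κ q))`, `κ = 0,1,2`.
`v = inr (κ,l,s)`: all `(q,s)` with `q ∈ XQ`, `ln κ q = l`, `(κ', ln κ' q, s) ∈ XE` for `κ' ≠ κ` (at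
least `N/h^13`, `Res.supe`); root stars `inl (κ,l)` and `inr (inr (κ',s))`, `κ' ≠ κ`.
`rho = 4 * ⌊N/h^29⌋` (a star `inr (inl (κ,l))` is a root star of the cells of `R` on the line; a star
`inl (κ,l)` of the entries of `R` on the line; a star `inr (inr (κ',s))` of the entries of `R` with
symbol `s` of the two other directions: at most `2 N/h^29`), `U0 = ∅`, `d0 = 0`,
`B = (2m+1) / h^15`, `L = (2m+1) / h^14` (natural division);
`|I| = |R| ≤ 4 m N/h^29 ≤ 2N^2/h^29` (`card_le_of_deg`). `hL`: `3 rho + B + 3 ≤ L` as `h` is large.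
`hS`: `B |T| ≤ 9 |I| ≤ 18 N^2/h^29` and `B ≥ N/(2h^15)` give `|T| ≤ 36 N/h^14`. For `v = inl q` the
non-root stars of the vertices of a choice are the `inr (inr (κ,s))`: at most `|T|` choices are
excluded. For `v = inr (κ,l,s)` the non-root stars of the vertices of a choice are `inl (κ', ln κ' q)`,
`inr (inl (κ', ln κ' q))`, `κ' ≠ κ`: each star in `T` excludes at most 2 choices (`card_pair`).
`4 |T| ≤ N/h^13` as `h ≥ 144`.
`hU`: for `v = inl q`: at most `3L` choices have an entry in `U` (each entry `(κ, ln κ q, s) ∈ U`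
excludes one, and there are at most `L` of them in the star `inr (inl (κ, ln κ q))`).
For `v = inr (κ,l,s)`: at most `L` choices with `q ∈ U` and for each
`κ' ≠ κ` at most `L` entries `(κ',l',s) ∈ U`, each in at most 2 choices: total `5L`,
`10 L < N/h^13`.
The edges are disjoint: `v ∉ X` for `v ∈ R`, and the other vertices of the edges are in `X`.
-/

open Finset

namespace H77.LT

variable {m n h E : ℕ}

/-- the choices for a vertex -/
private def cover_om (XQ : Finset (Cell m)) (XE : Finset (Fin 3 × Fin m × Fin n)) :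
    Vt m n → Finset (Cell m × Fin n)
  | Sum.inl q => univ.filter (fun w => w.1 = q ∧ ∀ κ, (κ, ln κ q, w.2) ∈ XE)
  | Sum.inr e => univ.filter (fun w => w.2 = e.2.2 ∧ w.1 ∈ XQ ∧ ln e.1 w.1 = e.2.1 ∧
      ∀ κ', κ' ≠ e.1 → (κ', ln κ' w.1, e.2.2) ∈ XE)

/-- the root stars of a vertex -/
private def cover_root : Vt m n → Finset (Star m n)
  | Sum.inl q => univ.image (fun κ : Fin 3 => (Sum.inr (Sum.inl (κ, ln κ q)) : Star m n))
  | Sum.inr e => insert (Sum.inl (e.1, e.2.1))
      ((univ.filter (fun κ' : Fin 3 => κ' ≠ e.1)).image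
        (fun κ' => (Sum.inr (Sum.inr (κ', e.2.2)) : Star m n)))

private theorem cover_mem_om_inl (XQ : Finset (Cell m)) (XE : Finset (Fin 3 × Fin m × Fin n))
    (q : Cell m) (w : Cell m × Fin n) :
    w ∈ cover_om XQ XE (Sum.inl q : Vt m n) ↔ (w.1 = q ∧ ∀ κ, (κ, ln κ q, w.2) ∈ XE) := by
  unfold cover_om
  simp

private theorem cover_mem_om_inr (XQ : Finset (Cell m)) (XE : Finset (Fin 3 × Fin m × Fin n))
    (κ : Fin 3) (l : Fin m) (s : Fin n) (w : Cell m × Fin n) :
    w ∈ cover_om XQ XE (Sum.inr (κ, l, s) : Vt m n) ↔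
      (w.2 = s ∧ w.1 ∈ XQ ∧ ln κ w.1 = l ∧ ∀ κ', κ' ≠ κ → (κ', ln κ' w.1, s) ∈ XE) := by
  unfold cover_om
  simp

private theorem cover_mem_root_inl (q : Cell m) (σ : Star m n) :
    σ ∈ cover_root (Sum.inl q : Vt m n) ↔ ∃ κ, σ = Sum.inr (Sum.inl (κ, ln κ q)) := by
  unfold cover_root
  simp only [Finset.mem_image, Finset.mem_univ, true_and]
  constructor
  · rintro ⟨κ, h⟩
    exact ⟨κ, h.symm⟩
  · rintro ⟨κ, h⟩
    exact ⟨κ, h.symm⟩

private theorem cover_mem_root_inr (κ : Fin 3) (l : Fin m) (s : Fin n) (σ : Star m n) :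
    σ ∈ cover_root (Sum.inr (κ, l, s) : Vt m n) ↔
      (σ = Sum.inl (κ, l) ∨ ∃ κ', κ' ≠ κ ∧ σ = Sum.inr (Sum.inr (κ', s))) := by
  unfold cover_root
  simp only [Finset.mem_image, Finset.mem_insert, Finset.mem_filter, Finset.mem_univ, true_and]
  constructor
  · rintro (h | ⟨κ', h1, h2⟩)
    · exact Or.inl h
    · exact Or.inr ⟨κ', h1, h2.symm⟩
  · rintro (h | ⟨κ', h1, h2⟩)
    · exact Or.inl h
    · exact Or.inr ⟨κ', h1, h2.symm⟩

/-- the vertex is in the edge -/
private theorem cover_in (XQ : Finset (Cell m)) (XE : Finset (Fin 3 × Fin m × Fin n))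
    (v : Vt m n) (w : Cell m × Fin n) (hw : w ∈ cover_om XQ XE v) : v ∈ ed w.1 w.2 := by
  rcases v with q | ⟨κ, l, s⟩
  · rw [cover_mem_om_inl] at hw
    rw [mem_ed_inl]
    exact hw.1.symm
  · rw [cover_mem_om_inr] at hw
    rw [mem_ed_inr]
    exact ⟨hw.1.symm, hw.2.2.1.symm⟩

/-- the other vertices are in the reserve -/
private theorem cover_sub (XQ : Finset (Cell m)) (XE : Finset (Fin 3 × Fin m × Fin n))
    (v : Vt m n) (w : Cell m × Fin n) (hw : w ∈ cover_om XQ XE v) :
    (ed w.1 w.2).erase v ⊆ (cels XQ ∪ ents XE : Finset (Vt m n)) := by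
  intro u hu
  rw [Finset.mem_erase] at hu
  obtain ⟨hne, hu⟩ := hu
  rw [Finset.mem_union]
  rcases u with q' | ⟨κ', l', s'⟩
  · left
    rw [mem_ed_inl] at hu
    subst hu
    unfold cels
    rw [Finset.mem_image]
    rcases v with q | ⟨κ, l, s⟩
    · rw [cover_mem_om_inl] at hw
      exact absurd (by rw [hw.1]) hne
    · rw [cover_mem_om_inr] at hw
      exact ⟨w.1, hw.2.1, rfl⟩
  · right
    rw [mem_ed_inr] at hu
    obtain ⟨h1, h2⟩ := hu
    subst h1
    subst h2
    unfold ents
    rw [Finset.mem_image]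
    rcases v with q | ⟨κ, l, s⟩
    · rw [cover_mem_om_inl] at hw
      refine ⟨(κ', ln κ' w.1, w.2), ?_, rfl⟩
      have h3 := hw.2 κ'
      rw [← hw.1] at h3
      exact h3
    · rw [cover_mem_om_inr] at hw
      obtain ⟨h3, h4, h5, h6⟩ := hw
      refine ⟨(κ', ln κ' w.1, w.2), ?_, rfl⟩
      rw [h3]
      apply h6
      rintro rfl
      apply hne
      rw [h3, h5]

private theorem cover_card_om {F : Finset (Fin 3 × Fin m × Fin n)}
    {XQ : Finset (Cell m)} {XE : Finset (Fin 3 × Fin m × Fin n)} (hres : Res m n h E F XQ XE)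
    (v : Vt m n) : (2 * m + 1) / (h : ℝ) ^ 13 ≤ ((cover_om XQ XE v).card : ℝ) := by
  rcases v with q | ⟨κ, l, s⟩
  · refine (hres.supq q).trans (le_of_eq ?_)
    norm_cast
    refine Finset.card_bij (fun s _ => (q, s)) ?_ ?_ ?_
    · intro s hs
      rw [Finset.mem_filter] at hs
      rw [cover_mem_om_inl]
      exact ⟨rfl, hs.2⟩
    · intro s _ s' _ h1
      exact (Prod.mk.inj h1).2
    · rintro ⟨q', s⟩ hw
      rw [cover_mem_om_inl] at hw
      obtain ⟨h1, h2⟩ := hw
      simp only at h1 h2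
      subst h1
      exact ⟨s, Finset.mem_filter.2 ⟨Finset.mem_univ _, h2⟩, rfl⟩
  · refine (hres.supe κ l s).trans (le_of_eq ?_)
    norm_cast
    refine Finset.card_bij (fun q _ => (q, s)) ?_ ?_ ?_
    · intro q hq
      rw [Finset.mem_filter] at hq
      rw [cover_mem_om_inr]
      exact ⟨rfl, hq.1, hq.2.1, hq.2.2⟩
    · intro s _ s' _ h1
      exact (Prod.mk.inj h1).1
    · rintro ⟨q, s'⟩ hw
      rw [cover_mem_om_inr] at hw
      obtain ⟨h1, h2, h3, h4⟩ := hw
      simp only at h1 h2 h3 h4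
      subst h1
      exact ⟨q, Finset.mem_filter.2 ⟨h2, h3, h4⟩, rfl⟩

/-- every star is a root star of few vertices of `R` -/
private theorem cover_rho (R : Finset (Vt m n)) (D : ℕ) (hD : ∀ σ, deg R σ ≤ D) (σ : Star m n) :
    (R.filter (fun v => σ ∈ cover_root v)).card ≤ 3 * D := by
  rcases σ with ⟨κ, l⟩ | ⟨κ, l⟩ | ⟨κ, s⟩
  · have h1 : (R.filter (fun v => (Sum.inl (κ, l) : Star m n) ∈ cover_root v)).card ≤
        deg R (Sum.inr (Sum.inl (κ, l))) := by
      unfold deg
      apply Finset.card_le_card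
      intro v hv
      rw [Finset.mem_filter] at hv ⊢
      refine ⟨hv.1, ?_⟩
      obtain ⟨_, hv⟩ := hv
      rcases v with q | ⟨κ', l', s'⟩
      · rw [cover_mem_root_inl] at hv
        obtain ⟨κ', h2⟩ := hv
        exact absurd h2 (by simp)
      · rw [cover_mem_root_inr] at hv
        rcases hv with hv | ⟨κ'', _, hv⟩
        · have h2 := Sum.inl.inj hv
          rw [mem_star_inr]
          left
          rw [h2]
        · exact absurd hv (by simp)
    have h2 := hD (Sum.inr (Sum.inl (κ, l)))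
    omega
  · have h1 : (R.filter (fun v => (Sum.inr (Sum.inl (κ, l)) : Star m n) ∈ cover_root v)).card ≤
        deg R (Sum.inl (κ, l)) := by
      unfold deg
      apply Finset.card_le_card
      intro v hv
      rw [Finset.mem_filter] at hv ⊢
      refine ⟨hv.1, ?_⟩
      obtain ⟨_, hv⟩ := hv
      rcases v with q | ⟨κ', l', s'⟩
      · rw [cover_mem_root_inl] at hv
        obtain ⟨κ', h2⟩ := hv
        have h3 := Sum.inl.inj (Sum.inr.inj h2)
        rw [mem_star_inl]
        exact ⟨κ', by rw [h3]⟩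
      · rw [cover_mem_root_inr] at hv
        rcases hv with hv | ⟨κ'', _, hv⟩
        · exact absurd hv (by simp)
        · exact absurd (Sum.inr.inj hv) (by simp)
    have h2 := hD (Sum.inl (κ, l))
    omega
  · have h1 : R.filter (fun v => (Sum.inr (Sum.inr (κ, s)) : Star m n) ∈ cover_root v) ⊆
        (univ : Finset (Fin 3)).biUnion (fun κ' =>
          R.filter (fun v => (Sum.inr (Sum.inr (κ', s)) : Star m n) ∈ star v)) := by
      intro v hv
      rw [Finset.mem_filter] at hv
      rw [Finset.mem_biUnion]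
      obtain ⟨hv1, hv⟩ := hv
      rcases v with q | ⟨κ', l', s'⟩
      · rw [cover_mem_root_inl] at hv
        obtain ⟨κ', h2⟩ := hv
        exact absurd (Sum.inr.inj h2) (by simp)
      · rw [cover_mem_root_inr] at hv
        rcases hv with hv | ⟨κ'', _, hv⟩
        · exact absurd hv (by simp)
        · have h2 := Sum.inr.inj (Sum.inr.inj hv)
          rw [Prod.mk.injEq] at h2
          refine ⟨κ', Finset.mem_univ _, ?_⟩
          rw [Finset.mem_filter]
          refine ⟨hv1, ?_⟩
          rw [mem_star_inr]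
          right
          rw [h2.2]
    calc (R.filter (fun v => (Sum.inr (Sum.inr (κ, s)) : Star m n) ∈ cover_root v)).card
        ≤ _ := Finset.card_le_card h1
      _ ≤ ∑ κ' : Fin 3, (R.filter (fun v => (Sum.inr (Sum.inr (κ', s)) : Star m n) ∈ star v)).card :=
          Finset.card_biUnion_le
      _ ≤ ∑ _κ' : Fin 3, D := Finset.sum_le_sum fun κ' _ => hD (Sum.inr (Sum.inr (κ', s)))
      _ = 3 * D := by simp

/-- at most two choices of an entry have a given line in another direction -/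
private theorem cover_two (XQ : Finset (Cell m)) (XE : Finset (Fin 3 × Fin m × Fin n))
    (κ : Fin 3) (l : Fin m) (s : Fin n) (κ' : Fin 3) (hκ : κ' ≠ κ) (l' : Fin m) :
    ((cover_om XQ XE (Sum.inr (κ, l, s) : Vt m n)).filter (fun w => ln κ' w.1 = l')).card ≤ 2 := by
  have h1 : ((cover_om XQ XE (Sum.inr (κ, l, s) : Vt m n)).filter (fun w => ln κ' w.1 = l')).card ≤
      (univ.filter (fun q : Cell m => ln κ q = l ∧ ln κ' q = l')).card := by
    refine Finset.card_le_card_of_injOn (fun w => w.1) ?_ ?_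
    · intro w hw
      rw [Finset.mem_coe, Finset.mem_filter, cover_mem_om_inr] at hw
      rw [Finset.mem_coe, Finset.mem_filter]
      exact ⟨Finset.mem_univ _, hw.1.2.2.1, hw.2⟩
    · intro w hw w' hw' h2
      rw [Finset.mem_coe, Finset.mem_filter, cover_mem_om_inr] at hw hw'
      exact Prod.ext h2 (hw.1.1.trans hw'.1.1.symm)
  rw [card_pair κ κ' (Ne.symm hκ)] at h1
  split_ifs at h1 <;> omega

/-- `hU` -/
private theorem cover_hU (XQ : Finset (Cell m)) (XE : Finset (Fin 3 × Fin m × Fin n))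
    (v : Vt m n) (U : Finset (Vt m n)) (L : ℕ) (hU : ∀ σ, deg U σ ≤ L) :
    ((cover_om XQ XE v).filter (fun w => ¬ Disjoint ((ed w.1 w.2).erase v) U)).card ≤ 5 * L := by
  rcases v with q | ⟨κ, l, s⟩
  · -- cells
    have h1 : (cover_om XQ XE (Sum.inl q : Vt m n)).filter
        (fun w => ¬ Disjoint ((ed w.1 w.2).erase (Sum.inl q)) U) ⊆
        (univ : Finset (Fin 3)).biUnion (fun κ =>
          (cover_om XQ XE (Sum.inl q : Vt m n)).filter
            (fun w => (Sum.inr (κ, ln κ q, w.2) : Vt m n) ∈ U)) := by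
      intro w hw
      rw [Finset.mem_filter, Finset.not_disjoint_iff] at hw
      obtain ⟨hw, u, hu, huU⟩ := hw
      have hw' := (cover_mem_om_inl XQ XE q w).1 hw
      rw [Finset.mem_erase] at hu
      obtain ⟨hne, hu⟩ := hu
      rw [Finset.mem_biUnion]
      rcases u with q' | ⟨κ', l', s'⟩
      · rw [mem_ed_inl] at hu
        exact absurd (by rw [hu, hw'.1]) hne
      · rw [mem_ed_inr] at hu
        refine ⟨κ', Finset.mem_univ _, ?_⟩
        rw [Finset.mem_filter]
        refine ⟨hw, ?_⟩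
        rw [← hw'.1, ← hu.1, ← hu.2]
        exact huU
    have h2 : ∀ κ : Fin 3, ((cover_om XQ XE (Sum.inl q : Vt m n)).filter
            (fun w => (Sum.inr (κ, ln κ q, w.2) : Vt m n) ∈ U)).card ≤ L := by
      intro κ
      refine le_trans ?_ (hU (Sum.inr (Sum.inl (κ, ln κ q))))
      unfold deg
      refine Finset.card_le_card_of_injOn (fun w => (Sum.inr (κ, ln κ q, w.2) : Vt m n)) ?_ ?_
      · intro w hw
        rw [Finset.mem_coe, Finset.mem_filter] at hw
        rw [Finset.mem_coe, Finset.mem_filter]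
        refine ⟨hw.2, ?_⟩
        rw [mem_star_inr]
        exact Or.inl rfl
      · intro w hw w' hw' h3
        rw [Finset.mem_coe, Finset.mem_filter, cover_mem_om_inl] at hw hw'
        have h4 := Sum.inr.inj h3
        simp only [Prod.mk.injEq] at h4
        exact Prod.ext (hw.1.1.trans hw'.1.1.symm) h4.2.2
    calc _ ≤ _ := Finset.card_le_card h1
      _ ≤ ∑ κ : Fin 3, ((cover_om XQ XE (Sum.inl q : Vt m n)).filter
            (fun w => (Sum.inr (κ, ln κ q, w.2) : Vt m n) ∈ U)).card := Finset.card_biUnion_le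
      _ ≤ ∑ _κ : Fin 3, L := Finset.sum_le_sum fun κ _ => h2 κ
      _ = 3 * L := by simp
      _ ≤ 5 * L := by omega
  · -- entries
    have h1 : (cover_om XQ XE (Sum.inr (κ, l, s) : Vt m n)).filter
        (fun w => ¬ Disjoint ((ed w.1 w.2).erase (Sum.inr (κ, l, s))) U) ⊆
        ((cover_om XQ XE (Sum.inr (κ, l, s) : Vt m n)).filter
            (fun w => (Sum.inl w.1 : Vt m n) ∈ U)) ∪
        (univ.filter (fun κ' : Fin 3 => κ' ≠ κ)).biUnion (fun κ' =>
          (cover_om XQ XE (Sum.inr (κ, l, s) : Vt m n)).filter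
            (fun w => (Sum.inr (κ', ln κ' w.1, s) : Vt m n) ∈ U)) := by
      intro w hw
      rw [Finset.mem_filter, Finset.not_disjoint_iff] at hw
      obtain ⟨hw, u, hu, huU⟩ := hw
      have hw' := (cover_mem_om_inr XQ XE κ l s w).1 hw
      rw [Finset.mem_erase] at hu
      obtain ⟨hne, hu⟩ := hu
      rw [Finset.mem_union]
      rcases u with q' | ⟨κ', l', s'⟩
      · left
        rw [mem_ed_inl] at hu
        rw [Finset.mem_filter]
        refine ⟨hw, ?_⟩
        rw [← hu]
        exact huU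
      · right
        rw [mem_ed_inr] at hu
        rw [Finset.mem_biUnion]
        refine ⟨κ', ?_, ?_⟩
        · rw [Finset.mem_filter]
          refine ⟨Finset.mem_univ _, ?_⟩
          rintro rfl
          apply hne
          rw [hu.1, hu.2, hw'.1, hw'.2.2.1]
        · rw [Finset.mem_filter]
          refine ⟨hw, ?_⟩
          rw [← hu.2, ← hw'.1, ← hu.1]
          exact huU
    have h2 : ((cover_om XQ XE (Sum.inr (κ, l, s) : Vt m n)).filter
            (fun w => (Sum.inl w.1 : Vt m n) ∈ U)).card ≤ L := by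
      refine le_trans ?_ (hU (Sum.inl (κ, l)))
      unfold deg
      refine Finset.card_le_card_of_injOn (fun w => (Sum.inl w.1 : Vt m n)) ?_ ?_
      · intro w hw
        rw [Finset.mem_coe, Finset.mem_filter, cover_mem_om_inr] at hw
        rw [Finset.mem_coe, Finset.mem_filter]
        refine ⟨hw.2, ?_⟩
        rw [mem_star_inl]
        exact ⟨κ, by rw [hw.1.2.2.1]⟩
      · intro w hw w' hw' h3
        rw [Finset.mem_coe, Finset.mem_filter, cover_mem_om_inr] at hw hw'
        exact Prod.ext (Sum.inl.inj h3) (hw.1.1.trans hw'.1.1.symm)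
    have h3 : ∀ κ' : Fin 3, κ' ≠ κ → ((cover_om XQ XE (Sum.inr (κ, l, s) : Vt m n)).filter
            (fun w => (Sum.inr (κ', ln κ' w.1, s) : Vt m n) ∈ U)).card ≤ 2 * L := by
      intro κ' hκ
      have h4 : (univ.filter (fun l' : Fin m => (Sum.inr (κ', l', s) : Vt m n) ∈ U)).card ≤ L := by
        refine le_trans ?_ (hU (Sum.inr (Sum.inr (κ', s))))
        unfold deg
        refine Finset.card_le_card_of_injOn (fun l' => (Sum.inr (κ', l', s) : Vt m n)) ?_ ?_
        · intro l' hl
          rw [Finset.mem_coe, Finset.mem_filter] at hl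
          rw [Finset.mem_coe, Finset.mem_filter]
          refine ⟨hl.2, ?_⟩
          rw [mem_star_inr]
          exact Or.inr rfl
        · intro l' _ l'' _ h5
          have h6 := Sum.inr.inj h5
          simp only [Prod.mk.injEq] at h6
          exact h6.2.1
      have h5 : (cover_om XQ XE (Sum.inr (κ, l, s) : Vt m n)).filter
            (fun w => (Sum.inr (κ', ln κ' w.1, s) : Vt m n) ∈ U) ⊆
          (univ.filter (fun l' : Fin m => (Sum.inr (κ', l', s) : Vt m n) ∈ U)).biUnion
            (fun l' => (cover_om XQ XE (Sum.inr (κ, l, s) : Vt m n)).filter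
              (fun w => ln κ' w.1 = l')) := by
        intro w hw
        rw [Finset.mem_filter] at hw
        rw [Finset.mem_biUnion]
        refine ⟨ln κ' w.1, ?_, ?_⟩
        · rw [Finset.mem_filter]
          exact ⟨Finset.mem_univ _, hw.2⟩
        · rw [Finset.mem_filter]
          exact ⟨hw.1, rfl⟩
      calc _ ≤ _ := Finset.card_le_card h5
        _ ≤ ∑ l' ∈ univ.filter (fun l' : Fin m => (Sum.inr (κ', l', s) : Vt m n) ∈ U),
              ((cover_om XQ XE (Sum.inr (κ, l, s) : Vt m n)).filter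
                (fun w => ln κ' w.1 = l')).card := Finset.card_biUnion_le
        _ ≤ ∑ _l' ∈ univ.filter (fun l' : Fin m => (Sum.inr (κ', l', s) : Vt m n) ∈ U), 2 :=
            Finset.sum_le_sum fun l' _ => cover_two XQ XE κ l s κ' hκ l'
        _ = (univ.filter (fun l' : Fin m => (Sum.inr (κ', l', s) : Vt m n) ∈ U)).card * 2 := by
            rw [Finset.sum_const, smul_eq_mul]
        _ ≤ 2 * L := by omega
    have h4 : (univ.filter (fun κ' : Fin 3 => κ' ≠ κ)).card = 2 := by
      fin_cases κ <;> decide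
    calc _ ≤ _ := Finset.card_le_card h1
      _ ≤ _ := Finset.card_union_le _ _
      _ ≤ L + ∑ κ' ∈ univ.filter (fun κ' : Fin 3 => κ' ≠ κ),
            ((cover_om XQ XE (Sum.inr (κ, l, s) : Vt m n)).filter
              (fun w => (Sum.inr (κ', ln κ' w.1, s) : Vt m n) ∈ U)).card :=
          Nat.add_le_add h2 Finset.card_biUnion_le
      _ ≤ L + ∑ _κ' ∈ univ.filter (fun κ' : Fin 3 => κ' ≠ κ), 2 * L := by
          apply Nat.add_le_add_left
          refine Finset.sum_le_sum fun κ' hκ => ?_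
          rw [Finset.mem_filter] at hκ
          exact h3 κ' hκ.2
      _ = 5 * L := by
          rw [Finset.sum_const, h4, smul_eq_mul]
          ring

/-- `hS` -/
private theorem cover_hS (XQ : Finset (Cell m)) (XE : Finset (Fin 3 × Fin m × Fin n))
    (v : Vt m n) (T : Finset (Star m n)) (A : Finset (Cell m × Fin n))
    (hA : ∀ w ∈ A, w ∈ cover_om XQ XE v ∧ ∃ u ∈ (ed w.1 w.2).erase v, ∃ σ ∈ star u,
      σ ∈ T ∧ σ ∉ cover_root v) : A.card ≤ 2 * T.card := by
  classical
  rcases v with q | ⟨κ, l, s⟩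
  · -- cells
    have h1 : A ⊆
        T.biUnion (fun σ => (cover_om XQ XE (Sum.inl q : Vt m n)).filter
          (fun w : Cell m × Fin n => ∃ κ, σ = Sum.inr (Sum.inr (κ, w.2)))) := by
      intro w hw
      obtain ⟨hw, u, hu, σ, hσu, hσT, hσr⟩ := hA w hw
      have hw' := (cover_mem_om_inl XQ XE q w).1 hw
      rw [Finset.mem_erase] at hu
      obtain ⟨hne, hu⟩ := hu
      rw [Finset.mem_biUnion]
      refine ⟨σ, hσT, ?_⟩
      rw [Finset.mem_filter]
      refine ⟨hw, ?_⟩
      rcases u with q' | ⟨κ', l', s'⟩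
      · rw [mem_ed_inl] at hu
        exact absurd (by rw [hu, hw'.1]) hne
      · rw [mem_ed_inr] at hu
        rw [mem_star_inr] at hσu
        rcases hσu with hσu | hσu
        · exfalso
          apply hσr
          rw [cover_mem_root_inl]
          refine ⟨κ', ?_⟩
          rw [hσu, hu.2, hw'.1]
        · exact ⟨κ', by rw [hσu, hu.1]⟩
    have h2 : ∀ σ : Star m n, ((cover_om XQ XE (Sum.inl q : Vt m n)).filter
          (fun w : Cell m × Fin n => ∃ κ, σ = Sum.inr (Sum.inr (κ, w.2)))).card ≤ 2 := by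
      intro σ
      refine le_trans (Finset.card_le_one.2 ?_) one_le_two
      intro w hw w' hw'
      rw [Finset.mem_filter, cover_mem_om_inl] at hw hw'
      obtain ⟨⟨a1, _⟩, κ1, e1⟩ := hw
      obtain ⟨⟨a2, _⟩, κ2, e2⟩ := hw'
      have h3 := Sum.inr.inj (Sum.inr.inj (e1.symm.trans e2))
      rw [Prod.mk.injEq] at h3
      exact Prod.ext (a1.trans a2.symm) h3.2
    calc _ ≤ _ := Finset.card_le_card h1
      _ ≤ _ := Finset.card_biUnion_le
      _ ≤ ∑ _σ ∈ T, 2 := Finset.sum_le_sum fun σ _ => h2 σ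
      _ = 2 * T.card := by rw [Finset.sum_const, smul_eq_mul, mul_comm]
  · -- entries
    have h1 : A ⊆
        T.biUnion (fun σ => (cover_om XQ XE (Sum.inr (κ, l, s) : Vt m n)).filter
          (fun w : Cell m × Fin n => ∃ κ', κ' ≠ κ ∧
            (σ = Sum.inl (κ', ln κ' w.1) ∨ σ = Sum.inr (Sum.inl (κ', ln κ' w.1))))) := by
      intro w hw
      obtain ⟨hw, u, hu, σ, hσu, hσT, hσr⟩ := hA w hw
      have hw' := (cover_mem_om_inr XQ XE κ l s w).1 hw
      rw [Finset.mem_erase] at hu
      obtain ⟨hne, hu⟩ := hu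
      rw [Finset.mem_biUnion]
      refine ⟨σ, hσT, ?_⟩
      rw [Finset.mem_filter]
      refine ⟨hw, ?_⟩
      rw [cover_mem_root_inr] at hσr
      push Not at hσr
      rcases u with q' | ⟨κ', l', s'⟩
      · rw [mem_ed_inl] at hu
        subst hu
        rw [mem_star_inl] at hσu
        obtain ⟨κ', hσu⟩ := hσu
        refine ⟨κ', ?_, Or.inl hσu⟩
        rintro rfl
        apply hσr.1
        rw [hσu, hw'.2.2.1]
      · rw [mem_ed_inr] at hu
        have h3 : κ' ≠ κ := by
          rintro rfl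
          apply hne
          rw [hu.1, hu.2, hw'.1, hw'.2.2.1]
        rw [mem_star_inr] at hσu
        rcases hσu with hσu | hσu
        · refine ⟨κ', h3, Or.inr ?_⟩
          rw [hσu, hu.2]
        · exfalso
          apply hσr.2 κ' h3
          rw [hσu, hu.1, hw'.1]
    have h2 : ∀ σ : Star m n, ((cover_om XQ XE (Sum.inr (κ, l, s) : Vt m n)).filter
          (fun w : Cell m × Fin n => ∃ κ', κ' ≠ κ ∧
            (σ = Sum.inl (κ', ln κ' w.1) ∨ σ = Sum.inr (Sum.inl (κ', ln κ' w.1))))).card ≤ 2 := by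
      intro σ
      rcases σ with ⟨κ0, l0⟩ | ⟨κ0, l0⟩ | ⟨κ0, s0⟩
      · by_cases hκ : κ0 = κ
        · rw [Finset.filter_false_of_mem]
          · simp
          · rintro w _ ⟨κ', h3, h4 | h4⟩
            · have h5 := Sum.inl.inj h4
              rw [Prod.mk.injEq] at h5
              exact h3 (h5.1.symm.trans hκ)
            · exact absurd h4 (by simp)
        · refine le_trans (Finset.card_le_card ?_) (cover_two XQ XE κ l s κ0 hκ l0)
          intro w hw
          rw [Finset.mem_filter] at hw ⊢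
          refine ⟨hw.1, ?_⟩
          obtain ⟨_, κ', h3, h4 | h4⟩ := hw
          · have h5 := Sum.inl.inj h4
            rw [Prod.mk.injEq] at h5
            obtain ⟨h6, h7⟩ := h5
            subst h6
            exact h7.symm
          · exact absurd h4 (by simp)
      · by_cases hκ : κ0 = κ
        · rw [Finset.filter_false_of_mem]
          · simp
          · rintro w _ ⟨κ', h3, h4 | h4⟩
            · exact absurd h4 (by simp)
            · have h5 := Sum.inl.inj (Sum.inr.inj h4)
              rw [Prod.mk.injEq] at h5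
              exact h3 (h5.1.symm.trans hκ)
        · refine le_trans (Finset.card_le_card ?_) (cover_two XQ XE κ l s κ0 hκ l0)
          intro w hw
          rw [Finset.mem_filter] at hw ⊢
          refine ⟨hw.1, ?_⟩
          obtain ⟨_, κ', h3, h4 | h4⟩ := hw
          · exact absurd h4 (by simp)
          · have h5 := Sum.inl.inj (Sum.inr.inj h4)
            rw [Prod.mk.injEq] at h5
            obtain ⟨h6, h7⟩ := h5
            subst h6
            exact h7.symm
      · rw [Finset.filter_false_of_mem]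
        · simp
        · rintro w _ ⟨κ', h3, h4 | h4⟩
          · exact absurd h4 (by simp)
          · exact absurd (Sum.inr.inj h4) (by simp)
    calc _ ≤ _ := Finset.card_le_card h1
      _ ≤ _ := Finset.card_biUnion_le
      _ ≤ ∑ _σ ∈ T, 2 := Finset.sum_le_sum fun σ _ => h2 σ
      _ = 2 * T.card := by rw [Finset.sum_const, smul_eq_mul, mul_comm]

set_option synthInstance.maxSize 1000 in
theorem cover (hh : 10 ^ 6 ≤ h) (hN : h ^ 100 ≤ 2 * m + 1) (n1 : 2 * m - 1 ≤ n)
    (F : Finset (Fin 3 × Fin m × Fin n))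
    (XQ : Finset (Cell m)) (XE : Finset (Fin 3 × Fin m × Fin n)) (hres : Res m n h E F XQ XE)
    (R : Finset (Vt m n)) (hR : ∀ σ, (deg R σ : ℝ) ≤ (2 * m + 1) / (h : ℝ) ^ 29)
    (hd : Disjoint (cels XQ ∪ ents XE) R) :
    ∃ f : Vt m n → Cell m × Fin n,
      (∀ v ∈ R, v ∈ ed (f v).1 (f v).2 ∧
        (ed (f v).1 (f v).2).erase v ⊆ (cels XQ ∪ ents XE : Finset (Vt m n))) ∧
      (∀ v ∈ R, ∀ w ∈ R, v ≠ w →
        Disjoint (ed (f v).1 (f v).2 : Finset (Vt m n)) (ed (f w).1 (f w).2)) ∧
      ∀ σ, (deg (R.biUnion (fun v => (ed (f v).1 (f v).2).erase v)) σ : ℝ)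
        ≤ (2 * m + 1) / (h : ℝ) ^ 14 := by
  have hpos : 0 < h := lt_of_lt_of_le (by norm_num) hh
  have hhR : (0 : ℝ) < (h : ℝ) := by exact_mod_cast hpos
  obtain ⟨D, hDdef⟩ : ∃ D : ℕ, D = (2 * m + 1) / h ^ 29 := ⟨_, rfl⟩
  obtain ⟨B, hBdef⟩ : ∃ B : ℕ, B = (2 * m + 1) / h ^ 15 := ⟨_, rfl⟩
  obtain ⟨L, hLdef⟩ : ∃ L : ℕ, L = (2 * m + 1) / h ^ 14 := ⟨_, rfl⟩
  have hDB : h ^ 14 * D ≤ B := by
    rw [hDdef, hBdef, show h ^ 29 = h ^ 15 * h ^ 14 by ring, ← Nat.div_div_eq_div_mul]
    exact Nat.mul_div_le _ _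
  have hBL : h * B ≤ L := by
    rw [hBdef, hLdef, show h ^ 15 = h ^ 14 * h by ring, ← Nat.div_div_eq_div_mul]
    exact Nat.mul_div_le _ _
  have hLN : h ^ 14 * L ≤ 2 * m + 1 := by
    rw [hLdef]
    exact Nat.mul_div_le _ _
  have hB1 : 1 ≤ B := by
    rw [hBdef]
    apply Nat.div_pos _ (pow_pos hpos _)
    exact le_trans (Nat.pow_le_pow_right hpos (by norm_num)) hN
  have hDD : D ≤ B := by
    refine le_trans ?_ hDB
    exact Nat.le_mul_of_pos_left _ (pow_pos hpos _)
  have hdegD : ∀ σ, deg R σ ≤ D := by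
    intro σ
    rw [hDdef, Nat.le_div_iff_mul_le (pow_pos hpos _)]
    have h1 := hR σ
    rw [le_div_iff₀ (pow_pos hhR _)] at h1
    exact_mod_cast h1
  have hRcard : R.card ≤ 4 * m * D := card_le_of_deg R D hdegD
  have homc : ∀ v : Vt m n, 2 * m + 1 ≤ (cover_om XQ XE v).card * h ^ 13 := by
    intro v
    have h1 := cover_card_om hres v
    rw [div_le_iff₀ (pow_pos hhR _)] at h1
    exact_mod_cast h1
  have hm : 1 ≤ m := by
    have h1 : 10 ^ 6 ≤ h ^ 100 := hh.trans (Nat.le_self_pow (by norm_num) h)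
    omega
  obtain ⟨f, hf1, _, hf3, hf4⟩ := greedy (V := Vt m n) (St := Star m n) (I := {v // v ∈ R})
    (Om := Cell m × Fin n) star card_star (fun i => cover_om XQ XE i.1)
    (fun i w => (ed w.1 w.2).erase i.1) (fun i => cover_root i.1) 3 L B (3 * D) 0 ∅
    (by
      intro i w hw
      rw [Finset.card_erase_of_mem (cover_in XQ XE i.1 w hw), card_ed])
    (by
      intro σ
      refine le_trans ?_ (cover_rho R D hdegD σ)
      refine Finset.card_le_card_of_injOn (fun i => i.1) ?_ ?_
      · intro i hi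
        rw [Finset.mem_coe, Finset.mem_filter] at hi
        rw [Finset.mem_coe, Finset.mem_filter]
        exact ⟨i.2, hi.2⟩
      · intro i _ j _ hij
        exact Subtype.ext hij)
    (by
      intro σ
      simp)
    (by
      intro i U hU
      have h1 := cover_hU XQ XE i.1 U L hU
      have h2 := homc i.1
      have h3 : h ^ 14 * L ≤ h ^ 13 * (cover_om XQ XE i.1).card := by
        rw [mul_comm (h ^ 13)]
        exact hLN.trans h2
      have h4 : h * L ≤ (cover_om XQ XE i.1).card := by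
        rw [show h ^ 14 * L = h ^ 13 * (h * L) by ring] at h3
        exact Nat.le_of_mul_le_mul_left h3 (pow_pos hpos _)
      have h5 : 1 ≤ L := by
        refine hB1.trans ((Nat.le_mul_of_pos_left B hpos).trans hBL)
      have h6 : 11 * L ≤ h * L := Nat.mul_le_mul_right _ (by omega)
      omega)
    (by
      intro i T hT
      refine le_trans (Nat.mul_le_mul_left 2 (cover_hS XQ XE i.1 T _ ?_)) ?_
      · intro w hw
        exact Finset.mem_filter.1 hw
      have h2 := homc i.1
      rw [Fintype.card_coe] at hT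
      have h3 : B * T.card ≤ 18 * ((2 * m + 1) * D) := by
        refine hT.trans ?_
        calc 3 * 3 * R.card ≤ 3 * 3 * (4 * m * D) := Nat.mul_le_mul_left _ hRcard
          _ = 18 * ((2 * m) * D) := by ring
          _ ≤ 18 * ((2 * m + 1) * D) :=
            Nat.mul_le_mul_left _ (Nat.mul_le_mul_right _ (Nat.le_succ _))
      have h4 : B * (h ^ 14 * T.card) ≤ B * (18 * (2 * m + 1)) := by
        calc B * (h ^ 14 * T.card) = h ^ 14 * (B * T.card) := by ring
          _ ≤ h ^ 14 * (18 * ((2 * m + 1) * D)) := Nat.mul_le_mul_left _ h3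
          _ = (18 * (2 * m + 1)) * (h ^ 14 * D) := by ring
          _ ≤ (18 * (2 * m + 1)) * B := Nat.mul_le_mul_left _ hDB
          _ = B * (18 * (2 * m + 1)) := by ring
      have h5 : h ^ 14 * T.card ≤ 18 * (2 * m + 1) := Nat.le_of_mul_le_mul_left h4 hB1
      have h6 : h ^ 13 * (h * T.card) ≤ h ^ 13 * (18 * (cover_om XQ XE i.1).card) := by
        calc h ^ 13 * (h * T.card) = h ^ 14 * T.card := by ring
          _ ≤ 18 * (2 * m + 1) := h5
          _ ≤ 18 * ((cover_om XQ XE i.1).card * h ^ 13) := Nat.mul_le_mul_left _ h2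
          _ = _ := by ring
      have h7 : h * T.card ≤ 18 * (cover_om XQ XE i.1).card :=
        Nat.le_of_mul_le_mul_left h6 (pow_pos hpos _)
      have h8 : 72 * T.card ≤ h * T.card := Nat.mul_le_mul_right _ (by omega)
      omega)
    (by
      have h1 : 13 * B ≤ h * B := Nat.mul_le_mul_right _ (by omega)
      omega)
  -- the function on all vertices
  have hne : Nonempty (Cell m × Fin n) := by
    have h1 : 0 < Fintype.card (Cell m) := by
      rw [card_cell]
      apply Nat.mul_pos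
      · omega
      · omega
    have h2 : 0 < n := by omega
    rw [Fintype.card_pos_iff] at h1
    obtain ⟨q⟩ := h1
    exact ⟨(q, ⟨0, h2⟩)⟩
  obtain ⟨w0⟩ := hne
  obtain ⟨g, hg⟩ : ∃ g : Vt m n → Cell m × Fin n, ∀ v (hv : v ∈ R), g v = f ⟨v, hv⟩ := by
    refine ⟨fun v => if hv : v ∈ R then f ⟨v, hv⟩ else w0, ?_⟩
    intro v hv
    simp only [dif_pos hv]
  refine ⟨g, ?_, ?_, ?_⟩
  · intro v hv
    rw [hg v hv]
    exact ⟨cover_in XQ XE v _ (hf1 ⟨v, hv⟩), cover_sub XQ XE v _ (hf1 ⟨v, hv⟩)⟩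
  · intro v hv w hw hvw
    rw [hg v hv, hg w hw]
    have a1 := cover_in XQ XE v _ (hf1 ⟨v, hv⟩)
    have a2 := cover_in XQ XE w _ (hf1 ⟨w, hw⟩)
    have b1 := cover_sub XQ XE v _ (hf1 ⟨v, hv⟩)
    have b2 := cover_sub XQ XE w _ (hf1 ⟨w, hw⟩)
    have c := hf3 ⟨v, hv⟩ ⟨w, hw⟩ (fun h1 => hvw (congrArg Subtype.val h1))
    rw [← Finset.insert_erase a1, ← Finset.insert_erase a2, Finset.disjoint_insert_left,
      Finset.disjoint_insert_right]
    refine ⟨?_, ?_, c⟩
    · rw [Finset.mem_insert]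
      rintro (h1 | h1)
      · exact hvw h1
      · exact (Finset.disjoint_left.1 hd) (b2 h1) hv
    · intro h1
      exact (Finset.disjoint_left.1 hd) (b1 h1) hw
  · intro σ
    have h1 : deg (R.biUnion (fun v => (ed (g v).1 (g v).2).erase v)) σ ≤ L := by
      refine le_trans ?_ (hf4 σ)
      unfold deg
      apply Finset.card_le_card
      apply Finset.filter_subset_filter
      intro u hu
      rw [Finset.mem_biUnion] at hu
      obtain ⟨v, hv, hu⟩ := hu
      rw [Finset.mem_union, Finset.mem_biUnion]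
      right
      refine ⟨⟨v, hv⟩, Finset.mem_univ _, ?_⟩
      rw [hg v hv] at hu
      exact hu
    rw [le_div_iff₀ (pow_pos hhR _)]
    have h2 : deg (R.biUnion (fun v => (ed (g v).1 (g v).2).erase v)) σ * h ^ 14 ≤ 2 * m + 1 := by
      calc _ ≤ L * h ^ 14 := Nat.mul_le_mul_right _ h1
        _ = h ^ 14 * L := mul_comm _ _
        _ ≤ _ := hLN
    exact_mod_cast h2

end H77.LT
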