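import Pool.Agent.H77.LT.Nodes

/-!
# Latin triangles: numerical hypotheses (definition only)
-/

namespace H77.LT

structure Par (m n h : ℕ) : Prop where
  n1 : 2 * m - 1 ≤ n
  n2 : n ≤ 2 * m + 3
  hlog : 10 ^ 9 * (Nat.log 2 (2 * m + 1) + 2) ^ 4 ≤ h
  hN : h ^ 20 ≤ 2 * m + 1

/-- the unit of the star bounds -/
def q3 (m h : ℕ) : ℕ := (2 * m + 1) / h ^ 3

end H77.LT
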