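import Pool.Agent.H77.LT.TdA
import Pool.Agent.H77.LT.CntA
import Pool.Agent.H77.LT.Par

/-!
# [H77 LT DEGU] The set `U` (reserve, special edges, forbidden and board entries) is small

Proof. `N = 2m+1`. Star `inl (κ,l)`: the cells of `XQ` on the line (at most `x0 N + N/h^E`) and the
cells of `cov PP` (at most `N/h^30`). Star `inr (inl (κ,l))`: the entries of `XE` and `Y` are board
entries: at most `n/(KK h κ) + 1` (`cnt_symbs`), `F` has at most 4, `cov PP` at most `N/h^30`. Star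
`inr (inr (κ,s))`: at most `m/(KK h κ) + 1` board entries (`cnt_lines`), 2 of `F`, `N/h^30` of
`cov PP`. As `KK h κ ≥ h^4 - 1`, `h ≥ 10^6`, all this is at most `2N/h^4 + 10 ≤ N/h^3 - 1`.
-/

open Finset

namespace H77.LT

variable {m n h E : ℕ}

theorem degu_union (U W : Finset (Vt m n)) (σ : Star m n) :
    deg (U ∪ W) σ ≤ deg U σ + deg W σ := by
  unfold deg
  rw [filter_union]
  exact card_union_le _ _

theorem degu_cels_inl (X : Finset (Cell m)) (κ : Fin 3) (l : Fin m) :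
    deg (cels X : Finset (Vt m n)) (Sum.inl (κ, l)) ≤ (X.filter (fun q => ln κ q = l)).card := by
  unfold deg
  refine (card_le_card (t := (X.filter (fun q => ln κ q = l)).image
    (Sum.inl : Cell m → Vt m n)) ?_).trans card_image_le
  intro v hv
  obtain ⟨h1, h2⟩ := mem_filter.1 hv
  obtain ⟨q, hq, rfl⟩ := mem_image.1 h1
  obtain ⟨κ', -, h4⟩ := mem_image.1 h2
  simp only [Sum.inl.injEq, Prod.mk.injEq] at h4
  obtain ⟨rfl, h5⟩ := h4
  exact mem_image.2 ⟨q, mem_filter.2 ⟨hq, h5⟩, rfl⟩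

theorem degu_cels_inr (X : Finset (Cell m)) (τ : (Fin 3 × Fin m) ⊕ (Fin 3 × Fin n)) :
    deg (cels X : Finset (Vt m n)) (Sum.inr τ) = 0 := by
  unfold deg
  rw [card_eq_zero, filter_eq_empty_iff]
  intro v hv h2
  obtain ⟨q, hq, rfl⟩ := mem_image.1 hv
  obtain ⟨κ', -, h4⟩ := mem_image.1 h2
  exact Sum.inl_ne_inr h4

theorem degu_ents_inl (X : Finset (Fin 3 × Fin m × Fin n)) (τ : Fin 3 × Fin m) :
    deg (ents X) (Sum.inl τ) = 0 := by
  unfold deg
  rw [card_eq_zero, filter_eq_empty_iff]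
  intro v hv h2
  obtain ⟨e, he, rfl⟩ := mem_image.1 hv
  simp only [star, mem_insert, mem_singleton] at h2
  rcases h2 with h | h
  · exact Sum.inl_ne_inr h
  · exact Sum.inl_ne_inr h

theorem degu_ents_line (X : Finset (Fin 3 × Fin m × Fin n)) (κ : Fin 3) (l : Fin m) :
    deg (ents X) (Sum.inr (Sum.inl (κ, l))) ≤ (X.filter (fun e => e.1 = κ ∧ e.2.1 = l)).card := by
  unfold deg
  refine (card_le_card (t := (X.filter (fun e => e.1 = κ ∧ e.2.1 = l)).image
    (Sum.inr : Fin 3 × Fin m × Fin n → Vt m n)) ?_).trans card_image_le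
  intro v hv
  obtain ⟨h1, h2⟩ := mem_filter.1 hv
  obtain ⟨e, he, rfl⟩ := mem_image.1 h1
  simp only [star, mem_insert, mem_singleton] at h2
  rcases h2 with h | h
  · simp only [Sum.inr.injEq, Sum.inl.injEq, Prod.mk.injEq] at h
    exact mem_image.2 ⟨e, mem_filter.2 ⟨he, h.1.symm, h.2.symm⟩, rfl⟩
  · exact absurd (Sum.inr.inj h) Sum.inl_ne_inr

theorem degu_ents_symb (X : Finset (Fin 3 × Fin m × Fin n)) (κ : Fin 3) (s : Fin n) :
    deg (ents X) (Sum.inr (Sum.inr (κ, s))) ≤ (X.filter (fun e => e.1 = κ ∧ e.2.2 = s)).card := by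
  unfold deg
  refine (card_le_card (t := (X.filter (fun e => e.1 = κ ∧ e.2.2 = s)).image
    (Sum.inr : Fin 3 × Fin m × Fin n → Vt m n)) ?_).trans card_image_le
  intro v hv
  obtain ⟨h1, h2⟩ := mem_filter.1 hv
  obtain ⟨e, he, rfl⟩ := mem_image.1 h1
  simp only [star, mem_insert, mem_singleton] at h2
  rcases h2 with h | h
  · exact absurd (Sum.inr.inj h).symm Sum.inl_ne_inr
  · simp only [Sum.inr.injEq, Prod.mk.injEq] at h
    exact mem_image.2 ⟨e, mem_filter.2 ⟨he, h.1.symm, h.2.symm⟩, rfl⟩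

theorem degu_board_line (hh : 2 ≤ h) (X : Finset (Fin 3 × Fin m × Fin n))
    (hX : ∀ e ∈ X, OnB h e) (κ : Fin 3) (l : Fin m) :
    ((deg (ents X) (Sum.inr (Sum.inl (κ, l))) : ℕ) : ℝ) ≤ n / (KK h κ : ℝ) + 1 := by
  have hK : 0 < KK h κ := by
    have := KK_pos hh κ
    omega
  have h1 : (X.filter (fun e => e.1 = κ ∧ e.2.1 = l)).card ≤
      (univ.filter (fun s : Fin n => s.val % KK h κ = l.val % KK h κ)).card := by
    apply card_le_card_of_injOn (fun e => e.2.2)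
    · intro e he
      obtain ⟨h2, h3, h4⟩ := mem_filter.1 (mem_coe.1 he)
      have h5 := hX e h2
      unfold OnB at h5
      rw [h3, h4] at h5
      rw [mem_coe, mem_filter]
      exact ⟨mem_univ _, h5.symm⟩
    · intro e he e' he' hee
      obtain ⟨h2, h3, h4⟩ := mem_filter.1 (mem_coe.1 he)
      obtain ⟨h2', h3', h4'⟩ := mem_filter.1 (mem_coe.1 he')
      exact Prod.ext (h3.trans h3'.symm) (Prod.ext (h4.trans h4'.symm) hee)
  have h2 := (abs_le.1 (cnt_symbs (n := n) hh κ (l.val % KK h κ) (Nat.mod_lt _ hK))).2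
  have h3 : ((deg (ents X) (Sum.inr (Sum.inl (κ, l))) : ℕ) : ℝ) ≤
      ((univ.filter (fun s : Fin n => s.val % KK h κ = l.val % KK h κ)).card : ℝ) := by
    exact_mod_cast (degu_ents_line X κ l).trans h1
  linarith

theorem degu_board_symb (hh : 2 ≤ h) (X : Finset (Fin 3 × Fin m × Fin n))
    (hX : ∀ e ∈ X, OnB h e) (κ : Fin 3) (s : Fin n) :
    ((deg (ents X) (Sum.inr (Sum.inr (κ, s))) : ℕ) : ℝ) ≤ m / (KK h κ : ℝ) + 1 := by
  have hK : 0 < KK h κ := by
    have := KK_pos hh κ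
    omega
  have h1 : (X.filter (fun e => e.1 = κ ∧ e.2.2 = s)).card ≤
      (univ.filter (fun l : Fin m => l.val % KK h κ = s.val % KK h κ)).card := by
    apply card_le_card_of_injOn (fun e => e.2.1)
    · intro e he
      obtain ⟨h2, h3, h4⟩ := mem_filter.1 (mem_coe.1 he)
      have h5 := hX e h2
      unfold OnB at h5
      rw [h3, h4] at h5
      rw [mem_coe, mem_filter]
      exact ⟨mem_univ _, h5⟩
    · intro e he e' he' hee
      obtain ⟨h2, h3, h4⟩ := mem_filter.1 (mem_coe.1 he)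
      obtain ⟨h2', h3', h4'⟩ := mem_filter.1 (mem_coe.1 he')
      exact Prod.ext (h3.trans h3'.symm) (Prod.ext hee (h4.trans h4'.symm))
  have h2 := (abs_le.1 (cnt_lines (m := m) hh κ (s.val % KK h κ) (Nat.mod_lt _ hK))).2
  have h3 : ((deg (ents X) (Sum.inr (Sum.inr (κ, s))) : ℕ) : ℝ) ≤
      ((univ.filter (fun l : Fin m => l.val % KK h κ = s.val % KK h κ)).card : ℝ) := by
    exact_mod_cast (degu_ents_symb X κ s).trans h1
  linarith

theorem degU (hh : 10 ^ 6 ≤ h) (hE : 20 ≤ E) (hN : h ^ 100 ≤ 2 * m + 1)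
    (n1 : 2 * m - 1 ≤ n) (F : Finset (Fin 3 × Fin m × Fin n)) (hF : Forb m n F)
    (XQ : Finset (Cell m)) (XE : Finset (Fin 3 × Fin m × Fin n)) (hres : Res m n h E F XQ XE)
    (PP : Finset (Cell m × Fin n))
    (hP : ∀ σ, (deg (cov PP) σ : ℝ) ≤ (2 * m + 1) / (h : ℝ) ^ 30)
    (Y : Finset (Fin 3 × Fin m × Fin n)) (hYb : ∀ e ∈ Y, OnB h e) (σ : Star m n) :
    deg (cels XQ ∪ ents XE ∪ cov PP ∪ ents F ∪ ents Y) σ ≤ q3 m h := by
  have hH : (10 : ℝ) ^ 6 ≤ (h : ℝ) := by exact_mod_cast hh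
  have hH0 : (0 : ℝ) < h := by linarith [show (0 : ℝ) < 10 ^ 6 by norm_num]
  have hH1 : (1 : ℝ) ≤ h := by linarith [show (1 : ℝ) ≤ 10 ^ 6 by norm_num]
  have hh2 : 2 ≤ h := le_trans (by norm_num) hh
  have hNr : (h : ℝ) ^ 100 ≤ 2 * m + 1 := by exact_mod_cast hN
  set N : ℝ := 2 * m + 1 with hNdef
  have hNpos : 0 < N := lt_of_lt_of_le (by positivity) hNr
  set u : ℝ := N / (h : ℝ) ^ 4 with hu
  have hupos : 0 < u := by positivity
  have h3u : N / (h : ℝ) ^ 3 = u * h := by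
    rw [hu]
    field_simp
  have hu6 : 6 ≤ u := by
    rw [hu, le_div_iff₀ (by positivity)]
    have h1 : (h : ℝ) ^ 5 ≤ (h : ℝ) ^ 100 := pow_le_pow_right₀ hH1 (by norm_num)
    have h2 : (h : ℝ) ^ 5 = h * (h : ℝ) ^ 4 := by ring
    have h3 : 6 * (h : ℝ) ^ 4 ≤ h * (h : ℝ) ^ 4 :=
      mul_le_mul_of_nonneg_right (by linarith [show (6 : ℝ) ≤ 10 ^ 6 by norm_num]) (by positivity)
    linarith
  have hNE : N / (h : ℝ) ^ E ≤ u :=
    div_le_div_of_nonneg_left hNpos.le (by positivity) (pow_le_pow_right₀ hH1 (by omega))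
  have hN30 : N / (h : ℝ) ^ 30 ≤ u :=
    div_le_div_of_nonneg_left hNpos.le (by positivity) (pow_le_pow_right₀ hH1 (by norm_num))
  have hfin : ((deg (cels XQ ∪ ents XE ∪ cov PP ∪ ents F ∪ ents Y) σ : ℕ) : ℝ) ≤ u * h →
      deg (cels XQ ∪ ents XE ∪ cov PP ∪ ents F ∪ ents Y) σ ≤ q3 m h := by
    intro h1
    unfold q3
    rw [Nat.le_div_iff_mul_le (by positivity)]
    rw [← h3u, le_div_iff₀ (by positivity), hNdef] at h1
    exact_mod_cast h1
  apply hfin
  have hsum : ((deg (cels XQ ∪ ents XE ∪ cov PP ∪ ents F ∪ ents Y) σ : ℕ) : ℝ) ≤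
      (deg (cels XQ : Finset (Vt m n)) σ : ℝ) + (deg (ents XE) σ : ℝ) + (deg (cov PP) σ : ℝ) +
        (deg (ents F) σ : ℝ) + (deg (ents Y) σ : ℝ) := by
    have h1 := degu_union (cels XQ ∪ ents XE ∪ cov PP ∪ ents F) (ents Y) σ
    have h2 := degu_union (cels XQ ∪ ents XE ∪ cov PP) (ents F) σ
    have h3 := degu_union (cels XQ ∪ ents XE) (cov PP) σ
    have h4 := degu_union (cels XQ) (ents XE) σ
    have h5 : deg (cels XQ ∪ ents XE ∪ cov PP ∪ ents F ∪ ents Y) σ ≤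
        deg (cels XQ : Finset (Vt m n)) σ + deg (ents XE) σ + deg (cov PP) σ + deg (ents F) σ +
          deg (ents Y) σ := by omega
    exact_mod_cast h5
  have hPs := (hP σ).trans hN30
  have hbig : 10 * u ≤ u * h := by nlinarith [show (10 : ℝ) ≤ 10 ^ 6 by norm_num]
  have hKr : ∀ κ, (h : ℝ) ^ 4 / 2 ≤ (KK h κ : ℝ) := by
    intro κ
    have h1 := (KK_bounds hh2 κ).1
    have h2 : h ^ 4 ≤ KK h κ + 1 := by omega
    have h3 : (h : ℝ) ^ 4 ≤ KK h κ + 1 := by exact_mod_cast h2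
    have h4 : (2 : ℝ) ≤ (h : ℝ) ^ 4 := by
      have : (16 : ℕ) ≤ h ^ 4 := cnta_pow hh2
      have h5 : (16 : ℝ) ≤ (h : ℝ) ^ 4 := by exact_mod_cast this
      linarith
    linarith
  have hnN : (n : ℝ) ≤ 2 * N := by
    have h1 : (n : ℝ) ≤ 2 * m + 3 := by exact_mod_cast hF.hn
    have h2 : 6 * (1 : ℝ) ≤ N := by
      have h3 : N = u * (h : ℝ) ^ 4 := by
        rw [hu]
        field_simp
      have h4 : (1 : ℝ) ≤ (h : ℝ) ^ 4 := one_le_pow₀ hH1
      rw [h3]
      exact mul_le_mul hu6 h4 (by norm_num) hupos.le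
    linarith
  have hmN : (m : ℝ) ≤ 2 * N := by
    rw [hNdef]
    have : (0 : ℝ) ≤ m := Nat.cast_nonneg m
    linarith
  have hdiv : ∀ (x : ℝ) (κ : Fin 3), x ≤ 2 * N → x / (KK h κ : ℝ) ≤ 4 * u := by
    intro x κ hx
    have hKp : (0 : ℝ) < KK h κ := lt_of_lt_of_le (by positivity) (hKr κ)
    rw [div_le_iff₀ hKp]
    have h1 : 4 * u * ((h : ℝ) ^ 4 / 2) ≤ 4 * u * (KK h κ : ℝ) :=
      mul_le_mul_of_nonneg_left (hKr κ) (by positivity)
    have h2 : 4 * u * ((h : ℝ) ^ 4 / 2) = 2 * N := by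
      rw [hu]
      field_simp
      ring
    linarith
  rcases σ with ⟨κ, l⟩ | ⟨κ, l⟩ | ⟨κ, s⟩
  · have h1 : ((deg (cels XQ : Finset (Vt m n)) (Sum.inl (κ, l)) : ℕ) : ℝ) ≤
        ((XQ.filter (fun q => ln κ q = l)).card : ℝ) := by
      exact_mod_cast degu_cels_inl XQ κ l
    have h2 := (abs_le.1 (hres.qline κ l)).2
    rw [degu_ents_inl, degu_ents_inl, degu_ents_inl] at hsum
    have h3 : x0 h * N ≤ u := by
      unfold x0
      rw [hu, div_mul_eq_mul_div, one_mul]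
      apply div_le_div_of_nonneg_left hNpos.le (by positivity)
      have : (0 : ℝ) < (h : ℝ) ^ 4 := by positivity
      linarith
    push_cast at hsum
    linarith
  · rw [degu_cels_inr] at hsum
    have h1 := degu_board_line hh2 XE hres.board κ l
    have h2 := degu_board_line hh2 Y hYb κ l
    have h3 := hdiv n κ hnN
    have h4 : ((deg (ents F) (Sum.inr (Sum.inl (κ, l))) : ℕ) : ℝ) ≤ 4 := by
      have h5 := degu_ents_line F κ l
      have h6 := hF.line κ l
      have h7 := hF.hn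
      have h8 : deg (ents F) (Sum.inr (Sum.inl (κ, l))) ≤ 4 := by omega
      exact_mod_cast h8
    push_cast at hsum
    linarith
  · rw [degu_cels_inr] at hsum
    have h1 := degu_board_symb hh2 XE hres.board κ s
    have h2 := degu_board_symb hh2 Y hYb κ s
    have h3 := hdiv m κ hmN
    have h4 : ((deg (ents F) (Sum.inr (Sum.inr (κ, s))) : ℕ) : ℝ) ≤ 4 := by
      have h5 := degu_ents_symb F κ s
      have h6 := hF.symb2 κ s
      have h8 : deg (ents F) (Sum.inr (Sum.inr (κ, s))) ≤ 4 := by omega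
      exact_mod_cast h8
    push_cast at hsum
    linarith

end H77.LT
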