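import Mathlib

/-!
# [H77 LT EXA] Random subsets: expectation over a product of Bernoulli variables

`EX E p f` is the expectation of `f T` for the random subset `T` of the finite set `E` containing
each `e` independently with probability `p e`. `Pr E p P` is the probability of `P T`.

Proofs.
* `EX_insert`: `(insert e E).powerset = E.powerset ∪ (E.powerset).image (insert e)` (disjoint union,
  `Finset.powerset_insert`), for `T ⊆ E`: `insert e E \ T = insert e (E \ T)` and
  `insert e E \ insert e T = E \ T`.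
* `EX_const`: induction on `E` with `EX_insert`.
* `EX_add`, `EX_mul_left`, `EX_sum`: distribute the finite sum.
* `EX_mono`, `EX_nonneg`: all weights are nonnegative because `0 ≤ p e ≤ 1` on `E`.
* `exists_le_EX`: otherwise `f T > EX` for all `T ⊆ E`; then `EX f > EX` (the weights are
  nonnegative with sum one).
* `exists_avoid` (union bound): if no `T` avoids all `P j` then for every `T ⊆ E` the sum over `j`
  of the indicators is at least one, so the sum of the probabilities is at least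
  `EX 1 = 1`.
-/

open Finset

namespace H77.LT

noncomputable def EX {ι : Type} [DecidableEq ι] (E : Finset ι) (p : ι → ℝ)
    (f : Finset ι → ℝ) : ℝ :=
  ∑ T ∈ E.powerset, (∏ e ∈ T, p e) * (∏ e ∈ E \ T, (1 - p e)) * f T

open Classical in
noncomputable def Pr {ι : Type} [DecidableEq ι] (E : Finset ι) (p : ι → ℝ)
    (P : Finset ι → Prop) : ℝ :=
  EX E p (fun T => if P T then 1 else 0)

variable {ι : Type} [DecidableEq ι]

theorem EX_insert (E : Finset ι) (p : ι → ℝ) (f : Finset ι → ℝ) (e : ι) (he : e ∉ E) :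
    EX (insert e E) p f
      = (1 - p e) * EX E p f + p e * EX E p (fun T => f (insert e T)) := by
  unfold EX
  rw [Finset.sum_powerset_insert he, Finset.mul_sum, Finset.mul_sum]
  congr 1
  · apply Finset.sum_congr rfl
    intro T hT
    have hTE : T ⊆ E := Finset.mem_powerset.mp hT
    have heT : e ∉ T := fun h => he (hTE h)
    have h1 : insert e E \ T = insert e (E \ T) := Finset.insert_sdiff_of_notMem E heT
    have h2 : e ∉ E \ T := fun h => he (Finset.mem_sdiff.mp h).1
    rw [h1, Finset.prod_insert h2]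
    ring
  · apply Finset.sum_congr rfl
    intro T hT
    have hTE : T ⊆ E := Finset.mem_powerset.mp hT
    have heT : e ∉ T := fun h => he (hTE h)
    have h1 : insert e E \ insert e T = E \ T := by
      ext x
      simp only [Finset.mem_sdiff, Finset.mem_insert, not_or]
      constructor
      · rintro ⟨h | h, h3, h4⟩
        · exact absurd h h3
        · exact ⟨h, h4⟩
      · rintro ⟨h, h4⟩
        refine ⟨Or.inr h, ?_, h4⟩
        rintro rfl
        exact he h
    rw [h1, Finset.prod_insert heT]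
    ring

theorem EX_const (E : Finset ι) (p : ι → ℝ) (a : ℝ) : EX E p (fun _ => a) = a := by
  induction E using Finset.induction_on with
  | empty => simp [EX]
  | insert e E he ih =>
    rw [EX_insert E p _ e he, ih]
    ring

theorem EX_add (E : Finset ι) (p : ι → ℝ) (f g : Finset ι → ℝ) :
    EX E p (fun T => f T + g T) = EX E p f + EX E p g := by
  unfold EX
  rw [← Finset.sum_add_distrib]
  apply Finset.sum_congr rfl
  intro T _
  ring

theorem EX_mul_left (E : Finset ι) (p : ι → ℝ) (a : ℝ) (f : Finset ι → ℝ) :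
    EX E p (fun T => a * f T) = a * EX E p f := by
  unfold EX
  rw [Finset.mul_sum]
  apply Finset.sum_congr rfl
  intro T _
  ring

theorem EX_sum {J : Type} (E : Finset ι) (p : ι → ℝ) (s : Finset J)
    (f : J → Finset ι → ℝ) :
    EX E p (fun T => ∑ j ∈ s, f j T) = ∑ j ∈ s, EX E p (f j) := by
  unfold EX
  rw [Finset.sum_comm]
  apply Finset.sum_congr rfl
  intro T _
  rw [Finset.mul_sum]

/-- two functions which agree on the subsets of `E` have the same expectation -/
theorem EX_congr (E : Finset ι) (p : ι → ℝ) (f g : Finset ι → ℝ)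
    (h : ∀ T, T ⊆ E → f T = g T) : EX E p f = EX E p g := by
  unfold EX
  apply Finset.sum_congr rfl
  intro T hT
  rw [h T (Finset.mem_powerset.mp hT)]

theorem EX_mono (E : Finset ι) (p : ι → ℝ) (hp : ∀ e ∈ E, 0 ≤ p e ∧ p e ≤ 1)
    (f g : Finset ι → ℝ) (h : ∀ T, T ⊆ E → f T ≤ g T) : EX E p f ≤ EX E p g := by
  unfold EX
  apply Finset.sum_le_sum
  intro T hT
  have hTE : T ⊆ E := Finset.mem_powerset.mp hT
  apply mul_le_mul_of_nonneg_left (h T hTE)
  apply mul_nonneg
  · exact Finset.prod_nonneg fun e he => (hp e (hTE he)).1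
  · exact Finset.prod_nonneg fun e he => by
      have := (hp e (Finset.mem_sdiff.mp he).1).2
      linarith

theorem EX_nonneg (E : Finset ι) (p : ι → ℝ) (hp : ∀ e ∈ E, 0 ≤ p e ∧ p e ≤ 1)
    (f : Finset ι → ℝ) (h : ∀ T, T ⊆ E → 0 ≤ f T) : 0 ≤ EX E p f := by
  have h1 := EX_mono E p hp (fun _ => 0) f h
  rwa [EX_const] at h1

theorem exists_le_EX (E : Finset ι) (p : ι → ℝ) (hp : ∀ e ∈ E, 0 ≤ p e ∧ p e ≤ 1)
    (f : Finset ι → ℝ) : ∃ T, T ⊆ E ∧ f T ≤ EX E p f := by
  by_contra hcon
  push Not at hcon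
  -- the minimum of f over the powerset
  obtain ⟨T0, hT0, hmin⟩ := Finset.exists_min_image E.powerset f
    ⟨∅, Finset.mem_powerset.mpr (Finset.empty_subset E)⟩
  have h1 := EX_mono E p hp (fun _ => f T0) f
    (fun T hT => hmin T (Finset.mem_powerset.mpr hT))
  rw [EX_const] at h1
  have h2 := hcon T0 (Finset.mem_powerset.mp hT0)
  linarith

theorem Pr_nonneg (E : Finset ι) (p : ι → ℝ) (hp : ∀ e ∈ E, 0 ≤ p e ∧ p e ≤ 1)
    (P : Finset ι → Prop) : 0 ≤ Pr E p P := by
  unfold Pr
  apply EX_nonneg E p hp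
  intro T _
  split_ifs <;> norm_num

theorem Pr_mono (E : Finset ι) (p : ι → ℝ) (hp : ∀ e ∈ E, 0 ≤ p e ∧ p e ≤ 1)
    (P P' : Finset ι → Prop) (h : ∀ T, T ⊆ E → P T → P' T) : Pr E p P ≤ Pr E p P' := by
  unfold Pr
  apply EX_mono E p hp
  intro T hT
  by_cases h1 : P T
  · have h2 := h T hT h1
    simp [h1, h2]
  · by_cases h2 : P' T
    · simp [h1, h2]
    · simp [h1, h2]

/-- Markov -/
theorem Pr_markov (E : Finset ι) (p : ι → ℝ) (hp : ∀ e ∈ E, 0 ≤ p e ∧ p e ≤ 1)
    (f : Finset ι → ℝ) (h : ∀ T, T ⊆ E → 0 ≤ f T) (a : ℝ) (ha : 0 < a) :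
    Pr E p (fun T => a ≤ f T) ≤ EX E p f / a := by
  rw [le_div_iff₀ ha, mul_comm]
  unfold Pr
  rw [← EX_mul_left]
  apply EX_mono E p hp
  intro T hT
  by_cases h1 : a ≤ f T
  · simp [h1]
  · simpa [h1] using h T hT

theorem Pr_exists {J : Type} (E : Finset ι) (p : ι → ℝ)
    (hp : ∀ e ∈ E, 0 ≤ p e ∧ p e ≤ 1) (s : Finset J) (P : J → Finset ι → Prop) :
    Pr E p (fun T => ∃ j ∈ s, P j T) ≤ ∑ j ∈ s, Pr E p (P j) := by
  unfold Pr
  rw [← EX_sum]
  apply EX_mono E p hp
  intro T _
  have hnn : ∀ j ∈ s, (0 : ℝ) ≤ @ite ℝ (P j T) (Classical.propDecidable _) 1 0 := by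
    intro j _
    split_ifs <;> norm_num
  by_cases h1 : ∃ j ∈ s, P j T
  · obtain ⟨j, hj, hPj⟩ := h1
    have h2 := Finset.single_le_sum hnn hj
    rw [if_pos hPj] at h2
    rw [if_pos ⟨j, hj, hPj⟩]
    exact h2
  · rw [if_neg h1]
    exact Finset.sum_nonneg hnn

theorem exists_avoid {J : Type} (E : Finset ι) (p : ι → ℝ)
    (hp : ∀ e ∈ E, 0 ≤ p e ∧ p e ≤ 1) (s : Finset J) (P : J → Finset ι → Prop)
    (h : ∑ j ∈ s, Pr E p (P j) < 1) : ∃ T, T ⊆ E ∧ ∀ j ∈ s, ¬ P j T := by
  by_contra hcon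
  push Not at hcon
  have h1 : Pr E p (fun T => ∃ j ∈ s, P j T) = 1 := by
    unfold Pr
    rw [EX_congr E p _ (fun _ => (1 : ℝ)), EX_const]
    intro T hT
    obtain ⟨j, hj, hPj⟩ := hcon T hT
    rw [if_pos ⟨j, hj, hPj⟩]
  have h2 := Pr_exists E p hp s P
  linarith

end H77.LT
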