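import Pool.Agent.H77.LT.EXa

/-!
# [H77 LT EXB] Random subsets: independence

* `EX_local`: if `f` depends only on `T ∩ E'` (`E' ⊆ E`) then `EX E p f = EX E' p f`. Proof:
  induction on `E \ E'`: for `e ∈ E \ E'`, `E = insert e E1`, `EX_insert` and
  `f (insert e T) = f T`.
* `Pr_cylinder`: for disjoint `A, B ⊆ E`, `P(A ⊆ T, B ∩ T = ∅) = ∏_A p * ∏_B (1-p)`. Proof: the
  event depends only on `T ∩ (A ∪ B)`, so by `EX_local` `E = A ∪ B`; then only the subset `T = A`
  contributes.
* `Pr_disjoint_family` (van den Berg - Kesten for increasing cylinders, trivial form): if `F` is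
  a finite family of subsets of `E` then the probability that there are `k` pairwise disjoint
  members of `F` inside `T` is at most `(sum_{A in F} prod_A p)^k`. Proof: union bound over the
  `k`-tuples `(A_1..A_k)` of pairwise disjoint members: `P(all ⊆ T) = P(⋃ A_i ⊆ T)
  = prod_i prod_{A_i} p` (`Pr_cylinder` with `B = ∅`, `Finset.prod_biUnion`), and the sum over all
  `k`-tuples of the product is `(sum ..)^k` (`Finset.prod_univ_sum` or `Finset.sum_pow'`).
  The members may be assumed nonempty (hypothesis), so that disjoint members are distinct.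
-/

open Finset

namespace H77.LT

variable {ι : Type} [DecidableEq ι]

private theorem EXb_local_aux (E' : Finset ι) (p : ι → ℝ) (f : Finset ι → ℝ) (D : Finset ι) :
    Disjoint E' D → (∀ T, T ⊆ E' ∪ D → f T = f (T ∩ E')) → EX (E' ∪ D) p f = EX E' p f := by
  induction D using Finset.induction_on with
  | empty =>
    intro _ _
    rw [Finset.union_empty]
  | insert e D1 he ih =>
    intro hdis hf
    have h1 : e ∉ E' := by
      intro h
      exact (Finset.disjoint_left.1 hdis h) (Finset.mem_insert_self e D1)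
    have h2 : e ∉ E' ∪ D1 := by
      rw [Finset.mem_union]
      rintro (h | h)
      · exact h1 h
      · exact he h
    have h3 : E' ∪ insert e D1 = insert e (E' ∪ D1) := by
      rw [Finset.union_insert]
    have hdis1 : Disjoint E' D1 :=
      Finset.disjoint_of_subset_right (Finset.subset_insert e D1) hdis
    have hsub : E' ∪ D1 ⊆ E' ∪ insert e D1 := by
      rw [h3]
      exact Finset.subset_insert _ _
    have hf1 : ∀ T, T ⊆ E' ∪ D1 → f T = f (T ∩ E') := fun T hT => hf T (hT.trans hsub)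
    have h4 := ih hdis1 hf1
    rw [h3, EX_insert _ _ _ _ h2]
    have h5 : EX (E' ∪ D1) p (fun T => f (insert e T)) = EX (E' ∪ D1) p f := by
      apply EX_congr
      intro T hT
      show f (insert e T) = f T
      have h6 : insert e T ⊆ E' ∪ insert e D1 := by
        rw [h3]
        exact Finset.insert_subset_insert e hT
      rw [hf _ h6, hf1 T hT, Finset.insert_inter_of_notMem h1]
    rw [h5, h4]
    ring

theorem EX_local (E E' : Finset ι) (h : E' ⊆ E) (p : ι → ℝ) (f : Finset ι → ℝ)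
    (hf : ∀ T, T ⊆ E → f T = f (T ∩ E')) : EX E p f = EX E' p f := by
  have h1 : E' ∪ (E \ E') = E := Finset.union_sdiff_of_subset h
  have h2 := EXb_local_aux E' p f (E \ E') Finset.disjoint_sdiff
    (fun T hT => hf T (by rw [h1] at hT; exact hT))
  rw [h1] at h2
  exact h2

theorem Pr_cylinder (E A B : Finset ι) (hA : A ⊆ E) (hB : B ⊆ E) (hAB : Disjoint A B)
    (p : ι → ℝ) :
    Pr E p (fun T => A ⊆ T ∧ Disjoint B T) = (∏ e ∈ A, p e) * ∏ e ∈ B, (1 - p e) := by
  classical
  unfold Pr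
  have hAB' : A ∪ B ⊆ E := Finset.union_subset hA hB
  have h1 : ∀ T : Finset ι, (A ⊆ T ∧ Disjoint B T) ↔
      (A ⊆ T ∩ (A ∪ B) ∧ Disjoint B (T ∩ (A ∪ B))) := by
    intro T
    constructor
    · rintro ⟨h2, h3⟩
      exact ⟨Finset.subset_inter h2 Finset.subset_union_left,
        Finset.disjoint_of_subset_right Finset.inter_subset_left h3⟩
    · rintro ⟨h2, h3⟩
      refine ⟨h2.trans Finset.inter_subset_left, ?_⟩
      rw [Finset.disjoint_left] at h3 ⊢
      intro x hx hxT
      exact h3 hx (Finset.mem_inter.2 ⟨hxT, Finset.mem_union_right A hx⟩)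
  rw [EX_local E (A ∪ B) hAB']
  · unfold EX
    rw [Finset.sum_eq_single A]
    · have h2 : (A ∪ B) \ A = B := by
        rw [Finset.union_sdiff_left]
        exact Finset.sdiff_eq_self_of_disjoint hAB.symm
      rw [h2]
      beta_reduce
      rw [if_pos ⟨Finset.Subset.refl A, hAB.symm⟩, mul_one]
    · intro T hT hTA
      beta_reduce
      rw [if_neg, mul_zero]
      rintro ⟨h2, h3⟩
      apply hTA
      apply Finset.Subset.antisymm _ h2
      intro x hx
      have h4 := Finset.mem_powerset.1 hT hx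
      rcases Finset.mem_union.1 h4 with h5 | h5
      · exact h5
      · exact absurd hx (Finset.disjoint_left.1 h3 h5)
    · intro h2
      exact absurd (Finset.mem_powerset.2 Finset.subset_union_left) h2
  · intro T _
    beta_reduce
    by_cases h2 : A ⊆ T ∧ Disjoint B T
    · rw [if_pos h2, if_pos ((h1 T).1 h2)]
    · rw [if_neg h2, if_neg (fun h3 => h2 ((h1 T).2 h3))]

theorem Pr_disjoint_family (E : Finset ι) (p : ι → ℝ) (hp : ∀ e ∈ E, 0 ≤ p e ∧ p e ≤ 1)
    (F : Finset (Finset ι)) (hF : ∀ A ∈ F, A ⊆ E) (hne : ∀ A ∈ F, A.Nonempty) (k : ℕ) :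
    Pr E p (fun T => ∃ G : Finset (Finset ι), G ⊆ F ∧ G.card = k ∧
      (∀ A ∈ G, A ⊆ T) ∧ (∀ A ∈ G, ∀ B ∈ G, A ≠ B → Disjoint A B))
      ≤ (∑ A ∈ F, ∏ e ∈ A, p e) ^ k := by
  classical
  set S : Finset (Fin k → Finset ι) := (Fintype.piFinset (fun _ : Fin k => F)).filter
    (fun a => ∀ i j, i ≠ j → Disjoint (a i) (a j)) with hS
  have h1 : Pr E p (fun T => ∃ G : Finset (Finset ι), G ⊆ F ∧ G.card = k ∧
      (∀ A ∈ G, A ⊆ T) ∧ (∀ A ∈ G, ∀ B ∈ G, A ≠ B → Disjoint A B)) ≤
      Pr E p (fun T => ∃ a ∈ S, ∀ i, a i ⊆ T) := by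
    apply Pr_mono E p hp
    rintro T _ ⟨G, hGF, hGk, hGT, hGd⟩
    let φ := Finset.equivFinOfCardEq hGk
    refine ⟨fun i => (φ.symm i : Finset ι), ?_, ?_⟩
    · rw [hS, Finset.mem_filter]
      refine ⟨?_, ?_⟩
      · rw [Fintype.mem_piFinset]
        intro i
        exact hGF (φ.symm i).2
      · intro i j hij
        apply hGd _ (φ.symm i).2 _ (φ.symm j).2
        intro h2
        apply hij
        exact φ.symm.injective (Subtype.ext h2)
    · intro i
      exact hGT _ (φ.symm i).2
  have h2 : Pr E p (fun T => ∃ a ∈ S, ∀ i, a i ⊆ T) ≤ ∑ a ∈ S, Pr E p (fun T => ∀ i, a i ⊆ T) :=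
    Pr_exists E p hp S (fun a T => ∀ i, a i ⊆ T)
  have hFnn : ∀ A ∈ F, 0 ≤ ∏ e ∈ A, p e := by
    intro A hA
    apply Finset.prod_nonneg
    intro e he
    exact (hp e (hF A hA he)).1
  have h3 : ∀ a ∈ S, Pr E p (fun T => ∀ i, a i ⊆ T) = ∏ i : Fin k, ∏ e ∈ a i, p e := by
    intro a ha
    rw [hS, Finset.mem_filter, Fintype.mem_piFinset] at ha
    have h4 : (Finset.univ.biUnion a) ⊆ E := by
      rw [Finset.biUnion_subset]
      intro i _
      exact hF _ (ha.1 i)
    have h5 := Pr_cylinder E (Finset.univ.biUnion a) ∅ h4 (Finset.empty_subset E)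
      (Finset.disjoint_empty_right _) p
    have h6 : (fun T => Finset.univ.biUnion a ⊆ T ∧ Disjoint ∅ T) =
        (fun T : Finset ι => ∀ i, a i ⊆ T) := by
      funext T
      apply propext
      rw [Finset.biUnion_subset]
      constructor
      · rintro ⟨h7, _⟩ i
        exact h7 i (Finset.mem_univ i)
      · intro h7
        exact ⟨fun i _ => h7 i, Finset.disjoint_empty_left T⟩
    rw [h6] at h5
    rw [h5, Finset.prod_empty, mul_one, Finset.prod_biUnion]
    intro i _ j _ hij
    exact ha.2 i j hij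
  calc Pr E p (fun T => ∃ G : Finset (Finset ι), G ⊆ F ∧ G.card = k ∧
      (∀ A ∈ G, A ⊆ T) ∧ (∀ A ∈ G, ∀ B ∈ G, A ≠ B → Disjoint A B))
      ≤ ∑ a ∈ S, Pr E p (fun T => ∀ i, a i ⊆ T) := h1.trans h2
    _ = ∑ a ∈ S, ∏ i : Fin k, ∏ e ∈ a i, p e := Finset.sum_congr rfl h3
    _ ≤ ∑ a ∈ Fintype.piFinset (fun _ : Fin k => F), ∏ i : Fin k, ∏ e ∈ a i, p e := by
        apply Finset.sum_le_sum_of_subset_of_nonneg (Finset.filter_subset _ _)
        intro a ha _
        rw [Fintype.mem_piFinset] at ha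
        apply Finset.prod_nonneg
        intro i _
        exact hFnn _ (ha i)
    _ = ∏ _i : Fin k, ∑ A ∈ F, ∏ e ∈ A, p e := by
        rw [Finset.prod_univ_sum]
    _ = (∑ A ∈ F, ∏ e ∈ A, p e) ^ k := by
        rw [Finset.prod_const, Finset.card_univ, Fintype.card_fin]

end H77.LT
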