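import Mathlib

/-!
# [H77 LT EULER] Euler colouring of an even bipartite graph; the halving lemma

`euler_colour`: a finite set `G` of pairs (edges of a bipartite graph) all of whose row degrees and
column degrees are even contains `A` with exactly half of every row and every column degree.

Proof. In each row pair up the elements of `G` arbitrarily: this gives an involution `α` of `G`
without fixed points with `(α e).1 = e.1`; in the same way an involution `β` of `G` without fixed
points with `(β e).2 = e.2`. Let `σ = α β` (permutation of `G`). `α σ α = σ⁻¹`.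
CLAIM: `α e` is never in the `σ`-orbit of `e`. If `α e = σ^(2 j) e` then `y = σ^j e` satisfies
`α y = α σ^j e = σ^(-j) α e = σ^j e = y`, impossible. If `α e = σ^(2 j + 1) e` then with
`y = σ^j e`, `β = α σ`: `β y = α σ^(j+1) e = σ^(-j-1) α e = σ^j e = y`, impossible.
So `O ↦ α O` is an involution without fixed points on the set of `σ`-orbits (it maps orbits to
orbits because `α σ α = σ⁻¹`). Choose one orbit of each pair `{O, α O}` and let `A` be the union of
the chosen orbits. Then `e ∈ A ↔ α e ∉ A`, and also `e ∈ A ↔ β e ∉ A` as `β = α σ` and `A` is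
`σ`-invariant. Hence in each row `A` contains exactly one element of each `α`-pair, and in each
column exactly one element of each `β`-pair.
(Other proofs are fine, e.g. strong induction on `G.card` removing an alternating closed trail.)

`halve`: integer matrices `x0, x1` with entries in `[-1,1]` and zero row sums, such that the column
sums of `x0` and `x1` cancel. There is an integer matrix `y`, entries in `[-1,1]`, zero row sums,
column sums equal to those of `x0`, with `x0 - y` and `x1 + y` in `[-1,1]`.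
Proof. `v = x0 - x1`. Let `G` be the set of positions with `v` odd. Row sums of `v` are zero, the
column sums are `2 * (column sum of x0)`, so all degrees of `G` are even. Take `A` from
`euler_colour`, and `y = (v+1)/2` on `A`, `(v-1)/2` on `G \ A`, `v/2` off `G`. Row sums of `y`:
`(0 + |A_r| - |G_r \ A_r|)/2 = 0`; column sums: `(2 * colsum x0)/2`. Bounds: `v ∈ {-2,..,2}`;
off `G`, `y = v/2` and `x0 - y = x1 + y = (x0+x1)/2`, in `[-1,1]`; on `G`, `v = ±1`, so
`y ∈ {-1,0,1}` and `x0 + x1 = ±1`, so `x0 - y = (x0+x1∓1)/2`, `x1 + y = (x0+x1±1)/2` are in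
`[-1,1]`.
-/

open Finset

namespace H77.LT

theorem euler_colour_pair {F : Type} [Fintype F] (h : Even (Fintype.card F)) :
    ∃ τ : F → F, (∀ x, τ (τ x) = x) ∧ ∀ x, τ x ≠ x := by
  obtain ⟨k, hk⟩ := h
  let e : F ≃ Fin k ⊕ Fin k := (Fintype.equivFinOfCardEq hk).trans finSumFinEquiv.symm
  refine ⟨fun x => e.symm (e x).swap, ?_, ?_⟩
  · intro x
    simp only [Equiv.apply_symm_apply, Sum.swap_swap, Equiv.symm_apply_apply]
  · intro x hx
    have h1 : (e x).swap = e x := by
      have := congrArg e hx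
      simpa only [Equiv.apply_symm_apply] using this
    rcases h2 : e x with a | a
    · rw [h2] at h1
      simp at h1
    · rw [h2] at h1
      simp at h1

theorem euler_colour_invol {E R : Type} [Fintype E] [DecidableEq R] (p : E → R)
    (h : ∀ r, Even (univ.filter (fun e => p e = r)).card) :
    ∃ α : E → E, (∀ e, α (α e) = e) ∧ (∀ e, α e ≠ e) ∧ ∀ e, p (α e) = p e := by
  classical
  have h1 : ∀ r, ∃ τ : {e // p e = r} → {e // p e = r}, (∀ x, τ (τ x) = x) ∧ ∀ x, τ x ≠ x := by
    intro r
    apply euler_colour_pair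
    have := h r
    rwa [← Fintype.card_subtype] at this
  choose τ hτ1 hτ2 using h1
  have key : ∀ (x : E) (r : R) (hx : p x = r), (τ (p x) ⟨x, rfl⟩).1 = (τ r ⟨x, hx⟩).1 := by
    intro x r hx
    subst hx
    rfl
  refine ⟨fun e => (τ (p e) ⟨e, rfl⟩).1, ?_, ?_, ?_⟩
  · intro e
    have h2 : p (τ (p e) ⟨e, rfl⟩).1 = p e := (τ (p e) ⟨e, rfl⟩).2
    show (τ (p (τ (p e) ⟨e, rfl⟩).1) ⟨(τ (p e) ⟨e, rfl⟩).1, rfl⟩).1 = e
    rw [key _ _ h2]
    have h3 : (⟨(τ (p e) ⟨e, rfl⟩).1, h2⟩ : {e' // p e' = p e}) = τ (p e) ⟨e, rfl⟩ :=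
      Subtype.ext rfl
    rw [h3, hτ1]
  · intro e h2
    exact hτ2 (p e) ⟨e, rfl⟩ (Subtype.ext h2)
  · intro e
    exact (τ (p e) ⟨e, rfl⟩).2

theorem euler_colour_two {E : Type} [Fintype E] (α β : E → E)
    (hα : ∀ e, α (α e) = e) (hα' : ∀ e, α e ≠ e) (hβ : ∀ e, β (β e) = e) (hβ' : ∀ e, β e ≠ e) :
    ∃ P : E → Prop, (∀ e, P (α e) ↔ ¬ P e) ∧ ∀ e, P (β e) ↔ ¬ P e := by
  classical
  let a : Equiv.Perm E := ⟨α, α, hα, hα⟩
  let b : Equiv.Perm E := ⟨β, β, hβ, hβ⟩
  have ha : ∀ e, a e = α e := fun e => rfl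
  have hb : ∀ e, b e = β e := fun e => rfl
  have haa : a * a = 1 := by
    ext e
    exact hα e
  have hbb : b * b = 1 := by
    ext e
    exact hβ e
  let σ : Equiv.Perm E := a * b
  have hai : a⁻¹ = a := inv_eq_of_mul_eq_one_left haa
  have hbi : b⁻¹ = b := inv_eq_of_mul_eq_one_left hbb
  have hσi : σ⁻¹ = b * a := by
    show (a * b)⁻¹ = b * a
    rw [mul_inv_rev, hai, hbi]
  have hcomm : a * σ = σ⁻¹ * a := by
    rw [hσi]
    show a * (a * b) = b * a * a
    rw [← mul_assoc, haa, one_mul, mul_assoc, haa, mul_one]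
  have hcommz : ∀ i : ℤ, a * σ ^ i = σ ^ (-i) * a := by
    intro i
    have h1 : a * σ * a⁻¹ = σ⁻¹ := by
      rw [hcomm, mul_assoc, mul_inv_cancel, mul_one]
    have h2 : a * σ ^ i * a⁻¹ = (σ⁻¹) ^ i := by
      rw [← h1, conj_zpow]
    rw [zpow_neg, ← inv_zpow, ← h2, mul_assoc, inv_mul_cancel, mul_one]
  have hnot : ∀ e, ¬ σ.SameCycle e (a e) := by
    rintro e ⟨i, hi⟩
    rcases Int.even_or_odd i with ⟨j, hj⟩ | ⟨j, hj⟩
    · have h1 : a ((σ ^ j) e) = (σ ^ j) e := by
        have h2 : (a * σ ^ j) e = (σ ^ (-j) * a) e := by rw [hcommz]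
        rw [Equiv.Perm.mul_apply, Equiv.Perm.mul_apply] at h2
        rw [h2, ← hi, ← Equiv.Perm.mul_apply, ← zpow_add]
        congr 2
        omega
      exact hα' _ h1
    · have h1 : b ((σ ^ j) e) = (σ ^ j) e := by
        have h3 : b = a * σ := by
          show b = a * (a * b)
          rw [← mul_assoc, haa, one_mul]
        have h2 : (a * σ ^ (j + 1)) e = (σ ^ (-(j + 1)) * a) e := by rw [hcommz]
        rw [Equiv.Perm.mul_apply, Equiv.Perm.mul_apply] at h2
        have h4 : b ((σ ^ j) e) = a ((σ ^ (j + 1)) e) := by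
          have h5 : (σ ^ (j + 1)) e = σ ((σ ^ j) e) := by
            rw [add_comm j 1, zpow_add, zpow_one, Equiv.Perm.mul_apply]
          rw [h5]
          exact congrArg (fun f : Equiv.Perm E => f ((σ ^ j) e)) h3
        rw [h4, h2, ← hi, ← Equiv.Perm.mul_apply, ← zpow_add]
        congr 2
        omega
      exact hβ' _ h1
  let S : Setoid E := Equiv.Perm.SameCycle.setoid σ
  let rep : E → E := fun e => Quotient.out (Quotient.mk S e)
  have hrep : ∀ e, σ.SameCycle (rep e) e := fun e => Quotient.mk_out (s := S) e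
  have hrep2 : ∀ x y, σ.SameCycle x y → rep x = rep y := by
    intro x y hxy
    show Quotient.out (Quotient.mk S x) = Quotient.out (Quotient.mk S y)
    rw [Quotient.sound (s := S) hxy]
  let g : E → ℕ := fun e => (Fintype.equivFin E e : ℕ)
  have hg : Function.Injective g := fun x y hxy =>
    (Fintype.equivFin E).injective (Fin.ext hxy)
  let P : E → Prop := fun e => g (rep e) < g (rep (a e))
  have hP1 : ∀ e, P (a e) ↔ ¬ P e := by
    intro e
    have h1 : a (a e) = e := hα e
    have h2 : rep e ≠ rep (a e) := by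
      intro h3
      apply hnot e
      exact (hrep e).symm.trans (h3 ▸ hrep (a e))
    have h3 : g (rep e) ≠ g (rep (a e)) := fun h => h2 (hg h)
    show g (rep (a e)) < g (rep (a (a e))) ↔ ¬ g (rep e) < g (rep (a e))
    rw [h1]
    omega
  have hP2 : ∀ e, P (σ e) ↔ P e := by
    intro e
    have h1 : rep (σ e) = rep e := hrep2 _ _ ⟨-1, by simp⟩
    have h2 : rep (a (σ e)) = rep (a e) := by
      apply hrep2
      refine ⟨1, ?_⟩
      rw [zpow_one]
      have h3 : a (σ e) = σ⁻¹ (a e) := congrArg (fun f : Equiv.Perm E => f e) hcomm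
      rw [h3]
      show (σ * σ⁻¹) (a e) = a e
      rw [mul_inv_cancel, Equiv.Perm.one_apply]
    show g (rep (σ e)) < g (rep (a (σ e))) ↔ g (rep e) < g (rep (a e))
    rw [h1, h2]
  refine ⟨P, hP1, ?_⟩
  intro e
  have h3 : β e = a (σ e) := by
    show β e = a (a (b e))
    exact (hα (β e)).symm
  rw [h3, hP1, hP2]

theorem euler_colour_count {E R : Type} [Fintype E] [DecidableEq R] (p : E → R) (α : E → E)
    (hα : ∀ e, α (α e) = e) (hp : ∀ e, p (α e) = p e) (P : E → Prop) [DecidablePred P]
    (hP : ∀ e, P (α e) ↔ ¬ P e) (r : R) :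
    2 * (univ.filter (fun e => P e ∧ p e = r)).card = (univ.filter (fun e => p e = r)).card := by
  classical
  have h1 : (univ.filter (fun e => p e = r)).card =
      (univ.filter (fun e => P e ∧ p e = r)).card + (univ.filter (fun e => ¬ P e ∧ p e = r)).card := by
    rw [← Finset.card_filter_add_card_filter_not (s := univ.filter (fun e => p e = r)) P]
    congr 2
    · ext e
      simp only [mem_filter, mem_univ, true_and]
      tauto
    · ext e
      simp only [mem_filter, mem_univ, true_and]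
      tauto
  have h2 : (univ.filter (fun e => P e ∧ p e = r)).card =
      (univ.filter (fun e => ¬ P e ∧ p e = r)).card := by
    apply Finset.card_bij (fun e _ => α e)
    · intro e he
      simp only [mem_filter, mem_univ, true_and] at he ⊢
      rw [hp, hP]
      exact ⟨fun h => h he.1, he.2⟩
    · intro x _ y _ hxy
      rw [← hα x, hxy, hα]
    · intro e he
      simp only [mem_filter, mem_univ, true_and] at he
      refine ⟨α e, ?_, hα e⟩
      simp only [mem_filter, mem_univ, true_and]
      rw [hp, hP]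
      exact he
  omega

theorem euler_colour_sub {X : Type} [DecidableEq X] (G : Finset X) (q : X → Prop)
    [DecidablePred q] :
    (univ.filter (fun e : G => q e.1)).card = (G.filter q).card := by
  rw [← Finset.card_map (Function.Embedding.subtype (fun e => e ∈ G))]
  congr 1
  ext x
  simp only [mem_map, mem_filter, mem_univ, true_and, Function.Embedding.coe_subtype,
    Subtype.exists, exists_and_left, exists_prop, exists_eq_right_right]
  tauto

theorem euler_colour {R C : Type} [DecidableEq R] [DecidableEq C] (G : Finset (R × C))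
    (hr : ∀ r, Even (G.filter (fun e => e.1 = r)).card)
    (hc : ∀ c, Even (G.filter (fun e => e.2 = c)).card) :
    ∃ A, A ⊆ G ∧
      (∀ r, 2 * (A.filter (fun e => e.1 = r)).card = (G.filter (fun e => e.1 = r)).card) ∧
      (∀ c, 2 * (A.filter (fun e => e.2 = c)).card = (G.filter (fun e => e.2 = c)).card) := by
  classical
  obtain ⟨α, hα1, hα2, hα3⟩ := euler_colour_invol (fun e : G => e.1.1) (fun r => by
    rw [euler_colour_sub G (fun e => e.1 = r)]
    exact hr r)
  obtain ⟨β, hβ1, hβ2, hβ3⟩ := euler_colour_invol (fun e : G => e.1.2) (fun c => by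
    rw [euler_colour_sub G (fun e => e.2 = c)]
    exact hc c)
  obtain ⟨P, hP1, hP2⟩ := euler_colour_two α β hα1 hα2 hβ1 hβ2
  let A : Finset (R × C) := G.filter (fun e => ∃ h : e ∈ G, P ⟨e, h⟩)
  have hA : ∀ (q : R × C → Prop) [DecidablePred q],
      (A.filter q).card = (univ.filter (fun e : G => P e ∧ q e.1)).card := by
    intro q _
    rw [← Finset.card_map (Function.Embedding.subtype (fun e => e ∈ G))]
    congr 1
    ext x
    constructor
    · intro hx
      obtain ⟨h1, h4⟩ := mem_filter.mp hx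
      obtain ⟨h2, h2', h3⟩ := mem_filter.mp h1
      exact mem_map.mpr ⟨⟨x, h2⟩, mem_filter.mpr ⟨mem_univ _, h3, h4⟩, rfl⟩
    · intro hx
      obtain ⟨y, h2, rfl⟩ := mem_map.mp hx
      obtain ⟨_, h3, h4⟩ := mem_filter.mp h2
      exact mem_filter.mpr ⟨mem_filter.mpr ⟨y.2, y.2, h3⟩, h4⟩
  refine ⟨A, Finset.filter_subset _ _, ?_, ?_⟩
  · intro r
    rw [hA (fun e => e.1 = r), ← euler_colour_sub G (fun e => e.1 = r)]
    exact euler_colour_count (fun e : G => e.1.1) α hα1 hα3 P hP1 r
  · intro c
    rw [hA (fun e => e.2 = c), ← euler_colour_sub G (fun e => e.2 = c)]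
    exact euler_colour_count (fun e : G => e.1.2) β hβ1 hβ3 P hP2 c

theorem halve_sum {R C : Type} [Fintype C] [DecidableEq R] [DecidableEq C]
    (f : C → ℤ) :
    ∑ c, f c = 2 * ∑ c, f c / 2 + ((univ.filter (fun c => f c % 2 = 1)).card : ℤ) := by
  rw [Finset.card_filter, Nat.cast_sum, Finset.mul_sum, ← Finset.sum_add_distrib]
  apply Finset.sum_congr rfl
  intro c _
  split_ifs with h
  · push_cast
    omega
  · push_cast
    omega

theorem halve {R C : Type} [Fintype R] [Fintype C] [DecidableEq R] [DecidableEq C]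
    (x0 x1 : R → C → ℤ) (h0 : ∀ r c, |x0 r c| ≤ 1) (h1 : ∀ r c, |x1 r c| ≤ 1)
    (hr0 : ∀ r, ∑ c, x0 r c = 0) (hr1 : ∀ r, ∑ c, x1 r c = 0)
    (hc : ∀ c, ∑ r, x0 r c + ∑ r, x1 r c = 0) :
    ∃ y : R → C → ℤ, (∀ r c, |y r c| ≤ 1) ∧ (∀ r c, |x0 r c - y r c| ≤ 1) ∧
      (∀ r c, |x1 r c + y r c| ≤ 1) ∧ (∀ r, ∑ c, y r c = 0) ∧
      (∀ c, ∑ r, (x0 r c - y r c) = 0) ∧ (∀ c, ∑ r, (x1 r c + y r c) = 0) := by
  classical
  let v : R → C → ℤ := fun r c => x0 r c - x1 r c
  let G : Finset (R × C) := univ.filter (fun e => v e.1 e.2 % 2 = 1)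
  have hGr : ∀ r, (G.filter (fun e => e.1 = r)).card =
      (univ.filter (fun c => v r c % 2 = 1)).card := by
    intro r
    symm
    apply Finset.card_bij (fun c _ => (r, c))
    · intro c hc'
      simp only [G, mem_filter, mem_univ, true_and, and_true] at hc' ⊢
      exact hc'
    · intro a _ b _ hab
      exact (Prod.mk.inj hab).2
    · rintro ⟨a, b⟩ hab
      simp only [G, mem_filter, mem_univ, true_and] at hab
      obtain ⟨h2, h3⟩ := hab
      subst h3
      exact ⟨b, by simpa using h2, rfl⟩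
  have hGc : ∀ c, (G.filter (fun e => e.2 = c)).card =
      (univ.filter (fun r => v r c % 2 = 1)).card := by
    intro c
    symm
    apply Finset.card_bij (fun r _ => (r, c))
    · intro r hr'
      simp only [G, mem_filter, mem_univ, true_and, and_true] at hr' ⊢
      exact hr'
    · intro a _ b _ hab
      exact (Prod.mk.inj hab).1
    · rintro ⟨a, b⟩ hab
      simp only [G, mem_filter, mem_univ, true_and] at hab
      obtain ⟨h2, h3⟩ := hab
      subst h3
      exact ⟨a, by simpa using h2, rfl⟩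
  have hvr : ∀ r, ∑ c, v r c = 0 := by
    intro r
    show ∑ c, (x0 r c - x1 r c) = 0
    rw [Finset.sum_sub_distrib, hr0, hr1, sub_zero]
  have hvc : ∀ c, ∑ r, v r c = 2 * ∑ r, x0 r c := by
    intro c
    show ∑ r, (x0 r c - x1 r c) = _
    rw [Finset.sum_sub_distrib]
    have := hc c
    omega
  have hsr : ∀ r, ∑ c, v r c = 2 * ∑ c, v r c / 2 + ((G.filter (fun e => e.1 = r)).card : ℤ) := by
    intro r
    rw [hGr]
    exact halve_sum (R := R) (v r)
  have hsc : ∀ c, ∑ r, v r c = 2 * ∑ r, v r c / 2 + ((G.filter (fun e => e.2 = c)).card : ℤ) := by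
    intro c
    rw [hGc]
    exact halve_sum (R := R) (fun r => v r c)
  obtain ⟨A, hAG, hA1, hA2⟩ := euler_colour G
    (fun r => by
      have h2 := hsr r
      rw [hvr] at h2
      rw [Nat.even_iff]
      omega)
    (fun c => by
      have h2 := hsc c
      rw [hvc] at h2
      rw [Nat.even_iff]
      omega)
  let y : R → C → ℤ := fun r c => v r c / 2 + if (r, c) ∈ A then 1 else 0
  have hAr : ∀ r, ∑ c, (if (r, c) ∈ A then (1 : ℤ) else 0) =
      ((A.filter (fun e => e.1 = r)).card : ℤ) := by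
    intro r
    rw [← Finset.sum_filter, Finset.sum_const, nsmul_eq_mul, mul_one]
    congr 1
    apply Finset.card_bij (fun c _ => (r, c))
    · intro c hc'
      simp only [mem_filter, mem_univ, true_and, and_true] at hc' ⊢
      exact hc'
    · intro a _ b _ hab
      exact (Prod.mk.inj hab).2
    · rintro ⟨a, b⟩ hab
      simp only [mem_filter] at hab
      obtain ⟨h2, h3⟩ := hab
      subst h3
      exact ⟨b, by simpa using h2, rfl⟩
  have hAc : ∀ c, ∑ r, (if (r, c) ∈ A then (1 : ℤ) else 0) =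
      ((A.filter (fun e => e.2 = c)).card : ℤ) := by
    intro c
    rw [← Finset.sum_filter, Finset.sum_const, nsmul_eq_mul, mul_one]
    congr 1
    apply Finset.card_bij (fun r _ => (r, c))
    · intro c hc'
      simp only [mem_filter, mem_univ, true_and, and_true] at hc' ⊢
      exact hc'
    · intro a _ b _ hab
      exact (Prod.mk.inj hab).1
    · rintro ⟨a, b⟩ hab
      simp only [mem_filter] at hab
      obtain ⟨h2, h3⟩ := hab
      subst h3
      exact ⟨a, by simpa using h2, rfl⟩
  have hyr : ∀ r, ∑ c, y r c = 0 := by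
    intro r
    show ∑ c, (v r c / 2 + if (r, c) ∈ A then 1 else 0) = 0
    rw [Finset.sum_add_distrib, hAr]
    have h2 := hsr r
    rw [hvr] at h2
    have h3 := hA1 r
    omega
  have hyc : ∀ c, ∑ r, y r c = ∑ r, x0 r c := by
    intro c
    show ∑ r, (v r c / 2 + if (r, c) ∈ A then 1 else 0) = _
    rw [Finset.sum_add_distrib, hAc]
    have h2 := hsc c
    rw [hvc] at h2
    have h3 := hA2 c
    omega
  have hAv : ∀ r c, (r, c) ∈ A → v r c % 2 = 1 := by
    intro r c h
    have h2 := hAG h
    simp only [G, mem_filter, mem_univ, true_and] at h2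
    exact h2
  have hcase : ∀ r c, ∃ a : ℤ, y r c = (x0 r c - x1 r c) / 2 + a ∧
      (a = 0 ∨ (a = 1 ∧ (x0 r c - x1 r c) % 2 = 1)) ∧ -1 ≤ x0 r c ∧ x0 r c ≤ 1 ∧
      -1 ≤ x1 r c ∧ x1 r c ≤ 1 := by
    intro r c
    refine ⟨if (r, c) ∈ A then 1 else 0, rfl, ?_, (abs_le.mp (h0 r c)).1, (abs_le.mp (h0 r c)).2,
      (abs_le.mp (h1 r c)).1, (abs_le.mp (h1 r c)).2⟩
    split_ifs with h
    · exact Or.inr ⟨rfl, hAv r c h⟩
    · exact Or.inl rfl
  refine ⟨y, ?_, ?_, ?_, hyr, ?_, ?_⟩
  · intro r c
    obtain ⟨a, h2, h3, h4, h5, h6, h7⟩ := hcase r c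
    rw [abs_le]
    omega
  · intro r c
    obtain ⟨a, h2, h3, h4, h5, h6, h7⟩ := hcase r c
    rw [abs_le]
    omega
  · intro r c
    obtain ⟨a, h2, h3, h4, h5, h6, h7⟩ := hcase r c
    rw [abs_le]
    omega
  · intro c
    rw [Finset.sum_sub_distrib, hyc, sub_self]
  · intro c
    rw [Finset.sum_add_distrib, hyc]
    have := hc c
    omega

end H77.LT
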