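import Mathlib

/-!
# [H77 LT QUOTA] Proper list colourings with prescribed class sizes

`conf` is a symmetric conflict relation on the finite set `C` (cells) with at most `d` conflicts for
each cell, every cell is allowed to use all but at most `f` colours, every colour is not allowed for
at most `g` cells, the prescribed class sizes `k s ≤ K` sum up to `|C|`, and
`d + f < |S|`, `K (2 d + f + 3) + g < |C|` (or `C` is empty). Then there is a proper colouring
`φ` using allowed colours only, with exactly `k s` cells of each colour `s`.

Proof. (1) A proper allowed colouring exists: greedily (induction over the cells, each cell has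
at most `d + f < |S|` colours excluded).
(2) Among all proper allowed colourings take one with minimal
`Φ = ∑ s, |class s| - k s|` (integers). Suppose `Φ > 0`. Since both sums are `|C|`, there are
`s1` with `|class s1| > k s1` and `s2` with `|class s2| < k s2 ≤ K`. Call a cell good if it is not in
class `s2`, `s2` is allowed for it and it has no conflict with a cell of class `s2`. At most
`|class s2| (d + 1) + g < K (d + 1) + g` cells are not good. If a good cell lies in a class `s` with
`|class s| > k s` then recolouring it with `s2` reduces `Φ` by `2`, a contradiction. So all good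
cells are in classes of size at most `k s ≤ K`; hence the set `S'` of colours (other than `s2`,
and with class size at most `K`) whose class contains a good cell satisfies
`K |S'| ≥ |C| - K (d+1) - g > K (d + f + 2)`, so `|S'| > d + f + 2`. Take any cell `q` in class
`s1`. At most `d + f` colours are excluded for `q` (conflict with a cell of that colour, or not
allowed). So there is `s3 ∈ S'`, `s3 ≠ s1`, `s3 ≠ s2`, which is not excluded for `q`; let `q3` be a
good cell of colour `s3`. Recolour `q` with `s3` and `q3` with `s2`. The new colouring is proper: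
`q` has no conflict with class `s3`, `q3` has no conflict with class `s2`, and the two new colours
differ. `Φ` is reduced by `2`: a contradiction. (`q3 ≠ q` because their colours differ.)
-/

open Finset

namespace H77.LT

theorem quota_upd_le {C S : Type} [Fintype C] [DecidableEq C] [DecidableEq S]
    (φ : C → S) (q : C) (s' s : S) (h : s ≠ φ q) :
    (univ.filter (fun x => φ x = s)).card ≤
      (univ.filter (fun x => Function.update φ q s' x = s)).card := by
  apply Finset.card_le_card
  intro x hx
  simp only [mem_filter, mem_univ, true_and] at hx ⊢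
  have h1 : x ≠ q := by
    rintro rfl
    exact h hx.symm
  rw [Function.update_of_ne h1]
  exact hx

theorem quota_upd_le_succ {C S : Type} [Fintype C] [DecidableEq C] [DecidableEq S]
    (φ : C → S) (q : C) (s' s : S) :
    (univ.filter (fun x => φ x = s)).card ≤
      (univ.filter (fun x => Function.update φ q s' x = s)).card + 1 := by
  have h1 : (univ.filter (fun x => φ x = s)) ⊆
      insert q (univ.filter (fun x => Function.update φ q s' x = s)) := by
    intro x hx
    by_cases h : x = q
    · rw [h]
      exact mem_insert_self _ _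
    · apply mem_insert_of_mem
      simp only [mem_filter, mem_univ, true_and] at hx ⊢
      rw [Function.update_of_ne h]
      exact hx
  exact (Finset.card_le_card h1).trans (Finset.card_insert_le _ _)

theorem quota_upd_add {C S : Type} [Fintype C] [DecidableEq C] [DecidableEq S]
    (φ : C → S) (q : C) (s' : S) (h : φ q ≠ s') :
    (univ.filter (fun x => φ x = s')).card + 1 ≤
      (univ.filter (fun x => Function.update φ q s' x = s')).card := by
  have h1 : insert q (univ.filter (fun x => φ x = s')) ⊆
      (univ.filter (fun x => Function.update φ q s' x = s')) := by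
    intro x hx
    rw [mem_filter]
    refine ⟨mem_univ _, ?_⟩
    rcases mem_insert.mp hx with h2 | h2
    · rw [h2, Function.update_self]
    · rw [mem_filter] at h2
      by_cases h3 : x = q
      · rw [h3, Function.update_self]
      · rw [Function.update_of_ne h3]
        exact h2.2
  have h2 : q ∉ (univ.filter (fun x => φ x = s')) := by
    simp only [mem_filter, mem_univ, true_and]
    exact h
  rw [← Finset.card_insert_of_notMem h2]
  exact Finset.card_le_card h1

theorem quota_excl {C S : Type} [Fintype C] [DecidableEq C] [Fintype S] [DecidableEq S]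
    (conf : C → C → Prop) [DecidableRel conf]
    (al : C → S → Prop) [∀ q, DecidablePred (al q)] (d f : ℕ)
    (hconf : ∀ q, (univ.filter (fun q' => conf q q')).card ≤ d)
    (hforb : ∀ q, (univ.filter (fun s => ¬ al q s)).card ≤ f) (φ : C → S) (q : C)
    (B : Finset S) (hB : d + f < B.card) :
    ∃ s ∈ B, al q s ∧ ∀ q', conf q q' → φ q' ≠ s := by
  have h1 : ((univ.filter (fun q' => conf q q')).image φ ∪
      (univ.filter (fun s => ¬ al q s))).card ≤ d + f :=
    (Finset.card_union_le _ _).trans
      (Nat.add_le_add (Finset.card_image_le.trans (hconf q)) (hforb q))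
  obtain ⟨s, hs1, hs2⟩ := Finset.exists_mem_notMem_of_card_lt_card (lt_of_le_of_lt h1 hB)
  refine ⟨s, hs1, ?_, ?_⟩
  · by_contra h2
    apply hs2
    apply mem_union_right
    rw [mem_filter]
    exact ⟨mem_univ _, h2⟩
  · intro q' h2 h3
    apply hs2
    apply mem_union_left
    rw [mem_image]
    exact ⟨q', mem_filter.mpr ⟨mem_univ _, h2⟩, h3⟩

theorem quota_greedy {C S : Type} [Fintype C] [DecidableEq C] [Fintype S] [DecidableEq S]
    (conf : C → C → Prop) [DecidableRel conf] (hsymm : ∀ a b, conf a b → conf b a)
    (hirr : ∀ a, ¬ conf a a)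
    (al : C → S → Prop) [∀ q, DecidablePred (al q)] (d f : ℕ)
    (hconf : ∀ q, (univ.filter (fun q' => conf q q')).card ≤ d)
    (hforb : ∀ q, (univ.filter (fun s => ¬ al q s)).card ≤ f)
    (h1 : d + f < Fintype.card S) (T : Finset C) :
    ∃ φ : C → S, (∀ q ∈ T, al q (φ q)) ∧ ∀ q ∈ T, ∀ q' ∈ T, conf q q' → φ q ≠ φ q' := by
  induction T using Finset.induction_on with
  | empty =>
    have : Nonempty S := by
      rw [← Fintype.card_pos_iff]
      omega
    exact ⟨fun _ => Classical.arbitrary S, fun q hq => absurd hq (Finset.notMem_empty q),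
      fun q hq => absurd hq (Finset.notMem_empty q)⟩
  | insert a T ha ih =>
    obtain ⟨φ, hφ1, hφ2⟩ := ih
    obtain ⟨s, _, hs1, hs2⟩ := quota_excl conf al d f hconf hforb φ a univ
      (by rw [Finset.card_univ]; exact h1)
    refine ⟨Function.update φ a s, ?_, ?_⟩
    · intro q hq
      by_cases h : q = a
      · rw [h, Function.update_self]
        exact hs1
      · rw [Function.update_of_ne h]
        exact hφ1 q ((mem_insert.mp hq).resolve_left h)
    · intro q hq q' hq' hc
      by_cases h : q = a
      · have h' : q' ≠ a := by
          rintro rfl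
          rw [h] at hc
          exact hirr _ hc
        rw [h] at hc
        rw [h, Function.update_self, Function.update_of_ne h']
        exact (hs2 q' hc).symm
      · by_cases h' : q' = a
        · rw [h'] at hc
          rw [h', Function.update_self, Function.update_of_ne h]
          exact hs2 q (hsymm _ _ hc)
        · rw [Function.update_of_ne h, Function.update_of_ne h']
          exact hφ2 q ((mem_insert.mp hq).resolve_left h) q' ((mem_insert.mp hq').resolve_left h') hc

/-- recolouring one cell keeps a colouring proper -/
theorem quota_proper_upd {C S : Type} [DecidableEq C]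
    (conf : C → C → Prop) (hsymm : ∀ a b, conf a b → conf b a)
    (hirr : ∀ a, ¬ conf a a) (φ : C → S) (hφ : ∀ q q', conf q q' → φ q ≠ φ q')
    (a : C) (s : S) (hs : ∀ q', conf a q' → φ q' ≠ s) :
    ∀ q q', conf q q' → Function.update φ a s q ≠ Function.update φ a s q' := by
  intro q q' hc
  by_cases h : q = a
  · have h' : q' ≠ a := by
      rintro rfl
      rw [h] at hc
      exact hirr _ hc
    rw [h] at hc
    rw [h, Function.update_self, Function.update_of_ne h']
    exact (hs q' hc).symm
  · by_cases h' : q' = a
    · rw [h'] at hc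
      rw [h', Function.update_self, Function.update_of_ne h]
      exact hs q (hsymm _ _ hc)
    · rw [Function.update_of_ne h, Function.update_of_ne h']
      exact hφ q q' hc

theorem quota_step {C S : Type} [Fintype C] [DecidableEq C] [Fintype S] [DecidableEq S]
    (conf : C → C → Prop) [DecidableRel conf] (hsymm : ∀ a b, conf a b → conf b a)
    (hirr : ∀ a, ¬ conf a a)
    (al : C → S → Prop) [∀ q, DecidablePred (al q)]
    (k : S → ℕ) (hsum : ∑ s, k s = Fintype.card C) (d f g K : ℕ)
    (hconf : ∀ q, (univ.filter (fun q' => conf q q')).card ≤ d)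
    (hforb : ∀ q, (univ.filter (fun s => ¬ al q s)).card ≤ f)
    (hforb2 : ∀ s, (univ.filter (fun q => ¬ al q s)).card ≤ g)
    (hk : ∀ s, k s ≤ K)
    (h2 : K * (2 * d + f + 3) + g < Fintype.card C ∨ Fintype.card C = 0)
    (φ : C → S) (hφ1 : ∀ q, al q (φ q)) (hφ2 : ∀ q q', conf q q' → φ q ≠ φ q')
    (hΦ : ∑ s, (k s - (univ.filter (fun q => φ q = s)).card) ≠ 0) :
    ∃ φ' : C → S, (∀ q, al q (φ' q)) ∧ (∀ q q', conf q q' → φ' q ≠ φ' q') ∧
      ∑ s, (k s - (univ.filter (fun q => φ' q = s)).card) <
        ∑ s, (k s - (univ.filter (fun q => φ q = s)).card) := by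
  classical
  set cl : S → Finset C := fun s => univ.filter (fun q => φ q = s) with hcl
  have hclsum : ∑ s, (cl s).card = Fintype.card C := by
    rw [← Finset.card_univ (α := C)]
    exact (Finset.card_eq_sum_card_fiberwise (fun x _ => mem_univ (φ x))).symm
  -- an undersized class
  obtain ⟨s2, hs2⟩ : ∃ s, (cl s).card < k s := by
    by_contra hcon
    push Not at hcon
    apply hΦ
    apply Finset.sum_eq_zero
    intro s _
    exact Nat.sub_eq_zero_of_le (hcon s)
  -- an oversized class
  obtain ⟨s1, hs1⟩ : ∃ s, k s < (cl s).card := by
    by_contra hcon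
    push Not at hcon
    have h3 : ∑ s, (cl s).card < ∑ s, k s :=
      Finset.sum_lt_sum (fun s _ => hcon s) ⟨s2, mem_univ _, hs2⟩
    omega
  obtain ⟨q, hq⟩ : (cl s1).Nonempty := by
    rw [← Finset.card_pos]
    omega
  have hq1 : φ q = s1 := (mem_filter.mp hq).2
  have hcard : K * (2 * d + f + 3) + g < Fintype.card C := by
    rcases h2 with h2 | h2
    · exact h2
    · exact absurd (Fintype.card_eq_zero_iff.mp h2) (fun h => h.elim q)
  -- good cells
  set Gd : Finset C := univ.filter (fun x => φ x ≠ s2 ∧ al x s2 ∧ ∀ q', φ q' = s2 → ¬ conf x q')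
    with hGd
  have hbad : (univ \ Gd).card ≤ K * (d + 1) + g := by
    have h3 : univ \ Gd ⊆ (cl s2 ∪ (cl s2).biUnion (fun q' => univ.filter (fun x => conf q' x))) ∪
        univ.filter (fun x => ¬ al x s2) := by
      intro x hx
      rw [mem_sdiff] at hx
      by_contra hcon
      apply hx.2
      rw [hGd, mem_filter]
      refine ⟨mem_univ _, ?_, ?_, ?_⟩
      · intro h4
        exact hcon (mem_union_left _ (mem_union_left _ (mem_filter.mpr ⟨mem_univ _, h4⟩)))
      · by_contra h4
        exact hcon (mem_union_right _ (mem_filter.mpr ⟨mem_univ _, h4⟩))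
      · intro q' h4 h5
        apply hcon
        apply mem_union_left
        apply mem_union_right
        rw [mem_biUnion]
        exact ⟨q', mem_filter.mpr ⟨mem_univ _, h4⟩, mem_filter.mpr ⟨mem_univ _, hsymm _ _ h5⟩⟩
    have h4 : ((cl s2).biUnion (fun q' => univ.filter (fun x => conf q' x))).card ≤
        (cl s2).card * d :=
      Finset.card_biUnion_le_card_mul _ _ _ (fun q' _ => hconf q')
    have h5 : (cl s2).card ≤ K := (le_of_lt hs2).trans (hk s2)
    calc (univ \ Gd).card ≤ _ := Finset.card_le_card h3
      _ ≤ ((cl s2).card + (cl s2).card * d) + g :=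
        (Finset.card_union_le _ _).trans (Nat.add_le_add
          ((Finset.card_union_le _ _).trans (Nat.add_le_add_left h4 _)) (hforb2 s2))
      _ ≤ K * (d + 1) + g := by
        have : (cl s2).card * (d + 1) ≤ K * (d + 1) := Nat.mul_le_mul_right _ h5
        nlinarith
  have hGdcard : K * (d + f + 2) < Gd.card := by
    have h3 : (univ \ Gd).card + Gd.card = Fintype.card C := by
      rw [Finset.card_sdiff_add_card_eq_card (Finset.subset_univ _), Finset.card_univ]
    have h4 : K * (2 * d + f + 3) = K * (d + 1) + K * (d + f + 2) := by ring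
    omega
  by_cases hA : ∃ x ∈ Gd, k (φ x) < (cl (φ x)).card
  · -- recolour `x` with `s2`
    obtain ⟨x, hx, hxk⟩ := hA
    obtain ⟨_, hx1, hx2, hx3⟩ := mem_filter.mp hx
    refine ⟨Function.update φ x s2, ?_, ?_, ?_⟩
    · intro y
      by_cases h : y = x
      · rw [h, Function.update_self]
        exact hx2
      · rw [Function.update_of_ne h]
        exact hφ1 y
    · exact quota_proper_upd conf hsymm hirr φ hφ2 x s2 (fun q' hc h4 => hx3 q' h4 hc)
    · apply Finset.sum_lt_sum
      · intro s _
        by_cases h : s = φ x
        · have h3 := quota_upd_le_succ φ x s2 s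
          have h4 : k s < (univ.filter (fun q => φ q = s)).card := by
            rw [h]
            exact hxk
          omega
        · have h3 := quota_upd_le φ x s2 s h
          omega
      · refine ⟨s2, mem_univ _, ?_⟩
        have h3 := quota_upd_add φ x s2 hx1
        have h4 : (univ.filter (fun q => φ q = s2)).card < k s2 := hs2
        omega
  · push Not at hA
    have hS' : d + f + 2 < (Gd.image φ).card := by
      have h3 : Gd.card ≤ K * (Gd.image φ).card := by
        apply Finset.card_le_mul_card_image_of_maps_to
          (fun x hx => Finset.mem_image_of_mem φ hx) K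
        intro s hs
        obtain ⟨x, hx, hxs⟩ := mem_image.mp hs
        have h4 := hA x hx
        rw [hxs] at h4
        calc (Gd.filter (fun x => φ x = s)).card ≤ (cl s).card :=
              Finset.card_le_card (Finset.filter_subset_filter _ (Finset.subset_univ _))
          _ ≤ k s := h4
          _ ≤ K := hk s
      by_contra hcon
      push Not at hcon
      have h5 : K * (Gd.image φ).card ≤ K * (d + f + 2) := Nat.mul_le_mul_left _ hcon
      omega
    have hB : d + f < ((Gd.image φ).erase s1).card := by
      have := Finset.pred_card_le_card_erase (s := Gd.image φ) (a := s1)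
      omega
    obtain ⟨s3, hs3, hs3a, hs3c⟩ := quota_excl conf al d f hconf hforb φ q _ hB
    obtain ⟨hs31, hs3i⟩ := mem_erase.mp hs3
    obtain ⟨q3, hq3, hq3s⟩ := mem_image.mp hs3i
    obtain ⟨_, hx1, hx2, hx3⟩ := mem_filter.mp hq3
    have hs32 : s3 ≠ s2 := by
      rw [← hq3s]
      exact hx1
    have hs12 : s1 ≠ s2 := by
      rintro rfl
      omega
    have hqq : q ≠ q3 := by
      rintro rfl
      exact hs31 (hq3s.symm.trans hq1)
    set φ1 := Function.update φ q s3 with hφ1def
    have hφ1q3 : φ1 q3 = s3 := by
      rw [hφ1def, Function.update_of_ne (Ne.symm hqq)]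
      exact hq3s
    have hp1 := quota_proper_upd conf hsymm hirr φ hφ2 q s3 hs3c
    refine ⟨Function.update φ1 q3 s2, ?_, ?_, ?_⟩
    · intro y
      by_cases h : y = q3
      · rw [h, Function.update_self]
        exact hx2
      · rw [Function.update_of_ne h]
        by_cases h' : y = q
        · rw [h', hφ1def, Function.update_self]
          exact hs3a
        · rw [hφ1def, Function.update_of_ne h']
          exact hφ1 y
    · apply quota_proper_upd conf hsymm hirr φ1 hp1 q3 s2
      intro q' hc
      by_cases h : q' = q
      · rw [h, hφ1def, Function.update_self]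
        exact hs32
      · rw [hφ1def, Function.update_of_ne h]
        intro h4
        exact hx3 q' h4 hc
    · apply Finset.sum_lt_sum
      · intro s _
        by_cases h : s = s1
        · have h3 := quota_upd_le_succ φ q s3 s
          have h4 : s ≠ φ1 q3 := by
            rw [hφ1q3, h]
            exact hs31.symm
          have h5 := quota_upd_le φ1 q3 s2 s h4
          have h6 : k s < (univ.filter (fun q => φ q = s)).card := by
            rw [h]
            exact hs1
          rw [← hφ1def] at h3
          omega
        · by_cases h' : s = s3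
          · have h3 := quota_upd_add φ q s3 (by rw [hq1]; exact hs31.symm)
            have h5 := quota_upd_le_succ φ1 q3 s2 s3
            rw [← hφ1def] at h3
            rw [h']
            omega
          · have h3 := quota_upd_le φ q s3 s (by rw [hq1]; exact h)
            have h5 := quota_upd_le φ1 q3 s2 s (by rw [hφ1q3]; exact h')
            rw [← hφ1def] at h3
            omega
      · refine ⟨s2, mem_univ _, ?_⟩
        have h3 := quota_upd_le φ q s3 s2 (by rw [hq1]; exact hs12.symm)
        have h5 := quota_upd_add φ1 q3 s2 (by rw [hφ1q3]; exact hs32)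
        have h4 : (univ.filter (fun q => φ q = s2)).card < k s2 := hs2
        rw [← hφ1def] at h3
        omega

theorem quota {C S : Type} [Fintype C] [DecidableEq C] [Fintype S] [DecidableEq S]
    (conf : C → C → Prop) [DecidableRel conf] (hsymm : ∀ a b, conf a b → conf b a)
    (hirr : ∀ a, ¬ conf a a)
    (al : C → S → Prop) [∀ q, DecidablePred (al q)]
    (k : S → ℕ) (hsum : ∑ s, k s = Fintype.card C) (d f g K : ℕ)
    (hconf : ∀ q, (univ.filter (fun q' => conf q q')).card ≤ d)
    (hforb : ∀ q, (univ.filter (fun s => ¬ al q s)).card ≤ f)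
    (hforb2 : ∀ s, (univ.filter (fun q => ¬ al q s)).card ≤ g)
    (hk : ∀ s, k s ≤ K)
    (h1 : d + f < Fintype.card S)
    (h2 : K * (2 * d + f + 3) + g < Fintype.card C ∨ Fintype.card C = 0) :
    ∃ φ : C → S, (∀ q, al q (φ q)) ∧ (∀ q q', conf q q' → φ q ≠ φ q') ∧
      ∀ s, (univ.filter (fun q => φ q = s)).card = k s := by
  classical
  obtain ⟨φ0, h3, h4⟩ := quota_greedy conf hsymm hirr al d f hconf hforb h1 univ
  have main : ∀ (n : ℕ) (φ : C → S), (∀ q, al q (φ q)) → (∀ q q', conf q q' → φ q ≠ φ q') →
      ∑ s, (k s - (univ.filter (fun q => φ q = s)).card) = n →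
      ∃ φ : C → S, (∀ q, al q (φ q)) ∧ (∀ q q', conf q q' → φ q ≠ φ q') ∧
        ∑ s, (k s - (univ.filter (fun q => φ q = s)).card) = 0 := by
    intro n
    induction n using Nat.strong_induction_on with
    | _ n ih =>
      intro φ hφ1 hφ2 hn
      by_cases h0 : n = 0
      · exact ⟨φ, hφ1, hφ2, hn.trans h0⟩
      · obtain ⟨φ', h5, h6, h7⟩ := quota_step conf hsymm hirr al k hsum d f g K hconf hforb hforb2
          hk h2 φ hφ1 hφ2 (by rw [hn]; exact h0)
        rw [hn] at h7
        exact ih _ h7 φ' h5 h6 rfl
  obtain ⟨φ, h5, h6, h7⟩ := main _ φ0 (fun q => h3 q (mem_univ _))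
    (fun q q' => h4 q (mem_univ _) q' (mem_univ _)) rfl
  refine ⟨φ, h5, h6, ?_⟩
  have h8 : ∀ s, k s ≤ (univ.filter (fun q => φ q = s)).card := by
    intro s
    have h9 := (Finset.sum_eq_zero_iff.mp h7) s (mem_univ _)
    exact Nat.le_of_sub_eq_zero h9
  have h9 : ∑ s, (univ.filter (fun q => φ q = s)).card = ∑ s, k s := by
    rw [hsum, ← Finset.card_univ (α := C)]
    exact (Finset.card_eq_sum_card_fiberwise (fun x _ => mem_univ (φ x))).symm
  intro s
  by_contra h10
  have h11 : k s < (univ.filter (fun q => φ q = s)).card := lt_of_le_of_ne (h8 s) (Ne.symm h10)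
  have h12 : ∑ s, k s < ∑ s, (univ.filter (fun q => φ q = s)).card :=
    Finset.sum_lt_sum (fun s _ => h8 s) ⟨s, mem_univ _, h11⟩
  omega

end H77.LT
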