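import Pool.Agent.H77.LT.TdA
import Pool.Agent.H77.LT.CntA
import Pool.Agent.H77.LT.Quota

/-!
# [H77 LT QSTEP] Symbols for the unused reserve cells

Notation `N = 2m+1`, `K = KK h 0 * KK h 1 * KK h 2` (`h^12/2 ≤ K ≤ h^12`), `x0 = 1/(1000 h^4)`,
`e = N/h^E + N/h^14` (tiny compared with `x0 N`). For each block `γ` apply `quota` to
`C = {q ∈ LQ : blc q = γ}`, `S = {s : bls s = γ}` (subtypes), conflict: different cells with a common
line (`ln κ q = ln κ q'` for some `κ`), `al q s`: `(κ, ln κ q, s) ∈ Y` for all `κ`,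
`k s = #{e ∈ LE : e.1 = 0, e.2.2 = s}`. `hsum` is the hypothesis `hT`.
`|S| = N/K` up to `3` (`cnt_symblk`, `|n - N| ≤ 2`), so `|S| ≥ 0.99 N/h^12`.
`d = ⌊9 x0 N/h^8⌋` (`Res.blkline`), `d ≤ 0.009 N/h^12 + 1`.
`f`: as `blc q = γ = bls s` all entries `(κ, ln κ q, s)` are board entries, so `s` is not allowed only
if one of them is in `XE` (at most `3 * 3 x0 N/h^8`, `Res.eblk`), in `F` (at most `3 * 4`, `Forb.line`,
`Forb.hn`) or in `cov PP` (at most `3 N/h^30`, hypothesis `hP` for the star `inr (inl (κ, ln κ q))`):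
`f ≤ 0.01 N/h^12`.
`g`: for a symbol `s`, `q` is not allowed only if `(κ, ln κ q, s)` is in `XE`, `F` or `cov PP`; the
number of lines `l` with `(κ,l,s)` in one of these sets is at most
`x0 N/2 + N/h^E + 2 + N/h^30 ≤ 0.51 x0 N` and each line has at most `3 x0 N/h^8` cells of `C`
(`Res.blkline`): `g ≤ 3 * 0.51 x0 N * 3 x0 N / h^8 = 4.59 x0^2 N^2/h^8 ≤ 0.0046 x0 N^2/h^12`.
`Kq` (bound for `k s`): `x0 N/2 + N/h^E ≤ 0.51 x0 N` (`Res.esymb`).
`|C| = ∑ k s ≥ |S| (x0 N/2 - e) ≥ 0.99 * 0.49 x0 N^2/h^12` (hypothesis `hL` and `Res.esymb`).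
So `d + f < |S|` and `Kq (2d+f+3) + g ≤ 0.51 x0 N * 0.03 N/h^12 + 0.0046 x0 N^2/h^12 < |C|`.
The colourings of the blocks are put together to `a` (for cells not in `LQ` take any symbol). Two
cells of `LQ` in different blocks have symbols in different blocks, so they are different. In the last
claim, `a q = s` implies that `q` is in the block of `s`.
-/

open Finset

namespace H77.LT

variable {m n h E : ℕ}

/-- numerical facts -/
theorem QStep_num (hh : 10 ^ 6 ≤ h) (N : ℝ) (hN : (h : ℝ) ^ 100 ≤ N) :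
    (∀ j : ℕ, 5 ≤ j → N / (h : ℝ) ^ j ≤ 0.001 * (x0 h * N)) ∧
    N / (h : ℝ) ^ 30 ≤ 0.0001 * (N / (h : ℝ) ^ 12) ∧
    (10 : ℝ) ^ 6 ≤ N / (h : ℝ) ^ 12 ∧ (10 : ℝ) ^ 6 ≤ x0 h * N ∧
    3 * x0 h * N / (h : ℝ) ^ 8 = 0.003 * (N / (h : ℝ) ^ 12) := by
  have hr : (10 : ℝ) ^ 6 ≤ h := by exact_mod_cast hh
  have h1 : (1 : ℝ) ≤ h := le_trans (by norm_num) hr
  have hpos : (0 : ℝ) < h := by linarith
  have hNpos : 0 < N := lt_of_lt_of_le (by positivity) hN
  refine ⟨?_, ?_, ?_, ?_, ?_⟩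
  · intro j hj
    have h2 : N / (h : ℝ) ^ j ≤ N / (h : ℝ) ^ 5 :=
      div_le_div_of_nonneg_left hNpos.le (by positivity) (pow_le_pow_right₀ h1 hj)
    refine h2.trans ?_
    unfold x0
    rw [div_le_iff₀ (by positivity)]
    have h3 : 0.001 * (1 / (1000 * (h : ℝ) ^ 4) * N) * (h : ℝ) ^ 5 = N * (h / 10 ^ 6) := by
      field_simp
      norm_num
    rw [h3]
    have h4 : (1 : ℝ) ≤ h / 10 ^ 6 := by
      rw [le_div_iff₀ (by norm_num)]
      linarith
    nlinarith
  · have h3 : N / (h : ℝ) ^ 30 = N / (h : ℝ) ^ 12 * (1 / (h : ℝ) ^ 18) := by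
      field_simp
    rw [h3, mul_comm]
    apply mul_le_mul_of_nonneg_right _ (by positivity)
    rw [div_le_iff₀ (by positivity)]
    have h4 : (h : ℝ) ^ 1 ≤ (h : ℝ) ^ 18 := pow_le_pow_right₀ h1 (by norm_num)
    rw [pow_one] at h4
    have h5 : (10 : ℝ) ^ 6 ≤ (h : ℝ) ^ 18 := hr.trans h4
    linarith
  · rw [le_div_iff₀ (by positivity)]
    calc (10 : ℝ) ^ 6 * (h : ℝ) ^ 12 ≤ h * (h : ℝ) ^ 12 :=
          mul_le_mul_of_nonneg_right hr (by positivity)
      _ = (h : ℝ) ^ 13 := by ring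
      _ ≤ (h : ℝ) ^ 100 := pow_le_pow_right₀ h1 (by norm_num)
      _ ≤ N := hN
  · unfold x0
    rw [one_div, inv_mul_eq_div, le_div_iff₀ (by positivity)]
    calc (10 : ℝ) ^ 6 * (1000 * (h : ℝ) ^ 4) ≤ ((10 : ℝ) ^ 6 * (10 : ℝ) ^ 6) * (h : ℝ) ^ 4 := by
          have : (0 : ℝ) < (h : ℝ) ^ 4 := by positivity
          nlinarith
      _ ≤ (h * h) * (h : ℝ) ^ 4 := by
          apply mul_le_mul_of_nonneg_right _ (by positivity)
          exact mul_le_mul hr hr (by positivity) (by positivity)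
      _ = (h : ℝ) ^ 6 := by ring
      _ ≤ (h : ℝ) ^ 100 := pow_le_pow_right₀ h1 (by norm_num)
      _ ≤ N := hN
  · unfold x0
    field_simp
    norm_num

/-- number of symbols at a line whose entries are covered -/
theorem QStep_covl (PP : Finset (Cell m × Fin n)) (κ : Fin 3) (l : Fin m) :
    (univ.filter (fun s : Fin n => (Sum.inr (κ, l, s) : Vt m n) ∈ cov PP)).card ≤
      deg (cov PP) (Sum.inr (Sum.inl (κ, l))) := by
  unfold deg
  apply Finset.card_le_card_of_injOn (fun s => (Sum.inr (κ, l, s) : Vt m n))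
  · intro s hs
    rw [Finset.mem_coe, mem_filter] at hs ⊢
    exact ⟨hs.2, by simp [star]⟩
  · intro s _ s' _ h1
    simpa using h1

/-- number of lines at a symbol whose entries are covered -/
theorem QStep_covs (PP : Finset (Cell m × Fin n)) (κ : Fin 3) (s : Fin n) :
    (univ.filter (fun l : Fin m => (Sum.inr (κ, l, s) : Vt m n) ∈ cov PP)).card ≤
      deg (cov PP) (Sum.inr (Sum.inr (κ, s))) := by
  unfold deg
  apply Finset.card_le_card_of_injOn (fun l => (Sum.inr (κ, l, s) : Vt m n))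
  · intro l hl
    rw [Finset.mem_coe, mem_filter] at hl ⊢
    exact ⟨hl.2, by simp [star]⟩
  · intro l _ l' _ h1
    simpa using h1

theorem QStep_linl (F : Finset (Fin 3 × Fin m × Fin n)) (κ : Fin 3) (l : Fin m) :
    (univ.filter (fun s : Fin n => (κ, l, s) ∈ F)).card ≤
      (F.filter (fun e => e.1 = κ ∧ e.2.1 = l)).card := by
  apply Finset.card_le_card_of_injOn (fun s => (κ, l, s))
  · intro s hs
    rw [Finset.mem_coe, mem_filter] at hs ⊢
    exact ⟨hs.2, rfl, rfl⟩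
  · intro s _ s' _ h1
    simpa using h1

theorem QStep_lins (F : Finset (Fin 3 × Fin m × Fin n)) (κ : Fin 3) (s : Fin n) :
    (univ.filter (fun l : Fin m => (κ, l, s) ∈ F)).card ≤
      (F.filter (fun e => e.1 = κ ∧ e.2.2 = s)).card := by
  apply Finset.card_le_card_of_injOn (fun l => (κ, l, s))
  · intro s hs
    rw [Finset.mem_coe, mem_filter] at hs ⊢
    exact ⟨hs.2, rfl, rfl⟩
  · intro s _ s' _ h1
    simpa using h1

/-- the colouring of one block -/
theorem QStep_block (he : Even h) (hh : 10 ^ 6 ≤ h) (hE : 20 ≤ E) (hN : h ^ 100 ≤ 2 * m + 1)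
    (n1 : 2 * m - 1 ≤ n) (F : Finset (Fin 3 × Fin m × Fin n)) (hF : Forb m n F)
    (XQ : Finset (Cell m)) (XE : Finset (Fin 3 × Fin m × Fin n)) (hres : Res m n h E F XQ XE)
    (PP : Finset (Cell m × Fin n))
    (hP : ∀ σ, (deg (cov PP) σ : ℝ) ≤ (2 * m + 1) / (h : ℝ) ^ 30)
    (Y : Finset (Fin 3 × Fin m × Fin n))
    (hY : ∀ e, OnB h e → e ∉ XE → e ∉ F → (Sum.inr e : Vt m n) ∉ cov PP → e ∈ Y)
    (LQ : Finset (Cell m)) (LE : Finset (Fin 3 × Fin m × Fin n)) (hLQ : LQ ⊆ XQ) (hLE : LE ⊆ XE)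
    (hL : ∀ s, ((XE.filter (fun e => e.1 = 0 ∧ e.2.2 = s)).card : ℝ) - (2 * m + 1) / (h : ℝ) ^ 14
      ≤ ((LE.filter (fun e => e.1 = 0 ∧ e.2.2 = s)).card : ℝ))
    (hT : ∀ γ ∈ Blks h, (LE.filter (fun e => e.1 = 0 ∧ bls h e.2.2 = γ)).card
      = (LQ.filter (fun q => blc h q = γ)).card) (γ : Fin 3 → ℕ) (hγ : γ ∈ Blks h) :
    ∃ φ : {q : Cell m // q ∈ LQ ∧ blc h q = γ} → {s : Fin n // bls h s = γ},
      (∀ q κ, (κ, ln κ q.1, (φ q).1) ∈ Y) ∧
      (∀ q q', (q ≠ q' ∧ ∃ κ, ln κ q.1 = ln κ q'.1) → φ q ≠ φ q') ∧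
      ∀ s, (univ.filter (fun q => φ q = s)).card =
        (LE.filter (fun e => e.1 = 0 ∧ e.2.2 = s.1)).card := by
  classical
  have hh2 : 2 ≤ h := le_trans (by norm_num) hh
  have hNr : (h : ℝ) ^ 100 ≤ (2 * m + 1 : ℝ) := by exact_mod_cast hN
  obtain ⟨nj, n30, nT, nX, n8⟩ := QStep_num hh (2 * m + 1 : ℝ) hNr
  set N : ℝ := (2 * m + 1 : ℝ) with hNdef
  set T : ℝ := N / (h : ℝ) ^ 12 with hTdef
  set X : ℝ := x0 h * N with hXdef
  have hTpos : 0 < T := lt_of_lt_of_le (by norm_num) nT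
  have hXpos : 0 < X := lt_of_lt_of_le (by norm_num) nX
  have nE := nj E (by omega)
  have n14 := nj 14 (by norm_num)
  have n30' := nj 30 (by norm_num)
  have hblk : IsBlk h γ := (mem_Blks γ).1 hγ
  -- cells on a line in the block
  have hline : ∀ (κ : Fin 3) (l : Fin m),
      ((XQ.filter (fun q => blc h q = γ ∧ ln κ q = l)).card : ℝ) ≤ 0.003 * T := by
    intro κ l
    refine (hres.blkline κ l γ).trans ?_
    rw [← hNdef, n8]
  -- number of symbols of the block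
  have hS : 0.99 * T ≤ (Fintype.card {s : Fin n // bls h s = γ} : ℝ) := by
    have h1 := cnt_symblk (n := n) he hh2 γ hblk
    rw [Fintype.card_subtype]
    have h2 := (abs_le.1 h1).1
    have hr : (10 : ℝ) ^ 6 ≤ h := by exact_mod_cast hh
    have hpos : (0 : ℝ) < h := by linarith
    have h3 : ((KK h 0 * KK h 1 * KK h 2 : ℕ) : ℝ) ≤ (h : ℝ) ^ 12 := by
      have h4 : KK h 0 * KK h 1 * KK h 2 ≤ h ^ 12 := by
        rw [cnta_KK0, cnta_KK1, cnta_KK2]
        have h5 := cnta_pow hh2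
        obtain ⟨a, ha⟩ : ∃ a, h ^ 4 = a + 1 := ⟨h ^ 4 - 1, by omega⟩
        have h6 : h ^ 12 = (h ^ 4) ^ 3 := by ring
        rw [h6, ha, Nat.add_sub_cancel]
        have : a * (a + 1) * (a + 1 + 1) ≤ (a + 1) ^ 3 := by nlinarith
        exact this
      exact_mod_cast h4
    have hKpos : (0 : ℝ) < ((KK h 0 * KK h 1 * KK h 2 : ℕ) : ℝ) := by
      have a0 := KK_pos hh2 0
      have a1 := KK_pos hh2 1
      have a2 := KK_pos hh2 2
      have : 0 < KK h 0 * KK h 1 * KK h 2 := by positivity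
      exact_mod_cast this
    have h4 : (n : ℝ) / (h : ℝ) ^ 12 ≤ n / ((KK h 0 * KK h 1 * KK h 2 : ℕ) : ℝ) :=
      div_le_div_of_nonneg_left (Nat.cast_nonneg n) hKpos h3
    have h5 : N - 2 ≤ n := by
      have h6 : 2 * m ≤ n + 1 := by omega
      have h7 : (2 * m : ℝ) ≤ n + 1 := by exact_mod_cast h6
      rw [hNdef]
      linarith
    have h6 : (N - 2) / (h : ℝ) ^ 12 ≤ n / (h : ℝ) ^ 12 := by
      apply div_le_div_of_nonneg_right h5 (by positivity)
    have h7 : (N - 2) / (h : ℝ) ^ 12 = T - 2 / (h : ℝ) ^ 12 := by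
      rw [hTdef]
      ring
    have h8 : 2 / (h : ℝ) ^ 12 ≤ 2 := by
      rw [div_le_iff₀ (by positivity)]
      have : (1 : ℝ) ≤ (h : ℝ) ^ 12 := one_le_pow₀ (by linarith)
      linarith
    linarith
  -- class sizes
  have hkl : ∀ s : Fin n, 0.49 * X ≤ ((LE.filter (fun e => e.1 = 0 ∧ e.2.2 = s)).card : ℝ) := by
    intro s
    have h1 := hL s
    have h2 := (abs_le.1 (hres.esymb 0 s)).1
    rw [← hNdef, ← hXdef] at h2
    linarith
  have hku : ∀ s : Fin n, ((LE.filter (fun e => e.1 = 0 ∧ e.2.2 = s)).card : ℝ) ≤ 0.51 * X := by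
    intro s
    have h1 : ((LE.filter (fun e => e.1 = 0 ∧ e.2.2 = s)).card : ℝ) ≤
        ((XE.filter (fun e => e.1 = 0 ∧ e.2.2 = s)).card : ℝ) := by
      exact_mod_cast Finset.card_le_card (Finset.filter_subset_filter _ hLE)
    have h2 := (abs_le.1 (hres.esymb 0 s)).2
    rw [← hNdef, ← hXdef] at h2
    linarith
  -- the sum of the class sizes
  have hsum : ∑ s : {s : Fin n // bls h s = γ}, (LE.filter (fun e => e.1 = 0 ∧ e.2.2 = s.1)).card =
      Fintype.card {q : Cell m // q ∈ LQ ∧ blc h q = γ} := by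
    have h1 : Fintype.card {q : Cell m // q ∈ LQ ∧ blc h q = γ} =
        (LQ.filter (fun q => blc h q = γ)).card := by
      rw [Fintype.card_subtype]
      congr 1
      ext q
      simp
    rw [h1, ← hT γ hγ, ← Finset.sum_subtype (univ.filter (fun s : Fin n => bls h s = γ))
      (by simp) (fun s => (LE.filter (fun e => e.1 = 0 ∧ e.2.2 = s)).card)]
    rw [Finset.card_eq_sum_card_fiberwise (f := fun e : Fin 3 × Fin m × Fin n => e.2.2)
      (t := univ.filter (fun s : Fin n => bls h s = γ))]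
    · refine Finset.sum_congr rfl fun s hs => ?_
      rw [mem_filter] at hs
      rw [Finset.filter_filter]
      congr 1
      ext e
      simp only [mem_filter]
      constructor
      · rintro ⟨h2, h3, h4⟩
        refine ⟨h2, ⟨h3, ?_⟩, h4⟩
        rw [h4]
        exact hs.2
      · rintro ⟨h2, ⟨h3, _⟩, h4⟩
        exact ⟨h2, h3, h4⟩
    · intro e he2
      rw [Finset.mem_coe, mem_filter] at he2 ⊢
      exact ⟨mem_univ _, he2.2.2⟩
  have hC : 0.99 * T * (0.49 * X) ≤ (Fintype.card {q : Cell m // q ∈ LQ ∧ blc h q = γ} : ℝ) := by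
    rw [← hsum]
    push_cast
    calc 0.99 * T * (0.49 * X) ≤ (Fintype.card {s : Fin n // bls h s = γ} : ℝ) * (0.49 * X) :=
          mul_le_mul_of_nonneg_right hS (by positivity)
      _ = ∑ _s : {s : Fin n // bls h s = γ}, 0.49 * X := by
          rw [Finset.sum_const, Finset.card_univ, nsmul_eq_mul]
      _ ≤ _ := Finset.sum_le_sum fun s _ => hkl s.1
  -- conflicts
  have hd : ∀ q : {q : Cell m // q ∈ LQ ∧ blc h q = γ},
      (univ.filter (fun q' : {q : Cell m // q ∈ LQ ∧ blc h q = γ} =>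
        q ≠ q' ∧ ∃ κ, ln κ q.1 = ln κ q'.1)).card ≤ ⌊0.009 * T⌋₊ := by
    intro q
    apply Nat.le_floor
    have h1 : (univ.filter (fun q' : {q : Cell m // q ∈ LQ ∧ blc h q = γ} =>
        q ≠ q' ∧ ∃ κ, ln κ q.1 = ln κ q'.1)).card ≤
        ((univ : Finset (Fin 3)).biUnion (fun κ =>
          XQ.filter (fun q' => blc h q' = γ ∧ ln κ q' = ln κ q.1))).card := by
      apply Finset.card_le_card_of_injOn (fun q' => q'.1)
      · intro q' hq'
        rw [Finset.mem_coe, mem_filter] at hq'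
        obtain ⟨_, _, κ, hκ⟩ := hq'
        rw [Finset.mem_coe, mem_biUnion]
        exact ⟨κ, mem_univ _, mem_filter.2 ⟨hLQ q'.2.1, q'.2.2, hκ.symm⟩⟩
      · intro a _ b _ hab
        exact Subtype.ext hab
    have h2 : (((univ : Finset (Fin 3)).biUnion (fun κ =>
          XQ.filter (fun q' => blc h q' = γ ∧ ln κ q' = ln κ q.1))).card : ℝ) ≤
        ∑ κ : Fin 3, ((XQ.filter (fun q' => blc h q' = γ ∧ ln κ q' = ln κ q.1)).card : ℝ) := by
      exact_mod_cast Finset.card_biUnion_le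
    calc ((univ.filter (fun q' : {q : Cell m // q ∈ LQ ∧ blc h q = γ} =>
        q ≠ q' ∧ ∃ κ, ln κ q.1 = ln κ q'.1)).card : ℝ) ≤ _ := Nat.cast_le.2 h1
      _ ≤ _ := h2
      _ ≤ ∑ _κ : Fin 3, 0.003 * T := Finset.sum_le_sum fun κ _ => hline κ (ln κ q.1)
      _ = 0.009 * T := by
          rw [Finset.sum_const, Finset.card_univ, Fintype.card_fin, nsmul_eq_mul]
          push_cast
          ring
  -- forbidden symbols
  have hf : ∀ q : {q : Cell m // q ∈ LQ ∧ blc h q = γ},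
      (univ.filter (fun s : {s : Fin n // bls h s = γ} =>
        ¬ ∀ κ, (κ, ln κ q.1, s.1) ∈ Y)).card ≤ ⌊0.01 * T⌋₊ := by
    intro q
    apply Nat.le_floor
    have h1 : (univ.filter (fun s : {s : Fin n // bls h s = γ} =>
        ¬ ∀ κ, (κ, ln κ q.1, s.1) ∈ Y)).card ≤
        ((univ : Finset (Fin 3)).biUnion (fun κ =>
          (univ.filter (fun s : Fin n => bls h s = γ ∧ (κ, ln κ q.1, s) ∈ XE) ∪
            univ.filter (fun s : Fin n => (κ, ln κ q.1, s) ∈ F)) ∪
            univ.filter (fun s : Fin n => (Sum.inr (κ, ln κ q.1, s) : Vt m n) ∈ cov PP))).card := by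
      apply Finset.card_le_card_of_injOn (fun s => s.1)
      · intro s hs
        rw [Finset.mem_coe, mem_filter] at hs
        obtain ⟨-, hs⟩ := hs
        push Not at hs
        obtain ⟨κ, hκ⟩ := hs
        rw [Finset.mem_coe, mem_biUnion]
        refine ⟨κ, mem_univ _, ?_⟩
        simp only [mem_union, mem_filter, mem_univ, true_and]
        by_contra hcon
        rw [not_or, not_or] at hcon
        apply hκ
        apply hY _ _ (fun h2 => hcon.1.1 ⟨s.2, h2⟩) hcon.1.2 hcon.2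
        change (ln κ q.1).val % KK h κ = s.1.val % KK h κ
        have h3 := congrFun q.2.2 κ
        have h4 := congrFun s.2 κ
        exact h3.trans h4.symm
      · intro a _ b _ hab
        exact Subtype.ext hab
    have h2 : ∀ κ : Fin 3, (((univ.filter (fun s : Fin n => bls h s = γ ∧ (κ, ln κ q.1, s) ∈ XE) ∪
            univ.filter (fun s : Fin n => (κ, ln κ q.1, s) ∈ F)) ∪
            univ.filter (fun s : Fin n => (Sum.inr (κ, ln κ q.1, s) : Vt m n) ∈ cov PP)).card : ℝ)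
        ≤ 0.003 * T + 4 + 0.0001 * T := by
      intro κ
      have e1 : ((univ.filter (fun s : Fin n => bls h s = γ ∧ (κ, ln κ q.1, s) ∈ XE)).card : ℝ) ≤
          0.003 * T := by
        refine (hres.eblk κ (ln κ q.1) γ).trans ?_
        rw [← hNdef, n8]
      have e2 : ((univ.filter (fun s : Fin n => (κ, ln κ q.1, s) ∈ F)).card : ℝ) ≤ 4 := by
        have e3 := QStep_linl F κ (ln κ q.1)
        have e4 := hF.line κ (ln κ q.1)
        have e5 := hF.hn
        have e6 : (univ.filter (fun s : Fin n => (κ, ln κ q.1, s) ∈ F)).card ≤ 4 := by omega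
        exact_mod_cast e6
      have e3 : ((univ.filter (fun s : Fin n =>
          (Sum.inr (κ, ln κ q.1, s) : Vt m n) ∈ cov PP)).card : ℝ) ≤ 0.0001 * T := by
        have e4 : ((univ.filter (fun s : Fin n =>
          (Sum.inr (κ, ln κ q.1, s) : Vt m n) ∈ cov PP)).card : ℝ) ≤
            (deg (cov PP) (Sum.inr (Sum.inl (κ, ln κ q.1))) : ℝ) := by
          exact_mod_cast QStep_covl PP κ (ln κ q.1)
        exact (e4.trans (hP _)).trans n30
      have e4 : (((univ.filter (fun s : Fin n => bls h s = γ ∧ (κ, ln κ q.1, s) ∈ XE) ∪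
            univ.filter (fun s : Fin n => (κ, ln κ q.1, s) ∈ F)) ∪
            univ.filter (fun s : Fin n => (Sum.inr (κ, ln κ q.1, s) : Vt m n) ∈ cov PP)).card : ℝ)
          ≤ ((univ.filter (fun s : Fin n => bls h s = γ ∧ (κ, ln κ q.1, s) ∈ XE)).card : ℝ) +
            ((univ.filter (fun s : Fin n => (κ, ln κ q.1, s) ∈ F)).card : ℝ) +
            ((univ.filter (fun s : Fin n =>
              (Sum.inr (κ, ln κ q.1, s) : Vt m n) ∈ cov PP)).card : ℝ) := by
        exact_mod_cast (Finset.card_union_le _ _).trans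
          (Nat.add_le_add_right (Finset.card_union_le _ _) _)
      linarith
    calc ((univ.filter (fun s : {s : Fin n // bls h s = γ} =>
        ¬ ∀ κ, (κ, ln κ q.1, s.1) ∈ Y)).card : ℝ) ≤ _ := Nat.cast_le.2 h1
      _ ≤ ∑ κ : Fin 3, (((univ.filter (fun s : Fin n => bls h s = γ ∧ (κ, ln κ q.1, s) ∈ XE) ∪
            univ.filter (fun s : Fin n => (κ, ln κ q.1, s) ∈ F)) ∪
            univ.filter (fun s : Fin n =>
              (Sum.inr (κ, ln κ q.1, s) : Vt m n) ∈ cov PP)).card : ℝ) := by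
          rw [← Nat.cast_sum]
          exact Nat.cast_le.2 Finset.card_biUnion_le
      _ ≤ ∑ _κ : Fin 3, (0.003 * T + 4 + 0.0001 * T) := Finset.sum_le_sum fun κ _ => h2 κ
      _ = 3 * (0.003 * T + 4 + 0.0001 * T) := by
          rw [Finset.sum_const, Finset.card_univ, Fintype.card_fin, nsmul_eq_mul]
          push_cast
          ring
      _ ≤ 0.01 * T := by linarith
  -- cells for which a symbol is forbidden
  have hg : ∀ s : {s : Fin n // bls h s = γ},
      (univ.filter (fun q : {q : Cell m // q ∈ LQ ∧ blc h q = γ} =>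
        ¬ ∀ κ, (κ, ln κ q.1, s.1) ∈ Y)).card ≤ ⌊0.0046 * (X * T)⌋₊ := by
    intro s
    apply Nat.le_floor
    set L : Fin 3 → Finset (Fin m) := fun κ => (univ.filter (fun l : Fin m => (κ, l, s.1) ∈ XE) ∪
      univ.filter (fun l : Fin m => (κ, l, s.1) ∈ F)) ∪
      univ.filter (fun l : Fin m => (Sum.inr (κ, l, s.1) : Vt m n) ∈ cov PP) with hLdef
    have h1 : (univ.filter (fun q : {q : Cell m // q ∈ LQ ∧ blc h q = γ} =>
        ¬ ∀ κ, (κ, ln κ q.1, s.1) ∈ Y)).card ≤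
        ((univ : Finset (Fin 3)).biUnion (fun κ => (L κ).biUnion (fun l =>
          XQ.filter (fun q' => blc h q' = γ ∧ ln κ q' = l)))).card := by
      apply Finset.card_le_card_of_injOn (fun q => q.1)
      · intro q hq
        rw [Finset.mem_coe, mem_filter] at hq
        obtain ⟨-, hq⟩ := hq
        push Not at hq
        obtain ⟨κ, hκ⟩ := hq
        rw [Finset.mem_coe, mem_biUnion]
        refine ⟨κ, mem_univ _, ?_⟩
        rw [mem_biUnion]
        refine ⟨ln κ q.1, ?_, ?_⟩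
        · rw [hLdef]
          simp only [mem_union, mem_filter, mem_univ, true_and]
          by_contra hcon
          rw [not_or, not_or] at hcon
          apply hκ
          apply hY _ _ hcon.1.1 hcon.1.2 hcon.2
          change (ln κ q.1).val % KK h κ = s.1.val % KK h κ
          have h3 := congrFun q.2.2 κ
          have h4 := congrFun s.2 κ
          exact h3.trans h4.symm
        · rw [mem_filter]
          exact ⟨hLQ q.2.1, q.2.2, rfl⟩
      · intro a _ b _ hab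
        exact Subtype.ext hab
    have hLc : ∀ κ, ((L κ).card : ℝ) ≤ 0.51 * X := by
      intro κ
      have e1 : ((univ.filter (fun l : Fin m => (κ, l, s.1) ∈ XE)).card : ℝ) ≤
          X / 2 + 0.001 * X := by
        have e2 : ((univ.filter (fun l : Fin m => (κ, l, s.1) ∈ XE)).card : ℝ) ≤
            ((XE.filter (fun e => e.1 = κ ∧ e.2.2 = s.1)).card : ℝ) := by
          exact_mod_cast QStep_lins XE κ s.1
        have e3 := (abs_le.1 (hres.esymb κ s.1)).2
        rw [← hNdef, ← hXdef] at e3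
        linarith
      have e2 : ((univ.filter (fun l : Fin m => (κ, l, s.1) ∈ F)).card : ℝ) ≤ 2 := by
        exact_mod_cast (QStep_lins F κ s.1).trans (hF.symb2 κ s.1)
      have e3 : ((univ.filter (fun l : Fin m =>
          (Sum.inr (κ, l, s.1) : Vt m n) ∈ cov PP)).card : ℝ) ≤ 0.001 * X := by
        have e4 : ((univ.filter (fun l : Fin m =>
          (Sum.inr (κ, l, s.1) : Vt m n) ∈ cov PP)).card : ℝ) ≤
            (deg (cov PP) (Sum.inr (Sum.inr (κ, s.1))) : ℝ) := by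
          exact_mod_cast QStep_covs PP κ s.1
        exact (e4.trans (hP _)).trans n30'
      have e4 : ((L κ).card : ℝ)
          ≤ ((univ.filter (fun l : Fin m => (κ, l, s.1) ∈ XE)).card : ℝ) +
            ((univ.filter (fun l : Fin m => (κ, l, s.1) ∈ F)).card : ℝ) +
            ((univ.filter (fun l : Fin m =>
              (Sum.inr (κ, l, s.1) : Vt m n) ∈ cov PP)).card : ℝ) := by
        exact_mod_cast (Finset.card_union_le _ _).trans
          (Nat.add_le_add_right (Finset.card_union_le _ _) _)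
      linarith
    have h2 : ∀ κ : Fin 3, (((L κ).biUnion (fun l =>
          XQ.filter (fun q' => blc h q' = γ ∧ ln κ q' = l))).card : ℝ) ≤
        0.51 * X * (0.003 * T) := by
      intro κ
      calc (((L κ).biUnion (fun l =>
          XQ.filter (fun q' => blc h q' = γ ∧ ln κ q' = l))).card : ℝ) ≤
            ∑ l ∈ L κ, ((XQ.filter (fun q' => blc h q' = γ ∧ ln κ q' = l)).card : ℝ) := by
            exact_mod_cast Finset.card_biUnion_le
        _ ≤ ∑ _l ∈ L κ, 0.003 * T := Finset.sum_le_sum fun l _ => hline κ l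
        _ = (L κ).card * (0.003 * T) := by
            rw [Finset.sum_const, nsmul_eq_mul]
        _ ≤ 0.51 * X * (0.003 * T) := mul_le_mul_of_nonneg_right (hLc κ) (by positivity)
    calc ((univ.filter (fun q : {q : Cell m // q ∈ LQ ∧ blc h q = γ} =>
        ¬ ∀ κ, (κ, ln κ q.1, s.1) ∈ Y)).card : ℝ) ≤ _ := Nat.cast_le.2 h1
      _ ≤ ∑ κ : Fin 3, (((L κ).biUnion (fun l =>
          XQ.filter (fun q' => blc h q' = γ ∧ ln κ q' = l))).card : ℝ) := by
          rw [← Nat.cast_sum]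
          exact Nat.cast_le.2 Finset.card_biUnion_le
      _ ≤ ∑ _κ : Fin 3, 0.51 * X * (0.003 * T) := Finset.sum_le_sum fun κ _ => h2 κ
      _ = 3 * (0.51 * X * (0.003 * T)) := by
          rw [Finset.sum_const, Finset.card_univ, Fintype.card_fin, nsmul_eq_mul]
          push_cast
          ring
      _ ≤ 0.0046 * (X * T) := by
          have : 0 < X * T := mul_pos hXpos hTpos
          nlinarith
  -- the colouring
  have fl : ∀ r : ℝ, 0 ≤ r → (⌊r⌋₊ : ℝ) ≤ r := fun r hr => Nat.floor_le hr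
  have d1 := fl (0.009 * T) (by positivity)
  have d2 := fl (0.01 * T) (by positivity)
  have d3 := fl (0.0046 * (X * T)) (by positivity)
  have d4 := fl (0.51 * X) (by positivity)
  obtain ⟨φ, h1, h2, h3⟩ := quota (C := {q : Cell m // q ∈ LQ ∧ blc h q = γ})
    (S := {s : Fin n // bls h s = γ}) (fun q q' => q ≠ q' ∧ ∃ κ, ln κ q.1 = ln κ q'.1)
    (fun a b hab => ⟨hab.1.symm, hab.2.imp fun κ hκ => hκ.symm⟩)
    (fun a ha => ha.1 rfl)
    (fun q s => ∀ κ, (κ, ln κ q.1, s.1) ∈ Y)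
    (fun s => (LE.filter (fun e => e.1 = 0 ∧ e.2.2 = s.1)).card) hsum
    ⌊0.009 * T⌋₊ ⌊0.01 * T⌋₊ ⌊0.0046 * (X * T)⌋₊ ⌊0.51 * X⌋₊ hd hf hg
    (fun s => Nat.le_floor (hku s.1))
    (by
      have h1 : ((⌊0.009 * T⌋₊ + ⌊0.01 * T⌋₊ : ℕ) : ℝ) <
          (Fintype.card {s : Fin n // bls h s = γ} : ℝ) := by
        push_cast
        linarith
      exact_mod_cast h1)
    (Or.inl (by
      have h1 : ((⌊0.51 * X⌋₊ * (2 * ⌊0.009 * T⌋₊ + ⌊0.01 * T⌋₊ + 3) + ⌊0.0046 * (X * T)⌋₊ : ℕ) : ℝ) <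
          (Fintype.card {q : Cell m // q ∈ LQ ∧ blc h q = γ} : ℝ) := by
        refine lt_of_lt_of_le ?_ hC
        push_cast
        have h4 : (2 * (⌊0.009 * T⌋₊ : ℝ) + ⌊0.01 * T⌋₊ + 3) ≤ 0.03 * T := by linarith
        have h5 : (⌊0.51 * X⌋₊ : ℝ) * (2 * (⌊0.009 * T⌋₊ : ℝ) + ⌊0.01 * T⌋₊ + 3) ≤
            0.51 * X * (0.03 * T) :=
          mul_le_mul d4 h4 (by positivity) (by positivity)
        have : 0 < X * T := mul_pos hXpos hTpos
        nlinarith
      exact_mod_cast h1))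
  exact ⟨φ, h1, h2, h3⟩

theorem qstep (he : Even h) (hh : 10 ^ 6 ≤ h) (hE : 20 ≤ E) (hN : h ^ 100 ≤ 2 * m + 1)
    (n1 : 2 * m - 1 ≤ n) (F : Finset (Fin 3 × Fin m × Fin n)) (hF : Forb m n F)
    (XQ : Finset (Cell m)) (XE : Finset (Fin 3 × Fin m × Fin n)) (hres : Res m n h E F XQ XE)
    (PP : Finset (Cell m × Fin n))
    (hP : ∀ σ, (deg (cov PP) σ : ℝ) ≤ (2 * m + 1) / (h : ℝ) ^ 30)
    (Y : Finset (Fin 3 × Fin m × Fin n))
    (hY : ∀ e, OnB h e → e ∉ XE → e ∉ F → (Sum.inr e : Vt m n) ∉ cov PP → e ∈ Y)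
    (LQ : Finset (Cell m)) (LE : Finset (Fin 3 × Fin m × Fin n)) (hLQ : LQ ⊆ XQ) (hLE : LE ⊆ XE)
    (hL : ∀ s, ((XE.filter (fun e => e.1 = 0 ∧ e.2.2 = s)).card : ℝ) - (2 * m + 1) / (h : ℝ) ^ 14
      ≤ ((LE.filter (fun e => e.1 = 0 ∧ e.2.2 = s)).card : ℝ))
    (hT : ∀ γ ∈ Blks h, (LE.filter (fun e => e.1 = 0 ∧ bls h e.2.2 = γ)).card
      = (LQ.filter (fun q => blc h q = γ)).card) :
    ∃ a : Cell m → Fin n, (∀ q ∈ LQ, ∀ κ, (κ, ln κ q, a q) ∈ Y) ∧
      (∀ q ∈ LQ, ∀ q' ∈ LQ, q ≠ q' → ∀ κ, ln κ q = ln κ q' → a q ≠ a q') ∧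
      ∀ s, (LE.filter (fun e => e.1 = 0 ∧ e.2.2 = s)).card
        = (LQ.filter (fun q => a q = s)).card := by
  classical
  have hh2 : 2 ≤ h := le_trans (by norm_num) hh
  have hn0 : 0 < n := by
    have h1 : 2 ^ 100 ≤ h ^ 100 := Nat.pow_le_pow_left hh2 100
    have h2 : 4 ≤ 2 ^ 100 := by norm_num
    omega
  choose φ h1 h2 h3 using
    QStep_block he hh hE hN n1 F hF XQ XE hres PP hP Y hY LQ LE hLQ hLE hL hT
  set a : Cell m → Fin n := fun q => if hq : q ∈ LQ then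
    (φ (blc h q) (blc_mem hh2 q) ⟨q, hq, rfl⟩).1 else ⟨0, hn0⟩ with ha
  have haq : ∀ (q : Cell m) (hq : q ∈ LQ) (γ : Fin 3 → ℕ) (hγ : γ ∈ Blks h) (hb : blc h q = γ),
      (φ γ hγ ⟨q, hq, hb⟩).1 = a q := by
    intro q hq γ hγ hb
    subst hb
    rw [ha]
    simp only [hq, dif_pos]
  have hab : ∀ q ∈ LQ, bls h (a q) = blc h q := by
    intro q hq
    rw [← haq q hq (blc h q) (blc_mem hh2 q) rfl]
    exact (φ (blc h q) (blc_mem hh2 q) ⟨q, hq, rfl⟩).2
  refine ⟨a, ?_, ?_, ?_⟩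
  · intro q hq κ
    rw [← haq q hq (blc h q) (blc_mem hh2 q) rfl]
    exact h1 (blc h q) (blc_mem hh2 q) ⟨q, hq, rfl⟩ κ
  · intro q hq q' hq' hne κ hκ heq
    have hb : blc h q = blc h q' := by
      rw [← hab q hq, ← hab q' hq', heq]
    apply h2 (blc h q') (blc_mem hh2 q') ⟨q, hq, hb⟩ ⟨q', hq', rfl⟩
      ⟨fun h4 => hne (congrArg Subtype.val h4), κ, hκ⟩
    apply Subtype.ext
    rw [haq q hq _ _ hb, haq q' hq' _ _ rfl, heq]
  · intro s
    rw [← h3 (bls h s) (bls_mem hh2 s) ⟨s, rfl⟩]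
    refine Finset.card_bij (fun q _ => q.1) ?_ ?_ ?_
    · intro q hq
      rw [mem_filter] at hq ⊢
      refine ⟨q.2.1, ?_⟩
      rw [← haq q.1 q.2.1 (bls h s) (bls_mem hh2 s) q.2.2]
      exact congrArg Subtype.val hq.2
    · intro q _ q' _ h4
      exact Subtype.ext h4
    · intro q hq
      rw [mem_filter] at hq
      have hb : blc h q = bls h s := by
        rw [← hab q hq.1, hq.2]
      refine ⟨⟨q, hq.1, hb⟩, ?_, rfl⟩
      rw [mem_filter]
      refine ⟨mem_univ _, ?_⟩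
      apply Subtype.ext
      rw [haq q hq.1 _ _ hb]
      exact hq.2

end H77.LT
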