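import Pool.Agent.H77.LT.TFix
import Pool.Agent.H77.LT.Cover
import Pool.Agent.H77.LT.QStep

/-!
# Latin triangles: auxiliary facts for the end game (helper77)
-/

open Finset

namespace H77.LT

variable {m n h E : ℕ}

theorem fina_deg_line (LQ : Finset (Cell m)) (LE : Finset (Fin 3 × Fin m × Fin n)) (κ : Fin 3)
    (l : Fin m) : deg (cels LQ ∪ ents LE : Finset (Vt m n)) (Sum.inl (κ, l))
      = (LQ.filter (fun q => ln κ q = l)).card := by
  classical
  unfold deg cels ents
  rw [filter_union, filter_image, filter_image]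
  have h1 : (LE.filter (fun e => (Sum.inl (κ, l) : Star m n) ∈ star (Sum.inr e : Vt m n))) = ∅ := by
    apply filter_eq_empty_iff.2
    intro e _ he
    rw [show e = (e.1, e.2.1, e.2.2) from rfl, mem_star_inr] at he
    rcases he with he | he <;> exact absurd he (by simp)
  rw [h1, image_empty, union_empty, card_image_of_injective _ Sum.inl_injective]
  congr 1
  apply filter_congr
  intro q _
  rw [mem_star_inl]
  constructor
  · rintro ⟨κ', hκ'⟩
    have h2 := Sum.inl.inj hκ'
    simp only [Prod.mk.injEq] at h2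
    rw [h2.2, h2.1]
  · intro hq
    exact ⟨κ, by rw [hq]⟩

theorem fina_deg_ent (LQ : Finset (Cell m)) (LE : Finset (Fin 3 × Fin m × Fin n)) (κ : Fin 3)
    (l : Fin m) : deg (cels LQ ∪ ents LE : Finset (Vt m n)) (Sum.inr (Sum.inl (κ, l)))
      = (LE.filter (fun e => e.1 = κ ∧ e.2.1 = l)).card := by
  classical
  unfold deg cels ents
  rw [filter_union, filter_image, filter_image]
  have h1 : (LQ.filter (fun q => (Sum.inr (Sum.inl (κ, l)) : Star m n) ∈
      star (Sum.inl q : Vt m n))) = ∅ := by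
    apply filter_eq_empty_iff.2
    intro e _ he
    rw [mem_star_inl] at he
    obtain ⟨κ', he⟩ := he
    exact absurd he (by simp)
  rw [h1, image_empty, empty_union, card_image_of_injective _ Sum.inr_injective]
  congr 1
  apply filter_congr
  intro e _
  rw [show (Sum.inr e : Vt m n) = Sum.inr (e.1, e.2.1, e.2.2) from rfl, mem_star_inr]
  constructor
  · rintro (h2 | h2)
    · have h3 := Sum.inl.inj (Sum.inr.inj h2)
      simp only [Prod.mk.injEq] at h3
      exact ⟨h3.1.symm, h3.2.symm⟩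
    · exact absurd (Sum.inr.inj h2) (by simp)
  · rintro ⟨h2, h3⟩
    left
    rw [h2, h3]

theorem fina_deg_sym (LQ : Finset (Cell m)) (LE : Finset (Fin 3 × Fin m × Fin n)) (κ : Fin 3)
    (s : Fin n) : deg (cels LQ ∪ ents LE : Finset (Vt m n)) (Sum.inr (Sum.inr (κ, s)))
      = (LE.filter (fun e => e.1 = κ ∧ e.2.2 = s)).card := by
  classical
  unfold deg cels ents
  rw [filter_union, filter_image, filter_image]
  have h1 : (LQ.filter (fun q => (Sum.inr (Sum.inr (κ, s)) : Star m n) ∈
      star (Sum.inl q : Vt m n))) = ∅ := by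
    apply filter_eq_empty_iff.2
    intro e _ he
    rw [mem_star_inl] at he
    obtain ⟨κ', he⟩ := he
    exact absurd he (by simp)
  rw [h1, image_empty, empty_union, card_image_of_injective _ Sum.inr_injective]
  congr 1
  apply filter_congr
  intro e _
  rw [show (Sum.inr e : Vt m n) = Sum.inr (e.1, e.2.1, e.2.2) from rfl, mem_star_inr]
  constructor
  · rintro (h2 | h2)
    · exact absurd (Sum.inr.inj h2) (by simp)
    · have h3 := Sum.inr.inj (Sum.inr.inj h2)
      simp only [Prod.mk.injEq] at h3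
      exact ⟨h3.1.symm, h3.2.symm⟩
  · rintro ⟨h2, h3⟩
    right
    rw [h2, h3]

/-- the parts of the reserve not in `Used` -/
theorem fina_lx (XQ : Finset (Cell m)) (XE : Finset (Fin 3 × Fin m × Fin n))
    (Used : Finset (Vt m n)) :
    (cels (XQ.filter (fun q => (Sum.inl q : Vt m n) ∉ Used))
      ∪ ents (XE.filter (fun e => (Sum.inr e : Vt m n) ∉ Used)) : Finset (Vt m n))
      = (cels XQ ∪ ents XE) \ Used := by
  classical
  ext v
  simp only [cels, ents, mem_union, mem_image, mem_filter, mem_sdiff]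
  constructor
  · rintro (⟨q, ⟨h1, h2⟩, rfl⟩ | ⟨e, ⟨h1, h2⟩, rfl⟩)
    · exact ⟨Or.inl ⟨q, h1, rfl⟩, h2⟩
    · exact ⟨Or.inr ⟨e, h1, rfl⟩, h2⟩
  · rintro ⟨⟨q, h1, rfl⟩ | ⟨e, h1, rfl⟩, h2⟩
    · exact Or.inl ⟨q, ⟨h1, h2⟩, rfl⟩
    · exact Or.inr ⟨e, ⟨h1, h2⟩, rfl⟩

/-- the sum of `tw` over a set of cells and entries -/
theorem fina_tw (LQ : Finset (Cell m)) (LE : Finset (Fin 3 × Fin m × Fin n)) (δ : Fin 3 → ℕ) :
    ∑ v ∈ (cels LQ ∪ ents LE : Finset (Vt m n)), tw h δ v
      = ((LE.filter (fun e => e.1 = 0 ∧ bls h e.2.2 = δ)).card : ℤ)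
        - ((LQ.filter (fun q => blc h q = δ)).card : ℤ) := by
  classical
  have hd : Disjoint (cels LQ : Finset (Vt m n)) (ents LE) := by
    rw [disjoint_left]
    intro v hv hv'
    simp only [cels, ents, mem_image] at hv hv'
    obtain ⟨q, _, rfl⟩ := hv
    obtain ⟨e, _, he⟩ := hv'
    exact absurd he (by simp)
  rw [sum_union hd]
  unfold cels ents
  rw [sum_image (fun a _ b _ hab => Sum.inl.inj hab),
    sum_image (fun a _ b _ hab => Sum.inr.inj hab)]
  simp only [tw, sum_neg_distrib, ← sum_filter, sum_const, nsmul_eq_mul, mul_one]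
  ring

end H77.LT
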