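import Pool.Agent.H77.LT.FinA

/-!
# Latin triangles: the end game (helper77)
-/

open Finset

namespace H77.LT

variable {m n h E : ℕ}

theorem finb_cov_sub (P Q : Finset (Cell m × Fin n)) (hPQ : P ⊆ Q) : cov P ⊆ cov Q := by
  unfold cov
  exact biUnion_subset_biUnion_of_subset_left _ hPQ

theorem finb_cov_sdiff (P Q : Finset (Cell m × Fin n)) (hQ : Mat Q) (hPQ : P ⊆ Q) :
    Disjoint (cov P) (cov (Q \ P)) := by
  classical
  unfold cov
  rw [disjoint_biUnion_left]
  intro e he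
  rw [disjoint_biUnion_right]
  intro f hf
  rw [mem_sdiff] at hf
  exact hQ e (hPQ he) f hf.1 (fun hef => hf.2 (hef ▸ he))

theorem finb_cov_union (P Q : Finset (Cell m × Fin n)) (hPQ : P ⊆ Q) :
    cov P ∪ cov (Q \ P) = cov Q := by
  classical
  ext v
  simp only [cov, mem_union, mem_biUnion, mem_sdiff]
  constructor
  · rintro (⟨e, he, hv⟩ | ⟨e, he, hv⟩)
    · exact ⟨e, hPQ he, hv⟩
    · exact ⟨e, he.1, hv⟩
  · rintro ⟨e, he, hv⟩
    by_cases h1 : e ∈ P
    · exact Or.inl ⟨e, h1, hv⟩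
    · exact Or.inr ⟨e, ⟨he, h1⟩, hv⟩

theorem finb_mat_sub (P Q : Finset (Cell m × Fin n)) (hQ : Mat Q) (hPQ : P ⊆ Q) : Mat P :=
  fun e he f hf hef => hQ e (hPQ he) f (hPQ hf) hef

theorem finb (he : Even h) (hh : 10 ^ 6 ≤ h) (hE : 100 ≤ E) (hN : h ^ E ≤ 2 * m + 1)
    (n1 : 2 * m - 1 ≤ n) (F : Finset (Fin 3 × Fin m × Fin n)) (hF : Forb m n F)
    (XQ : Finset (Cell m)) (XE : Finset (Fin 3 × Fin m × Fin n)) (hres : Res m n h E F XQ XE)
    (PP : Finset (Cell m × Fin n)) (hPP : Mat PP)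
    (hPPd : Disjoint (cov PP) (cels XQ ∪ ents XE ∪ ents F))
    (hP : ∀ σ, (deg (cov PP) σ : ℝ) ≤ (2 * m + 1) / (h : ℝ) ^ 30)
    (hZ : ∀ β ∈ Blks h, ∀ γ ∈ Blks h, (2 * (m : ℝ) + 1) ^ 2 / (h : ℝ) ^ 70
        ≤ ((PP.filter (fun e => blc h e.1 = β ∧ bls h e.2 = γ)).card : ℝ))
    (Y : Finset (Fin 3 × Fin m × Fin n))
    (hY : ∀ e, e ∈ Y ↔ OnB h e ∧ e ∉ XE ∧ e ∉ F ∧ (Sum.inr e : Vt m n) ∉ cov PP)
    (A : Finset (Vt m n)) (hA : Disjoint A (cels XQ ∪ ents XE ∪ cov PP ∪ ents F ∪ ents Y))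
    (hflex : ∀ (LQ : Finset (Cell m)) (LE : Finset (Fin 3 × Fin m × Fin n)) (a : Cell m → Fin n),
        cels LQ ⊆ cels XQ ∪ ents XE ∪ cov PP ∪ ents F ∪ ents Y →
        ents LE ⊆ cels XQ ∪ ents XE ∪ cov PP ∪ ents F ∪ ents Y →
        Disjoint LE Y → (∀ e ∈ LE, OnB h e) →
        (∀ q ∈ LQ, ∀ κ, (κ, ln κ q, a q) ∈ Y) →
        (∀ q ∈ LQ, ∀ q' ∈ LQ, q ≠ q' → ∀ κ, ln κ q = ln κ q' → a q ≠ a q') →
        (∀ κ l, (LE.filter (fun e => e.1 = κ ∧ e.2.1 = l)).card
          = (LQ.filter (fun q => ln κ q = l)).card) →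
        (∀ κ s, (LE.filter (fun e => e.1 = κ ∧ e.2.2 = s)).card
          = (LQ.filter (fun q => a q = s)).card) →
        PM (A ∪ ents Y ∪ cels LQ ∪ ents LE))
    (hAY : PM (A ∪ ents Y))
    (M : Finset (Cell m × Fin n)) (hM : Mat M)
    (hMd : Disjoint (cov M) (cels XQ ∪ ents XE ∪ cov PP ∪ ents F ∪ ents Y ∪ A))
    (hMR : ∀ σ, (deg (univ \ (cels XQ ∪ ents XE ∪ cov PP ∪ ents F ∪ ents Y ∪ A ∪ cov M)) σ : ℝ)
      ≤ (2 * m + 1) / (h : ℝ) ^ 90) :
    PM (univ \ ents F : Finset (Vt m n)) := by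
  classical
  have hh2 : 2 ≤ h := le_trans (by norm_num) hh
  have h1h : (1 : ℝ) ≤ (h : ℝ) := by exact_mod_cast (le_trans (by norm_num) hh)
  have hN100 : h ^ 100 ≤ 2 * m + 1 :=
    (Nat.pow_le_pow_right (le_trans (by norm_num) hh) hE).trans hN
  have hm10 : 10 ≤ m := by
    have h2 : 2 ^ 100 ≤ h ^ 100 := Nat.pow_le_pow_left hh2 100
    have h3 : (32 : ℕ) ≤ 2 ^ 100 := by norm_num
    omega
  have hE20 : 20 ≤ E := le_trans (by norm_num) hE
  have hE90 : 90 ≤ E := le_trans (by norm_num) hE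
  have n2 : n ≤ 2 * m + 3 := hF.hn
  -- names
  set X : Finset (Vt m n) := cels XQ ∪ ents XE with hX
  set G : Finset (Vt m n) := A ∪ ents Y with hG
  set R : Finset (Vt m n) := univ \ (X ∪ cov PP ∪ ents F ∪ ents Y ∪ A ∪ cov M) with hR
  -- basic disjointness facts, pointwise
  have hPX : ∀ v ∈ cov PP, v ∉ X ∧ v ∉ (ents F : Finset (Vt m n)) := by
    intro v hv
    have := (disjoint_left.1 hPPd) hv
    rw [mem_union, not_or] at this
    exact this
  have hXF : ∀ v ∈ X, v ∉ (ents F : Finset (Vt m n)) := by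
    intro v hv hvF
    rw [hX, mem_union] at hv
    unfold cels at hv
    unfold ents at hv hvF
    rw [mem_image] at hvF
    obtain ⟨e, he1, rfl⟩ := hvF
    rcases hv with hv | hv
    · rw [mem_image] at hv
      obtain ⟨q, _, hq⟩ := hv
      exact absurd hq (by simp)
    · rw [mem_image] at hv
      obtain ⟨e', he', hq⟩ := hv
      rw [Sum.inr.inj hq] at he'
      exact (disjoint_left.1 hres.forb) he' he1
  have hYm : ∀ v ∈ (ents Y : Finset (Vt m n)), v ∉ X ∧ v ∉ (ents F : Finset (Vt m n)) ∧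
      v ∉ cov PP := by
    intro v hv
    unfold ents at hv
    rw [mem_image] at hv
    obtain ⟨e, he1, rfl⟩ := hv
    obtain ⟨_, h2, h3, h4⟩ := (hY e).1 he1
    refine ⟨?_, ?_, h4⟩
    · intro hv
      rw [hX, mem_union] at hv
      rcases hv with hv | hv
      · unfold cels at hv
        rw [mem_image] at hv
        obtain ⟨q, _, hq⟩ := hv
        exact absurd hq (by simp)
      · unfold ents at hv
        rw [mem_image] at hv
        obtain ⟨e', he', hq⟩ := hv
        rw [Sum.inr.inj hq] at he'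
        exact h2 he'
    · intro hv
      unfold ents at hv
      rw [mem_image] at hv
      obtain ⟨e', he', hq⟩ := hv
      rw [Sum.inr.inj hq] at he'
      exact h3 he'
  have hAm : ∀ v ∈ A, v ∉ X ∧ v ∉ cov PP ∧ v ∉ (ents F : Finset (Vt m n)) ∧
      v ∉ (ents Y : Finset (Vt m n)) := by
    intro v hv
    have := (disjoint_left.1 hA) hv
    simp only [mem_union, not_or] at this
    exact ⟨this.1.1.1, this.1.1.2, this.1.2, this.2⟩
  have hMm : ∀ v ∈ cov M, v ∉ X ∧ v ∉ cov PP ∧ v ∉ (ents F : Finset (Vt m n)) ∧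
      v ∉ (ents Y : Finset (Vt m n)) ∧ v ∉ A := by
    intro v hv
    have := (disjoint_left.1 hMd) hv
    simp only [mem_union, not_or] at this
    exact ⟨this.1.1.1.1, this.1.1.1.2, this.1.1.2, this.1.2, this.2⟩
  have hRm : ∀ v, v ∈ R ↔ (v ∉ X ∧ v ∉ cov PP ∧ v ∉ (ents F : Finset (Vt m n)) ∧
      v ∉ (ents Y : Finset (Vt m n)) ∧ v ∉ A ∧ v ∉ cov M) := by
    intro v
    rw [hR, mem_sdiff, mem_union, mem_union, mem_union, mem_union, mem_union, not_or, not_or, not_or,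
      not_or, not_or]
    exact ⟨fun h => ⟨h.2.1.1.1.1.1, h.2.1.1.1.1.2, h.2.1.1.1.2, h.2.1.1.2, h.2.1.2, h.2.2⟩,
      fun h => ⟨mem_univ _, ⟨⟨⟨⟨h.1, h.2.1⟩, h.2.2.1⟩, h.2.2.2.1⟩, h.2.2.2.2.1⟩, h.2.2.2.2.2⟩⟩
  have hdXR : Disjoint X R := by
    rw [disjoint_left]
    intro v hv hv'
    exact ((hRm v).1 hv').1 hv
  -- balance of X ∪ R
  have hPMM : PM (cov M : Finset (Vt m n)) := ⟨M, hM, rfl⟩
  have hPMP : PM (cov PP : Finset (Vt m n)) := ⟨PP, hPP, rfl⟩
  have hG0 : Bal (cov M ∪ cov PP ∪ G) := by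
    apply bal_union _ _ (bal_union _ _ (bal_PM _ hPMM) (bal_PM _ hPMP) _) (bal_PM _ hAY)
    · rw [disjoint_left]
      intro v hv hv'
      rw [hG, mem_union] at hv'
      rw [mem_union] at hv
      rcases hv with hv | hv
      · rcases hv' with hv' | hv'
        · exact (hMm v hv).2.2.2.2 hv'
        · exact (hMm v hv).2.2.2.1 hv'
      · rcases hv' with hv' | hv'
        · exact (hAm v hv').2.1 hv
        · exact (hYm v hv').2.2 hv
    · rw [disjoint_left]
      intro v hv hv'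
      exact (hMm v hv).2.1 hv'
  have hXR : X ∪ R = (univ \ ents F) \ (cov M ∪ cov PP ∪ G) := by
    ext v
    simp only [mem_union, mem_sdiff, mem_univ, true_and, hG, hRm v, not_or]
    constructor
    · rintro (hv | hv)
      · refine ⟨hXF v hv, ⟨fun h => (hMm v h).1 hv, fun h => (hPX v h).1 hv⟩,
          fun h => (hAm v h).1 hv, fun h => (hYm v h).1 hv⟩
      · exact ⟨hv.2.2.1, ⟨hv.2.2.2.2.2, hv.2.1⟩, hv.2.2.2.2.1, hv.2.2.2.1⟩
    · rintro ⟨h1, ⟨h2, h3⟩, h4, h5⟩
      by_cases hv : v ∈ X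
      · exact Or.inl hv
      · exact Or.inr ⟨hv, h3, h1, h5, h4, h2⟩
  have hbal : Bal (X ∪ R) := by
    rw [hXR]
    apply bal_sdiff _ _ (bal_univ F hF) hG0
    intro v hv
    rw [mem_sdiff]
    refine ⟨mem_univ _, ?_⟩
    rw [mem_union, mem_union, hG, mem_union] at hv
    rcases hv with (hv | hv) | (hv | hv)
    · exact (hMm v hv).2.2.1
    · exact (hPX v hv).2
    · exact (hAm v hv).2.2.1
    · exact (hYm v hv).2.1
  -- breaking special edges
  obtain ⟨Bk, hBk, hT0⟩ := tfix he hh2 hE90 hN hm10 n1 n2 F XQ XE hres PP hPP hZ R hMR hdXR hbal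
  -- the new leftover
  set R' : Finset (Vt m n) := R ∪ cov Bk with hR'
  have hBP : cov Bk ⊆ cov PP := finb_cov_sub Bk PP hBk
  have hR'X : Disjoint X R' := by
    rw [disjoint_left]
    intro v hv hv'
    rw [hR', mem_union] at hv'
    rcases hv' with hv' | hv'
    · exact ((hRm v).1 hv').1 hv
    · exact (hPX v (hBP hv')).1 hv
  have hR'deg : ∀ σ, (deg R' σ : ℝ) ≤ (2 * m + 1) / (h : ℝ) ^ 29 := by
    intro σ
    have h1 : deg R' σ ≤ deg R σ + deg (cov PP) σ :=
      (deg_union_le _ _ _).trans (Nat.add_le_add_left (deg_mono _ _ hBP σ) _)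
    have h2 : (deg R' σ : ℝ) ≤ (deg R σ : ℝ) + (deg (cov PP) σ : ℝ) := by exact_mod_cast h1
    have h3 := hMR σ
    have h4 := hP σ
    have h5 : (2 * (m : ℝ) + 1) / (h : ℝ) ^ 90 ≤ (2 * (m : ℝ) + 1) / (h : ℝ) ^ 30 := by
      apply div_le_div_of_nonneg_left (by positivity) (by positivity)
      exact pow_le_pow_right₀ h1h (by norm_num)
    have h6 : 2 * ((2 * (m : ℝ) + 1) / (h : ℝ) ^ 30) ≤ (2 * (m : ℝ) + 1) / (h : ℝ) ^ 29 := by
      have h2h : (2 : ℝ) ≤ (h : ℝ) := by exact_mod_cast hh2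
      rw [mul_div_assoc', div_le_div_iff₀ (by positivity) (by positivity)]
      have h7 : (h : ℝ) ^ 30 = (h : ℝ) ^ 29 * h := by ring
      rw [h7]
      have h8 : 0 ≤ (2 * (m : ℝ) + 1) * (h : ℝ) ^ 29 := by positivity
      nlinarith [mul_le_mul_of_nonneg_left h2h h8]
    linarith
  -- cover
  obtain ⟨f, hf1, hf2, hf3⟩ := cover hh hN100 n1 F XQ XE hres R' hR'deg hR'X
  set Used : Finset (Vt m n) := R'.biUnion (fun v => (ed (f v).1 (f v).2).erase v) with hUsed
  set CV : Finset (Vt m n) := R'.biUnion (fun v => ed (f v).1 (f v).2) with hCV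
  have hUX : Used ⊆ X := by
    rw [hUsed]
    intro w hw
    rw [mem_biUnion] at hw
    obtain ⟨v, hv, hw⟩ := hw
    exact (hf1 v hv).2 hw
  have hCVe : CV = R' ∪ Used := by
    ext w
    rw [hCV, hUsed, mem_union, mem_biUnion, mem_biUnion]
    constructor
    · rintro ⟨v, hv, hw⟩
      by_cases hwv : w = v
      · exact Or.inl (hwv ▸ hv)
      · exact Or.inr ⟨v, hv, mem_erase.2 ⟨hwv, hw⟩⟩
    · rintro (hw | ⟨v, hv, hw⟩)
      · exact ⟨w, hw, (hf1 w hw).1⟩
      · exact ⟨v, hv, (mem_erase.1 hw).2⟩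
  have hPMC : PM CV := by
    rw [hCV]
    apply PM_biUnion
    · intro v _
      exact PM_ed _ _
    · intro v hv w hw hvw
      exact hf2 v hv w hw hvw
  -- leftover of the reserve
  set LQ : Finset (Cell m) := XQ.filter (fun q => (Sum.inl q : Vt m n) ∉ Used) with hLQ
  set LE : Finset (Fin 3 × Fin m × Fin n) :=
    XE.filter (fun e => (Sum.inr e : Vt m n) ∉ Used) with hLE
  have hLX : (cels LQ ∪ ents LE : Finset (Vt m n)) = X \ Used := fina_lx XQ XE Used
  have hLQs : LQ ⊆ XQ := filter_subset _ _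
  have hLEs : LE ⊆ XE := filter_subset _ _
  -- the pieces
  have hPMP' : PM (cov (PP \ Bk) : Finset (Vt m n)) :=
    ⟨PP \ Bk, finb_mat_sub _ _ hPP sdiff_subset, rfl⟩
  have hPB : ∀ v ∈ cov (PP \ Bk), v ∈ cov PP ∧ v ∉ cov Bk := by
    intro v hv
    exact ⟨finb_cov_sub _ _ sdiff_subset hv,
      fun h' => (disjoint_left.1 (finb_cov_sdiff Bk PP hPP hBk)) h' hv⟩
  have hCm : ∀ v ∈ CV, v ∈ R ∨ v ∈ cov Bk ∨ v ∈ Used := by
    intro v hv
    rw [hCVe, hR', mem_union, mem_union] at hv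
    exact or_assoc.1 hv
  -- disjointness of the four matched pieces
  have d1 : Disjoint (cov M) (cov (PP \ Bk)) := by
    rw [disjoint_left]
    intro v hv hv'
    exact (hMm v hv).2.1 (hPB v hv').1
  have d2 : Disjoint (cov M ∪ cov (PP \ Bk)) CV := by
    rw [disjoint_left]
    intro v hv hv'
    rw [mem_union] at hv
    rcases hCm v hv' with h1 | h1 | h1
    · rcases hv with hv | hv
      · exact ((hRm v).1 h1).2.2.2.2.2 hv
      · exact ((hRm v).1 h1).2.1 (hPB v hv).1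
    · rcases hv with hv | hv
      · exact (hMm v hv).2.1 (hBP h1)
      · exact (hPB v hv).2 h1
    · rcases hv with hv | hv
      · exact (hMm v hv).1 (hUX h1)
      · exact (hPX v (hPB v hv).1).1 (hUX h1)
  have hGm : ∀ v ∈ G, v ∉ X ∧ v ∉ cov PP ∧ v ∉ (ents F : Finset (Vt m n)) ∧ v ∉ cov M ∧
      v ∉ R := by
    intro v hv
    rw [hG, mem_union] at hv
    rcases hv with hv | hv
    · exact ⟨(hAm v hv).1, (hAm v hv).2.1, (hAm v hv).2.2.1, fun h' => (hMm v h').2.2.2.2 hv,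
        fun h' => ((hRm v).1 h').2.2.2.2.1 hv⟩
    · exact ⟨(hYm v hv).1, (hYm v hv).2.2, (hYm v hv).2.1, fun h' => (hMm v h').2.2.2.1 hv,
        fun h' => ((hRm v).1 h').2.2.2.1 hv⟩
  have d3 : Disjoint (cov M ∪ cov (PP \ Bk) ∪ CV) G := by
    rw [disjoint_left]
    intro v hv hv'
    have h2 := hGm v hv'
    rw [mem_union, mem_union] at hv
    rcases hv with (hv | hv) | hv
    · exact h2.2.2.2.1 hv
    · exact h2.2.1 (hPB v hv).1
    · rcases hCm v hv with h1 | h1 | h1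
      · exact h2.2.2.2.2 h1
      · exact h2.2.1 (hBP h1)
      · exact h2.1 (hUX h1)
  have hLXe : X \ Used = (univ \ ents F) \ (cov M ∪ cov (PP \ Bk) ∪ CV ∪ G) := by
    ext v
    simp only [mem_sdiff, mem_univ, true_and, mem_union, not_or]
    constructor
    · rintro ⟨hv, hu⟩
      refine ⟨hXF v hv, ⟨⟨fun h' => (hMm v h').1 hv, fun h' => (hPX v (hPB v h').1).1 hv⟩,
        fun h' => ?_⟩, fun h' => (hGm v h').1 hv⟩
      rcases hCm v h' with h1 | h1 | h1
      · exact ((hRm v).1 h1).1 hv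
      · exact (hPX v (hBP h1)).1 hv
      · exact hu h1
    · rintro ⟨h1, ⟨⟨h2, h3⟩, h4⟩, h5⟩
      rw [hCVe, hR', mem_union, mem_union, not_or, not_or] at h4
      rw [hG, mem_union, not_or] at h5
      refine ⟨?_, h4.2⟩
      by_contra hv
      apply h4.1.1
      rw [hRm v]
      refine ⟨hv, ?_, h1, h5.2, h5.1, h2⟩
      intro h6
      rw [← finb_cov_union Bk PP hBk, mem_union] at h6
      rcases h6 with h6 | h6
      · exact h4.1.2 h6
      · exact h3 h6
  have hsub1 : cov M ∪ cov (PP \ Bk) ∪ CV ∪ G ⊆ (univ \ ents F : Finset (Vt m n)) := by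
    intro v hv
    rw [mem_sdiff]
    refine ⟨mem_univ _, ?_⟩
    rw [mem_union, mem_union, mem_union] at hv
    rcases hv with ((hv | hv) | hv) | hv
    · exact (hMm v hv).2.2.1
    · exact (hPX v (hPB v hv).1).2
    · rcases hCm v hv with h1 | h1 | h1
      · exact ((hRm v).1 h1).2.2.1
      · exact (hPX v (hBP h1)).2
      · exact hXF v (hUX h1)
    · exact (hGm v hv).2.2.1
  have hbalL : Bal (cels LQ ∪ ents LE : Finset (Vt m n)) := by
    rw [hLX, hLXe]
    apply bal_sdiff _ _ (bal_univ F hF) _ hsub1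
    exact bal_union _ _ (bal_union _ _ (bal_union _ _ (bal_PM _ hPMM) (bal_PM _ hPMP') d1)
      (bal_PM _ hPMC) d2) (bal_PM _ hAY) d3
  -- T = 0
  have hTL : ∀ δ ∈ Blks h, ∑ v ∈ (cels LQ ∪ ents LE : Finset (Vt m n)), tw h δ v = 0 := by
    intro δ hδ
    rw [hLX]
    have h1 : ∑ v ∈ X \ Used, tw h δ v + ∑ v ∈ Used, tw h δ v = ∑ v ∈ X, tw h δ v :=
      sum_sdiff hUX
    have h2 : ∑ v ∈ Used, tw h δ v = ∑ v ∈ R', ∑ w ∈ (ed (f v).1 (f v).2).erase v, tw h δ w := by
      rw [hUsed]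
      apply sum_biUnion
      intro v hv w hw hvw
      exact disjoint_of_subset_left (erase_subset _ _)
        (disjoint_of_subset_right (erase_subset _ _) (hf2 v hv w hw hvw))
    have h3 : ∀ v ∈ R', ∑ w ∈ (ed (f v).1 (f v).2).erase v, tw h δ w = - dd h δ v := by
      intro v hv
      obtain ⟨h4, h5⟩ := hf1 v hv
      have h6 := dd_cov (h := h) (f v).1 (f v).2 δ v h4 (by
        intro κ hκ
        have h7 : (Sum.inr (κ, ln κ (f v).1, (f v).2) : Vt m n) ∈
            (ed (f v).1 (f v).2).erase v := by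
          rw [mem_erase]
          refine ⟨hκ, ?_⟩
          unfold ed
          rw [mem_insert, mem_image]
          exact Or.inr ⟨κ, mem_univ _, rfl⟩
        have h8 := h5 h7
        rw [mem_union] at h8
        rcases h8 with h8 | h8
        · unfold cels at h8
          rw [mem_image] at h8
          obtain ⟨q, _, hq⟩ := h8
          exact absurd hq (by simp)
        · unfold ents at h8
          rw [mem_image] at h8
          obtain ⟨e', he', hq⟩ := h8
          rw [Sum.inr.inj hq] at he'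
          exact hres.board _ he')
      have h7 := sum_erase_add (ed (f v).1 (f v).2) (tw h δ) h4
      linarith
    have h4 : ∑ v ∈ R', dd h δ v = ∑ v ∈ R, dd h δ v + ∑ v ∈ cov Bk, dd h δ v := by
      rw [hR']
      apply sum_union
      rw [disjoint_left]
      intro v hv hv'
      exact ((hRm v).1 hv).2.1 (hBP hv')
    have h5 := hT0 δ hδ
    rw [sum_congr rfl h3, sum_neg_distrib, h4] at h2
    linarith
  have hT : ∀ γ ∈ Blks h, (LE.filter (fun e => e.1 = 0 ∧ bls h e.2.2 = γ)).card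
      = (LQ.filter (fun q => blc h q = γ)).card := by
    intro γ hγ
    have h1 := hTL γ hγ
    rw [fina_tw] at h1
    have h2 : ((LE.filter (fun e => e.1 = 0 ∧ bls h e.2.2 = γ)).card : ℤ)
        = ((LQ.filter (fun q => blc h q = γ)).card : ℤ) := by linarith
    exact_mod_cast h2
  have hL : ∀ s, ((XE.filter (fun e => e.1 = 0 ∧ e.2.2 = s)).card : ℝ)
      - (2 * m + 1) / (h : ℝ) ^ 14 ≤ ((LE.filter (fun e => e.1 = 0 ∧ e.2.2 = s)).card : ℝ) := by
    intro s
    have h1 := hf3 (Sum.inr (Sum.inr (0, s)))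
    have h2 : deg (X : Finset (Vt m n)) (Sum.inr (Sum.inr (0, s)))
        ≤ deg (cels LQ ∪ ents LE : Finset (Vt m n)) (Sum.inr (Sum.inr (0, s)))
          + deg Used (Sum.inr (Sum.inr (0, s))) := by
      refine le_trans (deg_mono _ _ ?_ _) (deg_union_le _ _ _)
      rw [hLX]
      intro v hv
      rw [mem_union, mem_sdiff]
      by_cases h' : v ∈ Used
      · exact Or.inr h'
      · exact Or.inl ⟨hv, h'⟩
    rw [hX, fina_deg_sym, fina_deg_sym] at h2
    have h3 : ((XE.filter (fun e => e.1 = 0 ∧ e.2.2 = s)).card : ℝ)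
        ≤ ((LE.filter (fun e => e.1 = 0 ∧ e.2.2 = s)).card : ℝ)
          + (deg Used (Sum.inr (Sum.inr (0, s))) : ℝ) := by exact_mod_cast h2
    linarith
  obtain ⟨a, ha1, ha2, ha3⟩ := qstep he hh hE20 hN100 n1 F hF XQ XE hres PP hP Y
    (fun e h1 h2 h3 h4 => (hY e).2 ⟨h1, h2, h3, h4⟩) LQ LE hLQs hLEs hL hT
  have hfin : PM (A ∪ ents Y ∪ cels LQ ∪ ents LE) := by
    apply hflex LQ LE a
    · intro v hv
      have : v ∈ X := by
        rw [hX, mem_union]
        exact Or.inl (image_subset_image hLQs hv)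
      exact mem_union_left _ (mem_union_left _ (mem_union_left _ this))
    · intro v hv
      have : v ∈ X := by
        rw [hX, mem_union]
        exact Or.inr (image_subset_image hLEs hv)
      exact mem_union_left _ (mem_union_left _ (mem_union_left _ this))
    · rw [disjoint_left]
      intro e he1 he2
      exact ((hY e).1 he2).2.1 (hLEs he1)
    · intro e he1
      exact hres.board e (hLEs he1)
    · exact ha1
    · exact ha2
    · intro κ l
      have h1 := hbalL.1 κ l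
      rw [fina_deg_line, fina_deg_ent] at h1
      exact h1.symm
    · intro κ s
      have h1 := hbalL.2 κ 0 s
      rw [fina_deg_sym, fina_deg_sym] at h1
      rw [h1]
      exact ha3 s
  have hG' : A ∪ ents Y ∪ cels LQ ∪ ents LE = G ∪ (X \ Used) := by
    rw [union_assoc, hLX]
  have hall : (univ \ ents F : Finset (Vt m n))
      = cov M ∪ cov (PP \ Bk) ∪ CV ∪ (A ∪ ents Y ∪ cels LQ ∪ ents LE) := by
    rw [hG', hLXe, ← union_assoc]
    exact (union_sdiff_of_subset hsub1).symm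
  rw [hall]
  apply PM_union _ _ (PM_union _ _ (PM_union _ _ hPMM hPMP' d1) hPMC d2) hfin
  rw [hG', hLXe]
  rw [disjoint_left]
  intro v hv hv'
  rw [mem_union] at hv'
  rcases hv' with hv' | hv'
  · exact (disjoint_left.1 d3) hv hv'
  · rw [mem_sdiff, mem_union, not_or] at hv'
    exact hv'.2.1 hv

end H77.LT
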