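import Mathlib

/-!
# [H77 LT HEX] Choice of the parameter `h`

Proof. `h = 2 * 10^9 * (Nat.log 2 (2m+1) + 2)^4`; it is even, it tends to infinity, and
`h^H ≤ 2m+1` for large `m` (powers of logarithms are `o(m)`).
-/

namespace H77.LT

private theorem hex_growth (H : ℕ) : ∃ L0 : ℕ, ∀ L, L0 ≤ L →
    (2 * (10 ^ 9 * (L + 2) ^ 4)) ^ H ≤ 2 ^ L := by
  have h1 := tendsto_pow_const_div_const_pow_of_one_lt (4 * H) (r := (2 : ℝ)) (by norm_num)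
  have hc : (0 : ℝ) < 1 / (4 * (2 * 10 ^ 9) ^ H) := by positivity
  have h2 := h1.eventually (gt_mem_nhds hc)
  obtain ⟨L0, hL0⟩ := Filter.eventually_atTop.1 h2
  refine ⟨L0, fun L hL => ?_⟩
  have h3 := hL0 (L + 2) (by omega)
  rw [div_lt_div_iff₀ (by positivity) (by positivity)] at h3
  have h4 : (((2 * (10 ^ 9 * (L + 2) ^ 4)) ^ H : ℕ) : ℝ) ≤ ((2 ^ L : ℕ) : ℝ) := by
    rw [Nat.cast_pow, Nat.cast_mul, Nat.cast_mul, Nat.cast_pow, Nat.cast_pow, Nat.cast_pow]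
    simp only [Nat.cast_add, Nat.cast_ofNat] at h3 ⊢
    have h5 : (2 * (10 ^ 9 * ((L : ℝ) + 2) ^ 4)) ^ H =
        (2 * 10 ^ 9) ^ H * ((L : ℝ) + 2) ^ (4 * H) := by
      rw [← mul_assoc, mul_pow, ← pow_mul]
    rw [h5]
    have h6 : (2 : ℝ) ^ (L + 2) = 4 * 2 ^ L := by rw [pow_add]; ring
    rw [h6] at h3
    linarith
  exact_mod_cast h4

theorem hex (H h0 : ℕ) : ∃ m0 : ℕ, ∀ m, m0 ≤ m → ∃ h : ℕ, Even h ∧ h0 ≤ h ∧
    h ^ H ≤ 2 * m + 1 ∧ 10 ^ 9 * (Nat.log 2 (2 * m + 1) + 2) ^ 4 ≤ h := by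
  obtain ⟨L0, hL0⟩ := hex_growth H
  refine ⟨2 ^ (max L0 h0), fun m hm => ?_⟩
  set L := Nat.log 2 (2 * m + 1) with hL
  have h1 : max L0 h0 ≤ L := by
    rw [hL]
    apply Nat.le_log_of_pow_le (by norm_num)
    omega
  have hA : L0 ≤ L := (le_max_left _ _).trans h1
  have hB : h0 ≤ L := (le_max_right _ _).trans h1
  have hLm : 2 ^ L ≤ 2 * m + 1 := Nat.pow_log_le_self 2 (by omega)
  refine ⟨2 * (10 ^ 9 * (L + 2) ^ 4), even_two_mul _, ?_, (hL0 L hA).trans hLm, ?_⟩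
  · have h2 : L + 2 ≤ (L + 2) ^ 4 := Nat.le_self_pow (by norm_num) _
    calc h0 ≤ L + 2 := by omega
      _ ≤ (L + 2) ^ 4 := h2
      _ ≤ 2 * (10 ^ 9 * (L + 2) ^ 4) := by omega
  · omega

end H77.LT
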