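import Pool.Agent.H77.LT.TdA

/-!
# [H77 LT IMB] The imbalance of the set `C`

`C` is the disjoint union of `X = cels XQ ∪ ents XE`, `ents F`, and a balanced set `W`. By `deg_union_eq`
the line imbalance of `C` (without the forbidden entries) is that of `X`, at most `2 N/h^E`
(`Res.qline`, `Res.eline`; `Forb.line` says that the entry degree of `F` on a line is `n - (2m-1)`), and
the symbol imbalance is that of `X` as well (`Forb.symb`, `Res.esymb`). `2 N/h^E ≤ N/h^c`.
-/

open Finset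

namespace H77.LT

variable {m n h E c : ℕ}

private theorem imb_cels_inl (XQ : Finset (Cell m)) (κ : Fin 3) (l : Fin m) :
    deg (cels XQ : Finset (Vt m n)) (Sum.inl (κ, l)) = (XQ.filter (fun q => ln κ q = l)).card := by
  unfold deg cels
  rw [Finset.filter_image, Finset.card_image_of_injective _ Sum.inl_injective]
  congr 1
  apply Finset.filter_congr
  intro q _
  rw [mem_star_inl]
  constructor
  · rintro ⟨κ', h⟩
    have h1 := Sum.inl.inj h
    simp only [Prod.mk.injEq] at h1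
    obtain ⟨rfl, h2⟩ := h1
    exact h2.symm
  · rintro h
    exact ⟨κ, by rw [h]⟩

private theorem imb_cels_inr (XQ : Finset (Cell m)) (τ : (Fin 3 × Fin m) ⊕ (Fin 3 × Fin n)) :
    deg (cels XQ : Finset (Vt m n)) (Sum.inr τ) = 0 := by
  unfold deg cels
  rw [Finset.card_eq_zero, Finset.filter_eq_empty_iff]
  intro v hv h
  rw [Finset.mem_image] at hv
  obtain ⟨q, _, rfl⟩ := hv
  rw [mem_star_inl] at h
  obtain ⟨κ, h⟩ := h
  exact absurd h (by simp)

private theorem imb_ents_inl (XE : Finset (Fin 3 × Fin m × Fin n)) (τ : Fin 3 × Fin m) :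
    deg (ents XE : Finset (Vt m n)) (Sum.inl τ) = 0 := by
  unfold deg ents
  rw [Finset.card_eq_zero, Finset.filter_eq_empty_iff]
  intro v hv h
  rw [Finset.mem_image] at hv
  obtain ⟨⟨κ, l, s⟩, _, rfl⟩ := hv
  rw [mem_star_inr] at h
  rcases h with h | h <;> exact absurd h (by simp)

private theorem imb_ents_line (XE : Finset (Fin 3 × Fin m × Fin n)) (κ : Fin 3) (l : Fin m) :
    deg (ents XE : Finset (Vt m n)) (Sum.inr (Sum.inl (κ, l))) =
      (XE.filter (fun e => e.1 = κ ∧ e.2.1 = l)).card := by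
  unfold deg ents
  rw [Finset.filter_image, Finset.card_image_of_injective _ Sum.inr_injective]
  congr 1
  apply Finset.filter_congr
  rintro ⟨κ', l', s'⟩ _
  rw [mem_star_inr]
  simp only [Sum.inr.injEq, Sum.inl.injEq, Prod.mk.injEq, reduceCtorEq, or_false]
  exact ⟨fun h => ⟨h.1.symm, h.2.symm⟩, fun h => ⟨h.1.symm, h.2.symm⟩⟩

private theorem imb_ents_symb (XE : Finset (Fin 3 × Fin m × Fin n)) (κ : Fin 3) (s : Fin n) :
    deg (ents XE : Finset (Vt m n)) (Sum.inr (Sum.inr (κ, s))) =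
      (XE.filter (fun e => e.1 = κ ∧ e.2.2 = s)).card := by
  unfold deg ents
  rw [Finset.filter_image, Finset.card_image_of_injective _ Sum.inr_injective]
  congr 1
  apply Finset.filter_congr
  rintro ⟨κ', l', s'⟩ _
  rw [mem_star_inr]
  simp only [Sum.inr.injEq, Prod.mk.injEq, reduceCtorEq, false_or]
  exact ⟨fun h => ⟨h.1.symm, h.2.symm⟩, fun h => ⟨h.1.symm, h.2.symm⟩⟩

theorem imb (hh : 2 ≤ h) (hE : c + 1 ≤ E)
    (F : Finset (Fin 3 × Fin m × Fin n)) (hF : Forb m n F)
    (XQ : Finset (Cell m)) (XE : Finset (Fin 3 × Fin m × Fin n)) (hres : Res m n h E F XQ XE)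
    (W : Finset (Vt m n)) (hW : Bal W) (hWF : Disjoint W (ents F))
    (hWX : Disjoint W (cels XQ ∪ ents XE)) :
    (∀ κ l, |(deg (cels XQ ∪ ents XE ∪ ents F ∪ W) (Sum.inl (κ, l)) : ℝ)
        - ((deg (cels XQ ∪ ents XE ∪ ents F ∪ W) (Sum.inr (Sum.inl (κ, l))) : ℝ)
          - (n - (2 * m - 1)))|
      ≤ (2 * m + 1) / (h : ℝ) ^ c) ∧
    (∀ κ κ' s, |(deg (cels XQ ∪ ents XE ∪ ents F ∪ W) (Sum.inr (Sum.inr (κ, s))) : ℝ)
        - deg (cels XQ ∪ ents XE ∪ ents F ∪ W) (Sum.inr (Sum.inr (κ', s)))|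
      ≤ (2 * m + 1) / (h : ℝ) ^ c) := by
  have hd1 : Disjoint (cels XQ : Finset (Vt m n)) (ents XE) := by
    rw [Finset.disjoint_left]
    intro v hv hv'
    unfold cels at hv
    unfold ents at hv'
    rw [Finset.mem_image] at hv hv'
    obtain ⟨q, _, rfl⟩ := hv
    obtain ⟨e, _, he⟩ := hv'
    exact absurd he (by simp)
  have hd2 : Disjoint (cels XQ ∪ ents XE : Finset (Vt m n)) (ents F) := by
    rw [Finset.disjoint_union_left]
    constructor
    · rw [Finset.disjoint_left]
      intro v hv hv'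
      unfold cels at hv
      unfold ents at hv'
      rw [Finset.mem_image] at hv hv'
      obtain ⟨q, _, rfl⟩ := hv
      obtain ⟨e, _, he⟩ := hv'
      exact absurd he (by simp)
    · unfold ents
      rw [Finset.disjoint_image Sum.inr_injective]
      exact hres.forb
  have hd3 : Disjoint (cels XQ ∪ ents XE ∪ ents F : Finset (Vt m n)) W := by
    rw [Finset.disjoint_union_left]
    exact ⟨hWX.symm, hWF.symm⟩
  have hdeg : ∀ σ, deg (cels XQ ∪ ents XE ∪ ents F ∪ W) σ =
      deg (cels XQ : Finset (Vt m n)) σ + deg (ents XE : Finset (Vt m n)) σ +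
        deg (ents F : Finset (Vt m n)) σ + deg W σ := by
    intro σ
    rw [deg_union_eq _ _ hd3, deg_union_eq _ _ hd2, deg_union_eq _ _ hd1]
  have hh0 : (0 : ℝ) < h := by
    have : (2 : ℝ) ≤ h := by exact_mod_cast hh
    linarith
  have hh2 : (2 : ℝ) ≤ h := by exact_mod_cast hh
  have hpow : 2 * ((2 * (m : ℝ) + 1) / (h : ℝ) ^ E) ≤ (2 * m + 1) / (h : ℝ) ^ c := by
    have h1 : 2 * (h : ℝ) ^ c ≤ (h : ℝ) ^ E := by
      calc 2 * (h : ℝ) ^ c ≤ h * (h : ℝ) ^ c := by
            refine mul_le_mul_of_nonneg_right hh2 (by positivity)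
        _ = (h : ℝ) ^ (c + 1) := by rw [pow_succ]; ring
        _ ≤ (h : ℝ) ^ E := pow_le_pow_right₀ (by linarith) hE
    rw [← mul_div_assoc, div_le_div_iff₀ (by positivity) (by positivity)]
    have h2 : (0 : ℝ) ≤ 2 * m + 1 := by positivity
    nlinarith [mul_le_mul_of_nonneg_left h1 h2]
  constructor
  · intro κ l
    have hm : 1 ≤ m := by
      have := l.2
      omega
    rw [hdeg, hdeg, imb_cels_inl, imb_ents_inl, imb_ents_inl, imb_cels_inr, imb_ents_line,
      imb_ents_line, ← hW.1 κ l]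
    have h1 := hres.qline κ l
    have h2 := hres.eline κ l
    have h3 := hF.line κ l
    have h4 : ((F.filter (fun e => e.1 = κ ∧ e.2.1 = l)).card : ℝ) + (2 * m - 1) = n := by
      have h5 : (((F.filter (fun e => e.1 = κ ∧ e.2.1 = l)).card + (2 * m - 1) : ℕ) : ℝ) =
          (n : ℝ) := by exact_mod_cast h3
      rw [Nat.cast_add, Nat.cast_sub (by omega)] at h5
      push_cast at h5
      exact h5
    rw [abs_le] at h1 h2 ⊢
    push_cast
    constructor <;> linarith [h1.1, h1.2, h2.1, h2.2]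
  · intro κ κ' s
    rw [hdeg, hdeg, imb_cels_inr, imb_cels_inr, imb_ents_symb, imb_ents_symb, imb_ents_symb,
      imb_ents_symb, hW.2 κ κ' s, hF.symb κ κ' s]
    have h1 := hres.esymb κ s
    have h2 := hres.esymb κ' s
    rw [abs_le] at h1 h2 ⊢
    push_cast
    constructor <;> linarith [h1.1, h1.2, h2.1, h2.2]

end H77.LT
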