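import Pool.Agent.H69.NB.Iter
import Pool.Agent.H73.LT.BoostD
import Pool.Agent.H73.LT.NibA

/-!
# [H77 LT MAINNIB] (owner: helper73) Boosting and main nibble. STATEMENT

`C` is the set of vertices which are set aside (it contains the forbidden entries); it has at most
`N/h` vertices in each star and it is balanced up to `N/h^c1`. Then there is a matching avoiding
`C` which leaves at most `N/h^k0` vertices outside `C` uncovered in each star.

Proof: boosting (proposals 83, section 5) gives near uniform weights on the edges avoiding `C` with all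
vertex sums `1 ± h^(-c)`; then the abstract nibble (helper69).
-/

open Finset

namespace H77.LT

set_option synthInstance.maxSize 1000 in
theorem main_nib (k0 : ℕ) : ∃ c1 H h0 : ℕ, ∀ (m n h : ℕ) (F : Finset (Fin 3 × Fin m × Fin n))
    (C : Finset (Vt m n)), h0 ≤ h → h ^ H ≤ 2 * m + 1 → Forb m n F → ents F ⊆ C →
    (∀ σ, (deg C σ : ℝ) ≤ (2 * m + 1) / (h : ℝ)) →
    (∀ κ l, |(deg C (Sum.inl (κ, l)) : ℝ)
        - ((deg C (Sum.inr (Sum.inl (κ, l))) : ℝ) - (n - (2 * m - 1)))|
      ≤ (2 * m + 1) / (h : ℝ) ^ c1) →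
    (∀ κ κ' s, |(deg C (Sum.inr (Sum.inr (κ, s))) : ℝ) - deg C (Sum.inr (Sum.inr (κ', s)))|
      ≤ (2 * m + 1) / (h : ℝ) ^ c1) →
    ∃ M : Finset (Cell m × Fin n), Mat M ∧ Disjoint (cov M) C ∧
      ∀ σ, (deg (univ \ (C ∪ cov M)) σ : ℝ) ≤ (2 * m + 1) / (h : ℝ) ^ k0 := by
  obtain ⟨c, H, N0, hnib⟩ := H69NB.nibble k0
  obtain ⟨h0, hboost⟩ := Bst.boost c
  refine ⟨c + 1, H + 1, h0 + N0 + 3, ?_⟩
  intro m n h F C hh hH hF hFC hC hb1 hb2
  have hh1 : 1 ≤ h := by omega
  have hhN : h ≤ 2 * m + 1 := by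
    calc h = h ^ 1 := (pow_one h).symm
      _ ≤ h ^ (H + 1) := Nat.pow_le_pow_right hh1 (by omega)
      _ ≤ _ := hH
  have hHN : h ^ H ≤ 2 * m + 1 := (Nat.pow_le_pow_right hh1 (by omega)).trans hH
  have hm : 1 ≤ m := by omega
  have hn2 : n ≤ 2 * m + 3 := hF.hn
  have hn1 : 2 * m - 1 ≤ n := by
    have := hF.line 0 ⟨0, by omega⟩
    omega
  obtain ⟨w, hw, hw1, hw2⟩ := hboost m n h C (by omega) hhN hn1 hn2 hC hb1 hb2
  have hcast : ((2 * m + 1 : ℕ) : ℝ) = 2 * m + 1 := by push_cast; ring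
  have hsub : ∀ e ∈ univ.filter (fun e : Cell m × Fin n => Bst.Av C e.1 e.2),
      (ed e.1 e.2 : Finset (Vt m n)) ⊆ univ \ C := by
    intro e he
    have h1 : Disjoint (ed e.1 e.2 : Finset (Vt m n)) C := (mem_filter.1 he).2
    intro v hv
    rw [mem_sdiff]
    exact ⟨mem_univ _, fun hvC => (Finset.disjoint_left.1 h1) hv hvC⟩
  obtain ⟨M, hME, hMd, hMs⟩ := hnib (2 * m + 1) h (by omega) (by omega) hHN
    (univ.filter (fun e : Cell m × Fin n => Bst.Av C e.1 e.2)) (fun e => ed e.1 e.2)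
    (univ \ C) (fun e => w e.1 e.2)
    (univ.image (fun σ : Star m n => (univ \ C).filter (fun v => σ ∈ star v)))
    ((card_le_card (sdiff_subset)).trans (Bst.card_vert hm hn2))
    (card_image_le.trans (Bst.card_stars hm hn2))
    hsub (fun e _ => card_ed e.1 e.2) (fun e _ => (hw e.1 e.2).1)
    (fun e _ => by
      rw [hcast]
      exact (hw e.1 e.2).2)
    (fun u v huv => le_trans (card_le_card (fun e he => by
      rw [mem_filter, mem_filter]
      exact ⟨⟨mem_univ _, (mem_filter.1 he).2.1⟩, (mem_filter.1 he).2.2⟩)) (Bst.codeg u v huv))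
    (by
      intro v hv
      have hvC : v ∉ C := (mem_sdiff.1 hv).2
      rcases v with q | ⟨κ, l, s⟩
      · rw [Bst.sum_cell]
        exact hw1 q hvC
      · rw [Bst.sum_entry]
        exact hw2 κ l s hvC)
    (by
      intro σ hσ
      obtain ⟨τ, _, rfl⟩ := mem_image.1 hσ
      refine ⟨filter_subset _ _, Bst.star_card hF C hFC τ, ?_⟩
      intro e _
      refine le_trans (card_le_card ?_) (Bst.ed_star e.1 e.2 τ)
      intro v hv
      rw [mem_inter, mem_filter] at hv
      exact mem_filter.2 ⟨hv.1, hv.2.2⟩)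
  refine ⟨M, ?_, ?_, ?_⟩
  · intro e he f hf hef
    exact hMd he hf hef
  · rw [Finset.disjoint_left]
    intro v hv hvC
    obtain ⟨e, he, hve⟩ := mem_biUnion.1 hv
    exact (mem_sdiff.1 (hsub e (hME he) hve)).2 hvC
  · intro σ
    have h1 := hMs _ (mem_image_of_mem _ (mem_univ σ))
    rw [hcast] at h1
    refine le_trans ?_ h1
    have h2 : (univ \ (C ∪ cov M)).filter (fun v => σ ∈ star v) ⊆
        ((univ \ C).filter (fun v => σ ∈ star v)) \ M.biUnion (fun e => ed e.1 e.2) := by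
      intro v hv
      rw [mem_filter, mem_sdiff, mem_union, not_or] at hv
      rw [mem_sdiff, mem_filter, mem_sdiff]
      exact ⟨⟨⟨mem_univ _, hv.1.2.1⟩, hv.2⟩, hv.1.2.2⟩
    unfold deg
    exact_mod_cast card_le_card h2

end H77.LT
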