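import Pool.Agent.H77.LT.Blocks
import Pool.Agent.H73.LT.RsvM

/-!
# [H77 LT RESERVE] (owner: helper73) Existence of the reserve. STATEMENT

`XQ`: each cell with probability `x0 h`; `XE`: each board entry not in `F` with probability
`x0 h * KK h κ`, all independent. All statistics in `Res` are concentrated
(`EXc`: Bernstein for Lipschitz functions; every random element occurs in at most two of the counted
configurations), and their expectations are computed from the counts of residues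
modulo `KK h κ` on lines (the three moduli are pairwise coprime as `h` is even).
-/

open Finset

namespace H77.LT

theorem exists_reserve (E : ℕ) : ∃ H h0 : ℕ, ∀ (m n h : ℕ) (F : Finset (Fin 3 × Fin m × Fin n)),
    Even h → h0 ≤ h → h ^ H ≤ 2 * m + 1 → Forb m n F →
    ∃ (XQ : Finset (Cell m)) (XE : Finset (Fin 3 × Fin m × Fin n)), Res m n h E F XQ XE := by
  obtain ⟨h0, hg⟩ := Rsv.good_exists E
  refine ⟨4 * (E + 20) + 60, h0 + 10 ^ 10, ?_⟩
  intro m n h F he hh hN hF
  have hh1 : 1 ≤ h := by omega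
  have hh2 : 2 ≤ h := by omega
  have hh10 : 10 ^ 10 ≤ h := by omega
  have hN1 : h ^ (E + 60) ≤ 2 * m + 1 := (Nat.pow_le_pow_right hh1 (by omega)).trans hN
  obtain ⟨T, hT⟩ := hg m n h F (by omega) hN hF.hn
  have hsub := hT.sub
  refine ⟨Rsv.XQ T, Rsv.XE T, ?_⟩
  have hdev : ∀ {a b c d t : ℝ}, |a - b| < t → |b - c| + t ≤ d → |a - c| ≤ d := by
    intro a b c d t h1 h2
    calc |a - c| = |(a - b) + (b - c)| := by congr 1; ring
      _ ≤ |a - b| + |b - c| := abs_add_le _ _
      _ ≤ d := by linarith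
  have hm3 : ∀ (κ : Fin 3) (l : Fin m), (1 : ℝ) ≤ m := by
    intro κ l
    have := l.isLt
    have : 1 ≤ m := by omega
    exact_mod_cast this
  refine ⟨?_, ?_, ?_, ?_, ?_, ?_, ?_, ?_, ?_, ?_⟩
  · intro e he2
    exact (Rsv.xe_adm hsub he2).1
  · rw [Finset.disjoint_left]
    intro e he2
    exact (Rsv.xe_adm hsub he2).2
  · intro κ l
    rw [Rsv.tr_ql]
    have h1 := hT.ql κ l
    unfold Rsv.Dev at h1
    rw [Rsv.mean_C] at h1
    have h2 : ((Rsv.sQl κ l).card : ℝ) = 2 * m - 1 := by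
      unfold Rsv.sQl
      rw [card_line, Nat.cast_sub (by have := l.isLt; omega)]
      push_cast
      ring
    rw [h2] at h1
    exact hdev h1 (Rsv.nm_ql hh10 hN1)
  · intro κ l
    rw [Rsv.tr_el hsub]
    have h1 := hT.el κ l
    unfold Rsv.Dev at h1
    rw [Rsv.mean_El] at h1
    exact hdev h1 (Rsv.nm_el hh10 hN1 κ _ (Rsv.cg_el hh2 hF κ l))
  · intro κ s
    rw [Rsv.tr_es hsub]
    have h1 := hT.es κ s
    unfold Rsv.Dev at h1
    rw [Rsv.mean_Es] at h1
    exact hdev h1 (Rsv.nm_es hh10 hN1 κ _ (Rsv.cg_es hh2 hF κ s))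
  · intro q
    rw [Rsv.tr_sq hsub]
    have h1 := hT.sq q
    unfold Rsv.Dev at h1
    rw [Rsv.mean_Sq] at h1
    have h2 := Rsv.nm_sq hh10 hN1 _ (Rsv.cg_sq hh2 he hF q)
    have h3 := (abs_lt.1 h1).1
    linarith
  · intro κ l s
    rw [Rsv.tr_se hsub]
    have h1 := hT.se κ l s
    unfold Rsv.Dev at h1
    rw [Rsv.mean_Se] at h1
    have h2 := Rsv.nm_se hh10 hN1 κ _ (Rsv.cg_se hh2 he hF κ l s)
    have h3 := (abs_lt.1 h1).1
    linarith
  · intro b hb
    rw [Rsv.tr_bk]
    have h1 := hT.bk b hb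
    unfold Rsv.Dev at h1
    rw [Rsv.mean_C] at h1
    exact hdev h1 (Rsv.nm_bk hh10 hN1 _ (Rsv.cg_bk hh2 he b hb))
  · intro κ l b
    by_cases hb : IsBlk h b
    · rw [Rsv.tr_bl]
      have h1 := hT.bl κ l b hb
      unfold Rsv.Dev at h1
      rw [Rsv.mean_C] at h1
      have h2 := Rsv.nm_bl hh10 hN1 κ _ (Rsv.cg_bl hh2 he κ l b hb)
      have h3 := (abs_lt.1 h1).2
      linarith
    · have h1 : (Rsv.XQ T).filter (fun q => blc h q = b ∧ ln κ q = l) = ∅ := by
        rw [Finset.filter_eq_empty_iff]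
        rintro q _ ⟨h2, _⟩
        apply hb
        intro κ'
        rw [← h2]
        exact Nat.mod_lt _ (Rsv.KK_pos hh2 κ')
      rw [h1, card_empty, Nat.cast_zero]
      have : 0 ≤ x0 h := by
        unfold x0
        positivity
      positivity
  · intro κ l b
    by_cases hb : IsBlk h b
    · rw [Rsv.tr_be hsub]
      have h1 := hT.be κ l b hb
      unfold Rsv.Dev at h1
      rw [Rsv.mean_El] at h1
      have h2 := Rsv.nm_be hh10 hN1 κ _ (Rsv.cg_be hh2 he hF κ l b hb)
      have h3 := (abs_lt.1 h1).2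
      linarith
    · have h1 : (univ.filter (fun s : Fin n => bls h s = b ∧ (κ, l, s) ∈ Rsv.XE T)) = ∅ := by
        rw [Finset.filter_eq_empty_iff]
        rintro s _ ⟨h2, _⟩
        apply hb
        intro κ'
        rw [← h2]
        exact Nat.mod_lt _ (Rsv.KK_pos hh2 κ')
      rw [h1, card_empty, Nat.cast_zero]
      have : 0 ≤ x0 h := by
        unfold x0
        positivity
      positivity

end H77.LT
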