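import Pool.Agent.H77.LT.TdA
import Pool.Agent.H77.LT.CntL
import Pool.Agent.H77.LT.Greedy

/-!
# [H77 LT SPECIAL] The special edges

Notation `N = 2m+1`, `K = KK h 0 * KK h 1 * KK h 2` (`h^12/2 ≤ K ≤ h^12`),
`C0 = cels XQ ∪ ents XE ∪ ents F`. For each pair of blocks `β, γ` we want more than `N^2/h^70` edges
`(q,s)`, `q` in `β`, `s` in `γ`, all disjoint and disjoint from `C0`.
Greedy lemma (`greedy`, stars `star`, `card_star`) with items
`I = (pairs of blocks) × Fin Z`, `Z = (2m+1)^2 / h^70 + 1` (natural division), choices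
`om = {(q,s) : blc q = β, bls s = γ, ed q s disjoint from C0}`, `vx (q,s) = ed q s`, `a = 4`,
`root = ∅`, `rho = 0`, `U0 = ∅`, `d0 = 0`, `B = (2m+1) / h^31`, `L = B + 4` (`L ≤ 2N/h^31 ≤ N/h^30`).
`|I| ≤ h^24 (N^2/h^70 + 1) ≤ 2 N^2/h^46` (number of blocks `= K ≤ h^12`).
(0) Counts: `#β` = number of cells in `β` `= N^2/(2K)` up to `100 N` (`cnt_blk`),
`#γ` = number of symbols in `γ` `= N/K` up to `3` (`cnt_symblk`, `|n - N| ≤ 2`); number of cells in
`β` on a line `≤ N KK h κ / K + 20 ≤ 2N/h^8` (`cnt_line`; zero if the residue of the line is wrong).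
(1) `|om| ≥ #β #γ / 2`: the excluded pairs are: `q ∈ XQ` (at most
`(x0 N^2/(2K) + N^2/h^E) #γ`, by `Res.blk`), `(κ, ln κ q, s) ∈ XE` (for each `q`, at most
`3 * 3 x0 N/h^8 = 9 N/(1000 h^12) ≤ #γ/50`, by `Res.eblk`), `(κ, ln κ q, s) ∈ F` (for each `q` at most
`3 * 4`, by `Forb.line` and `Forb.hn`).
So `|om| ≥ N^3/(5 h^24)`.
(2) `hS`: `|T| B ≤ 12 |I|` and `B ≥ N/(2h^31)` give `|T| ≤ 48 N/h^15`. A cell-line star or an
entry-line star in `T` excludes at most `2N/h^8 * #γ ≤ 4N^2/h^20` pairs, a symbol star at most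
`#β ≤ N^2/h^12` pairs. Total `≤ 48 N^3/h^27 ≤ |om|/2`.
(3) `hU`: `U` with degrees at most `L`: `|U| ≤ 4 m L` (`card_le_of_deg`); cells in `U` exclude at
most `4mL #γ ≤ 8 N^3/h^43` pairs; for every symbol `s` in `γ` and every `κ` there are at most `L`
entries `(κ,l,s)` in `U`, each excludes at most `2N/h^8` cells: at most `24 N^3/h^51`.
Total `< |om|/2`.
`PP` = the set of the chosen edges (the map from `I` is injective as edges are not empty).
-/

open Finset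

namespace H77.LT

variable {m n h E : ℕ}

/-! numerical part -/

theorem special_K (hh : 10 ^ 6 ≤ h) :
    (99 / 100 : ℝ) * (h : ℝ) ^ 12 ≤ ((KK h 0 * KK h 1 * KK h 2 : ℕ) : ℝ) ∧
      ((KK h 0 * KK h 1 * KK h 2 : ℕ) : ℝ) ≤ (h : ℝ) ^ 12 := by
  have h1 : (10 : ℝ) ^ 6 ≤ h := by exact_mod_cast hh
  have h4 : 1 ≤ h ^ 4 := Nat.one_le_pow _ _ (by omega)
  have e : ((KK h 0 * KK h 1 * KK h 2 : ℕ) : ℝ) = (h : ℝ) ^ 12 - (h : ℝ) ^ 4 := by
    rw [cnta_KK0, cnta_KK1, cnta_KK2]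
    push_cast [Nat.cast_sub h4]
    ring
  rw [e]
  have h2 : (1 : ℝ) ≤ (h : ℝ) ^ 4 := by exact_mod_cast h4
  have h3 : (100 : ℝ) ≤ (h : ℝ) ^ 8 := by
    calc (100 : ℝ) ≤ (10 ^ 6) ^ 8 := by norm_num
      _ ≤ (h : ℝ) ^ 8 := pow_le_pow_left₀ (by norm_num) h1 8
  have h5 : (h : ℝ) ^ 12 = (h : ℝ) ^ 8 * (h : ℝ) ^ 4 := by ring
  constructor
  · rw [h5]
    nlinarith
  · linarith

theorem special_KK (hh : 10 ^ 6 ≤ h) (κ : Fin 3) :
    (KK h κ : ℝ) ≤ 101 / 100 * (h : ℝ) ^ 4 := by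
  have h1 : (10 : ℝ) ^ 6 ≤ h := by exact_mod_cast hh
  have h2 := (KK_bounds (show 2 ≤ h by omega) κ).2
  have h3 : (KK h κ : ℝ) ≤ (h : ℝ) ^ 4 + 1 := by exact_mod_cast h2
  have h4 : (100 : ℝ) ≤ (h : ℝ) ^ 4 := by
    calc (100 : ℝ) ≤ (10 ^ 6) ^ 4 := by norm_num
      _ ≤ (h : ℝ) ^ 4 := pow_le_pow_left₀ (by norm_num) h1 4
  linarith

/-- `N / h^k` is at least `h^(100-k)` -/
theorem special_div (hh : 10 ^ 6 ≤ h) {N : ℝ} (hN : (h : ℝ) ^ 100 ≤ N) (k : ℕ) (hk : k ≤ 99) :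
    (h : ℝ) ≤ N / (h : ℝ) ^ k := by
  have h1 : (10 : ℝ) ^ 6 ≤ h := by exact_mod_cast hh
  have h0 : (0 : ℝ) < h := by linarith [show (0 : ℝ) < 10 ^ 6 by norm_num]
  have h11 : (1 : ℝ) ≤ h := by linarith [show (1 : ℝ) ≤ 10 ^ 6 by norm_num]
  rw [le_div_iff₀ (by positivity)]
  refine le_trans ?_ hN
  rw [← pow_succ']
  exact pow_le_pow_right₀ h11 (by omega)

/-- comparison of `N / h^j` and `N / h^k` -/
theorem special_cmp (hh : 10 ^ 6 ≤ h) {N : ℝ} (hN : (h : ℝ) ^ 100 ≤ N) (j k : ℕ) (hk : j < k) :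
    10 ^ 6 * (N / (h : ℝ) ^ k) ≤ N / (h : ℝ) ^ j := by
  have h1 : (10 : ℝ) ^ 6 ≤ h := by exact_mod_cast hh
  have h0 : (0 : ℝ) < h := by linarith [show (0 : ℝ) < 10 ^ 6 by norm_num]
  have h11 : (1 : ℝ) ≤ h := by linarith [show (1 : ℝ) ≤ 10 ^ 6 by norm_num]
  have hN0 : 0 < N := lt_of_lt_of_le (by positivity) hN
  rw [le_div_iff₀ (by positivity)]
  have h2 : (h : ℝ) ^ (j + 1) ≤ (h : ℝ) ^ k := pow_le_pow_right₀ h11 (by omega)
  have h3 : N / (h : ℝ) ^ k * (h : ℝ) ^ k = N := div_mul_cancel₀ _ (by positivity)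
  have h4 : 0 < N / (h : ℝ) ^ k := by positivity
  calc 10 ^ 6 * (N / (h : ℝ) ^ k) * (h : ℝ) ^ j
      = N / (h : ℝ) ^ k * (10 ^ 6 * (h : ℝ) ^ j) := by ring
    _ ≤ N / (h : ℝ) ^ k * ((h : ℝ) * (h : ℝ) ^ j) := by
        refine mul_le_mul_of_nonneg_left ?_ h4.le
        exact mul_le_mul_of_nonneg_right h1 (by positivity)
    _ = N / (h : ℝ) ^ k * (h : ℝ) ^ (j + 1) := by rw [pow_succ']
    _ ≤ N / (h : ℝ) ^ k * (h : ℝ) ^ k := mul_le_mul_of_nonneg_left h2 h4.le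
    _ = N := h3

/-! counting part: `N = 2m+1`, `b = N/h^12`, `c = N/h^8` -/

theorem special_Q (he : Even h) (hh : 10 ^ 6 ≤ h) (hN : h ^ 100 ≤ 2 * m + 1)
    (β : Fin 3 → ℕ) (hβ : IsBlk h β) :
    (49 / 100 : ℝ) * ((2 * m + 1) * ((2 * m + 1) / (h : ℝ) ^ 12)) ≤
      ((univ.filter (fun q : Cell m => blc h q = β)).card : ℝ) ∧
    ((univ.filter (fun q : Cell m => blc h q = β)).card : ℝ) ≤
      (52 / 100 : ℝ) * ((2 * m + 1) * ((2 * m + 1) / (h : ℝ) ^ 12)) := by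
  have h1 : (10 : ℝ) ^ 6 ≤ h := by exact_mod_cast hh
  have h0 : (0 : ℝ) < h := by linarith [show (0 : ℝ) < 10 ^ 6 by norm_num]
  have hNr : (h : ℝ) ^ 100 ≤ 2 * (m : ℝ) + 1 := by exact_mod_cast hN
  set N : ℝ := 2 * (m : ℝ) + 1 with hNdef
  have hN0 : 0 < N := lt_of_lt_of_le (by positivity) hNr
  have hb := special_div hh hNr 12 (by norm_num)
  set b : ℝ := N / (h : ℝ) ^ 12 with hbdef
  have hb6 : (10 : ℝ) ^ 6 ≤ b := h1.trans hb
  obtain ⟨k1, k2⟩ := special_K hh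
  have hcnt := cnt_blk (m := m) he (show 2 ≤ h by omega) β hβ
  rw [← hNdef] at hcnt
  set K : ℝ := ((KK h 0 * KK h 1 * KK h 2 : ℕ) : ℝ) with hK
  have hK0 : 0 < K := lt_of_lt_of_le (by positivity) k1
  have e1 : N * b / 2 ≤ N ^ 2 / (2 * K) := by
    rw [le_div_iff₀ (by positivity)]
    have : b * K ≤ N := by
      rw [hbdef, div_mul_eq_mul_div, div_le_iff₀ (by positivity)]
      exact mul_le_mul_of_nonneg_left k2 hN0.le
    nlinarith
  have e2 : N ^ 2 / (2 * K) ≤ N * b * (50 / 99) := by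
    rw [div_le_iff₀ (by positivity)]
    have : 99 / 100 * N ≤ b * K := by
      calc 99 / 100 * N = b * (99 / 100 * (h : ℝ) ^ 12) := by
            rw [hbdef]
            field_simp
        _ ≤ b * K := mul_le_mul_of_nonneg_left k1 (by linarith [show (0 : ℝ) < 10 ^ 6 by norm_num])
    nlinarith
  have e3 : 100 * N ≤ 1 / 100 * (N * b) := by nlinarith
  rw [abs_le] at hcnt
  constructor
  · linarith [hcnt.1]
  · linarith [hcnt.2]

theorem special_S (he : Even h) (hh : 10 ^ 6 ≤ h) (hN : h ^ 100 ≤ 2 * m + 1)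
    (n1 : 2 * m - 1 ≤ n) (n2 : n ≤ 2 * m + 3) (γ : Fin 3 → ℕ) (hγ : IsBlk h γ) :
    (99 / 100 : ℝ) * ((2 * m + 1) / (h : ℝ) ^ 12) ≤
      ((univ.filter (fun s : Fin n => bls h s = γ)).card : ℝ) ∧
    ((univ.filter (fun s : Fin n => bls h s = γ)).card : ℝ) ≤
      (102 / 100 : ℝ) * ((2 * m + 1) / (h : ℝ) ^ 12) := by
  have h1 : (10 : ℝ) ^ 6 ≤ h := by exact_mod_cast hh
  have h0 : (0 : ℝ) < h := by linarith [show (0 : ℝ) < 10 ^ 6 by norm_num]
  have hNr : (h : ℝ) ^ 100 ≤ 2 * (m : ℝ) + 1 := by exact_mod_cast hN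
  have hn1 : 2 * (m : ℝ) + 1 - 2 ≤ n := by
    have : 2 * m ≤ n + 1 := by omega
    have h2 : 2 * (m : ℝ) ≤ n + 1 := by exact_mod_cast this
    linarith
  have hn2 : (n : ℝ) ≤ 2 * (m : ℝ) + 1 + 2 := by
    have h2 : (n : ℝ) ≤ 2 * m + 3 := by exact_mod_cast n2
    linarith
  set N : ℝ := 2 * (m : ℝ) + 1 with hNdef
  have hN0 : 0 < N := lt_of_lt_of_le (by positivity) hNr
  have hb := special_div hh hNr 12 (by norm_num)
  set b : ℝ := N / (h : ℝ) ^ 12 with hbdef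
  have hb6 : (10 : ℝ) ^ 6 ≤ b := h1.trans hb
  obtain ⟨k1, k2⟩ := special_K hh
  have hcnt := cnt_symblk (n := n) he (show 2 ≤ h by omega) γ hγ
  set K : ℝ := ((KK h 0 * KK h 1 * KK h 2 : ℕ) : ℝ) with hK
  have hK0 : 0 < K := lt_of_lt_of_le (by positivity) k1
  have hK1 : 2 ≤ K := by
    refine le_trans ?_ k1
    have : (10 ^ 6 : ℝ) ^ 12 ≤ (h : ℝ) ^ 12 := pow_le_pow_left₀ (by norm_num) h1 12
    nlinarith [show (4 : ℝ) ≤ (10 ^ 6) ^ 12 by norm_num]
  have e1 : b - 1 ≤ n / K := by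
    rw [le_div_iff₀ hK0]
    have : b * K ≤ N := by
      rw [hbdef, div_mul_eq_mul_div, div_le_iff₀ (by positivity)]
      exact mul_le_mul_of_nonneg_left k2 hN0.le
    nlinarith
  have e2 : n / K ≤ b * (100 / 99) + 1 := by
    rw [div_le_iff₀ hK0]
    have : 99 / 100 * N ≤ b * K := by
      calc 99 / 100 * N = b * (99 / 100 * (h : ℝ) ^ 12) := by
            rw [hbdef]
            field_simp
        _ ≤ b * K := mul_le_mul_of_nonneg_left k1 (by linarith [show (0 : ℝ) < 10 ^ 6 by norm_num])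
    nlinarith
  rw [abs_le] at hcnt
  constructor
  · have := hcnt.1
    norm_num at hb6
    linarith
  · have := hcnt.2
    norm_num at hb6
    linarith

theorem special_L (he : Even h) (hh : 10 ^ 6 ≤ h) (hN : h ^ 100 ≤ 2 * m + 1)
    (β : Fin 3 → ℕ) (hβ : IsBlk h β) (κ : Fin 3) (l : Fin m) :
    (((univ.filter (fun q : Cell m => blc h q = β)).filter (fun q => ln κ q = l)).card : ℝ) ≤
      2 * ((2 * m + 1) / (h : ℝ) ^ 8) := by
  have h1 : (10 : ℝ) ^ 6 ≤ h := by exact_mod_cast hh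
  have h0 : (0 : ℝ) < h := by linarith [show (0 : ℝ) < 10 ^ 6 by norm_num]
  have hNr : (h : ℝ) ^ 100 ≤ 2 * (m : ℝ) + 1 := by exact_mod_cast hN
  rw [filter_filter]
  by_cases hl : l.val % KK h κ = β κ
  · have hcnt := cnt_line he (show 2 ≤ h by omega) κ l β hβ hl
    have hKK := special_KK hh κ
    obtain ⟨k1, k2⟩ := special_K hh
    set N : ℝ := 2 * (m : ℝ) + 1 with hNdef
    have hN0 : 0 < N := lt_of_lt_of_le (by positivity) hNr
    have hb := special_div hh hNr 8 (by norm_num)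
    have hb6 : (10 : ℝ) ^ 6 ≤ N / (h : ℝ) ^ 8 := h1.trans hb
    have hc0 : 0 < N / (h : ℝ) ^ 8 := by positivity
    set K : ℝ := ((KK h 0 * KK h 1 * KK h 2 : ℕ) : ℝ) with hK
    have hK0 : 0 < K := lt_of_lt_of_le (by positivity) k1
    have e1 : N * (KK h κ : ℝ) / K ≤ 19 / 10 * (N / (h : ℝ) ^ 8) := by
      rw [div_le_iff₀ hK0]
      have e2 : N / (h : ℝ) ^ 8 * (h : ℝ) ^ 12 = N * (h : ℝ) ^ 4 := by
        field_simp
      calc N * (KK h κ : ℝ) ≤ N * (101 / 100 * (h : ℝ) ^ 4) :=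
            mul_le_mul_of_nonneg_left hKK hN0.le
        _ = 101 / 100 * (N / (h : ℝ) ^ 8 * (h : ℝ) ^ 12) := by rw [e2]; ring
        _ ≤ 19 / 10 * (N / (h : ℝ) ^ 8) * (99 / 100 * (h : ℝ) ^ 12) := by
            have : 0 < N / (h : ℝ) ^ 8 * (h : ℝ) ^ 12 := by positivity
            nlinarith
        _ ≤ _ := mul_le_mul_of_nonneg_left k1 (by positivity)
    rw [abs_le] at hcnt
    have := hcnt.2
    norm_num at hb6
    linarith
  · have hemp : univ.filter (fun q : Cell m => blc h q = β ∧ ln κ q = l) = ∅ := by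
      rw [filter_eq_empty_iff]
      rintro q _ ⟨hq, hql⟩
      apply hl
      rw [← hq, ← hql]
      rfl
    rw [hemp, card_empty, Nat.cast_zero]
    positivity

/-! counting pairs -/

theorem special_left {A B : Type*} (S : Finset A) (T : Finset B) (R : A → B → Prop)
    [∀ a, DecidablePred (R a)] [DecidablePred (fun w : A × B => R w.1 w.2)] (M : ℝ)
    (hR : ∀ a ∈ S, ((T.filter (R a)).card : ℝ) ≤ M) :
    (((S ×ˢ T).filter (fun w => R w.1 w.2)).card : ℝ) ≤ S.card * M := by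
  classical
  have h1 : (((S ×ˢ T).filter (fun w => R w.1 w.2)).card : ℝ) =
      ∑ a ∈ S, ((T.filter (R a)).card : ℝ) := by
    rw [Finset.card_filter, Finset.sum_product]
    push_cast
    refine Finset.sum_congr rfl fun a _ => ?_
    rw [Finset.card_filter]
    push_cast
    rfl
  rw [h1, ← nsmul_eq_mul, ← Finset.sum_const]
  exact Finset.sum_le_sum hR

theorem special_right {A B : Type*} (S : Finset A) (T : Finset B) (R : A → B → Prop)
    [∀ b, DecidablePred (fun a => R a b)] [DecidablePred (fun w : A × B => R w.1 w.2)] (M : ℝ)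
    (hR : ∀ b ∈ T, ((S.filter (fun a => R a b)).card : ℝ) ≤ M) :
    (((S ×ˢ T).filter (fun w => R w.1 w.2)).card : ℝ) ≤ T.card * M := by
  classical
  have h1 : (((S ×ˢ T).filter (fun w => R w.1 w.2)).card : ℝ) =
      ∑ b ∈ T, ((S.filter (fun a => R a b)).card : ℝ) := by
    rw [Finset.card_filter, Finset.sum_product_right]
    push_cast
    refine Finset.sum_congr rfl fun a _ => ?_
    rw [Finset.card_filter]
    push_cast
    rfl
  rw [h1, ← nsmul_eq_mul, ← Finset.sum_const]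
  exact Finset.sum_le_sum hR


theorem special_sum3 {A : Type*} (S : Finset A) (R : Fin 3 → A → Prop)
    [∀ κ, DecidablePred (R κ)] [DecidablePred (fun a => ∃ κ, R κ a)] (M : ℝ)
    (hR : ∀ κ, ((S.filter (R κ)).card : ℝ) ≤ M) :
    ((S.filter (fun a => ∃ κ, R κ a)).card : ℝ) ≤ 3 * M := by
  classical
  have h1 : S.filter (fun a => ∃ κ, R κ a) ⊆ univ.biUnion (fun κ => S.filter (R κ)) := by
    intro a ha
    rw [mem_filter] at ha
    obtain ⟨h1, κ, h2⟩ := ha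
    rw [mem_biUnion]
    exact ⟨κ, mem_univ κ, mem_filter.2 ⟨h1, h2⟩⟩
  have h2 := (Finset.card_le_card h1).trans Finset.card_biUnion_le
  have h3 : ((S.filter (fun a => ∃ κ, R κ a)).card : ℝ) ≤
      ∑ κ : Fin 3, ((S.filter (R κ)).card : ℝ) := by exact_mod_cast h2
  refine h3.trans ((Finset.sum_le_sum fun κ _ => hR κ).trans ?_)
  rw [Finset.sum_const, Finset.card_univ, Fintype.card_fin, nsmul_eq_mul]
  norm_num

theorem special_F (F : Finset (Fin 3 × Fin m × Fin n)) (hF : Forb m n F) (κ : Fin 3)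
    (l : Fin m) : (univ.filter (fun s : Fin n => (κ, l, s) ∈ F)).card ≤ 4 := by
  classical
  have h1 := hF.line κ l
  have h2 := hF.hn
  have hm : 1 ≤ m := by have := l.isLt; omega
  have h3 : (univ.filter (fun s : Fin n => (κ, l, s) ∈ F)).card ≤
      (F.filter (fun e => e.1 = κ ∧ e.2.1 = l)).card := by
    refine Finset.card_le_card_of_injOn (fun s => (κ, l, s)) ?_ ?_
    · intro s hs
      rw [mem_coe, mem_filter] at hs
      rw [mem_coe, mem_filter]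
      exact ⟨hs.2, rfl, rfl⟩
    · intro s _ s' _ hss
      simpa using hss
  omega

theorem special_XQ (hh : 10 ^ 6 ≤ h) (hE : 20 ≤ E) (hN : h ^ 100 ≤ 2 * m + 1)
    (F : Finset (Fin 3 × Fin m × Fin n)) (XQ : Finset (Cell m))
    (XE : Finset (Fin 3 × Fin m × Fin n)) (hres : Res m n h E F XQ XE)
    (β : Fin 3 → ℕ) (hβ : IsBlk h β) :
    ((XQ.filter (fun q => blc h q = β)).card : ℝ) ≤
      1 / 100 * ((2 * m + 1) * ((2 * m + 1) / (h : ℝ) ^ 12)) := by
  have h1 : (10 : ℝ) ^ 6 ≤ h := by exact_mod_cast hh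
  have h0 : (0 : ℝ) < h := by linarith [show (0 : ℝ) < 10 ^ 6 by norm_num]
  have h11 : (1 : ℝ) ≤ h := by linarith [show (1 : ℝ) ≤ 10 ^ 6 by norm_num]
  have hNr : (h : ℝ) ^ 100 ≤ 2 * (m : ℝ) + 1 := by exact_mod_cast hN
  have hb := hres.blk β hβ
  obtain ⟨k1, k2⟩ := special_K hh
  set N : ℝ := 2 * (m : ℝ) + 1 with hNdef
  have hN0 : 0 < N := lt_of_lt_of_le (by positivity) hNr
  have hcmp := special_cmp hh hNr 12 20 (by norm_num)
  set b : ℝ := N / (h : ℝ) ^ 12 with hbdef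
  have hb0 : 0 < b := by positivity
  set K : ℝ := ((KK h 0 * KK h 1 * KK h 2 : ℕ) : ℝ) with hK
  have hK0 : 0 < K := lt_of_lt_of_le (by positivity) k1
  have e2 : N ^ 2 / (2 * K) ≤ N * b := by
    rw [div_le_iff₀ (by positivity)]
    have : 99 / 100 * N ≤ b * K := by
      calc 99 / 100 * N = b * (99 / 100 * (h : ℝ) ^ 12) := by
            rw [hbdef]
            field_simp
        _ ≤ b * K := mul_le_mul_of_nonneg_left k1 hb0.le
    nlinarith
  have e3 : x0 h ≤ 1 / 1000 := by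
    unfold x0
    have : (1 : ℝ) ≤ (h : ℝ) ^ 4 := one_le_pow₀ h11
    apply one_div_le_one_div_of_le (by norm_num)
    linarith
  have e4 : x0 h * N ^ 2 / (2 * K) ≤ 1 / 1000 * (N * b) := by
    rw [mul_div_assoc]
    exact mul_le_mul e3 e2 (by positivity) (by norm_num)
  have e5 : N ^ 2 / (h : ℝ) ^ E ≤ 1 / 1000 * (N * b) := by
    have e6 : N ^ 2 / (h : ℝ) ^ E ≤ N ^ 2 / (h : ℝ) ^ 20 :=
      div_le_div_of_nonneg_left (by positivity) (by positivity) (pow_le_pow_right₀ h11 hE)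
    refine e6.trans ?_
    have e7 : N ^ 2 / (h : ℝ) ^ 20 = N * (N / (h : ℝ) ^ 20) := by ring
    rw [e7]
    nlinarith
  rw [abs_le] at hb
  have e8 : 0 < N * b := by positivity
  linarith [hb.2]

/-- the choices for a pair of blocks -/
def specialOm (h : ℕ) (C : Finset (Vt m n)) (β γ : Fin 3 → ℕ) : Finset (Cell m × Fin n) :=
  ((univ.filter (fun q : Cell m => blc h q = β)) ×ˢ
    (univ.filter (fun s : Fin n => bls h s = γ))).filter (fun w => Disjoint (ed w.1 w.2) C)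

theorem special_om (he : Even h) (hh : 10 ^ 6 ≤ h) (hE : 20 ≤ E) (hN : h ^ 100 ≤ 2 * m + 1)
    (n1 : 2 * m - 1 ≤ n) (F : Finset (Fin 3 × Fin m × Fin n)) (hF : Forb m n F)
    (XQ : Finset (Cell m)) (XE : Finset (Fin 3 × Fin m × Fin n)) (hres : Res m n h E F XQ XE)
    (β γ : Fin 3 → ℕ) (hβ : IsBlk h β) (hγ : IsBlk h γ) :
    46 / 100 * ((2 * m + 1) * ((2 * m + 1) / (h : ℝ) ^ 12) * ((2 * m + 1) / (h : ℝ) ^ 12)) ≤
      ((specialOm h (cels XQ ∪ ents XE ∪ ents F) β γ).card : ℝ) := by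
  classical
  have h1 : (10 : ℝ) ^ 6 ≤ h := by exact_mod_cast hh
  have h0 : (0 : ℝ) < h := by linarith [show (0 : ℝ) < 10 ^ 6 by norm_num]
  have hNr : (h : ℝ) ^ 100 ≤ 2 * (m : ℝ) + 1 := by exact_mod_cast hN
  obtain ⟨q1, q2⟩ := special_Q he hh hN β hβ
  obtain ⟨s1, s2⟩ := special_S he hh hN n1 hF.hn γ hγ
  have x1 := special_XQ hh hE hN F XQ XE hres β hβ
  have y1 := hres.eblk
  set N : ℝ := 2 * (m : ℝ) + 1 with hNdef
  have hN0 : 0 < N := lt_of_lt_of_le (by positivity) hNr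
  have hb := special_div hh hNr 12 (by norm_num)
  set b : ℝ := N / (h : ℝ) ^ 12 with hbdef
  have hb6 : (10 : ℝ) ^ 6 ≤ b := h1.trans hb
  have hb0 : 0 < b := by positivity
  set Qb := univ.filter (fun q : Cell m => blc h q = β) with hQb
  set Sg := univ.filter (fun s : Fin n => bls h s = γ) with hSg
  have hsub : Qb ×ˢ Sg ⊆ specialOm h (cels XQ ∪ ents XE ∪ ents F) β γ ∪
      ((Qb ×ˢ Sg).filter (fun w => w.1 ∈ XQ) ∪
        ((Qb ×ˢ Sg).filter (fun w => ∃ κ, (κ, ln κ w.1, w.2) ∈ XE) ∪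
        (Qb ×ˢ Sg).filter (fun w => ∃ κ, (κ, ln κ w.1, w.2) ∈ F))) := by
    intro w hw
    by_cases hd : Disjoint (ed w.1 w.2) (cels XQ ∪ ents XE ∪ ents F)
    · exact mem_union_left _ (mem_filter.2 ⟨hw, hd⟩)
    · apply mem_union_right
      rw [Finset.not_disjoint_iff] at hd
      obtain ⟨v, hv, hvC⟩ := hd
      rw [mem_union, mem_union] at hvC
      rcases hvC with (hvC | hvC) | hvC
      · apply mem_union_left
        unfold cels at hvC
        obtain ⟨q, hq, rfl⟩ := mem_image.1 hvC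
        rw [mem_ed_inl] at hv
        exact mem_filter.2 ⟨hw, hv ▸ hq⟩
      · apply mem_union_right
        apply mem_union_left
        unfold ents at hvC
        obtain ⟨⟨κ, l, s⟩, hq, rfl⟩ := mem_image.1 hvC
        rw [mem_ed_inr] at hv
        refine mem_filter.2 ⟨hw, κ, ?_⟩
        rw [← hv.1, ← hv.2]
        exact hq
      · apply mem_union_right
        apply mem_union_right
        unfold ents at hvC
        obtain ⟨⟨κ, l, s⟩, hq, rfl⟩ := mem_image.1 hvC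
        rw [mem_ed_inr] at hv
        refine mem_filter.2 ⟨hw, κ, ?_⟩
        rw [← hv.1, ← hv.2]
        exact hq
  have hcard := (Finset.card_le_card hsub).trans ((Finset.card_union_le _ _).trans
    (Nat.add_le_add_left ((Finset.card_union_le _ _).trans
      (Nat.add_le_add_left (Finset.card_union_le _ _) _)) _))
  rw [Finset.card_product] at hcard
  have hcardR : (Qb.card : ℝ) * Sg.card ≤
      ((specialOm h (cels XQ ∪ ents XE ∪ ents F) β γ).card : ℝ) +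
      ((((Qb ×ˢ Sg).filter (fun w => w.1 ∈ XQ)).card : ℝ) +
      ((((Qb ×ˢ Sg).filter (fun w => ∃ κ, (κ, ln κ w.1, w.2) ∈ XE)).card : ℝ) +
      (((Qb ×ˢ Sg).filter (fun w => ∃ κ, (κ, ln κ w.1, w.2) ∈ F)).card : ℝ))) := by
    exact_mod_cast hcard
  have a1 : (((Qb ×ˢ Sg).filter (fun w => w.1 ∈ XQ)).card : ℝ) ≤
      Sg.card * (1 / 100 * (N * b)) := by
    refine special_right Qb Sg (fun q _ => q ∈ XQ) _ fun s _ => ?_
    refine le_trans ?_ x1
    have : (Qb.filter (fun q => q ∈ XQ)).card ≤ (XQ.filter (fun q => blc h q = β)).card := by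
      refine Finset.card_le_card fun q hq => ?_
      rw [mem_filter, hQb, mem_filter] at hq
      exact mem_filter.2 ⟨hq.2, hq.1.2⟩
    exact_mod_cast this
  have a2 : (((Qb ×ˢ Sg).filter (fun w => ∃ κ, (κ, ln κ w.1, w.2) ∈ XE)).card : ℝ) ≤
      Qb.card * (3 * (3 / 1000 * b)) := by
    refine special_left Qb Sg (fun q s => ∃ κ, (κ, ln κ q, s) ∈ XE) _ fun q _ => ?_
    refine special_sum3 Sg (fun κ s => (κ, ln κ q, s) ∈ XE) _ fun κ => ?_
    rw [hSg, filter_filter]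
    refine (y1 κ (ln κ q) γ).trans (le_of_eq ?_)
    rw [hbdef]
    unfold x0
    field_simp
  have a3 : (((Qb ×ˢ Sg).filter (fun w => ∃ κ, (κ, ln κ w.1, w.2) ∈ F)).card : ℝ) ≤
      Qb.card * (3 * 4) := by
    refine special_left Qb Sg (fun q s => ∃ κ, (κ, ln κ q, s) ∈ F) _ fun q _ => ?_
    refine special_sum3 Sg (fun κ s => (κ, ln κ q, s) ∈ F) _ fun κ => ?_
    have h2 := special_F F hF κ (ln κ q)
    have h3 : (Sg.filter (fun s => (κ, ln κ q, s) ∈ F)).card ≤ 4 :=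
      (Finset.card_le_card (Finset.filter_subset_filter _ (Finset.subset_univ _))).trans h2
    exact_mod_cast h3
  have hNb : 0 < N * b := by positivity
  have b1 : (49 / 100 * (N * b)) * (99 / 100 * b) ≤ (Qb.card : ℝ) * Sg.card :=
    mul_le_mul q1 s1 (by positivity) (by positivity)
  have b2 : (Sg.card : ℝ) * (1 / 100 * (N * b)) ≤ 102 / 100 * b * (1 / 100 * (N * b)) :=
    mul_le_mul_of_nonneg_right s2 (by positivity)
  have b3 : (Qb.card : ℝ) * (3 * (3 / 1000 * b)) ≤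
      52 / 100 * (N * b) * (3 * (3 / 1000 * b)) :=
    mul_le_mul_of_nonneg_right q2 (by positivity)
  have b4 : (Qb.card : ℝ) * (3 * 4) ≤ 52 / 100 * (N * b) * (1 / 1000 * b) := by
    refine mul_le_mul q2 ?_ (by norm_num) (by positivity)
    norm_num at hb6
    linarith
  have b5 : 0 < N * b * b := by positivity
  nlinarith

/-- the pairs whose edge meets a star -/
theorem special_star (he : Even h) (hh : 10 ^ 6 ≤ h) (hN : h ^ 100 ≤ 2 * m + 1)
    (n1 : 2 * m - 1 ≤ n) (n2 : n ≤ 2 * m + 3)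
    (β γ : Fin 3 → ℕ) (hβ : IsBlk h β) (hγ : IsBlk h γ) (σ : Star m n)
    [DecidablePred (fun w : Cell m × Fin n => ∃ v ∈ ed w.1 w.2, σ ∈ star v)] :
    ((((univ.filter (fun q : Cell m => blc h q = β)) ×ˢ
      (univ.filter (fun s : Fin n => bls h s = γ))).filter
        (fun w => ∃ v ∈ ed w.1 w.2, σ ∈ star v)).card : ℝ) ≤
      (2 * m + 1) * ((2 * m + 1) / (h : ℝ) ^ 12) := by
  classical
  have h1 : (10 : ℝ) ^ 6 ≤ h := by exact_mod_cast hh
  have h0 : (0 : ℝ) < h := by linarith [show (0 : ℝ) < 10 ^ 6 by norm_num]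
  have h11 : (1 : ℝ) ≤ h := by linarith [show (1 : ℝ) ≤ 10 ^ 6 by norm_num]
  have hNr : (h : ℝ) ^ 100 ≤ 2 * (m : ℝ) + 1 := by exact_mod_cast hN
  obtain ⟨q1, q2⟩ := special_Q he hh hN β hβ
  obtain ⟨s1, s2⟩ := special_S he hh hN n1 n2 γ hγ
  have l1 := special_L he hh hN β hβ
  set N : ℝ := 2 * (m : ℝ) + 1 with hNdef
  have hN0 : 0 < N := lt_of_lt_of_le (by positivity) hNr
  have hcmp := special_cmp hh hNr 0 8 (by norm_num)
  rw [pow_zero, div_one] at hcmp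
  set b : ℝ := N / (h : ℝ) ^ 12 with hbdef
  have hb0 : 0 < b := by positivity
  set Qb := univ.filter (fun q : Cell m => blc h q = β) with hQb
  set Sg := univ.filter (fun s : Fin n => bls h s = γ) with hSg
  have hline : ∀ (κ : Fin 3) (l : Fin m),
      (((Qb ×ˢ Sg).filter (fun w => ln κ w.1 = l)).card : ℝ) ≤ N * b := by
    intro κ l
    have h2 := special_right Qb Sg (fun q _ => ln κ q = l) _ fun s _ => l1 κ l
    refine h2.trans ?_
    have h3 : (Sg.card : ℝ) * (2 * (N / (h : ℝ) ^ 8)) ≤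
        102 / 100 * b * (2 * (N / (h : ℝ) ^ 8)) :=
      mul_le_mul_of_nonneg_right s2 (by positivity)
    have h4 : 0 < N / (h : ℝ) ^ 8 := by positivity
    have h5 : 102 / 100 * (2 * (N / (h : ℝ) ^ 8)) ≤ N := by
      norm_num at hcmp
      linarith
    calc (Sg.card : ℝ) * (2 * (N / (h : ℝ) ^ 8)) ≤ 102 / 100 * b * (2 * (N / (h : ℝ) ^ 8)) := h3
      _ = (102 / 100 * (2 * (N / (h : ℝ) ^ 8))) * b := by ring
      _ ≤ N * b := mul_le_mul_of_nonneg_right h5 hb0.le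
  rcases σ with ⟨κ, l⟩ | ⟨κ, l⟩ | ⟨κ, s'⟩
  · refine le_trans ?_ (hline κ l)
    have : ((Qb ×ˢ Sg).filter (fun w => ∃ v ∈ ed w.1 w.2,
        (Sum.inl (κ, l) : Star m n) ∈ star v)).card ≤
        ((Qb ×ˢ Sg).filter (fun w => ln κ w.1 = l)).card := by
      refine Finset.card_le_card fun w hw => ?_
      rw [mem_filter] at hw ⊢
      refine ⟨hw.1, ?_⟩
      obtain ⟨v, hv, hσ⟩ := hw.2
      rcases v with q | ⟨κ', l', s⟩
      · rw [mem_ed_inl] at hv
        rw [mem_star_inl] at hσ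
        obtain ⟨κ', hκ'⟩ := hσ
        simp only [Sum.inl.injEq, Prod.mk.injEq] at hκ'
        rw [← hv, hκ'.1, hκ'.2]
      · rw [mem_star_inr] at hσ
        simp at hσ
    exact_mod_cast this
  · refine le_trans ?_ (hline κ l)
    have : ((Qb ×ˢ Sg).filter (fun w => ∃ v ∈ ed w.1 w.2,
        (Sum.inr (Sum.inl (κ, l)) : Star m n) ∈ star v)).card ≤
        ((Qb ×ˢ Sg).filter (fun w => ln κ w.1 = l)).card := by
      refine Finset.card_le_card fun w hw => ?_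
      rw [mem_filter] at hw ⊢
      refine ⟨hw.1, ?_⟩
      obtain ⟨v, hv, hσ⟩ := hw.2
      rcases v with q | ⟨κ', l', s⟩
      · rw [mem_star_inl] at hσ
        simp at hσ
      · rw [mem_ed_inr] at hv
        rw [mem_star_inr] at hσ
        simp only [Sum.inr.injEq, Sum.inl.injEq, Prod.mk.injEq, reduceCtorEq, or_false] at hσ
        rw [hσ.1, hσ.2, hv.2]
    exact_mod_cast this
  · have h2 : (((Qb ×ˢ Sg).filter (fun w => w.2 = s')).card : ℝ) ≤ Qb.card * 1 := by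
      refine special_left Qb Sg (fun _ s => s = s') _ fun q _ => ?_
      have : (Sg.filter (fun s => s = s')).card ≤ 1 := by
        rw [Finset.card_le_one]
        intro a ha c hc
        rw [(mem_filter.1 ha).2, (mem_filter.1 hc).2]
      exact_mod_cast this
    have : ((Qb ×ˢ Sg).filter (fun w => ∃ v ∈ ed w.1 w.2,
        (Sum.inr (Sum.inr (κ, s')) : Star m n) ∈ star v)).card ≤
        ((Qb ×ˢ Sg).filter (fun w => w.2 = s')).card := by
      refine Finset.card_le_card fun w hw => ?_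
      rw [mem_filter] at hw ⊢
      refine ⟨hw.1, ?_⟩
      obtain ⟨v, hv, hσ⟩ := hw.2
      rcases v with q | ⟨κ', l', s⟩
      · rw [mem_star_inl] at hσ
        simp at hσ
      · rw [mem_ed_inr] at hv
        rw [mem_star_inr] at hσ
        simp only [Sum.inr.injEq, Prod.mk.injEq, reduceCtorEq, false_or] at hσ
        rw [hσ.2, hv.1]
    have h3 : (((Qb ×ˢ Sg).filter (fun w => ∃ v ∈ ed w.1 w.2,
        (Sum.inr (Sum.inr (κ, s')) : Star m n) ∈ star v)).card : ℝ) ≤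
        (((Qb ×ˢ Sg).filter (fun w => w.2 = s')).card : ℝ) := by exact_mod_cast this
    have h4 : 0 < N * b := by positivity
    linarith

theorem special_U (he : Even h) (hh : 10 ^ 6 ≤ h) (hN : h ^ 100 ≤ 2 * m + 1)
    (n1 : 2 * m - 1 ≤ n) (n2 : n ≤ 2 * m + 3)
    (β γ : Fin 3 → ℕ) (hβ : IsBlk h β) (hγ : IsBlk h γ) (U : Finset (Vt m n)) (L : ℕ)
    (hL : (L : ℝ) ≤ 2 * ((2 * m + 1) / (h : ℝ) ^ 31)) (hU : ∀ σ, deg U σ ≤ L)
    [DecidablePred (fun w : Cell m × Fin n => ¬ Disjoint (ed w.1 w.2) U)] :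
    ((((univ.filter (fun q : Cell m => blc h q = β)) ×ˢ
      (univ.filter (fun s : Fin n => bls h s = γ))).filter
        (fun w => ¬ Disjoint (ed w.1 w.2) U)).card : ℝ) ≤
      1 / 100 * ((2 * m + 1) * ((2 * m + 1) / (h : ℝ) ^ 12) * ((2 * m + 1) / (h : ℝ) ^ 12)) := by
  classical
  have h1 : (10 : ℝ) ^ 6 ≤ h := by exact_mod_cast hh
  have h0 : (0 : ℝ) < h := by linarith [show (0 : ℝ) < 10 ^ 6 by norm_num]
  have h11 : (1 : ℝ) ≤ h := by linarith [show (1 : ℝ) ≤ 10 ^ 6 by norm_num]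
  have hNr : (h : ℝ) ^ 100 ≤ 2 * (m : ℝ) + 1 := by exact_mod_cast hN
  obtain ⟨s1, s2⟩ := special_S he hh hN n1 n2 γ hγ
  have l1 := special_L he hh hN β hβ
  have hm4 : (4 * (m : ℝ)) ≤ 2 * (2 * (m : ℝ) + 1) := by linarith
  set N : ℝ := 2 * (m : ℝ) + 1 with hNdef
  have hN0 : 0 < N := lt_of_lt_of_le (by positivity) hNr
  have hcmp8 := special_cmp hh hNr 0 8 (by norm_num)
  have hcmp31 := special_cmp hh hNr 12 31 (by norm_num)
  rw [pow_zero, div_one] at hcmp8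
  set b : ℝ := N / (h : ℝ) ^ 12 with hbdef
  set c : ℝ := N / (h : ℝ) ^ 8 with hcdef
  set ℓ : ℝ := N / (h : ℝ) ^ 31 with hℓdef
  have hb0 : 0 < b := by positivity
  have hc0 : 0 < c := by positivity
  have hℓ0 : 0 < ℓ := by positivity
  set Qb := univ.filter (fun q : Cell m => blc h q = β) with hQb
  set Sg := univ.filter (fun s : Fin n => bls h s = γ) with hSg
  have hsub : (Qb ×ˢ Sg).filter (fun w => ¬ Disjoint (ed w.1 w.2) U) ⊆
      (Qb ×ˢ Sg).filter (fun w => (Sum.inl w.1 : Vt m n) ∈ U) ∪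
      (Qb ×ˢ Sg).filter (fun w => ∃ κ, (Sum.inr (κ, ln κ w.1, w.2) : Vt m n) ∈ U) := by
    intro w hw
    rw [mem_filter] at hw
    obtain ⟨hw1, hd⟩ := hw
    rw [Finset.not_disjoint_iff] at hd
    obtain ⟨v, hv, hvC⟩ := hd
    rcases v with q | ⟨κ, l, s⟩
    · apply mem_union_left
      rw [mem_ed_inl] at hv
      exact mem_filter.2 ⟨hw1, hv ▸ hvC⟩
    · apply mem_union_right
      rw [mem_ed_inr] at hv
      refine mem_filter.2 ⟨hw1, κ, ?_⟩
      rw [← hv.1, ← hv.2]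
      exact hvC
  have hcard := (Finset.card_le_card hsub).trans (Finset.card_union_le _ _)
  have hcardR : (((Qb ×ˢ Sg).filter (fun w => ¬ Disjoint (ed w.1 w.2) U)).card : ℝ) ≤
      (((Qb ×ˢ Sg).filter (fun w => (Sum.inl w.1 : Vt m n) ∈ U)).card : ℝ) +
      (((Qb ×ˢ Sg).filter (fun w => ∃ κ, (Sum.inr (κ, ln κ w.1, w.2) : Vt m n) ∈ U)).card : ℝ) := by
    exact_mod_cast hcard
  have a1 : (((Qb ×ˢ Sg).filter (fun w => (Sum.inl w.1 : Vt m n) ∈ U)).card : ℝ) ≤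
      Sg.card * (2 * N * (2 * ℓ)) := by
    refine special_right Qb Sg (fun q _ => (Sum.inl q : Vt m n) ∈ U) _ fun s _ => ?_
    have h2 : (Qb.filter (fun q => (Sum.inl q : Vt m n) ∈ U)).card ≤ U.card := by
      refine Finset.card_le_card_of_injOn (fun q => (Sum.inl q : Vt m n)) ?_ ?_
      · intro q hq
        rw [mem_coe, mem_filter] at hq
        exact hq.2
      · intro q _ q' _ h3
        exact Sum.inl.inj h3
    have h3 := h2.trans (card_le_of_deg U L hU)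
    have h4 : ((Qb.filter (fun q => (Sum.inl q : Vt m n) ∈ U)).card : ℝ) ≤ 4 * m * L := by
      exact_mod_cast h3
    refine h4.trans ?_
    exact mul_le_mul hm4 hL (Nat.cast_nonneg L) (by positivity)
  have a2 : (((Qb ×ˢ Sg).filter
      (fun w => ∃ κ, (Sum.inr (κ, ln κ w.1, w.2) : Vt m n) ∈ U)).card : ℝ) ≤
      Sg.card * (3 * (2 * ℓ * (2 * c))) := by
    refine special_right Qb Sg (fun q s => ∃ κ, (Sum.inr (κ, ln κ q, s) : Vt m n) ∈ U) _
      fun s _ => ?_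
    refine special_sum3 Qb (fun κ q => (Sum.inr (κ, ln κ q, s) : Vt m n) ∈ U) _ fun κ => ?_
    set Lk := univ.filter (fun l : Fin m => (Sum.inr (κ, l, s) : Vt m n) ∈ U) with hLk
    have h2 : Qb.filter (fun q => (Sum.inr (κ, ln κ q, s) : Vt m n) ∈ U) ⊆
        Lk.biUnion (fun l => Qb.filter (fun q => ln κ q = l)) := by
      intro q hq
      rw [mem_filter] at hq
      rw [mem_biUnion]
      exact ⟨ln κ q, mem_filter.2 ⟨mem_univ _, hq.2⟩, mem_filter.2 ⟨hq.1, rfl⟩⟩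
    have h3 : Lk.card ≤ L := by
      refine le_trans ?_ (hU (Sum.inr (Sum.inr (κ, s))))
      unfold deg
      refine Finset.card_le_card_of_injOn (fun l => (Sum.inr (κ, l, s) : Vt m n)) ?_ ?_
      · intro l hl
        rw [mem_coe, hLk, mem_filter] at hl
        rw [mem_coe, mem_filter, mem_star_inr]
        exact ⟨hl.2, Or.inr rfl⟩
      · intro l _ l' _ h4
        simpa using h4
    have h4 := (Finset.card_le_card h2).trans Finset.card_biUnion_le
    have h5 : ((Qb.filter (fun q => (Sum.inr (κ, ln κ q, s) : Vt m n) ∈ U)).card : ℝ) ≤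
        ∑ l ∈ Lk, ((Qb.filter (fun q => ln κ q = l)).card : ℝ) := by exact_mod_cast h4
    refine h5.trans ((Finset.sum_le_sum fun l _ => l1 κ l).trans ?_)
    rw [Finset.sum_const, nsmul_eq_mul]
    refine mul_le_mul_of_nonneg_right ?_ (by positivity)
    have h6 : (Lk.card : ℝ) ≤ L := by exact_mod_cast h3
    exact h6.trans hL
  have b1 : (Sg.card : ℝ) * (2 * N * (2 * ℓ)) ≤ 102 / 100 * b * (2 * N * (2 * ℓ)) :=
    mul_le_mul_of_nonneg_right s2 (by positivity)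
  have b2 : (Sg.card : ℝ) * (3 * (2 * ℓ * (2 * c))) ≤
      102 / 100 * b * (3 * (2 * ℓ * (2 * c))) :=
    mul_le_mul_of_nonneg_right s2 (by positivity)
  have hcN : c ≤ N := by
    norm_num at hcmp8
    linarith
  have b3 : 102 / 100 * b * (3 * (2 * ℓ * (2 * c))) ≤ 102 / 100 * b * (3 * (2 * ℓ * (2 * N))) := by
    refine mul_le_mul_of_nonneg_left ?_ (by positivity)
    refine mul_le_mul_of_nonneg_left ?_ (by norm_num)
    exact mul_le_mul_of_nonneg_left (by linarith) (by positivity)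
  have b4 : (N * b) * (1000000 * ℓ) ≤ (N * b) * b := by
    refine mul_le_mul_of_nonneg_left ?_ (by positivity)
    norm_num at hcmp31
    exact hcmp31
  have b5 : 0 < N * b * ℓ := by positivity
  nlinarith

theorem special_B1 (h M k : ℕ) : (M : ℝ) / (h : ℝ) ^ k ≤ ((M / h ^ k : ℕ) : ℝ) + 1 := by
  have e1 := Nat.lt_floor_add_one ((M : ℝ) / ((h ^ k : ℕ) : ℝ))
  rw [Nat.floor_div_eq_div] at e1
  push_cast at e1 ⊢
  exact e1.le

theorem special_B2 (h M k : ℕ) : ((M / h ^ k : ℕ) : ℝ) ≤ (M : ℝ) / (h : ℝ) ^ k := by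
  have e1 : ((M / h ^ k : ℕ) : ℝ) ≤ (M : ℝ) / ((h ^ k : ℕ) : ℝ) := Nat.cast_div_le
  push_cast at e1 ⊢
  exact e1

theorem special_blk (hh : 10 ^ 6 ≤ h) : ((Blks h).card : ℝ) ≤ (h : ℝ) ^ 12 := by
  have e1 : (Blks h).card = KK h 0 * KK h 1 * KK h 2 := by
    unfold Blks
    rw [Fintype.card_piFinset, Fin.prod_univ_three]
    simp only [card_range]
  rw [e1]
  exact (special_K hh).2

theorem special_I (hh : 10 ^ 6 ≤ h) {N : ℝ} (hN : (h : ℝ) ^ 100 ≤ N) (Z : ℕ)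
    (hZ : (Z : ℝ) ≤ N ^ 2 / (h : ℝ) ^ 70 + 1) :
    ((Blks h).card : ℝ) * ((Blks h).card : ℝ) * Z ≤ 2 * (N ^ 2 / (h : ℝ) ^ 46) := by
  have h1 : (10 : ℝ) ^ 6 ≤ h := by exact_mod_cast hh
  have h0 : (0 : ℝ) < h := by linarith [show (0 : ℝ) < 10 ^ 6 by norm_num]
  have h11 : (1 : ℝ) ≤ h := by linarith [show (1 : ℝ) ≤ 10 ^ 6 by norm_num]
  have hblk := special_blk hh
  have e1 : ((Blks h).card : ℝ) * ((Blks h).card : ℝ) ≤ (h : ℝ) ^ 12 * (h : ℝ) ^ 12 :=
    mul_le_mul hblk hblk (Nat.cast_nonneg _) (by positivity)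
  have e2 : (1 : ℝ) ≤ N ^ 2 / (h : ℝ) ^ 70 := by
    rw [le_div_iff₀ (by positivity), one_mul]
    calc (h : ℝ) ^ 70 ≤ (h : ℝ) ^ 100 := pow_le_pow_right₀ h11 (by norm_num)
      _ ≤ N := hN
      _ ≤ N ^ 2 := by
          have : (1 : ℝ) ≤ N := (one_le_pow₀ h11).trans hN
          nlinarith
  calc ((Blks h).card : ℝ) * ((Blks h).card : ℝ) * Z
      ≤ ((h : ℝ) ^ 12 * (h : ℝ) ^ 12) * (2 * (N ^ 2 / (h : ℝ) ^ 70)) := by
        refine mul_le_mul e1 (by linarith) (Nat.cast_nonneg _) (by positivity)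
    _ = 2 * (N ^ 2 / (h : ℝ) ^ 46) := by
        field_simp

theorem special_T (hh : 10 ^ 6 ≤ h) {N : ℝ} (hN : (h : ℝ) ^ 100 ≤ N) (B t : ℝ) (ht : 0 ≤ t)
    (hB : N / (h : ℝ) ^ 31 ≤ B + 1) (hT : B * t ≤ 24 * (N ^ 2 / (h : ℝ) ^ 46)) :
    t ≤ 1 / 10 * (N / (h : ℝ) ^ 12) := by
  have h1 : (10 : ℝ) ^ 6 ≤ h := by exact_mod_cast hh
  have h0 : (0 : ℝ) < h := by linarith [show (0 : ℝ) < 10 ^ 6 by norm_num]
  have hN0 : 0 < N := lt_of_lt_of_le (by positivity) hN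
  have hl31 := special_div hh hN 31 (by norm_num)
  have hl31' : (10 : ℝ) ^ 6 ≤ N / (h : ℝ) ^ 31 := h1.trans hl31
  norm_num at hl31'
  have g1 : N / (h : ℝ) ^ 31 / 2 * t ≤ 24 * (N ^ 2 / (h : ℝ) ^ 46) := by
    refine le_trans ?_ hT
    refine mul_le_mul_of_nonneg_right ?_ ht
    linarith
  have g2 : t ≤ 48 * (N / (h : ℝ) ^ 15) := by
    have g3 : 24 * (N ^ 2 / (h : ℝ) ^ 46) =
        N / (h : ℝ) ^ 31 / 2 * (48 * (N / (h : ℝ) ^ 15)) := by
      field_simp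
      ring
    rw [g3] at g1
    exact le_of_mul_le_mul_left g1 (by positivity)
  have g4 := special_cmp hh hN 12 15 (by norm_num)
  norm_num at g4
  have g5 : 0 < N / (h : ℝ) ^ 15 := by positivity
  linarith

theorem special_hU (he : Even h) (hh : 10 ^ 6 ≤ h) (hE : 20 ≤ E) (hN : h ^ 100 ≤ 2 * m + 1)
    (n1 : 2 * m - 1 ≤ n) (F : Finset (Fin 3 × Fin m × Fin n)) (hF : Forb m n F)
    (XQ : Finset (Cell m)) (XE : Finset (Fin 3 × Fin m × Fin n)) (hres : Res m n h E F XQ XE)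
    (β γ : Fin 3 → ℕ) (hβ : IsBlk h β) (hγ : IsBlk h γ) (U : Finset (Vt m n)) (L : ℕ)
    (hL : (L : ℝ) ≤ 2 * ((2 * m + 1) / (h : ℝ) ^ 31)) (hU : ∀ σ, deg U σ ≤ L)
    [DecidablePred (fun w : Cell m × Fin n => ¬ Disjoint (ed w.1 w.2) U)] :
    2 * ((specialOm h (cels XQ ∪ ents XE ∪ ents F) β γ).filter
      (fun w => ¬ Disjoint (ed w.1 w.2) U)).card <
      (specialOm h (cels XQ ∪ ents XE ∪ ents F) β γ).card := by
  have h1 : (10 : ℝ) ^ 6 ≤ h := by exact_mod_cast hh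
  have h0 : (0 : ℝ) < h := by linarith [show (0 : ℝ) < 10 ^ 6 by norm_num]
  have e1 := special_om he hh hE hN n1 F hF XQ XE hres β γ hβ hγ
  have e2 := special_U he hh hN n1 hF.hn β γ hβ hγ U L hL hU
  have e3 : ((specialOm h (cels XQ ∪ ents XE ∪ ents F) β γ).filter
      (fun w => ¬ Disjoint (ed w.1 w.2) U)).card ≤
      (((univ.filter (fun q : Cell m => blc h q = β)) ×ˢ
      (univ.filter (fun s : Fin n => bls h s = γ))).filter
        (fun w => ¬ Disjoint (ed w.1 w.2) U)).card := by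
    refine Finset.card_le_card fun w hw => ?_
    rw [mem_filter] at hw ⊢
    exact ⟨(mem_filter.1 hw.1).1, hw.2⟩
  have e4 : (((specialOm h (cels XQ ∪ ents XE ∪ ents F) β γ).filter
      (fun w => ¬ Disjoint (ed w.1 w.2) U)).card : ℝ) ≤
      1 / 100 * ((2 * m + 1) * ((2 * m + 1) / (h : ℝ) ^ 12) *
        ((2 * m + 1) / (h : ℝ) ^ 12)) :=
    le_trans (by exact_mod_cast e3) e2
  have e5 : 0 < (2 * (m : ℝ) + 1) * ((2 * m + 1) / (h : ℝ) ^ 12) *
        ((2 * m + 1) / (h : ℝ) ^ 12) := by positivity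
  have e6 : (2 : ℝ) * (((specialOm h (cels XQ ∪ ents XE ∪ ents F) β γ).filter
      (fun w => ¬ Disjoint (ed w.1 w.2) U)).card : ℝ) <
      ((specialOm h (cels XQ ∪ ents XE ∪ ents F) β γ).card : ℝ) := by
    linarith
  exact_mod_cast e6

theorem special_hS (he : Even h) (hh : 10 ^ 6 ≤ h) (hE : 20 ≤ E) (hN : h ^ 100 ≤ 2 * m + 1)
    (n1 : 2 * m - 1 ≤ n) (F : Finset (Fin 3 × Fin m × Fin n)) (hF : Forb m n F)
    (XQ : Finset (Cell m)) (XE : Finset (Fin 3 × Fin m × Fin n)) (hres : Res m n h E F XQ XE)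
    (β γ : Fin 3 → ℕ) (hβ : IsBlk h β) (hγ : IsBlk h γ) (T : Finset (Star m n))
    (hT : (T.card : ℝ) ≤ 1 / 10 * ((2 * m + 1) / (h : ℝ) ^ 12))
    [DecidablePred (fun w : Cell m × Fin n => ∃ v ∈ ed w.1 w.2, ∃ σ ∈ star v,
      σ ∈ T ∧ σ ∉ (∅ : Finset (Star m n)))] :
    2 * ((specialOm h (cels XQ ∪ ents XE ∪ ents F) β γ).filter
      (fun w => ∃ v ∈ ed w.1 w.2, ∃ σ ∈ star v, σ ∈ T ∧
        σ ∉ (∅ : Finset (Star m n)))).card ≤
      (specialOm h (cels XQ ∪ ents XE ∪ ents F) β γ).card := by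
  classical
  have h1 : (10 : ℝ) ^ 6 ≤ h := by exact_mod_cast hh
  have h0 : (0 : ℝ) < h := by linarith [show (0 : ℝ) < 10 ^ 6 by norm_num]
  have e1 := special_om he hh hE hN n1 F hF XQ XE hres β γ hβ hγ
  have e2 : ((specialOm h (cels XQ ∪ ents XE ∪ ents F) β γ).filter
      (fun w => ∃ v ∈ ed w.1 w.2, ∃ σ ∈ star v, σ ∈ T ∧ σ ∉ (∅ : Finset (Star m n)))) ⊆
      T.biUnion (fun σ => ((univ.filter (fun q : Cell m => blc h q = β)) ×ˢ
      (univ.filter (fun s : Fin n => bls h s = γ))).filter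
        (fun w => ∃ v ∈ ed w.1 w.2, σ ∈ star v)) := by
    intro w hw
    rw [mem_filter] at hw
    obtain ⟨hw1, v, hv, σ, hσ, hσT, -⟩ := hw
    rw [mem_biUnion]
    exact ⟨σ, hσT, mem_filter.2 ⟨(mem_filter.1 hw1).1, v, hv, hσ⟩⟩
  have e3 := (Finset.card_le_card e2).trans Finset.card_biUnion_le
  set N : ℝ := 2 * (m : ℝ) + 1 with hNdef
  have hN0 : 0 < N := by positivity
  have e4 : (((specialOm h (cels XQ ∪ ents XE ∪ ents F) β γ).filter
      (fun w => ∃ v ∈ ed w.1 w.2, ∃ σ ∈ star v, σ ∈ T ∧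
        σ ∉ (∅ : Finset (Star m n)))).card : ℝ) ≤
      T.card * (N * (N / (h : ℝ) ^ 12)) := by
    have g1 : (((specialOm h (cels XQ ∪ ents XE ∪ ents F) β γ).filter
      (fun w => ∃ v ∈ ed w.1 w.2, ∃ σ ∈ star v, σ ∈ T ∧
        σ ∉ (∅ : Finset (Star m n)))).card : ℝ) ≤
      ∑ σ ∈ T, ((((univ.filter (fun q : Cell m => blc h q = β)) ×ˢ
      (univ.filter (fun s : Fin n => bls h s = γ))).filter
        (fun w => ∃ v ∈ ed w.1 w.2, σ ∈ star v)).card : ℝ) := by exact_mod_cast e3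
    refine g1.trans ?_
    rw [← nsmul_eq_mul, ← Finset.sum_const]
    exact Finset.sum_le_sum fun σ _ => special_star he hh hN n1 hF.hn β γ hβ hγ σ
  have e5 : 0 < N / (h : ℝ) ^ 12 := by positivity
  have e6 : (T.card : ℝ) * (N * (N / (h : ℝ) ^ 12)) ≤
      1 / 10 * (N / (h : ℝ) ^ 12) * (N * (N / (h : ℝ) ^ 12)) :=
    mul_le_mul_of_nonneg_right hT (by positivity)
  have e7 : 0 < N * (N / (h : ℝ) ^ 12) * (N / (h : ℝ) ^ 12) := by positivity
  have e8 : (2 : ℝ) * (((specialOm h (cels XQ ∪ ents XE ∪ ents F) β γ).filter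
      (fun w => ∃ v ∈ ed w.1 w.2, ∃ σ ∈ star v, σ ∈ T ∧
        σ ∉ (∅ : Finset (Star m n)))).card : ℝ) ≤
      ((specialOm h (cels XQ ∪ ents XE ∪ ents F) β γ).card : ℝ) := by
    nlinarith
  exact_mod_cast e8

theorem special_greedy (he : Even h) (hh : 10 ^ 6 ≤ h) (hE : 20 ≤ E)
    (hN : h ^ 100 ≤ 2 * m + 1)
    (n1 : 2 * m - 1 ≤ n) (F : Finset (Fin 3 × Fin m × Fin n)) (hF : Forb m n F)
    (XQ : Finset (Cell m)) (XE : Finset (Fin 3 × Fin m × Fin n)) (hres : Res m n h E F XQ XE)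
    (Z B : ℕ) (hZ : (Z : ℝ) ≤ (2 * (m : ℝ) + 1) ^ 2 / (h : ℝ) ^ 70 + 1)
    (hB1 : (2 * (m : ℝ) + 1) / (h : ℝ) ^ 31 ≤ B + 1)
    (hB2 : (B : ℝ) ≤ (2 * (m : ℝ) + 1) / (h : ℝ) ^ 31) :
    ∃ f : ((↥(Blks h) × ↥(Blks h)) × Fin Z) → Cell m × Fin n,
      (∀ i, f i ∈ specialOm h (cels XQ ∪ ents XE ∪ ents F) i.1.1.1 i.1.2.1) ∧
      (∀ i j, i ≠ j → Disjoint (ed (f i).1 (f i).2) (ed (f j).1 (f j).2)) ∧
      ∀ σ, ((univ.biUnion (fun i => ed (f i).1 (f i).2)).filter (fun v => σ ∈ star v)).card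
        ≤ B + 4 := by
  have h1 : (10 : ℝ) ^ 6 ≤ h := by exact_mod_cast hh
  have hNr : (h : ℝ) ^ 100 ≤ 2 * (m : ℝ) + 1 := by exact_mod_cast hN
  have hl31 := special_div hh hNr 31 (by norm_num)
  have hl31' : (10 : ℝ) ^ 6 ≤ (2 * (m : ℝ) + 1) / (h : ℝ) ^ 31 := h1.trans hl31
  norm_num at hl31'
  have hI : ((Fintype.card ((↥(Blks h) × ↥(Blks h)) × Fin Z) : ℕ) : ℝ) ≤
      2 * ((2 * (m : ℝ) + 1) ^ 2 / (h : ℝ) ^ 46) := by
    rw [Fintype.card_prod, Fintype.card_prod, Fintype.card_fin, Fintype.card_coe]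
    rw [Nat.cast_mul, Nat.cast_mul]
    exact special_I hh hNr Z hZ
  have hblkI : ∀ β : ↥(Blks h), IsBlk h β.1 := fun β => (mem_Blks β.1).1 β.2
  have hL : ((B + 4 : ℕ) : ℝ) ≤ 2 * ((2 * (m : ℝ) + 1) / (h : ℝ) ^ 31) := by
    rw [Nat.cast_add]
    push_cast
    linarith
  have key := greedy (V := Vt m n) (St := Star m n)
    (I := (↥(Blks h) × ↥(Blks h)) × Fin Z) (Om := Cell m × Fin n) star card_star
    (fun i => specialOm h (cels XQ ∪ ents XE ∪ ents F) i.1.1.1 i.1.2.1)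
    (fun _ w => ed w.1 w.2) (fun _ => ∅) 4 (B + 4) B 0 0 ∅
    (fun _ w _ => (card_ed w.1 w.2).le) (fun σ => by simp) (fun σ => by simp)
    (fun i U hU => special_hU he hh hE hN n1 F hF XQ XE hres i.1.1.1 i.1.2.1 (hblkI _) (hblkI _)
      U (B + 4) hL hU)
    (fun i T hT => by
      have hT2 : (T.card : ℝ) ≤ 1 / 10 * ((2 * (m : ℝ) + 1) / (h : ℝ) ^ 12) := by
        refine special_T hh hNr B T.card (Nat.cast_nonneg _) hB1 ?_
        have hT' : (B : ℝ) * T.card ≤ 3 * 4 *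
          ((Fintype.card ((↥(Blks h) × ↥(Blks h)) × Fin Z) : ℕ) : ℝ) := by exact_mod_cast hT
        linarith
      classical
      have h2 := special_hS he hh hE hN n1 F hF XQ XE hres i.1.1.1 i.1.2.1 (hblkI _)
        (hblkI _) T hT2
      convert h2)
    (by omega)
  obtain ⟨f, f1, -, f3, f4⟩ := key
  refine ⟨f, f1, f3, fun σ => ?_⟩
  have h2 := f4 σ
  rwa [Finset.empty_union] at h2

theorem special (he : Even h) (hh : 10 ^ 6 ≤ h) (hE : 20 ≤ E) (hN : h ^ 100 ≤ 2 * m + 1)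
    (n1 : 2 * m - 1 ≤ n) (F : Finset (Fin 3 × Fin m × Fin n)) (hF : Forb m n F)
    (XQ : Finset (Cell m)) (XE : Finset (Fin 3 × Fin m × Fin n)) (hres : Res m n h E F XQ XE) :
    ∃ PP : Finset (Cell m × Fin n), Mat PP ∧
      Disjoint (cov PP) (cels XQ ∪ ents XE ∪ ents F) ∧
      (∀ σ, (deg (cov PP) σ : ℝ) ≤ (2 * m + 1) / (h : ℝ) ^ 30) ∧
      ∀ β ∈ Blks h, ∀ γ ∈ Blks h, (2 * (m : ℝ) + 1) ^ 2 / (h : ℝ) ^ 70
        ≤ ((PP.filter (fun e => blc h e.1 = β ∧ bls h e.2 = γ)).card : ℝ) := by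
  classical
  have h1 : (10 : ℝ) ^ 6 ≤ h := by exact_mod_cast hh
  have hNr : (h : ℝ) ^ 100 ≤ 2 * (m : ℝ) + 1 := by exact_mod_cast hN
  have hNc : ((2 * m + 1 : ℕ) : ℝ) = 2 * (m : ℝ) + 1 := by push_cast; ring
  have hZ1 := special_B1 h ((2 * m + 1) ^ 2) 70
  have hZ2 := special_B2 h ((2 * m + 1) ^ 2) 70
  have hB1 := special_B1 h (2 * m + 1) 31
  have hB2 := special_B2 h (2 * m + 1) 31
  rw [Nat.cast_pow, hNc] at hZ1 hZ2
  rw [hNc] at hB1 hB2
  generalize (2 * m + 1) ^ 2 / h ^ 70 = Z0 at hZ1 hZ2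
  generalize (2 * m + 1) / h ^ 31 = B at hB1 hB2
  obtain ⟨f, f1, f3, f4⟩ := special_greedy he hh hE hN n1 F hF XQ XE hres (Z0 + 1) B
    (by rw [Nat.cast_add, Nat.cast_one]; linarith) hB1 hB2
  have hfi : Function.Injective f := by
    intro i j hij
    by_contra hne
    have h2 := f3 i j hne
    rw [hij, disjoint_self] at h2
    have h3 := card_ed (f j).1 (f j).2
    rw [Finset.bot_eq_empty] at h2
    rw [h2] at h3
    simp at h3
  have hmem : ∀ i, blc h (f i).1 = i.1.1.1 ∧ bls h (f i).2 = i.1.2.1 ∧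
      Disjoint (ed (f i).1 (f i).2) (cels XQ ∪ ents XE ∪ ents F) := by
    intro i
    have h2 := f1 i
    unfold specialOm at h2
    rw [mem_filter, mem_product, mem_filter, mem_filter] at h2
    exact ⟨h2.1.1.2, h2.1.2.2, h2.2⟩
  refine ⟨univ.image f, ?_, ?_, ?_, ?_⟩
  · intro e he' e' he'' hne
    obtain ⟨i, -, rfl⟩ := mem_image.1 he'
    obtain ⟨j, -, rfl⟩ := mem_image.1 he''
    exact f3 i j (fun h2 => hne (congrArg f h2))
  · unfold cov
    rw [Finset.disjoint_biUnion_left]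
    intro e he'
    obtain ⟨i, -, rfl⟩ := mem_image.1 he'
    exact (hmem i).2.2
  · intro σ
    have h2 := f4 σ
    have h3 : deg (cov (univ.image f)) σ ≤ B + 4 := by
      unfold deg cov
      rwa [Finset.image_biUnion]
    have h4 : (deg (cov (univ.image f)) σ : ℝ) ≤ B + 4 := by exact_mod_cast h3
    have h5 := special_cmp hh hNr 30 31 (by norm_num)
    have hl31 := special_div hh hNr 31 (by norm_num)
    have hl31' : (10 : ℝ) ^ 6 ≤ (2 * (m : ℝ) + 1) / (h : ℝ) ^ 31 := h1.trans hl31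
    norm_num at hl31' h5
    linarith
  · intro β hβ γ hγ
    refine hZ1.trans ?_
    have h2 : Z0 + 1 ≤
        ((univ.image f).filter (fun e => blc h e.1 = β ∧ bls h e.2 = γ)).card := by
      have h3 : (univ : Finset (Fin (Z0 + 1))).card ≤
          ((univ.image f).filter (fun e => blc h e.1 = β ∧ bls h e.2 = γ)).card := by
        refine Finset.card_le_card_of_injOn (fun z => f ((⟨β, hβ⟩, ⟨γ, hγ⟩), z)) ?_ ?_
        · intro z _
          rw [mem_coe, mem_filter]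
          refine ⟨mem_image_of_mem f (mem_univ _), ?_⟩
          have h4 := hmem ((⟨β, hβ⟩, ⟨γ, hγ⟩), z)
          exact ⟨h4.1, h4.2.1⟩
        · intro z _ z' _ h4
          have h5 := hfi h4
          simpa using h5
      rwa [Finset.card_univ, Fintype.card_fin] at h3
    exact_mod_cast h2

end H77.LT
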