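import Pool.Agent.H77.LT.FinB
import Pool.Agent.H77.LT.MainNib
import Pool.Agent.H77.LT.Reserve
import Pool.Agent.H77.LT.Special
import Pool.Agent.H77.LT.AbsW
import Pool.Agent.H77.LT.DegU
import Pool.Agent.H77.LT.Imb
import Pool.Agent.H77.LT.HEx

/-!
# Latin triangles: the core theorem (helper77)
-/

open Finset

namespace H77.LT

theorem finc_union {V : Type} [DecidableEq V] (X F P A Y : Finset V) :
    X ∪ F ∪ (P ∪ (A ∪ Y)) = X ∪ P ∪ F ∪ Y ∪ A := by
  ext v
  simp only [mem_union]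
  tauto

theorem core : ∃ m0 : ℕ, ∀ (m n : ℕ) (F : Finset (Fin 3 × Fin m × Fin n)), m0 ≤ m →
    Forb m n F → PM (univ \ ents F : Finset (Vt m n)) := by
  classical
  obtain ⟨c1, H1, k1, hnib⟩ := main_nib 90
  obtain ⟨H2, k2, hresv⟩ := exists_reserve (max (c1 + 1) 100)
  set E : ℕ := max (c1 + 1) 100 with hE
  obtain ⟨m0, hm0⟩ := hex (max (max H1 H2) E) (max (max k1 k2) (10 ^ 6))
  refine ⟨max m0 1, ?_⟩
  intro m n F hm hF
  obtain ⟨h, he, hh0, hhH, hlog⟩ := hm0 m (le_trans (le_max_left _ _) hm)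
  have hm1 : 1 ≤ m := le_trans (le_max_right _ _) hm
  have hhk1 : k1 ≤ h := le_trans (le_trans (le_max_left _ _) (le_max_left _ _)) hh0
  have hhk2 : k2 ≤ h := le_trans (le_trans (le_max_right _ _) (le_max_left _ _)) hh0
  have hh : 10 ^ 6 ≤ h := le_trans (le_max_right _ _) hh0
  have hhpos : 0 < h := lt_of_lt_of_le (by norm_num) hh
  have hh2 : 2 ≤ h := le_trans (by norm_num) hh
  have hpow : ∀ k, k ≤ max (max H1 H2) E → h ^ k ≤ 2 * m + 1 := fun k hk =>
    (Nat.pow_le_pow_right hhpos hk).trans hhH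
  have hE100 : 100 ≤ E := le_max_right _ _
  have hEc : c1 + 1 ≤ E := le_max_left _ _
  have hE20 : 20 ≤ E := le_trans (by norm_num) hE100
  have hN1 : h ^ H1 ≤ 2 * m + 1 := hpow _ (le_trans (le_max_left _ _) (le_max_left _ _))
  have hN2 : h ^ H2 ≤ 2 * m + 1 := hpow _ (le_trans (le_max_right _ _) (le_max_left _ _))
  have hNE : h ^ E ≤ 2 * m + 1 := hpow _ (le_max_right _ _)
  have hN100 : h ^ 100 ≤ 2 * m + 1 := (Nat.pow_le_pow_right hhpos hE100).trans hNE
  have hN20 : h ^ 20 ≤ 2 * m + 1 := (Nat.pow_le_pow_right hhpos hE20).trans hNE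
  have n2 : n ≤ 2 * m + 3 := hF.hn
  have n1 : 2 * m - 1 ≤ n := by
    have := hF.line 0 ⟨0, hm1⟩
    omega
  have hp : Par m n h := ⟨n1, n2, hlog, hN20⟩
  have hnpos : 0 < n := by omega
  -- reserve, special edges
  obtain ⟨XQ, XE, hres⟩ := hresv m n h F he hhk2 hN2 hF
  obtain ⟨PP, hPP, hPPd, hP, hZ⟩ := special he hh hE20 hN100 n1 F hF XQ XE hres
  set Y : Finset (Fin 3 × Fin m × Fin n) := univ.filter (fun e => OnB h e ∧ e ∉ XE ∧ e ∉ F ∧
    (Sum.inr e : Vt m n) ∉ cov PP) with hYdef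
  have hY : ∀ e, e ∈ Y ↔ OnB h e ∧ e ∉ XE ∧ e ∉ F ∧ (Sum.inr e : Vt m n) ∉ cov PP := by
    intro e
    rw [hYdef, mem_filter]
    exact ⟨fun h => h.2, fun h => ⟨mem_univ _, h⟩⟩
  have hYb : ∀ e ∈ Y, OnB h e := fun e he => ((hY e).1 he).1
  have hdU := degU hh hE20 hN100 n1 F hF XQ XE hres PP hP Y hYb
  obtain ⟨A, hA, hAdeg, hflex⟩ := absorber hp
    (cels XQ ∪ ents XE ∪ cov PP ∪ ents F ∪ ents Y) Y hYb subset_union_right hdU
  have hAY : PM (A ∪ ents Y) := by
    have h1 := hflex ∅ ∅ (fun _ => ⟨0, hnpos⟩) (by simp [cels]) (by simp [ents])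
      (disjoint_empty_left _) (by simp) (by simp) (by simp) (by simp) (by simp)
    simpa [cels, ents] using h1
  -- the set C
  have hCF : ents F ⊆ (cels XQ ∪ ents XE ∪ cov PP ∪ ents F ∪ ents Y ∪ A : Finset (Vt m n)) := by
    intro v hv
    exact mem_union_left _ (mem_union_left _ (mem_union_right _ hv))
  have hCdeg : ∀ σ, (deg (cels XQ ∪ ents XE ∪ cov PP ∪ ents F ∪ ents Y ∪ A : Finset (Vt m n)) σ : ℝ)
      ≤ (2 * m + 1) / (h : ℝ) := by
    intro σ
    have h1 := hAdeg σ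
    have h2 : h * q3 m h * h ≤ 2 * m + 1 := by
      unfold q3
      have h3 : (2 * m + 1) / h ^ 3 * h ^ 3 ≤ 2 * m + 1 := Nat.div_mul_le_self _ _
      have h4 : h * ((2 * m + 1) / h ^ 3) * h ≤ (2 * m + 1) / h ^ 3 * h ^ 3 := by
        have h5 : h * h ≤ h ^ 3 := by
          calc h * h = h * h * 1 := (mul_one _).symm
            _ ≤ h * h * h := Nat.mul_le_mul_left _ hhpos
            _ = h ^ 3 := by ring
        calc h * ((2 * m + 1) / h ^ 3) * h = (2 * m + 1) / h ^ 3 * (h * h) := by ring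
          _ ≤ (2 * m + 1) / h ^ 3 * h ^ 3 := Nat.mul_le_mul_left _ h5
      exact h4.trans h3
    have h6 : deg (cels XQ ∪ ents XE ∪ cov PP ∪ ents F ∪ ents Y ∪ A : Finset (Vt m n)) σ * h
        ≤ 2 * m + 1 := (Nat.mul_le_mul_right _ h1).trans h2
    have hh' : (0 : ℝ) < h := by exact_mod_cast hhpos
    rw [le_div_iff₀ hh']
    exact_mod_cast h6
  have hdAY : Disjoint (A ∪ ents Y : Finset (Vt m n)) (cels XQ ∪ ents XE ∪ ents F ∪ cov PP) := by
    rw [disjoint_left]
    intro v hv hv'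
    rw [mem_union] at hv
    rcases hv with hv | hv
    · have h1 := (disjoint_left.1 hA) hv
      apply h1
      rw [mem_union, mem_union] at hv'
      rcases hv' with (hv' | hv') | hv'
      · exact mem_union_left _ (mem_union_left _ (mem_union_left _ hv'))
      · exact mem_union_left _ (mem_union_right _ hv')
      · exact mem_union_left _ (mem_union_left _ (mem_union_right _ hv'))
    · unfold ents at hv
      rw [mem_image] at hv
      obtain ⟨e, he1, rfl⟩ := hv
      obtain ⟨_, h2, h3, h4⟩ := (hY e).1 he1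
      rw [mem_union, mem_union, mem_union] at hv'
      rcases hv' with ((hv' | hv') | hv') | hv'
      · unfold cels at hv'
        rw [mem_image] at hv'
        obtain ⟨q, _, hq⟩ := hv'
        exact absurd hq (by simp)
      · unfold ents at hv'
        rw [mem_image] at hv'
        obtain ⟨e', he', hq⟩ := hv'
        rw [Sum.inr.inj hq] at he'
        exact h2 he'
      · unfold ents at hv'
        rw [mem_image] at hv'
        obtain ⟨e', he', hq⟩ := hv'
        rw [Sum.inr.inj hq] at he'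
        exact h3 he'
      · exact h4 hv'
  have hBW : Bal (cov PP ∪ (A ∪ ents Y) : Finset (Vt m n)) := by
    apply bal_union _ _ (bal_PM _ ⟨PP, hPP, rfl⟩) (bal_PM _ hAY)
    exact (disjoint_of_subset_right subset_union_right hdAY).symm
  have hWF : Disjoint (cov PP ∪ (A ∪ ents Y) : Finset (Vt m n)) (ents F) := by
    rw [disjoint_union_left]
    refine ⟨disjoint_of_subset_right subset_union_right hPPd,
      disjoint_of_subset_right ?_ hdAY⟩
    intro v hv
    exact mem_union_left _ (mem_union_right _ hv)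
  have hWX : Disjoint (cov PP ∪ (A ∪ ents Y) : Finset (Vt m n)) (cels XQ ∪ ents XE) := by
    rw [disjoint_union_left]
    refine ⟨disjoint_of_subset_right subset_union_left hPPd,
      disjoint_of_subset_right ?_ hdAY⟩
    intro v hv
    exact mem_union_left _ (mem_union_left _ hv)
  have himb := imb hh2 hEc F hF XQ XE hres (cov PP ∪ (A ∪ ents Y)) hBW hWF hWX
  have hCe : (cels XQ ∪ ents XE ∪ ents F ∪ (cov PP ∪ (A ∪ ents Y)) : Finset (Vt m n))
      = cels XQ ∪ ents XE ∪ cov PP ∪ ents F ∪ ents Y ∪ A :=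
    finc_union _ _ _ _ _
  rw [hCe] at himb
  obtain ⟨M, hM, hMd, hMR⟩ := hnib m n h F
    (cels XQ ∪ ents XE ∪ cov PP ∪ ents F ∪ ents Y ∪ A) hhk1 hN1 hF hCF hCdeg himb.1 himb.2
  exact finb he hh hE100 hNE n1 F hF XQ XE hres PP hPP hPPd hP hZ Y hY A hA hflex hAY M hM hMd hMR

end H77.LT
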