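import Pool.Agent.H77.LT.Euler

/-!
# [H77 LT FLOW1] Zero sum vectors on a hypercube

`fl u i` is the vertex `u` of the hypercube `Fin t → Bool` with coordinate `i` flipped.
`flow1`: every integer vector on the hypercube with entries in `[-1,1]` and sum zero is a sum of
differences `1_w - 1_(fl w j)`, `(w,j)` in a finite set `act` (so each hypercube edge is used at
most once in each direction; in fact at most once).

Proof. Induction on `t`. For `t = 0` the sum is the single entry, which is zero. Step:
`Fin (t+1) → Bool` is `Bool × (Fin t → Bool)` through `Fin.cons`. Let `y0, y1` be the restrictions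
to first coordinate `false`, `true`. Use `halve` with `R = Unit × ...`? (one may simply apply
`halve` to the matrices with `C = Bool`: rows `r = w`, `x0 w false = y0 w`, `x0 w true = - y0 w`,
the same for `x1`; then its `y` has `y w true = - y w false`.) This gives an integer vector
`z : (Fin t → Bool) → ℤ` with `|z| ≤ 1`, `|y0 - z| ≤ 1`, `|y1 + z| ≤ 1`, `∑ (y0 - z) = 0`,
`∑ (y1 + z) = 0`. Apply the induction hypothesis to `y0 - z` and `y1 + z`, lift the sets of pairs
(`(w,j) ↦ (cons b w, j.succ)`), and add the pairs `(cons false w, 0)` for `z w = 1` and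
`(cons true w, 0)` for `z w = -1`.
`fl (cons b w) j.succ = cons b (fl w j)` and `fl (cons b w) 0 = cons (!b) w`.
-/

open Finset

namespace H77.LT

def fl {t : ℕ} (u : Fin t → Bool) (i : Fin t) : Fin t → Bool := Function.update u i (!(u i))

theorem fl_fl {t : ℕ} (u : Fin t → Bool) (i : Fin t) : fl (fl u i) i = u := by
  unfold fl
  rw [Function.update_idem, Function.update_self, Bool.not_not, Function.update_eq_self]

theorem fl_ne {t : ℕ} (u : Fin t → Bool) (i : Fin t) : fl u i ≠ u := by
  intro h
  have h1 := congrFun h i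
  unfold fl at h1
  rw [Function.update_self] at h1
  cases hu : u i <;> rw [hu] at h1 <;> simp at h1

theorem fl_cons_succ {t : ℕ} (b : Bool) (u : Fin t → Bool) (i : Fin t) :
    fl (Fin.cons b u : Fin (t + 1) → Bool) i.succ = (Fin.cons b (fl u i) : Fin (t + 1) → Bool) := by
  unfold fl
  rw [Fin.cons_succ, Fin.cons_update]

theorem fl_cons_zero {t : ℕ} (b : Bool) (u : Fin t → Bool) :
    fl (Fin.cons b u : Fin (t + 1) → Bool) 0 = (Fin.cons (!b) u : Fin (t + 1) → Bool) := by
  unfold fl
  rw [Fin.cons_zero, Fin.update_cons_zero]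

/-- the sum over the hypercube is the sum over its two faces -/
theorem flow1_sum {t : ℕ} (y : (Fin (t + 1) → Bool) → ℤ) :
    ∑ w, y w = ∑ w : Fin t → Bool, y (Fin.cons false w) + ∑ w : Fin t → Bool, y (Fin.cons true w) := by
  have h1 : ∑ w, y w = ∑ p : Bool × (Fin t → Bool), y (Fin.cons p.1 p.2) :=
    (Fintype.sum_equiv (Fin.consEquiv (fun _ : Fin (t + 1) => Bool))
      (fun p => y (Fin.cons p.1 p.2)) y (fun p => rfl)).symm
  rw [h1, Fintype.sum_prod_type, Fintype.sum_bool, add_comm]

theorem flow1_ind (t : ℕ) : ∀ (y : (Fin t → Bool) → ℤ) (_hy : ∀ w, |y w| ≤ 1) (_h : ∑ w, y w = 0),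
    ∃ χ : (Fin t → Bool) → Fin t → Bool, ∀ w,
      y w = ∑ i, ((if χ w i = true then (1 : ℤ) else 0) -
        (if χ (fl w i) i = true then (1 : ℤ) else 0)) := by
  induction t with
  | zero =>
    intro y _ h
    refine ⟨fun _ _ => false, fun w => ?_⟩
    rw [Fintype.sum_unique] at h
    rw [Finset.univ_eq_empty, sum_empty, ← h]
    congr 1
    exact Subsingleton.elim _ _
  | succ t ih =>
    intro y hy h
    rw [flow1_sum] at h
    have hab : ∀ a : ℤ, |a| ≤ 1 → |(-a)| ≤ 1 := fun a ha => by rwa [abs_neg]
    obtain ⟨z, hz, hz0, hz1, -, hs0, hs1⟩ := halve (R := Fin t → Bool) (C := Bool)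
      (fun w b => if b = true then -y (Fin.cons false w) else y (Fin.cons false w))
      (fun w b => if b = true then -y (Fin.cons true w) else y (Fin.cons true w))
      (by
        intro w b
        cases b
        · exact hy _
        · exact hab _ (hy _))
      (by
        intro w b
        cases b
        · exact hy _
        · exact hab _ (hy _))
      (by
        intro w
        rw [Fintype.sum_bool]
        simp)
      (by
        intro w
        rw [Fintype.sum_bool]
        simp)
      (by
        intro b
        cases b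
        · simpa using h
        · simp only [if_true, sum_neg_distrib]
          linarith)
    have e0 := hs0 false
    have e1 := hs1 false
    obtain ⟨χ0, h0⟩ := ih (fun w => y (Fin.cons false w) - z w false) (fun w => hz0 w false) e0
    obtain ⟨χ1, h1⟩ := ih (fun w => y (Fin.cons true w) + z w false) (fun w => hz1 w false) e1
    refine ⟨fun u i => Fin.cases (motive := fun _ => Bool)
      (if u 0 = true then decide (z (Fin.tail u) false = -1) else decide (z (Fin.tail u) false = 1))
      (fun i => if u 0 = true then χ1 (Fin.tail u) i else χ0 (Fin.tail u) i) i, fun u => ?_⟩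
    obtain ⟨b, w, rfl⟩ : ∃ (b : Bool) (w : Fin t → Bool), u = (Fin.cons b w : Fin (t + 1) → Bool) :=
      ⟨u 0, Fin.tail u, (Fin.cons_self_tail u).symm⟩
    rw [Fin.sum_univ_succ]
    simp only [fl_cons_succ, fl_cons_zero, Fin.cases_zero, Fin.cases_succ, Fin.cons_zero,
      Fin.tail_cons]
    have hzb := abs_le.1 (hz w false)
    cases b
    · have h2 := h0 w
      simp only [Bool.false_eq_true, if_false, Bool.not_false, if_true, decide_eq_true_eq]
      rw [← h2]
      rcases (by omega : z w false = -1 ∨ z w false = 0 ∨ z w false = 1) with h3 | h3 | h3 <;>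
        rw [h3] <;> simp
    · have h2 := h1 w
      simp only [Bool.false_eq_true, if_false, Bool.not_true, if_true, decide_eq_true_eq]
      rw [← h2]
      rcases (by omega : z w false = -1 ∨ z w false = 0 ∨ z w false = 1) with h3 | h3 | h3 <;>
        rw [h3] <;> simp

theorem flow1 (t : ℕ) (y : (Fin t → Bool) → ℤ) (hy : ∀ w, |y w| ≤ 1) (h : ∑ w, y w = 0) :
    ∃ act : Finset ((Fin t → Bool) × Fin t), ∀ w,
      y w = ((act.filter (fun r => r.1 = w)).card : ℤ)
        - ((act.filter (fun r => fl r.1 r.2 = w)).card : ℤ) := by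
  obtain ⟨χ, hχ⟩ := flow1_ind t y hy h
  refine ⟨univ.filter (fun r => χ r.1 r.2 = true), fun w => ?_⟩
  have h1 : ((univ.filter (fun r : (Fin t → Bool) × Fin t => χ r.1 r.2 = true)).filter
      (fun r => r.1 = w)) = (univ.filter (fun i => χ w i = true)).image (fun i => (w, i)) := by
    ext ⟨a, i⟩
    simp only [mem_filter, mem_univ, true_and, mem_image, Prod.mk.injEq]
    constructor
    · rintro ⟨h2, rfl⟩
      exact ⟨i, h2, rfl, rfl⟩
    · rintro ⟨j, h2, rfl, rfl⟩
      exact ⟨h2, rfl⟩
  have h2 : ((univ.filter (fun r : (Fin t → Bool) × Fin t => χ r.1 r.2 = true)).filter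
      (fun r => fl r.1 r.2 = w)) =
      (univ.filter (fun i => χ (fl w i) i = true)).image (fun i => (fl w i, i)) := by
    ext ⟨a, i⟩
    simp only [mem_filter, mem_univ, true_and, mem_image, Prod.mk.injEq]
    constructor
    · rintro ⟨h2, rfl⟩
      refine ⟨i, ?_, fl_fl a i, rfl⟩
      rw [fl_fl]
      exact h2
    · rintro ⟨j, h2, rfl, rfl⟩
      exact ⟨h2, fl_fl w j⟩
  rw [h1, h2, card_image_of_injective _ (fun i j hij => (Prod.mk.inj hij).2),
    card_image_of_injective _ (fun i j hij => (Prod.mk.inj hij).2), hχ w, sum_sub_distrib,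
    card_filter, card_filter]
  push_cast
  rfl

end H77.LT
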