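import Pool.Agent.H77.LT.TdA

/-!
# [H77 LT MARG] The statistic has zero marginals

`X = cels XQ ∪ ents XE` with `XE` board entries, `R` disjoint from `X`, `X ∪ R` balanced. Then the
function `T δ = (sum of tw over X) + (sum of dd over R)` has zero marginals.

Proof. Let `a l = [l % K = i]`, `c s = [s % K = i]`, `K = KK h κ`, and for a set `W` of vertices let
`C W`, `L W`, `S κ' W` be the sums of `a (ln κ q)` over the cells, of `a l` over the entries
`(κ, l, s)` and of `c s` over the entries `(κ', l, s)` of `W`. Summed over the blocks `δ` with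
`δ κ = i` the statistic is `S 0 X - C X + (L R + S 0 R - S κ R - C R)`. Balance: `S 0 W = S κ W`,
`C W = L W` for `W = X ∪ R`; board: `S κ X = L X`.
-/

open Finset

namespace H77.LT

variable {m n h : ℕ}

/-- indicator of the residue -/
def margA (h : ℕ) (κ : Fin 3) (i x : ℕ) : ℤ := if x % KK h κ = i then 1 else 0

/-- cells -/
def margC (h : ℕ) (κ : Fin 3) (i : ℕ) : Vt m n → ℤ
  | Sum.inl q => margA h κ i (ln κ q).val
  | Sum.inr _ => 0

/-- lines of entries -/
def margL (h : ℕ) (κ : Fin 3) (i : ℕ) : Vt m n → ℤ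
  | Sum.inl _ => 0
  | Sum.inr e => if e.1 = κ then margA h κ i e.2.1.val else 0

/-- symbols of entries of direction `κ'` -/
def margS (h : ℕ) (κ κ' : Fin 3) (i : ℕ) : Vt m n → ℤ
  | Sum.inl _ => 0
  | Sum.inr e => if e.1 = κ' then margA h κ i e.2.2.val else 0

theorem marg_deg {ι : Type*} [Fintype ι] (W : Finset (Vt m n)) (f : ι → ℤ) (σ : ι → Star m n) :
    ∑ l, f l * (deg W (σ l) : ℤ) = ∑ v ∈ W, ∑ l, (if σ l ∈ star v then f l else 0) := by
  rw [Finset.sum_comm]
  apply Finset.sum_congr rfl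
  intro l _
  unfold deg
  rw [Finset.card_filter, Nat.cast_sum, Finset.mul_sum]
  apply Finset.sum_congr rfl
  intro v _
  split_ifs
  · rw [Nat.cast_one, mul_one]
  · rw [Nat.cast_zero, mul_zero]

theorem marg_sumC (W : Finset (Vt m n)) (κ : Fin 3) (i : ℕ) :
    ∑ v ∈ W, margC h κ i v =
      ∑ l : Fin m, margA h κ i l.val * (deg W (Sum.inl (κ, l)) : ℤ) := by
  rw [marg_deg W (fun l : Fin m => margA h κ i l.val) (fun l => Sum.inl (κ, l))]
  apply Finset.sum_congr rfl
  intro v _
  rcases v with q | e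
  · have h1 : ∀ l : Fin m, ((Sum.inl (κ, l) : Star m n) ∈ star (Sum.inl q : Vt m n)) ↔
        ln κ q = l := by
      intro l
      simp only [star, mem_image, mem_univ, true_and, Sum.inl.injEq, Prod.mk.injEq]
      constructor
      · rintro ⟨κ', h1, h2⟩
        rw [← h2, h1]
      · intro h1
        exact ⟨κ, rfl, h1⟩
    simp only [h1]
    rw [Finset.sum_ite_eq, if_pos (mem_univ _)]
    rfl
  · have h1 : ∀ l : Fin m, ¬ ((Sum.inl (κ, l) : Star m n) ∈ star (Sum.inr e : Vt m n)) := by
      intro l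
      simp [star]
    simp only [h1, if_false, Finset.sum_const_zero]
    rfl

theorem marg_sumL (W : Finset (Vt m n)) (κ : Fin 3) (i : ℕ) :
    ∑ v ∈ W, margL h κ i v =
      ∑ l : Fin m, margA h κ i l.val * (deg W (Sum.inr (Sum.inl (κ, l))) : ℤ) := by
  rw [marg_deg W (fun l : Fin m => margA h κ i l.val) (fun l => Sum.inr (Sum.inl (κ, l)))]
  apply Finset.sum_congr rfl
  intro v _
  rcases v with q | e
  · have h1 : ∀ l : Fin m,
        ¬ ((Sum.inr (Sum.inl (κ, l)) : Star m n) ∈ star (Sum.inl q : Vt m n)) := by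
      intro l
      simp [star]
    simp only [h1, if_false, Finset.sum_const_zero]
    rfl
  · have h1 : ∀ l : Fin m,
        ((Sum.inr (Sum.inl (κ, l)) : Star m n) ∈ star (Sum.inr e : Vt m n)) ↔
          (e.1 = κ ∧ e.2.1 = l) := by
      intro l
      simp only [star, mem_insert, mem_singleton, Sum.inr.injEq, Sum.inl.injEq, Prod.mk.injEq,
        reduceCtorEq, or_false]
      constructor
      · rintro ⟨h1, h2⟩
        exact ⟨h1.symm, h2.symm⟩
      · rintro ⟨h1, h2⟩
        exact ⟨h1.symm, h2.symm⟩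
    simp only [h1]
    change (if e.1 = κ then margA h κ i e.2.1.val else 0) = _
    by_cases h2 : e.1 = κ
    · simp only [h2, true_and, if_true]
      rw [Finset.sum_ite_eq, if_pos (mem_univ _)]
    · simp only [h2, false_and, if_false, Finset.sum_const_zero]

theorem marg_sumS (W : Finset (Vt m n)) (κ κ' : Fin 3) (i : ℕ) :
    ∑ v ∈ W, margS h κ κ' i v =
      ∑ s : Fin n, margA h κ i s.val * (deg W (Sum.inr (Sum.inr (κ', s))) : ℤ) := by
  rw [marg_deg W (fun s : Fin n => margA h κ i s.val) (fun s => Sum.inr (Sum.inr (κ', s)))]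
  apply Finset.sum_congr rfl
  intro v _
  rcases v with q | e
  · have h1 : ∀ s : Fin n,
        ¬ ((Sum.inr (Sum.inr (κ', s)) : Star m n) ∈ star (Sum.inl q : Vt m n)) := by
      intro l
      simp [star]
    simp only [h1, if_false, Finset.sum_const_zero]
    rfl
  · have h1 : ∀ s : Fin n,
        ((Sum.inr (Sum.inr (κ', s)) : Star m n) ∈ star (Sum.inr e : Vt m n)) ↔
          (e.1 = κ' ∧ e.2.2 = s) := by
      intro l
      simp only [star, mem_insert, mem_singleton, Sum.inr.injEq, Prod.mk.injEq,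
        reduceCtorEq, false_or]
      constructor
      · rintro ⟨h1, h2⟩
        exact ⟨h1.symm, h2.symm⟩
      · rintro ⟨h1, h2⟩
        exact ⟨h1.symm, h2.symm⟩
    simp only [h1]
    change (if e.1 = κ' then margA h κ i e.2.2.val else 0) = _
    by_cases h2 : e.1 = κ'
    · simp only [h2, true_and, if_true]
      rw [Finset.sum_ite_eq, if_pos (mem_univ _)]
    · simp only [h2, false_and, if_false, Finset.sum_const_zero]

theorem marg_ind (β : Fin 3 → ℕ) (hβ : β ∈ Blks h) (κ : Fin 3) (i : ℕ) :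
    ∑ δ ∈ (Blks h).filter (fun δ => δ κ = i), (if β = δ then (1 : ℤ) else 0) =
      if β κ = i then 1 else 0 := by
  rw [Finset.sum_ite_eq]
  simp only [mem_filter, hβ, true_and]

theorem marg_ble_mem (hh : 2 ≤ h) (e : Fin 3 × Fin m × Fin n) : ble h e ∈ Blks h := by
  have h1 := (mem_Blks _).1 (bls_mem hh e.2.2)
  rw [mem_Blks]
  intro κ'
  unfold ble
  by_cases h2 : κ' = e.1
  · subst h2
    rw [Function.update_self]
    exact Nat.mod_lt _ (lt_of_le_of_lt (Nat.zero_le _) (h1 e.1))
  · rw [Function.update_of_ne h2]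
    exact h1 κ'

theorem marg_tw (hh : 2 ≤ h) (κ : Fin 3) (i : ℕ) (v : Vt m n) :
    ∑ δ ∈ (Blks h).filter (fun δ => δ κ = i), tw h δ v =
      margS h κ 0 i v - margC h κ i v := by
  rcases v with q | e
  · change ∑ δ ∈ (Blks h).filter (fun δ => δ κ = i), -(if blc h q = δ then (1 : ℤ) else 0) =
      0 - margA h κ i (ln κ q).val
    rw [Finset.sum_neg_distrib, marg_ind _ (blc_mem hh q), zero_sub]
    rfl
  · change ∑ δ ∈ (Blks h).filter (fun δ => δ κ = i),
        (if e.1 = 0 ∧ bls h e.2.2 = δ then (1 : ℤ) else 0) =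
      (if e.1 = 0 then margA h κ i e.2.2.val else 0) - 0
    rw [sub_zero]
    by_cases h1 : e.1 = 0
    · simp only [h1, true_and, if_true]
      rw [marg_ind _ (bls_mem hh e.2.2)]
      rfl
    · simp only [h1, false_and, if_false, Finset.sum_const_zero]

theorem marg_dd (hh : 2 ≤ h) (κ : Fin 3) (i : ℕ) (v : Vt m n) :
    ∑ δ ∈ (Blks h).filter (fun δ => δ κ = i), dd h δ v =
      margL h κ i v + margS h κ 0 i v - margS h κ κ i v - margC h κ i v := by
  rcases v with q | e
  · change ∑ δ ∈ (Blks h).filter (fun δ => δ κ = i), -(if blc h q = δ then (1 : ℤ) else 0) =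
      0 + 0 - 0 - margA h κ i (ln κ q).val
    rw [Finset.sum_neg_distrib, marg_ind _ (blc_mem hh q)]
    simp only [add_zero, sub_zero, zero_sub]
    rfl
  · change ∑ δ ∈ (Blks h).filter (fun δ => δ κ = i),
        ((if ble h e = δ then (1 : ℤ) else 0) -
          (if e.1 ≠ 0 ∧ bls h e.2.2 = δ then 1 else 0)) =
      (if e.1 = κ then margA h κ i e.2.1.val else 0) +
        (if e.1 = 0 then margA h κ i e.2.2.val else 0) -
        (if e.1 = κ then margA h κ i e.2.2.val else 0) - 0
    rw [Finset.sum_sub_distrib, marg_ind _ (marg_ble_mem hh e)]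
    have h1 : ∑ δ ∈ (Blks h).filter (fun δ => δ κ = i),
        (if e.1 ≠ 0 ∧ bls h e.2.2 = δ then (1 : ℤ) else 0) =
        if e.1 = 0 then 0 else margA h κ i e.2.2.val := by
      by_cases h2 : e.1 = 0
      · simp only [h2, ne_eq, not_true_eq_false, false_and, if_false, Finset.sum_const_zero,
          if_true]
      · simp only [h2, ne_eq, not_false_eq_true, true_and, if_false]
        rw [marg_ind _ (bls_mem hh e.2.2)]
        rfl
    rw [h1]
    have h2 : (if ble h e κ = i then (1 : ℤ) else 0) =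
        if e.1 = κ then margA h κ i e.2.1.val else margA h κ i e.2.2.val := by
      unfold ble
      by_cases h3 : e.1 = κ
      · subst h3
        rw [Function.update_self, if_pos rfl]
        rfl
      · rw [Function.update_of_ne (Ne.symm h3), if_neg h3]
        rfl
    rw [h2]
    split_ifs <;> ring

theorem marg_board (XQ : Finset (Cell m)) (XE : Finset (Fin 3 × Fin m × Fin n))
    (hb : ∀ e ∈ XE, OnB h e) (κ : Fin 3) (i : ℕ) :
    ∑ v ∈ (cels XQ ∪ ents XE : Finset (Vt m n)), margS h κ κ i v =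
      ∑ v ∈ (cels XQ ∪ ents XE : Finset (Vt m n)), margL h κ i v := by
  apply Finset.sum_congr rfl
  intro v hv
  rcases v with q | e
  · rfl
  · change (if e.1 = κ then margA h κ i e.2.2.val else 0) =
      (if e.1 = κ then margA h κ i e.2.1.val else 0)
    have h1 : e ∈ XE := by
      rcases mem_union.1 hv with h2 | h2
      · unfold cels at h2
        obtain ⟨q, _, hq⟩ := mem_image.1 h2
        cases hq
      · unfold ents at h2
        obtain ⟨e', he', h3⟩ := mem_image.1 h2
        have h4 : e' = e := Sum.inr_injective h3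
        rw [← h4]
        exact he'
    by_cases h3 : e.1 = κ
    · rw [if_pos h3, if_pos h3]
      have h4 := hb e h1
      unfold OnB at h4
      rw [h3] at h4
      unfold margA
      rw [h4]
    · rw [if_neg h3, if_neg h3]

theorem marg (hh : 2 ≤ h) (XQ : Finset (Cell m)) (XE : Finset (Fin 3 × Fin m × Fin n))
    (hb : ∀ e ∈ XE, OnB h e) (R : Finset (Vt m n)) (hd : Disjoint (cels XQ ∪ ents XE) R)
    (hbal : Bal (cels XQ ∪ ents XE ∪ R)) (κ : Fin 3) (i : ℕ) :
    ∑ δ ∈ (Blks h).filter (fun δ => δ κ = i),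
      (∑ v ∈ (cels XQ ∪ ents XE : Finset (Vt m n)), tw h δ v + ∑ v ∈ R, dd h δ v) = 0 := by
  rw [Finset.sum_add_distrib, Finset.sum_comm (t := (cels XQ ∪ ents XE : Finset (Vt m n))),
    Finset.sum_comm (t := R)]
  simp only [marg_tw hh, marg_dd hh]
  have hC : ∑ v ∈ (cels XQ ∪ ents XE ∪ R : Finset (Vt m n)), margC h κ i v =
      ∑ v ∈ (cels XQ ∪ ents XE ∪ R : Finset (Vt m n)), margL h κ i v := by
    rw [marg_sumC, marg_sumL]
    apply Finset.sum_congr rfl
    intro l _
    rw [hbal.1 κ l]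
  have hS : ∑ v ∈ (cels XQ ∪ ents XE ∪ R : Finset (Vt m n)), margS h κ 0 i v =
      ∑ v ∈ (cels XQ ∪ ents XE ∪ R : Finset (Vt m n)), margS h κ κ i v := by
    rw [marg_sumS, marg_sumS]
    apply Finset.sum_congr rfl
    intro s _
    rw [hbal.2 0 κ s]
  rw [Finset.sum_union hd, Finset.sum_union hd] at hC hS
  have hB := marg_board XQ XE hb κ i
  rw [Finset.sum_sub_distrib, Finset.sum_sub_distrib, Finset.sum_sub_distrib,
    Finset.sum_add_distrib]
  linarith

end H77.LT
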