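import Pool.Agent.H77.LT.Blocks
import Pool.Agent.H77.LT.PMl
import Pool.Agent.H77.LT.Flow1

/-!
# Latin triangles: boards and nodes. Definitions (no proofs to fill)

For each direction `κ` and residue `i` modulo `KK h κ` there is a board `⟨κ,i⟩`; its rows are the
lines `eL b u`, `u` in a hypercube, among them all lines with residue `i`; its columns are the symbols
`eS b w`, among them all symbols with residue `i`. The other rows and columns of a board are taken from
the classes `i+1, i+2`, so that every line (symbol) is in at most 3 boards of a direction.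
A node is a position in a board; a node is at home if its line and its symbol have residue `i`.
An oriented rectangle `r = (ν,(i,j))` has plus corners `ν = (b,u,w)` and `(b, fl u i, fl w j)`,
minus corners `(b, u, fl w j)` (number 3) and `(b, fl u i, w)` (number 4).
-/

open Finset

namespace H77.LT

abbrev BI (h : ℕ) : Type := Σ κ : Fin 3, Fin (KK h κ)

abbrev Nd (h tL tS : ℕ) : Type := BI h × ((Fin tL → Bool) × (Fin tS → Bool))

abbrev Rc (h tL tS : ℕ) : Type := Nd h tL tS × (Fin tL × Fin tS)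

structure Brd (m n h tL tS : ℕ) where
  eL : BI h → (Fin tL → Bool) → Fin m
  eS : BI h → (Fin tS → Bool) → Fin n
  injL : ∀ b, Function.Injective (eL b)
  injS : ∀ b, Function.Injective (eS b)
  covL : ∀ (κ : Fin 3) (l : Fin m), ∃ (i : Fin (KK h κ)) (u : Fin tL → Bool),
    i.val = l.val % KK h κ ∧ eL ⟨κ, i⟩ u = l
  covS : ∀ (κ : Fin 3) (s : Fin n), ∃ (i : Fin (KK h κ)) (w : Fin tS → Bool),
    i.val = s.val % KK h κ ∧ eS ⟨κ, i⟩ w = s
  mulL : ∀ (κ : Fin 3) (l : Fin m),
    (univ.filter (fun x : Fin (KK h κ) × (Fin tL → Bool) => eL ⟨κ, x.1⟩ x.2 = l)).card ≤ 3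
  mulS : ∀ (κ : Fin 3) (s : Fin n),
    (univ.filter (fun x : Fin (KK h κ) × (Fin tS → Bool) => eS ⟨κ, x.1⟩ x.2 = s)).card ≤ 3
  szL : 2 ^ tL * h ^ 4 ≤ 4 * (2 * m + 1)
  szS : 2 ^ tS * h ^ 4 ≤ 4 * (2 * m + 1)
  tLle : tL ≤ Nat.log 2 (2 * m + 1) + 2
  tSle : tS ≤ Nat.log 2 (2 * m + 1) + 2

variable {m n h tL tS : ℕ}

/-- direction of a node -/
def ndK (ν : Nd h tL tS) : Fin 3 := ν.1.1

/-- line of a node -/
def ndL (B : Brd m n h tL tS) (ν : Nd h tL tS) : Fin m := B.eL ν.1 ν.2.1

/-- symbol of a node -/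
def ndS (B : Brd m n h tL tS) (ν : Nd h tL tS) : Fin n := B.eS ν.1 ν.2.2

/-- the entry of a node -/
def ndE (B : Brd m n h tL tS) (ν : Nd h tL tS) : Fin 3 × Fin m × Fin n :=
  (ndK ν, ndL B ν, ndS B ν)

/-- home nodes -/
def Home (B : Brd m n h tL tS) (ν : Nd h tL tS) : Prop :=
  (ndL B ν).val % KK h (ndK ν) = ν.1.2.val ∧ (ndS B ν).val % KK h (ndK ν) = ν.1.2.val

instance (B : Brd m n h tL tS) (ν : Nd h tL tS) : Decidable (Home B ν) := by
  unfold Home; infer_instance

/-- the four corners of a rectangle -/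
def co1 (r : Rc h tL tS) : Nd h tL tS := r.1
def co2 (r : Rc h tL tS) : Nd h tL tS := (r.1.1, (fl r.1.2.1 r.2.1, fl r.1.2.2 r.2.2))
def co3 (r : Rc h tL tS) : Nd h tL tS := (r.1.1, (r.1.2.1, fl r.1.2.2 r.2.2))
def co4 (r : Rc h tL tS) : Nd h tL tS := (r.1.1, (fl r.1.2.1 r.2.1, r.1.2.2))

/-- `tau κ q s`: the edge of `q` and `s` without its entry of direction `κ` -/
def tau {m n : ℕ} (κ : Fin 3) (q : Cell m) (s : Fin n) : Finset (Vt m n) :=
  (ed q s).erase (Sum.inr (κ, ln κ q, s))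

/-- `pis κ l s q s'`: five vertices equivalent to the entry `(κ,l,s)` -/
def pis {m n : ℕ} (κ : Fin 3) (l : Fin m) (s : Fin n) (q : Cell m) (s' : Fin n) :
    Finset (Vt m n) :=
  {Sum.inl q, Sum.inr (κ, ln κ q, s), Sum.inr (κ, l, s')} ∪
    (univ.filter (fun κ' : Fin 3 => κ' ≠ κ)).image
      (fun κ' => (Sum.inr (κ', ln κ' q, s') : Vt m n))

/-- tau-uses: first corners, second corners, permanent ones (indexed by nodes) -/
abbrev TU (h tL tS : ℕ) : Type := Rc h tL tS ⊕ Rc h tL tS ⊕ Nd h tL tS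

/-- pi-uses: third and fourth corners -/
abbrev PU (h tL tS : ℕ) : Type := Rc h tL tS ⊕ Rc h tL tS

def ndT : TU h tL tS → Nd h tL tS
  | Sum.inl r => co1 r
  | Sum.inr (Sum.inl r) => co2 r
  | Sum.inr (Sum.inr ν) => ν

def ndP : PU h tL tS → Nd h tL tS
  | Sum.inl r => co3 r
  | Sum.inr r => co4 r

/-- the cells and symbols chosen for the uses: `cT` cells of the tau-uses, `cP`, `yP` cells and free
symbols of the pi-uses -/
structure Cho (m n h tL tS : ℕ) where
  cT : TU h tL tS → Cell m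
  cP : PU h tL tS → Cell m
  yP : PU h tL tS → Fin n

/-- the released set of a tau-use -/
def tS' (B : Brd m n h tL tS) (c : Cho m n h tL tS) (a : TU h tL tS) : Finset (Vt m n) :=
  tau (ndK (ndT a)) (c.cT a) (ndS B (ndT a))

/-- the released set of a pi-use -/
def pS' (B : Brd m n h tL tS) (c : Cho m n h tL tS) (b : PU h tL tS) : Finset (Vt m n) :=
  pis (ndK (ndP b)) (ndL B (ndP b)) (ndS B (ndP b)) (c.cP b) (c.yP b)

/-- valid tau-uses: the permanent ones only for nodes in `YN` -/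
def VT (YN : Finset (Nd h tL tS)) : TU h tL tS → Prop
  | Sum.inr (Sum.inr ν) => ν ∈ YN
  | _ => True

end H77.LT
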