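import Pool.Agent.H77.LT.TdA
import Pool.Agent.H77.LT.CntA

/-!
# [H77 LT TBND] The statistic of the reserve is small

Proof. The sum is `#{e ∈ XE : e.1 = 0, bls s = δ} - #{q ∈ XQ : blc q = δ}`. Write `N = 2m+1`,
`K = KK h 0 * KK h 1 * KK h 2 ≥ 27` (`KK_pos`), `e = N / h^E`. The second number is
`x0 N^2/(2K)` up to `N e` (`Res.blk`). The first one is the sum over the symbols `s` with
`bls s = δ` (their number is `n/K` up to `1`, by `cnt_symblk`, and `|n - N| ≤ 2`, so it is `N/K` up to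
`2`) of `#{e ∈ XE : e.1 = 0, e.2.2 = s} = x0 N/2` up to `e` (`Res.esymb`): so it is `x0 N^2/(2K)` up to
`x0 N + (N/K + 2) e`. As `x0 ≤ 1`, `N ≤ N e` (`h^E ≤ N`) and `N/K + 2 ≤ N` the total error is at
most `3 N e`.
-/

open Finset

namespace H77.LT

variable {m n h E : ℕ}

private theorem tbnd_sum (F : Finset (Fin 3 × Fin m × Fin n)) (XQ : Finset (Cell m)) (δ : Fin 3 → ℕ) :
    (∑ v ∈ (cels XQ ∪ ents F : Finset (Vt m n)), tw h δ v : ℤ)
      = ((F.filter (fun e => e.1 = 0 ∧ bls h e.2.2 = δ)).card : ℤ)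
        - ((XQ.filter (fun q => blc h q = δ)).card : ℤ) := by
  classical
  have hdisj : Disjoint (cels XQ : Finset (Vt m n)) (ents F) := by
    unfold cels ents
    rw [Finset.disjoint_left]
    intro v hv hv'
    rw [Finset.mem_image] at hv hv'
    obtain ⟨q, _, rfl⟩ := hv
    obtain ⟨e, _, he⟩ := hv'
    exact absurd he (by simp)
  rw [Finset.sum_union hdisj]
  unfold cels ents
  rw [Finset.sum_image (fun a _ b _ hab => Sum.inl.inj hab),
    Finset.sum_image (fun a _ b _ hab => Sum.inr.inj hab)]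
  have h1 : ∑ x ∈ XQ, tw (n := n) h δ (Sum.inl x) = - ((XQ.filter (fun q => blc h q = δ)).card : ℤ) := by
    rw [Finset.card_filter]
    push_cast
    rw [← Finset.sum_neg_distrib]
    apply Finset.sum_congr rfl
    intro q _
    rfl
  have h2 : ∑ x ∈ F, tw (m := m) h δ (Sum.inr x)
      = ((F.filter (fun e => e.1 = 0 ∧ bls h e.2.2 = δ)).card : ℤ) := by
    rw [Finset.card_filter]
    push_cast
    apply Finset.sum_congr rfl
    intro q _
    rfl
  rw [h1, h2]
  ring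

private theorem tbnd_fib (F : Finset (Fin 3 × Fin m × Fin n)) (δ : Fin 3 → ℕ) :
    (F.filter (fun e => e.1 = 0 ∧ bls h e.2.2 = δ)).card
      = ∑ s ∈ univ.filter (fun s : Fin n => bls h s = δ),
        (F.filter (fun e => e.1 = 0 ∧ e.2.2 = s)).card := by
  classical
  rw [Finset.card_eq_sum_card_fiberwise (f := fun e : Fin 3 × Fin m × Fin n => e.2.2)
    (t := univ.filter (fun s : Fin n => bls h s = δ))]
  · apply Finset.sum_congr rfl
    intro s hs
    rw [Finset.mem_filter] at hs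
    rw [Finset.filter_filter]
    congr 1
    apply Finset.filter_congr
    intro e _
    constructor
    · rintro ⟨⟨h1, _⟩, h2⟩
      exact ⟨h1, h2⟩
    · rintro ⟨h1, h2⟩
      refine ⟨⟨h1, ?_⟩, h2⟩
      rw [h2]; exact hs.2
  · intro e hmem
    have := (Finset.mem_filter.1 (Finset.mem_coe.1 hmem)).2.2
    exact Finset.mem_coe.2 (Finset.mem_filter.2 ⟨Finset.mem_univ _, this⟩)

theorem tbnd (he : Even h) (hh : 2 ≤ h) (hE : h ^ E ≤ 2 * m + 1) (hm : 10 ≤ m)
    (n1 : 2 * m - 1 ≤ n) (n2 : n ≤ 2 * m + 3) (F : Finset (Fin 3 × Fin m × Fin n))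
    (XQ : Finset (Cell m)) (XE : Finset (Fin 3 × Fin m × Fin n)) (hres : Res m n h E F XQ XE)
    (δ : Fin 3 → ℕ) (hδ : δ ∈ Blks h) :
    |((∑ v ∈ (cels XQ ∪ ents XE : Finset (Vt m n)), tw h δ v : ℤ) : ℝ)|
      ≤ 3 * ((2 * (m : ℝ) + 1) ^ 2 / (h : ℝ) ^ E) := by
  classical
  have hblk : IsBlk h δ := (mem_Blks δ).1 hδ
  have hB := hres.blk δ hblk
  have hC := cnt_symblk (n := n) he hh δ hblk
  have hK27 : 27 ≤ KK h 0 * KK h 1 * KK h 2 := by
    have a0 := KK_pos hh 0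
    have a1 := KK_pos hh 1
    have a2 := KK_pos hh 2
    calc 27 = 3 * 3 * 3 := by norm_num
      _ ≤ KK h 0 * KK h 1 * KK h 2 := Nat.mul_le_mul (Nat.mul_le_mul a0 a1) a2
  set K : ℕ := KK h 0 * KK h 1 * KK h 2 with hKdef
  have hKr : (27 : ℝ) ≤ (K : ℝ) := by exact_mod_cast hK27
  have hKpos : (0 : ℝ) < (K : ℝ) := by linarith
  rw [tbnd_sum, Int.cast_sub, Int.cast_natCast, Int.cast_natCast, tbnd_fib]
  set B : ℝ := ((XQ.filter (fun q => blc h q = δ)).card : ℝ) with hBdef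
  set c : ℝ := ((univ.filter (fun s : Fin n => bls h s = δ)).card : ℝ) with hcdef
  set N : ℝ := 2 * (m : ℝ) + 1 with hN
  have hm' : (10 : ℝ) ≤ (m : ℝ) := by exact_mod_cast hm
  have hN21 : (21 : ℝ) ≤ N := by rw [hN]; linarith
  have hhr : (2 : ℝ) ≤ (h : ℝ) := by exact_mod_cast hh
  have hhE : (0 : ℝ) < (h : ℝ) ^ E := by positivity
  set ε : ℝ := N / (h : ℝ) ^ E with hε
  have hε1 : 1 ≤ ε := by
    rw [hε, le_div_iff₀ hhE, one_mul, hN]
    exact_mod_cast hE
  have hx0 : 0 ≤ x0 h := by unfold x0; positivity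
  have hx1 : x0 h ≤ 1 := by
    unfold x0
    have h4 : (1 : ℝ) ≤ (h : ℝ) ^ 4 := one_le_pow₀ (by linarith)
    rw [div_le_one (by positivity)]
    linarith
  -- the entries
  have hA : |(((∑ s ∈ univ.filter (fun s : Fin n => bls h s = δ),
        (XE.filter (fun e => e.1 = 0 ∧ e.2.2 = s)).card : ℕ) : ℕ) : ℝ) - c * (x0 h * N / 2)|
      ≤ c * ε := by
    have e1 : c * (x0 h * N / 2) = ∑ s ∈ univ.filter (fun s : Fin n => bls h s = δ),
        (x0 h * N / 2) := by
      rw [Finset.sum_const, nsmul_eq_mul]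
    have e2 : c * ε = ∑ s ∈ univ.filter (fun s : Fin n => bls h s = δ), ε := by
      rw [Finset.sum_const, nsmul_eq_mul]
    rw [e1, e2, Nat.cast_sum, ← Finset.sum_sub_distrib]
    refine (Finset.abs_sum_le_sum_abs _ _).trans (Finset.sum_le_sum ?_)
    intro s _
    exact hres.esymb 0 s
  set A : ℝ := (((∑ s ∈ univ.filter (fun s : Fin n => bls h s = δ),
        (XE.filter (fun e => e.1 = 0 ∧ e.2.2 = s)).card : ℕ) : ℕ) : ℝ) with hAdef
  have hcN : |c - N / (K : ℝ)| ≤ 2 := by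
    have hn1 : N - 2 ≤ (n : ℝ) := by
      have : (2 * m - 1 : ℕ) + 1 = 2 * m := by omega
      have h1 : 2 * m ≤ n + 1 := by omega
      have h2 : (2 : ℝ) * m ≤ n + 1 := by exact_mod_cast h1
      rw [hN]; linarith
    have hn2 : (n : ℝ) ≤ N + 2 := by
      have h2 : (n : ℝ) ≤ 2 * m + 3 := by exact_mod_cast n2
      rw [hN]; linarith
    have hd : |(n : ℝ) / K - N / K| ≤ 1 := by
      rw [← sub_div, abs_div, abs_of_pos hKpos, div_le_one hKpos, abs_le]
      constructor <;> linarith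
    have := abs_add_le (c - n / (K : ℝ)) ((n : ℝ) / K - N / K)
    have e : c - n / (K : ℝ) + ((n : ℝ) / K - N / K) = c - N / K := by ring
    rw [e] at this
    linarith
  have hc0 : 0 ≤ c := by rw [hcdef]; positivity
  have hNK : N / (K : ℝ) ≤ N / 27 := by
    apply div_le_div_of_nonneg_left (by linarith) (by norm_num) hKr
  have hcle : c ≤ N / 27 + 2 := by
    have := (abs_le.1 hcN).2
    linarith
  have hcN' : c ≤ N := by linarith
  have hcε : c * ε ≤ N * ε := mul_le_mul_of_nonneg_right hcN' (by linarith)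
  have hmid : |c * (x0 h * N / 2) - x0 h * N ^ 2 / (2 * (K : ℝ))| ≤ N * ε := by
    have e : c * (x0 h * N / 2) - x0 h * N ^ 2 / (2 * (K : ℝ))
        = (c - N / K) * (x0 h * N / 2) := by
      field_simp
    have hp : 0 ≤ x0 h * N / 2 := by positivity
    rw [e, abs_mul, abs_of_nonneg hp]
    have h1 : |c - N / K| * (x0 h * N / 2) ≤ 2 * (x0 h * N / 2) :=
      mul_le_mul_of_nonneg_right hcN hp
    have h2 : x0 h * N ≤ 1 * N := mul_le_mul_of_nonneg_right hx1 (by linarith)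
    have h3 : N * 1 ≤ N * ε := mul_le_mul_of_nonneg_left hε1 (by linarith)
    linarith
  have hB' : |B - x0 h * N ^ 2 / (2 * (K : ℝ))| ≤ N * ε := by
    have e : N * ε = N ^ 2 / (h : ℝ) ^ E := by rw [hε]; ring
    rw [e]
    exact hB
  have e : 3 * (N ^ 2 / (h : ℝ) ^ E) = 3 * (N * ε) := by rw [hε]; ring
  rw [e]
  have b1 := abs_le.1 hA
  have b2 := abs_le.1 hmid
  have b3 := abs_le.1 hB'
  rw [abs_le]
  constructor
  · linarith [b1.1, b1.2, b2.1, b2.2, b3.1, b3.2]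
  · linarith [b1.1, b1.2, b2.1, b2.2, b3.1, b3.2]

end H77.LT
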