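import Pool.Agent.H77.LT.Blocks
import Pool.Agent.H77.LT.PMl

/-!
# Latin triangles: block statistic. Definitions (no proofs to fill)

For a set of vertices the statistic of a block `δ` is the number of its entries of direction 0 whose
symbol is in `δ`, minus the number of its cells in `δ`: the sum of `tw h δ v`.
`dd h δ v` is the change of the statistic (of the unused part of the reserve) when the vertex `v` is
covered by an edge with three vertices of the reserve. `Dl β γ δ` is the sum of `dd` over an edge with
cell in `β` and symbol in `γ`. `Bal W`: `W` has as many cells as entries on each line, and as many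
entries of each direction for each symbol.
-/

open Finset

namespace H77.LT

def Blks (h : ℕ) : Finset (Fin 3 → ℕ) := Fintype.piFinset (fun κ => range (KK h κ))

def Dl (β γ δ : Fin 3 → ℕ) : ℤ :=
  -(if β = δ then 1 else 0) + ∑ κ : Fin 3, (if Function.update γ κ (β κ) = δ then 1 else 0)
    - 2 * (if γ = δ then 1 else 0)

/-- entries of direction 0 minus cells, in the block `δ` -/
def tw {m n : ℕ} (h : ℕ) (δ : Fin 3 → ℕ) : Vt m n → ℤ
  | Sum.inl q => -(if blc h q = δ then 1 else 0)
  | Sum.inr e => if e.1 = 0 ∧ bls h e.2.2 = δ then 1 else 0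

/-- the block of the cell of a covering edge of the entry `e` -/
def ble {m n : ℕ} (h : ℕ) (e : Fin 3 × Fin m × Fin n) : Fin 3 → ℕ :=
  Function.update (bls h e.2.2) e.1 (e.2.1.val % KK h e.1)

def dd {m n : ℕ} (h : ℕ) (δ : Fin 3 → ℕ) : Vt m n → ℤ
  | Sum.inl q => -(if blc h q = δ then 1 else 0)
  | Sum.inr e => (if ble h e = δ then 1 else 0) - (if e.1 ≠ 0 ∧ bls h e.2.2 = δ then 1 else 0)

def Bal {m n : ℕ} (W : Finset (Vt m n)) : Prop :=
  (∀ κ l, deg W (Sum.inl (κ, l)) = deg W (Sum.inr (Sum.inl (κ, l)))) ∧
  (∀ κ κ' s, deg W (Sum.inr (Sum.inr (κ, s))) = deg W (Sum.inr (Sum.inr (κ', s))))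

end H77.LT
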