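import Pool.Agent.H77.LT.TLem
import Pool.Agent.H77.LT.Marg
import Pool.Agent.H77.LT.TBnd

/-!
# [H77 LT TFIX] Breaking special edges makes the statistic zero

Proof. `T δ = (sum of tw over X) + (sum of dd over R)` has zero marginals (`marg`) and
`|T δ| ≤ 3 N^2/h^E + |R| ≤ 5 N^2/h^90` (`tbnd`, `dd_le`, `card_le_of_deg` with `L = ⌊N/h^90⌋`:
`|R| ≤ 4 m L ≤ 2 N^2/h^90`; `E ≥ 90`). Apply `tlem` with `K = KK h` and `b = ⌊5 N^2/h^90⌋`: the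
numbers `nn β γ ≤ 3 K b ≤ 15 h^12 N^2/h^90 ≤ N^2/h^70` (`KK h 0 * KK h 1 * KK h 2 ≤ h^12`, because
`(h^4-1)(h^4+1) ≤ h^8`; `15 ≤ h^8`). For all blocks `β, γ` choose a subset of
`PP.filter (blc e.1 = β ∧ bls e.2 = γ)` with exactly `nn β γ` elements; `Bk` is the union. The edges
are disjoint, so the sum of `dd` over `cov Bk` is the sum over the edges in `Bk` of
`Dl (blc e.1) (bls e.2) δ` (`dd_ed`) `= ∑ β, ∑ γ, nn β γ * Dl β γ δ`.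
-/

open Finset

namespace H77.LT

variable {m n h E : ℕ}

theorem tfix_KK (hh : 2 ≤ h) : KK h 0 * KK h 1 * KK h 2 ≤ h ^ 12 := by
  have h1 : 1 ≤ h ^ 4 := Nat.one_le_pow _ _ (by omega)
  obtain ⟨x, hx⟩ : ∃ x, h ^ 4 = x + 1 := ⟨h ^ 4 - 1, by omega⟩
  have h2 : KK h 0 * KK h 1 * KK h 2 = x * (x + 1) * (x + 2) := by
    have e0 : KK h 0 = h ^ 4 - 1 := rfl
    have e1 : KK h 1 = h ^ 4 := rfl
    have e2 : KK h 2 = h ^ 4 + 1 := rfl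
    rw [e0, e1, e2, hx]
    rfl
  have h3 : h ^ 12 = (x + 1) ^ 3 := by
    rw [← hx, ← pow_mul]
  rw [h2, h3]
  nlinarith

/-- the number of vertices of a set with small degrees -/
theorem tfix_card (R : Finset (Vt m n)) (b : ℝ) (hb : 0 ≤ b) (hR : ∀ σ, (deg R σ : ℝ) ≤ b) :
    (R.card : ℝ) ≤ 4 * m * b := by
  have h1 : ∀ σ, deg R σ ≤ ⌊b⌋₊ := fun σ => Nat.le_floor (hR σ)
  have h2 := card_le_of_deg R ⌊b⌋₊ h1
  have h3 : (R.card : ℝ) ≤ ((4 * m * ⌊b⌋₊ : ℕ) : ℝ) := by exact_mod_cast h2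
  push_cast at h3
  have h4 : ((⌊b⌋₊ : ℕ) : ℝ) ≤ b := Nat.floor_le hb
  have h5 : (0 : ℝ) ≤ 4 * m := by positivity
  exact h3.trans (mul_le_mul_of_nonneg_left h4 h5)

/-- the bound of the statistic -/
theorem tfix_bound (he : Even h) (hh : 2 ≤ h) (hE90 : 90 ≤ E) (hE : h ^ E ≤ 2 * m + 1) (hm : 10 ≤ m)
    (n1 : 2 * m - 1 ≤ n) (n2 : n ≤ 2 * m + 3) (F : Finset (Fin 3 × Fin m × Fin n))
    (XQ : Finset (Cell m)) (XE : Finset (Fin 3 × Fin m × Fin n)) (hres : Res m n h E F XQ XE)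
    (R : Finset (Vt m n)) (hR : ∀ σ, (deg R σ : ℝ) ≤ (2 * m + 1) / (h : ℝ) ^ 90)
    (δ : Fin 3 → ℕ) (hδ : δ ∈ Blks h) :
    |((∑ v ∈ (cels XQ ∪ ents XE : Finset (Vt m n)), tw h δ v + ∑ v ∈ R, dd h δ v : ℤ) : ℝ)| ≤
      5 * ((2 * (m : ℝ) + 1) ^ 2 / (h : ℝ) ^ 90) := by
  have h1 := tbnd he hh hE hm n1 n2 F XQ XE hres δ hδ
  have hh1 : (1 : ℝ) ≤ (h : ℝ) := by exact_mod_cast (by omega : 1 ≤ h)
  have hp : (0 : ℝ) < (h : ℝ) ^ 90 := pow_pos (by linarith) _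
  have hN : (0 : ℝ) ≤ (2 * (m : ℝ) + 1) := by positivity
  have h2 : 3 * ((2 * (m : ℝ) + 1) ^ 2 / (h : ℝ) ^ E) ≤
      3 * ((2 * (m : ℝ) + 1) ^ 2 / (h : ℝ) ^ 90) := by
    have h3 : (h : ℝ) ^ 90 ≤ (h : ℝ) ^ E := pow_le_pow_right₀ hh1 hE90
    have h4 := div_le_div_of_nonneg_left (pow_nonneg hN 2) hp h3
    linarith
  have h3 : (R.card : ℝ) ≤ 2 * ((2 * (m : ℝ) + 1) ^ 2 / (h : ℝ) ^ 90) := by
    have h4 := tfix_card R ((2 * m + 1) / (h : ℝ) ^ 90) (div_nonneg hN hp.le) hR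
    have h5 : 4 * (m : ℝ) * ((2 * m + 1) / (h : ℝ) ^ 90) ≤
        2 * (2 * m + 1) * ((2 * m + 1) / (h : ℝ) ^ 90) := by
      apply mul_le_mul_of_nonneg_right _ (div_nonneg hN hp.le)
      linarith
    have h6 : 2 * (2 * (m : ℝ) + 1) * ((2 * m + 1) / (h : ℝ) ^ 90) =
        2 * ((2 * (m : ℝ) + 1) ^ 2 / (h : ℝ) ^ 90) := by ring
    linarith
  have h4 : |((∑ v ∈ R, dd h δ v : ℤ) : ℝ)| ≤ (R.card : ℝ) := by
    have h5 : |∑ v ∈ R, dd h δ v| ≤ (R.card : ℤ) := by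
      refine (Finset.abs_sum_le_sum_abs _ _).trans ?_
      refine (Finset.sum_le_sum fun v _ => dd_le δ v).trans ?_
      rw [Finset.sum_const, nsmul_eq_mul, mul_one]
    have h6 : ((|∑ v ∈ R, dd h δ v| : ℤ) : ℝ) ≤ ((R.card : ℤ) : ℝ) := by exact_mod_cast h5
    rw [Int.cast_abs] at h6
    exact h6
  rw [Int.cast_add]
  refine (abs_add_le _ _).trans ?_
  linarith

theorem tfix (he : Even h) (hh : 2 ≤ h) (hE90 : 90 ≤ E) (hE : h ^ E ≤ 2 * m + 1) (hm : 10 ≤ m)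
    (n1 : 2 * m - 1 ≤ n) (n2 : n ≤ 2 * m + 3) (F : Finset (Fin 3 × Fin m × Fin n))
    (XQ : Finset (Cell m)) (XE : Finset (Fin 3 × Fin m × Fin n)) (hres : Res m n h E F XQ XE)
    (PP : Finset (Cell m × Fin n)) (hPP : Mat PP)
    (hZ : ∀ β ∈ Blks h, ∀ γ ∈ Blks h, (2 * (m : ℝ) + 1) ^ 2 / (h : ℝ) ^ 70
      ≤ ((PP.filter (fun e => blc h e.1 = β ∧ bls h e.2 = γ)).card : ℝ))
    (R : Finset (Vt m n)) (hR : ∀ σ, (deg R σ : ℝ) ≤ (2 * m + 1) / (h : ℝ) ^ 90)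
    (hd : Disjoint (cels XQ ∪ ents XE) R) (hbal : Bal (cels XQ ∪ ents XE ∪ R)) :
    ∃ Bk ⊆ PP, ∀ δ ∈ Blks h,
      ∑ v ∈ (cels XQ ∪ ents XE : Finset (Vt m n)), tw h δ v + ∑ v ∈ R, dd h δ v
        + ∑ v ∈ cov Bk, dd h δ v = 0 := by
  classical
  obtain ⟨T, hT⟩ : ∃ T : (Fin 3 → ℕ) → ℤ, ∀ δ, T δ =
      ∑ v ∈ (cels XQ ∪ ents XE : Finset (Vt m n)), tw h δ v + ∑ v ∈ R, dd h δ v :=
    ⟨_, fun _ => rfl⟩
  obtain ⟨Q, hQ⟩ : ∃ Q : ℝ, Q = (2 * (m : ℝ) + 1) ^ 2 / (h : ℝ) ^ 90 := ⟨_, rfl⟩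
  have hh1 : (1 : ℝ) ≤ (h : ℝ) := by exact_mod_cast (by omega : 1 ≤ h)
  have hh2 : (2 : ℝ) ≤ (h : ℝ) := by exact_mod_cast hh
  have hp : (0 : ℝ) < (h : ℝ) ^ 90 := pow_pos (by linarith) _
  have hQ0 : 0 ≤ Q := by
    rw [hQ]
    exact div_nonneg (pow_nonneg (by positivity) 2) hp.le
  have hb : ∀ β ∈ Fintype.piFinset (fun κ => range (KK h κ)), |T β| ≤ ((⌊5 * Q⌋₊ : ℕ) : ℤ) := by
    intro β hβ
    have h1 := tfix_bound he hh hE90 hE hm n1 n2 F XQ XE hres R hR β hβ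
    rw [← hT, ← hQ] at h1
    have h2 : ((T β).natAbs : ℝ) ≤ 5 * Q := by
      rw [Nat.cast_natAbs, Int.cast_abs]
      exact h1
    have h3 : (T β).natAbs ≤ ⌊5 * Q⌋₊ := Nat.le_floor h2
    rw [Int.abs_eq_natAbs]
    exact_mod_cast h3
  have hmg : ∀ κ i, ∑ β ∈ (Fintype.piFinset (fun κ => range (KK h κ))).filter (fun β => β κ = i),
      T β = 0 := by
    intro κ i
    have h1 := marg hh XQ XE hres.board R hd hbal κ i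
    simp only [← hT] at h1
    exact h1
  obtain ⟨nn, hnn, hsum⟩ := tlem (KK h) (fun κ => by have := KK_pos hh κ; omega) T ⌊5 * Q⌋₊ hb hmg
  have hnb : ∀ β γ, (nn β γ : ℝ) ≤ (2 * (m : ℝ) + 1) ^ 2 / (h : ℝ) ^ 70 := by
    intro β γ
    have h1 : (nn β γ : ℝ) ≤ ((3 * (KK h 0 * KK h 1 * KK h 2) * ⌊5 * Q⌋₊ : ℕ) : ℝ) := by
      exact_mod_cast hnn β γ
    have h2 : ((3 * (KK h 0 * KK h 1 * KK h 2) * ⌊5 * Q⌋₊ : ℕ) : ℝ) ≤ 3 * (h : ℝ) ^ 12 * (5 * Q) := by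
      have h3 : ((KK h 0 * KK h 1 * KK h 2 : ℕ) : ℝ) ≤ (h : ℝ) ^ 12 := by
        exact_mod_cast tfix_KK hh
      have h4 : ((⌊5 * Q⌋₊ : ℕ) : ℝ) ≤ 5 * Q := Nat.floor_le (by linarith)
      have h5 : ((3 * (KK h 0 * KK h 1 * KK h 2) * ⌊5 * Q⌋₊ : ℕ) : ℝ) =
          3 * ((KK h 0 * KK h 1 * KK h 2 : ℕ) : ℝ) * ((⌊5 * Q⌋₊ : ℕ) : ℝ) := by
        push_cast
        ring
      rw [h5]
      apply mul_le_mul _ h4 (Nat.cast_nonneg _) (by positivity)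
      linarith
    have h6 : 3 * (h : ℝ) ^ 12 * (5 * Q) ≤ (2 * (m : ℝ) + 1) ^ 2 / (h : ℝ) ^ 70 := by
      have h7 : (0 : ℝ) < (h : ℝ) ^ 70 := pow_pos (by linarith) _
      have h8 : (15 : ℝ) ≤ (h : ℝ) ^ 8 := by
        calc (15 : ℝ) ≤ 2 ^ 8 := by norm_num
          _ ≤ (h : ℝ) ^ 8 := pow_le_pow_left₀ (by norm_num) hh2 8
      rw [hQ, le_div_iff₀ h7]
      have h9 : 3 * (h : ℝ) ^ 12 * (5 * ((2 * (m : ℝ) + 1) ^ 2 / (h : ℝ) ^ 90)) * (h : ℝ) ^ 70 =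
          (2 * (m : ℝ) + 1) ^ 2 * (15 * (h : ℝ) ^ 82 / (h : ℝ) ^ 90) := by
        ring
      rw [h9]
      have h10 : 15 * (h : ℝ) ^ 82 / (h : ℝ) ^ 90 ≤ 1 := by
        rw [div_le_one hp]
        have h11 : (h : ℝ) ^ 90 = (h : ℝ) ^ 8 * (h : ℝ) ^ 82 := by rw [← pow_add]
        rw [h11]
        exact mul_le_mul_of_nonneg_right h8 (pow_nonneg (by linarith) _)
      calc (2 * (m : ℝ) + 1) ^ 2 * (15 * (h : ℝ) ^ 82 / (h : ℝ) ^ 90)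
          ≤ (2 * (m : ℝ) + 1) ^ 2 * 1 := mul_le_mul_of_nonneg_left h10 (by positivity)
        _ = (2 * (m : ℝ) + 1) ^ 2 := mul_one _
    linarith
  have hex : ∀ β γ : Fin 3 → ℕ, ∃ S ⊆ PP.filter (fun e => blc h e.1 = β ∧ bls h e.2 = γ),
      β ∈ Blks h → γ ∈ Blks h → S.card = nn β γ := by
    intro β γ
    by_cases h1 : β ∈ Blks h ∧ γ ∈ Blks h
    · have h2 : nn β γ ≤ (PP.filter (fun e => blc h e.1 = β ∧ bls h e.2 = γ)).card := by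
        have h3 := (hnb β γ).trans (hZ β h1.1 γ h1.2)
        exact_mod_cast h3
      obtain ⟨S, hS, hSc⟩ := exists_subset_card_eq h2
      exact ⟨S, hS, fun _ _ => hSc⟩
    · exact ⟨∅, empty_subset _, fun h2 h3 => absurd ⟨h2, h3⟩ h1⟩
  choose S hS hSc using hex
  obtain ⟨Bk, hBk⟩ : ∃ Bk, Bk = (Blks h ×ˢ Blks h).biUnion (fun x => S x.1 x.2) := ⟨_, rfl⟩
  have hBP : Bk ⊆ PP := by
    rw [hBk]
    intro e hee
    obtain ⟨x, -, hx⟩ := mem_biUnion.1 hee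
    exact (mem_filter.1 (hS x.1 x.2 hx)).1
  refine ⟨Bk, hBP, fun δ hδ => ?_⟩
  have h1 : ∑ v ∈ cov Bk, dd h δ v = ∑ e ∈ Bk, Dl (blc h e.1) (bls h e.2) δ := by
    unfold cov
    rw [sum_biUnion]
    · exact sum_congr rfl fun e _ => dd_ed e.1 e.2 δ
    · intro e hee f hf hne
      exact hPP e (hBP hee) f (hBP hf) hne
  have h2 : ∑ e ∈ Bk, Dl (blc h e.1) (bls h e.2) δ =
      ∑ β ∈ Blks h, ∑ γ ∈ Blks h, (nn β γ : ℤ) * Dl β γ δ := by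
    rw [hBk, sum_biUnion, sum_product]
    · refine sum_congr rfl fun β hβ => sum_congr rfl fun γ hγ => ?_
      have h3 : ∀ e ∈ S β γ, Dl (blc h e.1) (bls h e.2) δ = Dl β γ δ := by
        intro e hee
        have h4 := (mem_filter.1 (hS β γ hee)).2
        rw [h4.1, h4.2]
      rw [sum_congr rfl h3, sum_const, hSc β γ hβ hγ, nsmul_eq_mul]
    · intro x _ y _ hne
      rw [Function.onFun, disjoint_left]
      intro e hex hey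
      apply hne
      have h4 := (mem_filter.1 (hS x.1 x.2 hex)).2
      have h5 := (mem_filter.1 (hS y.1 y.2 hey)).2
      exact Prod.ext (h4.1.symm.trans h5.1) (h4.2.symm.trans h5.2)
  rw [h1, h2, ← hT]
  exact hsum δ hδ

end H77.LT
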