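import Pool.Agent.H77.LT.TDef

/-!
# [H77 LT TLEM] Every statistic with zero marginals is killed by breaking special edges

Pure integer lemma. Write `β = (i,j,l)`. Rectangles
`R1 β = e(i,j,l) - e(i,j,0) - e(i,0,l) + e(i,0,0)`, `R2 β = e(i,0,l) - e(i,0,0) - e(0,0,l) + e(0,0,0)`,
`R3 β = e(i,j,0) - e(i,0,0) - e(0,j,0) + e(0,0,0)`.
`R1 + R2 + R3 = e(i,j,l) - e(i,0,0) - e(0,j,0) - e(0,0,l) + 2 e(0,0,0)`, and `T = ∑ T(β) e(β)`. As the
marginals are zero, `∑ T(β) e(i,0,0) = 0` and so on (also `∑ T = 0`), hence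
`T = ∑ T(β) (R1 β + R2 β + R3 β)`. Moreover (direct computation)
`-R1 = Dl (i,j,l) (i,0,0)`, `+R1 = Dl (i,j,0) (i,0,l)`,
`-R2 = Dl (i,0,l) (0,0,0)`, `+R2 = Dl (i,0,0) (0,0,l)`,
`-R3 = Dl (i,j,0) (0,0,0)`, `+R3 = Dl (i,0,0) (0,j,0)`.
So if `0 ≤ T β` take `|T β|` times the three types with minus sign, otherwise `|T β|` times the
three types with plus sign: `nn β' γ'` = sum over all `β` of `|T β|` times the number of the (at most
three) types of `β` which are `(β', γ')`.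
It may be convenient to prove it first for functions on `ℕ × ℕ × ℕ` or with `![i,j,l]`
(`Function.update` on `Fin 3` by cases).
-/

open Finset

namespace H77.LT

theorem tlem_vec (β : Fin 3 → ℕ) : ![β 0, β 1, β 2] = β := by
  funext i
  fin_cases i <;> rfl

/-- the indicator of a block -/
def tlemE (a b c : ℕ) (δ : Fin 3 → ℕ) : ℤ := if ![a, b, c] = δ then 1 else 0

theorem tlem_u0 (a b c x : ℕ) : Function.update ![a, b, c] 0 x = ![x, b, c] := by
  funext i
  fin_cases i <;> rfl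

theorem tlem_u1 (a b c x : ℕ) : Function.update ![a, b, c] 1 x = ![a, x, c] := by
  funext i
  fin_cases i <;> rfl

theorem tlem_u2 (a b c x : ℕ) : Function.update ![a, b, c] 2 x = ![a, b, x] := by
  funext i
  fin_cases i <;> rfl

theorem tlem_Dl (a b c a' b' c' : ℕ) (δ : Fin 3 → ℕ) :
    Dl ![a, b, c] ![a', b', c'] δ = -tlemE a b c δ +
      (tlemE a b' c' δ + tlemE a' b c' δ + tlemE a' b' c δ) - 2 * tlemE a' b' c' δ := by
  have e0 : (![a, b, c] : Fin 3 → ℕ) 0 = a := rfl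
  have e1 : (![a, b, c] : Fin 3 → ℕ) 1 = b := rfl
  have e2 : (![a, b, c] : Fin 3 → ℕ) 2 = c := rfl
  unfold Dl tlemE
  rw [Fin.sum_univ_three, e0, e1, e2, tlem_u0, tlem_u1, tlem_u2]

/-- the three types of a block, for both signs -/
def tlemP (s : Prop) [Decidable s] (β : Fin 3 → ℕ) (k : Fin 3) : (Fin 3 → ℕ) × (Fin 3 → ℕ) :=
  if s then
    (if k = 0 then (![β 0, β 1, β 2], ![β 0, 0, 0])
      else if k = 1 then (![β 0, 0, β 2], ![0, 0, 0]) else (![β 0, β 1, 0], ![0, 0, 0]))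
  else
    (if k = 0 then (![β 0, β 1, 0], ![β 0, 0, β 2])
      else if k = 1 then (![β 0, 0, 0], ![0, 0, β 2]) else (![β 0, 0, 0], ![0, β 1, 0]))

theorem tlem_memv (K : Fin 3 → ℕ) (a b c : ℕ) (ha : a < K 0) (hb : b < K 1) (hc : c < K 2) :
    ![a, b, c] ∈ Fintype.piFinset (fun κ => range (K κ)) := by
  rw [Fintype.mem_piFinset]
  intro i
  rw [mem_range]
  fin_cases i
  · exact ha
  · exact hb
  · exact hc

theorem tlem_memP (K : Fin 3 → ℕ) (hK : ∀ κ, 0 < K κ) (s : Prop) [Decidable s]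
    (β : Fin 3 → ℕ) (hβ : β ∈ Fintype.piFinset (fun κ => range (K κ))) (k : Fin 3) :
    tlemP s β k ∈ Fintype.piFinset (fun κ => range (K κ)) ×ˢ
      Fintype.piFinset (fun κ => range (K κ)) := by
  rw [Fintype.mem_piFinset] at hβ
  have h0 := mem_range.1 (hβ 0)
  have h1 := mem_range.1 (hβ 1)
  have h2 := mem_range.1 (hβ 2)
  have k0 := hK 0
  have k1 := hK 1
  have k2 := hK 2
  rw [mem_product]
  unfold tlemP
  split_ifs <;>
    exact ⟨tlem_memv K _ _ _ (by assumption) (by assumption) (by assumption),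
      tlem_memv K _ _ _ (by assumption) (by assumption) (by assumption)⟩

/-- the total of the three rectangles -/
def tlemR (β δ : Fin 3 → ℕ) : ℤ :=
  tlemE (β 0) (β 1) (β 2) δ - tlemE (β 0) 0 0 δ - tlemE 0 (β 1) 0 δ - tlemE 0 0 (β 2) δ +
    2 * tlemE 0 0 0 δ

theorem tlem_sumP (s : Prop) [Decidable s] (β δ : Fin 3 → ℕ) :
    ∑ k : Fin 3, Dl (tlemP s β k).1 (tlemP s β k).2 δ =
      if s then -tlemR β δ else tlemR β δ := by
  have n10 : ¬ (1 : Fin 3) = 0 := by decide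
  have n20 : ¬ (2 : Fin 3) = 0 := by decide
  have n21 : ¬ (2 : Fin 3) = 1 := by decide
  rw [Fin.sum_univ_three]
  unfold tlemP
  by_cases hs : s
  · simp only [if_pos hs, if_true, if_neg n10, if_neg n20, if_neg n21]
    rw [tlem_Dl, tlem_Dl, tlem_Dl, tlemR]
    ring
  · simp only [if_neg hs, if_true, if_neg n10, if_neg n20, if_neg n21]
    rw [tlem_Dl, tlem_Dl, tlem_Dl, tlemR]
    ring

theorem tlem_marg (K : Fin 3 → ℕ) (T : (Fin 3 → ℕ) → ℤ)
    (hm : ∀ κ i, ∑ β ∈ (Fintype.piFinset (fun κ => range (K κ))).filter (fun β => β κ = i),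
      T β = 0) (κ : Fin 3) (f : ℕ → ℤ) :
    ∑ β ∈ Fintype.piFinset (fun κ => range (K κ)), T β * f (β κ) = 0 := by
  have h1 : ∀ β ∈ Fintype.piFinset (fun κ => range (K κ)), β κ ∈ range (K κ) := by
    intro β hβ
    exact Fintype.mem_piFinset.1 hβ κ
  rw [← sum_fiberwise_of_maps_to h1]
  refine sum_eq_zero fun i _ => ?_
  have h2 : ∀ β ∈ (Fintype.piFinset (fun κ => range (K κ))).filter (fun β => β κ = i),
      T β * f (β κ) = T β * f i := by
    intro β hβ
    rw [(mem_filter.1 hβ).2]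
  rw [sum_congr rfl h2, ← sum_mul, hm κ i, zero_mul]

theorem tlem_card (K : Fin 3 → ℕ) :
    (Fintype.piFinset (fun κ => range (K κ))).card = K 0 * K 1 * K 2 := by
  rw [Fintype.card_piFinset, Fin.prod_univ_three, card_range, card_range, card_range]

theorem tlem (K : Fin 3 → ℕ) (hK : ∀ κ, 0 < K κ) (T : (Fin 3 → ℕ) → ℤ) (b : ℕ)
    (hb : ∀ β ∈ Fintype.piFinset (fun κ => range (K κ)), |T β| ≤ b)
    (hm : ∀ κ i, ∑ β ∈ (Fintype.piFinset (fun κ => range (K κ))).filter (fun β => β κ = i),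
      T β = 0) :
    ∃ nn : (Fin 3 → ℕ) → (Fin 3 → ℕ) → ℕ,
      (∀ β γ, nn β γ ≤ 3 * (K 0 * K 1 * K 2) * b) ∧
      ∀ δ ∈ Fintype.piFinset (fun κ => range (K κ)),
        T δ + ∑ β ∈ Fintype.piFinset (fun κ => range (K κ)),
          ∑ γ ∈ Fintype.piFinset (fun κ => range (K κ)), (nn β γ : ℤ) * Dl β γ δ = 0 := by
  set S : Finset (Fin 3 → ℕ) := Fintype.piFinset (fun κ => range (K κ)) with hS
  refine ⟨fun β' γ' => ∑ β ∈ S, (T β).natAbs *
    ∑ k : Fin 3, (if tlemP (0 ≤ T β) β k = (β', γ') then 1 else 0), fun β' γ' => ?_, fun δ hδ => ?_⟩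
  · have h1 : ∀ β ∈ S, (T β).natAbs *
        ∑ k : Fin 3, (if tlemP (0 ≤ T β) β k = (β', γ') then 1 else 0) ≤ b * 3 := by
      intro β hβ
      refine Nat.mul_le_mul ?_ ?_
      · have h2 := hb β hβ
        rw [Int.abs_eq_natAbs] at h2
        exact_mod_cast h2
      · calc ∑ k : Fin 3, (if tlemP (0 ≤ T β) β k = (β', γ') then 1 else 0)
            ≤ ∑ _k : Fin 3, 1 := sum_le_sum fun k _ => by split_ifs <;> omega
          _ = 3 := by simp
    calc _ ≤ ∑ _β ∈ S, b * 3 := sum_le_sum h1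
      _ = 3 * (K 0 * K 1 * K 2) * b := by
          rw [sum_const, hS, tlem_card, smul_eq_mul]
          ring
  · have h1 : ∑ β' ∈ S, ∑ γ' ∈ S, (((∑ β ∈ S, (T β).natAbs *
        ∑ k : Fin 3, (if tlemP (0 ≤ T β) β k = (β', γ') then 1 else 0) : ℕ) : ℤ)) *
          Dl β' γ' δ =
        ∑ β ∈ S, |T β| * ∑ k : Fin 3, Dl (tlemP (0 ≤ T β) β k).1 (tlemP (0 ≤ T β) β k).2 δ := by
      rw [← sum_product' (s := S) (t := S) (f := fun β' γ' => (((∑ β ∈ S, (T β).natAbs *
        ∑ k : Fin 3, (if tlemP (0 ≤ T β) β k = (β', γ') then 1 else 0) : ℕ) : ℤ)) *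
          Dl β' γ' δ)]
      have h2 : ∀ x ∈ S ×ˢ S, (((∑ β ∈ S, (T β).natAbs *
          ∑ k : Fin 3, (if tlemP (0 ≤ T β) β k = (x.1, x.2) then 1 else 0) : ℕ) : ℤ)) *
            Dl x.1 x.2 δ =
          ∑ β ∈ S, ∑ k : Fin 3, |T β| *
            (if tlemP (0 ≤ T β) β k = x then Dl x.1 x.2 δ else 0) := by
        intro x _
        push_cast
        rw [sum_mul]
        refine sum_congr rfl fun β _ => ?_
        rw [mul_assoc, sum_mul, mul_sum]
        refine sum_congr rfl fun k _ => ?_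
        split_ifs <;> simp
      rw [sum_congr rfl h2, sum_comm]
      refine sum_congr rfl fun β hβ => ?_
      rw [sum_comm, mul_sum]
      refine sum_congr rfl fun k _ => ?_
      rw [← mul_sum, sum_ite_eq, if_pos (tlem_memP K hK _ β hβ k)]
    have h3 : ∀ β ∈ S, |T β| *
        ∑ k : Fin 3, Dl (tlemP (0 ≤ T β) β k).1 (tlemP (0 ≤ T β) β k).2 δ =
        -(T β * tlemR β δ) := by
      intro β _
      rw [tlem_sumP]
      by_cases h0 : 0 ≤ T β
      · rw [if_pos h0, abs_of_nonneg h0]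
        ring
      · rw [if_neg h0, abs_of_neg (not_le.1 h0)]
        ring
    have h4 : ∑ β ∈ S, T β * tlemR β δ = T δ := by
      have e1 : ∀ β ∈ S, T β * tlemR β δ = T β * (if β = δ then 1 else 0)
          - T β * (fun a => tlemE a 0 0 δ) (β 0) - T β * (fun a => tlemE 0 a 0 δ) (β 1)
          - T β * (fun a => tlemE 0 0 a δ) (β 2)
          + T β * (fun _ => 2 * tlemE 0 0 0 δ) (β 0) := by
        intro β _
        have e2 : tlemE (β 0) (β 1) (β 2) δ = if β = δ then 1 else 0 := by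
          unfold tlemE
          rw [tlem_vec]
        unfold tlemR
        rw [e2]
        ring
      rw [sum_congr rfl e1, sum_add_distrib, sum_sub_distrib, sum_sub_distrib, sum_sub_distrib,
        tlem_marg K T hm 0 (fun a => tlemE a 0 0 δ), tlem_marg K T hm 1 (fun a => tlemE 0 a 0 δ),
        tlem_marg K T hm 2 (fun a => tlemE 0 0 a δ),
        tlem_marg K T hm 0 (fun _ => 2 * tlemE 0 0 0 δ)]
      simp only [mul_ite, mul_one, mul_zero, sub_zero, add_zero]
      rw [sum_ite_eq', if_pos hδ]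
    show T δ + ∑ β' ∈ S, ∑ γ' ∈ S, (((∑ β ∈ S, (T β).natAbs *
        ∑ k : Fin 3, (if tlemP (0 ≤ T β) β k = (β', γ') then 1 else 0) : ℕ) : ℤ)) *
          Dl β' γ' δ = 0
    rw [h1, sum_congr rfl h3, sum_neg_distrib, h4]
    ring

end H77.LT
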