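import Pool.Agent.H77.LT.TDef
import Pool.Agent.H77.LT.Geo

/-!
# [H77 LT TDA] Elementary facts on the block statistic

`dd_ed`: `ed q s` consists of the four distinct vertices `q`, `(κ, ln κ q, s)`, and
`ble (κ, ln κ q, s) = update (bls s) κ (blc q κ)`.
`dd_cov`: let `v` be a vertex of `ed q s` such that the entries of `ed q s` different from `v` are board
entries: `ln κ q ≡ s` modulo `KK h κ`, that is `blc q κ = bls s κ`. If `v` is the cell then
`blc q = bls s`, and the sum of `tw` over the edge is `[bls s = δ] - [blc q = δ] = 0`. If `v` is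
`(κ, ln κ q, s)` then `ble v = blc q`; the sum over the edge is again `[bls s = δ] - [blc q = δ]`.
`bal_univ`: `deg univ (inl (κ,l)) = 2m-1` (`card_line`), `deg univ (inr (inl (κ,l))) = n`,
`deg univ (inr (inr (κ,s))) = m`, and the degrees of `ents F` are given by `Forb`
(`m ≥ 1` if there is a line, so `2m-1` is no problem).
-/

open Finset

namespace H77.LT

variable {m n h : ℕ}

theorem tda_sum_ed (q : Cell m) (s : Fin n) (f : Vt m n → ℤ) :
    ∑ v ∈ ed q s, f v = f (Sum.inl q) + ∑ κ : Fin 3, f (Sum.inr (κ, ln κ q, s)) := by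
  unfold ed
  rw [sum_insert, sum_image]
  · intro κ _ κ' _ hk
    have h1 := Sum.inr.inj hk
    simp only [Prod.mk.injEq] at h1
    exact h1.1
  · rw [mem_image]
    rintro ⟨κ, _, hk⟩
    exact absurd hk (by simp)

theorem tda_ble (q : Cell m) (s : Fin n) (κ : Fin 3) :
    ble h (κ, ln κ q, s) = Function.update (bls h s) κ (blc h q κ) := rfl

theorem tda_sum_tw (q : Cell m) (s : Fin n) (δ : Fin 3 → ℕ) :
    ∑ v ∈ ed q s, tw h δ v = -(if blc h q = δ then 1 else 0) + (if bls h s = δ then 1 else 0) := by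
  rw [tda_sum_ed, Fin.sum_univ_three]
  unfold tw
  simp

theorem dd_ed (q : Cell m) (s : Fin n) (δ : Fin 3 → ℕ) :
    ∑ v ∈ ed q s, dd h δ v = Dl (blc h q) (bls h s) δ := by
  rw [tda_sum_ed]
  unfold Dl
  have h1 : ∀ κ : Fin 3, dd h δ (Sum.inr (κ, ln κ q, s) : Vt m n) =
      (if Function.update (bls h s) κ (blc h q κ) = δ then 1 else 0) -
        (if κ ≠ 0 ∧ bls h s = δ then 1 else 0) := by
    intro κ
    rw [← tda_ble]
    rfl
  rw [sum_congr rfl fun κ _ => h1 κ, sum_sub_distrib]
  have h2 : ∑ κ : Fin 3, (if κ ≠ 0 ∧ bls h s = δ then (1 : ℤ) else 0) =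
      2 * (if bls h s = δ then 1 else 0) := by
    rw [Fin.sum_univ_three]
    by_cases h3 : bls h s = δ
    · simp [h3]
    · simp [h3]
  rw [h2]
  have h4 : dd h δ (Sum.inl q : Vt m n) = -(if blc h q = δ then 1 else 0) := rfl
  rw [h4]
  ring

theorem dd_cov (q : Cell m) (s : Fin n) (δ : Fin 3 → ℕ) (v : Vt m n) (hv : v ∈ ed q s)
    (hb : ∀ κ, (Sum.inr (κ, ln κ q, s) : Vt m n) ≠ v → OnB h (κ, ln κ q, s)) :
    dd h δ v = tw h δ v - ∑ w ∈ ed q s, tw h δ w := by
  rw [tda_sum_tw]
  rcases v with q' | ⟨κ, l, s'⟩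
  · rw [mem_ed_inl] at hv
    subst hv
    have h1 : blc h q' = bls h s := by
      funext κ
      exact hb κ (by simp)
    rw [h1]
    have h2 : dd h δ (Sum.inl q' : Vt m n) = tw h δ (Sum.inl q' : Vt m n) := rfl
    rw [h2]
    ring
  · rw [mem_ed_inr] at hv
    obtain ⟨rfl, rfl⟩ := hv
    have h1 : ∀ κ', κ' ≠ κ → blc h q κ' = bls h s' κ' := by
      intro κ' hκ
      refine hb κ' ?_
      intro h2
      have h3 := Sum.inr.inj h2
      simp only [Prod.mk.injEq] at h3
      exact hκ h3.1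
    have h2 : Function.update (bls h s') κ (blc h q κ) = blc h q := by
      funext κ'
      by_cases h3 : κ' = κ
      · subst h3
        rw [Function.update_self]
      · rw [Function.update_of_ne h3, h1 κ' h3]
    have h3 : dd h δ (Sum.inr (κ, ln κ q, s') : Vt m n) =
        (if Function.update (bls h s') κ (blc h q κ) = δ then 1 else 0) -
          (if κ ≠ 0 ∧ bls h s' = δ then 1 else 0) := by
      rw [← tda_ble]
      rfl
    have h4 : tw h δ (Sum.inr (κ, ln κ q, s') : Vt m n) =
        if κ = 0 ∧ bls h s' = δ then 1 else 0 := rfl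
    rw [h3, h2, h4]
    by_cases h5 : κ = 0 <;> by_cases h6 : bls h s' = δ <;> simp [h5, h6] <;> ring

theorem dd_le (δ : Fin 3 → ℕ) (v : Vt m n) : |dd h δ v| ≤ 1 := by
  rcases v with q | e
  · have h1 : dd h δ (Sum.inl q : Vt m n) = -(if blc h q = δ then 1 else 0) := rfl
    rw [h1]
    split_ifs <;> norm_num
  · have h1 : dd h δ (Sum.inr e : Vt m n) = (if ble h e = δ then 1 else 0) -
        (if e.1 ≠ 0 ∧ bls h e.2.2 = δ then 1 else 0) := rfl
    rw [h1]
    split_ifs <;> norm_num

theorem tda_KK_pos (hh : 2 ≤ h) (κ : Fin 3) : 0 < KK h κ := by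
  have h1 : 2 ^ 4 ≤ h ^ 4 := Nat.pow_le_pow_left hh 4
  fin_cases κ
  · show 0 < h ^ 4 - 1
    omega
  · show 0 < h ^ 4
    omega
  · show 0 < h ^ 4 + 1
    omega

theorem blc_mem (hh : 2 ≤ h) (q : Cell m) : blc h q ∈ Blks h := by
  unfold Blks
  rw [Fintype.mem_piFinset]
  intro κ
  rw [mem_range]
  exact Nat.mod_lt _ (tda_KK_pos hh κ)

theorem bls_mem (hh : 2 ≤ h) (s : Fin n) : bls h s ∈ Blks h := by
  unfold Blks
  rw [Fintype.mem_piFinset]
  intro κ
  rw [mem_range]
  exact Nat.mod_lt _ (tda_KK_pos hh κ)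

theorem mem_Blks (b : Fin 3 → ℕ) : b ∈ Blks h ↔ IsBlk h b := by
  unfold Blks IsBlk
  rw [Fintype.mem_piFinset]
  simp only [mem_range]

theorem bal_PM (W : Finset (Vt m n)) (hW : PM W) : Bal W := by
  exact ⟨fun κ l => cov_deg_line W hW κ l, fun κ κ' s => cov_deg_symb W hW κ κ' s⟩

theorem tda_deg_union (U W : Finset (Vt m n)) (hd : Disjoint U W) (σ : Star m n) :
    deg (U ∪ W) σ = deg U σ + deg W σ := by
  unfold deg
  rw [filter_union, card_union_of_disjoint]
  exact disjoint_filter_filter hd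

theorem bal_union (U W : Finset (Vt m n)) (hU : Bal U) (hW : Bal W) (hd : Disjoint U W) :
    Bal (U ∪ W) := by
  refine ⟨fun κ l => ?_, fun κ κ' s => ?_⟩
  · rw [tda_deg_union U W hd, tda_deg_union U W hd, hU.1 κ l, hW.1 κ l]
  · rw [tda_deg_union U W hd, tda_deg_union U W hd, hU.2 κ κ' s, hW.2 κ κ' s]

theorem bal_sdiff (U W : Finset (Vt m n)) (hU : Bal U) (hW : Bal W) (hd : W ⊆ U) :
    Bal (U \ W) := by
  have h1 : ∀ σ : Star m n, deg U σ = deg (U \ W) σ + deg W σ := by
    intro σ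
    rw [← tda_deg_union (U \ W) W sdiff_disjoint, sdiff_union_of_subset hd]
  refine ⟨fun κ l => ?_, fun κ κ' s => ?_⟩
  · have h2 := h1 (Sum.inl (κ, l))
    have h3 := h1 (Sum.inr (Sum.inl (κ, l)))
    have h4 := hU.1 κ l
    have h5 := hW.1 κ l
    omega
  · have h2 := h1 (Sum.inr (Sum.inr (κ, s)))
    have h3 := h1 (Sum.inr (Sum.inr (κ', s)))
    have h4 := hU.2 κ κ' s
    have h5 := hW.2 κ κ' s
    omega

theorem tda_deg_ents (F : Finset (Fin 3 × Fin m × Fin n)) (σ : Star m n) :
    deg (ents F) σ = (F.filter (fun e => σ ∈ star (Sum.inr e : Vt m n))).card := by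
  unfold deg ents
  rw [filter_image, card_image_of_injective _ Sum.inr_injective]

theorem tda_univ_cell (κ : Fin 3) (l : Fin m) :
    deg (univ : Finset (Vt m n)) (Sum.inl (κ, l)) = 2 * m - 1 := by
  rw [← card_line κ l]
  unfold deg
  have h1 : (univ : Finset (Vt m n)).filter (fun v => (Sum.inl (κ, l) : Star m n) ∈ star v) =
      (univ.filter (fun q : Cell m => ln κ q = l)).image Sum.inl := by
    ext v
    rw [mem_filter, mem_image]
    constructor
    · rintro ⟨_, h2⟩
      rcases v with q | ⟨κ', l', s⟩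
      · rw [mem_star_inl] at h2
        obtain ⟨κ', h3⟩ := h2
        have h4 := Sum.inl.inj h3
        simp only [Prod.mk.injEq] at h4
        obtain ⟨rfl, h5⟩ := h4
        exact ⟨q, mem_filter.2 ⟨mem_univ _, h5.symm⟩, rfl⟩
      · rw [mem_star_inr] at h2
        rcases h2 with h2 | h2 <;> exact absurd h2 (by simp)
    · rintro ⟨q, hq, rfl⟩
      refine ⟨mem_univ _, ?_⟩
      rw [mem_star_inl]
      exact ⟨κ, by rw [(mem_filter.1 hq).2]⟩
  rw [h1, card_image_of_injective _ Sum.inl_injective]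

theorem tda_univ_line (κ : Fin 3) (l : Fin m) :
    deg (univ : Finset (Vt m n)) (Sum.inr (Sum.inl (κ, l))) = n := by
  unfold deg
  have h1 : (univ : Finset (Vt m n)).filter
      (fun v => (Sum.inr (Sum.inl (κ, l)) : Star m n) ∈ star v) =
      (univ : Finset (Fin n)).image (fun s => Sum.inr (κ, l, s)) := by
    ext v
    rw [mem_filter, mem_image]
    constructor
    · rintro ⟨_, h2⟩
      rcases v with q | ⟨κ', l', s⟩
      · rw [mem_star_inl] at h2
        obtain ⟨κ', h3⟩ := h2
        exact absurd h3 (by simp)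
      · rw [mem_star_inr] at h2
        rcases h2 with h2 | h2
        · have h3 := Sum.inl.inj (Sum.inr.inj h2)
          simp only [Prod.mk.injEq] at h3
          obtain ⟨rfl, rfl⟩ := h3
          exact ⟨s, mem_univ _, rfl⟩
        · exact absurd (Sum.inr.inj h2) (by simp)
    · rintro ⟨s, _, rfl⟩
      refine ⟨mem_univ _, ?_⟩
      rw [mem_star_inr]
      exact Or.inl rfl
  rw [h1, card_image_of_injective]
  · simp
  · intro s s' hs
    have h2 := Sum.inr.inj hs
    simp only [Prod.mk.injEq, true_and] at h2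
    exact h2

theorem tda_univ_symb (κ : Fin 3) (s : Fin n) :
    deg (univ : Finset (Vt m n)) (Sum.inr (Sum.inr (κ, s))) = m := by
  unfold deg
  have h1 : (univ : Finset (Vt m n)).filter
      (fun v => (Sum.inr (Sum.inr (κ, s)) : Star m n) ∈ star v) =
      (univ : Finset (Fin m)).image (fun l => Sum.inr (κ, l, s)) := by
    ext v
    rw [mem_filter, mem_image]
    constructor
    · rintro ⟨_, h2⟩
      rcases v with q | ⟨κ', l', s'⟩
      · rw [mem_star_inl] at h2
        obtain ⟨κ', h3⟩ := h2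
        exact absurd h3 (by simp)
      · rw [mem_star_inr] at h2
        rcases h2 with h2 | h2
        · exact absurd (Sum.inr.inj h2) (by simp)
        · have h3 := Sum.inr.inj (Sum.inr.inj h2)
          simp only [Prod.mk.injEq] at h3
          obtain ⟨rfl, rfl⟩ := h3
          exact ⟨l', mem_univ _, rfl⟩
    · rintro ⟨l, _, rfl⟩
      refine ⟨mem_univ _, ?_⟩
      rw [mem_star_inr]
      exact Or.inr rfl
  rw [h1, card_image_of_injective]
  · simp
  · intro l l' hl
    have h2 := Sum.inr.inj hl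
    simp only [Prod.mk.injEq, true_and, and_true] at h2
    exact h2

theorem tda_split (F : Finset (Fin 3 × Fin m × Fin n)) (σ : Star m n) :
    deg (univ \ ents F : Finset (Vt m n)) σ + deg (ents F) σ = deg univ σ := by
  rw [← tda_deg_union (univ \ ents F) (ents F) sdiff_disjoint,
    sdiff_union_of_subset (subset_univ _)]

theorem tda_ents_cell (F : Finset (Fin 3 × Fin m × Fin n)) (κ : Fin 3) (l : Fin m) :
    deg (ents F) (Sum.inl (κ, l)) = 0 := by
  rw [tda_deg_ents, card_eq_zero, filter_eq_empty_iff]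
  rintro ⟨κ', l', s⟩ _ h2
  rw [mem_star_inr] at h2
  rcases h2 with h2 | h2 <;> exact absurd h2 (by simp)

theorem tda_ents_line (F : Finset (Fin 3 × Fin m × Fin n)) (κ : Fin 3) (l : Fin m) :
    deg (ents F) (Sum.inr (Sum.inl (κ, l))) =
      (F.filter (fun e => e.1 = κ ∧ e.2.1 = l)).card := by
  rw [tda_deg_ents]
  congr 1
  apply filter_congr
  rintro ⟨κ', l', s⟩ _
  rw [mem_star_inr]
  constructor
  · rintro (h2 | h2)
    · have h3 := Sum.inl.inj (Sum.inr.inj h2)
      simp only [Prod.mk.injEq] at h3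
      exact ⟨h3.1.symm, h3.2.symm⟩
    · exact absurd (Sum.inr.inj h2) (by simp)
  · rintro ⟨h2, h3⟩
    left
    dsimp only at h2 h3
    rw [h2, h3]

theorem tda_ents_symb (F : Finset (Fin 3 × Fin m × Fin n)) (κ : Fin 3) (s : Fin n) :
    deg (ents F) (Sum.inr (Sum.inr (κ, s))) =
      (F.filter (fun e => e.1 = κ ∧ e.2.2 = s)).card := by
  rw [tda_deg_ents]
  congr 1
  apply filter_congr
  rintro ⟨κ', l', s'⟩ _
  rw [mem_star_inr]
  constructor
  · rintro (h2 | h2)
    · exact absurd (Sum.inr.inj h2) (by simp)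
    · have h3 := Sum.inr.inj (Sum.inr.inj h2)
      simp only [Prod.mk.injEq] at h3
      exact ⟨h3.1.symm, h3.2.symm⟩
  · rintro ⟨h2, h3⟩
    right
    dsimp only at h2 h3
    rw [h2, h3]

theorem bal_univ (F : Finset (Fin 3 × Fin m × Fin n)) (hF : Forb m n F) :
    Bal (univ \ ents F : Finset (Vt m n)) := by
  refine ⟨fun κ l => ?_, fun κ κ' s => ?_⟩
  · have h1 := tda_split F (Sum.inl (κ, l))
    have h2 := tda_split F (Sum.inr (Sum.inl (κ, l)))
    rw [tda_ents_cell, tda_univ_cell] at h1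
    rw [tda_ents_line, tda_univ_line] at h2
    have h3 := hF.line κ l
    omega
  · have h1 := tda_split F (Sum.inr (Sum.inr (κ, s)))
    have h2 := tda_split F (Sum.inr (Sum.inr (κ', s)))
    rw [tda_ents_symb, tda_univ_symb] at h1 h2
    have h3 := hF.symb κ κ' s
    omega

theorem deg_union_eq (U W : Finset (Vt m n)) (hd : Disjoint U W) (σ : Star m n) :
    deg (U ∪ W) σ = deg U σ + deg W σ := by
  exact tda_deg_union U W hd σ

end H77.LT
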