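import Pool.Agent.H77.LT.UA

/-!
# [H77 LT] Common counting lemmas for the choices of a universal absorber
(used by `UACnt.lean`, `UAHit.lean`)

`uac_shift`: double counting along the shifts `w ↦ w + e i` of the additive group of all choices.
`uac_gc_shift`, `uac_hc_shift`: the coordinates of the connectors are affine forms.
-/

open Finset

namespace H77.LT

variable {m n k : ℕ}

theorem uac_shift {Ω ι : Type*} [Fintype Ω] [Fintype ι] [AddGroup Ω] (e : ι → Ω)
    (P : Ω → Prop) [DecidablePred P] (c : ℕ)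
    (h : ∀ v, (univ.filter (fun i => P (v + e i))).card ≤ c) :
    Fintype.card ι * (univ.filter P).card ≤ c * Fintype.card Ω := by
  classical
  have h1 : ∀ i, (univ.filter (fun v => P (v + e i))).card = (univ.filter P).card := by
    intro i
    apply Finset.card_bij (fun v _ => v + e i)
    · intro a ha
      simpa using ha
    · intro a _ b _ hab
      exact add_right_cancel hab
    · intro b hb
      refine ⟨b - e i, ?_, ?_⟩
      · simpa using hb
      · simp
  have h2 : ∑ i, (univ.filter (fun v => P (v + e i))).card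
      = ∑ v, (univ.filter (fun i => P (v + e i))).card := by
    simp only [Finset.card_filter]
    rw [Finset.sum_comm]
  rw [Finset.sum_congr rfl (fun i _ => h1 i), Finset.sum_const, Finset.card_univ,
    smul_eq_mul] at h2
  rw [h2]
  refine (Finset.sum_le_sum (fun v _ => h v)).trans ?_
  rw [Finset.sum_const, Finset.card_univ, smul_eq_mul, mul_comm]

theorem uac_two {ι α β : Type*} [DecidableEq α] (S : Finset ι) (g : ι → α)
    (hg : ∀ c ∈ S, ∀ c' ∈ S, g c = g c' → c = c') (Q : Finset β) (φ ψ : β → α)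
    (h : ∀ c ∈ S, ∃ q ∈ Q, g c = φ q ∨ g c = ψ q) : S.card ≤ 2 * Q.card := by
  have h1 : S.card ≤ (Q.image φ ∪ Q.image ψ).card := by
    apply Finset.card_le_card_of_injOn g
    · intro c hc
      obtain ⟨q, hq, h2⟩ := h c hc
      rw [Finset.mem_coe, Finset.mem_union]
      rcases h2 with h2 | h2
      · left
        rw [h2]
        exact Finset.mem_image_of_mem _ hq
      · right
        rw [h2]
        exact Finset.mem_image_of_mem _ hq
    · intro a ha b hb hab
      exact hg a ha b hb hab
  refine h1.trans ((Finset.card_union_le _ _).trans ?_)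
  have h2 : (Q.image φ).card ≤ Q.card := Finset.card_image_le
  have h3 : (Q.image ψ).card ≤ Q.card := Finset.card_image_le
  omega

/-- integers which are units of `ZN m` -/
def uacU (a : ℤ) : Prop := a = 1 ∨ a = -1 ∨ a = 2 ∨ a = -2

instance (a : ℤ) : Decidable (uacU a) := by unfold uacU; infer_instance

theorem uac_unit {a : ℤ} (ha : uacU a) {x : ZN m} (h : (a : ZN m) * x = 0) : x = 0 := by
  have h2 : ∀ y : ZN m, y = -y → y = 0 := by
    intro y hy
    by_contra h3
    exact two_ne_zero' h3 hy
  rcases ha with rfl | rfl | rfl | rfl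
  · simpa using h
  · simpa using h
  · apply h2
    have h3 : x + x = 0 := by
      rw [← h]; push_cast; ring
    exact eq_neg_of_add_eq_zero_left h3
  · apply h2
    have h3 : x + x = 0 := by
      have h4 : x + x = -(((-2 : ℤ) : ZN m) * x) := by push_cast; ring
      rw [h4, h, neg_zero]
    exact eq_neg_of_add_eq_zero_left h3

theorem uac_unit_inj {a : ℤ} (ha : uacU a) {x y : ZN m} (h : (a : ZN m) * x = (a : ZN m) * y) :
    x = y := by
  have h1 : (a : ZN m) * (x - y) = 0 := by
    rw [mul_sub, h, sub_self]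
  exact sub_eq_zero.1 (uac_unit ha h1)

/-- coefficients of `p` and of `r` in the coordinates of `gc` and `hc` -/
def uacGp : Fin 4 → Fin 3 → ℤ := ![![0, 2, -2], ![-1, 0, 1], ![-1, 1, 0], ![1, -1, 0]]
def uacGr : Fin 4 → Fin 3 → ℤ := ![![0, -1, 1], ![0, 0, 0], ![1, -1, 0], ![-1, 0, 1]]
def uacHp : Fin 3 → Fin 3 → ℤ := ![![-1, 1, 0], ![-1, 2, -1], ![1, 1, -2]]
def uacHr : Fin 3 → Fin 3 → ℤ := ![![0, -1, 1], ![1, -1, 0], ![-1, 0, 1]]

theorem uac_gc_shift (rt : Fin 3 → ZN m) (p r c d : ZN m) (i : Fin 4) (κ : Fin 3) :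
    gc rt (p + c) (r + d) i κ
      = gc rt p r i κ + ((uacGp i κ : ℤ) : ZN m) * c + ((uacGr i κ : ℤ) : ZN m) * d := by
  fin_cases i <;> fin_cases κ <;> simp [gc, uacGp, uacGr] <;> ring

theorem uac_hc_shift (rt : Fin 3 → ZN m) (p r c d : ZN m) (i : Fin 3) (κ : Fin 3) :
    hc rt (p + c) (r + d) i κ
      = hc rt p r i κ + ((uacHp i κ : ℤ) : ZN m) * c + ((uacHr i κ : ℤ) : ZN m) * d := by
  fin_cases i <;> fin_cases κ <;> simp [hc, uacHp, uacHr] <;> ring

theorem uac_gc_root (rt : Fin 3 → ZN m) (p r : ZN m) (κ : Fin 3) :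
    gc rt p r κ.castSucc κ = rt κ := by
  fin_cases κ <;> rfl

theorem uac_add_fst [NeZero n] (w : UW m n k) (j : Fin k) (x : ZN m × ZN m) (s : Fin n) :
    (w + ((Pi.single j x, s) : UW m n k)).1 j = w.1 j + x := by
  simp

theorem uac_add_ne [NeZero n] (w : UW m n k) (j j' : Fin k) (h : j' ≠ j) (x : ZN m × ZN m)
    (s : Fin n) : (w + ((Pi.single j x, s) : UW m n k)).1 j' = w.1 j' := by
  simp [Pi.single_eq_of_ne h]

theorem uac_add_snd [NeZero n] (w : UW m n k) (j : Fin k) (x : ZN m × ZN m) (s : Fin n) :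
    (w + ((Pi.single j x, s) : UW m n k)).2 = w.2 + s := by
  simp

/-- one affine equation in `p j, r j` with a unit coefficient -/
theorem uac_lin [NeZero n] (P : UW m n k → Prop) [DecidablePred P] (j : Fin k)
    (F : UW m n k → ZN m) (hP : ∀ w, P w → F w = 0) (a b : ℤ)
    (hF : ∀ w c d, F (w + ((Pi.single j (c, d), 0) : UW m n k))
      = F w + (a : ZN m) * c + (b : ZN m) * d)
    (hab : uacU a ∨ uacU b) :
    (2 * m + 1) * (univ.filter P).card ≤ Fintype.card (UW m n k) := by
  have hN : Fintype.card (ZN m) = 2 * m + 1 := ZMod.card _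
  rcases hab with h | h
  · have h1 := uac_shift (fun c : ZN m => ((Pi.single j (c, 0), 0) : UW m n k)) P 1 (by
      intro v
      rw [Finset.card_le_one]
      intro c hc c' hc'
      rw [Finset.mem_filter] at hc hc'
      have h2 := hP _ hc.2
      have h3 := hP _ hc'.2
      rw [hF] at h2 h3
      apply uac_unit_inj h
      have h4 : F v + (a : ZN m) * c + (b : ZN m) * 0 = F v + (a : ZN m) * c' + (b : ZN m) * 0 := by
        rw [h2, h3]
      simpa using h4)
    rwa [hN, one_mul] at h1
  · have h1 := uac_shift (fun c : ZN m => ((Pi.single j (0, c), 0) : UW m n k)) P 1 (by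
      intro v
      rw [Finset.card_le_one]
      intro c hc c' hc'
      rw [Finset.mem_filter] at hc hc'
      have h2 := hP _ hc.2
      have h3 := hP _ hc'.2
      rw [hF] at h2 h3
      apply uac_unit_inj h
      have h4 : F v + (a : ZN m) * 0 + (b : ZN m) * c = F v + (a : ZN m) * 0 + (b : ZN m) * c' := by
        rw [h2, h3]
      simpa using h4)
    rwa [hN, one_mul] at h1

/-- the symbol is determined -/
theorem uac_sym [NeZero n] (P : UW m n k → Prop) [DecidablePred P] (c : ℕ)
    (h : ∀ w : UW m n k, (univ.filter (fun s : Fin n => P (w + ((0, s) : UW m n k)))).card ≤ c) :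
    n * (univ.filter P).card ≤ c * Fintype.card (UW m n k) := by
  have h1 := uac_shift (fun s : Fin n => ((0, s) : UW m n k)) P c h
  rwa [Fintype.card_fin] at h1

end H77.LT
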