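import Pool.Agent.H77.LT.UA

/-!
# [H77 LT UAPM] The universal absorber: the two perfect matchings

Write `g j i`, `h j i` for the triples of the connectors with the parameters `w`.
(1) Sum of `gc` is zero identically (for `gc 3`: `sg + p - r - sg - p + r = 0`), the sum of `hc` is
zero: `hc 0`: `-y-p+y+p-r+r`; `hc 1`: `-y-w-p+r+y+w+2p-r-p = 0`; `hc 2`: `2 sg + 2p - r -x-y-w-2p+r`
and `2 sg = x+y+w` as `2 (m+1) = N + 1 = 1` in `ZN m`. Every coordinate of an `hc` is plus or minus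
the coordinate of a `gc` in the same direction (see `UA.lean`), hence the `hc` are valid too.
(2) For good `w` the cells of all `g j i` and all `h j i` are distinct: the `g` have distinct lines
in direction 0, so do the `h`. If `h j i` and `g j' i'` were the same cell they would have the same
line in all directions; but `h j 0` has the line of `g j 1` in direction 0 and of `g j 2` in
direction 1; `h j 1` has the line of `g j 2` in direction 0 and of `g j 0` in direction 1;
`h j 2` has the line of `g j 3` in direction 0 and of `g j 0` in direction 2.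
(3) `UA_pm`: the edges `(h j i, sy j)`, `(g j i, t)` (`t = w.2 ≠ sy j`) are pairwise disjoint:
different cells, and entries with the same symbol have different lines in every direction (the lines
of the `h` are lines of different `g`).
(4) `UA_pm2`: the edges `(g j i, sy j)`, `(h j i, t)`, `(q j, t)` are pairwise disjoint (the lines of
the `q j` are the root lines, i.e. lines of `g j' 0`, `g j' 1`, `g j' 2` in directions 0,1,2, which
are different from the lines of the `h`; `q j` is not a cell of `UA` because `UA` and `WS` are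
disjoint), and their union is `UA ∪ WS`: cells are clear. Entries with symbol `sy j`: in
direction `κ'` the lines of `g j 0..3` are the root line `rln j κ'` (in `WS`) and the lines of
`h j 0..2` (in `UA`). Entries with symbol `t`: direction `κ'`: the lines of the `h` and of the `q j`;
the lines of the `q j` are the lines `rln j' κ'` (permuted if `κ' = κ`), so together these are exactly
the lines of all `g j i`.
-/

open Finset

namespace H77.LT

variable {m n k : ℕ}

theorem gc_sum (rt : Fin 3 → ZN m) (p r : ZN m) (i : Fin 4) :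
    gc rt p r i 0 + gc rt p r i 1 + gc rt p r i 2 = 0 := by
  fin_cases i <;> simp [gc] <;> ring

/-- index of the `gc` that has the line of `hc i` in direction `κ` -/
def UAPm_a : Fin 3 → Fin 3 → Fin 4 := ![![1, 2, 3], ![2, 0, 1], ![3, 3, 0]]

theorem UAPm_hc (rt : Fin 3 → ZN m) (p r : ZN m) (i κ : Fin 3) :
    hc rt p r i κ = gc rt p r (UAPm_a i κ) κ ∨ hc rt p r i κ = -gc rt p r (UAPm_a i κ) κ := by
  fin_cases i <;> fin_cases κ <;> simp [hc, gc, UAPm_a]
  right
  ring

theorem UAPm_root (rt : Fin 3 → ZN m) (p r : ZN m) (κ : Fin 3) :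
    gc rt p r κ.castSucc κ = rt κ := by
  fin_cases κ <;> simp [gc]

theorem UAPm_a_inj (κ i i' : Fin 3) (h : UAPm_a i κ = UAPm_a i' κ) : i = i' := by
  revert κ i i'
  decide

theorem UAPm_a_ne (κ i : Fin 3) : UAPm_a i κ ≠ κ.castSucc := by
  revert κ i
  decide

theorem UAPm_a_surj (κ : Fin 3) (i : Fin 4) (h : i ≠ κ.castSucc) : ∃ i', UAPm_a i' κ = i := by
  revert κ i
  decide

theorem UAPm_a_two (i : Fin 3) : ∃ κ κ', UAPm_a i κ ≠ UAPm_a i κ' := by
  revert i
  decide

theorem hc_valid (rt : Fin 3 → ZN m) (p r : ZN m) (h : ∀ i, Valid (gc rt p r i)) (i : Fin 3) :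
    Valid (hc rt p r i) := by
  constructor
  · intro κ
    rcases UAPm_hc rt p r i κ with h1 | h1
    · rw [h1]
      exact (h _).1 κ
    · rw [h1]
      exact neg_ne_zero.mpr ((h _).1 κ)
  · have h2 : (2 : ZN m) * ((m + 1 : ℕ) : ZN m) = 1 := by
      have h3 : (((2 * m + 1 : ℕ) : ℕ) : ZN m) = 0 := ZMod.natCast_self _
      push_cast at h3 ⊢
      linear_combination h3
    fin_cases i
    · simp [hc]
      ring
    · simp [hc]
      ring
    · simp only [hc, sg]
      simp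
      push_cast at h2
      linear_combination (rt 0 + rt 1 + rt 2) * h2

theorem UAPm_edv (x : Fin 3 → ZN m) (hx : Valid x) (s : Fin n) : edv x s = ed (mkc x hx) s := by
  unfold edv
  rw [dif_pos hx]

theorem UAPm_edv_card (x : Fin 3 → ZN m) (s : Fin n) : (edv x s).card ≤ 4 := by
  unfold edv
  split_ifs with h
  · rw [card_ed]
  · simp

theorem UA_card (rt : Fin k → Fin 3 → ZN m) (sy : Fin k → Fin n) (w : UW m n k) :
    (UA rt sy w).card ≤ 28 * k := by
  unfold UA
  have h1 : (univ.biUnion fun j : Fin k => univ.biUnion fun i : Fin 3 =>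
      edv (hc (rt j) (w.1 j).1 (w.1 j).2 i) (sy j)).card ≤ k * (3 * 4) := by
    refine (card_biUnion_le_card_mul _ _ (3 * 4) ?_).trans ?_
    · intro j _
      refine (card_biUnion_le_card_mul _ _ 4 ?_).trans ?_
      · intro i _
        exact UAPm_edv_card _ _
      · simp
    · simp
  have h2 : (univ.biUnion fun j : Fin k => univ.biUnion fun i : Fin 4 =>
      edv (gc (rt j) (w.1 j).1 (w.1 j).2 i) w.2).card ≤ k * (4 * 4) := by
    refine (card_biUnion_le_card_mul _ _ (4 * 4) ?_).trans ?_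
    · intro j _
      refine (card_biUnion_le_card_mul _ _ 4 ?_).trans ?_
      · intro i _
        exact UAPm_edv_card _ _
      · simp
    · simp
  refine (card_union_le _ _).trans ?_
  omega

/-- different lines in direction `κ` -/
def UAPm_N (x y : Fin 3 → ZN m) (κ : Fin 3) : Prop := x κ ≠ y κ ∧ x κ ≠ -y κ

theorem UAPm_N_symm {x y : Fin 3 → ZN m} {κ : Fin 3} (h : UAPm_N x y κ) : UAPm_N y x κ := by
  refine ⟨fun h1 => h.1 h1.symm, fun h1 => h.2 ?_⟩
  rw [h1, neg_neg]

theorem UAPm_ln_ne {x y : Fin 3 → ZN m} (hx : Valid x) (hy : Valid y) {κ : Fin 3}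
    (h : UAPm_N x y κ) : ln κ (mkc x hx) ≠ ln κ (mkc y hy) := by
  rw [ln_mkc, ln_mkc, Ne, lnOf_eq_iff]
  rintro (h1 | h1)
  · exact h.1 h1
  · exact h.2 h1

theorem UAPm_ed_disj (q q' : Cell m) (s s' : Fin n) (h1 : q ≠ q')
    (h2 : s = s' → ∀ κ, ln κ q ≠ ln κ q') : Disjoint (ed q s : Finset (Vt m n)) (ed q' s') := by
  rw [Finset.disjoint_left]
  rintro (c | ⟨κ, l, t⟩) h3 h4
  · rw [mem_ed_inl] at h3 h4
    exact h1 (h3.symm.trans h4)
  · rw [mem_ed_inr] at h3 h4
    exact h2 (h3.1.symm.trans h4.1) κ (h3.2.symm.trans h4.2)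

theorem UAPm_edv_disj {x y : Fin 3 → ZN m} (hx : Valid x) (hy : Valid y) (s s' : Fin n)
    (h1 : ∃ κ, UAPm_N x y κ) (h2 : s = s' → ∀ κ, UAPm_N x y κ) :
    Disjoint (edv x s : Finset (Vt m n)) (edv y s') := by
  rw [UAPm_edv x hx, UAPm_edv y hy]
  apply UAPm_ed_disj
  · obtain ⟨κ, h3⟩ := h1
    intro h4
    apply UAPm_ln_ne hx hy h3
    rw [h4]
  · intro h3 κ
    exact UAPm_ln_ne hx hy (h2 h3 κ)

section good

variable {rt : Fin k → Fin 3 → ZN m} {sy : Fin k → Fin n} {w : UW m n k}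

theorem UAPm_gg (hg : UGood rt sy w) (j : Fin k) (i : Fin 4) (j' : Fin k) (i' : Fin 4)
    (h : (j, i) ≠ (j', i')) (κ : Fin 3) :
    UAPm_N (gc (rt j) (w.1 j).1 (w.1 j).2 i) (gc (rt j') (w.1 j').1 (w.1 j').2 i') κ :=
  hg.2.1 κ j i j' i' h

theorem UAPm_hg (hg : UGood rt sy w) (j : Fin k) (i : Fin 3) (j' : Fin k) (i' : Fin 4)
    (κ : Fin 3) (h : (j, UAPm_a i κ) ≠ (j', i')) :
    UAPm_N (hc (rt j) (w.1 j).1 (w.1 j).2 i) (gc (rt j') (w.1 j').1 (w.1 j').2 i') κ := by
  have h1 := UAPm_gg hg j (UAPm_a i κ) j' i' h κ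
  unfold UAPm_N at h1 ⊢
  rcases UAPm_hc (rt j) (w.1 j).1 (w.1 j).2 i κ with h2 | h2
  · rw [h2]
    exact h1
  · rw [h2]
    exact ⟨fun h3 => h1.2 (neg_eq_iff_eq_neg.mp h3), fun h3 => h1.1 (neg_inj.mp h3)⟩

theorem UAPm_hh (hg : UGood rt sy w) (j : Fin k) (i : Fin 3) (j' : Fin k) (i' : Fin 3)
    (κ : Fin 3) (h : (j, i) ≠ (j', i')) :
    UAPm_N (hc (rt j) (w.1 j).1 (w.1 j).2 i) (hc (rt j') (w.1 j').1 (w.1 j').2 i') κ := by
  have h0 : (j, UAPm_a i κ) ≠ (j', UAPm_a i' κ) := by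
    intro h1
    rw [Prod.mk.injEq] at h1
    apply h
    rw [h1.1, UAPm_a_inj κ i i' h1.2]
  have h1 := UAPm_hg hg j i j' (UAPm_a i' κ) κ h0
  unfold UAPm_N at h1 ⊢
  rcases UAPm_hc (rt j') (w.1 j').1 (w.1 j').2 i' κ with h2 | h2
  · rw [h2]
    exact h1
  · rw [h2, neg_neg]
    exact ⟨h1.2, h1.1⟩

theorem UAPm_hg_ex (hg : UGood rt sy w) (j : Fin k) (i : Fin 3) (j' : Fin k) (i' : Fin 4) :
    ∃ κ, UAPm_N (hc (rt j) (w.1 j).1 (w.1 j).2 i) (gc (rt j') (w.1 j').1 (w.1 j').2 i') κ := by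
  obtain ⟨κ, κ', h⟩ := UAPm_a_two i
  by_cases h1 : (j, UAPm_a i κ) = (j', i')
  · refine ⟨κ', UAPm_hg hg j i j' i' κ' ?_⟩
    intro h2
    rw [Prod.mk.injEq] at h1 h2
    exact h (h1.2.trans h2.2.symm)
  · exact ⟨κ, UAPm_hg hg j i j' i' κ h1⟩

theorem UAPm_hv (hg : UGood rt sy w) (j : Fin k) (i : Fin 3) :
    Valid (hc (rt j) (w.1 j).1 (w.1 j).2 i) := hc_valid _ _ _ (hg.1 j) i

end good

theorem UAPm_PM_edv (x : Fin 3 → ZN m) (s : Fin n) : PM (edv x s : Finset (Vt m n)) := by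
  unfold edv
  split_ifs with h
  · exact PM_ed _ _
  · exact PM_empty

/-- matchings indexed by a product -/
theorem UAPm_PM2 {a : ℕ} (E : Fin k → Fin a → Finset (Vt m n)) (h1 : ∀ j i, PM (E j i))
    (h2 : ∀ j i j' i', (j, i) ≠ (j', i') → Disjoint (E j i) (E j' i')) :
    PM (univ.biUnion fun j => univ.biUnion fun i => E j i) := by
  apply PM_biUnion
  · intro j _
    apply PM_biUnion
    · intro i _
      exact h1 j i
    · intro i _ i' _ hne
      apply h2
      intro h3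
      rw [Prod.mk.injEq] at h3
      exact hne h3.2
  · intro j _ j' _ hne
    rw [disjoint_biUnion_left]
    intro i _
    rw [disjoint_biUnion_right]
    intro i' _
    apply h2
    intro h3
    rw [Prod.mk.injEq] at h3
    exact hne h3.1

theorem UA_pm (rt : Fin k → Fin 3 → ZN m) (sy : Fin k → Fin n) (w : UW m n k)
    (hg : UGood rt sy w) : PM (UA rt sy w) := by
  unfold UA
  apply PM_union
  · apply UAPm_PM2
    · intro j i
      exact UAPm_PM_edv _ _
    · intro j i j' i' h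
      exact UAPm_edv_disj (UAPm_hv hg j i) (UAPm_hv hg j' i') _ _
        ⟨0, UAPm_hh hg j i j' i' 0 h⟩ (fun _ κ => UAPm_hh hg j i j' i' κ h)
  · apply UAPm_PM2
    · intro j i
      exact UAPm_PM_edv _ _
    · intro j i j' i' h
      exact UAPm_edv_disj (hg.1 j i) (hg.1 j' i') _ _
        ⟨0, UAPm_gg hg j i j' i' h 0⟩ (fun _ κ => UAPm_gg hg j i j' i' h κ)
  · rw [disjoint_biUnion_left]
    intro j _
    rw [disjoint_biUnion_left]
    intro i _
    rw [disjoint_biUnion_right]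
    intro j' _
    rw [disjoint_biUnion_right]
    intro i' _
    exact UAPm_edv_disj (UAPm_hv hg j i) (hg.1 j' i') _ _ (UAPm_hg_ex hg j i j' i')
      (fun h => absurd h.symm (hg.2.2 j))

theorem UAPm_lnh {rt : Fin k → Fin 3 → ZN m} {sy : Fin k → Fin n} {w : UW m n k}
    (hg : UGood rt sy w) (j : Fin k) (i κ : Fin 3) :
    ln κ (mkc (hc (rt j) (w.1 j).1 (w.1 j).2 i) (UAPm_hv hg j i)) =
      ln κ (mkc (gc (rt j) (w.1 j).1 (w.1 j).2 (UAPm_a i κ)) (hg.1 j _)) := by
  rw [ln_mkc, ln_mkc, lnOf_eq_iff]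
  exact UAPm_hc (rt j) (w.1 j).1 (w.1 j).2 i κ

theorem UAPm_lnr {rt : Fin k → Fin 3 → ZN m} {sy : Fin k → Fin n} {w : UW m n k}
    (hg : UGood rt sy w) {κ : Fin 3} {pi : Equiv.Perm (Fin k)} {q : Fin k → Cell m}
    (hr : RootOf rt κ pi q) (j : Fin k) (κ' : Fin 3) :
    ln κ' (mkc (gc (rt j) (w.1 j).1 (w.1 j).2 κ'.castSucc) (hg.1 j _)) = rln κ pi q j κ' := by
  obtain ⟨h1, h2⟩ := hr.1 j κ'
  rw [← h2, ln_mkc, lnOf_eq_iff]
  left
  exact UAPm_root _ _ _ _

/-- the lines of the cells `q j` are root lines -/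
theorem UAPm_lnq (κ : Fin 3) (pi : Equiv.Perm (Fin k)) (q : Fin k → Cell m) (κ' : Fin 3) :
    ∃ f : Fin k → Fin k, Function.Bijective f ∧ ∀ j, ln κ' (q j) = rln κ pi q (f j) κ' := by
  by_cases h : κ' = κ
  · refine ⟨pi.symm, pi.symm.bijective, fun j => ?_⟩
    unfold rln
    rw [if_pos h, Equiv.apply_symm_apply]
  · refine ⟨id, Function.bijective_id, fun j => ?_⟩
    unfold rln
    rw [if_neg h]
    rfl

theorem UAPm_cell_mem {rt : Fin k → Fin 3 → ZN m} {sy : Fin k → Fin n} {w : UW m n k}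
    (hg : UGood rt sy w) (c : Cell m) :
    (Sum.inl c : Vt m n) ∈ UA rt sy w ↔
      (∃ j i, c = mkc (hc (rt j) (w.1 j).1 (w.1 j).2 i) (UAPm_hv hg j i)) ∨
      (∃ j i, c = mkc (gc (rt j) (w.1 j).1 (w.1 j).2 i) (hg.1 j i)) := by
  unfold UA
  simp only [mem_union, mem_biUnion, mem_univ, true_and]
  constructor
  · rintro (⟨j, i, h⟩ | ⟨j, i, h⟩)
    · left
      rw [UAPm_edv _ (UAPm_hv hg j i), mem_ed_inl] at h
      exact ⟨j, i, h⟩
    · right
      rw [UAPm_edv _ (hg.1 j i), mem_ed_inl] at h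
      exact ⟨j, i, h⟩
  · rintro (⟨j, i, h⟩ | ⟨j, i, h⟩)
    · left
      refine ⟨j, i, ?_⟩
      rw [UAPm_edv _ (UAPm_hv hg j i), mem_ed_inl]
      exact h
    · right
      refine ⟨j, i, ?_⟩
      rw [UAPm_edv _ (hg.1 j i), mem_ed_inl]
      exact h

theorem UAPm_ent_mem {rt : Fin k → Fin 3 → ZN m} {sy : Fin k → Fin n} {w : UW m n k}
    (hg : UGood rt sy w) (κ' : Fin 3) (l : Fin m) (s : Fin n) :
    (Sum.inr (κ', l, s) : Vt m n) ∈ UA rt sy w ↔
      (∃ j i, s = sy j ∧ l = ln κ' (mkc (hc (rt j) (w.1 j).1 (w.1 j).2 i) (UAPm_hv hg j i))) ∨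
      (s = w.2 ∧ ∃ j i, l = ln κ' (mkc (gc (rt j) (w.1 j).1 (w.1 j).2 i) (hg.1 j i))) := by
  unfold UA
  simp only [mem_union, mem_biUnion, mem_univ, true_and]
  constructor
  · rintro (⟨j, i, h⟩ | ⟨j, i, h⟩)
    · left
      rw [UAPm_edv _ (UAPm_hv hg j i), mem_ed_inr] at h
      exact ⟨j, i, h⟩
    · right
      rw [UAPm_edv _ (hg.1 j i), mem_ed_inr] at h
      exact ⟨h.1, j, i, h.2⟩
  · rintro (⟨j, i, h⟩ | ⟨h1, j, i, h⟩)
    · left
      refine ⟨j, i, ?_⟩
      rw [UAPm_edv _ (UAPm_hv hg j i), mem_ed_inr]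
      exact h
    · right
      refine ⟨j, i, ?_⟩
      rw [UAPm_edv _ (hg.1 j i), mem_ed_inr]
      exact ⟨h1, h⟩

theorem UAPm_WS_inl (κ : Fin 3) (pi : Equiv.Perm (Fin k)) (q : Fin k → Cell m)
    (sy : Fin k → Fin n) (c : Cell m) :
    (Sum.inl c : Vt m n) ∈ WS κ pi q sy ↔ ∃ j, c = q j := by
  unfold WS
  simp only [mem_union, mem_image, mem_univ, true_and, Sum.inl.injEq, reduceCtorEq, exists_false,
    or_false]
  exact ⟨fun ⟨j, h⟩ => ⟨j, h.symm⟩, fun ⟨j, h⟩ => ⟨j, h.symm⟩⟩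

theorem UAPm_WS_inr (κ : Fin 3) (pi : Equiv.Perm (Fin k)) (q : Fin k → Cell m)
    (sy : Fin k → Fin n) (κ' : Fin 3) (l : Fin m) (s : Fin n) :
    (Sum.inr (κ', l, s) : Vt m n) ∈ WS κ pi q sy ↔ ∃ j, s = sy j ∧ l = rln κ pi q j κ' := by
  unfold WS
  simp only [mem_union, mem_image, mem_univ, true_and, Sum.inr.injEq, reduceCtorEq, exists_false,
    false_or, Prod.mk.injEq]
  constructor
  · rintro ⟨⟨j, κ''⟩, h1, h2, h3⟩
    simp only at h1 h2 h3
    subst h1
    exact ⟨j, h3.symm, h2.symm⟩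
  · rintro ⟨j, h1, h2⟩
    exact ⟨(j, κ'), rfl, h2.symm, h1.symm⟩

theorem UA_pm2 (rt : Fin k → Fin 3 → ZN m) (sy : Fin k → Fin n) (w : UW m n k)
    (hg : UGood rt sy w) (κ : Fin 3) (pi : Equiv.Perm (Fin k)) (q : Fin k → Cell m)
    (hr : RootOf rt κ pi q) (hd : Disjoint (UA rt sy w) (WS κ pi q sy)) :
    PM (UA rt sy w ∪ WS κ pi q sy) := by
  -- the cells `q j` are not cells of `UA`
  have hq : ∀ j c, (Sum.inl c : Vt m n) ∈ UA rt sy w → q j ≠ c := by
    intro j c h1 h2
    subst h2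
    rw [Finset.disjoint_left] at hd
    exact hd h1 ((UAPm_WS_inl κ pi q sy _).2 ⟨j, rfl⟩)
  have key : UA rt sy w ∪ WS κ pi q sy =
      (univ.biUnion fun j : Fin k => univ.biUnion fun i : Fin 4 =>
        edv (gc (rt j) (w.1 j).1 (w.1 j).2 i) (sy j)) ∪
      ((univ.biUnion fun j : Fin k => univ.biUnion fun i : Fin 3 =>
        edv (hc (rt j) (w.1 j).1 (w.1 j).2 i) w.2) ∪
      (univ.biUnion fun j : Fin k => ed (q j) w.2)) := by
    ext v
    rcases v with c | ⟨κ', l, s⟩
    · rw [mem_union, UAPm_cell_mem hg, UAPm_WS_inl]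
      simp only [mem_union, mem_biUnion, mem_univ, true_and]
      constructor
      · rintro ((⟨j, i, h⟩ | ⟨j, i, h⟩) | ⟨j, h⟩)
        · right; left
          refine ⟨j, i, ?_⟩
          rw [UAPm_edv _ (UAPm_hv hg j i), mem_ed_inl]
          exact h
        · left
          refine ⟨j, i, ?_⟩
          rw [UAPm_edv _ (hg.1 j i), mem_ed_inl]
          exact h
        · right; right
          exact ⟨j, (mem_ed_inl _ _ _).2 h⟩
      · rintro (⟨j, i, h⟩ | ⟨j, i, h⟩ | ⟨j, h⟩)
        · rw [UAPm_edv _ (hg.1 j i), mem_ed_inl] at h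
          left; right
          exact ⟨j, i, h⟩
        · rw [UAPm_edv _ (UAPm_hv hg j i), mem_ed_inl] at h
          left; left
          exact ⟨j, i, h⟩
        · right
          exact ⟨j, (mem_ed_inl _ _ _).1 h⟩
    · rw [mem_union, UAPm_ent_mem hg, UAPm_WS_inr]
      simp only [mem_union, mem_biUnion, mem_univ, true_and]
      obtain ⟨f, hf, hf2⟩ := UAPm_lnq κ pi q κ'
      constructor
      · rintro ((⟨j, i, h1, h2⟩ | ⟨h1, j, i, h2⟩) | ⟨j, h1, h2⟩)
        · left
          refine ⟨j, UAPm_a i κ', ?_⟩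
          rw [UAPm_edv _ (hg.1 j _), mem_ed_inr]
          exact ⟨h1, h2.trans (UAPm_lnh hg j i κ')⟩
        · right
          by_cases h3 : i = κ'.castSucc
          · right
            subst h3
            rw [UAPm_lnr hg hr] at h2
            obtain ⟨j', rfl⟩ := hf.2 j
            refine ⟨j', ?_⟩
            rw [mem_ed_inr]
            exact ⟨h1, h2.trans (hf2 j').symm⟩
          · left
            obtain ⟨i', rfl⟩ := UAPm_a_surj κ' i h3
            refine ⟨j, i', ?_⟩
            rw [UAPm_edv _ (UAPm_hv hg j i'), mem_ed_inr]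
            exact ⟨h1, h2.trans (UAPm_lnh hg j i' κ').symm⟩
        · left
          refine ⟨j, κ'.castSucc, ?_⟩
          rw [UAPm_edv _ (hg.1 j _), mem_ed_inr]
          exact ⟨h1, h2.trans (UAPm_lnr hg hr j κ').symm⟩
      · rintro (⟨j, i, h⟩ | ⟨j, i, h⟩ | ⟨j, h⟩)
        · rw [UAPm_edv _ (hg.1 j i), mem_ed_inr] at h
          by_cases h3 : i = κ'.castSucc
          · right
            subst h3
            rw [UAPm_lnr hg hr] at h
            exact ⟨j, h⟩
          · left; left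
            obtain ⟨i', rfl⟩ := UAPm_a_surj κ' i h3
            exact ⟨j, i', h.1, h.2.trans (UAPm_lnh hg j i' κ').symm⟩
        · rw [UAPm_edv _ (UAPm_hv hg j i), mem_ed_inr] at h
          left; right
          exact ⟨h.1, j, UAPm_a i κ', h.2.trans (UAPm_lnh hg j i κ')⟩
        · rw [mem_ed_inr] at h
          left; right
          refine ⟨h.1, f j, κ'.castSucc, ?_⟩
          rw [UAPm_lnr hg hr, h.2]
          exact hf2 j
  rw [key]
  -- lines of the `q j`
  have hqg : ∀ (κ' : Fin 3) (j : Fin k), ∃ j', ln κ' (q j) =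
      ln κ' (mkc (gc (rt j') (w.1 j').1 (w.1 j').2 κ'.castSucc) (hg.1 j' _)) := by
    intro κ' j
    obtain ⟨f, hf, hf2⟩ := UAPm_lnq κ pi q κ'
    refine ⟨f j, ?_⟩
    rw [UAPm_lnr hg hr]
    exact hf2 j
  have hqq : ∀ (κ' : Fin 3) (j j' : Fin k), j ≠ j' → ln κ' (q j) ≠ ln κ' (q j') := by
    intro κ' j j' hne
    obtain ⟨f, hf, hf2⟩ := UAPm_lnq κ pi q κ'
    rw [hf2 j, hf2 j', ← UAPm_lnr hg hr, ← UAPm_lnr hg hr]
    apply UAPm_ln_ne
    apply UAPm_gg hg
    intro h
    rw [Prod.mk.injEq] at h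
    exact hne (hf.1 h.1)
  apply PM_union
  · apply UAPm_PM2
    · intro j i
      exact UAPm_PM_edv _ _
    · intro j i j' i' h
      exact UAPm_edv_disj (hg.1 j i) (hg.1 j' i') _ _
        ⟨0, UAPm_gg hg j i j' i' h 0⟩ (fun _ κ => UAPm_gg hg j i j' i' h κ)
  · apply PM_union
    · apply UAPm_PM2
      · intro j i
        exact UAPm_PM_edv _ _
      · intro j i j' i' h
        exact UAPm_edv_disj (UAPm_hv hg j i) (UAPm_hv hg j' i') _ _
          ⟨0, UAPm_hh hg j i j' i' 0 h⟩ (fun _ κ => UAPm_hh hg j i j' i' κ h)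
    · apply PM_biUnion
      · intro j _
        exact PM_ed _ _
      · intro j _ j' _ hne
        apply UAPm_ed_disj
        · intro h
          exact hqq 0 j j' hne (by rw [h])
        · intro _ κ'
          exact hqq κ' j j' hne
    · rw [disjoint_biUnion_left]
      intro j _
      rw [disjoint_biUnion_left]
      intro i _
      rw [disjoint_biUnion_right]
      intro j' _
      rw [UAPm_edv _ (UAPm_hv hg j i)]
      have h0 : ∀ κ', ln κ' (mkc (hc (rt j) (w.1 j).1 (w.1 j).2 i) (UAPm_hv hg j i)) ≠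
          ln κ' (q j') := by
        intro κ'
        obtain ⟨j'', h1⟩ := hqg κ' j'
        rw [h1]
        apply UAPm_ln_ne
        apply UAPm_hg hg
        intro h2
        rw [Prod.mk.injEq] at h2
        exact UAPm_a_ne κ' i h2.2
      apply UAPm_ed_disj
      · intro h
        exact h0 0 (by rw [h])
      · intro _ κ'
        exact h0 κ'
  · rw [disjoint_biUnion_left]
    intro j _
    rw [disjoint_biUnion_left]
    intro i _
    rw [disjoint_union_right]
    constructor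
    · rw [disjoint_biUnion_right]
      intro j' _
      rw [disjoint_biUnion_right]
      intro i' _
      apply Disjoint.symm
      exact UAPm_edv_disj (UAPm_hv hg j' i') (hg.1 j i) _ _ (UAPm_hg_ex hg j' i' j i)
        (fun h => absurd h (hg.2.2 j))
    · rw [disjoint_biUnion_right]
      intro j' _
      rw [UAPm_edv _ (hg.1 j i)]
      apply UAPm_ed_disj
      · intro h
        exact hq j' _ ((UAPm_cell_mem hg _).2 (Or.inr ⟨j, i, rfl⟩)) h.symm
      · intro h
        exact absurd h.symm (hg.2.2 j)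

end H77.LT
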